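import Pool.Agent.Lib.MP_afdd4d_co.K8.F6Blk

/-!
# Blocks from tables for representatives

The block for a pattern and the low bits `x0`, `y0` is a part of the chunk of a representative of the pair
of the pattern and `x0`, transported by an affine map.
-/

namespace Pool.Agent.Lib.MP_afdd4d_co.K8

open Finset

/-- The data of the transport: the patterns and low bits with tables, the affine maps and the
programs. -/
structure BE where
  /-- patterns and low bits with tables -/
  qs : List (ℕ × ℕ)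
  /-- entries for all low bits, in parts of 128 patterns: number of the table plus one, constant,
  columns, number of the program -/
  tab : List (List ℕ)
  /-- programs -/
  prg : List (List (ℕ × ℕ × ℕ))

namespace BE
variable (E : BE)

/-- The entry of a pattern and low bits. -/
def en (p x0 : ℕ) : ℕ := entG (nthG 0 (nthG [] E.tab x0) (Nat.div p 128)) (Nat.mod p 128)

/-- The program of an entry. -/
def pr (p x0 : ℕ) : List (ℕ × ℕ × ℕ) := nthG [] E.prg (Nat.shiftRight (E.en p x0) 118)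

/-- The conditions on an entry. -/
structure EntOK (D : TF) (p x0 t : ℕ) : Prop where
  hl : t < E.qs.length
  hty : D.fd.ty p = D.fd.ty (E.qs.getD t (0, 0)).1
  hau : ∃ ab ac, D.fd.Good (D.fd.ty p) (D.fd.ty p) ab ac ∧
    D.fd.xb (E.qs.getD t (0, 0)).1 ^^^ app (D.fd.xc (E.qs.getD t (0, 0)).1) (conG (E.en p x0)) =
      ab ^^^ app ac (D.fd.xb p) ∧
    ∀ k < 10, app (D.fd.xc (E.qs.getD t (0, 0)).1) (colG (E.en p x0) k) = app ac (D.fd.xc p k)
  hlo : ∀ k < 4, colG (E.en p x0) (6 + k) % 64 = 0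
  hx0 : xrG (E.en p x0) x0 6 % 64 = (E.qs.getD t (0, 0)).2
  hok : okR (E.pr p x0) 8 = true
  hnd : ndG (E.pr p x0) 8 = 8
  hsy : ∀ r < 4, (syG (E.pr p x0) 8 r).testBit 0 = false ∧
    (syG (E.pr p x0) 8 (4 + r)).testBit 0 = false ∧
      ∀ k < 4, (syG (E.pr p x0) 8 r).testBit (k + 1) =
          (colG (E.en p x0) (6 + k)).testBit (6 + r) ∧
        (syG (E.pr p x0) 8 r).testBit (k + 5) = false ∧
        (syG (E.pr p x0) 8 (4 + r)).testBit (k + 1) = false ∧
        (syG (E.pr p x0) 8 (4 + r)).testBit (k + 5) =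
          (colG (E.en p x0) (6 + k)).testBit (6 + r)

/-- The conditions on the data. -/
def OK (D : TF) : Prop := (∀ q ∈ E.qs, q.1 < 1024) ∧ ∀ p < 1024, ∀ x0 < 64,
  (Nat.mod (E.en p x0) 256 = 0 → D.fd.ty p = 0) ∧
  ∀ t, Nat.mod (E.en p x0) 256 = t + 1 → E.EntOK D p x0 t

/-- The block. -/
def blkG (W B : ℕ) (tb : ℕ → ℕ) (p x0 y0 : ℕ) : ℕ :=
  @Nat.rec (fun _ => ℕ) (csG W B 8)
    (fun t _ => ruG W (E.pr p x0) 8 (xkG W 8
      (Nat.add (Nat.div (xrG (E.en p x0) x0 6) 64)
        (Nat.mul 16 (Nat.div (xrG (E.en p x0) y0 6) 64))) 8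
      (slG W 8 (tb t) (Nat.mod (xrG (E.en p x0) y0 6) 64))))
    (Nat.mod (E.en p x0) 256)

variable {E}

/-- The blocks. -/
theorem blkG_ar {D : TF} (h : D.RowsOK) (hp : D.PrOK)
    (hE : E.OK D) (tb : ℕ → ℕ)
    (ht : ∀ t < E.qs.length, tb t = D.chG (E.qs.getD t (0, 0)).1 (E.qs.getD t (0, 0)).2)
    (p x0 y0 : ℕ) (hp1 : p < 1024) (hx : x0 < 64) (hy : y0 < 64) :
    Ar D.W 8 (E.blkG D.W D.B tb p x0 y0) fun b => ((D.B : ℤ) +
      D.fd.g6 (p + 1024 * (x0 + 64 * idx 4 b))
        (p + 1024 * (y0 + 64 * idx 4 fun r => b (4 + r)))).toNat := by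
  have hW : 0 < D.W := by have := h.hn.hW; omega
  obtain ⟨hqs, hE2⟩ := hE
  obtain ⟨hE0, hE1⟩ := hE2 p hp1 x0 hx
  have hBW : D.B < 2 ^ D.W := by
    have e : D.B = 2 ^ D.kb := rfl
    rw [e]
    have := h.hn.hkb
    exact Nat.pow_lt_pow_right (by norm_num) (by omega)
  rcases Nat.eq_zero_or_pos (Nat.mod (E.en p x0) 256) with h0 | h0
  · have e1 : E.blkG D.W D.B tb p x0 y0 = csG D.W D.B 8 := by
      unfold blkG
      rw [h0]
      rfl
    rw [e1]
    refine (csG_ar hW (by omega) 8).congr fun b => ?_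
    rw [TF.g6_pair p _ _ hp1, if_pos (hE0 h0), add_zero, Int.toNat_natCast]
  · obtain ⟨t, ht1⟩ : ∃ t, Nat.mod (E.en p x0) 256 = t + 1 :=
      ⟨Nat.mod (E.en p x0) 256 - 1, by omega⟩
    obtain ⟨htl, h2, ⟨ab, ac, hg, h3, h4⟩, h5, h5', h6, h7, h8⟩ := hE1 t ht1
    set e := E.en p x0 with he
    set q := (E.qs.getD t (0, 0)).1 with hq
    have hq1 : q < 1024 := by
      apply hqs
      rw [List.getD_eq_getElem _ _ htl]
      exact List.getElem_mem htl
    set zx := xrG e x0 6 with hzx
    set zy := xrG e y0 6 with hzy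
    have e1 : E.blkG D.W D.B tb p x0 y0 = ruG D.W (E.pr p x0) 8 (xkG D.W 8
        (zx / 64 + 16 * (zy / 64)) 8 (slG D.W 8 (tb t) (zy % 64))) := by
      have : E.blkG D.W D.B tb p x0 y0 = @Nat.rec (fun _ => ℕ) (csG D.W D.B 8)
        (fun t _ => ruG D.W (E.pr p x0) 8 (xkG D.W 8
          (zx / 64 + 16 * (zy / 64)) 8 (slG D.W 8 (tb t) (zy % 64))))
        (Nat.mod (E.en p x0) 256) := rfl
      rw [this, ht1]
    have hzx2 : zx / 64 < 16 := by
      have := xrG_lt e x0 6
      omega
    have hzy2 : zy / 64 < 16 := by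
      have := xrG_lt e y0 6
      omega
    rw [e1, ht t htl, ← h5']
    have a1 := TF.chG_ar h hp q (zx % 64) hq1
    have a2 := slG_ar (m := 8) (n := 6) hW a1 (zy % 64) (Nat.mod_lt _ (by norm_num))
    have a3 := xkG_ar (k := zx / 64 + 16 * (zy / 64)) hW a2 8 le_rfl
    have a4 := ruG_ar hW (E.pr p x0) 8 _ _ h6 a3
    rw [h7] at a4
    refine a4.congr fun b => ?_
    -- the bits after the program
    have b1 : ∀ r < 4, seG (E.pr p x0) 8 b r =
        xo 4 fun k => b k && (colG e (6 + k)).testBit (6 + r) := by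
      intro r hr
      obtain ⟨c1, _, c3⟩ := h8 r hr
      rw [seG_eq 8 b (E.pr p x0) 8 h6 (by rw [h7]) r (by omega), lf8 _ _ c1]
      have c4 : (xo 4 fun k => b (4 + k) && (syG (E.pr p x0) 8 r).testBit (k + 5)) = false := by
        rw [← xo_false 4]
        apply xo_congr
        intro k hk
        rw [(c3 k hk).2.1, Bool.and_false]
      rw [c4, Bool.xor_false]
      apply xo_congr
      intro k hk
      rw [(c3 k hk).1]
    have b2 : ∀ r < 4, seG (E.pr p x0) 8 b (4 + r) =
        xo 4 fun k => b (4 + k) && (colG e (6 + k)).testBit (6 + r) := by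
      intro r hr
      obtain ⟨_, c2, c3⟩ := h8 r hr
      rw [seG_eq 8 b (E.pr p x0) 8 h6 (by rw [h7]) (4 + r) (by omega), lf8 _ _ c2]
      have c4 : (xo 4 fun k => b k && (syG (E.pr p x0) 8 (4 + r)).testBit (k + 1)) = false := by
        rw [← xo_false 4]
        apply xo_congr
        intro k hk
        rw [(c3 k hk).2.2.1, Bool.and_false]
      rw [c4, Bool.false_xor]
      apply xo_congr
      intro k hk
      rw [(c3 k hk).2.2.2]
    have k1 : ∀ r < 4, (zx / 64 + 16 * (zy / 64)).testBit r = (zx / 64).testBit r := by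
      intro r hr
      have e2 : (zx / 64 + 16 * (zy / 64)) % 2 ^ 4 = zx / 64 := by
        rw [show (2 : ℕ) ^ 4 = 16 from rfl]
        omega
      have e3 := Nat.testBit_mod_two_pow (zx / 64 + 16 * (zy / 64)) 4 r
      rw [e2, decide_eq_true hr, Bool.true_and] at e3
      exact e3.symm
    have k2 : ∀ r, (zx / 64 + 16 * (zy / 64)).testBit (4 + r) = (zy / 64).testBit r := by
      intro r
      have e2 : (zx / 64 + 16 * (zy / 64)) / 2 ^ 4 = zy / 64 := by
        rw [show (2 : ℕ) ^ 4 = 16 from rfl]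
        omega
      rw [add_comm 4 r, ← Nat.testBit_div_two_pow, e2]
    -- the three parts of the index
    have i1 : idx 4 (fun r => if r < 8 then (seG (E.pr p x0) 8 b r ^^ (decide (r < 8) &&
        (zx / 64 + 16 * (zy / 64)).testBit r)) else (zy % 64).testBit (r - 8)) =
        idx 4 fun r => (zx / 64).testBit r ^^
          xo 4 fun k => b k && (colG e (6 + k)).testBit (6 + r) := by
      apply idx_congr
      intro r hr
      have hr8 : r < 8 := by omega
      rw [if_pos hr8, decide_eq_true hr8, Bool.true_and, k1 r hr, b1 r hr, Bool.xor_comm]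
    have i2 : idx 4 (fun r => if 4 + r < 8 then (seG (E.pr p x0) 8 b (4 + r) ^^ (decide (4 + r < 8) &&
        (zx / 64 + 16 * (zy / 64)).testBit (4 + r))) else (zy % 64).testBit (4 + r - 8)) =
        idx 4 fun r => (zy / 64).testBit r ^^
          xo 4 fun k => b (4 + k) && (colG e (6 + k)).testBit (6 + r) := by
      apply idx_congr
      intro r hr
      have hr8 : 4 + r < 8 := by omega
      rw [if_pos hr8, decide_eq_true hr8, Bool.true_and, k2 r, b2 r hr, Bool.xor_comm]
    have i3 : idx 6 (fun r => if 8 + r < 8 then (seG (E.pr p x0) 8 b (8 + r) ^^ (decide (8 + r < 8) &&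
        (zx / 64 + 16 * (zy / 64)).testBit (8 + r))) else (zy % 64).testBit (8 + r - 8)) =
        zy % 64 := by
      have e2 : ∀ r < 6, (if 8 + r < 8 then (seG (E.pr p x0) 8 b (8 + r) ^^ (decide (8 + r < 8) &&
          (zx / 64 + 16 * (zy / 64)).testBit (8 + r))) else (zy % 64).testBit (8 + r - 8)) =
          (zy % 64).testBit r := by
        intro r _
        rw [if_neg (by omega), Nat.add_sub_cancel_left]
      rw [idx_congr 6 _ _ e2]
      exact idx_testBit 6 _ (Nat.mod_lt _ (by norm_num))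
    have i0 : ∀ f : ℕ → ℕ → ℕ → ℕ, f
        (idx 4 (fun r => if r < 8 then (seG (E.pr p x0) 8 b r ^^ (decide (r < 8) &&
          (zx / 64 + 16 * (zy / 64)).testBit r)) else (zy % 64).testBit (r - 8)))
        (idx 6 (fun r => if 8 + r < 8 then (seG (E.pr p x0) 8 b (8 + r) ^^ (decide (8 + r < 8) &&
          (zx / 64 + 16 * (zy / 64)).testBit (8 + r))) else (zy % 64).testBit (8 + r - 8)))
        (idx 4 (fun r => if 4 + r < 8 then (seG (E.pr p x0) 8 b (4 + r) ^^ (decide (4 + r < 8) &&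
          (zx / 64 + 16 * (zy / 64)).testBit (4 + r))) else (zy % 64).testBit (4 + r - 8))) =
        f (idx 4 fun r => (zx / 64).testBit r ^^
          xo 4 fun k => b k && (colG e (6 + k)).testBit (6 + r)) (zy % 64)
          (idx 4 fun r => (zy / 64).testBit r ^^
          xo 4 fun k => b (4 + k) && (colG e (6 + k)).testBit (6 + r)) := by
      intro f
      rw [i1, i2, i3]
    have key := i0 fun X y Y => ((D.B : ℤ) + D.fd.g6 (q + 1024 * (zx % 64 + 64 * X))
      (q + 1024 * (y + 64 * Y))).toNat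
    refine Eq.trans key ?_
    have m1 := split_map e h5 x0 hx b
    have m2 := split_map e h5 y0 hy fun r => b (4 + r)
    rw [← hzx] at m1
    rw [← hzy] at m2
    rw [← m1, ← m2, TF.g6_pair p _ _ hp1, TF.g6_pair q _ _ hq1, ← h2]
    have hX : ∀ x : ℕ, D.fd.X q (conG e ^^^ lx 10 (colG e) x.testBit).testBit =
        ab ^^^ app ac (D.fd.X p x.testBit) := by
      intro x
      have e4 : D.fd.X q (conG e ^^^ lx 10 (colG e) x.testBit).testBit =
          D.fd.xb q ^^^ app (D.fd.xc q) (conG e ^^^ lx 10 (colG e) x.testBit) := rfl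
      have e5 : D.fd.X p x.testBit = D.fd.xb p ^^^ lx 10 (D.fd.xc p) x.testBit := rfl
      rw [e4, e5, app_xor, ← Nat.xor_assoc, h3, app_xor, ← Nat.xor_assoc, app_lx, app_lx]
      congr 1
      exact lx_congr _ _ _ _ _ (fun _ _ => rfl) h4
    rw [hX, hX, hg]

end BE

end Pool.Agent.Lib.MP_afdd4d_co.K8
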