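import Pool.Agent.Lib.MP_afdd4d_co.K8.F6Def

/-!
# The kernel of the six-vertex types
-/

namespace Pool.Agent.Lib.MP_afdd4d_co.K8

open Finset

theorem qd_low : ∀ r < 10, qd 7 r = (qd 6 r).image Fin.castSucc := by decide +kernel

section tup
variable {n : ℕ} (H : Finset (Finset (Fin n)))

/-- The code of an even flag. -/
def cd (s : Fin 6 → Fin n) (u : Fin n) : ℕ := idx 20 (gc H (Fin.snoc s u : Fin 7 → Fin n))

theorem gc_snoc_low (s : Fin 6 → Fin n) (u : Fin n) (r : ℕ) (hr : r < 10) :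
    gc H (Fin.snoc s u : Fin 7 → Fin n) r = gc H s r := by
  have e : s = (Fin.snoc s u : Fin 7 → Fin n) ∘ Fin.castSucc := by
    funext i
    rw [Function.comp_apply, Fin.snoc_castSucc]
  rw [gc, gc, qd_low r hr]
  conv_rhs => rw [e]
  rw [zb_comp]

theorem snoc_comp (s : Fin 6 → Fin n) (u : Fin n) (i : Fin 5) :
    (Fin.snoc (s ∘ Equiv.swap i.castSucc i.succ) u : Fin 7 → Fin n) =
      (Fin.snoc s u : Fin 7 → Fin n) ∘ ex7 i := by
  funext j
  have h1 : ∀ (a b x : Fin 6), Fin.castSucc (Equiv.swap a b x) =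
      Equiv.swap a.castSucc b.castSucc x.castSucc := by
    intro a b x
    by_cases hxa : x = a
    · rw [hxa, Equiv.swap_apply_left, Equiv.swap_apply_left]
    · by_cases hxb : x = b
      · rw [hxb, Equiv.swap_apply_right, Equiv.swap_apply_right]
      · rw [Equiv.swap_apply_of_ne_of_ne hxa hxb, Equiv.swap_apply_of_ne_of_ne]
        · exact fun h => hxa (Fin.castSucc_injective _ h)
        · exact fun h => hxb (Fin.castSucc_injective _ h)
  have e0 : ex7 i = Equiv.swap (i.castSucc : Fin 6).castSucc (i.succ : Fin 6).castSucc := rfl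
  refine Fin.lastCases ?_ (fun j => ?_) j
  · rw [Fin.snoc_last, Function.comp_apply, e0, Equiv.swap_apply_of_ne_of_ne, Fin.snoc_last]
    · intro h
      exact absurd h.symm (Fin.castSucc_lt_last _).ne
    · intro h
      exact absurd h.symm (Fin.castSucc_lt_last _).ne
  · rw [Fin.snoc_castSucc, Function.comp_apply, Function.comp_apply, e0, ← h1, Fin.snoc_castSucc]

end tup

namespace FD
variable (D : FD)

/-- The kernel as a function of vertices. -/
def gk {n : ℕ} (H : Finset (Finset (Fin n))) (s : Fin 6 → Fin n) (u w : Fin n) : ℤ :=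
  D.g6 (cd H s u) (cd H s w)

/-- The conditions for the invariance. -/
def InvOK : Prop := ∀ i < 5, ∀ p < 1024, (D.ty p = 0 ↔ D.ty (mvp i p) = 0) ∧
  (D.ty p ≠ 0 → ∃ ab ac, D.LinkOK i p ab ac ∧ D.Good (D.ty p) (D.ty (mvp i p)) ab ac)

theorem evk_ex (hD : D.InvOK) {n : ℕ} (H : Finset (Finset (Fin n))) (s : Fin 6 → Fin n)
    (u w : Fin n) (i : Fin 5) :
    evk H (D.gk H) (s ∘ Equiv.swap i.castSucc i.succ) u w = evk H (D.gk H) s u w := by
  have hiff : (EvT H (Fin.snoc (s ∘ Equiv.swap i.castSucc i.succ) u : Fin 7 → Fin n) ∧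
      EvT H (Fin.snoc (s ∘ Equiv.swap i.castSucc i.succ) w : Fin 7 → Fin n)) ↔
      (EvT H (Fin.snoc s u : Fin 7 → Fin n) ∧ EvT H (Fin.snoc s w : Fin 7 → Fin n)) := by
    rw [snoc_comp, snoc_comp, evT_perm, evT_perm]
  unfold evk
  by_cases hev : EvT H (Fin.snoc s u : Fin 7 → Fin n) ∧ EvT H (Fin.snoc s w : Fin 7 → Fin n)
  · rw [if_pos hev, if_pos (hiff.mpr hev)]
    unfold gk cd
    rw [snoc_comp, snoc_comp, gc7_ex H _ hev.1 i, gc7_ex H _ hev.2 i]
    have h := hD i i.isLt (idx 10 (gc H (Fin.snoc s u : Fin 7 → Fin n))) (idx_lt 10 _)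
    apply D.g6_move i i.isLt _ _ _ h.1 h.2
    intro k hk
    rw [gc_snoc_low H s u k hk, gc_snoc_low H s w k hk]
  · rw [if_neg hev, if_neg fun h => hev (hiff.mp h)]

/-- The kernel is invariant under permutations of the type. -/
theorem evk_perm (hD : D.InvOK) {n : ℕ} (H : Finset (Finset (Fin n))) (τ : Equiv.Perm (Fin 6)) :
    ∀ (s : Fin 6 → Fin n) (u w : Fin n),
      evk H (D.gk H) (s ∘ τ) u w = evk H (D.gk H) s u w := by
  have h1 : τ ∈ Submonoid.closure (Set.range fun i : Fin 5 => Equiv.swap i.castSucc i.succ) := by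
    rw [Equiv.Perm.mclosure_swap_castSucc_succ]
    exact Submonoid.mem_top _
  induction h1 using Submonoid.closure_induction with
  | mem x hx =>
    obtain ⟨i, rfl⟩ := hx
    intro s u w
    exact D.evk_ex hD H s u w i
  | one =>
    intro s u w
    rfl
  | mul x y _ _ hx hy =>
    intro s u w
    have e : s ∘ (x * y) = (s ∘ x) ∘ y := rfl
    rw [e, hy, hx]

/-- The matrices are positive semidefinite. -/
def PsdOK : Prop := ∀ τ, ∀ a : ℕ → ℝ,
  0 ≤ ∑ i ∈ range (D.ns τ), ∑ j ∈ range (D.ns τ), (D.m τ i j : ℝ) * (a i * a j)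

theorem bil_sum_nonneg (hD : D.PsdOK) (τ : ℕ) {ι : Type*} (U : Finset ι) (z : ι → ℕ) :
    0 ≤ ∑ u ∈ U, ∑ w ∈ U, ((D.bil τ (z u) (z w) : ℤ) : ℝ) := by
  have h := hD τ fun i => ∑ u ∈ U, ((D.fn τ i (z u) : ℤ) : ℝ)
  refine le_trans h (le_of_eq ?_)
  unfold bil
  push_cast
  have e1 : ∀ u ∈ U, ∑ w ∈ U, ∑ i ∈ range (D.ns τ), ∑ j ∈ range (D.ns τ),
      (D.m τ i j : ℝ) * (((D.fn τ i (z u) : ℤ) : ℝ) *
        ((D.fn τ j (z w) : ℤ) : ℝ)) =
      ∑ i ∈ range (D.ns τ), ∑ j ∈ range (D.ns τ), (D.m τ i j : ℝ) *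
        (((D.fn τ i (z u) : ℤ) : ℝ) * ∑ w ∈ U, ((D.fn τ j (z w) : ℤ) : ℝ)) := by
    intro u _
    rw [Finset.sum_comm]
    refine Finset.sum_congr rfl fun i _ => ?_
    rw [Finset.sum_comm]
    refine Finset.sum_congr rfl fun j _ => ?_
    rw [Finset.mul_sum, Finset.mul_sum]
  symm
  rw [Finset.sum_congr rfl e1, Finset.sum_comm]
  refine Finset.sum_congr rfl fun i _ => ?_
  rw [Finset.sum_comm]
  refine Finset.sum_congr rfl fun j _ => ?_
  rw [Finset.sum_mul, Finset.mul_sum]

theorem evk_psd (hD : D.PsdOK) {n : ℕ} (H : Finset (Finset (Fin n))) (s : Fin 6 → Fin n) :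
    0 ≤ ∑ u, ∑ w, ((evk H (D.gk H) s u w : ℤ) : ℝ) := by
  set p := idx 10 (gc H s) with hp
  have hpat : ∀ u : Fin n, cd H s u % 1024 = p := by
    intro u
    rw [cd, idx_twenty_mod, hp]
    exact idx_congr 10 _ _ fun r hr => gc_snoc_low H s u r hr
  by_cases h0 : D.ty p = 0
  · have h1 : ∀ u w, evk H (D.gk H) s u w = 0 := by
      intro u w
      unfold evk gk g6
      rw [hpat, if_pos h0, ite_self]
    simp [h1]
  · set U : Finset (Fin n) := univ.filter fun u => EvT H (Fin.snoc s u : Fin 7 → Fin n) with hU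
    set z : Fin n → ℕ := fun u => D.X p fun k => (cd H s u).testBit (10 + k) with hz
    have h1 : ∀ u w, evk H (D.gk H) s u w =
        if u ∈ U then (if w ∈ U then D.bil (D.ty p) (z u) (z w) else 0) else 0 := by
      intro u w
      unfold evk gk g6
      rw [hpat, if_neg h0]
      by_cases hu : EvT H (Fin.snoc s u : Fin 7 → Fin n)
      · by_cases hw : EvT H (Fin.snoc s w : Fin 7 → Fin n)
        · have hu' : u ∈ U := by rw [hU, Finset.mem_filter]; exact ⟨Finset.mem_univ _, hu⟩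
          have hw' : w ∈ U := by rw [hU, Finset.mem_filter]; exact ⟨Finset.mem_univ _, hw⟩
          rw [if_pos ⟨hu, hw⟩, if_pos hu', if_pos hw']
        · have hw' : w ∉ U := by
            rw [hU, Finset.mem_filter]
            exact fun h => hw h.2
          rw [if_neg fun h => hw h.2, if_neg hw', ite_self]
      · have hu' : u ∉ U := by
          rw [hU, Finset.mem_filter]
          exact fun h => hu h.2
        rw [if_neg fun h => hu h.1, if_neg hu']
    have h2 : ∑ u, ∑ w, ((evk H (D.gk H) s u w : ℤ) : ℝ) =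
        ∑ u ∈ U, ∑ w ∈ U, ((D.bil (D.ty p) (z u) (z w) : ℤ) : ℝ) := by
      have e1 : ∀ u, ∑ w, ((evk H (D.gk H) s u w : ℤ) : ℝ) =
          if u ∈ U then ∑ w ∈ U, ((D.bil (D.ty p) (z u) (z w) : ℤ) : ℝ) else 0 := by
        intro u
        by_cases hu : u ∈ U
        · rw [if_pos hu, ← Finset.sum_filter_add_sum_filter_not univ (fun w => w ∈ U)]
          have e2 : (univ.filter fun w => w ∈ U) = U := by
            ext w
            simp
          rw [e2]
          have e3 : ∑ w ∈ univ.filter (fun w => ¬ w ∈ U), ((evk H (D.gk H) s u w : ℤ) : ℝ) = 0 := by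
            refine Finset.sum_eq_zero fun w hw => ?_
            rw [h1, if_pos hu, if_neg (Finset.mem_filter.mp hw).2]
            simp
          rw [e3, add_zero]
          refine Finset.sum_congr rfl fun w hw => ?_
          rw [h1, if_pos hu, if_pos hw]
        · rw [if_neg hu]
          refine Finset.sum_eq_zero fun w _ => ?_
          rw [h1, if_neg hu]
          simp
      rw [Finset.sum_congr rfl fun u _ => e1 u, ← Finset.sum_filter]
      have e2 : (univ.filter fun w => w ∈ U) = U := by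
        ext w
        simp
      rw [e2]
    rw [h2]
    exact D.bil_sum_nonneg hD _ U z

/-- The values are bounded. -/
def BilOK (B : ℕ) : Prop := ∀ τ z z', |D.bil τ z z'| ≤ B

theorem g6_abs (B : ℕ) (hD : D.BilOK B) (c d : ℕ) : |D.g6 c d| ≤ B := by
  unfold g6
  split_ifs
  · rw [abs_zero]
    exact Int.natCast_nonneg _
  · exact hD _ _ _

/-- The kernel for the eight-vertex level. -/
def kern (B : ℕ) (h1 : D.PsdOK) (h2 : D.BilOK B) : Kern 6 where
  f := fun {n} (H : Finset (Finset (Fin n))) => evk H (D.gk H)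
  C := B
  psd := fun H s => D.evk_psd h1 H s
  bd := by
    intro n H s u w
    have h3 : evk H (D.gk H) s u w ≤ (B : ℤ) := by
      unfold evk
      split_ifs
      · exact le_trans (le_abs_self _) (D.g6_abs B h2 _ _)
      · exact Int.natCast_nonneg _
    exact_mod_cast h3

end FD

end Pool.Agent.Lib.MP_afdd4d_co.K8
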