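import Pool.Agent.Lib.MP_afdd4d_co.K8.Flag
import Pool.Agent.Lib.MP_afdd4d_co.K8.F6Kern

/-!
# The sum of the terms of an even tuple
-/

namespace Pool.Agent.Lib.MP_afdd4d_co.K8

open Finset

/-! ### Pairs -/

/-- The index of `y` in the vertices different from `x`. -/
def ya (x y : Fin 8) : Fin 7 := Fin.ofNat 7 (if y.val < x.val then y.val else y.val - 1)

theorem ya_spec : ∀ x y : Fin 8, x ≠ y → x.succAbove (ya x y) = y := by decide +kernel

theorem ya_succAbove : ∀ (x : Fin 8) (y : Fin 7), ya x (x.succAbove y) = y := by decide +kernel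

theorem ya_symm : ∀ x y : Fin 8, x ≠ y → ∀ i : Fin 6,
    x.succAbove ((ya x y).succAbove i) = y.succAbove ((ya y x).succAbove i) := by decide +kernel

/-- The six vertices different from `5` and `6`. -/
def a1 : Fin 6 → Fin 8 := ![0, 1, 2, 3, 4, 7]

theorem a1_eq : ∀ i : Fin 6, (5 : Fin 8).succAbove ((5 : Fin 7).succAbove i) = a1 i := by
  decide +kernel

theorem a2_eq : ∀ i : Fin 6, (6 : Fin 8).succAbove ((6 : Fin 7).succAbove i) =
    Fin.castLE (by norm_num) i := by
  decide +kernel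

section pairs
variable {V : Type*}

/-- The term of the pair `x, y`. -/
def KX (κ : (Fin 6 → V) → V → V → ℤ) (t : Fin 8 → V) (x y : Fin 8) : ℤ :=
  κ (t ∘ x.succAbove ∘ (ya x y).succAbove) (t x) (t y)

theorem KX_symm (κ : (Fin 6 → V) → V → V → ℤ) (hs : ∀ s u w, κ s u w = κ s w u) (t : Fin 8 → V)
    (x y : Fin 8) (hxy : x ≠ y) : KX κ t x y = KX κ t y x := by
  unfold KX
  rw [hs]
  congr 1
  funext i
  simp only [Function.comp_apply]
  rw [ya_symm x y hxy i]

theorem KX_perm (κ : (Fin 6 → V) → V → V → ℤ)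
    (hκ : ∀ (τ : Equiv.Perm (Fin 6)) s u w, κ (s ∘ τ) u w = κ s u w)
    (σ : Equiv.Perm (Fin 8)) (t : Fin 8 → V) (x y : Fin 8) (hxy : x ≠ y) :
    KX κ (t ∘ σ) x y = KX κ t (σ x) (σ y) := by
  obtain ⟨τ, hτ⟩ := exists_succAbove_perm (m := 7) σ x
  obtain ⟨τ', hτ'⟩ := exists_succAbove_perm (m := 6) τ (ya x y)
  have h1 : τ (ya x y) = ya (σ x) (σ y) := by
    have h2 := hτ (ya x y)
    rw [ya_spec x y hxy] at h2
    rw [h2, ya_succAbove]
  have e : (t ∘ σ) ∘ x.succAbove ∘ (ya x y).succAbove =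
      (t ∘ (σ x).succAbove ∘ (ya (σ x) (σ y)).succAbove) ∘ τ' := by
    funext i
    simp only [Function.comp_apply]
    rw [hτ, hτ', h1]
  unfold KX
  rw [e, hκ]
  rfl

theorem PS_eq_KX (κ : (Fin 6 → V) → V → V → ℤ) (t : Fin 8 → V) :
    PS κ t = ∑ x : Fin 8, ∑ y : Fin 7, KX κ t x (x.succAbove y) := by
  unfold PS KX
  refine Finset.sum_congr rfl fun x _ => Finset.sum_congr rfl fun y _ => ?_
  rw [ya_succAbove]

end pairs

/-! ### The pairs and the vertices of a word -/

/-- The pairs of the terms of a word. -/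
def pw : List ℕ → (Fin 8 → Fin 8) → List (Fin 8 × Fin 8)
  | [], _ => []
  | k :: l, π =>
    if k = 10 then (π 5, π 6) :: pw l π else if k = 11 then (π 6, π 7) :: pw l π
      else pw l (π ∘ exK k)

/-- The vertices of the terms of a word. -/
def qw : List ℕ → (Fin 8 → Fin 8) → List (Fin 8)
  | [], _ => []
  | k :: l, π =>
    if k = 10 then qw l π else if k = 11 then π 6 :: qw l π else qw l (π ∘ exK k)

/-- All pairs of different vertices. -/
def allP : List (Fin 8 × Fin 8) :=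
  (List.finRange 8).flatMap fun x => (List.finRange 7).map fun y => (x, x.succAbove y)

theorem pw_wd : ((pw wd id) ++ (pw wd id).map Prod.swap).Perm allP := by decide +kernel

theorem qw_wd : (7 :: qw wd id).Perm (List.finRange 8) := by decide +kernel

theorem pw_wd_len : (pw wd id).length = 28 := by decide +kernel

theorem sum_allP (F : Fin 8 × Fin 8 → ℤ) :
    (allP.map F).sum = ∑ x : Fin 8, ∑ y : Fin 7, F (x, x.succAbove y) := by
  have h1 : ∀ (n : ℕ) (f : Fin n → ℤ), ∑ x : Fin n, f x = ((List.finRange n).map f).sum := by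
    intro n f
    rw [← List.sum_ofFn, List.ofFn_eq_map]
  rw [h1, allP, List.map_flatMap, sum_flatMap_int]
  refine congrArg List.sum (List.map_congr_left fun x _ => ?_)
  rw [h1, List.map_map]
  rfl

section codes
variable {n : ℕ} (H : Finset (Finset (Fin n)))

theorem gc_exK (t : Fin 8 → Fin n) (hev : EvT H t) (k : ℕ) (hk : k < 10) :
    ∀ i < 35, mvz k (gc H t) i = gc H (t ∘ exK k) i := by
  obtain ⟨h1, h2, _, _, _, _⟩ := mvc_data k hk
  intro i hi
  have h3 : ((qd 8 i).image (exK k)).card = 4 := by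
    by_cases h5 : i < 20
    · exact (h1 i h5).1
    · obtain ⟨_, _, _, h9, h10⟩ := lai_data (i - 20) (by omega)
      have h7 := (h2 _ h9).1
      have h11 : lam.getD (lai.getD (i - 20) 0) 0 = i := by omega
      rw [h11] at h7
      exact h7
  rw [gc_comp H t hev _ i h3]
  rfl

theorem snoc_f1 (t : Fin 8 → Fin n) : (Fin.snoc (t ∘ a1) (t 5) : Fin 7 → Fin n) = t ∘ f1 := by
  funext i
  fin_cases i <;> rfl

theorem snoc_f2 (t : Fin 8 → Fin n) : (Fin.snoc (t ∘ a1) (t 6) : Fin 7 → Fin n) = t ∘ f2 := by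
  funext i
  fin_cases i <;> rfl

theorem snoc_f3 (t : Fin 8 → Fin n) :
    (Fin.snoc (t ∘ (Fin.castLE (by norm_num) : Fin 6 → Fin 8)) (t 6) : Fin 7 → Fin n) = t ∘ f3 := by
  funext i
  fin_cases i <;> rfl

theorem snoc_f4 (t : Fin 8 → Fin n) :
    (Fin.snoc (t ∘ (Fin.castLE (by norm_num) : Fin 6 → Fin 8)) (t 7) : Fin 7 → Fin n) = t ∘ f4 := by
  funext i
  fin_cases i <;> rfl

theorem f4_eq : (f4 : Fin 7 → Fin 8) = (6 : Fin 8).succAbove := by
  funext i
  fin_cases i <;> rfl

theorem f3_eq : (f3 : Fin 7 → Fin 8) = (7 : Fin 8).succAbove := by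
  funext i
  fin_cases i <;> rfl

/-- The kernel given by a function of two codes. -/
def gK (g : ℕ → ℕ → ℤ) (s : Fin 6 → Fin n) (u w : Fin n) : ℤ := g (cd H s u) (cd H s w)

theorem evT_flag (t : Fin 8 → Fin n) (hev : EvT H t) (f : Fin 7 → Fin 8)
    (hf : Function.Injective f) : EvT H (t ∘ f) := evT_comp H t f hf hev

theorem f1_inj : Function.Injective f1 := by decide
theorem f2_inj : Function.Injective f2 := by decide
theorem f3_inj : Function.Injective f3 := by decide
theorem f4_inj : Function.Injective f4 := by decide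

theorem K1z_tuple (g : ℕ → ℕ → ℤ) (O : ℕ) (hO : ∀ c d, -(O : ℤ) ≤ g c d) (t : Fin 8 → Fin n)
    (hev : EvT H t) :
    ((K1z (gN g O) (gc H t) : ℕ) : ℤ) = O + KX (evk H (gK H g)) t 5 6 := by
  have e1 : t ∘ (5 : Fin 8).succAbove ∘ (ya 5 6).succAbove = t ∘ a1 := by
    funext i
    have h := a1_eq i
    simp only [Function.comp_apply]
    have h2 : ya 5 6 = 5 := by decide
    rw [h2, h]
  have h1 := idx_flag H t f1 sP sX rfl f1_data
  have h2 := idx_flag H t f2 sP sY rfl f2_data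
  unfold K1z gN KX
  rw [e1]
  unfold evk
  rw [snoc_f1, snoc_f2, if_pos ⟨evT_flag H t hev f1 f1_inj, evT_flag H t hev f2 f2_inj⟩]
  unfold gK cd
  rw [snoc_f1, snoc_f2, h1, h2]
  apply Int.toNat_of_nonneg
  have := hO (idx 10 (sel sP (gc H t)) + 1024 * idx 10 (sel sX (gc H t)))
    (idx 10 (sel sP (gc H t)) + 1024 * idx 10 (sel sY (gc H t)))
  linarith

theorem Rz_tuple (g : ℕ → ℕ → ℤ) (O : ℕ) (Q : ℕ → ℕ) (hO : ∀ c d, -(O : ℤ) ≤ g c d)
    (t : Fin 8 → Fin n) (hev : EvT H t) :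
    ((Rz (gN g O) Q (gc H t) : ℕ) : ℤ) = O + KX (evk H (gK H g)) t 6 7 +
      Q (idx 20 (gc H (t ∘ (6 : Fin 8).succAbove))) := by
  have e1 : t ∘ (6 : Fin 8).succAbove ∘ (ya 6 7).succAbove =
      t ∘ (Fin.castLE (by norm_num) : Fin 6 → Fin 8) := by
    funext i
    have h := a2_eq i
    simp only [Function.comp_apply]
    have h2 : ya 6 7 = 6 := by decide
    rw [h2, h]
  have h1 := idx_flag H t f3 rP rX rfl f3_data
  have h2 := idx_flag H t f4 rP rY rfl f4_data
  unfold Rz gN KX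
  rw [e1]
  unfold evk
  rw [snoc_f3, snoc_f4, if_pos ⟨evT_flag H t hev f3 f3_inj, evT_flag H t hev f4 f4_inj⟩]
  unfold gK cd
  rw [snoc_f3, snoc_f4, ← f4_eq, h1, h2]
  push_cast
  congr 1
  apply Int.toNat_of_nonneg
  have := hO (idx 10 (sel rP (gc H t)) + 1024 * idx 10 (sel rX (gc H t)))
    (idx 10 (sel rP (gc H t)) + 1024 * idx 10 (sel rY (gc H t)))
  linarith

/-- The sum of the terms of a word at an even tuple. -/
theorem fV_tuple (g : ℕ → ℕ → ℤ) (O O' : ℕ) (Q : ℕ → ℕ) (hO : ∀ c d, -(O : ℤ) ≤ g c d)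
    (hp : ∀ (τ : Equiv.Perm (Fin 6)) s u w, evk H (gK H g) (s ∘ τ) u w = evk H (gK H g) s u w)
    (q : (Fin 7 → Fin n) → ℤ) (hq : ∀ (τ : Equiv.Perm (Fin 7)) s, q (s ∘ τ) = q s)
    (t : Fin 8 → Fin n) (ht : Function.Injective t) (hev : EvT H t)
    (hQ : ∀ s : Fin 7 → Fin n, Function.Injective s → EvT H s →
      2 * (O' : ℤ) + q s ≤ 2 * (Q (idx 20 (gc H s)) : ℤ))
    (l : List ℕ) (hl : ∀ k ∈ l, k < 12) : ∀ π : Equiv.Perm (Fin 8),
    2 * ((pw l π).map fun x => (O : ℤ) + KX (evk H (gK H g)) t x.1 x.2).sum +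
      ((qw l π).map fun v => 2 * (O' : ℤ) + q (t ∘ v.succAbove)).sum ≤
    2 * ((fV (gN g O) Q l (gc H (t ∘ π)) : ℕ) : ℤ) := by
  induction l with
  | nil =>
    intro π
    simp [pw, qw, fV]
  | cons k l ih =>
    intro π
    have ih' := ih fun k' hk' => hl k' (List.mem_cons_of_mem _ hk')
    have hk := hl k List.mem_cons_self
    have hevπ : EvT H (t ∘ π) := (evT_perm H t π).mpr hev
    by_cases h10 : k = 10
    · subst h10
      have e1 : pw (10 :: l) π = (π 5, π 6) :: pw l π := rfl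
      have e2 : qw (10 :: l) π = qw l π := rfl
      have e3 : fV (gN g O) Q (10 :: l) (gc H (t ∘ π)) =
        fV (gN g O) Q l (gc H (t ∘ π)) + K1z (gN g O) (gc H (t ∘ π)) := rfl
      rw [e1, e2, e3, List.map_cons, List.sum_cons, Nat.cast_add, K1z_tuple H g O hO _ hevπ,
        KX_perm _ hp π t 5 6 (by decide)]
      have := ih' π
      linarith
    · by_cases h11 : k = 11
      · subst h11
        have e1 : pw (11 :: l) π = (π 6, π 7) :: pw l π := rfl
        have e2 : qw (11 :: l) π = π 6 :: qw l π := rfl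
        have e3 : fV (gN g O) Q (11 :: l) (gc H (t ∘ π)) =
          fV (gN g O) Q l (gc H (t ∘ π)) + Rz (gN g O) Q (gc H (t ∘ π)) := rfl
        rw [e1, e2, e3, List.map_cons, List.sum_cons, List.map_cons, List.sum_cons, Nat.cast_add,
          Rz_tuple H g O Q hO _ hevπ, KX_perm _ hp π t 6 7 (by decide)]
        have h1 := ih' π
        have h2 := hQ ((t ∘ π) ∘ (6 : Fin 8).succAbove)
          ((ht.comp π.injective).comp Fin.succAbove_right_injective)
          (evT_comp H _ _ Fin.succAbove_right_injective hevπ)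
        obtain ⟨τ, hτ⟩ := exists_succAbove_perm (m := 7) π 6
        have e4 : (t ∘ π) ∘ (6 : Fin 8).succAbove = (t ∘ (π 6).succAbove) ∘ τ := by
          funext i
          simp only [Function.comp_apply]
          rw [hτ]
        have h3 : q ((t ∘ π) ∘ (6 : Fin 8).succAbove) = q (t ∘ (π 6).succAbove) := by
          rw [e4, hq]
        rw [h3] at h2
        linarith
      · have hk10 : k < 10 := by omega
        have e1 : pw (k :: l) π = pw l (π ∘ exK k) := by rw [pw, if_neg h10, if_neg h11]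
        have e2 : qw (k :: l) π = qw l (π ∘ exK k) := by rw [qw, if_neg h10, if_neg h11]
        have e3 : fV (gN g O) Q (k :: l) (gc H (t ∘ π)) =
          fV (gN g O) Q l (mvz k (gc H (t ∘ π))) := by rw [fV, if_neg h10, if_neg h11]
        have e4 := fV_congr (gN g O) Q l _ _ (gc_exK H (t ∘ π) hevπ k hk10)
        rw [e1, e2, e3, e4]
        exact ih' (π * exK k)

/-- The local inequality for an even tuple. -/
theorem even_local (g : ℕ → ℕ → ℤ) (O O' K : ℕ) (Q : ℕ → ℕ) (hO : ∀ c d, -(O : ℤ) ≤ g c d)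
    (hs : ∀ c d, g c d = g d c)
    (hp : ∀ (τ : Equiv.Perm (Fin 6)) s u w, evk H (gK H g) (s ∘ τ) u w = evk H (gK H g) s u w)
    (q : (Fin 7 → Fin n) → ℤ) (hq : ∀ (τ : Equiv.Perm (Fin 7)) s, q (s ∘ τ) = q s)
    (t : Fin 8 → Fin n) (ht : Function.Injective t) (hev : EvT H t)
    (hQ : ∀ s : Fin 7 → Fin n, Function.Injective s → EvT H s →
      2 * (O' : ℤ) + q s ≤ 2 * (Q (idx 20 (gc H s)) : ℤ))
    (hK : K + Q (idx 20 (gc H t)) ≤ 28 * O + 8 * O')
    (h : fV (gN g O) Q wd (gc H t) ≤ K) :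
    DS q t + PS (evk H (gK H g)) t ≤ 0 := by
  have h1 := fV_tuple H g O O' Q hO hp q hq t ht hev hQ wd (by decide) 1
  have hid : ((1 : Equiv.Perm (Fin 8)) : Fin 8 → Fin 8) = id := rfl
  rw [hid, Function.comp_id] at h1
  -- the pairs
  set F : Fin 8 × Fin 8 → ℤ := fun x => KX (evk H (gK H g)) t x.1 x.2 with hF
  have hFs : ∀ x : Fin 8 × Fin 8, x ∈ pw wd id → F x.swap = F x := by
    intro x hx
    have hne : ∀ x ∈ pw wd id, x.1 ≠ x.2 := by decide +kernel
    exact KX_symm _ (fun s u w => by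
      unfold evk gK
      rw [hs]
      congr 1
      exact propext And.comm) t _ _ (hne x hx).symm
  have h2 : 2 * ((pw wd id).map F).sum = PS (evk H (gK H g)) t := by
    rw [PS_eq_KX]
    have h3 := sum_allP F
    rw [← (pw_wd.map F).sum_eq, List.map_append, List.sum_append, List.map_map] at h3
    have h4 : (pw wd id).map (F ∘ Prod.swap) = (pw wd id).map F := List.map_congr_left hFs
    rw [h4] at h3
    rw [two_mul, h3]
  have h5 : ((pw wd id).map fun x => (O : ℤ) + KX (evk H (gK H g)) t x.1 x.2).sum =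
      28 * O + ((pw wd id).map F).sum := by
    rw [List.sum_map_add, List.map_const', List.sum_replicate, pw_wd_len, nsmul_eq_mul]
    rfl
  -- the vertices
  set q' : Fin 8 → ℤ := fun v => 2 * (O' : ℤ) + q (t ∘ v.succAbove) with hq'
  have h6 : q' 7 + ((qw wd id).map q').sum = 8 * (2 * O') + DS q t := by
    have h7 := (qw_wd.map q').sum_eq
    rw [List.map_cons, List.sum_cons] at h7
    rw [h7, ← List.ofFn_eq_map, List.sum_ofFn, hq', Finset.sum_add_distrib, Finset.sum_const,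
      Finset.card_univ, Fintype.card_fin, nsmul_eq_mul]
    rfl
  have h8 : q' 7 ≤ 2 * (Q (idx 20 (gc H t)) : ℤ) := by
    have h9 := hQ (t ∘ (7 : Fin 8).succAbove) (ht.comp Fin.succAbove_right_injective)
      (evT_comp H _ _ Fin.succAbove_right_injective hev)
    have h10 := idx_flag H t f3 rP rX rfl f3_data
    have h11 : idx 20 (gc H t) = idx 10 (sel rP (gc H t)) + 1024 * idx 10 (sel rX (gc H t)) := by
      rw [show (20 : ℕ) = 10 + 10 from rfl, idx_add_ten]
      have e1 : ∀ r < 10, rP.getD r 0 = r := by decide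
      have e2 : ∀ r < 10, rX.getD r 0 = 10 + r := by decide
      have e3 : idx 10 (gc H t) = idx 10 (sel rP (gc H t)) := by
        apply idx_congr
        intro r hr
        rw [sel, e1 r hr]
      have e4 : (idx 10 fun k => gc H t (10 + k)) = idx 10 (sel rX (gc H t)) := by
        apply idx_congr
        intro r hr
        rw [sel, e2 r hr]
      rw [e3, e4]
    rw [f3_eq, ← h11] at h10
    rw [h10] at h9
    exact h9
  have h12 : ((fV (gN g O) Q wd (gc H t) : ℕ) : ℤ) ≤ K := by exact_mod_cast h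
  have h13 : (K : ℤ) + Q (idx 20 (gc H t)) ≤ 28 * O + 8 * O' := by exact_mod_cast hK
  rw [h5] at h1
  linarith

end codes

end Pool.Agent.Lib.MP_afdd4d_co.K8
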