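import Pool.Agent.Lib.MP_afdd4d_co.K8.Flag

/-!
# The table of the first term from its blocks
-/

namespace Pool.Agent.Lib.MP_afdd4d_co.K8

open Finset

/-- The array composed of the arrays `bk e`, …, `bk (e + 2 ^ n - 1)` of `2 ^ 8` lanes. -/
def tbG (W : ℕ) (bk : ℕ → ℕ) (n : ℕ) : ℕ → ℕ :=
  @Nat.rec (fun _ => ℕ → ℕ) (fun e => bk e)
    (fun n ih e => Nat.add (ih e) (Nat.shiftLeft (ih (Nat.add e (Nat.pow 2 n)))
      (Nat.mul W (Nat.pow 2 (Nat.add 8 n))))) n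

theorem tbG_ar {W : ℕ} (hW : 0 < W) (bk : ℕ → ℕ) (f : ℕ → (ℕ → Bool) → ℕ) (N : ℕ)
    (h : ∀ e < N, Ar W 8 (bk e) (f e)) : ∀ (n e : ℕ), e + 2 ^ n ≤ N →
    Ar W (8 + n) (tbG W bk n e) fun b => f (e + idx n fun k => b (8 + k)) b := by
  intro n
  induction n with
  | zero =>
    intro e he
    have e1 : tbG W bk 0 e = bk e := rfl
    rw [e1]
    refine (h e (by omega)).congr fun b => ?_
    simp [idx]
  | succ n ih =>
    intro e he
    have h2 : 2 ^ (n + 1) = 2 ^ n + 2 ^ n := by rw [pow_succ]; ring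
    have e1 : tbG W bk (n + 1) e =
      tbG W bk n e + (tbG W bk n (e + 2 ^ n)) <<< (W * 2 ^ (8 + n)) := rfl
    rw [e1]
    have hpos := Nat.two_pow_pos n
    have h3 := (ih e (by omega)).cat (ih (e + 2 ^ n) (by omega)) hW
    refine h3.congr fun b => ?_
    have e2 : (idx (n + 1) fun k => b (8 + k)) =
      (idx n fun k => b (8 + k)) + 2 ^ n * (b (8 + n)).toNat := rfl
    rw [e2]
    cases b (8 + n)
    · rw [if_neg (by decide), Bool.toNat_false, mul_zero, add_zero]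
    · rw [if_pos rfl, Bool.toNat_true, mul_one]
      congr 1
      ring

theorem idx_sel_mkz (c : ℕ) (b : ℕ → Bool) (l : List ℕ) (m k : ℕ) (d : ℕ)
    (h1 : ∀ r < m, l.getD r 0 = d + r ∧ d + r < 20)
    (h2 : ∀ r < k, 20 ≤ l.getD (m + r) 0) :
    idx (m + k) (sel l (mkz c b)) = c / 2 ^ d % 2 ^ m +
      2 ^ m * idx k fun r => b (lai.getD (l.getD (m + r) 0 - 20) 0) := by
  induction k with
  | zero =>
    rw [Nat.add_zero]
    have e1 : (idx 0 fun r => b (lai.getD (l.getD (m + r) 0 - 20) 0)) = 0 := rfl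
    rw [e1, Nat.mul_zero, Nat.add_zero]
    rw [← idx_testBit m (c / 2 ^ d % 2 ^ m) (Nat.mod_lt _ (Nat.two_pow_pos m))]
    apply idx_congr
    intro r hr
    obtain ⟨h3, h4⟩ := h1 r hr
    rw [sel, h3, mkz, if_pos h4, Nat.testBit_mod_two_pow, decide_eq_true hr, Bool.true_and,
      Nat.testBit_div_two_pow, add_comm]
  | succ k ih =>
    have ih' := ih fun r hr => h2 r (by omega)
    have e1 : idx (m + (k + 1)) (sel l (mkz c b)) =
      idx (m + k) (sel l (mkz c b)) + 2 ^ (m + k) * (sel l (mkz c b) (m + k)).toNat := rfl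
    have e2 : (idx (k + 1) fun r => b (lai.getD (l.getD (m + r) 0 - 20) 0)) =
      (idx k fun r => b (lai.getD (l.getD (m + r) 0 - 20) 0)) +
        2 ^ k * (b (lai.getD (l.getD (m + k) 0 - 20) 0)).toNat := rfl
    have h3 := h2 k (by omega)
    have e3 : sel l (mkz c b) (m + k) = b (lai.getD (l.getD (m + k) 0 - 20) 0) := by
      rw [sel, mkz, if_neg (by omega)]
    rw [e1, e2, ih', e3, pow_add]
    ring

theorem K1z_mkz (G : ℕ → ℕ → ℕ → ℕ) (c : ℕ) (b : ℕ → Bool) :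
    K1z G (mkz c b) = G (c % 16 + 16 * idx 6 fun k => b (8 + k))
      (c / 16 % 64 + 64 * idx 4 b) (c / 1024 % 64 + 64 * idx 4 fun k => b (4 + k)) := by
  have hP := idx_sel_mkz c b sP 4 6 0 (by decide) (by decide)
  have hX := idx_sel_mkz c b sX 6 4 4 (by decide) (by decide)
  have hY := idx_sel_mkz c b sY 6 4 10 (by decide) (by decide)
  have e1 : (idx 6 fun r => b (lai.getD (sP.getD (4 + r) 0 - 20) 0)) =
      idx 6 fun k => b (8 + k) := by
    apply idx_congr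
    intro r hr
    have h : ∀ r < 6, lai.getD (sP.getD (4 + r) 0 - 20) 0 = 8 + r := by decide
    rw [h r hr]
  have e2 : (idx 4 fun r => b (lai.getD (sX.getD (6 + r) 0 - 20) 0)) = idx 4 b := by
    apply idx_congr
    intro r hr
    have h : ∀ r < 4, lai.getD (sX.getD (6 + r) 0 - 20) 0 = r := by decide
    rw [h r hr]
  have e3 : (idx 4 fun r => b (lai.getD (sY.getD (6 + r) 0 - 20) 0)) =
      idx 4 fun k => b (4 + k) := by
    apply idx_congr
    intro r hr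
    have h : ∀ r < 4, lai.getD (sY.getD (6 + r) 0 - 20) 0 = 4 + r := by decide
    rw [h r hr]
  rw [e1] at hP
  rw [e2] at hX
  rw [e3] at hY
  have hP' : idx 10 (sel sP (mkz c b)) = c % 16 + 16 * idx 6 fun k => b (8 + k) := by
    have h : idx 10 (sel sP (mkz c b)) = c / 2 ^ 0 % 2 ^ 4 + 2 ^ 4 * idx 6 fun k => b (8 + k) := hP
    rw [h, pow_zero, Nat.div_one]
    rfl
  have hX' : idx 10 (sel sX (mkz c b)) = c / 16 % 64 + 64 * idx 4 b := hX
  have hY' : idx 10 (sel sY (mkz c b)) = c / 1024 % 64 + 64 * idx 4 fun k => b (4 + k) := hY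
  rw [K1z, hP', hX', hY']

/-- The table of the first term. -/
def tabG (W : ℕ) (bk : ℕ → ℕ → ℕ → ℕ) (c : ℕ) : ℕ :=
  tbG W (fun e => bk (Nat.add (Nat.mod c 16) (Nat.mul 16 e)) (Nat.mod (Nat.div c 16) 64)
    (Nat.mod (Nat.div c 1024) 64)) 6 0

theorem tabG_ar {W : ℕ} (hW : 0 < W) (G : ℕ → ℕ → ℕ → ℕ) (bk : ℕ → ℕ → ℕ → ℕ)
    (h : ∀ p < 1024, ∀ x0 < 64, ∀ y0 < 64, Ar W 8 (bk p x0 y0) fun b =>
      G p (x0 + 64 * idx 4 b) (y0 + 64 * idx 4 fun k => b (4 + k))) (c : ℕ) :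
    Ar W 14 (tabG W bk c) fun b => K1z G (mkz c b) := by
  have h1 := tbG_ar hW (fun e => bk (c % 16 + 16 * e) (c / 16 % 64) (c / 1024 % 64))
    (fun e b => G (c % 16 + 16 * e) (c / 16 % 64 + 64 * idx 4 b)
      (c / 1024 % 64 + 64 * idx 4 fun k => b (4 + k))) 64
    (fun e he => h _ (by have := Nat.mod_lt c (show 0 < 16 by norm_num); omega) _
      (Nat.mod_lt _ (by norm_num)) _ (Nat.mod_lt _ (by norm_num))) 6 0 (by norm_num)
  refine Ar.congr h1 fun b => ?_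
  rw [K1z_mkz, Nat.zero_add]

end Pool.Agent.Lib.MP_afdd4d_co.K8
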