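import Pool.Agent.Lib.MP_afdd4d_co.K8.F6All
import Pool.Agent.Lib.MP_afdd4d_co.K8.F6Bl2
import Pool.Agent.Lib.MP_afdd4d_co.K8.View3
import Pool.Agent.Lib.MP_afdd4d_co.K8.View4

/-!
# The kernel of the six-vertex types as input of the check
-/

namespace Pool.Agent.Lib.MP_afdd4d_co.K8

open Finset

namespace TF
variable (D : TF)

/-- The kernel as a symmetric function of two codes. -/
def g (c d : ℕ) : ℤ := if c % 1024 = d % 1024 then D.fd.g6 c d else 0

theorem gK_eq {n : ℕ} (H : Finset (Finset (Fin n))) : gK H D.g = D.fd.gk H := by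
  funext s u w
  have h1 : ∀ u : Fin n, cd H s u % 1024 = idx 10 (gc H s) := by
    intro u
    rw [cd, idx_twenty_mod]
    exact idx_congr 10 _ _ fun r hr => gc_snoc_low H s u r hr
  unfold gK g FD.gk
  rw [if_pos ((h1 u).trans (h1 w).symm)]

theorem gN_eq (O p x y : ℕ) (hp : p < 1024) :
    gN D.g O p x y = ((O : ℤ) + D.fd.g6 (p + 1024 * x) (p + 1024 * y)).toNat := by
  unfold gN g
  rw [if_pos (by omega)]

variable {D}

theorem _root_.Pool.Agent.Lib.MP_afdd4d_co.K8.PD.sym {P : PD} {W of h : ℕ} {R : List ℕ}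
    (hc : P.chk W of h R = true) : symG W of R = true := by
  unfold PD.chk at hc
  simp only [Bool.and_eq_true] at hc
  exact hc.2.2.2.2.2.2.1

/-- Symmetry of the matrices of all types. -/
def SymOK (D : TF) : Prop := ∀ τ, symG D.W D.of (rwsG (D.L τ)) = true

theorem bil_symm (hn : D.NumOK) (hs : D.SymOK) (τ z z' : ℕ) :
    D.fd.bil τ z z' = D.fd.bil τ z' z := by
  have e1 : D.fd.ns τ = (D.L τ).length := rfl
  unfold FD.bil
  rw [Finset.sum_comm]
  refine Finset.sum_congr rfl fun i hi => Finset.sum_congr rfl fun j hj => ?_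
  rw [Finset.mem_range, e1] at hi hj
  rw [D.sym_of hn τ (hs τ) j hj i hi]
  ring

theorem g6_symm (hn : D.NumOK) (hs : D.SymOK) (c d : ℕ) (h : c % 1024 = d % 1024) :
    D.fd.g6 c d = D.fd.g6 d c := by
  unfold FD.g6
  rw [h]
  split_ifs
  · rfl
  · exact bil_symm hn hs _ _ _

theorem g_symm (hn : D.NumOK) (hs : D.SymOK) (c d : ℕ) : D.g c d = D.g d c := by
  unfold g
  by_cases h : c % 1024 = d % 1024
  · rw [if_pos h, if_pos h.symm, g6_symm hn hs c d h]
  · rw [if_neg h, if_neg (Ne.symm h)]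

theorem g_abs (h : D.RowsOK) (c d : ℕ) : |D.g c d| ≤ D.B := by
  unfold g
  split_ifs
  · exact D.fd.g6_abs D.B h.bil c d
  · rw [abs_zero]
    exact Int.natCast_nonneg _

/-- The kernel. -/
def kern (h : D.RowsOK) (h1 : D.fd.PsdOK) : Kern 6 := D.fd.kern D.B h1 h.bil

theorem kern_f (h : D.RowsOK) (h1 : D.fd.PsdOK) {n : ℕ} (H : Finset (Finset (Fin n))) :
    (D.kern h h1).f H = evk H (gK H D.g) := by
  rw [gK_eq]
  rfl

theorem evk_g_perm (hD : D.fd.InvOK) {n : ℕ} (H : Finset (Finset (Fin n)))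
    (τ : Equiv.Perm (Fin 6)) (s : Fin 6 → Fin n) (u w : Fin n) :
    evk H (gK H D.g) (s ∘ τ) u w = evk H (gK H D.g) s u w := by
  rw [gK_eq]
  exact D.fd.evk_perm hD H τ s u w

/-- The rows. -/
theorem row_ar (h : D.RowsOK) (hp : D.PrOK) (p x : ℕ) (hp1 : p < 1024) :
    Ar D.W 10 (D.rowC p x) fun b => gN D.g D.B p x (idx 10 b) :=
  (D.rowC_ar h hp p x hp1).congr fun _ => (gN_eq D _ _ _ _ hp1).symm

end TF

namespace BE
variable {E : BE} {D : TF}

/-- The blocks. -/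
theorem blk_ar (h : D.RowsOK) (hp : D.PrOK) (hE : E.OK D) (tb : ℕ → ℕ)
    (ht : ∀ t < E.qs.length, tb t = D.chG (E.qs.getD t (0, 0)).1 (E.qs.getD t (0, 0)).2)
    (p x0 y0 : ℕ) (hp1 : p < 1024) (hx : x0 < 64) (hy : y0 < 64) :
    Ar D.W 8 (E.blkG D.W D.B tb p x0 y0) fun b =>
      gN D.g D.B p (x0 + 64 * idx 4 b) (y0 + 64 * idx 4 fun k => b (4 + k)) :=
  (E.blkG_ar h hp hE tb ht p x0 y0 hp1 hx hy).congr fun _ => (TF.gN_eq D _ _ _ _ hp1).symm

end BE

end Pool.Agent.Lib.MP_afdd4d_co.K8
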