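import Pool.Agent.Lib.MP_afdd4d_co.K8.F6Bl4

/-!
# Comparison of lists of numbers
-/

namespace Pool.Agent.Lib.MP_afdd4d_co.K8

/-- Equality of lists of numbers. -/
def eqN : List ℕ → List ℕ → Bool :=
  @List.rec ℕ (fun _ => List ℕ → Bool)
    (fun m => @List.rec ℕ (fun _ => Bool) true (fun _ _ _ => false) m)
    (fun a _ ih m => @List.rec ℕ (fun _ => Bool) false
      (fun b t _ => @Bool.rec (fun _ => Bool) false (ih t) (Nat.beq a b)) m)

theorem eqN_eq : ∀ (l m : List ℕ), eqN l m = true → l = m
  | [], [], _ => rfl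
  | [], _ :: _, h => absurd h (by intro h1; cases h1)
  | _ :: _, [], h => absurd h (by intro h1; cases h1)
  | a :: l, b :: m, h => by
    have h' : @Bool.rec (fun _ => Bool) false (eqN l m) (Nat.beq a b) = true := h
    cases hb : Nat.beq a b with
    | false => rw [hb] at h'; cases h'
    | true =>
      rw [hb] at h'
      rw [Nat.eq_of_beq_eq_true hb, eqN_eq l m h']

/-- Equality of lists of lists of numbers. -/
def eqNN : List (List ℕ) → List (List ℕ) → Bool :=
  @List.rec (List ℕ) (fun _ => List (List ℕ) → Bool)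
    (fun m => @List.rec (List ℕ) (fun _ => Bool) true (fun _ _ _ => false) m)
    (fun a _ ih m => @List.rec (List ℕ) (fun _ => Bool) false
      (fun b t _ => @Bool.rec (fun _ => Bool) false (ih t) (eqN a b)) m)

theorem eqNN_eq : ∀ (l m : List (List ℕ)), eqNN l m = true → l = m
  | [], [], _ => rfl
  | [], _ :: _, h => absurd h (by intro h1; cases h1)
  | _ :: _, [], h => absurd h (by intro h1; cases h1)
  | a :: l, b :: m, h => by
    have h' : @Bool.rec (fun _ => Bool) false (eqNN l m) (eqN a b) = true := h
    cases hb : eqN a b with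
    | false => rw [hb] at h'; cases h'
    | true =>
      rw [hb] at h'
      rw [eqN_eq a b hb, eqNN_eq l m h']

end Pool.Agent.Lib.MP_afdd4d_co.K8
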