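import Pool.Agent.Lib.MP_afdd4d_co.K8.Code

/-!
# Reduction of the even 4-graphs on seven vertices to 423 representatives
-/

namespace Pool.Agent.Lib.MP_afdd4d_co.K8

open Finset

/-- The programs of the exchanges of the vertices `i` and `i + 1`, acting on the codes of even 4-graphs
on seven vertices. -/
def mvs : List (List (ℕ × ℕ × ℕ)) := [
  [(2, 0, 3), (2, 1, 3), (2, 2, 3), (2, 0, 6), (2, 4, 6), (2, 5, 6), (2, 1, 8), (2, 4, 8),
  (2, 7, 8), (2, 2, 9), (2, 5, 9), (2, 7, 9), (2, 0, 12), (2, 10, 12), (2, 11, 12), (2, 1, 14),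
  (2, 10, 14), (2, 13, 14), (2, 2, 15), (2, 11, 15), (2, 13, 15), (2, 4, 17), (2, 10, 17),
  (2, 16, 17), (2, 5, 18), (2, 11, 18), (2, 16, 18), (2, 7, 19), (2, 13, 19), (2, 16, 19)],
  [(1, 2, 3), (1, 5, 6), (1, 7, 8), (1, 11, 12), (1, 13, 14), (1, 16, 17)],
  [(1, 1, 2), (1, 4, 5), (1, 8, 9), (1, 10, 11), (1, 14, 15), (1, 17, 18)],
  [(1, 0, 1), (1, 5, 7), (1, 6, 8), (1, 11, 13), (1, 12, 14), (1, 18, 19)],
  [(1, 1, 4), (1, 2, 5), (1, 3, 6), (1, 13, 16), (1, 14, 17), (1, 15, 18)],
  [(1, 4, 10), (1, 5, 11), (1, 6, 12), (1, 7, 13), (1, 8, 14), (1, 9, 15)]]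

/-- The representatives. -/
def reps : List ℕ := [
  0, 1, 3, 7, 15, 20, 21, 23, 28, 29, 31, 54, 55, 58, 59, 62, 63, 126, 183, 184, 185, 187, 191,
  207, 220, 221, 223, 254, 255, 495, 511, 1023, 1062, 1064, 1065, 1066, 1070, 1071, 1134, 1188,
  1189, 1192, 1193, 1195, 1196, 1197, 1199, 1228, 1229, 1231, 1260, 1261, 1262, 1516, 1517,
  1536, 1537, 1541, 1543, 1551, 1572, 1573, 1574, 1576, 1577, 1578, 1580, 1581, 1582, 1583,
  1644, 1645, 1646, 1700, 1701, 1704, 1705, 1707, 1708, 1709, 1740, 1741, 1743, 1772, 1773,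
  1774, 2028, 2029, 3164, 3165, 3219, 3220, 3224, 3225, 3227, 3228, 3272, 3273, 3274, 3275,
  3278, 3279, 3290, 3291, 3292, 3293, 3347, 3348, 3349, 3356, 3357, 3359, 3400, 3401, 3402,
  3403, 3404, 3405, 3406, 3407, 3418, 3419, 3420, 3421, 3475, 3476, 3477, 3480, 3481, 3482,
  3484, 3528, 3529, 3530, 3531, 3532, 3533, 3534, 3535, 3546, 3547, 3548, 3549, 3841, 3843,
  3847, 3849, 3851, 3855, 3859, 3861, 3864, 3865, 3866, 3867, 3868, 3869, 3912, 3913, 3914,
  3915, 3918, 3930, 3931, 3932, 3933, 3969, 3971, 3975, 3976, 3977, 3978, 3979, 3982, 3983,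
  3989, 3992, 3993, 3994, 3995, 3996, 3997, 4040, 4041, 4042, 4043, 4046, 4047, 4058, 4059,
  4060, 4061, 7350, 7351, 7352, 7571, 7572, 7573, 7575, 7588, 7589, 7590, 7592, 7593, 7594,
  8064, 8065, 8066, 8067, 8070, 8071, 8078, 8082, 8083, 8084, 8085, 8086, 8092, 11604, 11607,
  11613, 11615, 11620, 11623, 11624, 11625, 11626, 11627, 11628, 11629, 11630, 11631, 12113,
  12115, 12116, 12117, 12119, 12120, 12121, 12123, 12125, 12127, 12576, 12577, 12581, 12593,
  12595, 12596, 12597, 12598, 12599, 12640, 12641, 12642, 12643, 12645, 12646, 12649, 12657,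
  12658, 12659, 12660, 12662, 12664, 12665, 12666, 13104, 13105, 13107, 13110, 13111, 13119,
  13168, 13169, 13170, 13171, 13174, 13177, 13619, 13620, 13621, 13623, 13666, 13667, 13668,
  13671, 13672, 13673, 13674, 13675, 13679, 14112, 14113, 14115, 14117, 14119, 14127, 14129,
  14131, 14132, 14133, 14135, 14141, 14143, 14177, 14178, 14179, 14180, 14181, 14182, 14183,
  14184, 14185, 14187, 14189, 14190, 14191, 16177, 16178, 16182, 16183, 16187, 16191, 16209,
  16210, 16211, 16213, 16215, 16216, 16218, 31441, 31447, 31455, 76983, 76984, 76987, 76991,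
  77000, 77019, 77054, 77132, 77133, 77149, 77151, 77165, 77182, 77293, 77295, 77311, 77640,
  77641, 77659, 77663, 77694, 77695, 77823, 78121, 78593, 78595, 78601, 78603, 78614, 78617,
  78727, 78729, 78731, 78734, 78740, 78741, 78742, 78745, 78748, 78776, 79163, 79511, 79515,
  79519, 79543, 79547, 79639, 79643, 79646, 79647, 79653, 79656, 79671, 79675, 79755, 79757,
  79759, 79765, 79767, 79774, 79775, 79787, 79799, 79803, 81335, 81686, 81690, 81694, 81719,
  81726, 81812, 81820, 81822, 81847, 81854, 88770, 88811, 88825, 89726, 89727, 89850, 98040,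
  98042, 98046, 227823, 228023, 228063, 228094, 228335, 520157]

/-- A reduced word of the longest permutation. -/
def wrd : List ℕ := [5, 4, 5, 3, 4, 5, 2, 3, 4, 5, 1, 2, 3, 4, 5, 0, 1, 2, 3, 4, 5]

/-- The set with the elements of a list. -/
def setG (l : List ℕ) : ℕ :=
  @List.rec ℕ (fun _ => ℕ) 0 (fun c _ ih => Nat.lor ih (Nat.shiftLeft 1 c)) l

/-- One step: the elements whose image under the `i`-th exchange is in the set are added. -/
def clsG (l : List ℕ) : ℕ → ℕ :=
  @List.rec ℕ (fun _ => ℕ → ℕ) (fun A => A)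
    (fun i _ ih A => ih (Nat.lor A (ruG 1 (mvs.getD i []) 20 A))) l

theorem Ln_one (A i : ℕ) : Ln 1 A i = (A.testBit i).toNat := by
  rw [Nat.toNat_testBit, Ln, one_mul, pow_one]

theorem setG_testBit (l : List ℕ) (c : ℕ) (h : (setG l).testBit c = true) : c ∈ l := by
  induction l with
  | nil =>
    have e : setG [] = 0 := rfl
    rw [e, Nat.zero_testBit] at h
    exact Bool.noConfusion h
  | cons a l ih =>
    have e : setG (a :: l) = setG l ||| (1 <<< a) := rfl
    rw [e, Nat.testBit_or, Bool.or_eq_true] at h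
    rcases h with h | h
    · exact List.mem_cons_of_mem _ (ih h)
    · rw [Nat.one_shiftLeft, Nat.testBit_two_pow] at h
      have h1 := of_decide_eq_true h
      rw [h1]
      exact List.mem_cons_self

/-- A set of codes all of whose elements have the property `P`. -/
def GoodS (P : ℕ → Prop) (A : ℕ) : Prop :=
  A < 2 ^ (1 * 2 ^ 20) ∧ ∀ b : ℕ → Bool, Ln 1 A (idx 20 b) ≠ 0 → P (idx 20 b)

theorem mvs_ok : mvs.all (fun l => okR l 20 && decide (ndG l 20 = 20)) = true := by decide +kernel

theorem mvs_getD (i : ℕ) : okR (mvs.getD i []) 20 = true ∧ ndG (mvs.getD i []) 20 = 20 := by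
  have h := mvs_ok
  rw [List.all_eq_true] at h
  rcases getD_mem_or mvs i [] with h1 | h1
  · have h2 := h _ h1
    rw [Bool.and_eq_true] at h2
    exact ⟨h2.1, of_decide_eq_true h2.2⟩
  · rw [h1]
    exact ⟨rfl, rfl⟩

theorem goodS_cls (P : ℕ → Prop)
    (hP : ∀ i b, P (idx 20 (seG (mvs.getD i []) 20 b)) → P (idx 20 b)) (l : List ℕ) :
    ∀ A, GoodS P A → GoodS P (clsG l A) := by
  induction l with
  | nil => intro A hA; exact hA
  | cons i l ih =>
    intro A hA
    have e : clsG (i :: l) A = clsG l (A ||| ruG 1 (mvs.getD i []) 20 A) := rfl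
    rw [e]
    apply ih
    obtain ⟨h1, h2⟩ := mvs_getD i
    have hA0 : Ar 1 20 A fun b => Ln 1 A (idx 20 b) := ⟨hA.1, fun b => rfl⟩
    have hR := ruG_ar (W := 1) (by norm_num) (mvs.getD i []) 20 A _ h1 hA0
    rw [h2] at hR
    have hO := hA0.or hR (by norm_num)
    refine ⟨hO.lt, fun b hb => ?_⟩
    rw [hO.get] at hb
    by_cases h3 : Ln 1 A (idx 20 b) = 0
    · rw [h3, Nat.zero_or] at hb
      exact hP i b (hA.2 _ hb)
    · exact hA.2 b h3

theorem reps_lt : reps.all (fun c => decide (c < 2 ^ 20)) = true := by decide +kernel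

/-- The number with `k` bits equal to one. -/
def fulG (k : ℕ) : ℕ := Nat.sub (Nat.pow 2 k) 1

theorem fulG_eq (k : ℕ) : fulG k = 2 ^ k - 1 := rfl

theorem cls_check : Nat.beq (clsG wrd (setG reps)) (fulG 1048576) = true := by
  decide +kernel

theorem setG_lt (l : List ℕ) (N : ℕ) (h : ∀ c ∈ l, c < N) : setG l < 2 ^ N := by
  induction l with
  | nil => exact Nat.two_pow_pos N
  | cons a l ih =>
    have e : setG (a :: l) = setG l ||| (1 <<< a) := rfl
    rw [e]
    apply Nat.or_lt_two_pow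
    · exact ih fun c hc => h c (List.mem_cons_of_mem _ hc)
    · rw [Nat.one_shiftLeft]
      exact Nat.pow_lt_pow_right (by norm_num) (h a List.mem_cons_self)

/-- A property of codes that holds for the representatives and can be pulled back along the exchanges
holds for all codes. -/
theorem red_all20 (P : ℕ → Prop) (h0 : ∀ c ∈ reps, P c)
    (hP : ∀ i b, P (idx 20 (seG (mvs.getD i []) 20 b)) → P (idx 20 b)) (b : ℕ → Bool) :
    P (idx 20 b) := by
  have hs : GoodS P (setG reps) := by
    constructor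
    · rw [one_mul]
      apply setG_lt
      intro c hc
      have h := reps_lt
      rw [List.all_eq_true] at h
      exact of_decide_eq_true (h c hc)
    · intro b hb
      rw [Ln_one] at hb
      apply h0
      apply setG_testBit
      by_contra hne
      rw [Bool.not_eq_true] at hne
      rw [hne] at hb
      exact hb rfl
  have hg := goodS_cls P hP wrd _ hs
  have hc : clsG wrd (setG reps) = fulG 1048576 := Nat.eq_of_beq_eq_true cls_check
  have h20 : (1048576 : ℕ) = 2 ^ 20 := by norm_num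
  apply hg.2
  rw [Ln_one, hc, fulG_eq, Nat.testBit_two_pow_sub_one, h20, decide_eq_true (idx_lt 20 b)]
  decide

/-! ### The exchanges on tuples -/

/-- The exchange of the vertices `i` and `i + 1`. -/
def exG (i : ℕ) (hi : i < 6) : Equiv.Perm (Fin 8) :=
  Equiv.swap ⟨i, by omega⟩ ⟨i + 1, by omega⟩

theorem mvs_geo : ∀ i : Fin 6, ∀ r < 20,
    ((qd 8 r).image (exG i i.isLt)).card = 4 ∧
    syG (mvs.getD i []) 20 r = exF ((qd 8 r).image (exG i i.isLt)) ∧
    exF ((qd 8 r).image (exG i i.isLt)) < 2 ^ 21 := by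
  decide +kernel

theorem mvs_len : mvs.length = 6 := rfl

section tup
variable {n : ℕ} (H : Finset (Finset (Fin n)))

theorem gc_move (t : Fin 8 → Fin n) (hev : EvT H t) (i : Fin 6) :
    idx 20 (gc H (t ∘ exG i i.isLt)) = idx 20 (seG (mvs.getD i []) 20 (gc H t)) := by
  apply idx_congr
  intro r hr
  obtain ⟨h1, h2, h3⟩ := mvs_geo i r hr
  obtain ⟨h4, h5⟩ := mvs_getD i
  rw [gc_comp H t hev _ r h1, seG_eq 20 (gc H t) _ 20 h4 (by rw [h5]) r hr, h2]
  exact lf_ext 20 15 _ _ h3

end tup

/-- A property of even tuples that is invariant under permutations holds for all tuples if it holds for the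
tuples with the codes of the representatives. -/
theorem even_reduce {n : ℕ} (H : Finset (Finset (Fin n))) (Q : (Fin 8 → Fin n) → Prop)
    (hinv : ∀ (t : Fin 8 → Fin n) (σ : Equiv.Perm (Fin 8)), Q (t ∘ σ) → Q t)
    (hbase : ∀ c ∈ reps, ∀ t : Fin 8 → Fin n, Function.Injective t → EvT H t →
      idx 20 (gc H t) = c → Q t) :
    ∀ t : Fin 8 → Fin n, Function.Injective t → EvT H t → Q t := by
  have key : ∀ b : ℕ → Bool, ∀ t : Fin 8 → Fin n, Function.Injective t → EvT H t →
      idx 20 (gc H t) = idx 20 b → Q t := by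
    refine red_all20 (fun c => ∀ t : Fin 8 → Fin n, Function.Injective t → EvT H t →
      idx 20 (gc H t) = c → Q t) hbase ?_
    intro i b hb t ht hev htb
    by_cases hi : i < 6
    · apply hinv t (exG i hi)
      apply hb _ (ht.comp (exG i hi).injective) ((evT_perm H t _).mpr hev)
      have h1 := gc_move H t hev ⟨i, hi⟩
      rw [h1]
      -- seG depends on the first 20 bits only
      obtain ⟨h4, h5⟩ := mvs_getD i
      apply idx_congr
      intro r hr
      rw [seG_eq 20 (gc H t) _ 20 h4 (by rw [h5]) r hr, seG_eq 20 b _ 20 h4 (by rw [h5]) r hr]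
      exact lf_congr 20 _ _ _ (idx_inj 20 _ _ htb)
    · have h6 : mvs.getD i [] = [] := List.getD_eq_default _ _ (by rw [mvs_len]; omega)
      rw [h6] at hb
      exact hb t ht hev htb
  intro t ht hev
  exact key (gc H t) t ht hev rfl

end Pool.Agent.Lib.MP_afdd4d_co.K8
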