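import Pool.Agent.Lib.MP_afdd4d_co.K8.TabData
import Pool.Agent.Lib.MP_afdd4d_co.K8.Red

/-!
# Class functions of even 4-graphs on seven vertices

`cix c` is the number of the class of the code `c` of an even 4-graph on seven vertices. It is invariant
under the exchanges of the vertices, and `cix` of the `k`-th representative is `k`. Hence every class
function is a function of `cix`. The arrays `row7 W V p` contain the values of a class function, given by
the array `V`, at the codes with the pattern `p`.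
-/

namespace Pool.Agent.Lib.MP_afdd4d_co.K8

open Finset

/-! ### Concatenation of a list -/

/-- The concatenation of the entries of a list, each of `S` bits. -/
def catG (S : ℕ) (l : List ℕ) : ℕ :=
  @List.rec ℕ (fun _ => ℕ) 0 (fun a _ ih => Nat.add a (Nat.shiftLeft ih S)) l

theorem catG_nil (S : ℕ) : catG S [] = 0 := rfl

theorem catG_cons (S a : ℕ) (l : List ℕ) : catG S (a :: l) = a + (catG S l) <<< S := rfl

theorem catG_lane (W N : ℕ) (l : List ℕ) (h : ∀ a ∈ l, a < 2 ^ (W * N)) :
    ∀ k i, i < N → Ln W (catG (W * N) l) (i + N * k) = Ln W (l.getD k 0) i := by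
  induction l with
  | nil =>
    intro k i _
    rw [catG_nil, Ln_zero_left, List.getD_nil, Ln_zero_left]
  | cons a l ih =>
    intro k i hi
    rw [catG_cons, Ln_cat _ _ _ _ _ (h a List.mem_cons_self)]
    cases k with
    | zero =>
      rw [mul_zero, add_zero, if_pos hi, List.getD_cons_zero]
    | succ k =>
      have e : i + N * (k + 1) = (i + N * k) + N := by ring
      rw [e, if_neg (by omega), Nat.add_sub_cancel, List.getD_cons_succ]
      exact ih (fun b hb => h b (List.mem_cons_of_mem _ hb)) k i hi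

theorem catG_lt (W N : ℕ) (l : List ℕ) (h : ∀ a ∈ l, a < 2 ^ (W * N)) :
    catG (W * N) l < 2 ^ (W * (N * l.length)) := by
  induction l with
  | nil => rw [catG_nil]; exact Nat.two_pow_pos _
  | cons a l ih =>
    have h1 := h a List.mem_cons_self
    have h2 := ih fun b hb => h b (List.mem_cons_of_mem _ hb)
    rw [catG_cons, Nat.shiftLeft_eq, List.length_cons]
    have e : W * (N * (l.length + 1)) = W * (N * l.length) + W * N := by ring
    rw [e, pow_add]
    nlinarith [Nat.two_pow_pos (W * N), Nat.two_pow_pos (W * (N * l.length)),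
      Nat.mul_le_mul_right (2 ^ (W * N)) h2]

/-- The concatenation of the entries of a list of lists. -/
def cat2G (S S2 : ℕ) (l : List (List ℕ)) : ℕ :=
  @List.rec (List ℕ) (fun _ => ℕ) 0 (fun a _ ih => Nat.add (catG S a) (Nat.shiftLeft ih S2)) l

theorem cat2G_eq (S S2 : ℕ) (l : List (List ℕ)) : cat2G S S2 l = catG S2 (l.map (catG S)) := by
  induction l with
  | nil => rfl
  | cons a l ih =>
    have e : cat2G S S2 (a :: l) = catG S a + (cat2G S S2 l) <<< S2 := rfl
    rw [e, ih]
    rfl

/-- Lanes of a concatenation of lists of lists. -/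
theorem cat2G_lane (W N M : ℕ) (L : List (List ℕ)) (h1 : ∀ l ∈ L, l.length = M)
    (h2 : ∀ l ∈ L, ∀ a ∈ l, a < 2 ^ (W * N)) (K k i : ℕ) (hk : k < M) (hi : i < N) :
    Ln W (cat2G (W * N) (W * (N * M)) L) ((i + N * k) + N * M * K) =
      Ln W ((L.getD K []).getD k 0) i := by
  have hlt : ∀ a ∈ L.map (catG (W * N)), a < 2 ^ (W * (N * M)) := by
    intro a ha
    rw [List.mem_map] at ha
    obtain ⟨l, hl, rfl⟩ := ha
    have h3 := catG_lt W N l (h2 l hl)
    rwa [h1 l hl] at h3
  have hik : i + N * k < N * M := by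
    calc i + N * k < N + N * k := by omega
      _ = N * (k + 1) := by ring
      _ ≤ N * M := Nat.mul_le_mul_left _ hk
  rw [cat2G_eq, catG_lane W (N * M) _ hlt K _ hik]
  have e : (L.map (catG (W * N))).getD K 0 = catG (W * N) (L.getD K []) := by
    by_cases hK : K < L.length
    · rw [List.getD_eq_getElem _ _ (by rw [List.length_map]; exact hK),
        List.getD_eq_getElem _ _ hK, List.getElem_map]
    · rw [List.getD_eq_default _ _ (by rw [List.length_map]; omega),
        List.getD_eq_default _ _ (by omega)]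
      rfl
  rw [e]
  rcases getD_mem_or L K [] with h3 | h3
  · exact catG_lane W N _ (h2 _ h3) k i hi
  · rw [h3]
    exact catG_lane W N [] (by intro a ha; exact absurd ha List.not_mem_nil) k i hi

/-! ### Invariance of an array -/

/-- Whether an array is invariant under the programs of a list. -/
def ivG (W n : ℕ) (M : List (List (ℕ × ℕ × ℕ))) (A : ℕ) : Bool :=
  @List.rec (List (ℕ × ℕ × ℕ)) (fun _ => Bool) true
    (fun l _ ih => @Bool.rec (fun _ => Bool) false ih (Nat.beq (ruG W l n A) A)) M

theorem ivG_mem (W n : ℕ) (M : List (List (ℕ × ℕ × ℕ))) (A : ℕ) (h : ivG W n M A = true) :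
    ∀ l ∈ M, ruG W l n A = A := by
  induction M with
  | nil => intro l hl; exact absurd hl List.not_mem_nil
  | cons a M ih =>
    have e : ivG W n (a :: M) A =
      @Bool.rec (fun _ => Bool) false (ivG W n M A) (Nat.beq (ruG W a n A) A) := rfl
    rw [e] at h
    intro l hl
    cases hb : Nat.beq (ruG W a n A) A
    · rw [hb] at h
      exact Bool.noConfusion h
    · rw [hb] at h
      rcases List.mem_cons.mp hl with h1 | h1
      · rw [h1]; exact Nat.eq_of_beq_eq_true hb
      · exact ih h l h1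

theorem inv_lane {W n A : ℕ} (hW : 0 < W) (hA : A < 2 ^ (W * 2 ^ n)) (l : List (ℕ × ℕ × ℕ))
    (h1 : okR l n = true) (h2 : ndG l n = n) (h : ruG W l n A = A) (b : ℕ → Bool) :
    Ln W A (idx n (seG l n b)) = Ln W A (idx n b) := by
  have h3 : Ar W n A fun b => Ln W A (idx n b) := ⟨hA, fun _ => rfl⟩
  have h4 := ruG_ar hW l n A _ h1 h3
  rw [h2, h] at h4
  exact (h4.get b).symm

/-! ### The table -/

/-- The exchanges of the bits `r` and `r + 10` of the index. -/
def sw10 : List (ℕ × ℕ × ℕ) := [(1, 0, 10), (1, 1, 11), (1, 2, 12), (1, 3, 13), (1, 4, 14),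
  (1, 5, 15), (1, 6, 16), (1, 7, 17), (1, 8, 18), (1, 9, 19)]

/-- The table with the rows one after the other. -/
def ctab0 : ℕ := cat2G 9216 294912 RC

/-- The table of the classes: 2 ^ 20 lanes of 9 bits. -/
def ctab : ℕ := ruG 9 sw10 20 ctab0

/-- The bounds of the entries and the lengths of the lists. -/
def rcok (l : List (List ℕ)) : Bool :=
  l.all fun a => decide (a.length = 32) && a.all fun x => Nat.blt x (Nat.pow 2 9216)

theorem rcok_RC : rcok RC = true := by decide +kernel

theorem RC_len : RC.length = 32 := rfl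

theorem RC_data : (∀ l ∈ RC, l.length = 32) ∧ ∀ l ∈ RC, ∀ a ∈ l, a < 2 ^ (9 * 1024) := by
  have h := rcok_RC
  unfold rcok at h
  rw [List.all_eq_true] at h
  constructor
  · intro l hl
    have h1 := h l hl
    rw [Bool.and_eq_true] at h1
    exact of_decide_eq_true h1.1
  · intro l hl a ha
    have h1 := h l hl
    rw [Bool.and_eq_true, List.all_eq_true] at h1
    have h2 := h1.2 a ha
    have h3 := Nat.le_of_ble_eq_true h2
    exact h3

theorem ctab0_lane (K k i : ℕ) (hk : k < 32) (hi : i < 1024) :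
    Ln 9 ctab0 ((i + 1024 * k) + 1024 * 32 * K) = Ln 9 ((RC.getD K []).getD k 0) i :=
  cat2G_lane 9 1024 32 RC RC_data.1 RC_data.2 K k i hk hi

theorem ctab0_lt : ctab0 < 2 ^ (9 * 2 ^ 20) := by
  have h1 : ∀ a ∈ RC.map (catG 9216), a < 2 ^ (9 * (1024 * 32)) := by
    intro a ha
    rw [List.mem_map] at ha
    obtain ⟨l, hl, rfl⟩ := ha
    have h3 := catG_lt 9 1024 l (RC_data.2 l hl)
    rwa [RC_data.1 l hl] at h3
  have h2 := catG_lt 9 (1024 * 32) _ h1
  rw [List.length_map, RC_len] at h2
  have e : ctab0 = catG (9 * (1024 * 32)) (RC.map (catG 9216)) := cat2G_eq 9216 294912 RC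
  rw [e]
  exact h2

theorem sw10_ok : okR sw10 20 = true ∧ ndG sw10 20 = 20 := by decide +kernel

theorem sw10_sy : ∀ r < 20, syG sw10 20 r = 2 ^ ((if r < 10 then r + 10 else r - 10) + 1) := by
  decide +kernel

theorem sw10_se (b : ℕ → Bool) (r : ℕ) (hr : r < 20) :
    seG sw10 20 b r = b (if r < 10 then r + 10 else r - 10) := by
  rw [seG_eq 20 b sw10 20 sw10_ok.1 (by rw [sw10_ok.2]) r hr, sw10_sy r hr, lf_two_pow]
  have : (if r < 10 then r + 10 else r - 10) < 20 := by split_ifs <;> omega
  rw [decide_eq_true this, Bool.true_and]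

theorem ctab_ar : Ar 9 20 ctab fun b => Ln 9 ctab0 (idx 20 (seG sw10 20 b)) := by
  have h3 : Ar 9 20 ctab0 fun b => Ln 9 ctab0 (idx 20 b) := ⟨ctab0_lt, fun _ => rfl⟩
  have h4 := ruG_ar (by norm_num) sw10 20 ctab0 _ sw10_ok.1 h3
  rw [sw10_ok.2] at h4
  exact h4

/-- The number of the class of a code. -/
def cix (c : ℕ) : ℕ := Ln 9 ctab c

/-- The row of the pattern `p`. -/
def rowC (p : ℕ) : ℕ := (RC.getD (Nat.div p 32) []).getD (Nat.mod p 32) 0

theorem cix_row (p : ℕ) (hp : p < 1024) (x : ℕ) (hx : x < 1024) :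
    cix (p + 1024 * x) = Ln 9 (rowC p) x := by
  have hc : p + 1024 * x < 2 ^ 20 := by norm_num; omega
  have h1 := ctab_ar.lane (p + 1024 * x) hc
  rw [cix, h1]
  have h2 : x + 1024 * p < 2 ^ 20 := by norm_num; omega
  have h3 : idx 20 (seG sw10 20 (p + 1024 * x).testBit) = x + 1024 * p := by
    rw [← idx_testBit 20 (x + 1024 * p) h2]
    apply idx_congr
    intro r hr
    rw [sw10_se _ r hr]
    have e1 : p + 1024 * x = 2 ^ 10 * x + p := by ring
    have e2 : x + 1024 * p = 2 ^ 10 * p + x := by ring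
    rw [e1, e2, Nat.testBit_two_pow_mul_add _ (by norm_num; omega),
      Nat.testBit_two_pow_mul_add _ (by norm_num; omega)]
    by_cases h4 : r < 10
    · rw [if_pos h4, if_pos h4, if_neg (by omega), Nat.add_sub_cancel]
    · rw [if_neg h4, if_neg h4, if_pos (by omega)]
  rw [h3]
  have e3 : x + 1024 * p = (x + 1024 * (p % 32)) + 1024 * 32 * (p / 32) := by omega
  rw [e3]
  exact ctab0_lane (p / 32) (p % 32) x (Nat.mod_lt _ (by norm_num)) hx

/-! ### The checks -/

theorem ctab_inv : ivG 9 20 mvs ctab = true := by decide +kernel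

/-- The lanes of the representatives. -/
def rpG (A : ℕ) (l : List ℕ) : ℕ → Bool :=
  @List.rec ℕ (fun _ => ℕ → Bool) (fun _ => true)
    (fun c _ ih k => @Bool.rec (fun _ => Bool) false (ih (Nat.succ k))
      (Nat.beq (Nat.land A (Nat.shiftLeft 511 (Nat.mul 9 c))) (Nat.shiftLeft k (Nat.mul 9 c)))) l

theorem rpG_get (A : ℕ) (l : List ℕ) : ∀ k, k + l.length ≤ 512 → rpG A l k = true →
    ∀ j < l.length, Ln 9 A (l.getD j 0) = k + j := by
  induction l with
  | nil => intro k _ _ j hj; exact absurd hj (Nat.not_lt_zero _)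
  | cons c l ih =>
    intro k hk h j hj
    have e : rpG A (c :: l) k = @Bool.rec (fun _ => Bool) false (rpG A l (k + 1))
      (Nat.beq (A &&& (511 <<< (9 * c))) (k <<< (9 * c))) := rfl
    rw [e] at h
    rw [List.length_cons] at hk hj
    cases hb : Nat.beq (A &&& (511 <<< (9 * c))) (k <<< (9 * c))
    · rw [hb] at h
      exact Bool.noConfusion h
    · rw [hb] at h
      cases j with
      | zero =>
        rw [List.getD_cons_zero, add_zero]
        have h1 : Ln 9 (A &&& (511 <<< (9 * c))) c = Ln 9 (k <<< (9 * c)) c :=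
          congrArg (fun z => Ln 9 z c) (Nat.eq_of_beq_eq_true hb)
        rw [Ln_and, Ln_shl, Ln_shl, if_neg (lt_irrefl c), if_neg (lt_irrefl c), Nat.sub_self,
          Ln_small 9 511 (by norm_num), if_pos rfl, Ln_small 9 k (by norm_num; omega), if_pos rfl,
          show (511 : ℕ) = 2 ^ 9 - 1 from rfl, and_full _ _ (Ln_lt _ _ _)] at h1
        exact h1
      | succ j =>
        rw [List.getD_cons_succ, ih (k + 1) (by omega) h j (by omega)]
        ring

theorem ctab_reps : rpG ctab reps 0 = true := by decide +kernel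

theorem reps_len : reps.length = 423 := by decide +kernel

theorem cix_reps (k : ℕ) (hk : k < 423) : cix (reps.getD k 0) = k := by
  have h := rpG_get ctab reps 0 (by rw [reps_len]; norm_num) ctab_reps k (by rw [reps_len]; exact hk)
  rw [zero_add] at h
  exact h

theorem cix_move (i : ℕ) (b : ℕ → Bool) :
    cix (idx 20 (seG (mvs.getD i []) 20 b)) = cix (idx 20 b) := by
  obtain ⟨h1, h2⟩ := mvs_getD i
  rcases getD_mem_or mvs i [] with h3 | h3
  · exact inv_lane (by norm_num) ctab_ar.lt _ h1 h2 (ivG_mem 9 20 mvs ctab ctab_inv _ h3) b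
  · rw [h3]
    rfl

theorem cix_lt (b : ℕ → Bool) : cix (idx 20 b) < 423 := by
  refine red_all20 (fun c => cix c < 423) ?_ ?_ b
  · intro c hc
    obtain ⟨k, hk, rfl⟩ := List.mem_iff_getElem.mp hc
    rw [← List.getD_eq_getElem reps 0 hk]
    rw [reps_len] at hk
    rw [cix_reps k hk]
    exact hk
  · intro i b h
    rw [cix_move] at h
    exact h

/-! ### Class functions on tuples -/

section tup
variable {n : ℕ} (H : Finset (Finset (Fin n)))

theorem qd7 : ∀ r < 20, (qd 7 r).image (Fin.castSucc : Fin 7 → Fin 8) = qd 8 r := by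
  decide +kernel

/-- The code of the first seven vertices. -/
theorem gc_castSucc (t : Fin 8 → Fin n) (r : ℕ) (hr : r < 20) :
    gc H (t ∘ (Fin.castSucc : Fin 7 → Fin 8)) r = gc H t r := by
  rw [gc, zb_comp, qd7 r hr, gc]

theorem code_castSucc (t : Fin 8 → Fin n) :
    idx 20 (gc H (t ∘ (Fin.castSucc : Fin 7 → Fin 8))) = idx 20 (gc H t) :=
  idx_congr 20 _ _ fun r hr => gc_castSucc H t r hr

/-- The class is invariant under the exchanges. -/
theorem cix_exG (t : Fin 8 → Fin n) (hev : EvT H t) (i : Fin 6) :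
    cix (idx 20 (gc H (t ∘ exG i i.isLt))) = cix (idx 20 (gc H t)) := by
  rw [gc_move H t hev i, cix_move]

theorem exG_castSucc (i : Fin 6) (x : Fin 7) :
    exG i i.isLt x.castSucc = (Equiv.swap i.castSucc i.succ x).castSucc := by
  revert i x
  decide +kernel

/-- A property of the first seven vertices of even tuples that is invariant under the exchanges holds if
it holds for the codes of the representatives. -/
theorem even_reduce7 (Q : (Fin 8 → Fin n) → Prop)
    (hinv : ∀ (t : Fin 8 → Fin n) (i : Fin 6), Function.Injective t → EvT H t →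
      Q (t ∘ exG i i.isLt) → Q t)
    (hbase : ∀ k < 423, ∀ t : Fin 8 → Fin n, Function.Injective t → EvT H t →
      idx 20 (gc H t) = reps.getD k 0 → Q t) :
    ∀ t : Fin 8 → Fin n, Function.Injective t → EvT H t → Q t := by
  have key : ∀ b : ℕ → Bool, ∀ t : Fin 8 → Fin n, Function.Injective t → EvT H t →
      idx 20 (gc H t) = idx 20 b → Q t := by
    refine red_all20 (fun c => ∀ t : Fin 8 → Fin n, Function.Injective t → EvT H t →
      idx 20 (gc H t) = c → Q t) ?_ ?_
    · intro c hc t ht hev htc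
      obtain ⟨k, hk, rfl⟩ := List.mem_iff_getElem.mp hc
      rw [← List.getD_eq_getElem reps 0 hk] at htc
      rw [reps_len] at hk
      exact hbase k hk t ht hev htc
    · intro i b hb t ht hev htb
      by_cases hi : i < 6
      · apply hinv t ⟨i, hi⟩ ht hev
        apply hb _ (ht.comp (exG i hi).injective) ((evT_perm H t _).mpr hev)
        have h1 := gc_move H t hev ⟨i, hi⟩
        rw [h1]
        obtain ⟨h4, h5⟩ := mvs_getD i
        apply idx_congr
        intro r hr
        rw [seG_eq 20 (gc H t) _ 20 h4 (by rw [h5]) r hr, seG_eq 20 b _ 20 h4 (by rw [h5]) r hr]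
        exact lf_congr 20 _ _ _ (idx_inj 20 _ _ htb)
      · have h6 : mvs.getD i [] = [] := List.getD_eq_default _ _ (by rw [mvs_len]; omega)
        rw [h6] at hb
        exact hb t ht hev htb
  intro t ht hev
  exact key (gc H t) t ht hev rfl

/-- A class function of the first seven vertices of even tuples is a function of the class. -/
theorem class_fun {β : Type*} (P : (Fin 7 → Fin n) → β)
    (hP : ∀ (τ : Equiv.Perm (Fin 7)) (s : Fin 7 → Fin n), P (s ∘ τ) = P s) (v : ℕ → β)
    (hbase : ∀ k < 423, ∀ t : Fin 8 → Fin n, Function.Injective t → EvT H t →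
      idx 20 (gc H t) = reps.getD k 0 → P (t ∘ Fin.castSucc) = v k) :
    ∀ t : Fin 8 → Fin n, Function.Injective t → EvT H t →
      P (t ∘ Fin.castSucc) = v (cix (idx 20 (gc H t))) := by
  refine even_reduce7 H (fun t => P (t ∘ Fin.castSucc) = v (cix (idx 20 (gc H t)))) ?_ ?_
  · intro t i _ hev h
    have e : (t ∘ exG i i.isLt) ∘ (Fin.castSucc : Fin 7 → Fin 8) =
        (t ∘ Fin.castSucc) ∘ (Equiv.swap i.castSucc i.succ : Equiv.Perm (Fin 7)) := by
      funext x
      simp only [Function.comp_apply]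
      rw [exG_castSucc]
    rw [e, hP, cix_exG H t hev i] at h
    exact h
  · intro k hk t ht hev htc
    rw [hbase k hk t ht hev htc, htc, cix_reps k hk]

/-- The same for all choices of seven of the eight vertices. -/
theorem class_fun_sub {β : Type*} (P : (Fin 7 → Fin n) → β)
    (hP : ∀ (τ : Equiv.Perm (Fin 7)) (s : Fin 7 → Fin n), P (s ∘ τ) = P s) (v : ℕ → β)
    (hbase : ∀ k < 423, ∀ t : Fin 8 → Fin n, Function.Injective t → EvT H t →
      idx 20 (gc H t) = reps.getD k 0 → P (t ∘ Fin.castSucc) = v k)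
    (t : Fin 8 → Fin n) (ht : Function.Injective t) (hev : EvT H t) (f : Fin 7 → Fin 8)
    (hf : Function.Injective f) :
    P (t ∘ f) = v (cix (idx 20 (gc H (t ∘ f)))) := by
  obtain ⟨σ, hσ⟩ := exists_perm_ext (k := 7) 1 f hf
  have e : t ∘ f = (t ∘ σ) ∘ (Fin.castSucc : Fin 7 → Fin 8) := by
    funext x
    simp only [Function.comp_apply]
    congr 1
    exact (hσ x).symm
  have h := class_fun H P hP v hbase (t ∘ σ) (ht.comp σ.injective) ((evT_perm H t σ).mpr hev)
  rw [e, h, code_castSucc]

/-- The class does not depend on the order of the seven vertices. -/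
theorem cix_perm (t : Fin 8 → Fin n) (ht : Function.Injective t) (hev : EvT H t) (f : Fin 7 → Fin 8)
    (hf : Function.Injective f) (τ : Equiv.Perm (Fin 7)) :
    cix (idx 20 (gc H (t ∘ f ∘ τ))) = cix (idx 20 (gc H (t ∘ f))) := by
  -- the adjacent transpositions generate the group
  have hgen : ∀ τ : Equiv.Perm (Fin 7), τ ∈ Submonoid.closure
      (Set.range fun i : Fin 6 => (Equiv.swap i.castSucc i.succ : Equiv.Perm (Fin 7))) := by
    intro τ
    rw [Equiv.Perm.mclosure_swap_castSucc_succ]
    exact Submonoid.mem_top τ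
  have key : ∀ τ : Equiv.Perm (Fin 7), ∀ f : Fin 7 → Fin 8, Function.Injective f →
      cix (idx 20 (gc H (t ∘ f ∘ τ))) = cix (idx 20 (gc H (t ∘ f))) := by
    intro τ
    refine Submonoid.closure_induction (motive := fun (τ : Equiv.Perm (Fin 7)) _ => ∀ f : Fin 7 → Fin 8,
      Function.Injective f → cix (idx 20 (gc H (t ∘ f ∘ τ))) = cix (idx 20 (gc H (t ∘ f))))
      ?_ ?_ ?_ (hgen τ)
    · rintro _ ⟨i, rfl⟩ f hf
      obtain ⟨σ, hσ⟩ := exists_perm_ext (k := 7) 1 f hf
      have e1 : t ∘ f = (t ∘ σ) ∘ (Fin.castSucc : Fin 7 → Fin 8) := by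
        funext x
        simp only [Function.comp_apply]
        congr 1
        exact (hσ x).symm
      have e2 : t ∘ f ∘ (Equiv.swap i.castSucc i.succ : Equiv.Perm (Fin 7)) =
          ((t ∘ σ) ∘ exG i i.isLt) ∘ (Fin.castSucc : Fin 7 → Fin 8) := by
        funext x
        simp only [Function.comp_apply]
        rw [exG_castSucc]
        congr 1
        exact (hσ _).symm
      rw [e1, e2, code_castSucc, code_castSucc]
      exact cix_exG H (t ∘ σ) ((evT_perm H t σ).mpr hev) i
    · intro f _
      rfl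
    · intro τ₁ τ₂ _ _ h1 h2 f hf
      have e : f ∘ (τ₁ * τ₂ : Equiv.Perm (Fin 7)) = (f ∘ τ₁) ∘ τ₂ := rfl
      rw [e, h2 (f ∘ τ₁) (hf.comp τ₁.injective), h1 f hf]
  exact key τ f hf

end tup

/-! ### Rows of values -/

/-- The lane `c` of `V`. -/
def lkG (W V c : ℕ) : ℕ := Nat.mod (Nat.shiftRight V (Nat.mul W c)) (Nat.pow 2 W)

theorem lkG_eq (W V c : ℕ) : lkG W V c = Ln W V c := (Ln_eq_shr W V c).symm

/-- The array of the lanes of `V` whose numbers are the lanes `s, …, s + 2 ^ k - 1` of `R`. -/
def vrG (W V R k : ℕ) : ℕ → ℕ :=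
  @Nat.rec (fun _ => ℕ → ℕ) (fun s => lkG W V (lkG 9 R s))
    (fun k ih s => Nat.add (ih s) (Nat.shiftLeft (ih (Nat.add s (Nat.pow 2 k)))
      (Nat.mul W (Nat.pow 2 k)))) k

theorem vrG_ar {W V R : ℕ} (hW : 0 < W) (k : ℕ) : ∀ s,
    Ar W k (vrG W V R k s) fun b => Ln W V (Ln 9 R (s + idx k b)) := by
  induction k with
  | zero =>
    intro s
    have e : vrG W V R 0 s = Ln W V (Ln 9 R s) := by
      change lkG W V (lkG 9 R s) = _
      rw [lkG_eq, lkG_eq]
    rw [e]
    refine (Ar.ofLt (Ln_lt W V _)).congr fun b => ?_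
    rw [idx, add_zero]
  | succ k ih =>
    intro s
    have e : vrG W V R (k + 1) s =
      vrG W V R k s + (vrG W V R k (s + 2 ^ k)) <<< (W * 2 ^ k) := rfl
    rw [e]
    refine ((ih s).cat (ih (s + 2 ^ k)) hW).congr fun b => ?_
    rw [idx]
    cases b k
    · rw [if_neg (by simp), Bool.toNat_false, mul_zero, add_zero]
    · rw [if_pos rfl, Bool.toNat_true, mul_one]
      congr 2
      ring

/-- The values of the class function `V` at the codes with the pattern `p`. -/
def row7 (W V p : ℕ) : ℕ := vrG W V (rowC p) 10 0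

theorem row7_ar {W : ℕ} (V p : ℕ) (hW : 0 < W) (hp : p < 1024) :
    Ar W 10 (row7 W V p) fun b => Ln W V (cix (p + 1024 * idx 10 b)) := by
  refine (vrG_ar hW 10 0).congr fun b => ?_
  have h : idx 10 b < 1024 := idx_lt 10 b
  rw [zero_add, cix_row p hp _ h]

end Pool.Agent.Lib.MP_afdd4d_co.K8
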