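import Pool.Agent.Lib.MP_afdd4d_co.K8.F5Cls

/-!
# The local inequalities on eight-tuples of even 4-graphs for a class function

For a function `v` of the classes on seven vertices and a kernel on the six-tuples of even 4-graphs,
the inequalities `PS κ t ≤ DS (BV v) t` are reduced to a finite check of the representatives.
-/

namespace Pool.Agent.Lib.MP_afdd4d_co.K8

open Finset

section cls
variable {n : ℕ} (H : Finset (Finset (Fin n)))

/-- The class of a seven-tuple. -/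
def cls7 (s : Fin 7 → Fin n) : ℕ := cix (idx 20 (gc H s))

theorem cls7_perm (s : Fin 7 → Fin n) (hev : EvT H s) (τ : Equiv.Perm (Fin 7)) :
    cls7 H (s ∘ τ) = cls7 H s := by
  have hgen : ∀ τ : Equiv.Perm (Fin 7), τ ∈ Submonoid.closure
      (Set.range fun i : Fin 6 => (Equiv.swap i.castSucc i.succ : Equiv.Perm (Fin 7))) := by
    intro τ
    rw [Equiv.Perm.mclosure_swap_castSucc_succ]
    exact Submonoid.mem_top τ
  have key : ∀ τ : Equiv.Perm (Fin 7), ∀ s : Fin 7 → Fin n, EvT H s →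
      cls7 H (s ∘ τ) = cls7 H s := by
    intro τ
    refine Submonoid.closure_induction (motive := fun (τ : Equiv.Perm (Fin 7)) _ =>
      ∀ s : Fin 7 → Fin n, EvT H s → cls7 H (s ∘ τ) = cls7 H s) ?_ ?_ ?_ (hgen τ)
    · rintro _ ⟨i, rfl⟩ s hev
      unfold cls7
      rw [Og.gc7_move H s hev i, cix_move]
    · intro s _
      rfl
    · intro τ₁ τ₂ _ _ h1 h2 s hev
      have e : s ∘ (τ₁ * τ₂ : Equiv.Perm (Fin 7)) = (s ∘ τ₁) ∘ τ₂ := rfl
      rw [e, h2 (s ∘ τ₁) ((evT_perm H s τ₁).mpr hev), h1 s hev]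
  exact key τ s hev

open Classical in
/-- The value of a seven-tuple: the value of its class if it is even. -/
noncomputable def BV (v : ℕ → ℤ) (s : Fin 7 → Fin n) : ℤ :=
  if EvT H s then v (cls7 H s) else 0

theorem BV_perm (v : ℕ → ℤ) (τ : Equiv.Perm (Fin 7)) (s : Fin 7 → Fin n) :
    BV H v (s ∘ τ) = BV H v s := by
  unfold BV
  by_cases h : EvT H s
  · rw [if_pos h, if_pos ((evT_perm H s τ).mpr h), cls7_perm H s h]
  · rw [if_neg h, if_neg fun h1 => h ((evT_perm H s τ).mp h1)]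

theorem BV_even (v : ℕ → ℤ) (s : Fin 7 → Fin n) (h : EvT H s) : BV H v s = v (cls7 H s) := by
  unfold BV
  rw [if_pos h]

theorem cls7_lt (s : Fin 7 → Fin n) : cls7 H s < 423 := cix_lt _

theorem BV_abs (v : ℕ → ℤ) (C : ℤ) (hC : 0 ≤ C) (hv : ∀ k < 423, |v k| ≤ C)
    (s : Fin 7 → Fin n) : |BV H v s| ≤ C := by
  unfold BV
  split_ifs
  · exact hv _ (cls7_lt H s)
  · rw [abs_zero]
    exact hC

end cls

/-- The data of the check. -/
structure ChkB where
  κ6 : Kern 6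
  g : ℕ → ℕ → ℤ
  v : ℕ → ℤ
  O : ℕ
  O' : ℕ
  B2 : ℕ
  Q : ℕ → ℕ
  bk : ℕ → ℕ → ℕ → ℕ
  row : ℕ → ℕ
  W : ℕ
  hW : 1 < W
  hk6 : ∀ {n : ℕ} (H : Finset (Finset (Fin n))), κ6.f H = evk H (gK H g)
  hs : ∀ c d, g c d = g d c
  hO : ∀ c d, |g c d| ≤ O
  hQ2 : ∀ c, Q c ≤ B2
  hp6 : ∀ {n : ℕ} (H : Finset (Finset (Fin n))) (τ : Equiv.Perm (Fin 6)) s u w,
    evk H (gK H g) (s ∘ τ) u w = evk H (gK H g) s u w
  hQ : ∀ c, 2 * (O' : ℤ) ≤ 2 * (Q c : ℤ) + v (cix c)
  hbd : 49 * (2 * O + B2) < 2 ^ (W - 1)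
  hbk : ∀ p < 1024, ∀ x0 < 64, ∀ y0 < 64, Ar W 8 (bk p x0 y0) fun b =>
      gN g O p (x0 + 64 * idx 4 b) (y0 + 64 * idx 4 fun k => b (4 + k))
  hrow : ∀ c < 2 ^ 20, Ar W 10 (row c) fun b => gN g O (c % 1024) (c / 1024) (idx 10 b) +
      Q (c % 1024 + 1024 * idx 10 b)

namespace ChkB
variable (C : ChkB)

/-- The check of one base. -/
def one (c : ℕ) : Bool :=
  leG C.W 15 (Nat.sub (Nat.add (Nat.mul 28 C.O) (Nat.mul 8 C.O')) (C.Q c))
    (arG C.W (tabG C.W C.bk) C.row wd c)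

theorem gN_le (p x y : ℕ) : gN C.g C.O p x y ≤ 2 * C.O := by
  unfold gN
  have h := abs_le.mp (C.hO (p + 1024 * x) (p + 1024 * y))
  rw [Int.toNat_le]
  push_cast
  linarith [h.2]

/-- The local inequality from the check. -/
theorem local_of_one (c : ℕ) (hc : c < 2 ^ 20) (hQc : C.Q c ≤ 28 * C.O + 8 * C.O')
    (hone : C.one c = true) {n : ℕ} (H : Finset (Finset (Fin n)))
    (t : Fin 8 → Fin n) (ht : Function.Injective t) (hev : EvT H t)
    (htc : idx 20 (gc H t) = c) :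
    DS (m := 7) (fun s => -BV H C.v s) t + PS (evk H (gK H C.g)) t ≤ 0 := by
  have hW : 0 < C.W := by have := C.hW; omega
  have h2W : 2 ^ C.W = 2 ^ (C.W - 1) + 2 ^ (C.W - 1) := by
    obtain ⟨k, hk⟩ : ∃ k, C.W = k + 1 := ⟨C.W - 1, by omega⟩
    rw [hk, Nat.add_sub_cancel, pow_succ]; ring
  have hbd := C.hbd
  have har := arG_ar (gN C.g C.O) C.Q (tabG C.W C.bk) C.row hW (2 * C.O) C.B2
    (fun p x y => C.gN_le p x y) C.hQ2
    (fun c _ => tabG_ar hW (gN C.g C.O) C.bk C.hbk c) C.hrow 49 (by omega) wd (by decide)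
    (by rw [Chk.wd_len]) c hc
  have hle : ∀ b, fV (gN C.g C.O) C.Q wd (mkz c b) < 2 ^ (C.W - 1) := by
    intro b
    have h1 := fV_le (gN C.g C.O) C.Q (2 * C.O) C.B2 (fun p x y => C.gN_le p x y) C.hQ2 wd
      (mkz c b)
    rw [Chk.wd_len] at h1
    omega
  have hqp : ∀ (τ : Equiv.Perm (Fin 7)) (s : Fin 7 → Fin n),
      (fun s => -BV H C.v s) (s ∘ τ) = (fun s => -BV H C.v s) s := by
    intro τ s
    change -BV H C.v (s ∘ τ) = -BV H C.v s
    rw [BV_perm]
  have hQ' : ∀ s : Fin 7 → Fin n, Function.Injective s → EvT H s →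
      2 * (C.O' : ℤ) + (fun s => -BV H C.v s) s ≤ 2 * (C.Q (idx 20 (gc H s)) : ℤ) := by
    intro s _ hs
    change 2 * (C.O' : ℤ) + -BV H C.v s ≤ 2 * (C.Q (idx 20 (gc H s)) : ℤ)
    rw [BV_even H C.v s hs]
    have h := C.hQ (idx 20 (gc H s))
    have e : C.v (cls7 H s) = C.v (cix (idx 20 (gc H s))) := rfl
    rw [e]
    linarith
  set K := 28 * C.O + 8 * C.O' - C.Q c with hK
  have h4 : fV (gN C.g C.O) C.Q wd (gc H t) ≤ K := by
    by_cases hK2 : K < 2 ^ (C.W - 1)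
    · have h3 := leG_le C.hW har hK2 hle hone
      have h5 := h3 fun l => gc H t (lam.getD l 0)
      have h6 : fV (gN C.g C.O) C.Q wd (mkz c fun l => gc H t (lam.getD l 0)) =
          fV (gN C.g C.O) C.Q wd (gc H t) := by
        apply fV_congr
        intro i hi
        unfold mkz
        by_cases h7 : i < 20
        · rw [if_pos h7, ← htc, testBit_idx]
          simp [h7]
        · rw [if_neg h7]
          obtain ⟨_, _, _, _, h10⟩ := lai_data (i - 20) (by omega)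
          have h11 : lam.getD (lai.getD (i - 20) 0) 0 = i := by omega
          exact congrArg (gc H t) h11
      rw [← h6]
      exact h5
    · have h1 := fV_le (gN C.g C.O) C.Q (2 * C.O) C.B2 (fun p x y => C.gN_le p x y) C.hQ2 wd
        (gc H t)
      rw [Chk.wd_len] at h1
      omega
  exact even_local H C.g C.O C.O' K C.Q (fun c d => (abs_le.mp (C.hO c d)).1) C.hs (C.hp6 H)
    (fun s => -BV H C.v s) hqp t ht hev hQ' (by rw [htc]; omega) h4

/-- The local inequalities for even 4-graphs. -/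
theorem hB (hlt : ∀ c ∈ reps, C.Q c ≤ 28 * C.O + 8 * C.O') (hall : ∀ c ∈ reps, C.one c = true)
    {n : ℕ} (H : Finset (Finset (Fin n))) (hH : EvenH n H) (t : Fin (7 + 1) → Fin n)
    (ht : Function.Injective t) : PS (C.κ6.f H) t ≤ DS (m := 7) (BV H C.v) t := by
  have hr : ∀ c ∈ reps, c < 2 ^ 20 := by
    have h := reps_lt
    rw [List.all_eq_true] at h
    exact fun c hc => of_decide_eq_true (h c hc)
  have hevT : EvT H t := evT_of_evenH H hH t ht
  have key : DS (m := 7) (fun s => -BV H C.v s) t + PS (evk H (gK H C.g)) t ≤ 0 := by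
    refine even_reduce H (fun t : Fin 8 → Fin n =>
      DS (m := 7) (fun s => -BV H C.v s) t + PS (evk H (gK H C.g)) t ≤ 0) ?_ ?_ t ht hevT
    · intro t σ h1
      rw [DS_perm8 _ (fun τ s => by rw [BV_perm]) σ t] at h1
      have h2 := PS_perm (evk H (gK H C.g)) (C.hp6 H) σ t
      rw [h2] at h1
      exact h1
    · intro c hc t ht hev htc
      exact C.local_of_one c (hr c hc) (hlt c hc) (hall c hc) H t ht hev htc
  rw [C.hk6 H]
  have e : DS (m := 7) (fun s => -BV H C.v s) t = -DS (m := 7) (BV H C.v) t := by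
    unfold DS
    rw [← Finset.sum_neg_distrib]
  rw [e] at key
  linarith

end ChkB

end Pool.Agent.Lib.MP_afdd4d_co.K8
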