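import Mathlib.Tactic

/-!
# Lists in parts
-/

namespace Pool.Agent.Lib.MP_afdd4d_co.K8

/-- The `j`-th part of a list, of `m` elements. -/
def part (m j : ℕ) (l : List ℕ) : List ℕ := (l.drop (m * j)).take m

theorem all_parts (f : ℕ → Bool) (m k : ℕ) (hm : 0 < m) (l : List ℕ) (hl : l.length ≤ m * k)
    (h : ∀ j < k, (part m j l).all f = true) : ∀ c ∈ l, f c = true := by
  intro c hc
  obtain ⟨i, hi, hic⟩ := List.mem_iff_getElem.mp hc
  have hj : i / m < k := by
    rw [Nat.div_lt_iff_lt_mul hm, mul_comm]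
    omega
  have h1 := h (i / m) hj
  rw [List.all_eq_true] at h1
  apply h1
  rw [part, List.mem_iff_getElem]
  have h2 := Nat.div_add_mod i m
  have h3 := Nat.mod_lt i hm
  refine ⟨i % m, ?_, ?_⟩
  · rw [List.length_take, List.length_drop]
    omega
  · rw [List.getElem_take, List.getElem_drop]
    have h4 : m * (i / m) + i % m = i := h2
    simp only [h4]
    exact hic

end Pool.Agent.Lib.MP_afdd4d_co.K8
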