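import Pool.Agent.Lib.MP_afdd4d_co.K8.Code

/-!
# Linear maps over the field with two elements

Vectors of bits are natural numbers or functions with values in `Bool`.
-/

namespace Pool.Agent.Lib.MP_afdd4d_co.K8

/-- The sum modulo two of the first `n` bits. -/
def xo : ℕ → (ℕ → Bool) → Bool
  | 0, _ => false
  | n + 1, f => xo n f ^^ f n

theorem xo_congr (n : ℕ) (f g : ℕ → Bool) (h : ∀ k < n, f k = g k) : xo n f = xo n g := by
  induction n with
  | zero => rfl
  | succ n ih => rw [xo, xo, ih fun k hk => h k (by omega), h n (by omega)]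

theorem xo_xor (n : ℕ) (f g : ℕ → Bool) : xo n (fun k => f k ^^ g k) = (xo n f ^^ xo n g) := by
  induction n with
  | zero => rfl
  | succ n ih =>
    rw [xo, xo, xo, ih]
    cases xo n f <;> cases xo n g <;> cases f n <;> cases g n <;> rfl

theorem xo_false (n : ℕ) : xo n (fun _ => false) = false := by
  induction n with
  | zero => rfl
  | succ n ih => rw [xo, ih]; rfl

theorem xo_add (n m : ℕ) (f : ℕ → Bool) : xo (n + m) f = (xo n f ^^ xo m fun k => f (n + k)) := by
  induction m with
  | zero => rw [xo, Bool.xor_false]; rfl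
  | succ m ih =>
    have e : n + (m + 1) = (n + m) + 1 := by ring
    rw [e, xo, ih, xo, Bool.xor_assoc]

theorem xo_and (n : ℕ) (c : Bool) (f : ℕ → Bool) : xo n (fun k => c && f k) = (c && xo n f) := by
  cases c
  · simp only [Bool.false_and]
    exact xo_false n
  · simp only [Bool.true_and]

/-- The sum of the columns `col k`, `k < n`, with `b k`. -/
def lx : ℕ → (ℕ → ℕ) → (ℕ → Bool) → ℕ
  | 0, _, _ => 0
  | n + 1, col, b => lx n col b ^^^ (if b n = true then col n else 0)

theorem lx_congr (n : ℕ) (col col' : ℕ → ℕ) (b b' : ℕ → Bool) (h : ∀ k < n, b k = b' k)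
    (hc : ∀ k < n, col k = col' k) : lx n col b = lx n col' b' := by
  induction n with
  | zero => rfl
  | succ n ih =>
    rw [lx, lx, ih (fun k hk => h k (by omega)) (fun k hk => hc k (by omega)), h n (by omega),
      hc n (by omega)]

theorem testBit_lx (n : ℕ) (col : ℕ → ℕ) (b : ℕ → Bool) (r : ℕ) :
    (lx n col b).testBit r = xo n fun k => b k && (col k).testBit r := by
  induction n with
  | zero => rw [lx, Nat.zero_testBit]; rfl
  | succ n ih =>
    rw [lx, Nat.testBit_xor, ih, xo]
    by_cases h : b n = true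
    · rw [if_pos h, h, Bool.true_and]
    · rw [if_neg h, Nat.zero_testBit]
      rw [Bool.not_eq_true] at h
      rw [h, Bool.false_and]

theorem lx_xor (n : ℕ) (col : ℕ → ℕ) (b b' : ℕ → Bool) :
    lx n col (fun k => b k ^^ b' k) = lx n col b ^^^ lx n col b' := by
  apply Nat.eq_of_testBit_eq
  intro r
  rw [Nat.testBit_xor, testBit_lx, testBit_lx, testBit_lx, ← xo_xor]
  apply xo_congr
  intro k _
  cases b k <;> cases b' k <;> cases (col k).testBit r <;> rfl

theorem lx_add (n m : ℕ) (col : ℕ → ℕ) (b : ℕ → Bool) :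
    lx (n + m) col b = lx n col b ^^^ lx m (fun k => col (n + k)) fun k => b (n + k) := by
  apply Nat.eq_of_testBit_eq
  intro r
  rw [Nat.testBit_xor, testBit_lx, testBit_lx, testBit_lx, ← xo_add]

theorem lx_lt (n N : ℕ) (col : ℕ → ℕ) (b : ℕ → Bool) (h : ∀ k < n, col k < 2 ^ N) :
    lx n col b < 2 ^ N := by
  induction n with
  | zero => exact Nat.two_pow_pos N
  | succ n ih =>
    rw [lx]
    apply Nat.xor_lt_two_pow (ih fun k hk => h k (by omega))
    split_ifs
    · exact h n (by omega)
    · exact Nat.two_pow_pos N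

theorem lx_shr (n s : ℕ) (col : ℕ → ℕ) (b : ℕ → Bool) :
    (lx n col b) >>> s = lx n (fun k => (col k) >>> s) b := by
  apply Nat.eq_of_testBit_eq
  intro r
  rw [Nat.testBit_shiftRight, testBit_lx, testBit_lx]
  apply xo_congr
  intro k _
  rw [Nat.testBit_shiftRight]

theorem lx_mod (n s : ℕ) (col : ℕ → ℕ) (b : ℕ → Bool) :
    (lx n col b) % 2 ^ s = lx n (fun k => (col k) % 2 ^ s) b := by
  apply Nat.eq_of_testBit_eq
  intro r
  rw [Nat.testBit_mod_two_pow, testBit_lx, testBit_lx]
  by_cases h : r < s
  · rw [decide_eq_true h, Bool.true_and]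
    apply xo_congr
    intro k _
    rw [Nat.testBit_mod_two_pow, decide_eq_true h, Bool.true_and]
  · rw [decide_eq_false h, Bool.false_and]
    symm
    rw [← xo_false n]
    apply xo_congr
    intro k _
    rw [Nat.testBit_mod_two_pow, decide_eq_false h, Bool.false_and, Bool.and_false]

/-- The pairing of two vectors with ten bits. -/
def chi (v z : ℕ) : Bool := xo 10 fun r => v.testBit r && z.testBit r

theorem chi_xor (v z z' : ℕ) : chi v (z ^^^ z') = (chi v z ^^ chi v z') := by
  unfold chi
  rw [← xo_xor]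
  apply xo_congr
  intro k _
  rw [Nat.testBit_xor]
  cases v.testBit k <;> cases z.testBit k <;> cases z'.testBit k <;> rfl

theorem chi_zero (v : ℕ) : chi v 0 = false := by
  unfold chi
  rw [← xo_false 10]
  apply xo_congr
  intro k _
  rw [Nat.zero_testBit, Bool.and_false]

theorem chi_lx (v n : ℕ) (col : ℕ → ℕ) (b : ℕ → Bool) :
    chi v (lx n col b) = xo n fun k => b k && chi v (col k) := by
  induction n with
  | zero => rw [lx, chi_zero]; rfl
  | succ n ih =>
    rw [lx, chi_xor, ih, xo]
    by_cases h : b n = true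
    · rw [if_pos h, h, Bool.true_and]
    · rw [if_neg h, chi_zero]
      rw [Bool.not_eq_true] at h
      rw [h, Bool.false_and]

theorem xo_comm (n m : ℕ) (f : ℕ → ℕ → Bool) :
    xo n (fun k => xo m fun r => f k r) = xo m fun r => xo n fun k => f k r := by
  induction n with
  | zero =>
    rw [xo]
    symm
    exact xo_false m
  | succ n ih =>
    rw [xo, ih, ← xo_xor]
    rfl

/-- The linear map with given columns. -/
def app (col : ℕ → ℕ) (z : ℕ) : ℕ := lx 10 col z.testBit

theorem app_xor (col : ℕ → ℕ) (z z' : ℕ) : app col (z ^^^ z') = app col z ^^^ app col z' := by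
  unfold app
  rw [← lx_xor]
  apply lx_congr
  · intro k _
    rw [Nat.testBit_xor]
  · intro k _
    rfl

theorem app_zero (col : ℕ → ℕ) : app col 0 = 0 := by
  apply Nat.eq_of_testBit_eq
  intro r
  unfold app
  rw [testBit_lx, Nat.zero_testBit, ← xo_false 10]
  apply xo_congr
  intro k _
  rw [Nat.zero_testBit, Bool.false_and]

theorem app_lx (col : ℕ → ℕ) (n : ℕ) (c : ℕ → ℕ) (b : ℕ → Bool) :
    app col (lx n c b) = lx n (fun k => app col (c k)) b := by
  induction n with
  | zero => rw [lx, lx, app_zero]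
  | succ n ih =>
    rw [lx, lx, app_xor, ih]
    by_cases h : b n = true
    · rw [if_pos h, if_pos h]
    · rw [if_neg h, if_neg h, app_zero]

theorem chi_app (v : ℕ) (col : ℕ → ℕ) (z : ℕ) :
    chi v (app col z) = xo 10 fun k => z.testBit k && chi v (col k) := chi_lx _ _ _ _

/-- The sign of a bit. -/
def sg (b : Bool) : ℤ := if b = true then -1 else 1

theorem sg_xor (a b : Bool) : sg (a ^^ b) = sg a * sg b := by
  cases a <;> cases b <;> decide

theorem sg_sq (a : Bool) : sg a * sg a = 1 := by cases a <;> decide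

theorem sg_abs (a : Bool) : |sg a| = 1 := by cases a <;> decide

end Pool.Agent.Lib.MP_afdd4d_co.K8
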