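import Pool.Agent.Lib.MP_afdd4d_co.K8.Red
import Pool.Agent.Lib.MP_afdd4d_co.K8.G6Lin

/-!
# Codes of even seven-tuples
-/

namespace Pool.Agent.Lib.MP_afdd4d_co.K8

open Finset

theorem qd7_data : ∀ r < 20, (qd 7 r).card = 4 ∧ (0 : Fin 7) ∈ qd 7 r := by decide +kernel

theorem qd7_inj : ∀ r < 20, ∀ r' < 20, qd 7 r = qd 7 r' → r = r' := by decide +kernel

theorem qd7_surj : ∀ Q : Finset (Fin 7), Q.card = 4 → (0 : Fin 7) ∈ Q → ∃ r < 20, qd 7 r = Q := by
  have h1 : ((Finset.range 20).image (qd 7)) =
      ((univ : Finset (Fin 7)).powersetCard 4).filter fun Q => (0 : Fin 7) ∈ Q := by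
    apply Finset.eq_of_subset_of_card_le
    · intro T hT
      rw [Finset.mem_image] at hT
      obtain ⟨r, hr, rfl⟩ := hT
      rw [Finset.mem_filter, Finset.mem_powersetCard]
      exact ⟨⟨Finset.subset_univ _, (qd7_data r (Finset.mem_range.mp hr)).1⟩,
        (qd7_data r (Finset.mem_range.mp hr)).2⟩
    · rw [Finset.card_image_of_injOn, Finset.card_range]
      · decide +kernel
      · intro i hi j hj hij
        exact qd7_inj i (Finset.mem_range.mp hi) j (Finset.mem_range.mp hj) hij
  intro Q hQ h0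
  have h2 : Q ∈ ((univ : Finset (Fin 7)).powersetCard 4).filter fun Q => (0 : Fin 7) ∈ Q := by
    rw [Finset.mem_filter, Finset.mem_powersetCard]
    exact ⟨⟨Finset.subset_univ _, hQ⟩, h0⟩
  rw [← h1, Finset.mem_image] at h2
  obtain ⟨r, hr, h3⟩ := h2
  exact ⟨r, Finset.mem_range.mp hr, h3⟩

/-- The affine form of the bit of a quadruple in terms of the code. -/
def exF7 (T : Finset (Fin 7)) : ℕ := 2 * idx 20 fun r => decide (qd 7 r ⊆ insert 0 T)

section tup
variable {n : ℕ} (H : Finset (Finset (Fin n)))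

theorem zb7_eq (t : Fin 7 → Fin n) (hev : EvT H t) (T : Finset (Fin 7)) (hT : T.card = 4) :
    zb H t T = lf 20 (exF7 T) (gc H t) := by
  apply bz_inj
  rw [bz_lf]
  have h0 : (exF7 T).testBit 0 = false := by
    rw [exF7]
    simp
  have h1 : ∀ i ∈ range 20, bz ((exF7 T).testBit (i + 1) && gc H t i) =
      if qd 7 i ⊆ insert 0 T then bz (gc H t i) else 0 := by
    intro i hi
    have e1 : (exF7 T).testBit (i + 1) = decide (qd 7 i ⊆ insert 0 T) := by
      rw [exF7, mul_comm, show (2 : ℕ) = 2 ^ 1 from rfl, Nat.testBit_mul_two_pow]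
      have : decide (1 ≤ i + 1) = true := by simp
      rw [this, Bool.true_and, Nat.add_sub_cancel, testBit_idx]
      have h2 := Finset.mem_range.mp hi
      simp [h2]
    rw [e1]
    by_cases h3 : qd 7 i ⊆ insert 0 T
    · rw [if_pos h3, decide_eq_true h3, bz_and_true]
    · rw [if_neg h3, decide_eq_false h3, bz_and_false]
  have hb0 : bz false = 0 := rfl
  rw [h0, hb0, zero_add, Finset.sum_congr rfl h1, ← Finset.sum_filter]
  by_cases hT0 : (0 : Fin 7) ∈ T
  · -- the quadruple itself
    obtain ⟨r, hr, hrT⟩ := qd7_surj T hT hT0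
    have h4 : (range 20).filter (fun i => qd 7 i ⊆ insert 0 T) = {r} := by
      ext i
      rw [Finset.mem_filter, Finset.mem_range, Finset.mem_singleton,
        Finset.insert_eq_of_mem hT0]
      constructor
      · rintro ⟨h5, h6⟩
        have h7 : qd 7 i = T := Finset.eq_of_subset_of_card_le h6 (by
          rw [hT, (qd7_data i h5).1])
        exact qd7_inj i h5 r hr (h7.trans hrT.symm)
      · rintro rfl
        exact ⟨hr, by rw [hrT]⟩
    rw [h4, Finset.sum_singleton, gc, hrT]
  · -- five vertices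
    have hS : (insert 0 T).card = 5 := by
      rw [Finset.card_insert_of_notMem hT0, hT]
    have h5 := hev (insert 0 T) hS
    unfold dl at h5
    rw [Finset.sum_insert hT0, Finset.erase_insert hT0, zt_eq] at h5
    have h6 : ∑ x ∈ T, zt H t ((insert 0 T).erase x) =
        ∑ i ∈ (range 20).filter (fun i => qd 7 i ⊆ insert 0 T), bz (gc H t i) := by
      symm
      have h7 : ∀ i ∈ (range 20).filter (fun i => qd 7 i ⊆ insert 0 T),
          ∃ x ∈ T, (insert 0 T).erase x = qd 7 i := by
        intro i hi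
        rw [Finset.mem_filter, Finset.mem_range] at hi
        obtain ⟨hi1, hi2⟩ := hi
        have h8 : ((insert 0 T) \ qd 7 i).card = 1 := by
          rw [Finset.card_sdiff_of_subset hi2, hS, (qd7_data i hi1).1]
        obtain ⟨x, hx⟩ := Finset.card_eq_one.mp h8
        have hx1 : x ∈ (insert 0 T) \ qd 7 i := by rw [hx]; exact Finset.mem_singleton_self x
        rw [Finset.mem_sdiff, Finset.mem_insert] at hx1
        have hxT : x ∈ T := by
          rcases hx1.1 with h9 | h9
          · exact absurd (h9 ▸ (qd7_data i hi1).2) hx1.2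
          · exact h9
        refine ⟨x, hxT, ?_⟩
        symm
        apply Finset.eq_of_subset_of_card_le
        · intro y hy
          rw [Finset.mem_erase]
          exact ⟨fun h => hx1.2 (h ▸ hy), hi2 hy⟩
        · rw [Finset.card_erase_of_mem (Finset.mem_insert_of_mem hxT), hS, (qd7_data i hi1).1]
      choose! g hg1 hg2 using h7
      refine Finset.sum_bij (fun i _ => g i) (fun i hi => hg1 i hi) ?_ ?_ ?_
      · intro i hi j hj hij
        have h9 := hg2 i hi
        rw [hij, hg2 j hj] at h9
        rw [Finset.mem_filter, Finset.mem_range] at hi hj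
        exact (qd7_inj j hj.1 i hi.1 h9).symm
      · intro x hx
        have hc : ((insert 0 T).erase x).card = 4 := by
          rw [Finset.card_erase_of_mem (Finset.mem_insert_of_mem hx), hS]
        have h0x : (0 : Fin 7) ∈ (insert 0 T).erase x := by
          rw [Finset.mem_erase]
          exact ⟨fun h => hT0 (h ▸ hx), Finset.mem_insert_self _ _⟩
        obtain ⟨r, hr, hrQ⟩ := qd7_surj _ hc h0x
        have hrm : r ∈ (range 20).filter (fun i => qd 7 i ⊆ insert 0 T) := by
          rw [Finset.mem_filter, Finset.mem_range]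
          exact ⟨hr, by rw [hrQ]; exact Finset.erase_subset _ _⟩
        refine ⟨r, hrm, ?_⟩
        have h9 := hg2 r hrm
        rw [hrQ] at h9
        have h10 : g r ∈ T := hg1 r hrm
        by_contra hne
        have h11 : x ∈ (insert 0 T).erase (g r) := by
          rw [Finset.mem_erase]
          exact ⟨fun h => hne h.symm, Finset.mem_insert_of_mem hx⟩
        rw [h9] at h11
        exact absurd h11 (Finset.notMem_erase x _)
      · intro i hi
        rw [gc, ← hg2 i hi, ← zt_eq]
    rw [h6] at h5
    have h8 := eq_neg_of_add_eq_zero_left h5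
    rw [h8, CharTwo.neg_eq]


theorem gc7_comp (t : Fin 7 → Fin n) (hev : EvT H t) (f : Fin 7 → Fin 7) (r : ℕ)
    (hc : ((qd 7 r).image f).card = 4) :
    gc H (t ∘ f) r = lf 20 (exF7 ((qd 7 r).image f)) (gc H t) := by
  rw [gc, zb_comp, zb7_eq H t hev _ hc]

end tup

/-! ### Exchanges of two neighbouring vertices -/

/-- The exchange of the vertices `i` and `i + 1`. -/
def ex7 (i : Fin 5) : Equiv.Perm (Fin 7) :=
  Equiv.swap ⟨i, by omega⟩ ⟨i + 1, by omega⟩

/-- The columns of the exchanges on the codes. -/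
def mcL : List (List ℕ) := [
  [4169, 16650, 33292, 8, 131408, 262752, 64, 525184, 256, 512, 152576, 301056, 4096, 581632, 16384, 32768, 983040, 131072, 262144, 524288],
  [1, 2, 8, 4, 16, 64, 32, 256, 128, 512, 1024, 4096, 2048, 16384, 8192, 32768, 131072, 65536, 262144, 524288],
  [1, 4, 2, 8, 32, 16, 64, 128, 512, 256, 2048, 1024, 4096, 8192, 32768, 16384, 65536, 262144, 131072, 524288],
  [2, 1, 4, 8, 16, 128, 256, 32, 64, 512, 1024, 8192, 16384, 2048, 4096, 32768, 65536, 131072, 524288, 262144],
  [1, 16, 32, 64, 2, 4, 8, 128, 256, 512, 1024, 2048, 4096, 65536, 131072, 262144, 8192, 16384, 32768, 524288]]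

/-- The column `k` of the exchange `i`. -/
def mc (i k : ℕ) : ℕ := (mcL.getD i []).getD k 0

theorem mc_geo : ∀ i : Fin 5, ∀ r < 20, ((qd 7 r).image (ex7 i)).card = 4 ∧
    (exF7 ((qd 7 r).image (ex7 i))).testBit 0 = false ∧
    (∀ k < 20, (exF7 ((qd 7 r).image (ex7 i))).testBit (k + 1) = (mc i k).testBit r) := by
  decide +kernel

theorem mc_low : ∀ i < 5, ∀ k < 10, mc i (10 + k) % 1024 = 0 := by decide +kernel

theorem mc_lt : ∀ i < 5, ∀ k < 20, mc i k < 2 ^ 20 := by decide +kernel

theorem lf_eq_xo (N m : ℕ) (b : ℕ → Bool) (h0 : m.testBit 0 = false) :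
    lf N m b = xo N fun k => b k && m.testBit (k + 1) := by
  induction N with
  | zero => exact h0
  | succ N ih => rw [lf, xo, ih, Bool.and_comm]

section tup
variable {n : ℕ} (H : Finset (Finset (Fin n)))

/-- The code of an even tuple after an exchange. -/
theorem gc7_ex (t : Fin 7 → Fin n) (hev : EvT H t) (i : Fin 5) :
    idx 20 (gc H (t ∘ ex7 i)) = lx 20 (mc i) (gc H t) := by
  apply Nat.eq_of_testBit_eq
  intro r
  rw [testBit_idx, testBit_lx]
  by_cases hr : r < 20
  · obtain ⟨h1, h2, h3⟩ := mc_geo i r hr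
    rw [gc7_comp H t hev _ r h1, lf_eq_xo 20 _ _ h2]
    have e : decide (r < 20) = true := decide_eq_true hr
    rw [e, Bool.true_and]
    apply xo_congr
    intro k hk
    rw [h3 k hk]
  · have e : decide (r < 20) = false := decide_eq_false hr
    rw [e, Bool.false_and]
    symm
    rw [← xo_false 20]
    apply xo_congr
    intro k hk
    have h4 : (mc i k).testBit r = false := by
      apply Nat.testBit_lt_two_pow
      exact lt_of_lt_of_le (mc_lt i i.isLt k hk) (Nat.pow_le_pow_right (by norm_num) (by omega))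
    rw [h4, Bool.and_false]

end tup

end Pool.Agent.Lib.MP_afdd4d_co.K8
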