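import Pool.Agent.Lib.MP_afdd4d_co.K8.F6Lz
import Pool.Agent.Lib.MP_afdd4d_co.K8.G6Code

/-!
# Constants, entries, loops, parts of arrays
-/

namespace Pool.Agent.Lib.MP_afdd4d_co.K8

open Finset


/-- The number with `N` lanes equal to one. -/
def onG (W N : ℕ) : ℕ :=
  Nat.div (Nat.sub (Nat.pow 2 (Nat.mul W N)) 1) (Nat.sub (Nat.pow 2 W) 1)

theorem onG_eq (W N : ℕ) : onG W N = (2 ^ (W * N) - 1) / (2 ^ W - 1) := rfl

theorem onG_zero (W : ℕ) : onG W 0 = 0 := by
  rw [onG_eq, mul_zero, pow_zero, Nat.sub_self, Nat.zero_div]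

theorem onG_succ {W : ℕ} (hW : 0 < W) (N : ℕ) : onG W (N + 1) = onG W N + 2 ^ (W * N) := by
  have h1 : 1 < 2 ^ W := Nat.one_lt_two_pow (by omega)
  have h2 : 0 < 2 ^ (W * N) := Nat.two_pow_pos _
  have e : 2 ^ (W * (N + 1)) - 1 = (2 ^ (W * N) - 1) + (2 ^ W - 1) * 2 ^ (W * N) := by
    rw [mul_add, mul_one, pow_add, Nat.sub_mul, one_mul]
    have h3 : 2 ^ (W * N) ≤ 2 ^ W * 2 ^ (W * N) := Nat.le_mul_of_pos_left _ (by omega)
    rw [mul_comm (2 ^ (W * N)) (2 ^ W)]
    omega
  rw [onG_eq, onG_eq, e, Nat.add_mul_div_left _ _ (by omega)]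

theorem onG_succ' {W : ℕ} (hW : 0 < W) (N : ℕ) : onG W (N + 1) = 1 + 2 ^ W * onG W N := by
  induction N with
  | zero => rw [onG_succ hW, onG_zero, mul_zero, pow_zero, mul_zero, Nat.zero_add, Nat.add_zero]
  | succ N ih =>
    have e3 : 2 ^ (W * (N + 1)) = 2 ^ W * 2 ^ (W * N) := by
      rw [mul_add, mul_one, pow_add, mul_comm]
    calc onG W (N + 1 + 1) = onG W (N + 1) + 2 ^ (W * (N + 1)) := onG_succ hW _
      _ = (1 + 2 ^ W * onG W N) + 2 ^ W * 2 ^ (W * N) := by rw [ih, e3]
      _ = 1 + 2 ^ W * (onG W N + 2 ^ (W * N)) := by ring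
      _ = 1 + 2 ^ W * onG W (N + 1) := by rw [← onG_succ hW]

theorem mul_onG_lt {W : ℕ} (hW : 0 < W) (c : ℕ) (hc : c < 2 ^ W) (N : ℕ) :
    c * onG W N < 2 ^ (W * N) := by
  induction N with
  | zero => rw [onG_zero, mul_zero]; exact Nat.two_pow_pos _
  | succ N ih =>
    rw [onG_succ hW, mul_add, mul_add, mul_one, pow_add]
    have h2 : (c + 1) * 2 ^ (W * N) ≤ 2 ^ W * 2 ^ (W * N) := Nat.mul_le_mul_right _ hc
    nlinarith

theorem Ln_mul_onG {W : ℕ} (hW : 0 < W) (c : ℕ) (hc : c < 2 ^ W) (N i : ℕ) :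
    Ln W (c * onG W N) i = if i < N then c else 0 := by
  induction N with
  | zero => rw [onG_zero, mul_zero, Ln_zero_left, if_neg (by omega)]
  | succ N ih =>
    rw [onG_succ hW, mul_add, ← Nat.shiftLeft_eq, Ln_cat _ _ _ _ _ (mul_onG_lt hW c hc N), ih]
    by_cases h1 : i < N
    · rw [if_pos h1, if_pos h1, if_pos (by omega)]
    · rw [if_neg h1, Ln_small _ _ hc]
      by_cases h2 : i = N
      · rw [if_pos (by omega), if_pos (by omega)]
      · rw [if_neg (by omega), if_neg (by omega)]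

/-- The constant array. -/
theorem con_lz {W : ℕ} (hW : 0 < W) (c : ℕ) (hc : c < 2 ^ W) (N : ℕ) :
    Lz W N c (Nat.mul c (onG W N)) c fun _ => 0 := by
  refine ⟨mul_onG_lt hW c hc N, fun i hi => ?_, fun i hi => ?_⟩
  · have h := Ln_mul_onG hW c hc N i
    rw [if_pos hi] at h
    have e : Nat.mul c (onG W N) = c * onG W N := rfl
    rw [e, h, add_zero]
  · have h := Ln_mul_onG hW c hc N i
    rw [if_pos hi] at h
    exact le_of_eq h

/-- A lane. -/
def lnG (W A j : ℕ) : ℕ := Nat.mod (Nat.shiftRight A (Nat.mul W j)) (Nat.pow 2 W)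

theorem lnG_eq (W A j : ℕ) : lnG W A j = Ln W A j := by
  rw [Ln_eq_shr]
  rfl

theorem and_high (W s y : ℕ) (hs : s ≤ W) (hy : y < 2 ^ W) :
    y &&& (2 ^ W - 2 ^ s) = y - y % 2 ^ s := by
  have e1 : y - y % 2 ^ s = (y >>> s) <<< s := by
    rw [Nat.shiftRight_eq_div_pow, Nat.shiftLeft_eq]
    have := Nat.div_add_mod y (2 ^ s)
    rw [mul_comm] at this
    omega
  have e2 : 2 ^ W - 2 ^ s = (2 ^ (W - s) - 1) <<< s := by
    rw [Nat.shiftLeft_eq, Nat.sub_mul, one_mul, ← pow_add, Nat.sub_add_cancel hs]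
  rw [e1, e2]
  apply Nat.eq_of_testBit_eq
  intro r
  rw [Nat.testBit_and, Nat.testBit_shiftLeft, Nat.testBit_shiftLeft, Nat.testBit_shiftRight,
    Nat.testBit_two_pow_sub_one]
  by_cases h1 : s ≤ r
  · have e3 : s + (r - s) = r := by omega
    have e4 : decide (r ≥ s) = true := decide_eq_true h1
    rw [e3, e4, Bool.true_and, Bool.true_and]
    by_cases h2 : r - s < W - s
    · rw [decide_eq_true h2, Bool.and_true]
    · rw [decide_eq_false h2, Bool.and_false]
      symm
      apply Nat.testBit_lt_two_pow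
      exact lt_of_lt_of_le hy (Nat.pow_le_pow_right (by norm_num) (by omega))
  · have e4 : decide (r ≥ s) = false := decide_eq_false h1
    rw [e4, Bool.false_and, Bool.false_and, Bool.and_false]

/-! ### Entries -/

/-- Entry of a list. -/
def nthG {α : Type} (d : α) (l : List α) : ℕ → α :=
  @List.rec α (fun _ => ℕ → α) (fun _ => d) (fun a _ ih n => @Nat.rec (fun _ => α) a (fun k _ => ih k) n) l

theorem nthG_eq {α : Type} (d : α) (l : List α) : ∀ n, nthG d l n = l.getD n d := by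
  induction l with
  | nil => intro n; rfl
  | cons a l ih =>
    intro n
    cases n with
    | zero => rfl
    | succ n => exact ih n

/-- The entry of a pattern. -/
def entG (tab p : ℕ) : ℕ := Nat.mod (Nat.shiftRight tab (Nat.mul 128 p)) (Nat.pow 2 128)

/-- A column of the entry. -/
def colG (e k : ℕ) : ℕ := Nat.mod (Nat.shiftRight e (Nat.add 18 (Nat.mul 10 k))) 1024

/-- The constant of the entry. -/
def conG (e : ℕ) : ℕ := Nat.mod (Nat.shiftRight e 8) 1024

/-- The image of `x` under the affine map of the entry. -/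
def xrG (e x m : ℕ) : ℕ :=
  @Nat.rec (fun _ => ℕ) (conG e) (fun k ih => @Bool.rec (fun _ => ℕ) ih (Nat.xor ih (colG e k))
    (Nat.beq (Nat.mod (Nat.div x (Nat.pow 2 k)) 2) 1)) m

theorem xrG_eq (e x m : ℕ) : xrG e x m = conG e ^^^ lx m (colG e) x.testBit := by
  induction m with
  | zero => rw [lx, Nat.xor_zero]; rfl
  | succ m ih =>
    have e1 : xrG e x (m + 1) = @Bool.rec (fun _ => ℕ) (xrG e x m)
      (Nat.xor (xrG e x m) (colG e m)) (Nat.beq (Nat.mod (Nat.div x (Nat.pow 2 m)) 2) 1) := rfl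
    rw [e1, beq_mod_two, lx, ih]
    cases h : x.testBit m
    · rw [if_neg (by simp), Nat.xor_zero]
    · rw [if_pos rfl, ← Nat.xor_assoc]
      rfl

/-- The sum of the constant and of the columns for the first `m` bits. -/
theorem xrG_lt (e x m : ℕ) : xrG e x m < 1024 := by
  rw [xrG_eq]
  have h1 : conG e < 2 ^ 10 := Nat.mod_lt _ (by norm_num)
  have h2 : lx m (colG e) x.testBit < 2 ^ 10 := lx_lt m 10 _ _ fun k _ => Nat.mod_lt _ (by norm_num)
  exact Nat.xor_lt_two_pow h1 h2

theorem lf8 (m : ℕ) (b : ℕ → Bool) (h0 : m.testBit 0 = false) :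
    lf 8 m b = ((xo 4 fun k => b k && m.testBit (k + 1)) ^^
      (xo 4 fun k => b (4 + k) && m.testBit (k + 5))) := by
  have e : ∀ k, 4 + k + 1 = k + 5 := fun k => by ring
  rw [lf_eq_xo 8 m b h0, show (8 : ℕ) = 4 + 4 from rfl, xo_add]
  simp only [e]

/-- The affine map on a vector with low bits `x0` and high bits `c`. -/
theorem split_map (e : ℕ) (h : ∀ k < 4, colG e (6 + k) % 64 = 0) (x0 : ℕ) (hx : x0 < 64)
    (c : ℕ → Bool) :
    conG e ^^^ lx 10 (colG e) (x0 + 64 * idx 4 c).testBit =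
      xrG e x0 6 % 64 + 64 * idx 4 (fun r => (xrG e x0 6 / 64).testBit r ^^
        xo 4 fun k => c k && (colG e (6 + k)).testBit (6 + r)) := by
  have hX : idx 4 c < 2 ^ 4 := idx_lt 4 c
  have hlow : ∀ r < 6, (x0 + 64 * idx 4 c).testBit r = x0.testBit r := by
    intro r hr
    have e1 : x0 = (x0 + 64 * idx 4 c) % 2 ^ 6 := by
      rw [show (2 : ℕ) ^ 6 = 64 from rfl]
      omega
    conv_rhs => rw [e1]
    rw [Nat.testBit_mod_two_pow]
    simp [hr]
  have hhigh : ∀ k, (x0 + 64 * idx 4 c).testBit (6 + k) = (idx 4 c).testBit k := by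
    intro k
    have e1 : (x0 + 64 * idx 4 c) / 2 ^ 6 = idx 4 c := by
      rw [show (2 : ℕ) ^ 6 = 64 from rfl]
      omega
    rw [add_comm 6 k, ← Nat.testBit_div_two_pow, e1]
  have h1 : conG e ^^^ lx 10 (colG e) (x0 + 64 * idx 4 c).testBit =
      xrG e x0 6 ^^^ lx 4 (fun k => colG e (6 + k)) c := by
    rw [xrG_eq, Nat.xor_assoc]
    congr 1
    rw [show (10 : ℕ) = 6 + 4 from rfl, lx_add]
    congr 1
    · exact lx_congr _ _ _ _ _ hlow (fun _ _ => rfl)
    · apply lx_congr
      · intro k hk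
        rw [hhigh, testBit_idx]
        simp [hk]
      · intro k _
        rfl
  rw [h1]
  set z := xrG e x0 6 with hz
  have hz2 : z / 64 < 2 ^ 4 := by
    have := xrG_lt e x0 6
    rw [← hz] at this
    rw [show (2 : ℕ) ^ 4 = 16 from rfl]
    omega
  have e3 : ∀ m : ℕ, (z % 64 + 64 * m) % 2 ^ 6 = z % 2 ^ 6 ∧ (z % 64 + 64 * m) / 2 ^ 6 = m := by
    intro m
    rw [show (2 : ℕ) ^ 6 = 64 from rfl]
    omega
  apply Nat.eq_of_testBit_eq
  intro r
  rw [Nat.testBit_xor, testBit_lx]
  by_cases hr : r < 6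
  · have e4 : (z % 64 + 64 * idx 4 (fun r => (z / 64).testBit r ^^
        xo 4 fun k => c k && (colG e (6 + k)).testBit (6 + r))).testBit r = z.testBit r := by
      have e5 := (e3 (idx 4 (fun r => (z / 64).testBit r ^^
        xo 4 fun k => c k && (colG e (6 + k)).testBit (6 + r)))).1
      have e6 : ∀ m : ℕ, (m % 2 ^ 6).testBit r = m.testBit r := by
        intro m
        rw [Nat.testBit_mod_two_pow]
        simp [hr]
      rw [← e6, e5, e6]
    rw [e4]
    have e7 : (xo 4 fun k => c k && (colG e (6 + k)).testBit r) = false := by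
      rw [← xo_false 4]
      apply xo_congr
      intro k hk
      have e8 : (colG e (6 + k)).testBit r = ((colG e (6 + k)) % 2 ^ 6).testBit r := by
        rw [Nat.testBit_mod_two_pow]
        simp [hr]
      rw [e8, show (2 : ℕ) ^ 6 = 64 from rfl, h k hk, Nat.zero_testBit, Bool.and_false]
    rw [e7, Bool.xor_false]
  · obtain ⟨s, rfl⟩ : ∃ s, r = 6 + s := ⟨r - 6, by omega⟩
    have e4 : ∀ m : ℕ, m.testBit (6 + s) = (m / 2 ^ 6).testBit s := by
      intro m
      rw [add_comm 6 s, Nat.testBit_div_two_pow]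
    rw [e4 (z % 64 + 64 * _), (e3 _).2, testBit_idx]
    have e5 : z.testBit (6 + s) = (z / 64).testBit s := e4 z
    rw [e5]
    by_cases hs : s < 4
    · rw [decide_eq_true hs, Bool.true_and]
    · rw [decide_eq_false hs, Bool.false_and]
      have e6 : (z / 64).testBit s = false := by
        apply Nat.testBit_lt_two_pow
        exact lt_of_lt_of_le hz2 (Nat.pow_le_pow_right (by norm_num) (by omega))
      have e7 : (xo 4 fun k => c k && (colG e (6 + k)).testBit (6 + s)) = false := by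
        rw [← xo_false 4]
        apply xo_congr
        intro k _
        have e8 : (colG e (6 + k)).testBit (6 + s) = false := by
          apply Nat.testBit_lt_two_pow
          have : colG e (6 + k) < 1024 := Nat.mod_lt _ (by norm_num)
          exact lt_of_lt_of_le this (by
            rw [show (1024 : ℕ) = 2 ^ 10 from rfl]
            exact Nat.pow_le_pow_right (by norm_num) (by omega))
        rw [e8, Bool.and_false]
      rw [e6, e7, Bool.xor_false]

/-! ### Loops -/

/-- A check of all rows of a group, with slots starting at `i`. -/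
def allR (chk : ℕ → ℕ → Bool) (l : List ℕ) : ℕ → Bool :=
  @List.rec ℕ (fun _ => ℕ → Bool) (fun _ => true)
    (fun r _ ih i => @Bool.rec (fun _ => Bool) false (ih (Nat.succ i)) (chk i r)) l

theorem bool_rec_and (a b : Bool) : @Bool.rec (fun _ => Bool) false b a = (a && b) := by
  cases a <;> rfl

theorem allR_spec (chk : ℕ → ℕ → Bool) (l : List ℕ) : ∀ i, allR chk l i = true →
    ∀ k < l.length, chk (i + k) (l.getD k 0) = true := by
  induction l with
  | nil => intro i _ k hk; exact absurd hk (by simp)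
  | cons r l ih =>
    intro i h k hk
    have e1 : allR chk (r :: l) i = @Bool.rec (fun _ => Bool) false (allR chk l (Nat.succ i))
      (chk i r) := rfl
    rw [e1, bool_rec_and, Bool.and_eq_true] at h
    cases k with
    | zero => exact h.1
    | succ k =>
      have h2 := ih _ h.2 k (by simpa using hk)
      have e2 : i + (k + 1) = Nat.succ i + k := by rw [Nat.succ_eq_add_one]; ring
      rw [e2]
      exact h2

/-- A sum over the rows of a group. -/
def sR (f : ℕ → ℕ → ℕ) (l : List ℕ) : ℕ → ℕ → ℕ :=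
  @List.rec ℕ (fun _ => ℕ → ℕ → ℕ) (fun _ a => a)
    (fun r _ ih i a => ih (Nat.succ i) (Nat.add a (f i r))) l

theorem sR_eq (f : ℕ → ℕ → ℕ) (l : List ℕ) : ∀ i a, sR f l i a =
    a + ∑ k ∈ range l.length, f (i + k) (l.getD k 0) := by
  induction l with
  | nil => intro i a; simp [sR]
  | cons r l ih =>
    intro i a
    have e1 : sR f (r :: l) i a = sR f l (Nat.succ i) (Nat.add a (f i r)) := rfl
    rw [e1, ih, List.length_cons, Finset.sum_range_succ']
    have e2 : ∀ k, f (i + (k + 1)) ((r :: l).getD (k + 1) 0) = f (Nat.succ i + k) (l.getD k 0) := by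
      intro k
      have : i + (k + 1) = Nat.succ i + k := by rw [Nat.succ_eq_add_one]; ring
      rw [this]
      rfl
    simp_rw [e2]
    have e3 : Nat.add a (f i r) = a + f i r := rfl
    have e4 : f (i + 0) ((r :: l).getD 0 0) = f i r := rfl
    rw [e3, e4]
    ring

/-! ### Sums of shifted lanes -/

theorem Ln_sum_shl {W : ℕ} (a : ℕ → ℕ) (ha : ∀ i, a i < 2 ^ W) (hW : 0 < W) (N : ℕ) :
    (∑ i ∈ range N, (a i) <<< (W * i)) < 2 ^ (W * N) ∧
    ∀ k, Ln W (∑ i ∈ range N, (a i) <<< (W * i)) k = if k < N then a k else 0 := by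
  induction N with
  | zero =>
    refine ⟨?_, fun k => ?_⟩
    · rw [Finset.sum_range_zero]
      exact Nat.two_pow_pos _
    · rw [Finset.sum_range_zero, Ln_zero_left, if_neg (by omega)]
  | succ N ih =>
    obtain ⟨h1, h2⟩ := ih
    have h3 : ∀ k, Ln W (∑ i ∈ range (N + 1), (a i) <<< (W * i)) k = if k < N + 1 then a k else 0 := by
      intro k
      rw [Finset.sum_range_succ, Ln_cat _ _ _ _ _ h1, h2, Ln_small _ _ (ha N)]
      by_cases h4 : k < N
      · rw [if_pos h4, if_pos h4, if_pos (by omega)]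
      · rw [if_neg h4]
        by_cases h5 : k = N
        · rw [if_pos (by omega), if_pos (by omega), h5]
        · rw [if_neg (by omega), if_neg (by omega)]
    refine ⟨?_, h3⟩
    apply lt_of_Ln_eq_zero _ _ _ hW
    intro i hi
    rw [h3, if_neg (by omega)]

/-- A check of all numbers below `n`. -/
def allN (chk : ℕ → Bool) (n : ℕ) : Bool :=
  @Nat.rec (fun _ => Bool) true (fun k ih => @Bool.rec (fun _ => Bool) false ih (chk k)) n

theorem allN_spec (chk : ℕ → Bool) (n : ℕ) (h : allN chk n = true) : ∀ k < n, chk k = true := by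
  induction n with
  | zero => intro k hk; omega
  | succ n ih =>
    have e1 : allN chk (n + 1) = @Bool.rec (fun _ => Bool) false (allN chk n) (chk n) := rfl
    rw [e1, bool_rec_and, Bool.and_eq_true] at h
    intro k hk
    rcases Nat.lt_succ_iff_lt_or_eq.mp hk with h1 | h1
    · exact ih h.2 k h1
    · rw [h1]; exact h.1

/-- A bit. -/
def bG (S i : ℕ) : Bool := Nat.beq (Nat.mod (Nat.shiftRight S i) 2) 1

theorem bG_eq (S i : ℕ) : bG S i = S.testBit i := by
  have e1 : bG S i = Nat.beq (Nat.mod (Nat.shiftRight S i) 2) 1 := rfl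
  have e2 : Nat.mod (Nat.shiftRight S i) 2 = (S >>> i) % 2 := rfl
  rw [e1, e2, Nat.shiftRight_eq_div_pow, ← Nat.toNat_testBit]
  cases S.testBit i <;> rfl

/-- The union of the bits given by the lanes. -/
def orG (P n : ℕ) : ℕ := @Nat.rec (fun _ => ℕ) 0
  (fun k ih => Nat.lor ih (Nat.shiftLeft 1 (lnG 16 P k))) n

theorem orG_bit (P n r : ℕ) : (orG P n).testBit r = true ↔ ∃ i < n, Ln 16 P i = r := by
  induction n with
  | zero =>
    have e1 : orG P 0 = 0 := rfl
    rw [e1, Nat.zero_testBit]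
    simp
  | succ n ih =>
    have e1 : orG P (n + 1) = orG P n ||| (1 <<< lnG 16 P n) := rfl
    rw [e1, Nat.testBit_or, Bool.or_eq_true, ih, lnG_eq, Nat.one_shiftLeft, Nat.testBit_two_pow,
      decide_eq_true_eq]
    constructor
    · rintro (⟨i, hi, h1⟩ | h1)
      · exact ⟨i, by omega, h1⟩
      · exact ⟨n, by omega, h1⟩
    · rintro ⟨i, hi, h1⟩
      rcases Nat.lt_succ_iff_lt_or_eq.mp hi with h2 | h2
      · exact Or.inl ⟨i, h2, h1⟩
      · right
        rw [← h2]
        exact h1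

theorem bool_rec_iff (a b : Bool) : @Bool.rec (fun _ => Bool)
    (@Bool.rec (fun _ => Bool) true false b) b a = true ↔ a = b := by
  cases a <;> cases b <;> decide

theorem idx_split (m n : ℕ) (b : ℕ → Bool) :
    idx (m + n) b = idx m b + 2 ^ m * idx n fun r => b (m + r) := by
  induction n with
  | zero => rw [Nat.add_zero, idx, mul_zero, add_zero]
  | succ n ih =>
    have e : m + (n + 1) = (m + n) + 1 := by ring
    rw [e, idx, ih, idx, pow_add]
    ring

/-! ### Concatenation of a power of two of arrays -/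

/-- The arrays `f X, …, f (X + 2 ^ k - 1)` one after the other. -/
def ctG (W n : ℕ) (f : ℕ → ℕ) (k : ℕ) : ℕ → ℕ :=
  @Nat.rec (fun _ => ℕ → ℕ) f
    (fun k ih X => Nat.add (ih X) (Nat.shiftLeft (ih (Nat.add X (Nat.pow 2 k)))
      (Nat.mul W (Nat.pow 2 (Nat.add n k))))) k

theorem ctG_ar {W n : ℕ} (hW : 0 < W) {f : ℕ → ℕ} {g : ℕ → (ℕ → Bool) → ℕ} (N : ℕ)
    (hf : ∀ X < N, Ar W n (f X) (g X)) (k : ℕ) : ∀ X, X + 2 ^ k ≤ N →
    Ar W (n + k) (ctG W n f k X) fun b => g (X + idx k fun r => b (n + r)) b := by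
  induction k with
  | zero =>
    intro X hX
    refine (hf X (by rw [pow_zero] at hX; omega)).congr fun b => ?_
    rw [idx, Nat.add_zero]
  | succ k ih =>
    intro X hX
    have e2 : X + 2 ^ k + 2 ^ k ≤ N := by
      have : X + 2 ^ k + 2 ^ k = X + 2 ^ (k + 1) := by rw [pow_succ]; ring
      rw [this]
      exact hX
    have h1 := ih X (le_trans (Nat.le_add_right _ _) e2)
    have h2 := ih (X + 2 ^ k) e2
    have h3 := h1.cat h2 hW
    refine h3.congr fun b => ?_
    rw [idx]
    cases b (n + k)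
    · rw [if_neg (by simp), Bool.toNat_false, mul_zero, add_zero]
    · rw [if_pos rfl, Bool.toNat_true, mul_one]
      congr 1
      omega

/-! ### A part of an array -/

/-- The part `y` of an array, of `2 ^ m` lanes. -/
def slG (W m A y : ℕ) : ℕ :=
  Nat.mod (Nat.shiftRight A (Nat.mul (Nat.mul W (Nat.pow 2 m)) y))
    (Nat.pow 2 (Nat.mul W (Nat.pow 2 m)))

theorem slG_ar {W m n A : ℕ} {f : (ℕ → Bool) → ℕ} (hW : 0 < W) (hA : Ar W (m + n) A f) (y : ℕ)
    (hy : y < 2 ^ n) :
    Ar W m (slG W m A y) fun b => f fun r => if r < m then b r else y.testBit (r - m) := by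
  have e1 : slG W m A y = (A >>> (W * (2 ^ m * y))) % 2 ^ (W * 2 ^ m) := by
    have : slG W m A y = (A >>> (W * 2 ^ m * y)) % 2 ^ (W * 2 ^ m) := rfl
    rw [this, mul_assoc]
  refine ⟨?_, fun b => ?_⟩
  · rw [e1]
    exact Nat.mod_lt _ (Nat.two_pow_pos _)
  · rw [e1, Ln_mod, if_pos (idx_lt m b), Ln_shr, ← hA.get, idx_split]
    congr 1
    congr 1
    · apply idx_congr
      intro r hr
      rw [if_pos hr]
    · congr 1
      have h2 : idx n (fun r => if m + r < m then b (m + r) else y.testBit (m + r - m)) =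
          idx n y.testBit := by
        apply idx_congr
        intro r _
        rw [if_neg (by omega), Nat.add_sub_cancel_left]
      rw [h2, idx_testBit n y hy]

/-- The exchanges of bits for the chunks. -/
def pm14 : List (ℕ × ℕ × ℕ) := [(1, 0, 8), (1, 1, 9), (1, 2, 10), (1, 3, 11), (1, 4, 12),
  (1, 5, 13), (1, 4, 6), (1, 5, 7), (1, 0, 6), (1, 1, 7), (1, 0, 2), (1, 1, 3)]

/-- The images of the bits. -/
def pmL : List ℕ := [8, 9, 10, 11, 12, 13, 4, 5, 6, 7, 0, 1, 2, 3]

theorem pm14_ok : okR pm14 14 = true ∧ ndG pm14 14 = 14 ∧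
    ∀ r < 14, syG pm14 14 r = 2 ^ (pmL.getD r 0 + 1) ∧ pmL.getD r 0 < 14 := by decide +kernel

theorem pm14_se (b : ℕ → Bool) (r : ℕ) (hr : r < 14) : seG pm14 14 b r = b (pmL.getD r 0) := by
  obtain ⟨h1, h2, h3⟩ := pm14_ok
  rw [seG_eq 14 b pm14 14 h1 (by rw [h2]) r hr, (h3 r hr).1, lf_two_pow]
  have h4 := (h3 r hr).2
  rw [decide_eq_true h4, Bool.true_and]

theorem pmL_10 : ∀ r < 4, pmL.getD (10 + r) 0 = r := by decide

theorem pmL_0 : ∀ r < 6, pmL.getD r 0 = 8 + r := by decide

theorem pmL_6 : ∀ r < 4, pmL.getD (6 + r) 0 = 4 + r := by decide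

end Pool.Agent.Lib.MP_afdd4d_co.K8
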