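import Pool.Agent.Lib.MP_afdd4d_co.K8.View2
import Pool.Agent.Lib.MP_afdd4d_co.K8.F6Con

/-!
# Programs with stored masks

An instruction on the ten index bits exchanges two bits or adds an affine form to a bit.  It contains
the mask and the distance of the exchange of lanes.
-/

namespace Pool.Agent.Lib.MP_afdd4d_co.K8

open Finset

/-- Bitwise conjunction of arrays. -/
theorem ar_andP {W n A B : ℕ} {f g : (ℕ → Bool) → ℕ} (hA : Ar W n A f) (hB : Ar W n B g) :
    Ar W n (A &&& B) fun b => f b &&& g b :=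
  ⟨lt_of_le_of_lt Nat.and_le_left hA.lt, fun b => by rw [Ln_and, hA.get, hB.get]⟩

/-- The array of the values of an affine form. -/
def lfP (W m : ℕ) : ℕ → ℕ := @Nat.rec (fun _ => ℕ) (Nat.mod m 2)
  (fun n ih => Nat.add ih (Nat.shiftLeft (@Bool.rec (fun _ => ℕ) ih
    (Nat.sub (csG W 1 n) ih) (bG m (Nat.succ n))) (Nat.mul W (Nat.pow 2 n))))

theorem lfP_ar {W : ℕ} (hW : 0 < W) (m n : ℕ) :
    Ar W n (lfP W m n) fun b => (lf n m b).toNat := by
  have h1W : 1 < 2 ^ W := Nat.one_lt_two_pow (by omega)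
  induction n with
  | zero =>
    have h : lfP W m 0 = (m.testBit 0).toNat := by
      have e : lfP W m 0 = m % 2 := rfl
      rw [e, Nat.toNat_testBit, pow_zero, Nat.div_one]
    rw [h]
    refine (Ar.ofLt ?_).congr fun b => rfl
    cases m.testBit 0
    · rw [Bool.toNat_false]; omega
    · rw [Bool.toNat_true]; omega
  | succ n ih =>
    have h : lfP W m (n + 1) = lfP W m n + (@Bool.rec (fun _ => ℕ) (lfP W m n)
      (Nat.sub (csG W 1 n) (lfP W m n)) (bG m (n + 1))) <<< (W * 2 ^ n) := rfl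
    rw [h, bG_eq]
    have h2 := (csG_ar hW h1W n).sub ih hW (fun b => by cases lf n m b <;> decide)
    cases hb : m.testBit (n + 1)
    · refine (ih.cat ih hW).congr fun b => ?_
      rw [lf, hb, Bool.false_and, Bool.xor_false]
      split_ifs <;> rfl
    · refine (ih.cat h2 hW).congr fun b => ?_
      rw [lf, hb, Bool.true_and]
      cases b n <;> cases lf n m b <;> rfl

/-- The mask of the addition of a form to bit `q`. -/
def mcP (W m q : ℕ) : ℕ :=
  Nat.land (Nat.mul (Nat.sub (Nat.pow 2 W) 1) (lfP W m 10)) (mzG W q 10)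

theorem mcP_ar {W : ℕ} (hW : 0 < W) (m q : ℕ) (hq : q < 10) :
    Ar W 10 (mcP W m q) fun b => if lf 10 m b = true ∧ b q = false then 2 ^ W - 1 else 0 := by
  have h1 := (lfP_ar hW m 10).smul (2 ^ W - 1) hW (fun b => by
    have := Nat.two_pow_pos W
    cases lf 10 m b
    · rw [Bool.toNat_false]; omega
    · rw [Bool.toNat_true]; omega)
  refine (ar_andP h1 (mzG_ar hW q 10)).congr fun b => ?_
  by_cases h3 : lf 10 m b = true
  · by_cases h4 : b q = false
    · rw [if_pos (fun _ => h4), if_pos ⟨h3, h4⟩, h3, Bool.toNat_true, mul_one, Nat.and_self]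
    · rw [if_neg (fun h => h4 (h hq)), if_neg (fun h => h4 h.2), Nat.and_zero]
  · rw [Bool.not_eq_true] at h3
    rw [h3, Bool.toNat_false, mul_zero, Nat.zero_and, if_neg (fun h => Bool.noConfusion h.1)]

theorem idx_updP (b : ℕ → Bool) (q : ℕ) (hq : q < 10) (hb : b q = false) :
    idx 10 (upd b q true) = idx 10 b + 2 ^ q := by
  have h := idx_upd 10 q hq b true
  rw [hb, Bool.toNat_false, mul_zero, add_zero, Bool.toNat_true, mul_one] at h
  exact h

theorem lf_updP (m q : ℕ) (hm : m.testBit (q + 1) = false) (b : ℕ → Bool) (v : Bool) (N : ℕ) :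
    lf N m (upd b q v) = lf N m b := by
  induction N with
  | zero => rfl
  | succ N ih =>
    rw [lf, lf, ih]
    by_cases h : N = q
    · subst h
      rw [hm, Bool.false_and, Bool.false_and]
    · rw [upd, if_neg h]

/-- Addition of the form `m` to bit `q`. -/
theorem xcP_ar {W A : ℕ} {f : (ℕ → Bool) → ℕ} (hW : 0 < W) (hA : Ar W 10 A f) (m q : ℕ)
    (hm : m.testBit (q + 1) = false) (hq : q < 10) :
    Ar W 10 (xcG A (mcP W m q) (W * 2 ^ q)) fun b => f (upd b q (b q ^^ lf 10 m b)) := by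
  have key : ∀ b : ℕ → Bool, lf 10 m (upd b q (b q ^^ lf 10 m b)) = lf 10 m b :=
    fun b => lf_updP m q hm b _ 10
  refine xcG_ar (D := 2 ^ q) hW hA (fun b => lf 10 m b = true ∧ b q = false) (mcP_ar hW m q hq)
    (fun b => upd b q (b q ^^ lf 10 m b)) ?_ ?_ ?_ ?_ ?_
  · rintro b ⟨h1, h2⟩
    rw [h1, h2]
    exact idx_updP b q hq h2
  · rintro b ⟨h1, h2⟩ ⟨_, h3⟩
    rw [upd, if_pos rfl, h1, h2] at h3
    exact Bool.noConfusion h3
  · intro b
    rw [key]
    funext r
    unfold upd
    by_cases hr : r = q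
    · rw [if_pos hr, if_pos rfl, Bool.xor_assoc, Bool.xor_self, Bool.xor_false, hr]
    · rw [if_neg hr, if_neg hr]
  · intro b h1 h2
    have h3 : lf 10 m b = false := by
      by_contra hne
      rw [Bool.not_eq_false] at hne
      cases hbq : b q
      · exact h1 ⟨hne, hbq⟩
      · apply h2
        refine ⟨(key b).trans hne, ?_⟩
        rw [upd, if_pos rfl, hne, hbq]
        rfl
    apply idx_congr
    intro r _
    unfold upd
    by_cases hr : r = q
    · rw [if_pos hr, h3, Bool.xor_false, hr]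
    · rw [if_neg hr]
  · intro b b' h
    have h5 := idx_inj 10 _ _ h
    have h8 : lf 10 m b = lf 10 m b' := lf_congr 10 m b b' h5
    apply idx_congr
    intro r hr
    unfold upd
    by_cases h6 : r = q
    · rw [if_pos h6, if_pos h6, h5 q hq, h8]
    · rw [if_neg h6, if_neg h6, h5 r hr]

/-! ### Instructions -/

/-- An instruction: exchange of the bits `m < q` for `k = 0`, otherwise addition of the form `m` to
bit `q`, with the mask `M` and the distance `d`. -/
structure PI where
  k : ℕ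
  m : ℕ
  q : ℕ
  M : ℕ
  d : ℕ

/-- The mask of an instruction. -/
def maP (W k m q : ℕ) : ℕ := @Bool.rec (fun _ => ℕ) (mcP W m q) (mkG W m q 10) (Nat.beq k 0)

/-- The distance of an instruction. -/
def daP (W k m q : ℕ) : ℕ := @Bool.rec (fun _ => ℕ) (Nat.mul W (Nat.pow 2 q))
  (Nat.mul W (Nat.sub (Nat.pow 2 q) (Nat.pow 2 m))) (Nat.beq k 0)

/-- The check of an instruction. -/
def okI (W : ℕ) (I : PI) : Bool :=
  Nat.beq I.M (maP W I.k I.m I.q) && (Nat.beq I.d (daP W I.k I.m I.q) && (Nat.blt I.q 10 &&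
    @Bool.rec (fun _ => Bool) (!(bG I.m (Nat.succ I.q))) (Nat.blt I.m I.q) (Nat.beq I.k 0)))

/-- The effect of an instruction on the bits of the index. -/
def seP (I : PI) (b : ℕ → Bool) : ℕ → Bool :=
  if I.k = 0 then b ∘ Equiv.swap I.m I.q else upd b I.q (b I.q ^^ lf 10 I.m b)

/-- One instruction. -/
theorem okI_ar {W : ℕ} (hW : 0 < W) {I : PI} (h : okI W I = true) {A : ℕ} {f : (ℕ → Bool) → ℕ}
    (hA : Ar W 10 A f) : Ar W 10 (xcG A I.M I.d) fun b => f (seP I b) := by
  unfold okI at h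
  rw [Bool.and_eq_true, Bool.and_eq_true, Bool.and_eq_true] at h
  obtain ⟨h1, h2, h3, h4⟩ := h
  rw [Nat.eq_of_beq_eq_true h1, Nat.eq_of_beq_eq_true h2]
  have hq : I.q < 10 := (Nat.blt_eq).mp h3
  unfold maP daP seP
  by_cases hk : I.k = 0
  · have e : Nat.beq I.k 0 = true := by rw [hk]; rfl
    rw [e] at h4 ⊢
    simp only [if_pos hk]
    exact swG_ar hW hA ((Nat.blt_eq).mp h4) hq
  · have e : Nat.beq I.k 0 = false := by
      rw [Bool.eq_false_iff]
      intro h5
      exact hk (Nat.eq_of_beq_eq_true h5)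
    rw [e] at h4 ⊢
    simp only [if_neg hk]
    have h5 : (!(bG I.m (Nat.succ I.q))) = true := h4
    rw [bG_eq, Bool.not_eq_true'] at h5
    exact xcP_ar hW hA I.m I.q h5 hq

/-- A program. -/
def rpGp (l : List PI) : ℕ → ℕ :=
  @List.rec PI (fun _ => ℕ → ℕ) (fun A => A) (fun I _ ih A => ih (xcG A I.M I.d)) l

/-- The check of the instructions. -/
def okL (W : ℕ) (l : List PI) : Bool :=
  @List.rec PI (fun _ => Bool) true (fun I _ ih => @Bool.rec (fun _ => Bool) false ih (okI W I)) l

/-- The effect of a program. -/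
def seL : List PI → (ℕ → Bool) → ℕ → Bool
  | [], b => b
  | I :: l, b => seP I (seL l b)

theorem okL_cons {W : ℕ} {I : PI} {l : List PI} (h : okL W (I :: l) = true) :
    okI W I = true ∧ okL W l = true := by
  have e : okL W (I :: l) = @Bool.rec (fun _ => Bool) false (okL W l) (okI W I) := rfl
  rw [e, bool_rec_and, Bool.and_eq_true] at h
  exact h

theorem rpGp_ar {W : ℕ} (hW : 0 < W) (l : List PI) : ∀ (A : ℕ) (f : (ℕ → Bool) → ℕ),
    okL W l = true → Ar W 10 A f → Ar W 10 (rpGp l A) fun b => f (seL l b) := by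
  induction l with
  | nil => intro A f _ hA; exact hA
  | cons I l ih =>
    intro A f h hA
    obtain ⟨h1, h2⟩ := okL_cons h
    exact ih _ _ h2 (okI_ar hW h1 hA)

/-! ### Forms -/

/-- The sum of the forms `g p` over the bits of `m`. -/
def fxP (g : ℕ → ℕ) (m : ℕ) : ℕ → ℕ := @Nat.rec (fun _ => ℕ) (Nat.mod m 2)
  (fun p ih => @Bool.rec (fun _ => ℕ) ih (Nat.xor ih (g p)) (bG m (Nat.succ p)))

theorem lf_fxP (N : ℕ) (g : ℕ → ℕ) (m : ℕ) (b : ℕ → Bool) : ∀ n,
    lf n m (fun i => lf N (g i) b) = lf N (fxP g m n) b := by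
  intro n
  induction n with
  | zero =>
    have e : fxP g m 0 = m % 2 := rfl
    rw [e, lf, Nat.testBit_zero]
    rcases Nat.mod_two_eq_zero_or_one m with h | h
    · rw [h, lf_zero]; rfl
    · rw [h, lf_one]; rfl
  | succ n ih =>
    have e : fxP g m (n + 1) = @Bool.rec (fun _ => ℕ) (fxP g m n)
      (Nat.xor (fxP g m n) (g n)) (bG m (n + 1)) := rfl
    rw [e, lf, ih, bG_eq]
    cases h : m.testBit (n + 1)
    · rw [Bool.false_and, Bool.xor_false]
    · rw [Bool.true_and]
      have e2 : Nat.xor (fxP g m n) (g n) = fxP g m n ^^^ g n := rfl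
      rw [e2, lf_xor]

/-- The form of bit `r` after a program. -/
def syP (l : List PI) : ℕ → ℕ :=
  @List.rec PI (fun _ => ℕ → ℕ) (fun r => Nat.pow 2 (Nat.succ r))
    (fun I _ ih r => @Bool.rec (fun _ => ℕ)
      (@Bool.rec (fun _ => ℕ) (ih r) (Nat.xor (ih r) (fxP ih I.m 10)) (Nat.beq r I.q))
      (@Bool.rec (fun _ => ℕ) (@Bool.rec (fun _ => ℕ) (ih r) (ih I.m) (Nat.beq r I.q)) (ih I.q)
        (Nat.beq r I.m)) (Nat.beq I.k 0)) l

theorem seL_eq (W : ℕ) (b : ℕ → Bool) (l : List PI) : okL W l = true → ∀ r < 10,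
    seL l b r = lf 10 (syP l r) b := by
  induction l with
  | nil =>
    intro _ r hr
    have e : syP [] r = 2 ^ (r + 1) := rfl
    rw [e, lf_two_pow, decide_eq_true hr, Bool.true_and]
    rfl
  | cons I l ih =>
    intro h r hr
    obtain ⟨h1, h2⟩ := okL_cons h
    have ih' := ih h2
    have e : syP (I :: l) r = @Bool.rec (fun _ => ℕ)
      (@Bool.rec (fun _ => ℕ) (syP l r) (Nat.xor (syP l r) (fxP (syP l) I.m 10)) (Nat.beq r I.q))
      (@Bool.rec (fun _ => ℕ) (@Bool.rec (fun _ => ℕ) (syP l r) (syP l I.m) (Nat.beq r I.q))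
        (syP l I.q) (Nat.beq r I.m)) (Nat.beq I.k 0) := rfl
    unfold okI at h1
    rw [Bool.and_eq_true, Bool.and_eq_true, Bool.and_eq_true] at h1
    obtain ⟨_, _, h3, h4⟩ := h1
    have hq : I.q < 10 := (Nat.blt_eq).mp h3
    rw [e, seL, seP]
    by_cases hk : I.k = 0
    · have e1 : Nat.beq I.k 0 = true := by rw [hk]; rfl
      rw [e1] at h4 ⊢
      rw [if_pos hk, Function.comp_apply]
      have hm : I.m < 10 := lt_trans ((Nat.blt_eq).mp h4) hq
      by_cases hrm : r = I.m
      · rw [hrm, Equiv.swap_apply_left, Nat.beq_refl]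
        exact ih' _ hq
      · have e2 : Nat.beq r I.m = false := by
          rw [Bool.eq_false_iff]
          intro h5
          exact hrm (Nat.eq_of_beq_eq_true h5)
        rw [e2]
        by_cases hrq : r = I.q
        · rw [hrq, Equiv.swap_apply_right, Nat.beq_refl]
          exact ih' _ hm
        · have e3 : Nat.beq r I.q = false := by
            rw [Bool.eq_false_iff]
            intro h5
            exact hrq (Nat.eq_of_beq_eq_true h5)
          rw [Equiv.swap_apply_of_ne_of_ne hrm hrq, e3]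
          exact ih' _ hr
    · have e1 : Nat.beq I.k 0 = false := by
        rw [Bool.eq_false_iff]
        intro h5
        exact hk (Nat.eq_of_beq_eq_true h5)
      rw [e1, if_neg hk]
      unfold upd
      by_cases hrq : r = I.q
      · have e2 : Nat.beq r I.q = true := by rw [hrq]; exact Nat.beq_refl _
        rw [if_pos hrq, e2]
        have e3 : Nat.xor (syP l r) (fxP (syP l) I.m 10) = syP l r ^^^ fxP (syP l) I.m 10 := rfl
        change (seL l b I.q ^^ lf 10 I.m (seL l b)) = lf 10 (Nat.xor (syP l r) (fxP (syP l) I.m 10)) b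
        rw [e3, lf_xor, ← lf_fxP, ← hrq, ih' r hr]
        congr 1
        exact lf_congr 10 _ _ _ fun i hi => ih' i hi
      · have e2 : Nat.beq r I.q = false := by
          rw [Bool.eq_false_iff]
          intro h5
          exact hrq (Nat.eq_of_beq_eq_true h5)
        rw [if_neg hrq, e2]
        exact ih' r hr

end Pool.Agent.Lib.MP_afdd4d_co.K8
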