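import Pool.Agent.Lib.MP_afdd4d_co.K8.GamBit

/-!
# The sum of the terms of all pairs
-/

namespace Pool.Agent.Lib.MP_afdd4d_co.K8.Gm

open Finset

/-! ### The number of non-edges of a pattern -/

/-- The number of zero bits of a pattern. -/
def neL : List ℕ := [5, 4, 4, 3, 4, 3, 3, 2, 4, 3, 3, 2, 3, 2, 2, 1, 4, 3, 3, 2, 3, 2, 2, 1, 3, 2, 2,
  1, 2, 1, 1, 0]

theorem neL_aux : ∀ a b c d e : Bool, neL.getD (a.toNat + 2 * b.toNat + 4 * c.toNat + 8 * d.toNat +
    16 * e.toNat) 0 = (!a).toNat + (!b).toNat + (!c).toNat + (!d).toNat + (!e).toNat := by decide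

theorem neL_idx (z : ℕ → Bool) : neL.getD (idx 5 z) 0 = ∑ r ∈ range 5, (!z r).toNat := by
  have e1 : idx 5 z = (z 0).toNat + 2 * (z 1).toNat + 4 * (z 2).toNat + 8 * (z 3).toNat +
      16 * (z 4).toNat := by
    simp [idx]
  rw [e1, neL_aux]
  simp [Finset.sum_range_succ]

theorem neL_le : ∀ p < 32, neL.getD p 0 ≤ 5 := by decide

/-- The offsets of the patterns. -/
def ooG (OO a3 p : ℕ) : ℕ := Nat.sub OO (Nat.mul a3 (nthG 0 neL p))

theorem ooG_eq (OO a3 p : ℕ) : ooG OO a3 p = OO - a3 * neL.getD p 0 := by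
  unfold ooG
  rw [nthG_eq]
  rfl

section tup
variable {n : ℕ} (H : Finset (Finset (Fin n)))

theorem q5_data : (univ : Finset (Fin 5)).powersetCard 4 = (range 5).image (q6 5) ∧
    ∀ r < 5, ∀ r' < 5, q6 5 r = q6 5 r' → r = r' := by decide +kernel

theorem N8_pk (s : Fin 5 → Fin n) : N8 H s = neL.getD (pk H s) 0 := by
  unfold pk
  rw [neL_idx, N8, q5_data.1, Finset.sum_image fun a ha b hb hab =>
    q5_data.2 a (Finset.mem_range.mp ha) b (Finset.mem_range.mp hb) hab]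
  refine Finset.sum_congr rfl fun r _ => ?_
  unfold zb
  rw [Bool.not_not]

theorem pk_ne (h5 : ∀ T : Finset (Fin n), T.card = 5 → ∃ e ∈ T.powersetCard 4, e ∉ H)
    (s : Fin 5 → Fin n) (hs : Function.Injective s) : pk H s ≠ 31 := by
  intro h31
  have hT : (univ.image s).card = 5 := by
    rw [Finset.card_image_of_injective _ hs, Finset.card_univ, Fintype.card_fin]
  obtain ⟨e, he, heH⟩ := h5 _ hT
  rw [Finset.mem_powersetCard] at he
  obtain ⟨Q, _, hQe⟩ := Finset.subset_image_iff.mp he.1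
  have hQ4 : Q.card = 4 := by
    rw [← Finset.card_image_of_injective Q hs, hQe, he.2]
  have h1 : Q ∈ (univ : Finset (Fin 5)).powersetCard 4 := by
    rw [Finset.mem_powersetCard]
    exact ⟨Finset.subset_univ _, hQ4⟩
  rw [q5_data.1, Finset.mem_image] at h1
  obtain ⟨r, hr, h2⟩ := h1
  have hr5 := Finset.mem_range.mp hr
  have h3 : (pk H s).testBit r = zb H s Q := by
    unfold pk
    rw [testBit_idx, decide_eq_true hr5, Bool.true_and, h2]
  have h4 : zb H s Q = false := by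
    unfold zb E
    rw [hQe, decide_eq_true heH]
    rfl
  rw [h31, h4] at h3
  have h5 : ∀ r < 5, Nat.testBit 31 r = true := by decide
  rw [h5 r hr5] at h3
  exact Bool.noConfusion h3

end tup

/-! ### The kernel -/

theorem kk_symm (D : FD) (hsym : ∀ c d, c % 1024 = d % 1024 → D.g6 c d = D.g6 d c) {n : ℕ}
    (H : Finset (Finset (Fin n))) (s : Fin 5 → Fin n) (u w : Fin n) :
    D.kk H s u w = D.kk H s w u := by
  unfold FD.kk
  exact hsym _ _ (by rw [ck_mod, ck_mod])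

/-- The data of the tables. -/
structure GT where
  /-- the kernel -/
  D : TF
  /-- width of the lanes -/
  w : ℕ
  /-- offset -/
  OO : ℕ
  /-- a third of the scale -/
  a3 : ℕ
  /-- the tables: parity of the roots, the constants of the two vertices, the tree -/
  tb : List (ℕ × ℕ × ℕ × NT)

namespace GT
variable (T : GT)

/-- The offsets. -/
def oo (p : ℕ) : ℕ := ooG T.OO T.a3 p

/-- The entry of a list of tables. -/
def en (i : ℕ) : ℕ × ℕ × ℕ × NT := nthG (0, 0, 0, NT.a 0) T.tb i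

/-- The values of the table number `i`. -/
def TV (i : ℕ) (b : ℕ → Bool) : ℕ := T.D.ttv 0 T.oo (T.en i).1 (T.en i).2.1 (T.en i).2.2.1 b

/-- The conditions on the tables. -/
structure OK : Prop where
  hw : 0 < T.w
  inv : T.D.fd.InvK
  sym : ∀ c d, c % 1024 = d % 1024 → T.D.fd.g6 c d = T.D.fd.g6 d c
  rows : T.D.RowsOK
  num : 21 * (2 * T.D.B + T.OO) < 2 ^ T.w
  h5 : 5 * T.a3 ≤ T.OO
  tab : ∀ i < T.tb.length, Rep T.w 9 (T.en i).2.2.2 (T.TV i)

variable {T}

theorem tvN_le (h : T.OK) (p x y : ℕ) : T.D.tvN 0 T.oo p x y ≤ 2 * T.D.B + T.OO := by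
  unfold TF.tvN
  split_ifs
  · exact Nat.zero_le _
  · have h1 := TF.g6_le h.rows (p + 1024 * x) (p + 1024 * y)
    have h2 : T.oo p ≤ T.OO := by
      unfold oo
      rw [ooG_eq]
      exact Nat.sub_le _ _
    simp only [pow_zero, Nat.sub_self, Nat.add_zero, Nat.div_one]
    omega

theorem TV_le (h : T.OK) (i : ℕ) (b : ℕ → Bool) : T.TV i b ≤ 2 * T.D.B + T.OO := tvN_le h _ _ _

/-- The kernel with the offset and the number of non-edges. -/
def kap (T : GT) {n : ℕ} (H : Finset (Finset (Fin n))) (s : Fin 5 → Fin n) (u w : Fin n) : ℤ :=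
  (T.D.B : ℤ) + T.OO + T.D.fd.kk H s u w - T.a3 * (N8 H s : ℤ)

theorem kap_perm (h : T.OK) {n : ℕ} (H : Finset (Finset (Fin n))) (τ : Equiv.Perm (Fin 5))
    (s : Fin 5 → Fin n) (u w : Fin n) : T.kap H (s ∘ τ) u w = T.kap H s u w := by
  unfold kap
  rw [T.D.fd.kk_perm h.inv, N8_permP]

theorem kap_symm (h : T.OK) {n : ℕ} (H : Finset (Finset (Fin n)))
    (s : Fin 5 → Fin n) (u w : Fin n) : T.kap H s u w = T.kap H s w u := by
  unfold kap
  rw [kk_symm T.D.fd h.sym]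

theorem tvN_kap (h : T.OK) {n : ℕ} (H : Finset (Finset (Fin n)))
    (h5 : ∀ T : Finset (Fin n), T.card = 5 → ∃ e ∈ T.powersetCard 4, e ∉ H)
    (s : Fin 5 → Fin n) (hs : Function.Injective s) (u w : Fin n) :
    ((T.D.tvN 0 T.oo (pk H s) (idx 10 (xk H s u)) (idx 10 (xk H s w)) : ℕ) : ℤ) =
      T.kap H s u w := by
  unfold TF.tvN kap
  rw [if_neg (pk_ne H h5 s hs)]
  have h1 : T.D.fd.g6 (pk H s + 1024 * idx 10 (xk H s u)) (pk H s + 1024 * idx 10 (xk H s w)) =
      T.D.fd.kk H s u w := rfl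
  rw [h1]
  have h2 := T.D.fd.kk_abs T.D.B h.rows.bil H s u w
  rw [abs_le] at h2
  have h3 : T.oo (pk H s) = T.OO - T.a3 * N8 H s := by
    unfold oo
    rw [ooG_eq, N8_pk]
  have h4 : T.a3 * N8 H s ≤ T.OO := by
    have h6 : N8 H s ≤ 5 := by
      rw [N8_pk]
      exact neL_le _ (pk_lt H s)
    calc T.a3 * N8 H s ≤ T.a3 * 5 := Nat.mul_le_mul_left _ h6
      _ = 5 * T.a3 := Nat.mul_comm _ _
      _ ≤ T.OO := h.h5
  rw [h3]
  simp only [pow_zero, Nat.sub_self, Nat.add_zero, Nat.div_one]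
  rw [Nat.cast_add, Nat.cast_sub h4, Int.toNat_of_nonneg (by linarith)]
  push_cast
  ring

theorem PS_kap {n : ℕ} (H : Finset (Finset (Fin n))) (s : Fin 7 → Fin n) :
    PS (T.kap H) s = 42 * ((T.D.B : ℤ) + T.OO) + PS (T.D.fd.kk H) s - 6 * T.a3 * (N8 H s : ℤ) := by
  have h1 : ∑ x : Fin 7, ∑ y : Fin 6, ((N8 H (s ∘ x.succAbove ∘ y.succAbove) : ℕ) : ℤ) =
      6 * (N8 H s : ℤ) := by
    have h2 : ∀ x : Fin 7, ∑ y : Fin 6, ((N8 H (s ∘ x.succAbove ∘ y.succAbove) : ℕ) : ℤ) =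
        2 * (N8 H (s ∘ x.succAbove) : ℤ) := by
      intro x
      have h3 := DS_N8 (m := 5) (by norm_num) H (s ∘ x.succAbove)
      have h4 : ((DS (fun t : Fin 5 → Fin n => N8 H t) (s ∘ x.succAbove) : ℕ) : ℤ) =
          (((5 - 3) * N8 H (s ∘ x.succAbove) : ℕ) : ℤ) := congrArg Nat.cast h3
      unfold DS at h4
      rw [Nat.cast_sum] at h4
      push_cast at h4
      exact h4
    rw [Finset.sum_congr rfl fun x _ => h2 x, ← Finset.mul_sum]
    have h3 := DS_N8 (m := 6) (by norm_num) H s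
    have h4 : ((DS (fun t : Fin 6 → Fin n => N8 H t) s : ℕ) : ℤ) =
        (((6 - 3) * N8 H s : ℕ) : ℤ) := congrArg Nat.cast h3
    unfold DS at h4
    rw [Nat.cast_sum] at h4
    push_cast at h4
    have h5 : ∑ x : Fin 7, (N8 H (s ∘ x.succAbove) : ℤ) = 3 * (N8 H s : ℤ) := h4
    rw [h5]
    ring
  unfold PS kap
  have h2 : ∀ x : Fin 7, ∑ y : Fin 6, ((T.D.B : ℤ) + T.OO +
      T.D.fd.kk H (s ∘ x.succAbove ∘ y.succAbove) (s x) (s (x.succAbove y)) -
        T.a3 * (N8 H (s ∘ x.succAbove ∘ y.succAbove) : ℤ)) = 6 * ((T.D.B : ℤ) + T.OO) +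
      ∑ y : Fin 6, T.D.fd.kk H (s ∘ x.succAbove ∘ y.succAbove) (s x) (s (x.succAbove y)) -
      T.a3 * ∑ y : Fin 6, (N8 H (s ∘ x.succAbove ∘ y.succAbove) : ℤ) := by
    intro x
    rw [Finset.sum_sub_distrib, Finset.sum_add_distrib, Finset.sum_const, Finset.card_univ,
      Fintype.card_fin, nsmul_eq_mul, ← Finset.mul_sum]
    norm_num
  rw [Finset.sum_congr rfl fun x _ => h2 x, Finset.sum_sub_distrib, Finset.sum_add_distrib,
    Finset.sum_const, Finset.card_univ, Fintype.card_fin, nsmul_eq_mul, ← Finset.mul_sum, h1]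
  push_cast
  ring

/-! ### The sum of the terms of a frame -/

/-- A term: permutation, table, selection, program. -/
abbrev TI : Type := ℕ × ℕ × List ℕ × List (ℕ × ℕ × ℕ)

/-- The array of a term. -/
noncomputable def teG (T : GT) (τ : ℕ) (I : TI) : ℕ :=
  rvG T.w τ I.2.2.2 (Nat.add 7 (kpG I.2.2.1)) (asG T.w τ (T.en I.2.1).2.2.2 I.2.2.1)

/-- The array of a list of terms. -/
noncomputable def acG (T : GT) (τ : ℕ) (L : List TI) : ℕ :=
  @List.rec TI (fun _ => ℕ) 0 (fun I _ ih => Nat.add ih (T.teG τ I)) L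

/-- The bits of the index of the table of a term. -/
def bI (τ : ℕ) (I : TI) (b : ℕ → Bool) : ℕ → Bool :=
  sbF τ I.2.2.1 (seV τ I.2.2.2 (7 + kpG I.2.2.1) b)

/-- The lanes. -/
def acF (T : GT) (τ : ℕ) (L : List TI) (b : ℕ → Bool) : ℕ :=
  (L.map fun I => T.TV I.2.1 (bI τ I b)).sum

/-- The forms of the bits of the index of a tree. -/
def syB : List ℕ → (ℕ → ℕ) → ℕ → ℕ
  | [], F, r => F r
  | s :: S, F, r => if r = 7 + S.length then
      (if s = 0 then F (7 + kpG S) else 2 ^ (16 + (s - 1) + 1)) else syB S F r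

theorem syB_eq (e : ℕ) (b : ℕ → Bool) (b' : ℕ → Bool) (F : ℕ → ℕ) (S : List ℕ)
    (hS : S.all (fun s => decide (s < 20)) = true) :
    (∀ q < 7 + kpG S, b' q = lf 35 (F q) (xv e b)) →
    ∀ r < 7 + S.length, sbF e S b' r = lf 35 (syB S F r) (xv e b) := by
  induction S with
  | nil => intro h r hr; exact h r hr
  | cons s S ih =>
    intro h r hr
    rw [List.all_cons, Bool.and_eq_true, decide_eq_true_eq] at hS
    rw [sbF, syB]
    unfold upd
    by_cases h1 : r = 7 + S.length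
    · rw [if_pos h1, if_pos h1]
      by_cases h0 : s = 0
      · rw [if_pos h0, if_pos h0]
        refine h _ ?_
        rw [h0]
        exact Nat.lt_succ_self _
      · rw [if_neg h0, if_neg h0, lf_two_pow, decide_eq_true (show 16 + (s - 1) < 35 by omega),
          Bool.true_and, xv, if_neg (by omega), Nat.add_sub_cancel_left]
    · rw [if_neg h1, if_neg h1]
      refine ih hS.2 (fun q hq => h q ?_) r (by rw [List.length_cons] at hr; omega)
      rcases Nat.eq_zero_or_pos s with h2 | h2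
      · rw [h2]
        exact Nat.lt_succ_of_lt hq
      · obtain ⟨k, rfl⟩ : ∃ k, s = k + 1 := ⟨s - 1, by omega⟩
        exact hq

/-- The form of a bit of the index of the table of a term. -/
def fI (I : TI) (r : ℕ) : ℕ := syB I.2.2.1 (syV I.2.2.2 (7 + kpG I.2.2.1)) r

/-- The form that the bit is to have. -/
def gI (I : TI) (r : ℕ) : ℕ := zF (iq I.1 (jq.getD (ord.getD r 0) 0))

/-- The check of a term. -/
def okI (T : GT) (c : ℕ) (I : TI) : Bool :=
  okp I.1 && (okV I.2.2.2 (7 + kpG I.2.2.1) && (decide (ndV I.2.2.2 (7 + kpG I.2.2.1) = 16) &&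
    (decide (I.2.1 < T.tb.length) && (decide (I.2.2.1.length = 9) &&
    ((I.2.2.1.all fun s => decide (s < 20)) &&
    ((List.range 16).all (fun r => decide (fI I r = gI I r) && decide (gI I r < 2 ^ 21)) &&
    (decide ((T.en I.2.1).1 = cπ (cp I.1 c)) && (decide ((T.en I.2.1).2.1 = cα (cp I.1 c)) &&
      decide ((T.en I.2.1).2.2.1 = cβ (cp I.1 c))))))))))

structure OI (T : GT) (c : ℕ) (I : TI) : Prop where
  h1 : okp I.1 = true
  h2 : okV I.2.2.2 (7 + kpG I.2.2.1) = true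
  h3 : ndV I.2.2.2 (7 + kpG I.2.2.1) = 16
  h4 : I.2.1 < T.tb.length
  h5 : I.2.2.1.length = 9
  h6 : I.2.2.1.all (fun s => decide (s < 20)) = true
  h7 : ∀ r < 16, fI I r = gI I r ∧ gI I r < 2 ^ 21
  h8 : (T.en I.2.1).1 = cπ (cp I.1 c)
  h9 : (T.en I.2.1).2.1 = cα (cp I.1 c)
  h10 : (T.en I.2.1).2.2.1 = cβ (cp I.1 c)

theorem okI_spec {T : GT} {c : ℕ} {I : TI} (h : T.okI c I = true) : OI T c I := by
  unfold okI at h
  rw [Bool.and_eq_true, Bool.and_eq_true, Bool.and_eq_true, Bool.and_eq_true, Bool.and_eq_true,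
    Bool.and_eq_true, Bool.and_eq_true, Bool.and_eq_true, Bool.and_eq_true, decide_eq_true_eq,
    decide_eq_true_eq, decide_eq_true_eq, decide_eq_true_eq, decide_eq_true_eq,
    decide_eq_true_eq] at h
  obtain ⟨h1, h2, h3, h4, h5, h6, h7, h8, h9, h10⟩ := h
  refine ⟨h1, h2, h3, h4, h5, h6, fun r hr => ?_, h8, h9, h10⟩
  have h11 := List.all_eq_true.mp h7 r (List.mem_range.mpr hr)
  rw [Bool.and_eq_true, decide_eq_true_eq, decide_eq_true_eq] at h11
  exact h11

theorem acF_cons (T : GT) (τ : ℕ) (I : TI) (L : List TI) (b : ℕ → Bool) :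
    T.acF τ (I :: L) b = T.TV I.2.1 (bI τ I b) + T.acF τ L b := by
  unfold acF
  rw [List.map_cons, List.sum_cons]

theorem acF_le (h : T.OK) (τ : ℕ) (L : List TI) (b : ℕ → Bool) :
    T.acF τ L b ≤ L.length * (2 * T.D.B + T.OO) := by
  induction L with
  | nil => exact Nat.zero_le _
  | cons I L ih =>
    have h1 := TV_le h I.2.1 (bI τ I b)
    rw [acF_cons, List.length_cons, Nat.succ_mul]
    omega

theorem acG_ar (h : T.OK) (τ c : ℕ) (L : List TI)
    (hc : ∀ I ∈ L, T.okI c I = true) (hL : L.length ≤ 21) :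
    Ar T.w 16 (T.acG τ L) (T.acF τ L) := by
  induction L with
  | nil => exact ar_zero (W := T.w) 16
  | cons I L ih =>
    have h1 := okI_spec (hc I List.mem_cons_self)
    rw [List.length_cons] at hL
    have h5 := ih (fun J hJ => hc J (List.mem_cons_of_mem _ hJ)) (by omega)
    have h6 : Ar T.w (7 + kpG I.2.2.1) (asG T.w τ (T.en I.2.1).2.2.2 I.2.2.1)
        fun b => T.TV I.2.1 (sbF τ I.2.2.1 b) := by
      refine asG_ar h.hw τ I.2.2.1 _ _ ?_
      rw [h1.h5]
      exact h.tab I.2.1 h1.h4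
    have h7 := rvG_ar h.hw τ I.2.2.2 _ _ _ h1.h2 h6
    rw [h1.h3] at h7
    have h8 := h5.add h7 h.hw fun b => by
      have h8 := acF_le h τ L b
      have h9 := TV_le h I.2.1 (bI τ I b)
      have h10 := h.num
      have h11 : (L.length + 1) * (2 * T.D.B + T.OO) ≤ 21 * (2 * T.D.B + T.OO) :=
        Nat.mul_le_mul_right _ hL
      rw [Nat.add_mul, one_mul] at h11
      exact lt_of_le_of_lt (Nat.add_le_add h8 h9) (by omega)
    refine Ar.congr (show Ar T.w 16 (T.acG τ (I :: L)) _ from h8) fun b => ?_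
    rw [acF_cons, Nat.add_comm]
    rfl

theorem xv_low (e e' : ℕ) (b : ℕ → Bool) (m : ℕ) (hm : m < 2 ^ 21)
    (he : ∀ j < 4, e.testBit j = e'.testBit j) : lf 35 m (xv e b) = lf 35 m (xv e' b) := by
  have e1 : (35 : ℕ) = 20 + 15 := rfl
  rw [e1, lf_ext 20 15 m _ hm, lf_ext 20 15 m _ hm]
  apply lf_congr
  intro i hi
  unfold xv
  by_cases h1 : i < 16
  · rw [if_pos h1, if_pos h1]
  · rw [if_neg h1, if_neg h1]
    exact he _ (by omega)

/-- The value of a term. -/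
theorem TV_eq {n : ℕ} (H E' : Finset (Finset (Fin n))) (s : Fin 7 → Fin n)
    (hev : EvT E' s) (c : ℕ) (hJ : JD H E' s = jset c) (τ : ℕ) (hτ : τ < 16) (b : ℕ → Bool)
    (hb : ∀ i < 16, b i = gc H s i) (ht : ∀ i < 4, τ.testBit i = gc H s (16 + i))
    (I : TI) (hI : T.okI c I = true) (hev' : EvT E' (s ∘ pm I.1)) :
    T.TV I.2.1 (bI τ I b) = T.D.tvN 0 T.oo (pk H ((s ∘ pm I.1) ∘ c5))
      (idx 10 (xk H ((s ∘ pm I.1) ∘ c5) ((s ∘ pm I.1) 5)))
      (idx 10 (xk H ((s ∘ pm I.1) ∘ c5) ((s ∘ pm I.1) 6))) := by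
  have k := okI_spec hI
  have h9 := tvN_ttv H T.D 0 T.oo E' (s ∘ pm I.1) hev' (cp I.1 c) (JD_pm H E' k.h1 s c hJ)
  rw [← k.h8, ← k.h9, ← k.h10] at h9
  rw [← h9]
  unfold TV
  apply TF.ttv_dep
  intro r hr
  obtain ⟨h11, h12⟩ := k.h7 r hr
  have hord : ord.getD r 0 < 20 := by
    have : ∀ r < 16, ord.getD r 0 < 20 := by decide
    exact this r hr
  have h13 := syB_eq τ b (seV τ I.2.2.2 (7 + kpG I.2.2.1) b) (syV I.2.2.2 (7 + kpG I.2.2.1))
    I.2.2.1 k.h6 (fun q hq => seV_eq τ b I.2.2.2 _ k.h2 (by rw [k.h3]) q hq) r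
    (by rw [k.h5]; omega)
  have h14 : bI τ I b r = lf 35 (fI I r) (xv τ b) := h13
  rw [h14, h11, gc_form H E' k.h1 s hev c hJ _ hord,
    xv_low τ (τ + 16 * cG c) b _ h12 ?_]
  · apply lf_congr
    intro i hi
    exact (fv_xv (gc H s) b (cG c) τ hτ hb ht i hi).symm
  · intro j hj
    have e2 : τ + 16 * cG c = 2 ^ 4 * cG c + τ := by
      norm_num
      ring
    rw [e2, Nat.testBit_two_pow_mul_add _ (show τ < 2 ^ 4 by omega), if_pos hj]

/-- The sum of the terms of a frame. -/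
theorem acF_eq (h : T.OK) {n : ℕ} (H E' : Finset (Finset (Fin n))) (s : Fin 7 → Fin n)
    (hP : PsiSys.Pr H E' s) (c : ℕ) (hJ : JD H E' s = jset c) (τ : ℕ) (hτ : τ < 16)
    (b : ℕ → Bool) (hb : ∀ i < 16, b i = gc H s i) (ht : ∀ i < 4, τ.testBit i = gc H s (16 + i))
    (L : List TI) (hL : ∀ I ∈ L, T.okI c I = true) :
    ((T.acF τ L b : ℕ) : ℤ) = (L.map fun I => KY (T.kap H) s (fp I.1 5) (fp I.1 6)).sum := by
  induction L with
  | nil => rfl
  | cons I L ih =>
    rw [acF_cons, Nat.cast_add, ih fun J hJ => hL J (List.mem_cons_of_mem _ hJ), List.map_cons,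
      List.sum_cons]
    congr 1
    have hI := hL I List.mem_cons_self
    have hok : okp I.1 = true := (okI_spec hI).h1
    have hP' := hP.comp (pm I.1)
    have hev : ∀ t : Fin 7 → Fin n, Function.Injective t → EvT E' t := fun t ht =>
      evT_of_evenH E' hP.2.2.2.1 t ht
    rw [TV_eq H E' s (hev s hP.2.2.2.2) c hJ τ hτ b hb ht I hI (hev _ hP'.2.2.2.2)]
    have hc5 : Function.Injective c5 := fun a b hab => Fin.castLE_injective (by norm_num) hab
    rw [tvN_kap h H hP.2.1 _ (hP'.2.2.2.2.comp hc5), ← KY_56 (T.kap H) (s ∘ pm I.1),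
      KY_perm (T.kap H) (kap_perm h H) (pm I.1) s 5 6 (by decide)]
    have e2 : ∀ i : Fin 7, pm I.1 i = fp I.1 i := by
      intro i
      apply Fin.ext
      rw [pm_apply hok]
      unfold fp
      simp only
      rw [Nat.mod_eq_of_lt (okp_dg hok i i.isLt)]
    rw [e2, e2]

/-! ### Exchanges -/

/-- An exchange: conditional negations `X` and constants `K`. -/
def ecG (W e : ℕ) (X : List (ℕ × ℕ × ℕ)) (K : List (List ℕ)) (A : ℕ) : ℕ :=
  ruG W X 16 (xkG W 16 (cbG e K) 16 A)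

/-- The effect on the bits. -/
def ecF (e : ℕ) (X : List (ℕ × ℕ × ℕ)) (K : List (List ℕ)) (b : ℕ → Bool) (r : ℕ) : Bool :=
  seG X 16 b r ^^ (decide (r < 16) && (cbG e K).testBit r)

/-- The check of an exchange. -/
def okX (F : ℕ) (X : List (ℕ × ℕ × ℕ)) (K : List (List ℕ)) : Bool :=
  okp F && (okR X 16 && (decide (ndG X 16 = 16) &&
    ((List.range 16).all (fun r => decide (zF (iq F (jq.getD r 0)) =
      syG X 16 r ^^^ fm ((K.getD r []).map fun j => j + 16)) && (decide (syG X 16 r < 2 ^ 17) &&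
        (K.getD r []).all fun j => decide (j < 19))) &&
    (List.range 4).all fun i => decide (zF (iq F (jq.getD (16 + i) 0)) = 2 ^ (16 + i + 1)))))

theorem ecG_ar {W A e : ℕ} {f : (ℕ → Bool) → ℕ} (hW : 0 < W) (F : ℕ) (X : List (ℕ × ℕ × ℕ))
    (K : List (List ℕ)) (hX : okX F X K = true) (hA : Ar W 16 A f) :
    Ar W 16 (ecG W e X K A) fun b => f (ecF e X K b) := by
  unfold okX at hX
  simp only [Bool.and_eq_true, decide_eq_true_eq] at hX
  obtain ⟨_, h2, h3, _⟩ := hX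
  have h4 := ruG_ar hW X 16 _ _ h2 (xkG_ar (k := cbG e K) hW hA 16 le_rfl)
  rw [h3] at h4
  exact h4

theorem xl_map (v : ℕ → Bool) (l : List ℕ) :
    xl v (l.map fun j => j + 16) = xl (fun j => v (j + 16)) l := by
  induction l with
  | nil => rfl
  | cons a l ih => rw [List.map_cons, xl_cons, xl_cons, ih]

/-- The bits of the exchanged tuple. -/
theorem ecF_eq (F : ℕ) (X : List (ℕ × ℕ × ℕ)) (K : List (List ℕ)) (hX : okX F X K = true)
    {n : ℕ} (H E' : Finset (Finset (Fin n))) (s : Fin 7 → Fin n) (hev : EvT E' s) (c : ℕ)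
    (hJ : JD H E' s = jset c) (τ : ℕ) (hτ : τ < 16) (b : ℕ → Bool)
    (hb : ∀ i < 16, b i = gc H s i) (ht : ∀ i < 4, τ.testBit i = gc H s (16 + i)) :
    (∀ i < 16, ecF (τ + 16 * cG c) X K b i = gc H (s ∘ pm F) i) ∧
      ∀ i < 4, τ.testBit i = gc H (s ∘ pm F) (16 + i) := by
  unfold okX at hX
  simp only [Bool.and_eq_true, decide_eq_true_eq, List.all_eq_true, List.mem_range] at hX
  obtain ⟨h1, h2, h3, h4, h5⟩ := hX
  have hfx : ∀ m, lf 35 m (fv (gc H s) (cG c)) = lf 35 m (xv (τ + 16 * cG c) b) := fun m =>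
    lf_congr 35 m _ _ fun i hi => fv_xv (gc H s) b (cG c) τ hτ hb ht i hi
  constructor
  · intro i hi
    obtain ⟨h6, h7, h8⟩ := h4 i hi
    set e := τ + 16 * cG c with he
    rw [gc_form H E' h1 s hev c hJ i (by omega), hfx, h6, lf_xor]
    unfold ecF
    rw [decide_eq_true hi, Bool.true_and, cbG_testBit,
      seG_eq 16 b X 16 h2 (by rw [h3]) i hi]
    have e1 : lf 35 (syG X 16 i) (xv e b) = lf 16 (syG X 16 i) b := by
      have e2 : (35 : ℕ) = 16 + 19 := rfl
      rw [e2, lf_ext 16 19 _ _ h7]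
      apply lf_congr
      intro j hj
      unfold xv
      rw [if_pos hj]
    have e3 : lf 35 (fm ((K.getD i []).map fun j => j + 16)) (xv e b) =
        xl e.testBit (K.getD i []) := by
      rw [lf_fm 35 _ _ ?_, xl_map]
      · apply xl_congr
        intro j _
        unfold xv
        rw [if_neg (by omega), Nat.add_sub_cancel]
      · intro j hj
        obtain ⟨j', hj', rfl⟩ := List.mem_map.mp hj
        have := h8 j' hj'
        omega
    rw [e1, e3]
  · intro i hi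
    rw [gc_form H E' h1 s hev c hJ (16 + i) (by omega), h5 i hi, lf_two_pow,
      decide_eq_true (show 16 + i < 35 by omega), Bool.true_and, fv, if_pos (by omega), ht i hi]

/-- The exchange of the vertices `0` and `6`. -/
def F6 : ℕ := 181902
def X6 : List (ℕ × ℕ × ℕ) := [(2, 10, 0), (2, 11, 0), (2, 12, 0), (2, 10, 1), (2, 13, 1),
  (2, 14, 1), (2, 11, 2), (2, 13, 2), (2, 15, 2), (2, 12, 3), (2, 14, 3), (2, 15, 3), (2, 10, 4),
  (2, 11, 5), (2, 12, 6), (2, 13, 7), (2, 14, 8), (2, 15, 9)]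
def K6 : List (List ℕ) := [[9], [10], [11], [12], [0, 1, 13], [0, 2, 14], [1, 2, 15], [0, 3, 16],
  [1, 3, 17], [2, 3, 18], [], [], [], [], [], []]

theorem okX6 : okX F6 X6 K6 = true := by decide +kernel

/-- The exchange of the vertices `0` and `5`. -/
def F5 : ℕ := 1590925
def X5 : List (ℕ × ℕ × ℕ) := [(2, 4, 0), (2, 5, 0), (2, 6, 0), (2, 4, 1), (2, 7, 1), (2, 8, 1),
  (2, 5, 2), (2, 7, 2), (2, 9, 2), (2, 6, 3), (2, 8, 3), (2, 9, 3), (2, 4, 10), (2, 5, 11),
  (2, 6, 12), (2, 7, 13), (2, 8, 14), (2, 9, 15)]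
def K5 : List (List ℕ) := [[5], [6], [7], [8], [], [], [], [], [], [], [0, 1, 13], [0, 2, 14],
  [1, 2, 15], [0, 3, 16], [1, 3, 17], [2, 3, 18]]

theorem okX5 : okX F5 X5 K5 = true := by decide +kernel

/-! ### All frames -/

/-- The terms of a coset: the code of its representative and the terms of the three frames. -/
structure GR where
  /-- the code -/
  c : ℕ
  /-- the terms of the tuple, of the tuples with exchanged vertices `0, 6` and `0, 5` -/
  L0 : List TI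
  L1 : List TI
  L2 : List TI

/-- The pairs. -/
def prs (G : GR) : List (Fin 7 × Fin 7) := (G.L0.map fun I => (fp I.1 5, fp I.1 6)) ++
  ((G.L1.map fun I => (fp F6 (fp I.1 5), fp F6 (fp I.1 6))) ++
    G.L2.map fun I => (fp F5 (fp I.1 5), fp F5 (fp I.1 6)))

/-- The check of the terms of a coset. -/
def okG (T : GT) (G : GR) : Bool :=
  G.L0.all (T.okI G.c) && (G.L1.all (T.okI (cp F6 G.c)) && (G.L2.all (T.okI (cp F5 G.c)) &&
    (decide (okP (prs G)) && decide (G.L0.length + G.L1.length + G.L2.length ≤ 21))))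

/-- The array of the sum of the terms of all pairs. -/
noncomputable def PP (T : GT) (G : GR) (τ : ℕ) : ℕ :=
  Nat.add (Nat.add (T.acG τ G.L0) (ecG T.w (Nat.add τ (Nat.mul 16 (cG G.c))) X6 K6 (T.acG τ G.L1)))
    (ecG T.w (Nat.add τ (Nat.mul 16 (cG G.c))) X5 K5 (T.acG τ G.L2))

/-- The lanes. -/
def PV (T : GT) (G : GR) (τ : ℕ) (b : ℕ → Bool) : ℕ :=
  T.acF τ G.L0 b + T.acF τ G.L1 (ecF (τ + 16 * cG G.c) X6 K6 b) +
    T.acF τ G.L2 (ecF (τ + 16 * cG G.c) X5 K5 b)

theorem okG_spec {T : GT} {G : GR} (h : okG T G = true) : (∀ I ∈ G.L0, T.okI G.c I = true) ∧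
    (∀ I ∈ G.L1, T.okI (cp F6 G.c) I = true) ∧ (∀ I ∈ G.L2, T.okI (cp F5 G.c) I = true) ∧
    okP (prs G) ∧ G.L0.length + G.L1.length + G.L2.length ≤ 21 := by
  unfold okG at h
  simp only [Bool.and_eq_true, decide_eq_true_eq, List.all_eq_true] at h
  exact h

theorem PV_le {T : GT} (h : T.OK) (G : GR) (hG : okG T G = true) (τ : ℕ) (b : ℕ → Bool) :
    PV T G τ b ≤ 21 * (2 * T.D.B + T.OO) := by
  obtain ⟨_, _, _, _, h5⟩ := okG_spec hG
  have h1 := acF_le h τ G.L0 b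
  have h2 := acF_le h τ G.L1 (ecF (τ + 16 * cG G.c) X6 K6 b)
  have h3 := acF_le h τ G.L2 (ecF (τ + 16 * cG G.c) X5 K5 b)
  have h4 : (G.L0.length + G.L1.length + G.L2.length) * (2 * T.D.B + T.OO) ≤
      21 * (2 * T.D.B + T.OO) := Nat.mul_le_mul_right _ h5
  rw [Nat.add_mul, Nat.add_mul] at h4
  unfold PV
  omega

theorem PP_ar {T : GT} (h : T.OK) (G : GR) (hG : okG T G = true) (τ : ℕ) :
    Ar T.w 16 (PP T G τ) (PV T G τ) := by
  obtain ⟨h0, h1, h2, _, h5⟩ := okG_spec hG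
  have a0 := acG_ar h τ _ G.L0 h0 (by omega)
  have a1 := ecG_ar (e := τ + 16 * cG G.c) h.hw F6 X6 K6 okX6
    (acG_ar h τ _ G.L1 h1 (by omega))
  have a2 := ecG_ar (e := τ + 16 * cG G.c) h.hw F5 X5 K5 okX5
    (acG_ar h τ _ G.L2 h2 (by omega))
  have hle := PV_le h G hG τ
  have hnum := h.num
  have a3 := a0.add a1 h.hw fun b => by
    have := hle b
    unfold PV at this
    omega
  exact a3.add a2 h.hw fun b => by
    have := hle b
    unfold PV at this
    omega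

theorem pm_fp (F : ℕ) (hF : okp F = true) (i : Fin 7) : pm F i = fp F i := by
  apply Fin.ext
  rw [pm_apply hF]
  unfold fp
  simp only
  rw [Nat.mod_eq_of_lt (okp_dg hF i i.isLt)]

theorem okI_okp {T : GT} {c : ℕ} {I : TI} (h : T.okI c I = true) :
    okp I.1 = true := (okI_spec h).h1

/-- The sum of the terms of an exchanged frame. -/
theorem frame_sum {T : GT} (h : T.OK) (F : ℕ) (X : List (ℕ × ℕ × ℕ)) (K : List (List ℕ))
    (hX : okX F X K = true) {n : ℕ} (H E' : Finset (Finset (Fin n))) (s : Fin 7 → Fin n)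
    (hP : PsiSys.Pr H E' s) (c : ℕ) (hJ : JD H E' s = jset c) (τ : ℕ) (hτ : τ < 16) (b : ℕ → Bool)
    (hb : ∀ i < 16, b i = gc H s i) (ht : ∀ i < 4, τ.testBit i = gc H s (16 + i))
    (L : List TI) (hL : ∀ I ∈ L, T.okI (cp F c) I = true) :
    ((T.acF τ L (ecF (τ + 16 * cG c) X K b) : ℕ) : ℤ) =
      (L.map fun I => KY (T.kap H) s (fp F (fp I.1 5)) (fp F (fp I.1 6))).sum := by
  have hev : EvT E' s := evT_of_evenH E' hP.2.2.2.1 s hP.2.2.2.2
  have hF : okp F = true := by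
    unfold okX at hX
    rw [Bool.and_eq_true] at hX
    exact hX.1
  obtain ⟨hb6, ht6⟩ := ecF_eq F X K hX H E' s hev c hJ τ hτ b hb ht
  rw [acF_eq h H E' (s ∘ pm F) (hP.comp (pm F)) (cp F c) (JD_pm H E' hF s c hJ) τ hτ _ hb6 ht6 L hL]
  refine congrArg List.sum (List.map_congr_left fun I hI => ?_)
  have hI := okI_okp (hL I hI)
  have hne : fp I.1 5 ≠ fp I.1 6 := by
    rw [← pm_fp _ hI, ← pm_fp _ hI]
    intro h10
    exact absurd ((pm I.1).injective h10) (by decide)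
  rw [KY_perm (T.kap H) (kap_perm h H) (pm F) s _ _ hne, pm_fp F hF, pm_fp F hF]

/-- The value of the lanes. -/
theorem PV_eq {T : GT} (h : T.OK) (G : GR) (hG : okG T G = true) {n : ℕ}
    (H E' : Finset (Finset (Fin n))) (s : Fin 7 → Fin n) (hP : PsiSys.Pr H E' s)
    (hJ : JD H E' s = jset G.c) (τ : ℕ) (hτ : τ < 16) (b : ℕ → Bool)
    (hb : ∀ i < 16, b i = gc H s i) (ht : ∀ i < 4, τ.testBit i = gc H s (16 + i)) :
    2 * ((PV T G τ b : ℕ) : ℤ) = 42 * ((T.D.B : ℤ) + T.OO) + PS (T.D.fd.kk H) s -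
      6 * T.a3 * (N8 H s : ℤ) := by
  obtain ⟨h0, h1, h2, h3, _⟩ := okG_spec hG
  have s0 := acF_eq h H E' s hP G.c hJ τ hτ b hb ht G.L0 h0
  have s1 := frame_sum h F6 X6 K6 okX6 H E' s hP G.c hJ τ hτ b hb ht G.L1 h1
  have s2 := frame_sum h F5 X5 K5 okX5 H E' s hP G.c hJ τ hτ b hb ht G.L2 h2
  rw [← PS_kap, PS_list (T.kap H) (kap_symm h H) s (prs G) h3]
  congr 1
  unfold PV
  rw [Nat.cast_add, Nat.cast_add, s0, s1, s2]
  unfold prs
  rw [List.map_append, List.map_append, List.sum_append,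
    List.sum_append, List.map_map, List.map_map, List.map_map, add_assoc]
  rfl

end GT

end Pool.Agent.Lib.MP_afdd4d_co.K8.Gm
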