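import Pool.Agent.Lib.MP_afdd4d_co.K8.JE
import Pool.Agent.Lib.MP_afdd4d_co.K8.GamSum

/-!
# The tables of a pair system from its parts
-/

namespace Pool.Agent.Lib.MP_afdd4d_co.K8.Jv

open Finset Gm Gm.GT

/-- The data of the coset with code `c`. -/
def grOf (L : List GR) (d : GR) (c : ℕ) : GR :=
  @List.rec GR (fun _ => GR) d (fun G _ ih => @Bool.rec (fun _ => GR) ih G (Nat.beq G.c c)) L

theorem grOf_cons (G : GR) (L : List GR) (d : GR) (c : ℕ) :
    grOf (G :: L) d c = if G.c = c then G else grOf L d c := by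
  have e : grOf (G :: L) d c = @Bool.rec (fun _ => GR) (grOf L d c) G (Nat.beq G.c c) := rfl
  rw [e]
  by_cases h : G.c = c
  · have h1 : Nat.beq G.c c = true := by rw [h]; exact Nat.beq_refl c
    rw [h1, if_pos h]
  · have h1 : Nat.beq G.c c = false := by
      cases h2 : Nat.beq G.c c with
      | false => rfl
      | true => exact absurd (Nat.eq_of_beq_eq_true h2) h
    rw [h1, if_neg h]

theorem grOf_ok (L : List GR) (d : GR) (c : ℕ) (P : GR → Prop) (h : ∀ G ∈ L, P G) (hd : P d) :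
    P (grOf L d c) := by
  induction L with
  | nil => exact hd
  | cons G L ih =>
    rw [grOf_cons]
    split_ifs with h1
    · exact h G List.mem_cons_self
    · exact ih fun G' hG' => h G' (List.mem_cons_of_mem _ hG')

theorem grOf_c (L : List GR) (d : GR) (c : ℕ) (h : c ∈ L.map GR.c) : (grOf L d c).c = c := by
  induction L with
  | nil => exact absurd h (by simp)
  | cons G L ih =>
    rw [grOf_cons]
    split_ifs with h1
    · exact h1
    · apply ih
      rw [List.map_cons, List.mem_cons] at h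
      rcases h with h | h
      · exact absurd h.symm h1
      · exact h

/-- The tables of the function of pairs. -/
structure PsiTab (S : PsiSys) (w : ℕ) where
  OP : ℕ
  tP : ℕ → ℕ
  fP : ℕ → (ℕ → Bool) → ℕ
  hP : ∀ J < 2 ^ 15, Ar w 10 (tP J) (fP J)
  hP2 : ∀ J < 2 ^ 15, ∀ b, fP J b ≤ 2 * OP
  sP : ∀ (n : ℕ) (H E' : Finset (Finset (Fin n))) (p : Fin 6 → Fin n) (J : ℕ), J < 2 ^ 15 →
    EvT E' p → (∀ r < 15, (zb H p (q6 6 r) ^^ zb E' p (q6 6 r)) = J.testBit r) →
    S.ψ H E' p = (fP J (gc E' p) : ℤ) - OP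

/-- The tables of the function of even 4-graphs. -/
structure BTab (S : PsiSys) (w : ℕ) where
  OB : ℕ
  MB : ℕ
  tB : ℕ → ℕ
  fB : ℕ → (ℕ → Bool) → ℕ
  hB : ∀ t < 16, Ar w 16 (tB t) (fB t)
  hB2 : ∀ t < 16, ∀ b, fB t b ≤ MB
  sB : ∀ (n : ℕ) (E' : Finset (Finset (Fin n))) (s : Fin 7 → Fin n), EvT E' s →
    S.B E' s = (fB (idx 4 fun i => gc E' s (16 + i)) (gc E' s) : ℤ) - OB

/-- The tables of a pair system. -/
noncomputable def mkTabs (S : PsiSys) (T : GT) (hT : T.OK) (L : List GR) (d : GR)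
    (hL : ∀ G ∈ L, GT.okG T G = true) (hd : GT.okG T d = true)
    (hk : ∀ (n : ℕ) (H : Finset (Finset (Fin n))), S.k5.f H = T.D.fd.kk H)
    (ha : S.a = 3 * T.a3) (P : PsiTab S T.w) (B : BTab S T.w) (hw : 1 < T.w)
    (hsz : 2 * (21 * (2 * T.D.B + T.OO)) + 14 * (2 * P.OP) + B.MB < 2 ^ (T.w - 1)) :
    Tabs S where
  w := T.w
  OP := P.OP
  OB := B.OB
  MA := 21 * (2 * T.D.B + T.OO)
  MB := B.MB
  C0 := 42 * ((T.D.B : ℤ) + T.OO)
  tP := P.tP
  fP := P.fP
  tB := B.tB
  fB := B.fB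
  tA c τ := GT.PP T (grOf L d c) τ
  fA c τ := GT.PV T (grOf L d c) τ
  reps := L.map GR.c
  hw := hw
  hP := P.hP
  hP2 := P.hP2
  hB := B.hB
  hB2 := B.hB2
  hA c _ τ _ := GT.PP_ar hT _ (grOf_ok L d c (fun G => GT.okG T G = true) hL hd) τ
  hA2 c _ τ _ b := GT.PV_le hT _ (grOf_ok L d c (fun G => GT.okG T G = true) hL hd) τ b
  hsz := hsz
  sP := P.sP
  sB := B.sB
  sA n H E' s c hc hPr hJ := by
    have hG := grOf_ok L d c (fun G => GT.okG T G = true) hL hd
    have hc' := grOf_c L d c hc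
    have h := GT.PV_eq hT (grOf L d c) hG H E' s hPr (by rw [hc']; exact hJ)
      (idx 4 fun i => gc H s (16 + i)) (idx_lt 4 _) (gc H s) (fun i _ => rfl)
      (fun i hi => by rw [testBit_idx, decide_eq_true hi, Bool.true_and])
    rw [hk, ha]
    linarith

end Pool.Agent.Lib.MP_afdd4d_co.K8.Jv
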