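import Pool.Agent.Lib.MP_afdd4d_co.K8.PsiFar

/-!
# Representatives of the 4-graphs on seven vertices

The 4-graphs on seven vertices with few edges, and the 4-graphs on seven vertices up to even
4-graphs, are reduced to lists of representatives: the check is that every representative with one
more quadruple is equivalent to a representative.
-/

namespace Pool.Agent.Lib.MP_afdd4d_co.K8

open Finset

/-! ### The quadruples of seven points -/

/-- The quadruples of seven points in colex order. -/
def Q7 : List (List ℕ) := [[0, 1, 2, 3], [0, 1, 2, 4], [0, 1, 3, 4], [0, 2, 3, 4], [1, 2, 3, 4],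
  [0, 1, 2, 5], [0, 1, 3, 5], [0, 2, 3, 5], [1, 2, 3, 5], [0, 1, 4, 5], [0, 2, 4, 5], [1, 2, 4, 5],
  [0, 3, 4, 5], [1, 3, 4, 5], [2, 3, 4, 5], [0, 1, 2, 6], [0, 1, 3, 6], [0, 2, 3, 6], [1, 2, 3, 6],
  [0, 1, 4, 6], [0, 2, 4, 6], [1, 2, 4, 6], [0, 3, 4, 6], [1, 3, 4, 6], [2, 3, 4, 6], [0, 1, 5, 6],
  [0, 2, 5, 6], [1, 2, 5, 6], [0, 3, 5, 6], [1, 3, 5, 6], [2, 3, 5, 6], [0, 4, 5, 6], [1, 4, 5, 6],
  [2, 4, 5, 6], [3, 4, 5, 6]]

/-- The quadruple `r`. -/
def q7 (r : ℕ) : Finset (Fin 7) := univ.filter fun z => (z : ℕ) ∈ Q7.getD r []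

theorem q7_card : ∀ r < 35, (q7 r).card = 4 := by decide +kernel

theorem q7_inj : ∀ r < 35, ∀ r' < 35, q7 r = q7 r' → r = r' := by decide +kernel

theorem q7_surj (Q : Finset (Fin 7)) (hQ : Q.card = 4) : ∃ r < 35, q7 r = Q := by
  have h1 : (Finset.range 35).image q7 = (univ : Finset (Fin 7)).powersetCard 4 := by
    apply Finset.eq_of_subset_of_card_le
    · intro T hT
      rw [Finset.mem_image] at hT
      obtain ⟨r, hr, rfl⟩ := hT
      rw [Finset.mem_powersetCard]
      exact ⟨Finset.subset_univ _, q7_card r (Finset.mem_range.mp hr)⟩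
    · rw [Finset.card_image_of_injOn, Finset.card_range, Finset.card_powersetCard,
        Finset.card_univ, Fintype.card_fin]
      · decide
      · intro i hi j hj hij
        exact q7_inj i (Finset.mem_range.mp hi) j (Finset.mem_range.mp hj) hij
  have h2 : Q ∈ (univ : Finset (Fin 7)).powersetCard 4 := by
    rw [Finset.mem_powersetCard]
    exact ⟨Finset.subset_univ _, hQ⟩
  rw [← h1, Finset.mem_image] at h2
  obtain ⟨r, hr, h3⟩ := h2
  exact ⟨r, Finset.mem_range.mp hr, h3⟩

/-- The 4-graph of a code. -/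
def jset (c : ℕ) : Finset (Finset (Fin 7)) :=
  ((range 35).filter fun r => c.testBit r = true).image q7

theorem mem_jset (c : ℕ) (T : Finset (Fin 7)) :
    T ∈ jset c ↔ ∃ r < 35, c.testBit r = true ∧ q7 r = T := by
  unfold jset
  rw [Finset.mem_image]
  constructor
  · rintro ⟨r, hr, h⟩
    rw [Finset.mem_filter, Finset.mem_range] at hr
    exact ⟨r, hr.1, hr.2, h⟩
  · rintro ⟨r, hr, h1, h2⟩
    exact ⟨r, by rw [Finset.mem_filter, Finset.mem_range]; exact ⟨hr, h1⟩, h2⟩

theorem q7_mem_jset (c r : ℕ) (hr : r < 35) : q7 r ∈ jset c ↔ c.testBit r = true := by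
  rw [mem_jset]
  constructor
  · rintro ⟨r', hr', h1, h2⟩
    rw [q7_inj r' hr' r hr h2] at h1
    exact h1
  · intro h
    exact ⟨r, hr, h, rfl⟩

theorem jset_card4 (c : ℕ) : ∀ T ∈ jset c, T.card = 4 := by
  intro T hT
  obtain ⟨r, hr, _, h⟩ := (mem_jset c T).mp hT
  rw [← h]
  exact q7_card r hr

/-! ### Permutations as numbers -/

/-- The octal digit `i`. -/
def dg (τ i : ℕ) : ℕ := Nat.land (Nat.shiftRight τ (3 * i)) 7

/-- The bit `i` as a number. -/
def bt (m i : ℕ) : ℕ := Nat.land (Nat.shiftRight m i) 1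

theorem bt_eq (m i : ℕ) : bt m i = (m.testBit i).toNat := by
  have h : bt m i = (m >>> i) &&& 1 := rfl
  rw [h, Nat.and_one_is_mod, Nat.testBit_eq_decide_div_mod_eq, Nat.shiftRight_eq_div_pow]
  rcases Nat.mod_two_eq_zero_or_one (m / 2 ^ i) with h1 | h1
  · rw [h1]; rfl
  · rw [h1]; rfl

/-- The image of a mask. -/
def im (τ m : ℕ) : ℕ :=
  Nat.lor (Nat.shiftLeft (bt m 0) (dg τ 0)) (Nat.lor (Nat.shiftLeft (bt m 1) (dg τ 1))
    (Nat.lor (Nat.shiftLeft (bt m 2) (dg τ 2)) (Nat.lor (Nat.shiftLeft (bt m 3) (dg τ 3))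
      (Nat.lor (Nat.shiftLeft (bt m 4) (dg τ 4)) (Nat.lor (Nat.shiftLeft (bt m 5) (dg τ 5))
        (Nat.shiftLeft (bt m 6) (dg τ 6)))))))

theorem bt_shl_testBit (m i d j : ℕ) :
    (Nat.shiftLeft (bt m i) d).testBit j = true ↔ m.testBit i = true ∧ d = j := by
  have h : Nat.shiftLeft (bt m i) d = (bt m i) <<< d := rfl
  rw [h, bt_eq]
  cases m.testBit i with
  | true =>
    rw [Bool.toNat_true, Nat.shiftLeft_eq, one_mul, Nat.testBit_two_pow, decide_eq_true_iff]
    exact ⟨fun h => ⟨rfl, h⟩, fun h => h.2⟩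
  | false =>
    rw [Bool.toNat_false, Nat.shiftLeft_eq, zero_mul, Nat.zero_testBit]
    constructor
    · intro h; exact absurd h (by decide)
    · rintro ⟨h, _⟩; exact absurd h (by decide)

theorem im_testBit (τ m j : ℕ) :
    (im τ m).testBit j = true ↔ ∃ i < 7, m.testBit i = true ∧ dg τ i = j := by
  have hlor : ∀ a b : ℕ, Nat.lor a b = a ||| b := fun _ _ => rfl
  unfold im
  simp only [hlor, Nat.testBit_or, Bool.or_eq_true, bt_shl_testBit]
  constructor
  · rintro (h | h | h | h | h | h | h)
    · exact ⟨0, by norm_num, h⟩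
    · exact ⟨1, by norm_num, h⟩
    · exact ⟨2, by norm_num, h⟩
    · exact ⟨3, by norm_num, h⟩
    · exact ⟨4, by norm_num, h⟩
    · exact ⟨5, by norm_num, h⟩
    · exact ⟨6, by norm_num, h⟩
  · rintro ⟨i, hi, h⟩
    interval_cases i
    · exact Or.inl h
    · exact Or.inr (Or.inl h)
    · exact Or.inr (Or.inr (Or.inl h))
    · exact Or.inr (Or.inr (Or.inr (Or.inl h)))
    · exact Or.inr (Or.inr (Or.inr (Or.inr (Or.inl h))))
    · exact Or.inr (Or.inr (Or.inr (Or.inr (Or.inr (Or.inl h)))))
    · exact Or.inr (Or.inr (Or.inr (Or.inr (Or.inr (Or.inr h)))))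

/-- The number is a permutation. -/
def okp (τ : ℕ) : Bool := Nat.beq (im τ 127) 127

theorem okp_dg {τ : ℕ} (h : okp τ = true) : ∀ i < 7, dg τ i < 7 := by
  intro i hi
  have h1 : im τ 127 = 127 := Nat.eq_of_beq_eq_true h
  by_contra hlt
  have h2 : (im τ 127).testBit (dg τ i) = true :=
    (im_testBit τ 127 (dg τ i)).mpr ⟨i, hi, by
      have : ∀ i < 7, Nat.testBit 127 i = true := by decide
      exact this i hi, rfl⟩
  rw [h1, Nat.testBit_lt_two_pow (lt_of_lt_of_le (by norm_num : 127 < 2 ^ 7)
    (Nat.pow_le_pow_right (by norm_num) (by omega)))] at h2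
  exact absurd h2 (by decide)

/-- The function of the positions. -/
def fp (τ : ℕ) (i : Fin 7) : Fin 7 := ⟨dg τ i % 7, Nat.mod_lt _ (by norm_num)⟩

theorem fp_bij {τ : ℕ} (h : okp τ = true) : Function.Bijective (fp τ) := by
  rw [← Finite.surjective_iff_bijective]
  intro j
  have h1 : im τ 127 = 127 := Nat.eq_of_beq_eq_true h
  have h2 : (im τ 127).testBit j = true := by
    rw [h1]
    have : ∀ j : Fin 7, Nat.testBit 127 j = true := by decide
    exact this j
  obtain ⟨i, hi, _, h3⟩ := (im_testBit τ 127 j).mp h2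
  refine ⟨⟨i, hi⟩, ?_⟩
  apply Fin.ext
  unfold fp
  simp only
  rw [h3, Nat.mod_eq_of_lt j.isLt]

open Classical in
/-- The permutation of a number. -/
noncomputable def pm (τ : ℕ) : Equiv.Perm (Fin 7) :=
  if h : Function.Bijective (fp τ) then Equiv.ofBijective _ h else 1

theorem pm_apply {τ : ℕ} (h : okp τ = true) (i : Fin 7) : ((pm τ i : Fin 7) : ℕ) = dg τ i := by
  unfold pm
  rw [dif_pos (fp_bij h)]
  simp only [Equiv.ofBijective_apply]
  unfold fp
  simp only
  exact Nat.mod_eq_of_lt (okp_dg h i i.isLt)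

/-! ### Masks of quadruples -/

/-- The mask of the quadruple `r`. -/
def m4 (r : ℕ) : ℕ := Nat.land (Nat.shiftRight
  0x787472716c6a696665635c5a595655534e4d4b473c3a393635332e2d2b271e1d1b170f (8 * r)) 255

/-- The number of the quadruple with the mask `m`. -/
def rkq (m : ℕ) : ℕ := Nat.land (Nat.shiftRight
  0x220000002100201f000000001e001d1c00001b1a00190000000000001800171600001514001300000000121100100000000f000000000000000000000e000d0c00000b0a0009000000000807000600000005000000000000000004030002000000010000000000000000000000000000000000000000000000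
  (8 * m)) 255

theorem m4_data : ∀ r < 35, m4 r < 128 ∧ rkq (m4 r) = r ∧
    ∀ i : Fin 7, (m4 r).testBit i = decide (i ∈ q7 r) := by decide +kernel

/-- The number of the image of the quadruple `r`. -/
def iq (τ r : ℕ) : ℕ := rkq (im τ (m4 r))

theorem img_q7 {τ : ℕ} (h : okp τ = true) (r : ℕ) (hr : r < 35) :
    iq τ r < 35 ∧ (q7 r).image (pm τ) = q7 (iq τ r) := by
  have hc : ((q7 r).image (pm τ)).card = 4 := by
    rw [Finset.card_image_of_injective _ (pm τ).injective, q7_card r hr]
  obtain ⟨r', hr', h1⟩ := q7_surj _ hc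
  have h2 : im τ (m4 r) = m4 r' := by
    apply Nat.eq_of_testBit_eq
    intro j
    rw [Bool.eq_iff_iff]
    rcases Nat.lt_or_ge j 7 with hj | hj
    · have h3 : (m4 r').testBit j = decide ((⟨j, hj⟩ : Fin 7) ∈ q7 r') :=
        (m4_data r' hr').2.2 ⟨j, hj⟩
      rw [h3, h1, decide_eq_true_iff, Finset.mem_image, im_testBit]
      constructor
      · rintro ⟨i, hi, h4, h5⟩
        refine ⟨⟨i, hi⟩, ?_, ?_⟩
        · have h6 := (m4_data r hr).2.2 ⟨i, hi⟩
          simp only at h6
          rw [h4] at h6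
          exact of_decide_eq_true h6.symm
        · apply Fin.ext
          rw [pm_apply h]
          exact h5
      · rintro ⟨i, hi, h4⟩
        refine ⟨i, i.isLt, ?_, ?_⟩
        · rw [(m4_data r hr).2.2 i]
          exact decide_eq_true hi
        · rw [← pm_apply h i, h4]
    · constructor
      · intro h3
        obtain ⟨i, hi, _, h5⟩ := (im_testBit _ _ _).mp h3
        have := okp_dg h i hi
        omega
      · intro h3
        have h4 : (128 : ℕ) ≤ 2 ^ j := by
          have h5 : (2 : ℕ) ^ 7 ≤ 2 ^ j := Nat.pow_le_pow_right (by norm_num) hj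
          exact h5
        rw [Nat.testBit_lt_two_pow (lt_of_lt_of_le (m4_data r' hr').1 h4)] at h3
        exact absurd h3 (by decide)
  have h3 : iq τ r = r' := by
    unfold iq
    rw [h2, (m4_data r' hr').2.1]
  rw [h3]
  exact ⟨hr', h1.symm⟩

/-- The code of the image of a 4-graph, with fuel. -/
def pcF (τ : ℕ) (k : ℕ) : ℕ → ℕ :=
  @Nat.rec (fun _ => ℕ → ℕ) (fun _ => 0)
    (fun _ ih c => @Bool.rec (fun _ => ℕ)
      (Nat.lor (Nat.shiftLeft 1 (iq τ (Nat.log2 c)))
        (ih (Nat.xor c (Nat.shiftLeft 1 (Nat.log2 c))))) 0 (Nat.beq c 0)) k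

/-- The code of the image of a 4-graph. -/
def pc (τ c : ℕ) : ℕ := pcF τ 35 c

theorem shl_one (a : ℕ) : Nat.shiftLeft 1 a = 2 ^ a := by
  have h : (1 <<< a) = 1 * 2 ^ a := Nat.shiftLeft_eq 1 a
  rw [one_mul] at h
  exact h

theorem pcF_testBit (τ k : ℕ) : ∀ c : ℕ, c < 2 ^ k → ∀ j : ℕ,
    ((pcF τ k c).testBit j = true ↔ ∃ i < k, c.testBit i = true ∧ iq τ i = j) := by
  induction k with
  | zero =>
    intro c _ j
    have h : pcF τ 0 c = 0 := rfl
    rw [h, Nat.zero_testBit]
    constructor
    · intro h; exact absurd h (by decide)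
    · rintro ⟨i, hi, _⟩; omega
  | succ k ih =>
    intro c hc j
    rcases Nat.eq_zero_or_pos c with h0 | h0
    · subst h0
      have h : pcF τ (k + 1) 0 = 0 := rfl
      rw [h, Nat.zero_testBit]
      constructor
      · intro h; exact absurd h (by decide)
      · rintro ⟨i, _, h, _⟩
        rw [Nat.zero_testBit] at h
        exact absurd h (by decide)
    · have hb : Nat.beq c 0 = false := by
        rw [Bool.eq_false_iff]
        intro h
        have := Nat.eq_of_beq_eq_true h
        omega
      set l : ℕ := Nat.log2 c with hl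
      have h1 : pcF τ (k + 1) c = Nat.lor (Nat.shiftLeft 1 (iq τ l))
          (pcF τ k (Nat.xor c (Nat.shiftLeft 1 l))) := by
        have h2 : pcF τ (k + 1) c = @Bool.rec (fun _ => ℕ)
          (Nat.lor (Nat.shiftLeft 1 (iq τ (Nat.log2 c)))
            (pcF τ k (Nat.xor c (Nat.shiftLeft 1 (Nat.log2 c))))) 0 (Nat.beq c 0) := rfl
        rw [h2, hb]
      have hlor : ∀ a b : ℕ, Nat.lor a b = a ||| b := fun _ _ => rfl
      have hxor : ∀ a b : ℕ, Nat.xor a b = a ^^^ b := fun _ _ => rfl
      have hle : 2 ^ l ≤ c := Nat.log2_self_le (by omega)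
      have hlt : c < 2 ^ (l + 1) := Nat.lt_log2_self
      have hlk : l ≤ k := by
        by_contra h
        have : 2 ^ (k + 1) ≤ 2 ^ l := Nat.pow_le_pow_right (by norm_num) (by omega)
        omega
      have hbl : c.testBit l = true := by
        rw [Nat.testBit_eq_decide_div_mod_eq]
        have : c / 2 ^ l = 1 := by
          apply Nat.div_eq_of_lt_le
          · rw [one_mul]; exact hle
          · rw [pow_succ] at hlt; omega
        rw [this]
        decide
      have hbits : ∀ i, (c ^^^ 2 ^ l).testBit i = true ↔ c.testBit i = true ∧ i ≠ l := by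
        intro i
        rw [Nat.testBit_xor, Nat.testBit_two_pow]
        by_cases hil : l = i
        · subst hil
          rw [hbl]
          simp
        · rw [decide_eq_false hil, Bool.xor_false]
          exact ⟨fun h => ⟨h, fun h2 => hil h2.symm⟩, fun h => h.1⟩
      have hlt' : c ^^^ 2 ^ l < 2 ^ k := by
        apply Nat.lt_pow_two_of_testBit
        intro i hi
        by_contra h
        rw [Bool.not_eq_false] at h
        obtain ⟨h3, h4⟩ := (hbits i).mp h
        have h5 : l + 1 ≤ i := by omega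
        rw [Nat.testBit_lt_two_pow (lt_of_lt_of_le hlt
          (Nat.pow_le_pow_right (by norm_num) h5))] at h3
        exact absurd h3 (by decide)
      rw [h1, hlor, Nat.testBit_or, Bool.or_eq_true, shl_one, shl_one, hxor,
        ih _ hlt' j, Nat.testBit_two_pow, decide_eq_true_iff]
      constructor
      · rintro (h | ⟨i, hi, h2, h3⟩)
        · exact ⟨l, by omega, hbl, h⟩
        · exact ⟨i, by omega, ((hbits i).mp h2).1, h3⟩
      · rintro ⟨i, hi, h2, h3⟩
        by_cases hil : i = l
        · subst hil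
          exact Or.inl h3
        · right
          refine ⟨i, ?_, (hbits i).mpr ⟨h2, hil⟩, h3⟩
          by_contra h4
          have h5 : i = k := by omega
          subst h5
          have h6 : l + 1 ≤ i := by omega
          rw [Nat.testBit_lt_two_pow (lt_of_lt_of_le hlt
            (Nat.pow_le_pow_right (by norm_num) h6))] at h2
          exact absurd h2 (by decide)

theorem pc_testBit (τ c j : ℕ) (hc : c < 2 ^ 35) :
    (pc τ c).testBit j = true ↔ ∃ i < 35, c.testBit i = true ∧ iq τ i = j :=
  pcF_testBit τ 35 c hc j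

/-- The 4-graph of the code of the image. -/
theorem mem_jset_pc {τ : ℕ} (h : okp τ = true) (c : ℕ) (hc : c < 2 ^ 35) (U : Finset (Fin 7)) :
    U ∈ jset (pc τ c) ↔ U.image (pm τ).symm ∈ jset c := by
  have e1 : ∀ T : Finset (Fin 7), (T.image (pm τ)).image (pm τ).symm = T := by
    intro T
    rw [Finset.image_image]
    have : ((pm τ).symm : Fin 7 → Fin 7) ∘ (pm τ) = id := by funext i; simp
    rw [this, Finset.image_id]
  have e2 : ∀ T : Finset (Fin 7), (T.image (pm τ).symm).image (pm τ) = T := by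
    intro T
    rw [Finset.image_image]
    have : ((pm τ) : Fin 7 → Fin 7) ∘ (pm τ).symm = id := by funext i; simp
    rw [this, Finset.image_id]
  rw [mem_jset, mem_jset]
  constructor
  · rintro ⟨r, hr, h1, rfl⟩
    obtain ⟨i, hi, h2, h3⟩ := (pc_testBit _ _ _ hc).mp h1
    refine ⟨i, hi, h2, ?_⟩
    rw [← h3, ← (img_q7 h i hi).2, e1]
  · rintro ⟨i, hi, h1, h2⟩
    refine ⟨iq τ i, (img_q7 h i hi).1, (pc_testBit _ _ _ hc).mpr ⟨i, hi, h1, rfl⟩, ?_⟩
    rw [← (img_q7 h i hi).2, h2, e2]

/-! ### The 4-graphs with few edges -/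

/-- The code at position `i` of a table of codes. -/
def lk (N i : ℕ) : ℕ := Nat.land (Nat.shiftRight N (35 * i)) 34359738367

theorem lk_lt (N i : ℕ) : lk N i < 2 ^ 35 := by
  have h : lk N i = (N >>> (35 * i)) &&& 34359738367 := rfl
  rw [h]
  exact lt_of_le_of_lt Nat.and_le_right (by norm_num)

/-- The list of a table of codes. -/
def lks (N n : ℕ) : List ℕ := (List.range n).map (lk N)

theorem lk_mem {N n i : ℕ} (h : Nat.blt i n = true) : lk N i ∈ lks N n := by
  rw [lks, List.mem_map]
  refine ⟨i, List.mem_range.mpr ?_, rfl⟩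
  rw [← Nat.blt_eq]
  exact h

/-- The check of an entry `pos * 2 ^ 21 + τ`. -/
def entOK (N n c r e : ℕ) : Bool :=
  @Bool.rec (fun _ => Bool)
    (@Bool.rec (fun _ => Bool) false
      (@Bool.rec (fun _ => Bool) false (okp (Nat.land e 2097151))
        (Nat.beq (pc (Nat.land e 2097151) (lk N (Nat.shiftRight e 21)))
          (Nat.lor c (Nat.shiftLeft 1 r))))
      (Nat.blt (Nat.shiftRight e 21) n)) true (Nat.beq (bt c r) 1)

theorem entOK_spec {N n c r e : ℕ} (h : entOK N n c r e = true) (hb : c.testBit r = false) :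
    ∃ c' ∈ lks N n, c' < 2 ^ 35 ∧ ∃ τ, okp τ = true ∧ pc τ c' = c ||| 2 ^ r := by
  unfold entOK at h
  have h1 : Nat.beq (bt c r) 1 = false := by
    rw [bt_eq, hb]
    rfl
  rw [h1] at h
  dsimp only at h
  cases h2 : Nat.blt (Nat.shiftRight e 21) n with
  | false =>
    rw [h2] at h
    exact absurd (show false = true from h) Bool.false_ne_true
  | true =>
    rw [h2] at h
    dsimp only at h
    cases h3 : Nat.beq (pc (Nat.land e 2097151) (lk N (Nat.shiftRight e 21)))
          (Nat.lor c (Nat.shiftLeft 1 r)) with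
    | false =>
      rw [h3] at h
      exact absurd (show false = true from h) Bool.false_ne_true
    | true =>
      rw [h3] at h
      dsimp only at h
      refine ⟨_, lk_mem h2, lk_lt _ _, _, h, ?_⟩
      rw [Nat.eq_of_beq_eq_true h3, shl_one]
      rfl

/-- The check of a row of entries. -/
def rowOK (N n c : ℕ) : List ℕ → ℕ → Bool :=
  @List.rec ℕ (fun _ => ℕ → Bool) (fun _ => true)
    (fun e _ ih r => @Bool.rec (fun _ => Bool) false (ih (Nat.succ r)) (entOK N n c r e))

theorem rowOK_spec {N n c : ℕ} : ∀ (l : List ℕ) (r0 : ℕ), rowOK N n c l r0 = true →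
    ∀ r, r0 ≤ r → r < r0 + l.length → c.testBit r = false →
      ∃ c' ∈ lks N n, c' < 2 ^ 35 ∧ ∃ τ, okp τ = true ∧ pc τ c' = c ||| 2 ^ r
  | [], r0, _ => by
    intro r h1 h2
    simp only [List.length_nil] at h2
    omega
  | e :: l, r0, h => by
    have h0 : rowOK N n c (e :: l) r0 = @Bool.rec (fun _ => Bool) false
      (rowOK N n c l (Nat.succ r0)) (entOK N n c r0 e) := rfl
    rw [h0] at h
    cases h1 : entOK N n c r0 e with
    | false =>
      rw [h1] at h
      exact absurd (show false = true from h) Bool.false_ne_true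
    | true =>
      rw [h1] at h
      dsimp only at h
      intro r h2 h3 hb
      rcases Nat.eq_or_lt_of_le h2 with h4 | h4
      · subst h4
        exact entOK_spec h1 hb
      · refine rowOK_spec l (Nat.succ r0) h r h4 ?_ hb
        rw [List.length_cons] at h3
        omega

/-- The checks of the rows of a table of codes. -/
def levOK (N n M : ℕ) : List (List ℕ) → ℕ → Bool :=
  @List.rec (List ℕ) (fun _ => ℕ → Bool) (fun _ => true)
    (fun row _ ih i => @Bool.rec (fun _ => Bool) false
      (@Bool.rec (fun _ => Bool) false (ih (Nat.succ i)) (Nat.beq row.length 35))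
      (rowOK N n (lk M i) row 0))

theorem levOK_spec {N n M : ℕ} : ∀ (rows : List (List ℕ)) (i0 : ℕ),
    levOK N n M rows i0 = true → ∀ i, i0 ≤ i → i < i0 + rows.length → ∀ r < 35,
      (lk M i).testBit r = false →
      ∃ c' ∈ lks N n, c' < 2 ^ 35 ∧ ∃ τ, okp τ = true ∧ pc τ c' = lk M i ||| 2 ^ r
  | [], i0, _ => by
    intro i h1 h2
    simp only [List.length_nil] at h2
    omega
  | row :: rows, i0, h => by
    have h0 : levOK N n M (row :: rows) i0 = @Bool.rec (fun _ => Bool) false
      (@Bool.rec (fun _ => Bool) false (levOK N n M rows (Nat.succ i0)) (Nat.beq row.length 35))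
      (rowOK N n (lk M i0) row 0) := rfl
    rw [h0] at h
    cases h1 : rowOK N n (lk M i0) row 0 with
    | false =>
      rw [h1] at h
      exact absurd (show false = true from h) Bool.false_ne_true
    | true =>
      rw [h1] at h
      dsimp only at h
      cases h2 : Nat.beq row.length 35 with
      | false =>
        rw [h2] at h
        exact absurd (show false = true from h) Bool.false_ne_true
      | true =>
        rw [h2] at h
        dsimp only at h
        have hlen := Nat.eq_of_beq_eq_true h2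
        intro i h3 h4 r hr hb
        rcases Nat.eq_or_lt_of_le h3 with h5 | h5
        · subst h5
          exact rowOK_spec row 0 h1 r (Nat.zero_le _) (by omega) hb
        · refine levOK_spec rows (Nat.succ i0) h i h5 ?_ r hr hb
          rw [List.length_cons] at h4
          omega

/-- Every 4-graph with `k` edges on seven vertices is equivalent to an element of the list. -/
def CovK (k : ℕ) (L : List ℕ) : Prop :=
  ∀ J : Finset (Finset (Fin 7)), (∀ T ∈ J, T.card = 4) → J.card = k →
    ∃ c ∈ L, ∃ σ : Equiv.Perm (Fin 7), ∀ T : Finset (Fin 7), T.card = 4 →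
      (T ∈ J ↔ T.image σ ∈ jset c)

theorem covK_zero : CovK 0 (lks 0 1) := by
  intro J _ hJ
  refine ⟨0, lk_mem (N := 0) (i := 0) rfl, 1, ?_⟩
  intro T _
  rw [Finset.card_eq_zero.mp hJ, mem_jset]
  constructor
  · intro h
    exact absurd h (Finset.notMem_empty _)
  · rintro ⟨r, _, h, _⟩
    rw [Nat.zero_testBit] at h
    exact absurd h (by decide)

theorem covK_succ {k N n M m : ℕ} {rows : List (List ℕ)} (hk : CovK k (lks M m))
    (hm : rows.length = m) (h : levOK N n M rows 0 = true) : CovK (k + 1) (lks N n) := by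
  intro J h4 hJ
  have hne : J.Nonempty := by
    rw [← Finset.card_pos]
    omega
  obtain ⟨Q, hQ⟩ := hne
  obtain ⟨c, hc, σ, h1⟩ := hk (J.erase Q) (fun T hT => h4 T (Finset.mem_of_mem_erase hT))
    (by rw [Finset.card_erase_of_mem hQ, hJ, Nat.add_sub_cancel])
  have hQ4 := h4 Q hQ
  obtain ⟨r, hr, hrQ⟩ := q7_surj (Q.image σ) (by
    rw [Finset.card_image_of_injective _ σ.injective, hQ4])
  have hb : c.testBit r = false := by
    by_contra h2
    rw [Bool.not_eq_false, ← q7_mem_jset c r hr, hrQ, ← h1 Q hQ4] at h2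
    exact absurd h2 (Finset.notMem_erase Q J)
  rw [lks, List.mem_map] at hc
  obtain ⟨i, hi, hic⟩ := hc
  rw [List.mem_range] at hi
  obtain ⟨c', hc', hc35, τ, hτ, h2⟩ := levOK_spec rows 0 h i (Nat.zero_le _) (by omega) r hr
    (by rw [hic]; exact hb)
  rw [hic] at h2
  refine ⟨c', hc', σ.trans (pm τ).symm, ?_⟩
  intro T hT
  have e1 : T.image (σ.trans (pm τ).symm) = (T.image σ).image (pm τ).symm := by
    rw [Finset.image_image]
    rfl
  rw [e1, ← mem_jset_pc hτ c' hc35, h2]
  obtain ⟨r', hr', hr'T⟩ := q7_surj (T.image σ) (by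
    rw [Finset.card_image_of_injective _ σ.injective, hT])
  rw [← hr'T, q7_mem_jset _ r' hr', Nat.testBit_or, Bool.or_eq_true, Nat.testBit_two_pow,
    decide_eq_true_iff, ← q7_mem_jset c r' hr', hr'T, ← h1 T hT]
  constructor
  · intro h3
    by_cases h4 : T = Q
    · right
      apply q7_inj r hr r' hr'
      rw [hrQ, hr'T, h4]
    · left
      exact Finset.mem_erase.mpr ⟨h4, h3⟩
  · rintro (h3 | h3)
    · exact Finset.mem_of_mem_erase h3
    · have h5 : T.image σ = Q.image σ := by rw [← hr'T, ← hrQ, h3]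
      rw [Finset.image_injective σ.injective h5]
      exact hQ

/-- The rows of all differences with `k` elements from the rows of the representatives. -/
theorem PsiSys.RowJ.of_cov {S : PsiSys} {k : ℕ} {L : List ℕ} (hk : CovK k L)
    (h : ∀ c ∈ L, S.RowJ (jset c)) (J : Finset (Finset (Fin 7))) (h4 : ∀ T ∈ J, T.card = 4)
    (hJ : J.card = k) : S.RowJ J := by
  obtain ⟨c, hc, σ, h1⟩ := hk J h4 hJ
  have e2 : ∀ T : Finset (Fin 7), (T.image σ.symm).image σ = T := by
    intro T
    rw [Finset.image_image]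
    have : (σ : Fin 7 → Fin 7) ∘ σ.symm = id := by funext i; simp
    rw [this, Finset.image_id]
  refine PsiSys.RowJ.perm (h c hc) σ.symm h4 ?_ (jset_card4 c)
  intro T hT
  rw [h1 (T.image σ.symm) (by rw [Finset.card_image_of_injective _ σ.symm.injective, hT]), e2]

/-! ### The 4-graphs up to even 4-graphs -/

/-- The five-sets of seven points, as lists of quadruples. -/
def F7L : List (List ℕ) := [[0, 1, 2, 3, 4], [0, 5, 6, 7, 8], [1, 5, 9, 10, 11],
  [2, 6, 9, 12, 13], [3, 7, 10, 12, 14], [4, 8, 11, 13, 14], [0, 15, 16, 17, 18],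
  [1, 15, 19, 20, 21], [2, 16, 19, 22, 23], [3, 17, 20, 22, 24], [4, 18, 21, 23, 24],
  [5, 15, 25, 26, 27], [6, 16, 25, 28, 29], [7, 17, 26, 28, 30], [8, 18, 27, 29, 30],
  [9, 19, 25, 31, 32], [10, 20, 26, 31, 33], [11, 21, 27, 32, 33], [12, 22, 28, 31, 34],
  [13, 23, 29, 32, 34], [14, 24, 30, 33, 34]]

/-- The sum of the shifted codes. -/
def pr (d : ℕ) : List ℕ → ℕ :=
  @List.rec ℕ (fun _ => ℕ) 0 (fun r _ ih => Nat.xor (Nat.shiftRight d r) ih)

/-- Whether the code is even on all five-sets of a list. -/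
def evCL (d : ℕ) : List (List ℕ) → Bool :=
  @List.rec (List ℕ) (fun _ => Bool) true
    (fun l _ ih => @Bool.rec (fun _ => Bool) false ih (Nat.beq (Nat.land (pr d l) 1) 0))

/-- Whether the code is even on all five-sets. -/
def evC (d : ℕ) : Bool := evCL d F7L

theorem pr_testBit (d : ℕ) (l : List ℕ) :
    (pr d l).testBit 0 = l.foldr (fun r a => xor (Nat.testBit d r) a) false := by
  induction l with
  | nil => exact Nat.zero_testBit 0
  | cons r l ih =>
    have h : pr d (r :: l) = (d >>> r) ^^^ pr d l := rfl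
    rw [h, Nat.testBit_xor, ih, Nat.testBit_shiftRight, List.foldr_cons, Nat.add_zero]

theorem evCL_spec {d : ℕ} : ∀ {L : List (List ℕ)}, evCL d L = true → ∀ l ∈ L,
    l.foldr (fun r a => xor (Nat.testBit d r) a) false = false
  | [], _ => by
    intro l hl
    exact absurd hl List.not_mem_nil
  | l0 :: L, h => by
    have h0 : evCL d (l0 :: L) = @Bool.rec (fun _ => Bool) false (evCL d L)
      (Nat.beq (Nat.land (pr d l0) 1) 0) := rfl
    rw [h0] at h
    cases h1 : Nat.beq (Nat.land (pr d l0) 1) 0 with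
    | false =>
      rw [h1] at h
      exact absurd (show false = true from h) Bool.false_ne_true
    | true =>
      rw [h1] at h
      dsimp only at h
      intro l hl
      rcases List.mem_cons.mp hl with h2 | h2
      · subst h2
        rw [← pr_testBit]
        have h3 : (pr d l) &&& 1 = 0 := Nat.eq_of_beq_eq_true h1
        rw [Nat.and_one_is_mod] at h3
        rw [Nat.testBit_zero, h3]
        rfl
      · exact evCL_spec h l h2

theorem f7_data : ∀ S : Finset (Fin 7), S.card = 5 → ∃ l ∈ F7L, l.Nodup ∧ (∀ r ∈ l, r < 35) ∧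
    (∀ x ∈ S, ∃ r ∈ l, q7 r = S.erase x) ∧ ∀ r ∈ l, ∃ x ∈ S, q7 r = S.erase x := by
  decide +kernel

/-- A function of quadruples is even. -/
def EvF (χ : Finset (Fin 7) → Bool) : Prop :=
  ∀ S : Finset (Fin 7), S.card = 5 → ∑ x ∈ S, bz (χ (S.erase x)) = 0

theorem EvF.xor {χ χ' : Finset (Fin 7) → Bool} (h : EvF χ) (h' : EvF χ') :
    EvF fun T => χ T ^^ χ' T := by
  intro S hS
  have e : ∀ x ∈ S, bz (χ (S.erase x) ^^ χ' (S.erase x)) =
      bz (χ (S.erase x)) + bz (χ' (S.erase x)) := fun x _ => bz_xor _ _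
  rw [Finset.sum_congr rfl e, Finset.sum_add_distrib, h S hS, h' S hS, add_zero]

theorem EvF.comp {χ : Finset (Fin 7) → Bool} (h : EvF χ) (σ : Equiv.Perm (Fin 7)) :
    EvF fun T => χ (T.image σ) := by
  intro S hS
  have h1 := h (S.image σ) (by rw [Finset.card_image_of_injective _ σ.injective, hS])
  rw [Finset.sum_image (fun x _ y _ hxy => σ.injective hxy)] at h1
  rw [← h1]
  refine Finset.sum_congr rfl fun x _ => ?_
  rw [← Finset.image_erase σ.injective]

theorem sum_bz_foldr (d : ℕ) (l : List ℕ) :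
    (l.map fun r => bz (Nat.testBit d r)).sum =
      bz (l.foldr (fun r a => xor (Nat.testBit d r) a) false) := by
  induction l with
  | nil => rfl
  | cons r l ih => rw [List.map_cons, List.sum_cons, ih, List.foldr_cons, bz_xor]

theorem evF_of_evC {d : ℕ} (h : evC d = true) : EvF fun T => decide (T ∈ jset d) := by
  intro S hS
  obtain ⟨l, hl, hnd, h35, h1, h2⟩ := f7_data S hS
  unfold evC at h
  have h3 := evCL_spec h l hl
  have h4 := sum_bz_foldr d l
  rw [h3] at h4
  have h5 : bz false = 0 := rfl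
  rw [h5, ← List.sum_toFinset _ hnd] at h4
  rw [← h4]
  choose! g hg1 hg2 using h1
  refine Finset.sum_bij (fun x _ => g x) ?_ ?_ ?_ ?_
  · intro x hx
    exact List.mem_toFinset.mpr (hg1 x hx)
  · intro x hx y hy hxy
    have h6 := hg2 x hx
    rw [hxy, hg2 y hy] at h6
    by_contra hne
    have : x ∈ S.erase y := Finset.mem_erase.mpr ⟨hne, hx⟩
    rw [h6] at this
    exact absurd this (Finset.notMem_erase x _)
  · intro r hr
    rw [List.mem_toFinset] at hr
    obtain ⟨x, hx, h6⟩ := h2 r hr
    refine ⟨x, hx, ?_⟩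
    apply q7_inj _ (h35 _ (hg1 x hx)) _ (h35 r hr)
    rw [hg2 x hx, h6]
  · intro x hx
    rw [← hg2 x hx]
    congr 1
    rw [Bool.eq_iff_iff, decide_eq_true_iff]
    exact q7_mem_jset d _ (h35 _ (hg1 x hx))

/-- The check of an entry. -/
def cenOK (N n c r e : ℕ) : Bool :=
  @Bool.rec (fun _ => Bool) false
    (@Bool.rec (fun _ => Bool) false (okp (Nat.land e 2097151))
      (evC (Nat.xor (Nat.xor c (Nat.shiftLeft 1 r))
        (pc (Nat.land e 2097151) (lk N (Nat.shiftRight e 21))))))
    (Nat.blt (Nat.shiftRight e 21) n)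

theorem cenOK_spec {N n c r e : ℕ} (h : cenOK N n c r e = true) :
    ∃ c' ∈ lks N n, c' < 2 ^ 35 ∧ ∃ τ, okp τ = true ∧
      evC ((c ^^^ 2 ^ r) ^^^ pc τ c') = true := by
  unfold cenOK at h
  cases h2 : Nat.blt (Nat.shiftRight e 21) n with
  | false =>
    rw [h2] at h
    exact absurd (show false = true from h) Bool.false_ne_true
  | true =>
    rw [h2] at h
    dsimp only at h
    cases h3 : evC (Nat.xor (Nat.xor c (Nat.shiftLeft 1 r))
        (pc (Nat.land e 2097151) (lk N (Nat.shiftRight e 21)))) with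
    | false =>
      rw [h3] at h
      exact absurd (show false = true from h) Bool.false_ne_true
    | true =>
      rw [h3] at h
      dsimp only at h
      refine ⟨_, lk_mem h2, lk_lt _ _, _, h, ?_⟩
      rw [shl_one] at h3
      exact h3

/-- The check of a row of entries. -/
def crwOK (N n c : ℕ) : List ℕ → ℕ → Bool :=
  @List.rec ℕ (fun _ => ℕ → Bool) (fun _ => true)
    (fun e _ ih r => @Bool.rec (fun _ => Bool) false (ih (Nat.succ r)) (cenOK N n c r e))

theorem crwOK_spec {N n c : ℕ} : ∀ (l : List ℕ) (r0 : ℕ), crwOK N n c l r0 = true →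
    ∀ r, r0 ≤ r → r < r0 + l.length →
      ∃ c' ∈ lks N n, c' < 2 ^ 35 ∧ ∃ τ, okp τ = true ∧
        evC ((c ^^^ 2 ^ r) ^^^ pc τ c') = true
  | [], r0, _ => by
    intro r h1 h2
    simp only [List.length_nil] at h2
    omega
  | e :: l, r0, h => by
    have h0 : crwOK N n c (e :: l) r0 = @Bool.rec (fun _ => Bool) false
      (crwOK N n c l (Nat.succ r0)) (cenOK N n c r0 e) := rfl
    rw [h0] at h
    cases h1 : cenOK N n c r0 e with
    | false =>
      rw [h1] at h
      exact absurd (show false = true from h) Bool.false_ne_true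
    | true =>
      rw [h1] at h
      dsimp only at h
      intro r h2 h3
      rcases Nat.eq_or_lt_of_le h2 with h4 | h4
      · subst h4
        exact cenOK_spec h1
      · refine crwOK_spec l (Nat.succ r0) h r h4 ?_
        rw [List.length_cons] at h3
        omega

/-- The checks of the rows of a table of codes. -/
def cosOK (N n : ℕ) : List (List ℕ) → ℕ → Bool :=
  @List.rec (List ℕ) (fun _ => ℕ → Bool) (fun _ => true)
    (fun row _ ih i => @Bool.rec (fun _ => Bool) false
      (@Bool.rec (fun _ => Bool) false (ih (Nat.succ i)) (Nat.beq row.length 35))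
      (crwOK N n (lk N i) row 0))

theorem cosOK_spec {N n : ℕ} : ∀ (rows : List (List ℕ)) (i0 : ℕ),
    cosOK N n rows i0 = true → ∀ i, i0 ≤ i → i < i0 + rows.length → ∀ r < 35,
      ∃ c' ∈ lks N n, c' < 2 ^ 35 ∧ ∃ τ, okp τ = true ∧
        evC ((lk N i ^^^ 2 ^ r) ^^^ pc τ c') = true
  | [], i0, _ => by
    intro i h1 h2
    simp only [List.length_nil] at h2
    omega
  | row :: rows, i0, h => by
    have h0 : cosOK N n (row :: rows) i0 = @Bool.rec (fun _ => Bool) false
      (@Bool.rec (fun _ => Bool) false (cosOK N n rows (Nat.succ i0)) (Nat.beq row.length 35))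
      (crwOK N n (lk N i0) row 0) := rfl
    rw [h0] at h
    cases h1 : crwOK N n (lk N i0) row 0 with
    | false =>
      rw [h1] at h
      exact absurd (show false = true from h) Bool.false_ne_true
    | true =>
      rw [h1] at h
      dsimp only at h
      cases h2 : Nat.beq row.length 35 with
      | false =>
        rw [h2] at h
        exact absurd (show false = true from h) Bool.false_ne_true
      | true =>
        rw [h2] at h
        dsimp only at h
        have hlen := Nat.eq_of_beq_eq_true h2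
        intro i h3 h4 r hr
        rcases Nat.eq_or_lt_of_le h3 with h5 | h5
        · subst h5
          exact crwOK_spec row 0 h1 r (Nat.zero_le _) (by omega)
        · refine cosOK_spec rows (Nat.succ i0) h i h5 ?_ r hr
          rw [List.length_cons] at h4
          omega

/-- Every 4-graph on seven vertices is equivalent to an element of the list, up to an even
4-graph. -/
theorem cos_cov {N n : ℕ} {rows : List (List ℕ)} (hn : rows.length = n) (h0 : lk N 0 = 0)
    (hn0 : Nat.blt 0 n = true) (h : cosOK N n rows 0 = true)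
    (J : Finset (Finset (Fin 7))) (h4 : ∀ T ∈ J, T.card = 4) :
    ∃ c ∈ lks N n, ∃ σ : Equiv.Perm (Fin 7),
      EvF fun T => decide (T ∈ J) ^^ decide (T.image σ ∈ jset c) := by
  induction J using Finset.induction_on with
  | empty =>
    refine ⟨0, by rw [← h0]; exact lk_mem hn0, 1, ?_⟩
    intro S _
    refine Finset.sum_eq_zero fun x _ => ?_
    have e1 : decide (S.erase x ∈ (∅ : Finset (Finset (Fin 7)))) = false := by simp
    have e2 : decide ((S.erase x).image (1 : Equiv.Perm (Fin 7)) ∈ jset 0) = false := by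
      apply decide_eq_false
      rw [mem_jset]
      rintro ⟨r, _, h, _⟩
      rw [Nat.zero_testBit] at h
      exact absurd h (by decide)
    beta_reduce
    rw [e1, e2]
    rfl
  | insert Q J hQ ih =>
    obtain ⟨c, hc, σ, h1⟩ := ih fun T hT => h4 T (Finset.mem_insert_of_mem hT)
    have hQ4 := h4 Q (Finset.mem_insert_self _ _)
    obtain ⟨r, hr, hrQ⟩ := q7_surj (Q.image σ) (by
      rw [Finset.card_image_of_injective _ σ.injective, hQ4])
    rw [lks, List.mem_map] at hc
    obtain ⟨i, hi, hic⟩ := hc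
    rw [List.mem_range] at hi
    obtain ⟨c', hc', hc35, τ, hτ, h2⟩ := cosOK_spec rows 0 h i (Nat.zero_le _) (by omega) r hr
    rw [hic] at h2
    refine ⟨c', hc', σ.trans (pm τ).symm, ?_⟩
    have h3 := (h1.xor ((evF_of_evC h2).comp σ))
    intro S hS
    rw [← h3 S hS]
    refine Finset.sum_congr rfl fun x hx => ?_
    congr 1
    have hT : (S.erase x).card = 4 := by rw [Finset.card_erase_of_mem hx, hS]
    have e1 : (S.erase x).image (σ.trans (pm τ).symm) =
        ((S.erase x).image σ).image (pm τ).symm := by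
      rw [Finset.image_image]
      rfl
    obtain ⟨r', hr', hr'T⟩ := q7_surj ((S.erase x).image σ) (by
      rw [Finset.card_image_of_injective _ σ.injective, hT])
    have e2 : decide ((S.erase x).image (σ.trans (pm τ).symm) ∈ jset c') =
        (pc τ c').testBit r' := by
      rw [e1, Bool.eq_iff_iff, decide_eq_true_iff, ← mem_jset_pc hτ c' hc35, ← hr'T]
      exact q7_mem_jset _ r' hr'
    have e3 : decide ((S.erase x).image σ ∈ jset c) = c.testBit r' := by
      rw [← hr'T, Bool.eq_iff_iff, decide_eq_true_iff]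
      exact q7_mem_jset _ r' hr'
    have e4 : decide ((S.erase x).image σ ∈ jset ((c ^^^ 2 ^ r) ^^^ pc τ c')) =
        ((c.testBit r' ^^ decide (r = r')) ^^ (pc τ c').testBit r') := by
      rw [← hr'T, ← Nat.testBit_two_pow, ← Nat.testBit_xor, ← Nat.testBit_xor, Bool.eq_iff_iff,
        decide_eq_true_iff]
      exact q7_mem_jset _ r' hr'
    have e5 : decide (S.erase x ∈ insert Q J) = (decide (S.erase x ∈ J) ^^ decide (r = r')) := by
      have h5 : r = r' ↔ S.erase x = Q := by
        constructor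
        · intro h6
          subst h6
          exact Finset.image_injective σ.injective (hr'T.symm.trans hrQ)
        · intro h6
          apply q7_inj r hr r' hr'
          rw [hrQ, hr'T, h6]
      by_cases h6 : S.erase x = Q
      · have h7 : r = r' := h5.mpr h6
        rw [decide_eq_true h7, h6, decide_eq_false hQ, decide_eq_true (Finset.mem_insert_self _ _)]
        rfl
      · have h7 : ¬ r = r' := fun h8 => h6 (h5.mp h8)
        rw [decide_eq_false h7, Bool.xor_false]
        apply decide_eq_decide.mpr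
        rw [Finset.mem_insert]
        exact ⟨fun h8 => h8.resolve_left h6, Or.inr⟩
    beta_reduce
    rw [e2, e3, e4, e5]
    cases decide (S.erase x ∈ J) <;> cases c.testBit r' <;> cases decide (r = r') <;>
      cases (pc τ c').testBit r' <;> rfl

namespace PsiSys

variable (S : PsiSys)

/-- The rows of the 4-graphs with a given difference to an even 4-graph. -/
def RowAJ (h' : ∀ {n : ℕ}, Finset (Finset (Fin n)) → (Fin 6 → Fin n) → ℤ)
    (J : Finset (Finset (Fin 7))) : Prop :=
  ∀ (n : ℕ) (H E' : Finset (Finset (Fin n))) (s : Fin 7 → Fin n), Pr H E' s →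
    JD H E' s = J → 0 ≤ S.rowA H s + DS (m := 6) (h' H) s

/-- The rows of all 4-graphs from the rows of the representatives. -/
theorem R1_of_reps (h' : ∀ {n : ℕ}, Finset (Finset (Fin n)) → (Fin 6 → Fin n) → ℤ)
    (hs' : ∀ {n : ℕ} (H : Finset (Finset (Fin n))) (τ : Equiv.Perm (Fin 6)) (p : Fin 6 → Fin n),
      h' H (p ∘ τ) = h' H p)
    {N m : ℕ} {rows : List (List ℕ)} (hn : rows.length = m) (h0 : lk N 0 = 0)
    (hn0 : Nat.blt 0 m = true) (hL : cosOK N m rows 0 = true)
    (hrow : ∀ c ∈ lks N m, S.RowAJ h' (jset c))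
    (n : ℕ) (H : Finset (Finset (Fin n))) (s : Fin 7 → Fin n) (h4 : ∀ e ∈ H, e.card = 4)
    (h5 : ∀ T : Finset (Fin n), T.card = 5 → ∃ e ∈ T.powersetCard 4, e ∉ H)
    (hs : Function.Injective s) : 0 ≤ S.rowA H s + DS (m := 6) (h' H) s := by
  set K : Finset (Finset (Fin 7)) :=
    ((univ : Finset (Fin 7)).powersetCard 4).filter fun T => T.image s ∈ H with hK
  have hK4 : ∀ T ∈ K, T.card = 4 := by
    intro T hT
    rw [hK, Finset.mem_filter, Finset.mem_powersetCard] at hT
    exact hT.1.2
  have hKm : ∀ T : Finset (Fin 7), T.card = 4 → (T ∈ K ↔ T.image s ∈ H) := by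
    intro T hT
    rw [hK, Finset.mem_filter, Finset.mem_powersetCard]
    exact ⟨fun h => h.2, fun h => ⟨⟨Finset.subset_univ _, hT⟩, h⟩⟩
  obtain ⟨c, hc, σ, hev⟩ := cos_cov hn h0 hn0 hL K hK4
  set G : Finset (Finset (Fin (6 + 1))) := ((univ : Finset (Fin (6 + 1))).powersetCard 4).filter
    fun T => (decide (T ∈ K) ^^ decide (T.image σ ∈ jset c)) = true with hG
  have hGm : ∀ T : Finset (Fin (6 + 1)), T.card = 4 →
      (T ∈ G ↔ (decide (T ∈ K) ^^ decide (T.image σ ∈ jset c)) = true) := by
    intro T hT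
    rw [hG, Finset.mem_filter, Finset.mem_powersetCard]
    exact ⟨fun h => h.2, fun h => ⟨⟨Finset.subset_univ _, hT⟩, h⟩⟩
  have hGe : EvenH (6 + 1) G := by
    intro U hU
    rw [even_iff_zmod, card4_filter _ U hU, ← hev U hU]
    refine Finset.sum_congr rfl fun x hx => ?_
    congr 1
    rw [Bool.eq_iff_iff, decide_eq_true_iff]
    exact hGm _ (by rw [Finset.card_erase_of_mem hx, hU])
  obtain ⟨E', hE4, hE, hEm⟩ := exists_even_ext G hGe s hs
  have e2 : ∀ T : Finset (Fin 7), (T.image σ.symm).image σ = T := by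
    intro T
    rw [Finset.image_image]
    have : (σ : Fin 7 → Fin 7) ∘ σ.symm = id := by funext i; simp
    rw [this, Finset.image_id]
  have hJ : JD H E' (s ∘ σ.symm) = jset c := by
    ext T
    by_cases hT : T.card = 4
    · have hT' : (T.image σ.symm).card = 4 := by
        rw [Finset.card_image_of_injective _ σ.symm.injective, hT]
      rw [mem_JD_perm, mem_JD]
      have h6 := hEm _ hT'
      rw [hGm _ hT', e2] at h6
      have h7 := hKm _ hT'
      unfold E
      constructor
      · rintro ⟨_, h8⟩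
        by_contra h9
        apply h8
        rw [decide_eq_false h9, Bool.xor_false, decide_eq_true_iff, h7] at h6
        exact decide_eq_decide.mpr (not_congr h6.symm)
      · intro h8
        refine ⟨hT', fun h9 => ?_⟩
        have h10 := decide_eq_decide.mp h9
        rw [decide_eq_true h8, Bool.xor_true, Bool.not_eq_true', decide_eq_false_iff_not, h7] at h6
        tauto
    · constructor
      · intro h6
        exact absurd (JD_card4 H E' _ T h6) hT
      · intro h6
        exact absurd (jset_card4 c T h6) hT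
  have hfin := hrow c hc n H E' (s ∘ σ.symm)
    ⟨h4, h5, hE4, hE, hs.comp σ.symm.injective⟩ hJ
  rw [S.rowA_perm H s σ.symm, DS_perm (m := 6) (h' H) (fun τ p => hs' H τ p) σ.symm s] at hfin
  exact hfin

/-- The upper bound from the rows of the representatives, the rows of the 4-graphs alone and of the
even 4-graphs alone, and the bound for the function of pairs on six vertices. -/
theorem bound_of_reps (κ6 : Kern 6) (lam : ℝ) (hlam : lam * (35 * S.a) ≤ S.Lo)
    (h h' : ∀ {n : ℕ}, Finset (Finset (Fin n)) → (Fin 6 → Fin n) → ℤ)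
    (hs' : ∀ {n : ℕ} (H : Finset (Finset (Fin n))) (τ : Equiv.Perm (Fin 6)) (p : Fin 6 → Fin n),
      h' H (p ∘ τ) = h' H p)
    (b : ℤ) (hb : 0 ≤ b) (k0 : ℕ) (LL : ℕ → List ℕ) (hcov : ∀ k < k0, CovK k (LL k))
    (hnear : ∀ k < k0, ∀ c ∈ LL k, S.RowJ (jset c))
    {N m : ℕ} {rows : List (List ℕ)} (hn : rows.length = m) (h0 : lk N 0 = 0)
    (hn0 : Nat.blt 0 m = true) (hL : cosOK N m rows 0 = true)
    (hR1 : ∀ c ∈ lks N m, S.RowAJ h' (jset c))
    (R2 : ∀ (n : ℕ) (E' : Finset (Finset (Fin n))) (s : Fin 7 → Fin n),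
      (∀ e ∈ E', e.card = 4) → EvenH n E' → Function.Injective s →
        S.B E' s ≤ DS (m := 6) (h E') s)
    (R3 : ∀ (n : ℕ) (H E' : Finset (Finset (Fin n))) (p : Fin 6 → Fin n),
      (∀ e ∈ H, e.card = 4) →
      (∀ T : Finset (Fin n), T.card = 5 → ∃ e ∈ T.powersetCard 4, e ∉ H) →
      (∀ e ∈ E', e.card = 4) → EvenH n E' → Function.Injective p →
        h E' p + h' H p + b * (7 * ((JD H E' p).card : ℤ) - 3 * (k0 : ℤ)) ≤ S.ψ H E' p)
    (hB : ∀ (n : ℕ) (E' : Finset (Finset (Fin n))), (∀ e ∈ E', e.card = 4) → EvenH n E' →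
      ∀ t : Fin (7 + 1) → Fin n, Function.Injective t →
        PS (κ6.f E') t ≤ DS (m := 7) (S.B E') t) :
    ∀ ε : ℝ, 0 < ε → ∃ N : ℕ, ∀ n : ℕ, N ≤ n → ∀ H : Finset (Finset (Fin n)),
      (∀ e ∈ H, e.card = 4) →
      (∀ T : Finset (Fin n), T.card = 5 → ∃ e ∈ T.powersetCard 4, e ∉ H) →
      (H.card : ℝ) ≤ (1 - lam + ε) * ((n.choose 4 : ℕ) : ℝ) := by
  refine S.bound κ6 lam hlam ?_ hB
  intro n H E' s hP
  rcases Nat.lt_or_ge (JD H E' s).card k0 with hlt | hge
  · exact PsiSys.RowJ.of_cov (hcov _ hlt) (hnear _ hlt) (JD H E' s) (JD_card4 H E' s) rfl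
      n H E' s hP rfl
  · exact S.far h h' b hb k0 (S.R1_of_reps h' hs' hn h0 hn0 hL hR1) R2 R3 H E' s hP hge

end PsiSys

end Pool.Agent.Lib.MP_afdd4d_co.K8
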