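import Pool.Agent.Lib.MP_afdd4d_co.K8.View

/-!
# The sum of all terms in the lanes
-/

namespace Pool.Agent.Lib.MP_afdd4d_co.K8

open Finset

/-! ### Terms as functions of the code -/

/-- The selected bits of a code. -/
def sel (l : List ℕ) (z : ℕ → Bool) (i : ℕ) : Bool := z (l.getD i 0)

theorem idx_sel_congr (n : ℕ) (l : List ℕ) (z z' : ℕ → Bool) (hl : l.all (fun j => decide (j < 35)) = true)
    (hn : n ≤ l.length) (h : ∀ i < 35, z i = z' i) : idx n (sel l z) = idx n (sel l z') := by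
  apply idx_congr
  intro r hr
  unfold sel
  apply h
  rw [List.all_eq_true] at hl
  rw [List.getD_eq_getElem l 0 (lt_of_lt_of_le hr hn)]
  exact of_decide_eq_true (hl _ (List.getElem_mem _))

/-- The bits of the pattern and of the two vertices for the pair `{5, 6}`. -/
def sP : List ℕ := [0, 1, 2, 3, 20, 21, 22, 23, 24, 25]
def sX : List ℕ := [4, 5, 6, 7, 8, 9, 26, 27, 28, 29]
def sY : List ℕ := [10, 11, 12, 13, 14, 15, 30, 31, 32, 33]

/-- The bits for the pair `{6, 7}`. -/
def rP : List ℕ := [0, 1, 2, 3, 4, 5, 6, 7, 8, 9]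
def rX : List ℕ := [10, 11, 12, 13, 14, 15, 16, 17, 18, 19]
def rY : List ℕ := [20, 21, 22, 23, 24, 25, 26, 27, 28, 29]

section terms
variable (G : ℕ → ℕ → ℕ → ℕ) (Q : ℕ → ℕ)

/-- The term of the pair `{5, 6}`. -/
def K1z (z : ℕ → Bool) : ℕ := G (idx 10 (sel sP z)) (idx 10 (sel sX z)) (idx 10 (sel sY z))

/-- The term of the pair `{6, 7}` and of the tuple without the vertex `6`. -/
def Rz (z : ℕ → Bool) : ℕ :=
  G (idx 10 (sel rP z)) (idx 10 (sel rX z)) (idx 10 (sel rY z)) +
    Q (idx 10 (sel rP z) + 1024 * idx 10 (sel rY z))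

/-- The sum of the terms of a word. -/
def fV : List ℕ → (ℕ → Bool) → ℕ
  | [], _ => 0
  | k :: l, z =>
    if k = 10 then fV l z + K1z G z else if k = 11 then fV l z + Rz G Q z else fV l (mvz k z)

theorem K1z_congr (z z' : ℕ → Bool) (h : ∀ i < 35, z i = z' i) : K1z G z = K1z G z' := by
  unfold K1z
  rw [idx_sel_congr 10 sP z z' (by decide) (by decide) h,
    idx_sel_congr 10 sX z z' (by decide) (by decide) h,
    idx_sel_congr 10 sY z z' (by decide) (by decide) h]

theorem Rz_congr (z z' : ℕ → Bool) (h : ∀ i < 35, z i = z' i) : Rz G Q z = Rz G Q z' := by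
  unfold Rz
  rw [idx_sel_congr 10 rP z z' (by decide) (by decide) h,
    idx_sel_congr 10 rX z z' (by decide) (by decide) h,
    idx_sel_congr 10 rY z z' (by decide) (by decide) h]

theorem mvz_congr (k : ℕ) (z z' : ℕ → Bool) (h : ∀ i < 35, z i = z' i) (i : ℕ) :
    mvz k z i = mvz k z' i := lf_congr 35 _ z z' h

theorem fV_congr (l : List ℕ) : ∀ z z' : ℕ → Bool, (∀ i < 35, z i = z' i) →
    fV G Q l z = fV G Q l z' := by
  induction l with
  | nil => intro z z' _; rfl
  | cons k l ih =>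
    intro z z' h
    rw [fV, fV, ih z z' h, K1z_congr G z z' h, Rz_congr G Q z z' h,
      ih (mvz k z) (mvz k z') fun i _ => mvz_congr k z z' h i]

/-- A bound for the sum. -/
theorem fV_le (B1 B2 : ℕ) (hG : ∀ p x y, G p x y ≤ B1) (hQ : ∀ x, Q x ≤ B2) (l : List ℕ) :
    ∀ z, fV G Q l z ≤ l.length * (B1 + B2) := by
  induction l with
  | nil => intro z; simp [fV]
  | cons k l ih =>
    intro z
    rw [fV, List.length_cons]
    have h1 : K1z G z ≤ B1 := hG _ _ _
    have h2 : Rz G Q z ≤ B1 + B2 := Nat.add_le_add (hG _ _ _) (hQ _)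
    split_ifs
    · have := ih z; nlinarith
    · have := ih z; nlinarith
    · have := ih (mvz k z); nlinarith

end terms

/-! ### Arrays -/

/-- The program that brings the ten bits of a row to their places. -/
def rwP : List (ℕ × ℕ × ℕ) :=
  [(1, 0, 6), (1, 1, 7), (1, 2, 8), (1, 3, 9), (1, 4, 8), (1, 5, 9), (1, 6, 8), (1, 7, 9),
   (0, 4, 0), (0, 5, 0), (0, 6, 0), (0, 7, 0), (0, 14, 0)]

theorem rwP_data : okR rwP 10 = true ∧ ndG rwP 10 = 15 ∧
    ∀ r < 10, syG rwP 10 r = 2 ^ (lai.getD r 0 + 1) ∧ lai.getD r 0 < 15 := by decide +kernel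

/-- The array of the sum of the terms of a word. -/
def arG (W : ℕ) (tab row : ℕ → ℕ) (l : List ℕ) : ℕ → ℕ :=
  @List.rec ℕ (fun _ => ℕ → ℕ) (fun _ => 0)
    (fun k _ ih c =>
      @Bool.rec (fun _ => ℕ)
        (@Bool.rec (fun _ => ℕ) (mvG W k c (ih (bsG k c)))
          (Nat.add (ih c) (ruG W rwP 10 (row c))) (Nat.beq k 11))
        (Nat.add (ih c) (dpG W 14 (tab c))) (Nat.beq k 10)) l

section arrays
variable {W : ℕ} (G : ℕ → ℕ → ℕ → ℕ) (Q : ℕ → ℕ) (tab row : ℕ → ℕ)

theorem rw_ar {A : ℕ} {f : (ℕ → Bool) → ℕ} (hW : 0 < W) (hA : Ar W 10 A f) :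
    Ar W 15 (ruG W rwP 10 A) fun b => f fun r => b (lai.getD r 0) := by
  obtain ⟨h1, h2, h3⟩ := rwP_data
  have h4 := ruG_ar hW rwP 10 A f h1 hA
  rw [h2] at h4
  refine h4.congr fun b => ?_
  apply hA.dep
  intro r hr
  obtain ⟨h5, h6⟩ := h3 r hr
  rw [seG_eq 15 b rwP 10 h1 (by rw [h2]) r hr, h5, lf_two_pow, decide_eq_true h6, Bool.true_and]

theorem Rz_mkz (c : ℕ) (hc : c < 2 ^ 20) (b : ℕ → Bool) :
    Rz G Q (mkz c b) = G (c % 1024) (c / 1024) (idx 10 fun r => b (lai.getD r 0)) +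
      Q (c % 1024 + 1024 * idx 10 fun r => b (lai.getD r 0)) := by
  have h1 : idx 10 (sel rP (mkz c b)) = c % 1024 := by
    have e1 : ∀ r < 10, rP.getD r 0 = r := by decide
    rw [← idx_testBit 10 (c % 1024) (Nat.mod_lt _ (by norm_num))]
    apply idx_congr
    intro r hr
    rw [sel, e1 r hr, mkz, if_pos (by omega), show (1024 : ℕ) = 2 ^ 10 from rfl,
      Nat.testBit_mod_two_pow, decide_eq_true hr, Bool.true_and]
  have h2 : idx 10 (sel rX (mkz c b)) = c / 1024 := by
    have e1 : ∀ r < 10, rX.getD r 0 = 10 + r := by decide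
    rw [← idx_testBit 10 (c / 1024) (by omega)]
    apply idx_congr
    intro r hr
    rw [sel, e1 r hr, mkz, if_pos (by omega), show (1024 : ℕ) = 2 ^ 10 from rfl,
      Nat.testBit_div_two_pow, add_comm]
  have h3 : idx 10 (sel rY (mkz c b)) = idx 10 fun r => b (lai.getD r 0) := by
    have e1 : ∀ r < 10, rY.getD r 0 = 20 + r := by decide
    apply idx_congr
    intro r hr
    rw [sel, e1 r hr, mkz, if_neg (by omega), Nat.add_sub_cancel_left]
  unfold Rz
  rw [h1, h2, h3]

theorem arG_ar (hW : 0 < W) (B1 B2 : ℕ) (hG : ∀ p x y, G p x y ≤ B1) (hQ : ∀ x, Q x ≤ B2)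
    (htab : ∀ c < 2 ^ 20, Ar W 14 (tab c) fun b => K1z G (mkz c b))
    (hrow : ∀ c < 2 ^ 20, Ar W 10 (row c) fun b => G (c % 1024) (c / 1024) (idx 10 b) +
      Q (c % 1024 + 1024 * idx 10 b))
    (N : ℕ) (hN : N * (B1 + B2) < 2 ^ W) (l : List ℕ) (hk : ∀ k ∈ l, k < 12) :
    l.length ≤ N → ∀ c < 2 ^ 20, Ar W 15 (arG W tab row l c) fun b => fV G Q l (mkz c b) := by
  induction l with
  | nil =>
    intro _ c _
    exact ar_zero (W := W) 15
  | cons k l ih =>
    intro hl c hc
    rw [List.length_cons] at hl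
    have ih' := ih (fun k' hk' => hk k' (List.mem_cons_of_mem _ hk')) (by omega)
    have hkk := hk k List.mem_cons_self
    have hle := fV_le G Q B1 B2 hG hQ
    have hlt : ∀ z, fV G Q l z + (B1 + B2) < 2 ^ W := by
      intro z
      have h1 := hle l z
      have h2 : (l.length + 1) * (B1 + B2) ≤ N * (B1 + B2) := Nat.mul_le_mul_right _ hl
      have h3 : (l.length + 1) * (B1 + B2) = l.length * (B1 + B2) + (B1 + B2) := by ring
      omega
    have e0 : arG W tab row (k :: l) c = @Bool.rec (fun _ => ℕ)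
        (@Bool.rec (fun _ => ℕ) (mvG W k c (arG W tab row l (bsG k c)))
          (Nat.add (arG W tab row l c) (ruG W rwP 10 (row c))) (Nat.beq k 11))
        (Nat.add (arG W tab row l c) (dpG W 14 (tab c))) (Nat.beq k 10) := rfl
    have e1 : ∀ b, fV G Q (k :: l) (mkz c b) = if k = 10 then fV G Q l (mkz c b) + K1z G (mkz c b)
        else if k = 11 then fV G Q l (mkz c b) + Rz G Q (mkz c b) else fV G Q l (mvz k (mkz c b)) :=
      fun _ => rfl
    rw [e0]
    by_cases h10 : k = 10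
    · subst h10
      have h1 := (ih' c hc).add (dpG_ar hW (htab c hc)) hW (fun b => by
        have h2 := hlt (mkz c b)
        have h3 : K1z G (mkz c b) ≤ B1 := hG _ _ _
        omega)
      exact h1.congr fun b => by rw [e1, if_pos rfl]
    · have hb10 : Nat.beq k 10 = false := by
        rw [Bool.eq_false_iff]
        exact fun h => h10 (Nat.eq_of_beq_eq_true h)
      rw [hb10]
      by_cases h11 : k = 11
      · subst h11
        have h1 := (ih' c hc).add (rw_ar hW (hrow c hc)) hW (fun b => by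
          have h2 := hlt (mkz c b)
          have h3 : Rz G Q (mkz c b) ≤ B1 + B2 := Nat.add_le_add (hG _ _ _) (hQ _)
          rw [Rz_mkz G Q c hc b] at h3
          omega)
        exact h1.congr fun b => by rw [e1, if_neg (by norm_num), if_pos rfl, Rz_mkz G Q c hc b]
      · have hb11 : Nat.beq k 11 = false := by
          rw [Bool.eq_false_iff]
          exact fun h => h11 (Nat.eq_of_beq_eq_true h)
        rw [hb11]
        have hk10 : k < 10 := by omega
        have h1 := mvG_ar (c := c) hW hk10 (ih' (bsG k c) (bsG_lt k c hk10))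
        refine h1.congr fun b => ?_
        rw [e1, if_neg h10, if_neg h11]
        exact (fV_congr G Q l _ _ (mvz_mkz k c hk10 b)).symm

/-! ### The comparison -/

/-- Whether all lanes are at most `K`. -/
def leG (W n K A : ℕ) : Bool :=
  Nat.beq (Nat.land (Nat.sub (csG W (Nat.add (Nat.pow 2 (Nat.sub W 1)) K) n) A)
    (csG W (Nat.pow 2 (Nat.sub W 1)) n)) (csG W (Nat.pow 2 (Nat.sub W 1)) n)

theorem and_two_pow (x k : ℕ) : x &&& 2 ^ k = if x.testBit k = true then 2 ^ k else 0 := by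
  apply Nat.eq_of_testBit_eq
  intro i
  rw [Nat.testBit_and, Nat.testBit_two_pow]
  by_cases h : k = i
  · subst h
    by_cases h2 : x.testBit k = true
    · rw [if_pos h2, h2, Nat.testBit_two_pow]; simp
    · rw [if_neg h2, Nat.zero_testBit, Bool.eq_false_of_not_eq_true h2]; simp
  · have : decide (k = i) = false := by simpa using h
    rw [this, Bool.and_false]
    split_ifs
    · rw [Nat.testBit_two_pow, this]
    · rw [Nat.zero_testBit]

theorem leG_le {W n K A : ℕ} {f : (ℕ → Bool) → ℕ} (hW : 1 < W) (hA : Ar W n A f)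
    (hK : K < 2 ^ (W - 1)) (hf : ∀ b, f b < 2 ^ (W - 1)) (h : leG W n K A = true) (b : ℕ → Bool) :
    f b ≤ K := by
  have hW0 : 0 < W := by omega
  have h2W : 2 ^ W = 2 ^ (W - 1) + 2 ^ (W - 1) := by
    obtain ⟨k, rfl⟩ : ∃ k, W = k + 1 := ⟨W - 1, by omega⟩
    rw [Nat.add_sub_cancel, pow_succ]; ring
  have h1 : Ar W n (csG W (2 ^ (W - 1) + K) n) fun _ => 2 ^ (W - 1) + K :=
    csG_ar hW0 (by omega) n
  have h2 : Ar W n (csG W (2 ^ (W - 1)) n) fun _ => 2 ^ (W - 1) := csG_ar hW0 (by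
    have := Nat.two_pow_pos (W - 1)
    omega) n
  have h3 := h1.sub hA hW0 (fun b => by have := hf b; omega)
  have h4 : (csG W (2 ^ (W - 1) + K) n - A) &&& (csG W (2 ^ (W - 1)) n) =
      csG W (2 ^ (W - 1)) n := Nat.eq_of_beq_eq_true h
  have h5 : Ln W ((csG W (2 ^ (W - 1) + K) n - A) &&& (csG W (2 ^ (W - 1)) n)) (idx n b) =
      Ln W (csG W (2 ^ (W - 1)) n) (idx n b) := by rw [h4]
  rw [Ln_and, h3.get, h2.get, and_two_pow] at h5
  by_contra hlt
  push Not at hlt
  have h6 : (2 ^ (W - 1) + K - f b).testBit (W - 1) = false := by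
    apply Nat.testBit_lt_two_pow
    omega
  rw [h6, if_neg (by decide)] at h5
  have := Nat.two_pow_pos (W - 1)
  omega

end arrays

end Pool.Agent.Lib.MP_afdd4d_co.K8
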