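import Pool.Agent.Lib.MP_afdd4d_co.K8.VPrg
import Pool.Agent.Lib.MP_afdd4d_co.K8.View2
import Pool.Agent.Lib.MP_afdd4d_co.K8.PsiCov

/-!
# Arrays of affine forms and comparisons of arrays
-/

namespace Pool.Agent.Lib.MP_afdd4d_co.K8

open Finset

/-! ### The array of an affine form -/

/-- The array of the values of an affine form. -/
def lfG (W m : ℕ) : ℕ → ℕ := @Nat.rec (fun _ => ℕ) (bt m 0)
  (fun n ih => Nat.add ih (Nat.shiftLeft (@Bool.rec (fun _ => ℕ) ih
    (Nat.sub (csG W 1 n) ih) (Nat.beq (bt m (Nat.succ n)) 1)) (Nat.mul W (Nat.pow 2 n))))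

theorem beq_bt (m i : ℕ) : Nat.beq (bt m i) 1 = m.testBit i := by
  rw [bt_eq]
  cases m.testBit i <;> rfl

theorem lfG_ar {W : ℕ} (hW : 0 < W) (m n : ℕ) :
    Ar W n (lfG W m n) fun b => (lf n m b).toNat := by
  have h1W : 1 < 2 ^ W := Nat.one_lt_two_pow (by omega)
  induction n with
  | zero =>
    have h : lfG W m 0 = (m.testBit 0).toNat := bt_eq m 0
    rw [h]
    refine (Ar.ofLt ?_).congr fun b => rfl
    cases m.testBit 0
    · rw [Bool.toNat_false]; omega
    · rw [Bool.toNat_true]; omega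
  | succ n ih =>
    have h : lfG W m (n + 1) = lfG W m n + (@Bool.rec (fun _ => ℕ) (lfG W m n)
      (Nat.sub (csG W 1 n) (lfG W m n)) (Nat.beq (bt m (n + 1)) 1)) <<< (W * 2 ^ n) := rfl
    rw [h, beq_bt]
    have h2 := (csG_ar hW h1W n).sub ih hW (fun b => by cases lf n m b <;> decide)
    cases hb : m.testBit (n + 1)
    · refine (ih.cat ih hW).congr fun b => ?_
      rw [lf, hb, Bool.false_and, Bool.xor_false]
      split_ifs <;> rfl
    · refine (ih.cat h2 hW).congr fun b => ?_
      rw [lf, hb, Bool.true_and]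
      cases b n <;> cases lf n m b <;> rfl

/-! ### Bitwise operations -/

theorem Ar.and {W n A B : ℕ} {f g : (ℕ → Bool) → ℕ} (hA : Ar W n A f) (hB : Ar W n B g) :
    Ar W n (A &&& B) fun b => f b &&& g b :=
  ⟨lt_of_le_of_lt Nat.and_le_left hA.lt, fun b => by rw [Ln_and, hA.get, hB.get]⟩

theorem toNat_and (a b : Bool) : a.toNat &&& b.toNat = (a && b).toNat := by
  cases a <;> cases b <;> rfl

theorem toNat_or (a b : Bool) : a.toNat ||| b.toNat = (a || b).toNat := by
  cases a <;> cases b <;> rfl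

/-! ### Comparison of two arrays -/

/-- Whether all lanes of `A` are at most the lanes of `B`. -/
def leL (W n A B : ℕ) : Bool :=
  Nat.beq (Nat.land (Nat.sub (Nat.add B (csG W (Nat.pow 2 (Nat.sub W 1)) n)) A)
    (csG W (Nat.pow 2 (Nat.sub W 1)) n)) (csG W (Nat.pow 2 (Nat.sub W 1)) n)

theorem leL_le {W n A B : ℕ} {f g : (ℕ → Bool) → ℕ} (hW : 1 < W) (hA : Ar W n A f)
    (hB : Ar W n B g) (hf : ∀ b, f b < 2 ^ (W - 1)) (hg : ∀ b, g b < 2 ^ (W - 1))
    (h : leL W n A B = true) (b : ℕ → Bool) : f b ≤ g b := by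
  have hW0 : 0 < W := by omega
  have h2W : 2 ^ W = 2 ^ (W - 1) + 2 ^ (W - 1) := by
    obtain ⟨k, rfl⟩ : ∃ k, W = k + 1 := ⟨W - 1, by omega⟩
    rw [Nat.add_sub_cancel, pow_succ]; ring
  have h2 : Ar W n (csG W (2 ^ (W - 1)) n) fun _ => 2 ^ (W - 1) := csG_ar hW0 (by
    have := Nat.two_pow_pos (W - 1)
    omega) n
  have h1 := hB.add h2 hW0 (fun b => by have := hg b; omega)
  have h3 := h1.sub hA hW0 (fun b => by have := hf b; omega)
  have h4 : ((B + csG W (2 ^ (W - 1)) n) - A) &&& (csG W (2 ^ (W - 1)) n) =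
      csG W (2 ^ (W - 1)) n := Nat.eq_of_beq_eq_true h
  have h5 : Ln W (((B + csG W (2 ^ (W - 1)) n) - A) &&& (csG W (2 ^ (W - 1)) n)) (idx n b) =
      Ln W (csG W (2 ^ (W - 1)) n) (idx n b) := by rw [h4]
  rw [Ln_and, h3.get, h2.get, and_two_pow] at h5
  by_contra hlt
  push Not at hlt
  have h6 : (g b + 2 ^ (W - 1) - f b).testBit (W - 1) = false := by
    have h7 := hf b
    have h8 := hg b
    apply Nat.testBit_lt_two_pow
    omega
  rw [h6, if_neg (by decide)] at h5
  have := Nat.two_pow_pos (W - 1)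
  omega

/-! ### A conditional comparison -/

/-- Whether bit `39` of a lane is set if bit `47` is set. -/
def impG (n A : ℕ) : Bool :=
  Nat.beq (Nat.land (Nat.shiftRight A 8) (Nat.land A (csG 64 549755813888 n)))
    (Nat.land (Nat.shiftRight A 8) (csG 64 549755813888 n))

theorem testBit_lane (A i j : ℕ) (hj : j < 64) : (Ln 64 A i).testBit j = A.testBit (64 * i + j) := by
  unfold Ln
  rw [Nat.testBit_mod_two_pow, decide_eq_true hj, Bool.true_and, Nat.testBit_div_two_pow,
    add_comm]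

theorem impG_spec {n A : ℕ} {f : (ℕ → Bool) → ℕ} (hA : Ar 64 n A f) (h : impG n A = true)
    (b : ℕ → Bool) (h47 : (f b).testBit 47 = true) : (f b).testBit 39 = true := by
  have h1 : (A >>> 8) &&& (A &&& csG 64 549755813888 n) = (A >>> 8) &&& csG 64 549755813888 n :=
    Nat.eq_of_beq_eq_true h
  have hM := csG_ar (W := 64) (c := 549755813888) (by norm_num) (by norm_num) n
  have h2 : ((A >>> 8) &&& (A &&& csG 64 549755813888 n)).testBit (64 * idx n b + 39) =
      ((A >>> 8) &&& csG 64 549755813888 n).testBit (64 * idx n b + 39) := by rw [h1]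
  rw [Nat.testBit_and, Nat.testBit_and, Nat.testBit_and, Nat.testBit_shiftRight] at h2
  have h3 : (csG 64 549755813888 n).testBit (64 * idx n b + 39) = true := by
    rw [← testBit_lane _ _ _ (by norm_num), hM.get]
    decide
  have h4 : A.testBit (8 + (64 * idx n b + 39)) = true := by
    have e : 8 + (64 * idx n b + 39) = 64 * idx n b + 47 := by ring
    rw [e, ← testBit_lane _ _ _ (by norm_num), hA.get]
    exact h47
  rw [h3, h4, Bool.true_and, Bool.and_true, Bool.and_true, ← testBit_lane _ _ _ (by norm_num),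
    hA.get] at h2
  exact h2

end Pool.Agent.Lib.MP_afdd4d_co.K8
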