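import Pool.Agent.Lib.MP_afdd4d_co.K8.PsiCov

/-!
# The rows of the far pairs, with a function of the difference

The lower bound for the function of pairs on six vertices contains a function of the difference, and
the rows of the 4-graphs contain a constant for every class of 4-graphs up to even 4-graphs.
-/

namespace Pool.Agent.Lib.MP_afdd4d_co.K8

open Finset

/-- The restriction of a 4-graph to all positions but one. -/
def rst {m : ℕ} (J : Finset (Finset (Fin (m + 1)))) (x : Fin (m + 1)) : Finset (Finset (Fin m)) :=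
  ((univ : Finset (Fin m)).powersetCard 4).filter fun T => T.image x.succAbove ∈ J

theorem JD_rst {n m : ℕ} (H E' : Finset (Finset (Fin n))) (s : Fin (m + 1) → Fin n)
    (x : Fin (m + 1)) : JD H E' (s ∘ x.succAbove) = rst (JD H E' s) x := by
  ext T
  unfold rst
  rw [Finset.mem_filter, Finset.mem_powersetCard, mem_JD, mem_JD, E_comp, E_comp,
    Finset.card_image_of_injective _ Fin.succAbove_right_injective]
  constructor
  · rintro ⟨h1, h2⟩
    exact ⟨⟨Finset.subset_univ _, h1⟩, h1, h2⟩
  · rintro ⟨_, h1, h2⟩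
    exact ⟨h1, h2⟩

namespace PsiSys

variable (S : PsiSys)

/-- The rows of the 4-graphs of a class. -/
def RowRJ (h' : ∀ {n : ℕ}, Finset (Finset (Fin n)) → (Fin 6 → Fin n) → ℤ) (ρ : ℤ)
    (J : Finset (Finset (Fin 7))) : Prop :=
  ∀ (n : ℕ) (H E' : Finset (Finset (Fin n))) (s : Fin 7 → Fin n), Pr H E' s →
    JD H E' s = J → ρ ≤ S.rowA H s + DS (m := 6) (h' H) s

/-- The inequalities for the differences of a class. -/
def SigJ (sg : Finset (Finset (Fin 6)) → ℤ) (ρ : ℤ) (k0 c : ℕ) : Prop :=
  ∀ J : Finset (Finset (Fin 7)), (∀ T ∈ J, T.card = 4) →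
    EvF (fun T => decide (T ∈ J) ^^ decide (T ∈ jset c)) → k0 ≤ J.card →
      0 ≤ ∑ x : Fin 7, sg (rst (m := 6) J x) + ρ

/-- The far pairs. -/
theorem far_rho (h h' : ∀ {n : ℕ}, Finset (Finset (Fin n)) → (Fin 6 → Fin n) → ℤ)
    (sg : Finset (Finset (Fin 6)) → ℤ) (ρ : ℕ → ℤ) (k0 : ℕ)
    {N m : ℕ} {rows : List (List ℕ)} (hn : rows.length = m) (h0 : lk N 0 = 0)
    (hn0 : Nat.blt 0 m = true) (hL : cosOK N m rows 0 = true)
    (R1 : ∀ c ∈ lks N m, S.RowRJ h' (ρ c) (jset c))
    (R2 : ∀ (n : ℕ) (E' : Finset (Finset (Fin n))) (s : Fin 7 → Fin n),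
      (∀ e ∈ E', e.card = 4) → EvenH n E' → Function.Injective s →
        S.B E' s ≤ DS (m := 6) (h E') s)
    (R3 : ∀ (n : ℕ) (H E' : Finset (Finset (Fin n))) (p : Fin 6 → Fin n),
      (∀ e ∈ H, e.card = 4) →
      (∀ T : Finset (Fin n), T.card = 5 → ∃ e ∈ T.powersetCard 4, e ∉ H) →
      (∀ e ∈ E', e.card = 4) → EvenH n E' → Function.Injective p →
        h E' p + h' H p + sg (JD H E' p) ≤ S.ψ H E' p)
    (R4 : ∀ c ∈ lks N m, SigJ sg (ρ c) k0 c)
    {n : ℕ} (H E' : Finset (Finset (Fin n))) (s : Fin 7 → Fin n) (hP : Pr H E' s)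
    (hfar : k0 ≤ (JD H E' s).card) : 0 ≤ S.row H E' s := by
  obtain ⟨c, hc, σ, hev⟩ := cos_cov hn h0 hn0 hL (JD H E' s) (JD_card4 H E' s)
  -- the permuted tuple
  have e2 : ∀ T : Finset (Fin 7), (T.image σ.symm).image σ = T := by
    intro T
    rw [Finset.image_image]
    have : (σ : Fin 7 → Fin 7) ∘ σ.symm = id := by funext i; simp
    rw [this, Finset.image_id]
  have e3 : ∀ T : Finset (Fin 7), (T.image σ).image σ.symm = T := by
    intro T
    rw [Finset.image_image]
    have : (σ.symm : Fin 7 → Fin 7) ∘ σ = id := by funext i; simp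
    rw [this, Finset.image_id]
  set s' : Fin 7 → Fin n := s ∘ σ.symm with hs'
  have hP' : Pr H E' s' := hP.comp σ.symm
  set J : Finset (Finset (Fin 7)) := JD H E' s' with hJ
  have hJm : ∀ T : Finset (Fin 7), T ∈ J ↔ T.image σ.symm ∈ JD H E' s := by
    intro T
    rw [hJ, hs', mem_JD_perm]
  have hJc : J.card = (JD H E' s).card := by
    have h1 : J = (JD H E' s).image fun T => T.image σ := by
      ext T
      rw [hJm, Finset.mem_image]
      constructor
      · intro h
        exact ⟨_, h, e2 T⟩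
      · rintro ⟨U, hU, rfl⟩
        rw [e3]
        exact hU
    rw [h1, Finset.card_image_of_injective _ (Finset.image_injective σ.injective)]
  have hJe : EvF fun T => decide (T ∈ J) ^^ decide (T ∈ jset c) := by
    have h1 := hev.comp σ.symm
    intro U hU
    rw [← h1 U hU]
    refine Finset.sum_congr rfl fun x _ => ?_
    beta_reduce
    rw [e2, decide_eq_decide.mpr (hJm (U.erase x))]
  have r4 := R4 c hc J (JD_card4 H E' s') hJe (by rw [hJc]; exact hfar)
  -- the even 4-graph with the difference `c`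
  obtain ⟨h4, h5, hE4, hE, hs⟩ := hP'
  set G : Finset (Finset (Fin (6 + 1))) := ((univ : Finset (Fin (6 + 1))).powersetCard 4).filter
    fun T => (!(E H s' T) ^^ decide (T ∈ jset c)) = true with hG
  have hGm : ∀ T : Finset (Fin (6 + 1)), T.card = 4 →
      (T ∈ G ↔ (!(E H s' T) ^^ decide (T ∈ jset c)) = true) := by
    intro T hT
    rw [hG, Finset.mem_filter, Finset.mem_powersetCard]
    exact ⟨fun h => h.2, fun h => ⟨⟨Finset.subset_univ _, hT⟩, h⟩⟩
  have hGe : EvenH (6 + 1) G := by
    intro U hU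
    rw [even_iff_zmod, card4_filter _ U hU]
    have h6 : ∀ x ∈ U, bz (decide (U.erase x ∈ G)) =
        bz (decide (U.erase x ∈ J) ^^ decide (U.erase x ∈ jset c)) +
          bz (decide ((U.erase x).image s' ∈ E')) := by
      intro x hx
      have hT : (U.erase x).card = 4 := by rw [Finset.card_erase_of_mem hx, hU]
      rw [← bz_xor]
      congr 1
      have h7 : decide (U.erase x ∈ G) = (!(E H s' (U.erase x)) ^^ decide (U.erase x ∈ jset c)) := by
        rw [Bool.eq_iff_iff, decide_eq_true_iff]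
        exact hGm _ hT
      have h8 : decide (U.erase x ∈ J) = (E H s' (U.erase x) ^^ E E' s' (U.erase x)) := by
        rw [Bool.eq_iff_iff, decide_eq_true_iff, hJ, mem_JD]
        constructor
        · rintro ⟨_, h9⟩
          revert h9
          cases E H s' (U.erase x) <;> cases E E' s' (U.erase x) <;> simp
        · intro h9
          refine ⟨hT, ?_⟩
          revert h9
          cases E H s' (U.erase x) <;> cases E E' s' (U.erase x) <;> simp
      have h9 : decide ((U.erase x).image s' ∈ E') = !(E E' s' (U.erase x)) := by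
        unfold E
        rw [decide_not, Bool.not_not]
      rw [h7, h8, h9]
      cases E H s' (U.erase x) <;> cases E E' s' (U.erase x) <;>
        cases decide (U.erase x ∈ jset c) <;> rfl
    rw [Finset.sum_congr rfl h6, Finset.sum_add_distrib, hJe U hU, zero_add]
    -- the even 4-graph on the image of the five-set
    have h7 := (even_iff_zmod _).mp (hE (U.image s') (by
      rw [Finset.card_image_of_injective _ hs, hU]))
    rw [card4_filter _ _ (by rw [Finset.card_image_of_injective _ hs, hU]),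
      Finset.sum_image (fun x _ y _ hxy => hs hxy)] at h7
    rw [← h7]
    refine Finset.sum_congr rfl fun x _ => ?_
    rw [← Finset.image_erase hs]
  obtain ⟨E'', hE4', hE'', hEm⟩ := exists_even_ext G hGe s' hs
  have hJ'' : JD H E'' s' = jset c := by
    ext T
    by_cases hT : T.card = 4
    · rw [mem_JD]
      have h6 := hEm T hT
      rw [hGm T hT] at h6
      have h7 : E E'' s' T = !(decide (T.image s' ∈ E'')) := by
        unfold E
        rw [decide_not]
      have h8 : decide (T.image s' ∈ E'') = (!(E H s' T) ^^ decide (T ∈ jset c)) := by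
        rw [Bool.eq_iff_iff, decide_eq_true_iff]
        exact h6
      rw [h7, h8]
      by_cases h9 : T ∈ jset c
      · rw [decide_eq_true h9]
        constructor
        · intro _; exact h9
        · intro _
          refine ⟨hT, ?_⟩
          cases E H s' T <;> decide
      · rw [decide_eq_false h9]
        constructor
        · rintro ⟨_, h10⟩
          exfalso
          apply h10
          cases E H s' T <;> rfl
        · intro h10
          exact absurd h10 h9
    · constructor
      · intro h6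
        exact absurd (JD_card4 H E'' _ T h6) hT
      · intro h6
        exact absurd (jset_card4 c T h6) hT
  have r1 := R1 c hc n H E'' s' ⟨h4, h5, hE4', hE'', hs⟩ hJ''
  have r2 := R2 n E' s' hE4 hE hs
  have r3 : DS (m := 6) (h E') s' + DS (m := 6) (h' H) s' +
      DS (m := 6) (fun p => sg (JD H E' p)) s' ≤ DS (m := 6) (S.ψ H E') s' := by
    unfold DS
    rw [← Finset.sum_add_distrib, ← Finset.sum_add_distrib]
    exact Finset.sum_le_sum fun x _ => R3 n H E' (s' ∘ x.succAbove) h4 h5 hE4 hE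
      (hs.comp Fin.succAbove_right_injective)
  have r5 : DS (m := 6) (fun p => sg (JD H E' p)) s' = ∑ x : Fin 7, sg (rst (m := 6) J x) := by
    unfold DS
    refine Finset.sum_congr rfl fun x _ => ?_
    exact congrArg sg (JD_rst H E' s' x)
  rw [r5] at r3
  have r6 : S.row H E' s = S.row H E' s' := (S.row_perm H E' s σ.symm).symm
  rw [r6]
  unfold row
  linarith

/-- The upper bound from the rows of the representatives. -/
theorem bound_of_reps_rho (κ6 : Kern 6) (lam : ℝ) (hlam : lam * (35 * S.a) ≤ S.Lo)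
    (h h' : ∀ {n : ℕ}, Finset (Finset (Fin n)) → (Fin 6 → Fin n) → ℤ)
    (sg : Finset (Finset (Fin 6)) → ℤ) (ρ : ℕ → ℤ) (k0 : ℕ)
    (LL : ℕ → List ℕ) (hcov : ∀ k < k0, CovK k (LL k))
    (hnear : ∀ k < k0, ∀ c ∈ LL k, S.RowJ (jset c))
    {N m : ℕ} {rows : List (List ℕ)} (hn : rows.length = m) (h0 : lk N 0 = 0)
    (hn0 : Nat.blt 0 m = true) (hL : cosOK N m rows 0 = true)
    (R1 : ∀ c ∈ lks N m, S.RowRJ h' (ρ c) (jset c))
    (R2 : ∀ (n : ℕ) (E' : Finset (Finset (Fin n))) (s : Fin 7 → Fin n),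
      (∀ e ∈ E', e.card = 4) → EvenH n E' → Function.Injective s →
        S.B E' s ≤ DS (m := 6) (h E') s)
    (R3 : ∀ (n : ℕ) (H E' : Finset (Finset (Fin n))) (p : Fin 6 → Fin n),
      (∀ e ∈ H, e.card = 4) →
      (∀ T : Finset (Fin n), T.card = 5 → ∃ e ∈ T.powersetCard 4, e ∉ H) →
      (∀ e ∈ E', e.card = 4) → EvenH n E' → Function.Injective p →
        h E' p + h' H p + sg (JD H E' p) ≤ S.ψ H E' p)
    (R4 : ∀ c ∈ lks N m, SigJ sg (ρ c) k0 c)
    (hB : ∀ (n : ℕ) (E' : Finset (Finset (Fin n))), (∀ e ∈ E', e.card = 4) → EvenH n E' →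
      ∀ t : Fin (7 + 1) → Fin n, Function.Injective t →
        PS (κ6.f E') t ≤ DS (m := 7) (S.B E') t) :
    ∀ ε : ℝ, 0 < ε → ∃ N : ℕ, ∀ n : ℕ, N ≤ n → ∀ H : Finset (Finset (Fin n)),
      (∀ e ∈ H, e.card = 4) →
      (∀ T : Finset (Fin n), T.card = 5 → ∃ e ∈ T.powersetCard 4, e ∉ H) →
      (H.card : ℝ) ≤ (1 - lam + ε) * ((n.choose 4 : ℕ) : ℝ) := by
  refine S.bound κ6 lam hlam ?_ hB
  intro n H E' s hP
  rcases Nat.lt_or_ge (JD H E' s).card k0 with hlt | hge
  · exact PsiSys.RowJ.of_cov (hcov _ hlt) (hnear _ hlt) (JD H E' s) (JD_card4 H E' s) rfl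
      n H E' s hP rfl
  · exact S.far_rho h h' sg ρ k0 hn h0 hn0 hL R1 R2 R3 R4 H E' s hP hge

end PsiSys

end Pool.Agent.Lib.MP_afdd4d_co.K8
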