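import Pool.Agent.Lib.MP_afdd4d_co.K8.JE
import Pool.Agent.Lib.MP_afdd4d_co.K8.PsiRho
import Pool.Agent.Lib.MP_afdd4d_co.K8.PsiLf

/-!
# The mask of the 4-graphs without complete five-sets
-/

namespace Pool.Agent.Lib.MP_afdd4d_co.K8

open Finset

/-! ### Six vertices -/

/-- The forms of the fifteen quadruples. -/
def FX : List ℕ := [2, 4, 8, 16, 30, 32, 64, 128, 226, 256, 512, 804, 1024, 1352, 1680]

theorem FX_eq : ∀ r < 15, FX.getD r 0 = Og.exF6 (q6 6 r) := by decide +kernel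

/-- The quadruples of the six five-sets. -/
def K5L : List (List ℕ) := [[4, 8, 11, 13, 14], [3, 7, 10, 12, 14], [2, 6, 9, 12, 13],
  [1, 5, 9, 10, 11], [0, 5, 6, 7, 8], [0, 1, 2, 3, 4]]

theorem K5L_data : ∀ i < 6, ((K5L.getD i []).length = 5) ∧
    (∀ r ∈ K5L.getD i [], r < 15) ∧ ∃ S : Finset (Fin 6), S.card = 5 ∧
      ∀ T : Finset (Fin 6), T ⊆ S → T.card = 4 → ∃ r ∈ K5L.getD i [], q6 6 r = T := by
  have h : ∀ i : Fin 6, ((K5L.getD i []).length = 5) ∧ (∀ r ∈ K5L.getD i [], r < 15) ∧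
      ∀ x ∈ (univ : Finset (Fin 6)).erase i, ∃ r ∈ K5L.getD i [],
        q6 6 r = ((univ : Finset (Fin 6)).erase i).erase x := by decide +kernel
  intro i hi
  obtain ⟨h1, h2, h3⟩ := h ⟨i, hi⟩
  have hc : ((univ : Finset (Fin 6)).erase ⟨i, hi⟩).card = 5 := by
    rw [Finset.card_erase_of_mem (Finset.mem_univ _), Finset.card_univ, Fintype.card_fin]
  refine ⟨h1, h2, (univ : Finset (Fin 6)).erase ⟨i, hi⟩, hc, ?_⟩
  intro T hT hT4
  have h4 : (((univ : Finset (Fin 6)).erase ⟨i, hi⟩) \ T).card = 1 := by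
    rw [Finset.card_sdiff_of_subset hT, hc, hT4]
  obtain ⟨x, hx⟩ := Finset.card_eq_one.mp h4
  have hx1 : x ∈ ((univ : Finset (Fin 6)).erase ⟨i, hi⟩) \ T := by
    rw [hx]; exact Finset.mem_singleton_self x
  rw [Finset.mem_sdiff] at hx1
  obtain ⟨r, hr, h5⟩ := h3 x hx1.1
  refine ⟨r, hr, ?_⟩
  rw [h5]
  symm
  apply Finset.eq_of_subset_of_card_le
  · intro y hy
    rw [Finset.mem_erase]
    exact ⟨fun h => hx1.2 (h ▸ hy), hT hy⟩
  · rw [Finset.card_erase_of_mem hx1.1, hc, hT4]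

/-- The bit of the quadruple `r`. -/
def kbit (J : ℕ) (e : ℕ → Bool) (r : ℕ) : Bool := lf 10 (Og.exF6 (q6 6 r)) e ^^ J.testBit r

/-- The array of the bit of the quadruple `r`. -/
def b6G (W J r : ℕ) : ℕ := lfG W (Nat.xor (FX.getD r 0) (bt J r)) 10

theorem b6G_ar {W : ℕ} (hW : 0 < W) (J r : ℕ) (hr : r < 15) :
    Ar W 10 (b6G W J r) fun e => (kbit J e r).toNat := by
  refine (lfG_ar hW _ 10).congr fun e => ?_
  have e4 : ∀ a b : ℕ, Nat.xor a b = a ^^^ b := fun _ _ => rfl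
  rw [e4, lf_xor, bt_eq, lf_toNat, FX_eq r hr]
  rfl

/-- The array of the products of the bits of a list. -/
def p5G (W J : ℕ) (l : List ℕ) : ℕ := @List.rec ℕ (fun _ => ℕ) (csG W 1 10)
  (fun r _ ih => Nat.land (b6G W J r) ih) l

theorem p5G_ar {W : ℕ} (hW : 0 < W) (J : ℕ) (l : List ℕ) (hl : ∀ r ∈ l, r < 15) :
    Ar W 10 (p5G W J l) fun e => (l.all fun r => kbit J e r).toNat := by
  have h1W : 1 < 2 ^ W := Nat.one_lt_two_pow (by omega)
  induction l with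
  | nil => exact (csG_ar hW h1W 10).congr fun e => rfl
  | cons r l ih =>
    refine ((b6G_ar hW J r (hl r List.mem_cons_self)).and
      (ih fun r hr => hl r (List.mem_cons_of_mem _ hr))).congr fun e => ?_
    rw [toNat_and]
    rfl

/-- The array of the complete five-sets of the lists. -/
def k5G (W J : ℕ) (L : List (List ℕ)) : ℕ := @List.rec (List ℕ) (fun _ => ℕ) 0
  (fun l _ ih => Nat.lor (p5G W J l) ih) L

theorem k5G_ar {W : ℕ} (hW : 0 < W) (J : ℕ) (L : List (List ℕ)) (hL : ∀ l ∈ L, ∀ r ∈ l, r < 15) :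
    Ar W 10 (k5G W J L) fun e => (L.any fun l => l.all fun r => kbit J e r).toNat := by
  induction L with
  | nil => exact (ar_zero 10).congr fun e => rfl
  | cons l L ih =>
    refine ((p5G_ar hW J l (hL l List.mem_cons_self)).or
      (ih fun l hl => hL l (List.mem_cons_of_mem _ hl)) hW).congr fun e => ?_
    rw [toNat_or]
    rfl

/-- Whether there is a complete five-set. -/
def k5b (J : ℕ) (e : ℕ → Bool) : Bool := K5L.any fun l => l.all fun r => kbit J e r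

/-- The mask of six vertices. -/
def m6G (W J : ℕ) : ℕ := Nat.sub (csG W (Nat.sub (Nat.pow 2 W) 1) 10)
  (Nat.mul (Nat.sub (Nat.pow 2 W) 1) (k5G W J K5L))

theorem K5L_lt : ∀ l ∈ K5L, ∀ r ∈ l, r < 15 := by decide

theorem m6G_ar {W : ℕ} (hW : 0 < W) (J : ℕ) :
    Ar W 10 (m6G W J) fun e => if k5b J e = true then 0 else 2 ^ W - 1 := by
  have h1 := fullLt W
  have hk := k5G_ar hW J K5L K5L_lt
  have hk2 : ∀ e : ℕ → Bool, (2 ^ W - 1) * (k5b J e).toNat ≤ 2 ^ W - 1 := fun e => by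
    cases k5b J e
    · exact Nat.zero_le _
    · rw [Bool.toNat_true, mul_one]
  have h2 := hk.smul (2 ^ W - 1) hW (fun e => lt_of_le_of_lt (hk2 e) h1)
  have h3 := (csG_ar hW h1 10).sub h2 hW hk2
  refine h3.congr fun e => ?_
  show 2 ^ W - 1 - (2 ^ W - 1) * (k5b J e).toNat = _
  cases k5b J e
  · rw [Bool.toNat_false, mul_zero, Nat.sub_zero]; rfl
  · rw [Bool.toNat_true, mul_one, Nat.sub_self]; rfl

/-! ### Seven vertices -/

/-- The mask of seven vertices: `js` are the codes of the differences. -/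
def MK (W τ : ℕ) (js : ℕ → ℕ) : ℕ → ℕ := @Nat.rec (fun _ => ℕ)
  (csG W (Nat.sub (Nat.pow 2 W) 1) 16)
  (fun v ih => Nat.land (Jv.vwG W τ v (m6G W (js v))) ih)

theorem MK_ar {W : ℕ} (hW : 0 < W) {τ : ℕ} (hτ : τ < 16) (js : ℕ → ℕ) (m : ℕ) (hm : m ≤ 7) :
    ∃ f : (ℕ → Bool) → ℕ, Ar W 16 (MK W τ js m) f ∧ (∀ b, f b = 0 ∨ f b = 2 ^ W - 1) ∧
      ∀ b, (∀ v : Fin 7, (v : ℕ) < m →
        k5b (js v) (fun r => lf 20 (Jv.mf v r) (mk20 τ b)) = false) → f b = 2 ^ W - 1 := by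
  have h1 := fullLt W
  induction m with
  | zero =>
    exact ⟨_, csG_ar hW h1 16, fun b => Or.inr rfl, fun b _ => rfl⟩
  | succ m ih =>
    obtain ⟨f, hf1, hf2, hf3⟩ := ih (by omega)
    have hv := Jv.vwG_ar hW hτ (⟨m, by omega⟩ : Fin 7) (m6G_ar hW (js m))
    refine ⟨_, hv.and hf1, fun b => ?_, fun b hb => ?_⟩
    · rcases hf2 b with h2 | h2
      · rw [h2, Nat.and_zero]
        exact Or.inl rfl
      · rw [h2, and_full _ _ (by split_ifs <;> omega)]
        split_ifs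
        · exact Or.inl rfl
        · exact Or.inr rfl
    · rw [hf3 b fun v hv => hb v (by omega), and_full _ _ (by split_ifs <;> omega),
        if_neg (by rw [hb ⟨m, by omega⟩ (by simp)]; exact Bool.false_ne_true)]

/-- The mask at a 4-graph without complete five-sets. -/
theorem k5b_false {n : ℕ} (H E' : Finset (Finset (Fin n))) (s : Fin 7 → Fin n) (c : ℕ)
    (hP : PsiSys.Pr H E' s) (hJ : JD H E' s = jset c) (v : Fin 7) :
    k5b (Jv.jc6 c v) (fun r => lf 20 (Jv.mf v r) (gc H s) ^^ (Jv.yc6 c v).testBit r) = false := by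
  obtain ⟨h4, h5, hE4, hE, hs⟩ := hP
  have hev : EvT E' s := Jv.evT_of_evenH E' hE s hs
  have hev6 : EvT E' (s ∘ Jv.vq v) := evT_comp E' s _ (Jv.vq_inj v) hev
  have hinj : Function.Injective (s ∘ Jv.vq v) := hs.comp (Jv.vq_inj v)
  -- the bits
  have hb : ∀ r < 15, kbit (Jv.jc6 c v)
      (fun r => lf 20 (Jv.mf v r) (gc H s) ^^ (Jv.yc6 c v).testBit r) r =
      zb H (s ∘ Jv.vq v) (q6 6 r) := by
    intro r hr
    have h6 := Jv.jd_view H E' s c hJ v r hr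
    have h7 := Og.zb6_eq E' (s ∘ Jv.vq v) hev6 (q6 6 r) (q6_card r hr)
    unfold kbit
    rw [← h6, h7]
    have h8 : lf 10 (Og.exF6 (q6 6 r)) (fun r => lf 20 (Jv.mf v r) (gc H s) ^^
        (Jv.yc6 c v).testBit r) = lf 10 (Og.exF6 (q6 6 r)) (gc E' (s ∘ Jv.vq v)) := by
      apply lf_congr
      intro i hi
      exact (Jv.gc_view H E' s c hJ hev v i hi).symm
    rw [h8]
    cases lf 10 (Og.exF6 (q6 6 r)) (gc E' (s ∘ Jv.vq v)) <;>
      cases zb H (s ∘ Jv.vq v) (q6 6 r) <;> rfl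
  unfold k5b
  rw [Bool.eq_false_iff]
  intro hany
  rw [List.any_eq_true] at hany
  obtain ⟨l, hl, hall⟩ := hany
  rw [List.all_eq_true] at hall
  obtain ⟨i, hi, rfl⟩ : ∃ i < 6, K5L.getD i [] = l := by
    have : ∀ l ∈ K5L, ∃ i < 6, K5L.getD i [] = l := by decide
    exact this l hl
  obtain ⟨-, hlt, S, hS, hST⟩ := K5L_data i hi
  obtain ⟨e, he, hne⟩ := h5 (S.image (s ∘ Jv.vq v)) (by
    rw [Finset.card_image_of_injective _ hinj, hS])
  rw [Finset.mem_powersetCard] at he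
  obtain ⟨T, hT, rfl⟩ := Finset.subset_image_iff.mp he.1
  have hT4 : T.card = 4 := by
    rw [← he.2, Finset.card_image_of_injective _ hinj]
  obtain ⟨r, hr, hrT⟩ := hST T hT hT4
  have h9 := hall r hr
  rw [hb r (hlt r hr), hrT, Jv.zb_eq_dec, decide_eq_true_iff] at h9
  exact hne h9

/-- The mask of a representative: the lanes are `0` or full, and they are full at the 4-graphs without
complete five-sets. -/
theorem MK_spec {W : ℕ} (hW : 0 < W) {τ : ℕ} (hτ : τ < 16) (c : ℕ) (hy : ∀ v : Fin 7, Jv.yc6 c v = 0)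
    (js : ℕ → ℕ) (hjs : ∀ v : Fin 7, js v = Jv.jc6 c v) :
    ∃ m : (ℕ → Bool) → ℕ, Ar W 16 (MK W τ js 7) m ∧ (∀ b, m b = 0 ∨ m b = 2 ^ W - 1) ∧
      ∀ (n : ℕ) (H E' : Finset (Finset (Fin n))) (s : Fin 7 → Fin n), PsiSys.Pr H E' s →
        JD H E' s = jset c → (idx 4 fun i => gc H s (16 + i)) = τ → m (gc H s) = 2 ^ W - 1 := by
  obtain ⟨m, hm1, hm2, hm3⟩ := MK_ar hW hτ js 7 le_rfl
  refine ⟨m, hm1, hm2, fun n H E' s hP hJ hτe => hm3 _ fun v _ => ?_⟩
  have h1 := k5b_false H E' s c hP hJ v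
  rw [hjs v]
  have h2 : (fun r => lf 20 (Jv.mf v r) (mk20 τ (gc H s))) =
      fun r => lf 20 (Jv.mf v r) (gc H s) ^^ (Jv.yc6 c v).testBit r := by
    funext r
    rw [hy v, Nat.zero_testBit, Bool.xor_false]
    apply lf_congr
    intro i hi
    rw [← hτe]
    exact Jv.Tabs.mk20_gc H s i hi
  rw [h2]
  exact h1

end Pool.Agent.Lib.MP_afdd4d_co.K8
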