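import Pool.Agent.Lib.MP_afdd4d_co.K8.Inst
import Pool.Agent.Lib.MP_afdd4d_co.K8.PsiMask

/-!
# The near rows of a coset
-/

namespace Pool.Agent.Lib.MP_afdd4d_co.K8.Jv

open Finset

/-- The constants of the views of a representative. -/
def jsE (e : Ent) (v : ℕ) : ℕ := @Nat.rec (fun _ => ℕ) e.j0 (fun v _ => @Nat.rec (fun _ => ℕ) e.j1
  (fun v _ => @Nat.rec (fun _ => ℕ) e.j2 (fun v _ => @Nat.rec (fun _ => ℕ) e.j3 (fun v _ =>
  @Nat.rec (fun _ => ℕ) e.j4 (fun v _ => @Nat.rec (fun _ => ℕ) e.j5 (fun _ _ => e.j6) v) v) v) v) v) v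

theorem jsE_eq (e : Ent) (h : e.mt = true) : ∀ v : Fin 7, jsE e v = jc6 e.c v := by
  unfold Ent.mt at h
  simp only [Bool.and_eq_true, Nat.beq_eq] at h
  obtain ⟨_, _, h1, h2, h3, h4, h5, h6, h7, g1, g2, g3, g4, g5, g6, g7⟩ := h
  intro v
  match v with
  | 0 => exact g1.symm
  | 1 => exact g2.symm
  | 2 => exact g3.symm
  | 3 => exact g4.symm
  | 4 => exact g5.symm
  | 5 => exact g6.symm
  | 6 => exact g7.symm

/-- The mask of a coset, `z` are the constants of the representative as a difference. -/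
def mkE (w : ℕ) (z : Ent) (τ : ℕ) : ℕ := MK w τ (jsE z) 7

/-- The representative has no bits at the quadruples with the first vertex. -/
def Ent.z0 (z : Ent) : Bool := z.mt && (Nat.beq z.y0 0 && (Nat.beq z.y1 0 && (Nat.beq z.y2 0 && (
  Nat.beq z.y3 0 && (Nat.beq z.y4 0 && (Nat.beq z.y5 0 && (Nat.beq z.y6 0)))))))

theorem mkE_ok (w : ℕ) (hw : 0 < w) (z : Ent) (hz : z.z0 = true) :
    ∃ fM, Tabs.MaskOK w z.c (mkE w z) fM := by
  unfold Ent.z0 at hz
  simp only [Bool.and_eq_true, Nat.beq_eq] at hz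
  obtain ⟨hm, z0, z1, z2, z3, z4, z5, z6⟩ := hz
  have hm' := hm
  unfold Ent.mt at hm
  simp only [Bool.and_eq_true, Nat.beq_eq] at hm
  obtain ⟨_, _, h1, h2, h3, h4, h5, h6, h7, _⟩ := hm
  have hy : ∀ v : Fin 7, yc6 z.c v = 0 := by
    intro v
    match v with
    | 0 => exact h1.trans z0
    | 1 => exact h2.trans z1
    | 2 => exact h3.trans z2
    | 3 => exact h4.trans z3
    | 4 => exact h5.trans z4
    | 5 => exact h6.trans z5
    | 6 => exact h7.trans z6
  have key : ∀ τ, ∃ m : (ℕ → Bool) → ℕ, τ < 16 → (Ar w 16 (MK w τ (jsE z) 7) m ∧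
      ∀ (n : ℕ) (H E' : Finset (Finset (Fin n))) (s : Fin 7 → Fin n), PsiSys.Pr H E' s →
        JD H E' s = jset z.c → (idx 4 fun i => gc H s (16 + i)) = τ → m (gc H s) = 2 ^ w - 1) := by
    intro τ
    by_cases hτ : τ < 16
    · obtain ⟨m, h1, _, h3⟩ := MK_spec hw hτ z.c hy (jsE z) (jsE_eq z hm')
      exact ⟨m, fun _ => ⟨h1, h3⟩⟩
    · exact ⟨fun _ => 0, fun h => absurd h hτ⟩
  choose fM hfM using key
  refine ⟨fM, fun τ hτ => (hfM τ hτ).1, fun n H E' s hP hJ => ?_⟩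
  exact (hfM _ (idx_lt 4 _)).2 n H E' s hP hJ rfl

namespace Tabs

variable {S : PsiSys} (D : Tabs S)

/-- The near rows of a coset. -/
theorem near (g z : Ent) (hgz : (g.mg && (z.z0 && Nat.beq g.c z.c)) = true) (K : ℕ)
    (hc : g.c ∈ D.reps)
    (hK : K < 2 ^ (D.w - 1)) (hKe : (K : ℤ) = D.C0 - 2 * S.Lo + 14 * D.OP + D.OB)
    (L : List Ent) (hL : (L.all fun e => e.mt && evC (g.c ^^^ e.c)) = true)
    (hchk : ∀ τ < 16, ∀ e ∈ L, D.chkE (D.QE g τ) (mkE D.w z τ) τ K e = true) :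
    ∀ e ∈ L, S.RowJ (jset e.c) := by
  simp only [Bool.and_eq_true, Nat.beq_eq] at hgz
  obtain ⟨hg, hz, hcz⟩ := hgz
  obtain ⟨fM, hM⟩ := mkE_ok D.w D.hw0 z hz
  rw [← hcz] at hM
  exact D.rowJ_of_ent g hg K hc _ fM hM L hK hKe hL hchk

theorem forall16 (P : ℕ → Prop) (h0 : P 0 ∧ P 1 ∧ P 2 ∧ P 3) (h1 : P 4 ∧ P 5 ∧ P 6 ∧ P 7)
    (h2 : P 8 ∧ P 9 ∧ P 10 ∧ P 11) (h3 : P 12 ∧ P 13 ∧ P 14 ∧ P 15) : ∀ τ < 16, P τ := by
  obtain ⟨a0, a1, a2, a3⟩ := h0
  obtain ⟨b0, b1, b2, b3⟩ := h1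
  obtain ⟨c0, c1, c2, c3⟩ := h2
  obtain ⟨d0, d1, d2, d3⟩ := h3
  intro τ hτ
  interval_cases τ <;> assumption

end Tabs

/-- Whether the list `A` is a part of the list of the codes of `B`, in the same order. -/
def sb (B : List Ent) : List ℕ → Bool :=
  @List.rec Ent (fun _ => List ℕ → Bool)
    (fun A => @List.rec ℕ (fun _ => Bool) true (fun _ _ _ => false) A)
    (fun e _ ih A => @List.rec ℕ (fun _ => Bool) true (fun a A' _ =>
      @Bool.rec (fun _ => Bool) (ih A) (ih A') (Nat.beq e.c a)) A) B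

theorem sb_spec : ∀ {B : List Ent} {A : List ℕ}, sb B A = true → ∀ a ∈ A, ∃ e ∈ B, e.c = a := by
  intro B
  induction B with
  | nil =>
    intro A h a ha
    cases A with
    | nil => exact absurd ha List.not_mem_nil
    | cons a' A' => exact absurd (show false = true from h) Bool.false_ne_true
  | cons e B ih =>
    intro A h a ha
    cases A with
    | nil => exact absurd ha List.not_mem_nil
    | cons a' A' =>
      have h0 : sb (e :: B) (a' :: A') =
        @Bool.rec (fun _ => Bool) (sb B (a' :: A')) (sb B A') (Nat.beq e.c a') := rfl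
      rw [h0] at h
      cases h1 : Nat.beq e.c a' with
      | false =>
        rw [h1] at h
        obtain ⟨e', h2, h3⟩ := ih (show sb B (a' :: A') = true from h) a ha
        exact ⟨e', List.mem_cons_of_mem _ h2, h3⟩
      | true =>
        rw [h1] at h
        rcases List.mem_cons.mp ha with h2 | h2
        · exact ⟨e, List.mem_cons_self, by rw [h2, Nat.eq_of_beq_eq_true h1]⟩
        · obtain ⟨e', h3, h4⟩ := ih (show sb B A' = true from h) a h2
          exact ⟨e', List.mem_cons_of_mem _ h3, h4⟩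

/-- The rows of a list of codes from the rows of lists of differences. -/
theorem near_of_sb {S : PsiSys} (LL : List (List Ent))
    (h : ∀ L ∈ LL, ∀ e ∈ L, S.RowJ (jset e.c)) {A : List ℕ} (hA : sb LL.flatten A = true) :
    ∀ c ∈ A, S.RowJ (jset c) := by
  intro c hc
  obtain ⟨e, he, rfl⟩ := sb_spec hA c hc
  obtain ⟨L, hL, heL⟩ := List.mem_flatten.mp he
  exact h L hL e heL

end Pool.Agent.Lib.MP_afdd4d_co.K8.Jv
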