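import Pool.Agent.Lib.MP_afdd4d_co.K8.PsiExc

/-!
# The far pairs of equivalent 4-graphs

The rows of a 4-graph are the rows of the equivalent 4-graphs, so that it suffices to check one code of
every class.
-/

namespace Pool.Agent.Lib.MP_afdd4d_co.K8.Pt

open Finset

/-! ### The even 4-graph of a code -/

/-- The quadruples that depend on a bit of the code, for the twenty bits. -/
def NE : ℕ :=
  0xf000000011c00000012600000012a000000803800000804c00000805400000410600000410a000002092000200003800200004c00200005400100010600100010a000800092000200803000200805000100409000040111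

/-- The code of an even 4-graph on seven points from its first bits. -/
def ev7 (y n : ℕ) : ℕ := @Nat.rec (fun _ => ℕ) 0
  (fun i ih => Nat.xor ih (Nat.mul (bt y i) (lk NE i))) n

theorem NE_data : ∀ r < 35, ∀ i < 20, (lk NE i).testBit r = (exF7 (q7 r)).testBit (i + 1) := by
  decide +kernel

theorem exF7_zero (T : Finset (Fin 7)) : (exF7 T).testBit 0 = false := by
  unfold exF7
  simp

theorem ev7_testBit (y r : ℕ) (hr : r < 35) (n : ℕ) (hn : n ≤ 20) :
    (ev7 y n).testBit r = lf n (exF7 (q7 r)) y.testBit := by
  induction n with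
  | zero =>
    rw [lf, exF7_zero]
    exact Nat.zero_testBit r
  | succ n ih =>
    have e : ev7 y (n + 1) = ev7 y n ^^^ (bt y n * lk NE n) := rfl
    rw [e, Nat.testBit_xor, ih (by omega), lf, ← NE_data r hr n (by omega), bt_eq]
    cases y.testBit n with
    | false =>
      rw [Bool.toNat_false, zero_mul, Nat.zero_testBit, Bool.and_false]
    | true =>
      rw [Bool.toNat_true, one_mul, Bool.and_true]

/-- The mask of the quadruples with the first vertex. -/
def R0m : ℕ := 0x965b96ef

theorem R0m_data : ∀ i < 20, R0m.testBit (Jv.R0t.getD i 0) = true := by decide +kernel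

theorem exF7_qd : ∀ i < 20, exF7 (qd 7 i) = 2 ^ (i + 1) := by decide +kernel

theorem lf_single (i : ℕ) (b : ℕ → Bool) : ∀ n, lf n (2 ^ (i + 1)) b = (decide (i < n) && b i) := by
  intro n
  induction n with
  | zero =>
    rw [lf, Nat.testBit_two_pow]
    simp
  | succ n ih =>
    rw [lf, ih, Nat.testBit_two_pow]
    by_cases h : i = n
    · subst h
      simp
    · have h1 : decide (i + 1 = n + 1) = false := decide_eq_false (by omega)
      rw [h1, Bool.false_and, Bool.xor_false]
      congr 1
      apply decide_eq_decide.mpr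
      omega

/-- The bits of the code. -/
theorem ev7_R0 (y i : ℕ) (hi : i < 20) : (ev7 y 20).testBit (Jv.R0t.getD i 0) = y.testBit i := by
  obtain ⟨h1, h2⟩ := Jv.r0_q7 i hi
  rw [ev7_testBit y _ h1 20 le_rfl, h2, exF7_qd i hi, lf_single, decide_eq_true hi, Bool.true_and]

/-- The code of the 4-graph of the class of `c` with the code `y`. -/
def kc (c y : ℕ) : ℕ := Nat.xor c (ev7 y 20)

theorem kc_testBit (c y r : ℕ) : (kc c y).testBit r = (c.testBit r ^^ (ev7 y 20).testBit r) :=
  Nat.testBit_xor _ _ _

/-- The representative has no quadruple with the first vertex. -/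
def c0 (c : ℕ) : Bool := Nat.beq (Nat.land c R0m) 0

theorem c0_spec {c : ℕ} (h : c0 c = true) (i : ℕ) (hi : i < 20) :
    c.testBit (Jv.R0t.getD i 0) = false := by
  have h1 : c &&& R0m = 0 := Nat.eq_of_beq_eq_true h
  have h2 : (c &&& R0m).testBit (Jv.R0t.getD i 0) = false := by rw [h1, Nat.zero_testBit]
  rw [Nat.testBit_and, R0m_data i hi, Bool.and_true] at h2
  exact h2

/-- The 4-graph on the tuple. -/
theorem zb_kc {n : ℕ} {H E' : Finset (Finset (Fin n))} {s : Fin 7 → Fin n} {c : ℕ}
    (hP : PsiSys.Pr H E' s) (hJ : JD H E' s = jset c) (hc : c0 c = true) :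
    ∀ r < 35, zb H s (q7 r) = (kc c (idx 20 (gc H s))).testBit r := by
  intro r hr
  have hev : EvT E' s := Jv.evT_of_evenH E' hP.2.2.2.1 s hP.2.2.2.2
  have h1 := Jv.zb_jd H E' s (q7 r) (q7_card r hr)
  have h2 := zb7_eq E' s hev (q7 r) (q7_card r hr)
  have h3 : decide (q7 r ∈ JD H E' s) = c.testBit r := by
    rw [hJ, Bool.eq_iff_iff, decide_eq_true_iff]
    exact q7_mem_jset c r hr
  have h4 : lf 20 (exF7 (q7 r)) (gc E' s) = lf 20 (exF7 (q7 r)) (idx 20 (gc H s)).testBit := by
    apply lf_congr
    intro i hi
    rw [Jv.gc_jd H E' s c hJ i hi, idx_bit 20 _ i hi]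
    have h5 : Jv.j0 c i = false := c0_spec hc i hi
    rw [h5, Bool.xor_false]
  rw [kc_testBit, ev7_testBit _ r hr 20 le_rfl, ← h4, ← h2, h1, h3]
  cases zb E' s (q7 r) <;> cases c.testBit r <;> rfl

section props
variable {S : PsiSys} {c k0 : ℕ}

/-- The rows of a 4-graph on seven points. -/
def RowK (S : PsiSys) (k0 k : ℕ) : Prop :=
  ∀ (n : ℕ) (H E' : Finset (Finset (Fin n))) (s : Fin 7 → Fin n), PsiSys.Pr H E' s →
    (∀ r < 35, zb H s (q7 r) = k.testBit r) → k0 ≤ (JD H E' s).card → 0 ≤ S.row H E' s

theorem JD_card_perm {n : ℕ} (H E' : Finset (Finset (Fin n))) (s : Fin 7 → Fin n)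
    (σ : Equiv.Perm (Fin 7)) : (JD H E' (s ∘ σ)).card = (JD H E' s).card := by
  rw [JD_card_eq, JD_card_eq, N8_permP]

theorem RowK.perm {k k' τ : ℕ} (h : RowK S k0 k) (hτ : okp τ = true) (hk : k < 2 ^ 35)
    (hk' : pc τ k = k') : RowK S k0 k' := by
  intro n H E' s hP hz hc
  rw [← S.row_perm H E' s (pm τ)]
  refine h n H E' (s ∘ pm τ) (hP.comp (pm τ)) ?_ (by rw [JD_card_perm]; exact hc)
  intro r hr
  obtain ⟨h1, h2⟩ := img_q7 hτ r hr
  rw [zb_comp, h2, hz _ h1, ← hk', Bool.eq_iff_iff, ← q7_mem_jset _ _ h1, mem_jset_pc hτ k hk,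
    ← h2, ← q7_mem_jset _ _ hr]
  rw [Finset.image_image]
  have : ((pm τ).symm : Fin 7 → Fin 7) ∘ (pm τ) = id := by funext i; simp
  rw [this, Finset.image_id]

/-- The rows of the 4-graph of a code. -/
theorem rowK_of {l : List ℕ} (h : FarY S c k0 (fun y => y ∈ l)) (hc : c0 c = true) {y : ℕ}
    (hy : y ∈ l) (hy20 : y < 2 ^ 20) (hev : evC (ev7 y 20) = true) : RowK S k0 (kc c y) := by
  intro n H E' s hP hz hk
  set e : ℕ := ev7 y 20 with he
  set G : Finset (Finset (Fin (6 + 1))) := ((univ : Finset (Fin (6 + 1))).powersetCard 4).filter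
    fun T => T ∈ jset e with hG
  have hGm : ∀ T : Finset (Fin (6 + 1)), T ∈ G ↔ T ∈ jset e := by
    intro T
    rw [hG, Finset.mem_filter, Finset.mem_powersetCard]
    exact ⟨fun h => h.2, fun h => ⟨⟨Finset.subset_univ _, jset_card4 e T h⟩, h⟩⟩
  have hGe : EvenH (6 + 1) G := by
    intro U hU
    rw [even_iff_zmod, card4_filter _ U hU]
    have h1 := evF_of_evC hev U hU
    rw [← h1]
    refine Finset.sum_congr rfl fun x _ => ?_
    congr 1
    exact decide_eq_decide.mpr (hGm _)
  obtain ⟨h4, h5, hE4, hE, hs⟩ := hP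
  obtain ⟨E'', hE4', hE'', hEm⟩ := exists_even_ext G hGe s hs
  have hzE : ∀ r < 35, zb E'' s (q7 r) = e.testBit r := by
    intro r hr
    rw [Jv.zb_eq_dec, Bool.eq_iff_iff, decide_eq_true_iff, hEm _ (q7_card r hr), hGm,
      q7_mem_jset e r hr]
  have hJ : JD H E'' s = jset c := by
    ext T
    by_cases hT : T.card = 4
    · obtain ⟨r, hr, rfl⟩ := q7_surj T hT
      have h6 := Jv.zb_jd H E'' s (q7 r) (q7_card r hr)
      rw [hz r hr, hzE r hr, kc_testBit, ← he] at h6
      rw [q7_mem_jset c r hr, ← decide_eq_true_iff (p := q7 r ∈ JD H E'' s)]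
      revert h6
      cases e.testBit r <;> cases c.testBit r <;> cases decide (q7 r ∈ JD H E'' s) <;> simp
    · constructor
      · intro h6
        exact absurd (JD_card4 H E'' _ T h6) hT
      · intro h6
        exact absurd (jset_card4 c T h6) hT
  have hcode : idx 20 (gc H s) = y := by
    rw [← idx_testBit 20 y hy20]
    apply idx_congr
    intro i hi
    obtain ⟨h6, h7⟩ := Jv.r0_q7 i hi
    rw [gc, ← h7, hz _ h6, kc_testBit, c0_spec hc i hi, Bool.false_xor, ev7_R0 y i hi]
  exact h n H E' E'' s ⟨h4, h5, hE4, hE, hs⟩ ⟨h4, h5, hE4', hE'', hs⟩ hJ hk (by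
    rw [hcode]; exact hy)

/-- The far pairs of a list of codes from the rows of the 4-graphs. -/
theorem farY_of_rowK {l : List ℕ} (hc : c0 c = true) (h : ∀ y ∈ l, RowK S k0 (kc c y)) :
    FarY S c k0 (fun y => y ∈ l) := by
  intro n H E' E'' s hP hP' hJ hk hy
  exact h _ hy n H E' s hP (zb_kc hP' hJ hc) hk

end props

/-! ### The check of the equivalences -/

/-- The check that the permuted 4-graphs have the given codes. -/
def trl (c k : ℕ) : List ℕ → List ℕ → Bool :=
  @List.rec ℕ (fun _ => List ℕ → Bool)
    (fun q => @List.rec ℕ (fun _ => Bool) true (fun _ _ _ => false) q)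
    (fun y _ ih q => @List.rec ℕ (fun _ => Bool) false (fun π q' _ =>
      @Bool.rec (fun _ => Bool) false (ih q')
        (@Bool.rec (fun _ => Bool) false (okp π) (Nat.beq (pc π k) (kc c y)))) q)

theorem trl_spec {c k : ℕ} : ∀ {l q : List ℕ}, trl c k l q = true →
    ∀ y ∈ l, ∃ π, okp π = true ∧ pc π k = kc c y := by
  intro l
  induction l with
  | nil => intro q _ y hy; exact absurd hy List.not_mem_nil
  | cons y0 l ih =>
    intro q h y hy
    cases q with
    | nil => exact absurd (show false = true from h) Bool.false_ne_true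
    | cons π q =>
      have e : trl c k (y0 :: l) (π :: q) = @Bool.rec (fun _ => Bool) false (trl c k l q)
        (@Bool.rec (fun _ => Bool) false (okp π) (Nat.beq (pc π k) (kc c y0))) := rfl
      rw [e] at h
      cases h1 : Nat.beq (pc π k) (kc c y0) with
      | false => rw [h1] at h; exact absurd (show false = true from h) Bool.false_ne_true
      | true =>
        rw [h1] at h
        dsimp only at h
        cases h2 : okp π with
        | false => rw [h2] at h; exact absurd (show false = true from h) Bool.false_ne_true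
        | true =>
          rw [h2] at h
          rcases List.mem_cons.mp hy with h3 | h3
          · exact ⟨π, h2, by rw [h3]; exact Nat.eq_of_beq_eq_true h1⟩
          · exact ih h y h3

/-- The check of the lists of the classes. -/
def tr (c : ℕ) : List ℕ → List (List ℕ) → List (List ℕ) → Bool :=
  @List.rec ℕ (fun _ => List (List ℕ) → List (List ℕ) → Bool)
    (fun X _ => @List.rec (List ℕ) (fun _ => Bool) true (fun _ _ _ => false) X)
    (fun y _ ih X => @List.rec (List ℕ) (fun _ => List (List ℕ) → Bool) (fun _ => false)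
      (fun l X' _ Q => @List.rec (List ℕ) (fun _ => Bool) false (fun q Q' _ =>
        @Bool.rec (fun _ => Bool) false (ih X' Q')
          (@Bool.rec (fun _ => Bool) false
            (@Bool.rec (fun _ => Bool) false (trl c (kc c y) l q) (evC (ev7 y 20)))
            (@Bool.rec (fun _ => Bool) false (Nat.blt (kc c y) 34359738368)
              (Nat.blt y 1048576)))) Q) X)

theorem tr_spec {S : PsiSys} {c k0 : ℕ} (hc : c0 c = true) {Y0 : List ℕ}
    (hY : FarY S c k0 (fun y => y ∈ Y0)) : ∀ {Y : List ℕ} {X Q : List (List ℕ)},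
    (∀ y ∈ Y, y ∈ Y0) → tr c Y X Q = true → ∀ l ∈ X, FarY S c k0 (fun y => y ∈ l) := by
  intro Y
  induction Y with
  | nil =>
    intro X Q _ h l hl
    cases X with
    | nil => exact absurd hl List.not_mem_nil
    | cons l' X => exact absurd (show false = true from h) Bool.false_ne_true
  | cons y Y ih =>
    intro X Q hsub h l hl
    cases X with
    | nil => exact absurd hl List.not_mem_nil
    | cons l' X =>
      cases Q with
      | nil => exact absurd (show false = true from h) Bool.false_ne_true
      | cons q Q =>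
        have e : tr c (y :: Y) (l' :: X) (q :: Q) =
          @Bool.rec (fun _ => Bool) false (tr c Y X Q)
          (@Bool.rec (fun _ => Bool) false
            (@Bool.rec (fun _ => Bool) false (trl c (kc c y) l' q) (evC (ev7 y 20)))
            (@Bool.rec (fun _ => Bool) false (Nat.blt (kc c y) 34359738368)
              (Nat.blt y 1048576))) := rfl
        rw [e] at h
        cases h1 : Nat.blt y 1048576 with
        | false => rw [h1] at h; exact absurd (show false = true from h) Bool.false_ne_true
        | true =>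
          rw [h1] at h
          dsimp only at h
          cases h2 : Nat.blt (kc c y) 34359738368 with
          | false => rw [h2] at h; exact absurd (show false = true from h) Bool.false_ne_true
          | true =>
            rw [h2] at h
            dsimp only at h
            cases h3 : evC (ev7 y 20) with
            | false => rw [h3] at h; exact absurd (show false = true from h) Bool.false_ne_true
            | true =>
              rw [h3] at h
              dsimp only at h
              cases h4 : trl c (kc c y) l' q with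
              | false => rw [h4] at h; exact absurd (show false = true from h) Bool.false_ne_true
              | true =>
                rw [h4] at h
                have e20 : (2 : ℕ) ^ 20 = 1048576 := by norm_num
                have e35 : (2 : ℕ) ^ 35 = 34359738368 := by norm_num
                have hy20 : y < 2 ^ 20 := by
                  rw [e20]
                  exact Nat.le_of_ble_eq_true h1
                have hk35 : kc c y < 2 ^ 35 := by
                  rw [e35]
                  exact Nat.le_of_ble_eq_true h2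
                rcases List.mem_cons.mp hl with h5 | h5
                · rw [h5]
                  have hR := rowK_of hY hc (hsub y List.mem_cons_self) hy20 h3
                  refine farY_of_rowK hc fun y' hy' => ?_
                  obtain ⟨π, h6, h7⟩ := trl_spec h4 y' hy'
                  exact hR.perm h6 hk35 h7
                · exact ih (fun y hy => hsub y (List.mem_cons_of_mem _ hy)) h l h5

section ent
variable {S : PsiSys} (D : Jv.Tabs S)

/-- The codes of a list, with a table of the differences. -/
theorem farY_lst (hw : D.w = 64) (K : ℕ) (hKe : (K : ℤ) = D.C0 - 2 * S.Lo + 14 * D.OP + D.OB)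
    (g z : Jv.Ent) (hgz : (g.mg && (z.z0 && Nat.beq g.c z.c)) = true) (hc : g.c ∈ D.reps)
    (Y : List ℕ)
    {tE tK tS : ℕ → ℕ} (hE : tok tE = true) (hK : tok tK = true) (hS : tok tS = true)
    {K1 K2 K4 : ℕ} (hN : chN D K K1 K2 K4 = true)
    (h1 : ∀ τ < 16, chHm D (D.QE g τ) (xLL D.w τ [Y]) tK K1 τ = true)
    (h2 : ∀ τ < 16, chE D tE K2 τ = true)
    (h3 : ∀ v < 7, ∀ x < 1024, chT D (Jv.jsE z v) (tE v) (tK v) (tS v) x = true)
    (h4 : ∀ τ < 16, chD tS (Jv.jsE z)
      ((562949953421312 - K4) + 1125899906842624 * 107) τ = true) :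
    FarY S g.c 7 (fun y => y ∈ Y) := by
  have hgz' := hgz
  simp only [Bool.and_eq_true, Nat.beq_eq] at hgz'
  obtain ⟨hg, hz, hcz⟩ := hgz'
  have hn4 := (chN_spec D hN).2.2.2
  have h5 := R4_chk z hz hS hn4 h4
  rw [← hcz] at h5
  exact farY_inn (farY_in D hw K hKe g z hgz hc [Y] hE hK hS hN h1 h2 h3 h5) Y
    List.mem_cons_self

/-- The codes of a list, without a table of the differences. -/
theorem farY_lst0 (hw : D.w = 64) (K : ℕ) (hKe : (K : ℤ) = D.C0 - 2 * S.Lo + 14 * D.OP + D.OB)
    (g z : Jv.Ent) (hgz : (g.mg && (z.z0 && Nat.beq g.c z.c)) = true) (hc : g.c ∈ D.reps)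
    (Y : List ℕ)
    {tE tK tS : ℕ → ℕ} (hE : tok tE = true) (hK : tok tK = true) (hS : tok tS = true)
    {K1 K2 : ℕ} (hN : chN D K K1 K2 0 = true)
    (h1 : ∀ τ < 16, chHm D (D.QE g τ) (xLL D.w τ [Y]) tK K1 τ = true)
    (h2 : ∀ τ < 16, chE D tE K2 τ = true)
    (h3 : ∀ v < 7, ∀ x < 1024, chT D (Jv.jsE z v) (tE v) (tK v) (tS v) x = true) :
    FarY S g.c 7 (fun y => y ∈ Y) :=
  farY_inn (farY_in D hw K hKe g z hgz hc [Y] hE hK hS hN h1 h2 h3 (R4_zero g.c tS)) Y
    List.mem_cons_self

end ent

end Pool.Agent.Lib.MP_afdd4d_co.K8.Pt
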