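import Pool.Agent.Lib.MP_afdd4d_co.K8.PsiEnt

/-!
# The far pairs of a class in parts

The 4-graphs of a class, given by the codes of their even parts, are divided into parts, and every
part has its own tables.
-/

namespace Pool.Agent.Lib.MP_afdd4d_co.K8.Pt

open Finset

/-! ### The lanes of a list of codes -/

/-- The lanes of the codes of a list in the block `τ`. -/
def xL (W τ : ℕ) (l : List ℕ) : ℕ := @List.rec ℕ (fun _ => ℕ) 0
  (fun y _ ih => @Bool.rec (fun _ => ℕ) ih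
    (Nat.lor (Nat.shiftLeft (Nat.sub (Nat.pow 2 W) 1) (Nat.mul W (Nat.mod y 65536))) ih)
    (Nat.beq (Nat.div y 65536) τ)) l

/-- The lanes of the codes of a list of lists in the block `τ`. -/
def xLL (W τ : ℕ) (X : List (List ℕ)) : ℕ := @List.rec (List ℕ) (fun _ => ℕ) 0
  (fun l _ ih => Nat.lor (xL W τ l) ih) X

theorem Ln_full (W j i : ℕ) :
    Ln W (Nat.shiftLeft (Nat.sub (Nat.pow 2 W) 1) (Nat.mul W j)) i =
      if i = j then 2 ^ W - 1 else 0 := by
  have e : Nat.shiftLeft (Nat.sub (Nat.pow 2 W) 1) (Nat.mul W j) = (2 ^ W - 1) <<< (W * j) := rfl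
  rw [e, Ln_shl]
  split_ifs with h1 h2 h2
  · omega
  · rfl
  · rw [Ln_small W _ (fullLt W), if_pos (by omega)]
  · rw [Ln_small W _ (fullLt W), if_neg (by omega)]

theorem xL_cons (W τ y : ℕ) (l : List ℕ) : xL W τ (y :: l) = @Bool.rec (fun _ => ℕ) (xL W τ l)
    (Nat.lor (Nat.shiftLeft (Nat.sub (Nat.pow 2 W) 1) (Nat.mul W (Nat.mod y 65536))) (xL W τ l))
    (Nat.beq (Nat.div y 65536) τ) := rfl

theorem xL_ln {W τ : ℕ} (i : ℕ) (hi : i < 65536) : ∀ l : List ℕ,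
    Ln W (xL W τ l) i = if i + 65536 * τ ∈ l then 2 ^ W - 1 else 0 := by
  intro l
  induction l with
  | nil =>
    rw [if_neg List.not_mem_nil]
    exact Ln_zero_left W i
  | cons y l ih =>
    rw [xL_cons]
    have hlor : ∀ a b : ℕ, Nat.lor a b = a ||| b := fun _ _ => rfl
    cases h1 : Nat.beq (Nat.div y 65536) τ with
    | false =>
      have h2 : y / 65536 ≠ τ := by
        intro h
        have h3 : Nat.beq (Nat.div y 65536) τ = true := by rw [Nat.beq_eq]; exact h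
        rw [h1] at h3
        exact Bool.false_ne_true h3
      dsimp only
      rw [ih]
      have h3 : i + 65536 * τ ≠ y := by
        intro h
        apply h2
        omega
      by_cases h4 : i + 65536 * τ ∈ l
      · rw [if_pos h4, if_pos (List.mem_cons_of_mem _ h4)]
      · rw [if_neg h4, if_neg]
        intro h5
        rcases List.mem_cons.mp h5 with h6 | h6
        · exact h3 h6
        · exact h4 h6
    | true =>
      have h2 : y / 65536 = τ := Nat.eq_of_beq_eq_true h1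
      dsimp only
      rw [hlor, Ln_or, Ln_full, ih]
      have e : Nat.mod y 65536 = y % 65536 := rfl
      rw [e]
      by_cases h3 : i = y % 65536
      · have h4 : i + 65536 * τ = y := by omega
        rw [if_pos h3, if_pos (show i + 65536 * τ ∈ y :: l by rw [h4]; exact List.mem_cons_self)]
        split_ifs
        · exact Nat.or_self _
        · exact Nat.or_zero _
      · have h4 : i + 65536 * τ ≠ y := by omega
        rw [if_neg h3, Nat.zero_or]
        by_cases h5 : i + 65536 * τ ∈ l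
        · rw [if_pos h5, if_pos (List.mem_cons_of_mem _ h5)]
        · rw [if_neg h5, if_neg]
          intro h6
          rcases List.mem_cons.mp h6 with h7 | h7
          · exact h4 h7
          · exact h5 h7

theorem xL_out {W τ : ℕ} (i : ℕ) (hi : 65536 ≤ i) : ∀ l : List ℕ, Ln W (xL W τ l) i = 0 := by
  intro l
  induction l with
  | nil => exact Ln_zero_left W i
  | cons y l ih =>
    rw [xL_cons]
    have hlor : ∀ a b : ℕ, Nat.lor a b = a ||| b := fun _ _ => rfl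
    cases h1 : Nat.beq (Nat.div y 65536) τ with
    | false => exact ih
    | true =>
      dsimp only
      rw [hlor, Ln_or, Ln_full, ih, Nat.or_zero, if_neg]
      have e : Nat.mod y 65536 = y % 65536 := rfl
      rw [e]
      omega

theorem xLL_ln {W τ : ℕ} (i : ℕ) (hi : i < 65536) : ∀ X : List (List ℕ),
    Ln W (xLL W τ X) i = if ∃ l ∈ X, i + 65536 * τ ∈ l then 2 ^ W - 1 else 0 := by
  intro X
  induction X with
  | nil =>
    rw [if_neg (by rintro ⟨l, hl, _⟩; exact absurd hl List.not_mem_nil)]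
    exact Ln_zero_left W i
  | cons l X ih =>
    have e : xLL W τ (l :: X) = xL W τ l ||| xLL W τ X := rfl
    rw [e, Ln_or, xL_ln i hi, ih]
    by_cases h1 : i + 65536 * τ ∈ l
    · rw [if_pos h1, if_pos (show ∃ l' ∈ l :: X, i + 65536 * τ ∈ l' from
        ⟨l, List.mem_cons_self, h1⟩)]
      split_ifs
      · exact Nat.or_self _
      · exact Nat.or_zero _
    · rw [if_neg h1, Nat.zero_or]
      by_cases h2 : ∃ l' ∈ X, i + 65536 * τ ∈ l'
      · rw [if_pos h2, if_pos]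
        obtain ⟨l', h3, h4⟩ := h2
        exact ⟨l', List.mem_cons_of_mem _ h3, h4⟩
      · rw [if_neg h2, if_neg]
        rintro ⟨l', h3, h4⟩
        rcases List.mem_cons.mp h3 with h5 | h5
        · exact h1 (h5 ▸ h4)
        · exact h2 ⟨l', h5, h4⟩

theorem xLL_out {W τ : ℕ} (i : ℕ) (hi : 65536 ≤ i) : ∀ X : List (List ℕ),
    Ln W (xLL W τ X) i = 0 := by
  intro X
  induction X with
  | nil => exact Ln_zero_left W i
  | cons l X ih =>
    have e : xLL W τ (l :: X) = xL W τ l ||| xLL W τ X := rfl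
    rw [e, Ln_or, xL_out i hi, ih, Nat.or_zero]

theorem xLL_lt {W : ℕ} (hW : 0 < W) (τ : ℕ) (X : List (List ℕ)) :
    xLL W τ X < 2 ^ (W * 2 ^ 16) :=
  lt_of_Ln_eq_zero W _ (2 ^ 16) hW fun i hi => xLL_out i (by
    have : (2 : ℕ) ^ 16 = 65536 := by norm_num
    omega) X

theorem idx_sp (m n : ℕ) (b : ℕ → Bool) :
    idx (m + n) b = idx m b + 2 ^ m * idx n fun r => b (m + r) := by
  induction n with
  | zero => rw [Nat.add_zero, idx, mul_zero, add_zero]
  | succ n ih =>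
    have e : m + (n + 1) = (m + n) + 1 := by ring
    rw [e, idx, ih, idx, pow_add]
    ring

/-- The code of the twenty bits. -/
theorem idx20 (b : ℕ → Bool) : idx 20 b = idx 16 b + 65536 * idx 4 (fun i => b (16 + i)) := by
  have h := idx_sp 16 4 b
  have e : (2 : ℕ) ^ 16 = 65536 := by norm_num
  rw [← e]
  exact h

/-! ### Masks -/

section mask
variable (w c : ℕ)

/-- The lanes of the mask are full at the codes of `Y`. -/
def MOn (Y : ℕ → Prop) (M : ℕ → ℕ) : Prop :=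
  (∀ τ < 16, M τ < 2 ^ (w * 2 ^ 16)) ∧
  ∀ (n : ℕ) (H E' : Finset (Finset (Fin n))) (s : Fin 7 → Fin n), PsiSys.Pr H E' s →
    JD H E' s = jset c → Y (idx 20 (gc H s)) →
      Ln w (M (idx 4 fun i => gc H s (16 + i))) (idx 16 (gc H s)) = 2 ^ w - 1

variable {w c}

/-- The codes outside of a list of lists. -/
def Out (X : List (List ℕ)) (y : ℕ) : Prop := ∀ l ∈ X, y ∉ l

/-- The codes of a list of lists. -/
def Inn (X : List (List ℕ)) (y : ℕ) : Prop := ∃ l ∈ X, y ∈ l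

theorem idx16_lt (b : ℕ → Bool) : idx 16 b < 65536 := by
  have h := idx_lt 16 b
  have e : (2 : ℕ) ^ 16 = 65536 := by norm_num
  omega

theorem mOn_out (hw : 0 < w) (z : Jv.Ent) (hz : z.z0 = true) (X : List (List ℕ)) :
    MOn w z.c (Out X) fun τ => Nat.xor (Jv.mkE w z τ) (xLL w τ X) := by
  obtain ⟨fM, hM1, hM2⟩ := Jv.mkE_ok w hw z hz
  refine ⟨fun τ hτ => Nat.xor_lt_two_pow (hM1 τ hτ).lt (xLL_lt hw τ X), ?_⟩
  intro n H E' s hP hJ hY
  have hxor : ∀ a b : ℕ, Nat.xor a b = a ^^^ b := fun _ _ => rfl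
  dsimp only
  rw [hxor, Ln_xor, xLL_ln _ (idx16_lt _), (hM1 _ (idx_lt 4 _)).get, hM2 n H E' s hP hJ, if_neg,
    Nat.xor_zero]
  rintro ⟨l, hl, h⟩
  rw [← idx20] at h
  exact hY l hl h

theorem mOn_inn (hw : 0 < w) (X : List (List ℕ)) :
    MOn w c (Inn X) fun τ => xLL w τ X := by
  refine ⟨fun τ _ => xLL_lt hw τ X, ?_⟩
  intro n H E' s _ _ hY
  dsimp only
  rw [xLL_ln _ (idx16_lt _), if_pos]
  obtain ⟨l, hl, h⟩ := hY
  refine ⟨l, hl, ?_⟩
  rw [← idx20]
  exact h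

end mask

/-! ### The conditions for a part -/

section props
variable (S : PsiSys) (c k0 : ℕ) (Y : ℕ → Prop)

/-- The condition for the 4-graphs of a part. -/
def R1Y (f : Fin 7 → (ℕ → Bool) → ℤ) (r1 : ℤ) : Prop :=
  ∀ (n : ℕ) (H E' : Finset (Finset (Fin n))) (s : Fin 7 → Fin n), PsiSys.Pr H E' s →
    JD H E' s = jset c → Y (idx 20 (gc H s)) → r1 ≤ S.rowA H s + ∑ v : Fin 7, f v (kv v (gc H s))

/-- The rows of the far pairs of a part. -/
def FarY : Prop :=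
  ∀ (n : ℕ) (H E' E'' : Finset (Finset (Fin n))) (s : Fin 7 → Fin n),
    PsiSys.Pr H E' s → PsiSys.Pr H E'' s → JD H E'' s = jset c → k0 ≤ (JD H E' s).card →
    Y (idx 20 (gc H s)) → 0 ≤ S.row H E' s

variable {S c k0 Y}

theorem farY_of {f g d : Fin 7 → (ℕ → Bool) → ℤ} {r1 r2 r4 : ℤ} (h1 : R1Y S c Y f r1)
    (h2 : R2 S g r2) (h3 : R3 S c f g d) (h4 : R4 c k0 d r4) (hr : 0 ≤ r1 + r2 + r4) :
    FarY S c k0 Y := by
  intro n H E' E'' s hP hP' hJ hk hY
  have e1 := h1 n H E'' s hP' hJ hY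
  have e2 := h2 n E' s hP.2.2.1 hP.2.2.2.1 hP.2.2.2.2
  have e4 := h4 n H E' E'' s hP hP' hJ hk
  have e3 : ∑ v : Fin 7, (g v (kv v (gc E' s)) + f v (kv v (gc H s)) +
      d v (kv v (xz (gc E' s) (gc H s)))) ≤ ∑ v : Fin 7, S.ψ H E' (s ∘ Jv.vq v) :=
    Finset.sum_le_sum fun v _ => h3 v n H E' E'' s hP hP' hJ
  rw [Finset.sum_add_distrib, Finset.sum_add_distrib] at e3
  have e5 := Jv.DS_vq (S.ψ H E') (fun τ p => S.ψs H E' τ p) s
  unfold PsiSys.row
  rw [e5]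
  linarith

theorem FarY.mono {Y' : ℕ → Prop} (h : FarY S c k0 Y) (hY : ∀ y, Y' y → Y y) :
    FarY S c k0 Y' := fun n H E' E'' s hP hP' hJ hk hy => h n H E' E'' s hP hP' hJ hk (hY _ hy)

theorem far_of_out {X : List (List ℕ)} (h : FarY S c k0 (Out X))
    (hX : ∀ l ∈ X, FarY S c k0 (fun y => y ∈ l)) : Far S c k0 := by
  intro n H E' E'' s hP hP' hJ hk
  by_cases hY : Out X (idx 20 (gc H s))
  · exact h n H E' E'' s hP hP' hJ hk hY
  · have h2 : ∃ l ∈ X, idx 20 (gc H s) ∈ l := by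
      by_contra h'
      exact hY fun l hl hy => h' ⟨l, hl, hy⟩
    obtain ⟨l, hl, h1⟩ := h2
    exact hX l hl n H E' E'' s hP hP' hJ hk h1

theorem farY_all {X X' : List (List ℕ)} (h : ∀ l ∈ X, FarY S c k0 (fun y => y ∈ l))
    (h' : ∀ l ∈ X', FarY S c k0 (fun y => y ∈ l)) :
    ∀ l ∈ X ++ X', FarY S c k0 (fun y => y ∈ l) := by
  intro l hl
  rcases List.mem_append.mp hl with h1 | h1
  · exact h l h1
  · exact h' l h1

theorem farY_inn {X : List (List ℕ)} (h : FarY S c k0 (Inn X)) :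
    ∀ l ∈ X, FarY S c k0 (fun y => y ∈ l) := fun l hl => h.mono fun _ hy => ⟨l, hl, hy⟩

end props

section tabs
variable {S : PsiSys} (D : Jv.Tabs S)

/-- The check of the condition for the 4-graphs, if the mask is not empty. -/
def chHm (A M : ℕ) (tK : ℕ → ℕ) (K1 τ : ℕ) : Bool :=
  @Bool.rec (fun _ => Bool) (chH D A M tK K1 τ) true (Nat.beq M 0)

theorem chHm_of_chH {A M : ℕ} {tK : ℕ → ℕ} {K1 τ : ℕ} (h : chH D A M tK K1 τ = true) :
    chHm D A M tK K1 τ = true := by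
  unfold chHm
  cases Nat.beq M 0 with
  | false => exact h
  | true => rfl

theorem R1Y_of (g : Jv.Ent) (hg : g.mg = true) (hc : g.c ∈ D.reps) {Y : ℕ → Prop} {Mk : ℕ → ℕ}
    (hMk : MOn D.w g.c Y Mk) {tK : ℕ → ℕ} {K1 M : ℕ} {oK : ℤ}
    {r1 : ℤ} (hT : ∀ v : Fin 7, TOK D.w M (tK v)) (hM : K1 + 7 * M < 2 ^ (D.w - 1))
    (hr : (K1 : ℤ) ≤ D.C0 - 2 * S.Lo + 7 * D.OP - r1 - 7 * oK)
    (hch : ∀ τ < 16, chHm D (D.QE g τ) (Mk τ) tK K1 τ = true) :
    R1Y S g.c Y (fun v b => (fl D.w (tK v) b : ℤ) - oK) r1 := by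
  intro n H E' s hP hJ hY
  have hw := D.hw
  have hw0 := D.hw0
  have hsz := D.hsz
  have h2w : 2 ^ (D.w - 1) ≤ 2 ^ D.w := Nat.pow_le_pow_right (by norm_num) (by omega)
  have h0 := D.rowA_eq H E' s g.c hc hP hJ
  have hmk := hMk.2 n H E' s hP hJ hY
  set τ : ℕ := idx 4 fun i => gc H s (16 + i) with hτd
  have hτ : τ < 16 := idx_lt 4 _
  have hMA : Ar D.w 16 (Mk τ) fun b => Ln D.w (Mk τ) (idx 16 b) := ⟨hMk.1 τ hτ, fun _ => rfl⟩
  have h1 := (D.QA_ar g.c hc τ hτ).and hMA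
  have h4 := fun b => D.fQ_le g.c hc τ hτ b
  have hbd : ∀ b, D.fQ g.c τ b < 2 ^ (D.w - 1) := fun b => by have := h4 b; omega
  have h2 := (csG_ar hw0 (show K1 < 2 ^ D.w by omega) 16).add
    (sum_view_ar hw0 tK hT hτ (by omega)) hw0
    (fun b => by
      have := sum_le7 (fun v => fl D.w (tK v) (kv v (mk20 τ b))) M fun v => (hT v).le _
      omega)
  have hck := hch τ hτ
  unfold chHm at hck
  cases hM0 : Nat.beq (Mk τ) 0 with
  | true =>
    exfalso
    rw [Nat.eq_of_beq_eq_true hM0, Ln_zero_left] at hmk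
    have : 2 ^ 1 ≤ 2 ^ D.w := Nat.pow_le_pow_right (by norm_num) (by omega)
    omega
  | false =>
  rw [hM0] at hck
  dsimp only at hck
  unfold chH at hck
  rw [D.QE_eq g hg] at hck
  have h3 := leL_le hw h1 h2 (fun b => lt_of_le_of_lt Nat.and_le_left (hbd b))
    (fun b => by
      have := sum_le7 (fun v => fl D.w (tK v) (kv v (mk20 τ b))) M fun v => (hT v).le _
      omega) hck (gc H s)
  have h5 : ∀ v : Fin 7, kv v (mk20 τ (gc H s)) = kv v (gc H s) := fun v =>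
    kv_congr v _ _ (mk20_tau (gc H s))
  beta_reduce at h3
  rw [hmk, and_full _ _ (lt_of_lt_of_le (hbd (gc H s)) h2w)] at h3
  have h7 : D.fQ g.c τ (gc H s) ≤ K1 + ∑ v : Fin 7, fl D.w (tK v) (kv v (gc H s)) := by
    calc D.fQ g.c τ (gc H s) ≤ _ := h3
      _ = _ := by rw [Finset.sum_congr rfl fun v _ => by rw [h5 v]]
  have h8 : (D.fQ g.c τ (gc H s) : ℤ) ≤ K1 + ∑ v : Fin 7, (fl D.w (tK v) (kv v (gc H s)) : ℤ) := by
    exact_mod_cast h7
  rw [h0, Finset.sum_sub_distrib, Finset.sum_const, Finset.card_univ, Fintype.card_fin,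
    nsmul_eq_mul]
  push_cast
  linarith

/-- The far pairs of a part. -/
theorem farY_ent (hw : D.w = 64) (K : ℕ) (hKe : (K : ℤ) = D.C0 - 2 * S.Lo + 14 * D.OP + D.OB)
    (g z : Jv.Ent) (hgz : (g.mg && (z.z0 && Nat.beq g.c z.c)) = true) (hc : g.c ∈ D.reps)
    {Y : ℕ → Prop} {Mk : ℕ → ℕ} (hMk : MOn 64 z.c Y Mk)
    {tE tK tS : ℕ → ℕ} (hE : tok tE = true) (hK : tok tK = true) (hS : tok tS = true)
    {K1 K2 K4 : ℕ} (hN : chN D K K1 K2 K4 = true)
    (h1 : ∀ τ < 16, chHm D (D.QE g τ) (Mk τ) tK K1 τ = true)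
    (h2 : ∀ τ < 16, chE D tE K2 τ = true)
    (h3 : ∀ v < 7, ∀ x < 1024, chT D (Jv.jsE z v) (tE v) (tK v) (tS v) x = true)
    (h4 : R4 g.c 7 (fun v b => (fl 64 (tS v) b : ℤ) - (0 : ℤ)) (K4 : ℤ)) :
    FarY S g.c 7 Y := by
  obtain ⟨n1, n2, n3, n4⟩ := chN_spec D hN
  simp only [Bool.and_eq_true, Nat.beq_eq] at hgz
  obtain ⟨hg, hz, hcz⟩ := hgz
  rw [← hcz] at hMk
  have hy : ∀ v : Fin 7, Jv.yc6 g.c v = 0 := by rw [hcz]; exact z0_yc z hz
  have hzm : z.mt = true := by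
    unfold Jv.Ent.z0 at hz
    simp only [Bool.and_eq_true] at hz
    exact hz.1
  have hjs : ∀ v : Fin 7, Jv.jsE z v = Jv.jc6 g.c v := by rw [hcz]; exact Jv.jsE_eq z hzm
  have hE' := tok_spec hE
  have hK' := tok_spec hK
  have hS' := tok_spec hS
  have e63 : (2 : ℕ) ^ (64 - 1) = 9223372036854775808 := by norm_num
  have e46 : (2 : ℕ) ^ 46 - 1 = 70368744177663 := by norm_num
  have a1 : R1Y S g.c Y (fun v b => (fl D.w (tK v) b : ℤ) - (D.OP : ℤ))
      (D.C0 - 2 * S.Lo - K1) := by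
    refine R1Y_of D g hg hc (by rw [hw]; exact hMk) (M := 2 ^ 46 - 1) (K1 := K1) ?_ ?_ ?_ h1
    · rw [hw]; exact hK'
    · rw [hw, e63, e46]; omega
    · linarith
  have a2 : R2 S (fun v b => (fl D.w (tE v) b : ℤ) - (0 : ℤ)) ((K2 : ℤ) + D.OB) := by
    refine R2_of D (M := 2 ^ 46 - 1) (K2 := K2) ?_ ?_ ?_ ?_ h2
    · rw [hw]; exact hE'
    · rw [hw, e63, e46]; omega
    · rw [hw, e63]; exact n3
    · linarith
  have a3 : R3 S g.c (fun v b => (fl D.w (tK v) b : ℤ) - (D.OP : ℤ))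
      (fun v b => (fl D.w (tE v) b : ℤ) - (0 : ℤ)) (fun v b => (fl D.w (tS v) b : ℤ) - (0 : ℤ)) := by
    refine R3_of D hy hjs (M := 2 ^ 46 - 1) (by ring) ?_ ?_ ?_ ?_ h3
    · rw [hw]; exact hE'
    · rw [hw]; exact hK'
    · rw [hw, e63, e46]; omega
    · rw [hw]; exact hS'
  have a4 : R4 g.c 7 (fun v b => (fl D.w (tS v) b : ℤ) - (0 : ℤ)) (K4 : ℤ) := by
    rw [hw]
    exact h4
  refine farY_of a1 a2 a3 a4 ?_
  have n1' : (K1 : ℤ) + 14 * D.OP ≤ K2 + K4 + K := by exact_mod_cast n1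
  linarith

/-- The condition for the differences from the check. -/
theorem R4_chk (z : Jv.Ent) (hz : z.z0 = true) {tS : ℕ → ℕ} (hS : tok tS = true) {K4 : ℕ}
    (n4 : K4 ≤ 562949953421312)
    (h4 : ∀ τ < 16, chD tS (Jv.jsE z)
      ((562949953421312 - K4) + 1125899906842624 * 107) τ = true) :
    R4 z.c 7 (fun v b => (fl 64 (tS v) b : ℤ) - (0 : ℤ)) (K4 : ℤ) := by
  have hzm : z.mt = true := by
    unfold Jv.Ent.z0 at hz
    simp only [Bool.and_eq_true] at hz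
    exact hz.1
  exact R4_of (k0 := 7) (K := K4) (z0_yc z hz) (Jv.jsE_eq z hzm) (tok_spec hS) (by linarith) n4
    (by norm_num) rfl h4

/-- The condition for the differences with the constant zero. -/
theorem R4_zero (c : ℕ) (tS : ℕ → ℕ) :
    R4 c 7 (fun v b => (fl 64 (tS v) b : ℤ) - (0 : ℤ)) ((0 : ℕ) : ℤ) := by
  intro n H E' E'' s _ _ _ _
  refine le_trans (le_of_eq Nat.cast_zero) (Finset.sum_nonneg fun v _ => ?_)
  beta_reduce
  rw [sub_zero]
  exact Nat.cast_nonneg _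

/-- The codes outside of the exceptional lists. -/
theorem farY_out (hw : D.w = 64) (K : ℕ) (hKe : (K : ℤ) = D.C0 - 2 * S.Lo + 14 * D.OP + D.OB)
    (g z : Jv.Ent) (hgz : (g.mg && (z.z0 && Nat.beq g.c z.c)) = true) (hc : g.c ∈ D.reps)
    (X : List (List ℕ))
    {tE tK tS : ℕ → ℕ} (hE : tok tE = true) (hK : tok tK = true) (hS : tok tS = true)
    {K1 K2 K4 : ℕ} (hN : chN D K K1 K2 K4 = true)
    (h1 : ∀ τ < 16, chH D (D.QE g τ) (Nat.xor (Jv.mkE D.w z τ) (xLL D.w τ X)) tK K1 τ = true)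
    (h2 : ∀ τ < 16, chE D tE K2 τ = true)
    (h3 : ∀ v < 7, ∀ x < 1024, chT D (Jv.jsE z v) (tE v) (tK v) (tS v) x = true)
    (h4 : ∀ τ < 16, chD tS (Jv.jsE z)
      ((562949953421312 - K4) + 1125899906842624 * 107) τ = true) :
    FarY S g.c 7 (Out X) := by
  have hgz' := hgz
  simp only [Bool.and_eq_true, Nat.beq_eq] at hgz'
  obtain ⟨hg, hz, hcz⟩ := hgz'
  have hn4 := (chN_spec D hN).2.2.2
  have h5 := R4_chk z hz hS hn4 h4
  rw [← hcz] at h5
  have h6 := mOn_out (w := 64) (by norm_num) z hz X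
  rw [hw] at h1
  exact farY_ent D hw K hKe g z hgz hc h6 hE hK hS hN (fun τ hτ => chHm_of_chH D (h1 τ hτ)) h2 h3 h5

/-- The codes of some lists. -/
theorem farY_in (hw : D.w = 64) (K : ℕ) (hKe : (K : ℤ) = D.C0 - 2 * S.Lo + 14 * D.OP + D.OB)
    (g z : Jv.Ent) (hgz : (g.mg && (z.z0 && Nat.beq g.c z.c)) = true) (hc : g.c ∈ D.reps)
    (X : List (List ℕ))
    {tE tK tS : ℕ → ℕ} (hE : tok tE = true) (hK : tok tK = true) (hS : tok tS = true)
    {K1 K2 K4 : ℕ} (hN : chN D K K1 K2 K4 = true)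
    (h1 : ∀ τ < 16, chHm D (D.QE g τ) (xLL D.w τ X) tK K1 τ = true)
    (h2 : ∀ τ < 16, chE D tE K2 τ = true)
    (h3 : ∀ v < 7, ∀ x < 1024, chT D (Jv.jsE z v) (tE v) (tK v) (tS v) x = true)
    (h4 : R4 g.c 7 (fun v b => (fl 64 (tS v) b : ℤ) - (0 : ℤ)) (K4 : ℤ)) :
    FarY S g.c 7 (Inn X) := by
  have h6 := mOn_inn (w := 64) (c := z.c) (by norm_num) X
  rw [hw] at h1
  exact farY_ent D hw K hKe g z hgz hc h6 hE hK hS hN h1 h2 h3 h4

end tabs

end Pool.Agent.Lib.MP_afdd4d_co.K8.Pt
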