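import Pool.Agent.Lib.MP_afdd4d_co.K8.PsiSkel

/-!
# The rows of a pair system

A pair system consists of a kernel on five vertices, a symmetric function of pairs on six vertices
and a symmetric function of even 4-graphs on seven vertices.  Its rows are invariant under
permutations, so that it suffices to check one representative of every difference of a 4-graph and
an even 4-graph on seven vertices, apart from the far pairs.
-/

namespace Pool.Agent.Lib.MP_afdd4d_co.K8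

open Finset

theorem MS_perm {V M : Type*} [AddCommMonoid M] (μ : V → (Fin 6 → V) → M)
    (hμ : ∀ (τ : Equiv.Perm (Fin 6)) r p, μ r (p ∘ τ) = μ r p)
    (σ : Equiv.Perm (Fin (6 + 1))) (t : Fin (6 + 1) → V) : MS μ (t ∘ σ) = MS μ t := by
  unfold MS
  rw [← Equiv.sum_comp σ (fun x => μ (t x) (t ∘ x.succAbove))]
  refine Finset.sum_congr rfl fun x _ => ?_
  obtain ⟨τ, hτ⟩ := exists_succAbove_perm σ x
  have e : (t ∘ σ) ∘ x.succAbove = (t ∘ (σ x).succAbove) ∘ τ := by
    funext i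
    simp only [Function.comp_apply]
    rw [hτ]
  rw [e, hμ]
  rfl

section perm
variable {n m : ℕ} (H E' : Finset (Finset (Fin n)))

theorem N8_permP (t : Fin m → Fin n) (σ : Equiv.Perm (Fin m)) : N8 H (t ∘ σ) = N8 H t := by
  unfold N8
  have h : ∀ T : Finset (Fin m), E H (t ∘ σ) T = E H t (T.image σ) := fun T => E_comp H t σ T
  simp_rw [h]
  refine Finset.sum_bij (fun T _ => T.image σ) ?_ ?_ ?_ ?_
  · intro T hT
    rw [Finset.mem_powersetCard] at hT ⊢
    exact ⟨Finset.subset_univ _, by rw [Finset.card_image_of_injective _ σ.injective, hT.2]⟩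
  · intro T _ T' _ h
    exact Finset.image_injective σ.injective h
  · intro T hT
    rw [Finset.mem_powersetCard] at hT
    refine ⟨T.image σ.symm, ?_, ?_⟩
    · rw [Finset.mem_powersetCard]
      exact ⟨Finset.subset_univ _, by
        rw [Finset.card_image_of_injective _ σ.symm.injective, hT.2]⟩
    · rw [Finset.image_image]
      have : (σ : Fin m → Fin m) ∘ σ.symm = id := by funext i; simp
      rw [this, Finset.image_id]
  · intro T _
    rfl

/-- The difference of two hypergraphs on a tuple. -/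
def JD (t : Fin m → Fin n) : Finset (Finset (Fin m)) :=
  ((univ : Finset (Fin m)).powersetCard 4).filter fun T => E H t T ≠ E E' t T

theorem mem_JD (t : Fin m → Fin n) (T : Finset (Fin m)) :
    T ∈ JD H E' t ↔ T.card = 4 ∧ E H t T ≠ E E' t T := by
  unfold JD
  rw [Finset.mem_filter, Finset.mem_powersetCard]
  constructor
  · rintro ⟨⟨_, h1⟩, h2⟩
    exact ⟨h1, h2⟩
  · rintro ⟨h1, h2⟩
    exact ⟨⟨Finset.subset_univ _, h1⟩, h2⟩

theorem JD_card4 (t : Fin m → Fin n) : ∀ T ∈ JD H E' t, T.card = 4 := fun T hT =>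
  ((mem_JD H E' t T).mp hT).1

/-- The difference on a tuple with permuted vertices. -/
theorem mem_JD_perm (t : Fin m → Fin n) (σ : Equiv.Perm (Fin m)) (T : Finset (Fin m)) :
    T ∈ JD H E' (t ∘ σ) ↔ T.image σ ∈ JD H E' t := by
  rw [mem_JD, mem_JD, E_comp, E_comp, Finset.card_image_of_injective _ σ.injective]

end perm

/-- A pair system. -/
structure PsiSys where
  a : ℤ
  Lo : ℤ
  ha : 0 < a
  k5 : Kern 5
  k5s : ∀ {n : ℕ} (H : Finset (Finset (Fin n))) (τ : Equiv.Perm (Fin 5)) (s : Fin 5 → Fin n)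
    (u w : Fin n), k5.f H (s ∘ τ) u w = k5.f H s u w
  ψ : ∀ {n : ℕ}, Finset (Finset (Fin n)) → Finset (Finset (Fin n)) → (Fin 6 → Fin n) → ℤ
  ψs : ∀ {n : ℕ} (H E' : Finset (Finset (Fin n))) (τ : Equiv.Perm (Fin 6)) (p : Fin 6 → Fin n),
    ψ H E' (p ∘ τ) = ψ H E' p
  B : ∀ {n : ℕ}, Finset (Finset (Fin n)) → (Fin 7 → Fin n) → ℤ
  Bs : ∀ {n : ℕ} (E' : Finset (Finset (Fin n))) (τ : Equiv.Perm (Fin 7)) (p : Fin 7 → Fin n),
    B E' (p ∘ τ) = B E' p
  CB : ℝ
  hCB : ∀ {n : ℕ} (E' : Finset (Finset (Fin n))) (p : Fin 7 → Fin n), |((B E' p : ℤ) : ℝ)| ≤ CB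

namespace PsiSys

variable (S : PsiSys)

/-- The part of the row that depends on the 4-graph only. -/
def rowA {n : ℕ} (H : Finset (Finset (Fin n))) (s : Fin 7 → Fin n) : ℤ :=
  2 * S.a * (N8 H s : ℤ) - 2 * S.Lo - PS (S.k5.f H) s - MS (fun r p => S.ψ H (EvR H r) p) s

/-- The row of a pair on seven vertices. -/
def row {n : ℕ} (H E' : Finset (Finset (Fin n))) (s : Fin 7 → Fin n) : ℤ :=
  S.rowA H s + DS (m := 6) (S.ψ H E') s - S.B E' s

theorem rowA_perm {n : ℕ} (H : Finset (Finset (Fin n))) (s : Fin 7 → Fin n)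
    (σ : Equiv.Perm (Fin 7)) : S.rowA H (s ∘ σ) = S.rowA H s := by
  unfold rowA
  rw [N8_permP H s σ, PS_perm (S.k5.f H) (fun τ s' u w => S.k5s H τ s' u w) σ s,
    MS_perm (fun r p => S.ψ H (EvR H r) p) (fun τ r p => S.ψs H (EvR H r) τ p) σ s]

theorem row_perm {n : ℕ} (H E' : Finset (Finset (Fin n))) (s : Fin 7 → Fin n)
    (σ : Equiv.Perm (Fin 7)) : S.row H E' (s ∘ σ) = S.row H E' s := by
  unfold row
  rw [S.rowA_perm H s σ, DS_perm (m := 6) (S.ψ H E') (fun τ p => S.ψs H E' τ p) σ s, S.Bs E' σ s]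

/-- The pairs on which the rows are to be checked. -/
def Pr {n : ℕ} (H E' : Finset (Finset (Fin n))) (s : Fin 7 → Fin n) : Prop :=
  (∀ e ∈ H, e.card = 4) ∧
  (∀ T : Finset (Fin n), T.card = 5 → ∃ e ∈ T.powersetCard 4, e ∉ H) ∧
  (∀ e ∈ E', e.card = 4) ∧ EvenH n E' ∧ Function.Injective s

theorem Pr.comp {n : ℕ} {H E' : Finset (Finset (Fin n))} {s : Fin 7 → Fin n} (h : Pr H E' s)
    (σ : Equiv.Perm (Fin 7)) : Pr H E' (s ∘ σ) :=
  ⟨h.1, h.2.1, h.2.2.1, h.2.2.2.1, h.2.2.2.2.comp σ.injective⟩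

/-- The rows of the pairs with a given difference. -/
def RowJ (J : Finset (Finset (Fin 7))) : Prop :=
  ∀ (n : ℕ) (H E' : Finset (Finset (Fin n))) (s : Fin 7 → Fin n), Pr H E' s →
    JD H E' s = J → 0 ≤ S.row H E' s

theorem RowJ.perm {S : PsiSys} {J J' : Finset (Finset (Fin 7))} (h : S.RowJ J)
    (σ : Equiv.Perm (Fin 7)) (hJ' : ∀ T ∈ J', T.card = 4)
    (hσ : ∀ T : Finset (Fin 7), T.card = 4 → (T ∈ J ↔ T.image σ ∈ J')) (hJ : ∀ T ∈ J, T.card = 4) :
    S.RowJ J' := by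
  intro n H E' s hP hD
  rw [← S.row_perm H E' s σ]
  refine h n H E' (s ∘ σ) (hP.comp σ) ?_
  ext T
  rw [mem_JD_perm, hD]
  constructor
  · intro h1
    have h2 := hJ' _ h1
    rw [Finset.card_image_of_injective _ σ.injective] at h2
    exact (hσ T h2).mpr h1
  · intro h1
    exact (hσ T (hJ T h1)).mp h1

/-- The upper bound from the rows. -/
theorem bound (κ6 : Kern 6) (lam : ℝ) (hlam : lam * (35 * S.a) ≤ S.Lo)
    (hrow : ∀ (n : ℕ) (H E' : Finset (Finset (Fin n))) (s : Fin 7 → Fin n), Pr H E' s →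
      0 ≤ S.row H E' s)
    (hB : ∀ (n : ℕ) (E' : Finset (Finset (Fin n))), (∀ e ∈ E', e.card = 4) → EvenH n E' →
      ∀ t : Fin (7 + 1) → Fin n, Function.Injective t →
        PS (κ6.f E') t ≤ DS (m := 7) (S.B E') t) :
    ∀ ε : ℝ, 0 < ε → ∃ N : ℕ, ∀ n : ℕ, N ≤ n → ∀ H : Finset (Finset (Fin n)),
      (∀ e ∈ H, e.card = 4) →
      (∀ T : Finset (Fin n), T.card = 5 → ∃ e ∈ T.powersetCard 4, e ∉ H) →
      (H.card : ℝ) ≤ (1 - lam + ε) * ((n.choose 4 : ℕ) : ℝ) := by
  set κr : RKern := ⟨fun _ _ _ _ _ => 0, 0, by intros; simp, by intros; simp⟩ with hκr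
  refine boundPsi S.k5.toP κ6 κr (fun _ _ _ => 0) (fun H E' p => S.ψ H E' p)
    (fun E' p => S.B E' p) (fun _ _ => 0) S.CB ?_ S.a S.Lo S.ha lam hlam ?_ ?_ ?_
  · intro n E' p
    rw [add_zero]
    exact S.hCB E' p
  · intro n H E' h4 h5 hE4 hE s hs
    have h := hrow n H E' s ⟨h4, h5, hE4, hE, hs⟩
    unfold row rowA at h
    have e1 : MS (fun (_ : Fin n) (_ : Fin 6 → Fin n) => (0 : ℤ)) s = 0 := by
      unfold MS
      exact Finset.sum_const_zero
    have e2 : S.k5.toP.f H E' = S.k5.f H := rfl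
    rw [e1, e2]
    linarith
  · intro n E' hE4 hE t ht
    have h := hB n E' hE4 hE t ht
    refine le_trans h (le_of_eq ?_)
    unfold DS
    refine Finset.sum_congr rfl fun x _ => ?_
    exact (add_zero _).symm
  · intro n H r p _ _ _
    have e1 : DS (m := 6) (fun _ : Fin 6 → Fin n => (0 : ℤ)) p = 0 := by
      unfold DS
      exact Finset.sum_const_zero
    have e2 : PS (κr.f H r) p = 0 := by
      unfold PS
      refine Finset.sum_eq_zero fun x _ => Finset.sum_eq_zero fun y _ => ?_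
      rfl
    rw [e2, zero_add]
    exact le_of_eq e1.symm

end PsiSys

end Pool.Agent.Lib.MP_afdd4d_co.K8
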