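import Pool.Agent.Lib.MP_afdd4d_co.K8.Ln
import Pool.Agent.Lib.MP_afdd4d_co.Fast

/-!
# Arrays of lanes and operations on the bits of the index

The functions are written with recursors and the operations of `Nat`, so that the kernel evaluates them
by machine arithmetic.
-/

namespace Pool.Agent.Lib.MP_afdd4d_co.K8

open Finset

/-- `A` is an array of `2 ^ n` lanes of `W` bits with the value `f b` at the index with bits `b`. -/
structure Ar (W n A : ℕ) (f : (ℕ → Bool) → ℕ) : Prop where
  lt : A < 2 ^ (W * 2 ^ n)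
  get : ∀ b, Ln W A (idx n b) = f b

namespace Ar
variable {W n A B : ℕ} {f g : (ℕ → Bool) → ℕ}

theorem lane (h : Ar W n A f) (i : ℕ) (hi : i < 2 ^ n) : Ln W A i = f i.testBit := by
  rw [← h.get, idx_testBit n i hi]

theorem out (h : Ar W n A f) (i : ℕ) (hi : 2 ^ n ≤ i) : Ln W A i = 0 :=
  Ln_eq_zero_of_lt _ _ _ _ h.lt hi

theorem congr (h : Ar W n A f) (hfg : ∀ b, f b = g b) : Ar W n A g :=
  ⟨h.lt, fun b => by rw [h.get, hfg]⟩

theorem le (h : Ar W n A f) (M : ℕ) (hM : ∀ b, f b ≤ M) (i : ℕ) : Ln W A i ≤ M := by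
  by_cases hi : i < 2 ^ n
  · rw [h.lane i hi]; exact hM _
  · rw [h.out i (not_lt.mp hi)]; exact Nat.zero_le _

theorem f_lt (h : Ar W n A f) (b : ℕ → Bool) : f b < 2 ^ W := by
  rw [← h.get]; exact Ln_lt _ _ _

theorem dep (h : Ar W n A f) (b b' : ℕ → Bool) (hb : ∀ r < n, b r = b' r) : f b = f b' := by
  rw [← h.get, ← h.get, idx_congr n b b' hb]

theorem add (hA : Ar W n A f) (hB : Ar W n B g) (hW : 0 < W) (h : ∀ b, f b + g b < 2 ^ W) :
    Ar W n (A + B) fun b => f b + g b := by
  have h0 : ∀ i, Ln W A i + Ln W B i < 2 ^ W := by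
    intro i
    by_cases hi : i < 2 ^ n
    · rw [hA.lane i hi, hB.lane i hi]; exact h _
    · rw [hA.out i (not_lt.mp hi), hB.out i (not_lt.mp hi)]; exact Nat.two_pow_pos W
  refine ⟨?_, fun b => ?_⟩
  · apply lt_of_Ln_eq_zero _ _ _ hW
    intro i hi
    rw [Ln_add _ _ _ h0, hA.out i hi, hB.out i hi]
  · rw [Ln_add _ _ _ h0, hA.get, hB.get]

theorem sub (hA : Ar W n A f) (hB : Ar W n B g) (hW : 0 < W) (h : ∀ b, g b ≤ f b) :
    Ar W n (A - B) fun b => f b - g b := by
  have h0 : ∀ i, Ln W B i ≤ Ln W A i := by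
    intro i
    by_cases hi : i < 2 ^ n
    · rw [hA.lane i hi, hB.lane i hi]; exact h _
    · rw [hA.out i (not_lt.mp hi), hB.out i (not_lt.mp hi)]
  refine ⟨?_, fun b => ?_⟩
  · apply lt_of_Ln_eq_zero _ _ _ hW
    intro i hi
    rw [Ln_sub _ _ _ hW h0, hA.out i hi, hB.out i hi]
  · rw [Ln_sub _ _ _ hW h0, hA.get, hB.get]

theorem or (hA : Ar W n A f) (hB : Ar W n B g) (hW : 0 < W) :
    Ar W n (A ||| B) fun b => f b ||| g b := by
  refine ⟨?_, fun b => ?_⟩
  · apply lt_of_Ln_eq_zero _ _ _ hW
    intro i hi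
    rw [Ln_or, hA.out i hi, hB.out i hi]; rfl
  · rw [Ln_or, hA.get, hB.get]

theorem cat (hA : Ar W n A f) (hB : Ar W n B g) (hW : 0 < W) :
    Ar W (n + 1) (A + B <<< (W * 2 ^ n)) fun b => if b n = true then g b else f b := by
  have h2 : 2 ^ (n + 1) = 2 ^ n + 2 ^ n := by rw [pow_succ]; ring
  refine ⟨?_, fun b => ?_⟩
  · apply lt_of_Ln_eq_zero _ _ _ hW
    intro i hi
    rw [Ln_cat _ _ _ _ _ hA.lt, if_neg (by omega)]
    exact hB.out _ (by omega)
  · have hlt := idx_lt n b
    rw [idx, Ln_cat _ _ _ _ _ hA.lt]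
    cases b n
    · rw [Bool.toNat_false, mul_zero, add_zero, if_pos hlt, if_neg (by simp), hA.get]
    · rw [Bool.toNat_true, mul_one, if_neg (by omega), Nat.add_sub_cancel, if_pos rfl, hB.get]

theorem dup (hA : Ar W n A f) (hW : 0 < W) : Ar W (n + 1) (A + A <<< (W * 2 ^ n)) f :=
  (hA.cat hA hW).congr fun b => by split_ifs <;> rfl

theorem smul (c : ℕ) (hA : Ar W n A f) (hW : 0 < W) (h : ∀ b, c * f b < 2 ^ W) :
    Ar W n (c * A) fun b => c * f b := by
  have h0 : ∀ i, c * Ln W A i < 2 ^ W := by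
    intro i
    by_cases hi : i < 2 ^ n
    · rw [hA.lane i hi]; exact h _
    · rw [hA.out i (not_lt.mp hi)]; simp
  refine ⟨?_, fun b => ?_⟩
  · apply lt_of_Ln_eq_zero _ _ _ hW
    intro i hi
    rw [Ln_smul _ _ _ h0, hA.out i hi, mul_zero]
  · rw [Ln_smul _ _ _ h0, hA.get]

theorem ofLt {x : ℕ} (hx : x < 2 ^ W) : Ar W 0 x fun _ => x := by
  refine ⟨by simpa using hx, fun b => ?_⟩
  rw [idx, Ln_small _ _ hx, if_pos rfl]

end Ar

/-! ### Constant arrays and masks -/

/-- Two copies. -/
def dpG (W n A : ℕ) : ℕ := Nat.add A (Nat.shiftLeft A (Nat.mul W (Nat.pow 2 n)))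

theorem dpG_ar {W n A : ℕ} {f : (ℕ → Bool) → ℕ} (hW : 0 < W) (hA : Ar W n A f) :
    Ar W (n + 1) (dpG W n A) f := hA.dup hW

/-- The constant array. -/
def csG (W c n : ℕ) : ℕ := @Nat.rec (fun _ => ℕ) c (fun k ih => dpG W k ih) n

theorem csG_ar {W c : ℕ} (hW : 0 < W) (hc : c < 2 ^ W) (n : ℕ) : Ar W n (csG W c n) fun _ => c := by
  induction n with
  | zero => exact Ar.ofLt hc
  | succ n ih => exact dpG_ar hW ih

theorem fullLt (W : ℕ) : 2 ^ W - 1 < 2 ^ W := by
  have := Nat.two_pow_pos W
  omega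

/-- All bits set in the lanes whose index has bit `p` equal to one and bit `q` equal to zero. -/
def mkG (W p q n : ℕ) : ℕ := @Nat.rec (fun _ => ℕ) (Nat.sub (Nat.pow 2 W) 1)
  (fun k ih => @Bool.rec (fun _ => ℕ)
      (@Bool.rec (fun _ => ℕ) (Nat.add ih (Nat.shiftLeft ih (Nat.mul W (Nat.pow 2 k)))) ih
        (Nat.beq k q))
      (Nat.shiftLeft ih (Nat.mul W (Nat.pow 2 k))) (Nat.beq k p)) n

/-- All bits set in the lanes whose index has bit `u` equal to zero. -/
def mzG (W u n : ℕ) : ℕ := @Nat.rec (fun _ => ℕ) (Nat.sub (Nat.pow 2 W) 1)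
  (fun k ih => @Bool.rec (fun _ => ℕ)
      (Nat.add ih (Nat.shiftLeft ih (Nat.mul W (Nat.pow 2 k)))) ih (Nat.beq k u)) n

theorem ar_zero {W : ℕ} (n : ℕ) : Ar W n 0 fun _ => 0 :=
  ⟨Nat.two_pow_pos _, fun b => Ln_zero_left _ _⟩

theorem ar_low {W n A : ℕ} {f : (ℕ → Bool) → ℕ} (hW : 0 < W) (hA : Ar W n A f) :
    Ar W (n + 1) A fun b => if b n = true then 0 else f b := by
  have h := hA.cat (ar_zero (W := W) n) hW
  rw [Nat.zero_shiftLeft, Nat.add_zero] at h
  exact h

theorem ar_high {W n A : ℕ} {f : (ℕ → Bool) → ℕ} (hW : 0 < W) (hA : Ar W n A f) :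
    Ar W (n + 1) (A <<< (W * 2 ^ n)) fun b => if b n = true then f b else 0 := by
  have h := (ar_zero (W := W) n).cat hA hW
  rw [Nat.zero_add] at h
  exact h

theorem mkG_ar {W : ℕ} (hW : 0 < W) (p q : ℕ) (hpq : p ≠ q) (n : ℕ) :
    Ar W n (mkG W p q n) fun b =>
      if (p < n → b p = true) ∧ (q < n → b q = false) then 2 ^ W - 1 else 0 := by
  induction n with
  | zero =>
    refine (Ar.ofLt (fullLt W)).congr fun b => ?_
    simp
  | succ n ih =>
    by_cases hp : n = p
    · have e1 : mkG W p q (n + 1) = (mkG W p q n) <<< (W * 2 ^ n) := by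
        have e2 : Nat.beq n p = true := by rw [hp]; exact Nat.beq_refl p
        have e3 : mkG W p q (n + 1) = @Bool.rec (fun _ => ℕ)
          (@Bool.rec (fun _ => ℕ) (Nat.add (mkG W p q n)
            (Nat.shiftLeft (mkG W p q n) (Nat.mul W (Nat.pow 2 n)))) (mkG W p q n) (Nat.beq n q))
          (Nat.shiftLeft (mkG W p q n) (Nat.mul W (Nat.pow 2 n))) (Nat.beq n p) := rfl
        rw [e3, e2]
        rfl
      rw [e1]
      refine (ar_high hW ih).congr fun b => ?_
      by_cases hb : b n = true
      · rw [if_pos hb]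
        congr 1
        apply propext
        constructor
        · rintro ⟨_, h4⟩
          exact ⟨fun _ => by rw [← hp]; exact hb, fun h5 => h4 (by omega)⟩
        · rintro ⟨_, h4⟩
          exact ⟨fun h5 => by omega, fun h5 => h4 (by omega)⟩
      · rw [if_neg hb, if_neg]
        rintro ⟨h3, _⟩
        exact hb (by rw [hp]; exact h3 (by omega))
    · have e2 : Nat.beq n p = false := by
        rw [Bool.eq_false_iff]
        intro h
        exact hp (Nat.eq_of_beq_eq_true h)
      have e3 : mkG W p q (n + 1) = @Bool.rec (fun _ => ℕ)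
          (@Bool.rec (fun _ => ℕ) (Nat.add (mkG W p q n)
            (Nat.shiftLeft (mkG W p q n) (Nat.mul W (Nat.pow 2 n)))) (mkG W p q n) (Nat.beq n q))
          (Nat.shiftLeft (mkG W p q n) (Nat.mul W (Nat.pow 2 n))) (Nat.beq n p) := rfl
      by_cases hq : n = q
      · have e1 : mkG W p q (n + 1) = mkG W p q n := by
          have e4 : Nat.beq n q = true := by rw [hq]; exact Nat.beq_refl q
          rw [e3, e2, e4]
        rw [e1]
        refine (ar_low hW ih).congr fun b => ?_
        by_cases hb : b n = true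
        · rw [if_pos hb, if_neg]
          rintro ⟨_, h3⟩
          have := h3 (by omega)
          rw [← hq, hb] at this
          exact Bool.noConfusion this
        · rw [if_neg hb]
          congr 1
          apply propext
          constructor
          · rintro ⟨h3, _⟩
            exact ⟨fun h5 => h3 (by omega), fun _ => by rw [← hq]; simpa using hb⟩
          · rintro ⟨h3, _⟩
            exact ⟨fun h5 => h3 (by omega), fun h5 => by omega⟩
      · have e1 : mkG W p q (n + 1) = mkG W p q n + (mkG W p q n) <<< (W * 2 ^ n) := by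
          have e4 : Nat.beq n q = false := by
            rw [Bool.eq_false_iff]
            intro h
            exact hq (Nat.eq_of_beq_eq_true h)
          rw [e3, e2, e4]
          rfl
        rw [e1]
        refine (ih.dup hW).congr fun b => ?_
        congr 1
        apply propext
        constructor
        · rintro ⟨h3, h4⟩
          exact ⟨fun h5 => h3 (by omega), fun h5 => h4 (by omega)⟩
        · rintro ⟨h3, h4⟩
          exact ⟨fun h5 => h3 (by omega), fun h5 => h4 (by omega)⟩

theorem mzG_ar {W : ℕ} (hW : 0 < W) (u n : ℕ) :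
    Ar W n (mzG W u n) fun b => if (u < n → b u = false) then 2 ^ W - 1 else 0 := by
  induction n with
  | zero =>
    refine (Ar.ofLt (fullLt W)).congr fun b => ?_
    simp
  | succ n ih =>
    have e3 : mzG W u (n + 1) = @Bool.rec (fun _ => ℕ) (Nat.add (mzG W u n)
        (Nat.shiftLeft (mzG W u n) (Nat.mul W (Nat.pow 2 n)))) (mzG W u n) (Nat.beq n u) := rfl
    by_cases hu : n = u
    · have e1 : mzG W u (n + 1) = mzG W u n := by
        have e4 : Nat.beq n u = true := by rw [hu]; exact Nat.beq_refl u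
        rw [e3, e4]
      rw [e1]
      refine (ar_low hW ih).congr fun b => ?_
      by_cases hb : b n = true
      · rw [if_pos hb, if_neg]
        intro h3
        have := h3 (by omega)
        rw [← hu, hb] at this
        exact Bool.noConfusion this
      · rw [if_neg hb]
        congr 1
        apply propext
        constructor
        · intro _ _
          rw [← hu]; simpa using hb
        · intro _ h5
          omega
    · have e1 : mzG W u (n + 1) = mzG W u n + (mzG W u n) <<< (W * 2 ^ n) := by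
        have e4 : Nat.beq n u = false := by
          rw [Bool.eq_false_iff]
          intro h
          exact hu (Nat.eq_of_beq_eq_true h)
        rw [e3, e4]
        rfl
      rw [e1]
      refine (ih.dup hW).congr fun b => ?_
      congr 1
      apply propext
      constructor
      · intro h3 h5
        exact h3 (by omega)
      · intro h3 h5
        exact h3 (by omega)

/-! ### Conditional exchange -/

def xcB (A t d : ℕ) : ℕ := Nat.xor (Nat.xor A t) (Nat.shiftLeft t d)

/-- Exchange of the lanes `i` and `i + d` for the lanes `i` in the mask. -/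
def xcG (A M d : ℕ) : ℕ := xcB A (Nat.land (Nat.xor A (Nat.shiftRight A d)) M) d

theorem xcG_ar {W n A M D : ℕ} {f : (ℕ → Bool) → ℕ} (hW : 0 < W) (hA : Ar W n A f)
    (S : (ℕ → Bool) → Prop) [DecidablePred S]
    (hM : Ar W n M fun b => if S b then 2 ^ W - 1 else 0)
    (σ : (ℕ → Bool) → ℕ → Bool)
    (h1 : ∀ b, S b → idx n (σ b) = idx n b + D)
    (h2 : ∀ b, S b → ¬ S (σ b))
    (h3 : ∀ b, σ (σ b) = b)
    (h4 : ∀ b, ¬ S b → ¬ S (σ b) → idx n (σ b) = idx n b)
    (hσ : ∀ b b', idx n b = idx n b' → idx n (σ b) = idx n (σ b')) :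
    Ar W n (xcG A M (W * D)) fun b => f (σ b) := by
  have h2W : 1 < 2 ^ W := Nat.one_lt_two_pow (by omega)
  have hSd : ∀ b b', idx n b = idx n b' → (S b ↔ S b') := by
    intro b b' hb
    have e1 := hM.get b
    have e2 := hM.get b'
    rw [hb, e2] at e1
    by_cases hs : S b
    · by_cases hs' : S b'
      · exact ⟨fun _ => hs', fun _ => hs⟩
      · rw [if_pos hs, if_neg hs'] at e1; omega
    · by_cases hs' : S b'
      · rw [if_neg hs, if_pos hs'] at e1; omega
      · exact ⟨fun h => absurd h hs, fun h => absurd h hs'⟩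
  set t := (A ^^^ (A >>> (W * D))) &&& M with ht
  have ht_lane : ∀ m, Ln W t m = (Ln W A m ^^^ Ln W A (m + D)) &&& Ln W M m := by
    intro m
    rw [ht, Ln_and, Ln_xor, Ln_shr]
  have hMin : ∀ m, Ln W M m ≠ 0 → m < 2 ^ n ∧ S m.testBit := by
    intro m hm
    have hmn : m < 2 ^ n := by
      by_contra hcon
      exact hm (hM.out m (not_lt.mp hcon))
    refine ⟨hmn, ?_⟩
    by_contra hs
    apply hm
    rw [hM.lane m hmn, if_neg hs]
  have ht_zero : ∀ m, Ln W M m = 0 → Ln W t m = 0 := by
    intro m hm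
    rw [ht_lane, hm, Nat.and_zero]
  have hres : ∀ i, Ln W (xcG A M (W * D)) i =
      (Ln W A i ^^^ Ln W t i) ^^^ (if i < D then 0 else Ln W t (i - D)) := by
    intro i
    have e : xcG A M (W * D) = (A ^^^ t) ^^^ (t <<< (W * D)) := rfl
    rw [e, Ln_xor, Ln_xor, Ln_shl]
  -- the shifted term vanishes unless i - D is in the mask
  have hshift : ∀ i, (if i < D then 0 else Ln W t (i - D)) ≠ 0 →
      D ≤ i ∧ (i - D) < 2 ^ n ∧ S (i - D).testBit ∧
        idx n (σ (i - D).testBit) = i := by
    intro i hi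
    by_cases hiD : i < D
    · rw [if_pos hiD] at hi; exact absurd rfl hi
    · rw [if_neg hiD] at hi
      have hne : Ln W M (i - D) ≠ 0 := fun h0 => hi (ht_zero _ h0)
      obtain ⟨h5, h6⟩ := hMin _ hne
      refine ⟨not_lt.mp hiD, h5, h6, ?_⟩
      rw [h1 _ h6, idx_testBit n _ h5]
      omega
  refine ⟨?_, fun b => ?_⟩
  · apply lt_of_Ln_eq_zero _ _ _ hW
    intro i hi
    rw [hres, hA.out i hi, ht_zero i (hM.out i hi)]
    have : (if i < D then 0 else Ln W t (i - D)) = 0 := by
      by_contra hne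
      obtain ⟨_, _, _, h5⟩ := hshift i hne
      have := idx_lt n (σ (i - D).testBit)
      omega
    rw [this]
    rfl
  · rw [hres, ← hA.get (σ b)]
    by_cases hs : S b
    · -- b in the mask
      have hMb : Ln W M (idx n b) = 2 ^ W - 1 := by rw [hM.get, if_pos hs]
      have h5 : Ln W t (idx n b) = Ln W A (idx n b) ^^^ Ln W A (idx n b + D) := by
        rw [ht_lane, hMb]
        exact and_full _ _ (Nat.xor_lt_two_pow (Ln_lt _ _ _) (Ln_lt _ _ _))
      have h6 : (if idx n b < D then 0 else Ln W t (idx n b - D)) = 0 := by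
        by_contra hne
        obtain ⟨h7, h8, h9, h10⟩ := hshift _ hne
        have h11 := (hSd _ _ h10).mpr hs
        exact h2 _ h9 h11
      rw [h5, h6, Nat.xor_zero, ← Nat.xor_assoc, Nat.xor_self, Nat.zero_xor, h1 b hs]
    · have hMb : Ln W M (idx n b) = 0 := by rw [hM.get, if_neg hs]
      rw [ht_zero _ hMb, Nat.xor_zero]
      by_cases hs' : S (σ b)
      · -- σ b in the mask
        have h5 := h1 _ hs'
        rw [h3] at h5
        have h6 : ¬ idx n b < D := by omega
        have h7 : idx n b - D = idx n (σ b) := by omega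
        have hMb' : Ln W M (idx n (σ b)) = 2 ^ W - 1 := by rw [hM.get, if_pos hs']
        rw [if_neg h6, h7, ht_lane, hMb', ← h5,
          and_full _ _ (Nat.xor_lt_two_pow (Ln_lt _ _ _) (Ln_lt _ _ _)),
          Nat.xor_comm (Ln W A (idx n (σ b))), ← Nat.xor_assoc, Nat.xor_self, Nat.zero_xor]
      · have h5 := h4 b hs hs'
        have h6 : (if idx n b < D then 0 else Ln W t (idx n b - D)) = 0 := by
          by_contra hne
          obtain ⟨h7, h8, h9, h10⟩ := hshift _ hne
          have h11 := hσ _ _ h10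
          rw [h3] at h11
          exact hs' ((hSd _ _ h11).mp h9)
        rw [h6, Nat.xor_zero, h5]


/-! ### Exchange of two index bits, conditional negation, negation -/

/-- Exchange of the bits `p < q` of the index. -/
def swG (W n p q A : ℕ) : ℕ :=
  xcG A (mkG W p q n) (Nat.mul W (Nat.sub (Nat.pow 2 q) (Nat.pow 2 p)))

theorem swG_ar {W n A p q : ℕ} {f : (ℕ → Bool) → ℕ} (hW : 0 < W) (hA : Ar W n A f) (hpq : p < q)
    (hq : q < n) : Ar W n (swG W n p q A) fun b => f (b ∘ Equiv.swap p q) := by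
  have hp : p < n := by omega
  have h2pq : 2 ^ p < 2 ^ q := Nat.pow_lt_pow_right (by norm_num) hpq
  have key := idx_swap n p q hpq hq
  refine xcG_ar (D := 2 ^ q - 2 ^ p) hW hA
    (fun b => (p < n → b p = true) ∧ (q < n → b q = false)) (mkG_ar hW p q (by omega) n)
    (fun b => b ∘ Equiv.swap p q) ?_ ?_ ?_ ?_ ?_
  · rintro b ⟨h1, h2⟩
    have h3 := key b
    rw [h1 hp, h2 hq] at h3
    simp only [Bool.toNat_true, Bool.toNat_false, mul_one, mul_zero, add_zero] at h3
    change idx n (b ∘ Equiv.swap p q) = _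
    omega
  · rintro b ⟨h1, h2⟩ ⟨h3, _⟩
    have h4 := h3 hp
    rw [Function.comp_apply, Equiv.swap_apply_left, h2 hq] at h4
    exact Bool.noConfusion h4
  · intro b
    funext r
    simp only [Function.comp_apply, Equiv.swap_apply_self]
  · intro b h1 h2
    have h3 := key b
    change idx n (b ∘ Equiv.swap p q) = _
    have h4 : b p = b q := by
      by_contra hne
      cases hbp : b p
      · cases hbq : b q
        · exact hne (by rw [hbp, hbq])
        · apply h2
          refine ⟨fun _ => ?_, fun _ => ?_⟩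
          · rw [Function.comp_apply, Equiv.swap_apply_left]; exact hbq
          · rw [Function.comp_apply, Equiv.swap_apply_right]; exact hbp
      · cases hbq : b q
        · exact h1 ⟨fun _ => hbp, fun _ => hbq⟩
        · exact hne (by rw [hbp, hbq])
    rw [h4] at h3
    omega
  · intro b b' h
    have h5 := idx_inj n _ _ h
    apply idx_congr
    intro r hr
    rw [Function.comp_apply, Function.comp_apply]
    apply h5
    by_cases h6 : r = p
    · rw [h6, Equiv.swap_apply_left]; exact hq
    · by_cases h7 : r = q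
      · rw [h7, Equiv.swap_apply_right]; exact hp
      · rw [Equiv.swap_apply_of_ne_of_ne h6 h7]; exact hr

/-- The bits with bit `q` replaced by `v`. -/
def upd (b : ℕ → Bool) (q : ℕ) (v : Bool) : ℕ → Bool := fun r => if r = q then v else b r

theorem idx_upd (n q : ℕ) (hq : q < n) (b : ℕ → Bool) (v : Bool) :
    idx n (upd b q v) + 2 ^ q * (b q).toNat = idx n b + 2 ^ q * v.toNat := by
  have hq' : q ∈ range n := Finset.mem_range.mpr hq
  rw [idx_eq_sum, idx_eq_sum, ← Finset.add_sum_erase _ _ hq',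
    ← Finset.add_sum_erase (range n) (fun r => 2 ^ r * (b r).toNat) hq']
  have h1 : ∑ x ∈ (range n).erase q, 2 ^ x * (upd b q v x).toNat =
      ∑ x ∈ (range n).erase q, 2 ^ x * (b x).toNat := by
    refine Finset.sum_congr rfl fun x hx => ?_
    rw [Finset.mem_erase] at hx
    rw [upd, if_neg hx.1]
  rw [h1]
  simp only [upd, if_pos]
  ring

/-- Negation of bit `q` of the index in the lanes with bit `p` equal to one. -/
def cnG (W n p q A : ℕ) : ℕ := xcG A (mkG W p q n) (Nat.mul W (Nat.pow 2 q))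

theorem cnG_ar {W n A p q : ℕ} {f : (ℕ → Bool) → ℕ} (hW : 0 < W) (hA : Ar W n A f) (hpq : p ≠ q)
    (hp : p < n) (hq : q < n) : Ar W n (cnG W n p q A) fun b => f (upd b q (b q ^^ b p)) := by
  refine xcG_ar (D := 2 ^ q) hW hA
    (fun b => (p < n → b p = true) ∧ (q < n → b q = false)) (mkG_ar hW p q hpq n)
    (fun b => upd b q (b q ^^ b p)) ?_ ?_ ?_ ?_ ?_
  · rintro b ⟨h1, h2⟩
    have h3 := idx_upd n q hq b (b q ^^ b p)
    rw [h1 hp, h2 hq] at h3
    simp only [Bool.false_xor, Bool.toNat_true, Bool.toNat_false, mul_one, mul_zero,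
      add_zero] at h3
    change idx n (upd b q (b q ^^ b p)) = _
    rw [h1 hp, h2 hq]
    exact h3
  · rintro b ⟨h1, h2⟩ ⟨_, h3⟩
    have h4 := h3 hq
    rw [upd, if_pos rfl, h1 hp, h2 hq] at h4
    exact Bool.noConfusion h4
  · intro b
    funext r
    unfold upd
    by_cases hr : r = q
    · rw [if_pos hr, if_pos rfl, if_neg hpq, Bool.xor_assoc, Bool.xor_self, Bool.xor_false, hr]
    · rw [if_neg hr, if_neg hr]
  · intro b h1 h2
    change idx n (upd b q (b q ^^ b p)) = _
    have h3 : b p = false := by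
      by_contra hne
      rw [Bool.not_eq_false] at hne
      cases hbq : b q
      · exact h1 ⟨fun _ => hne, fun _ => hbq⟩
      · apply h2
        refine ⟨fun _ => ?_, fun _ => ?_⟩
        · rw [upd, if_neg hpq]; exact hne
        · rw [upd, if_pos rfl, hne, hbq]; rfl
    apply idx_congr
    intro r _
    unfold upd
    by_cases hr : r = q
    · rw [if_pos hr, h3, Bool.xor_false, hr]
    · rw [if_neg hr]
  · intro b b' h
    have h5 := idx_inj n _ _ h
    apply idx_congr
    intro r hr
    unfold upd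
    by_cases h6 : r = q
    · rw [if_pos h6, if_pos h6, h5 q hq, h5 p hp]
    · rw [if_neg h6, if_neg h6, h5 r hr]

/-- Negation of bit `q` of the index. -/
def flG (W n q A : ℕ) : ℕ := xcG A (mzG W q n) (Nat.mul W (Nat.pow 2 q))

theorem flG_ar {W n A q : ℕ} {f : (ℕ → Bool) → ℕ} (hW : 0 < W) (hA : Ar W n A f)
    (hq : q < n) : Ar W n (flG W n q A) fun b => f (upd b q (!b q)) := by
  refine xcG_ar (D := 2 ^ q) hW hA
    (fun b => (q < n → b q = false)) (mzG_ar hW q n)
    (fun b => upd b q (!b q)) ?_ ?_ ?_ ?_ ?_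
  · intro b h2
    have h3 := idx_upd n q hq b (!b q)
    rw [h2 hq] at h3
    simp only [Bool.not_false, Bool.toNat_true, Bool.toNat_false, mul_one, mul_zero,
      add_zero] at h3
    change idx n (upd b q (!b q)) = _
    rw [h2 hq]
    exact h3
  · intro b h2 h3
    have h4 := h3 hq
    rw [upd, if_pos rfl, h2 hq] at h4
    exact Bool.noConfusion h4
  · intro b
    funext r
    unfold upd
    by_cases hr : r = q
    · rw [if_pos hr, if_pos rfl, Bool.not_not, hr]
    · rw [if_neg hr, if_neg hr]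
  · intro b h1 h2
    exfalso
    apply h2
    intro _
    rw [upd, if_pos rfl]
    cases hbq : b q
    · exact absurd (fun _ => hbq) h1
    · rfl
  · intro b b' h
    have h5 := idx_inj n _ _ h
    apply idx_congr
    intro r hr
    unfold upd
    by_cases h6 : r = q
    · rw [if_pos h6, if_pos h6, h5 q hq]
    · rw [if_neg h6, if_neg h6, h5 r hr]

end Pool.Agent.Lib.MP_afdd4d_co.K8
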