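import Pool.Agent.Lib.MP_afdd4d_co.K8.Pairs

/-!
# Even 4-graphs and the cocycle condition

A 4-graph is even if every five vertices span an even number of edges. For eight vertices let `J` be
the set of the vertices whose removal leaves an even 4-graph. If the 4-graph is not even then `J` has
at most four elements, and if it has exactly four, then the 4-graph becomes even if the
quadruple `J` is flipped.
-/

namespace Pool.Agent.Lib.MP_afdd4d_co.K8

open Finset

section coc
variable {α : Type*} [DecidableEq α] (z : Finset α → ZMod 2)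

/-- The coboundary. -/
def dl (S : Finset α) : ZMod 2 := ∑ x ∈ S, z (S.erase x)

theorem add_self_zmod2 (a : ZMod 2) : a + a = 0 := CharTwo.add_self_eq_zero a

theorem dl_dl (W : Finset α) : ∑ w ∈ W, dl z (W.erase w) = 0 := by
  unfold dl
  rw [Finset.sum_sigma']
  refine Finset.sum_involution (fun p _ => ⟨p.2, p.1⟩) ?_ ?_ ?_ ?_
  · rintro ⟨a, b⟩ _
    simp only
    rw [Finset.erase_right_comm]
    exact add_self_zmod2 _
  · rintro ⟨a, b⟩ h _ heq
    rw [Finset.mem_sigma, Finset.mem_erase] at h
    simp only [Sigma.mk.injEq, heq_eq_eq] at heq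
    exact h.2.1 heq.1
  · rintro ⟨a, b⟩ h
    rw [Finset.mem_sigma, Finset.mem_erase] at h ⊢
    exact ⟨h.2.2, fun h1 => h.2.1 h1.symm, h.1⟩
  · rintro ⟨a, b⟩ _
    rfl

/-- Every five elements span an even number of the quadruples. -/
def Ev : Prop := ∀ S : Finset α, S.card = 5 → dl z S = 0

instance [Fintype α] : Decidable (Ev z) := by unfold Ev; infer_instance

/-- The same for the sets without `x`. -/
def EvX (x : α) : Prop := ∀ S : Finset α, S.card = 5 → x ∉ S → dl z S = 0

theorem ev_iff_of_forall (h : ∀ S : Finset α, S.card = 5 → ∃ x, x ∉ S) : Ev z ↔ ∀ x, EvX z x := by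
  constructor
  · intro h1 x S hS _
    exact h1 S hS
  · intro h1 S hS
    obtain ⟨x, hx⟩ := h S hS
    exact h1 x S hS hx

theorem sub_of_odd (J : Finset α) (hJ : ∀ x ∈ J, EvX z x) (S : Finset α) (hS : S.card = 5)
    (h : dl z S ≠ 0) : J ⊆ S := by
  intro x hx
  by_contra hxS
  exact h (hJ x hx S hS hxS)

theorem card_le_four [Fintype α] (hα : 6 ≤ Fintype.card α) (J : Finset α)
    (hJ : ∀ x ∈ J, EvX z x) (h : ¬ Ev z) : J.card ≤ 4 := by
  unfold Ev at h
  push Not at h
  obtain ⟨S, hS, hne⟩ := h
  have hsub := sub_of_odd z J hJ S hS hne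
  have h5 : J.card ≤ 5 := by
    rw [← hS]
    exact Finset.card_le_card hsub
  by_contra hcon
  have hJ5 : J.card = 5 := by omega
  have hJS : J = S := Finset.eq_of_subset_of_card_le hsub (by omega)
  obtain ⟨w, hw⟩ : ∃ w, w ∉ S := by
    by_contra hall
    push Not at hall
    have : S = univ := Finset.eq_univ_iff_forall.mpr hall
    rw [this, Finset.card_univ] at hS
    omega
  have hsum := dl_dl z (insert w S)
  rw [Finset.sum_insert hw, Finset.erase_insert hw] at hsum
  have hz : ∑ x ∈ S, dl z ((insert w S).erase x) = 0 := by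
    refine Finset.sum_eq_zero fun x hx => ?_
    refine hJ x (hJS ▸ hx) _ ?_ (Finset.notMem_erase x _)
    rw [Finset.card_erase_of_mem (Finset.mem_insert_of_mem hx), Finset.card_insert_of_notMem hw, hS]
  rw [hz, add_zero] at hsum
  exact hne hsum

/-- Flipping the quadruple `J`. -/
def flp (J : Finset α) (T : Finset α) : ZMod 2 := z T + if T = J then 1 else 0

theorem dl_flp_of_not_sub (J S : Finset α) (h : ¬ J ⊆ S) : dl (flp z J) S = dl z S := by
  unfold dl flp
  refine Finset.sum_congr rfl fun x hx => ?_
  rw [if_neg, add_zero]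
  intro he
  exact h (he ▸ Finset.erase_subset _ _)

theorem dl_flp_insert (J : Finset α) (y : α) (hy : y ∉ J) :
    dl (flp z J) (insert y J) = dl z (insert y J) + 1 := by
  unfold dl flp
  rw [Finset.sum_add_distrib]
  congr 1
  rw [Finset.sum_eq_single y]
  · rw [Finset.erase_insert hy, if_pos rfl]
  · intro b hb hby
    rw [if_neg]
    intro he
    have h1 : b ∈ J := by
      rcases Finset.mem_insert.mp hb with h | h
      · exact absurd h hby
      · exact h
    rw [← he] at h1
    exact absurd h1 (Finset.notMem_erase b _)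
  · intro h
    exact absurd (Finset.mem_insert_self y J) h

theorem flip_four [Fintype α] (J : Finset α) (hJ4 : J.card = 4) (hJ : ∀ x ∈ J, EvX z x)
    (h : ¬ Ev z) : Ev (flp z J) := by
  have hz : ∀ S : Finset α, S.card = 5 → ¬ J ⊆ S → dl z S = 0 := by
    intro S hS hns
    by_contra hne
    exact hns (sub_of_odd z J hJ S hS hne)
  -- the values at the sets containing J agree
  have hc : ∀ x y : α, x ∉ J → y ∉ J → dl z (insert x J) = dl z (insert y J) := by
    intro x y hx hy
    by_cases hxy : x = y
    · rw [hxy]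
    have hxyJ : x ∉ insert y J := by
      rw [Finset.mem_insert]
      rintro (h1 | h1)
      · exact hxy h1
      · exact hx h1
    have hsum := dl_dl z (insert x (insert y J))
    rw [Finset.sum_insert hxyJ, Finset.erase_insert hxyJ, Finset.sum_insert hy] at hsum
    have e1 : (insert x (insert y J)).erase y = insert x J := by
      rw [Finset.insert_comm, Finset.erase_insert]
      rw [Finset.mem_insert]
      rintro (h1 | h1)
      · exact hxy h1.symm
      · exact hy h1
    have e2 : ∑ w ∈ J, dl z ((insert x (insert y J)).erase w) = 0 := by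
      refine Finset.sum_eq_zero fun w hw => ?_
      refine hz _ ?_ ?_
      · rw [Finset.card_erase_of_mem (Finset.mem_insert_of_mem (Finset.mem_insert_of_mem hw)),
          Finset.card_insert_of_notMem hxyJ, Finset.card_insert_of_notMem hy, hJ4]
      · intro hsub
        exact absurd (hsub hw) (Finset.notMem_erase w _)
    rw [e1, e2, add_zero] at hsum
    have h3 : dl z (insert y J) = - dl z (insert x J) := eq_neg_of_add_eq_zero_left hsum
    rw [h3, CharTwo.neg_eq]
  unfold Ev at h
  push Not at h
  obtain ⟨S, hS, hne⟩ := h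
  have hsub := sub_of_odd z J hJ S hS hne
  have h2 : ∀ S' : Finset α, S'.card = 5 → J ⊆ S' → ∃ y, y ∉ J ∧ S' = insert y J := by
    intro S' hS' hJS'
    have h3 : (S' \ J).card = 1 := by
      rw [Finset.card_sdiff_of_subset hJS', hS', hJ4]
    obtain ⟨y, hy⟩ := Finset.card_eq_one.mp h3
    have hy2 : y ∈ S' \ J := by rw [hy]; exact Finset.mem_singleton_self y
    refine ⟨y, (Finset.mem_sdiff.mp hy2).2, ?_⟩
    have h4 := Finset.sdiff_union_of_subset hJS'
    rw [hy] at h4
    rw [← h4]
    rfl
  obtain ⟨y, hyJ, hSy⟩ := h2 S hS hsub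
  intro S' hS'
  by_cases hJS' : J ⊆ S'
  · obtain ⟨x, hxJ, hSx⟩ := h2 S' hS' hJS'
    rw [hSx, dl_flp_insert z J x hxJ, hc x y hxJ hyJ, ← hSy]
    have h5 : dl z S = 1 := by
      revert hne
      generalize dl z S = a
      revert a
      decide
    rw [h5]
    decide
  · rw [dl_flp_of_not_sub z J S' hJS']
    exact hz S' hS' hJS'

end coc

/-! ### Tuples of vertices -/

section tup
variable {n : ℕ} (H : Finset (Finset (Fin n)))

/-- The indicator of the edges, with values modulo two. -/
def zt {m : ℕ} (t : Fin m → Fin n) (T : Finset (Fin m)) : ZMod 2 := if E H t T = true then 0 else 1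

/-- The four-graph of a tuple is even. -/
def EvT {m : ℕ} (t : Fin m → Fin n) : Prop := Ev (zt H t)

instance {m : ℕ} (t : Fin m → Fin n) : Decidable (EvT H t) := by unfold EvT; infer_instance

theorem zt_comp {m k : ℕ} (t : Fin m → Fin n) (f : Fin k → Fin m) (T : Finset (Fin k)) :
    zt H (t ∘ f) T = zt H t (T.image f) := by
  unfold zt
  rw [E_comp]

theorem dl_comp {m k : ℕ} (t : Fin m → Fin n) (f : Fin k → Fin m) (hf : Function.Injective f)
    (S : Finset (Fin k)) : dl (zt H (t ∘ f)) S = dl (zt H t) (S.image f) := by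
  unfold dl
  rw [Finset.sum_image fun a _ b _ h => hf h]
  refine Finset.sum_congr rfl fun x _ => ?_
  rw [zt_comp, Finset.image_erase hf]

theorem evT_comp {m k : ℕ} (t : Fin m → Fin n) (f : Fin k → Fin m) (hf : Function.Injective f)
    (h : EvT H t) : EvT H (t ∘ f) := by
  intro S hS
  rw [dl_comp H t f hf]
  exact h _ (by rw [Finset.card_image_of_injective _ hf, hS])

theorem evT_perm {m : ℕ} (t : Fin m → Fin n) (τ : Equiv.Perm (Fin m)) :
    EvT H (t ∘ τ) ↔ EvT H t := by
  constructor
  · intro h
    have h1 := evT_comp H (t ∘ τ) τ.symm τ.symm.injective h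
    have e : (t ∘ τ) ∘ τ.symm = t := by
      funext i
      simp
    rwa [e] at h1
  · exact evT_comp H t τ τ.injective

theorem evX_iff {m : ℕ} (t : Fin (m + 1) → Fin n) (x : Fin (m + 1)) :
    EvT H (t ∘ x.succAbove) ↔ EvX (zt H t) x := by
  constructor
  · intro h S hS hx
    have h1 : ∀ y ∈ S, ∃ z, x.succAbove z = y := by
      intro y hy
      apply Fin.exists_succAbove_eq
      intro h2
      exact hx (h2 ▸ hy)
    have e : (univ.filter fun z => x.succAbove z ∈ S).image x.succAbove = S := by
      ext y
      rw [Finset.mem_image]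
      constructor
      · rintro ⟨z, hz, rfl⟩
        exact (Finset.mem_filter.mp hz).2
      · intro hy
        obtain ⟨z, hz⟩ := h1 y hy
        exact ⟨z, Finset.mem_filter.mpr ⟨Finset.mem_univ _, hz ▸ hy⟩, hz⟩
    have h2 := h (univ.filter fun z => x.succAbove z ∈ S) (by
      rw [← Finset.card_image_of_injective _ (Fin.succAbove_right_injective (p := x)), e, hS])
    rw [dl_comp H t _ Fin.succAbove_right_injective, e] at h2
    exact h2
  · intro h S hS
    rw [dl_comp H t _ Fin.succAbove_right_injective]
    refine h _ (by rw [Finset.card_image_of_injective _ Fin.succAbove_right_injective, hS]) ?_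
    rw [Finset.mem_image]
    rintro ⟨z, _, hz⟩
    exact Fin.succAbove_ne x z hz

/-- The vertices whose removal leaves an even 4-graph. -/
def JT {m : ℕ} (t : Fin (m + 1) → Fin n) : Finset (Fin (m + 1)) :=
  univ.filter fun x => EvT H (t ∘ x.succAbove)

theorem JT_card_le {m : ℕ} (hm : 6 ≤ m + 1) (t : Fin (m + 1) → Fin n) (h : ¬ EvT H t) :
    (JT H t).card ≤ 4 := by
  refine card_le_four (zt H t) (by rw [Fintype.card_fin]; exact hm) _ ?_ h
  intro x hx
  exact (evX_iff H t x).mp (Finset.mem_filter.mp hx).2

theorem JT_flip {m : ℕ} (t : Fin (m + 1) → Fin n) (h : ¬ EvT H t) (h4 : (JT H t).card = 4) :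
    Ev (flp (zt H t) (JT H t)) := by
  refine flip_four (zt H t) _ h4 ?_ h
  intro x hx
  exact (evX_iff H t x).mp (Finset.mem_filter.mp hx).2

end tup

end Pool.Agent.Lib.MP_afdd4d_co.K8
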