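import Pool.Agent.Lib.MP_afdd4d_co.K8.Ins

/-!
# Programs

A program is a list of instructions `(k, p, q)`: insertion of the index bit `p` for `k = 0`, exchange of
the index bits `p < q` for `k = 1`, negation of bit `q` in the lanes with bit `p` for `k = 2`, and
negation of bit `p` otherwise.
-/

namespace Pool.Agent.Lib.MP_afdd4d_co.K8

open Finset

/-- An instruction. -/
def stG (W n A k p q : ℕ) : ℕ :=
  @Bool.rec (fun _ => ℕ)
    (@Bool.rec (fun _ => ℕ)
      (@Bool.rec (fun _ => ℕ) (flG W n p A) (cnG W n p q A) (Nat.beq k 2))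
      (swG W n p q A) (Nat.beq k 1))
    (inG W n p A) (Nat.beq k 0)

/-- A program. -/
def ruG (W : ℕ) (l : List (ℕ × ℕ × ℕ)) : ℕ → ℕ → ℕ :=
  @List.rec (ℕ × ℕ × ℕ) (fun _ => ℕ → ℕ → ℕ) (fun _ A => A)
    (fun I _ ih n A => @Prod.rec ℕ (ℕ × ℕ) (fun _ => ℕ) (fun k J => @Prod.rec ℕ ℕ (fun _ => ℕ)
      (fun p q => ih (@Bool.rec (fun _ => ℕ) n (Nat.succ n) (Nat.beq k 0)) (stG W n A k p q)) J) I) l

/-- The number of index bits after a program. -/
def ndG : List (ℕ × ℕ × ℕ) → ℕ → ℕ
  | [], n => n
  | I :: l, n => ndG l (if I.1 = 0 then n + 1 else n)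

/-- Conditions on the instructions. -/
def okR : List (ℕ × ℕ × ℕ) → ℕ → Bool
  | [], _ => true
  | I :: l, n =>
    (if I.1 = 0 then decide (I.2.1 ≤ n)
      else if I.1 = 1 then decide (I.2.1 < I.2.2) && decide (I.2.2 < n)
      else if I.1 = 2 then decide (I.2.1 ≠ I.2.2) && (decide (I.2.1 < n) && decide (I.2.2 < n))
      else decide (I.2.1 < n)) && okR l (if I.1 = 0 then n + 1 else n)

/-- The effect of an instruction on the bits of the index. -/
def seI (I : ℕ × ℕ × ℕ) (n : ℕ) (b : ℕ → Bool) : ℕ → Bool :=
  if I.1 = 0 then upd b I.2.1 (b n)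
  else if I.1 = 1 then b ∘ Equiv.swap I.2.1 I.2.2
  else if I.1 = 2 then upd b I.2.2 (b I.2.2 ^^ b I.2.1)
  else upd b I.2.1 (!b I.2.1)

/-- The effect of a program on the bits of the index. -/
def seG : List (ℕ × ℕ × ℕ) → ℕ → (ℕ → Bool) → ℕ → Bool
  | [], _, b => b
  | I :: l, n, b => seI I n (seG l (if I.1 = 0 then n + 1 else n) b)

theorem ruG_ar {W : ℕ} (hW : 0 < W) (l : List (ℕ × ℕ × ℕ)) : ∀ (n A : ℕ) (f : (ℕ → Bool) → ℕ),
    okR l n = true → Ar W n A f →
    Ar W (ndG l n) (ruG W l n A) fun b => f (seG l n b) := by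
  induction l with
  | nil => intro n A f _ hA; exact hA
  | cons I l ih =>
    intro n A f hok hA
    obtain ⟨k, p, q⟩ := I
    have e0 : ruG W ((k, p, q) :: l) n A =
        ruG W l (@Bool.rec (fun _ => ℕ) n (Nat.succ n) (Nat.beq k 0)) (stG W n A k p q) := rfl
    have e1 : (@Bool.rec (fun _ => ℕ) n (Nat.succ n) (Nat.beq k 0)) = if k = 0 then n + 1 else n := by
      by_cases hk : k = 0
      · rw [if_pos hk, hk]; rfl
      · have e2 : Nat.beq k 0 = false := by
          rw [Bool.eq_false_iff]
          intro h
          exact hk (Nat.eq_of_beq_eq_true h)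
        rw [if_neg hk, e2]
    rw [okR, Bool.and_eq_true] at hok
    obtain ⟨hok1, hok2⟩ := hok
    simp only at hok1 hok2
    have h1 : Ar W (if k = 0 then n + 1 else n) (stG W n A k p q) fun b => f (seI (k, p, q) n b) := by
      unfold stG seI
      simp only
      by_cases hk0 : k = 0
      · rw [if_pos hk0] at hok1
        have e2 : Nat.beq k 0 = true := by rw [hk0]; rfl
        simp only [e2, if_pos hk0]
        exact inG_ar hW hA (of_decide_eq_true hok1)
      · rw [if_neg hk0] at hok1
        have e2 : Nat.beq k 0 = false := by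
          rw [Bool.eq_false_iff]
          intro h
          exact hk0 (Nat.eq_of_beq_eq_true h)
        simp only [e2, if_neg hk0]
        by_cases hk1 : k = 1
        · rw [if_pos hk1, Bool.and_eq_true] at hok1
          have e3 : Nat.beq k 1 = true := by rw [hk1]; rfl
          simp only [e3, if_pos hk1]
          exact swG_ar hW hA (of_decide_eq_true hok1.1) (of_decide_eq_true hok1.2)
        · rw [if_neg hk1] at hok1
          have e3 : Nat.beq k 1 = false := by
            rw [Bool.eq_false_iff]
            intro h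
            exact hk1 (Nat.eq_of_beq_eq_true h)
          simp only [e3, if_neg hk1]
          by_cases hk2 : k = 2
          · rw [if_pos hk2, Bool.and_eq_true, Bool.and_eq_true] at hok1
            have e4 : Nat.beq k 2 = true := by rw [hk2]; rfl
            simp only [e4, if_pos hk2]
            exact cnG_ar hW hA (of_decide_eq_true hok1.1) (of_decide_eq_true hok1.2.1)
              (of_decide_eq_true hok1.2.2)
          · rw [if_neg hk2] at hok1
            have e4 : Nat.beq k 2 = false := by
              rw [Bool.eq_false_iff]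
              intro h
              exact hk2 (Nat.eq_of_beq_eq_true h)
            simp only [e4, if_neg hk2]
            exact flG_ar hW hA (of_decide_eq_true hok1)
    rw [e0, e1]
    exact ih _ _ _ hok2 h1

/-! ### Affine forms

The number `m` stands for the sum of its bit `0` and of the bits `b i` with `m.testBit (i + 1)`. -/

/-- The value of an affine form in the bits `b 0, …, b (N-1)`. -/
def lf : ℕ → ℕ → (ℕ → Bool) → Bool
  | 0, m, _ => m.testBit 0
  | i + 1, m, b => lf i m b ^^ (m.testBit (i + 1) && b i)

theorem lf_xor (N m m' : ℕ) (b : ℕ → Bool) : lf N (m ^^^ m') b = (lf N m b ^^ lf N m' b) := by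
  induction N with
  | zero => rw [lf, lf, lf, Nat.testBit_xor]
  | succ N ih =>
    rw [lf, lf, lf, ih, Nat.testBit_xor]
    cases lf N m b <;> cases lf N m' b <;> cases m.testBit (N + 1) <;>
      cases m'.testBit (N + 1) <;> cases b N <;> rfl

theorem lf_one (N : ℕ) (b : ℕ → Bool) : lf N 1 b = true := by
  induction N with
  | zero => rfl
  | succ N ih =>
    have h1 : Nat.testBit 1 (N + 1) = false := by
      apply Nat.testBit_lt_two_pow
      exact Nat.one_lt_two_pow (by omega)
    rw [lf, ih, h1]
    rfl

theorem lf_two_pow (N r : ℕ) (b : ℕ → Bool) :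
    lf N (2 ^ (r + 1)) b = (decide (r < N) && b r) := by
  induction N with
  | zero =>
    rw [lf, Nat.testBit_two_pow]
    simp
  | succ N ih =>
    rw [lf, ih, Nat.testBit_two_pow]
    by_cases h1 : r = N
    · subst h1
      simp
    · have h2 : decide (r + 1 = N + 1) = false := by
        rw [decide_eq_false_iff_not]
        omega
      have h3 : decide (r < N + 1) = decide (r < N) := by
        congr 1
        apply propext
        omega
      rw [h2, h3]
      simp

theorem lf_congr (N m : ℕ) (b b' : ℕ → Bool) (h : ∀ i < N, b i = b' i) : lf N m b = lf N m b' := by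
  induction N with
  | zero => rfl
  | succ N ih => rw [lf, lf, ih fun i hi => h i (by omega), h N (by omega)]

/-- The affine form of bit `r` of the index after a program. -/
def syG : List (ℕ × ℕ × ℕ) → ℕ → ℕ → ℕ
  | [], _, r => 2 ^ (r + 1)
  | I :: l, n, r =>
    if I.1 = 0 then syG l (n + 1) (if r = I.2.1 then n else r)
    else if I.1 = 1 then syG l n (if r = I.2.1 then I.2.2 else if r = I.2.2 then I.2.1 else r)
    else if I.1 = 2 then (if r = I.2.2 then syG l n r ^^^ syG l n I.2.1 else syG l n r)
    else (if r = I.2.1 then syG l n r ^^^ 1 else syG l n r)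

theorem seG_eq (N : ℕ) (b : ℕ → Bool) (l : List (ℕ × ℕ × ℕ)) : ∀ n : ℕ, okR l n = true →
    ndG l n ≤ N → ∀ r < n, seG l n b r = lf N (syG l n r) b := by
  induction l with
  | nil =>
    intro n _ hN r hr
    rw [seG, syG, lf_two_pow]
    have : r < N := lt_of_lt_of_le hr hN
    simp [this]
  | cons I l ih =>
    intro n hok hN r hr
    obtain ⟨k, p, q⟩ := I
    rw [okR, Bool.and_eq_true] at hok
    obtain ⟨hok1, hok2⟩ := hok
    rw [ndG] at hN
    rw [seG, seI, syG]
    simp only at hok1 hok2 hN ⊢
    by_cases hk0 : k = 0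
    · simp only [if_pos hk0] at hok1 hok2 hN ⊢
      unfold upd
      by_cases hrp : r = p
      · rw [if_pos hrp, if_pos hrp]
        exact ih (n + 1) hok2 hN n (by omega)
      · rw [if_neg hrp, if_neg hrp]
        exact ih (n + 1) hok2 hN r (by omega)
    · simp only [if_neg hk0] at hok1 hok2 hN ⊢
      have ih' := ih n hok2 hN
      by_cases hk1 : k = 1
      · simp only [if_pos hk1, Bool.and_eq_true, decide_eq_true_eq] at hok1 ⊢
        rw [Function.comp_apply]
        by_cases hrp : r = p
        · rw [hrp, Equiv.swap_apply_left, if_pos rfl]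
          exact ih' q hok1.2
        · by_cases hrq : r = q
          · rw [hrq, Equiv.swap_apply_right, if_neg (by omega), if_pos rfl]
            exact ih' p (by omega)
          · rw [Equiv.swap_apply_of_ne_of_ne hrp hrq, if_neg hrp, if_neg hrq]
            exact ih' r hr
      · simp only [if_neg hk1] at hok1 ⊢
        by_cases hk2 : k = 2
        · simp only [if_pos hk2, Bool.and_eq_true, decide_eq_true_eq] at hok1 ⊢
          unfold upd
          by_cases hrq : r = q
          · rw [if_pos hrq, if_pos hrq, lf_xor, ← ih' r hr, ← ih' p hok1.2.1, hrq]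
          · rw [if_neg hrq, if_neg hrq]
            exact ih' r hr
        · simp only [if_neg hk2, decide_eq_true_eq] at hok1 ⊢
          unfold upd
          by_cases hrp : r = p
          · rw [if_pos hrp, if_pos hrp, lf_xor, lf_one, Bool.xor_true, ← ih' r hr, hrp]
          · rw [if_neg hrp, if_neg hrp]
            exact ih' r hr

/-! ### Addition of a constant to the index -/

/-- Negation of the bits `r < m` of the index with `k.testBit r`. -/
def xkG (W n k : ℕ) (m A : ℕ) : ℕ :=
  @Nat.rec (fun _ => ℕ) A (fun r ih => @Bool.rec (fun _ => ℕ) ih (flG W n r ih)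
    (Nat.beq (Nat.mod (Nat.div k (Nat.pow 2 r)) 2) 1)) m

theorem beq_mod_two (k r : ℕ) :
    Nat.beq (Nat.mod (Nat.div k (Nat.pow 2 r)) 2) 1 = k.testBit r := by
  have e1 : Nat.mod (Nat.div k (Nat.pow 2 r)) 2 = k / 2 ^ r % 2 := rfl
  rw [e1, ← Nat.toNat_testBit]
  cases k.testBit r <;> rfl

theorem xkG_ar {W n A k : ℕ} {f : (ℕ → Bool) → ℕ} (hW : 0 < W) (hA : Ar W n A f) (m : ℕ)
    (hm : m ≤ n) : Ar W n (xkG W n k m A) fun b =>
      f fun r => b r ^^ (decide (r < m) && k.testBit r) := by
  induction m with
  | zero =>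
    refine hA.congr fun b => ?_
    congr 1
    funext r
    simp
  | succ m ih =>
    have h1 := ih (by omega)
    have e1 : xkG W n k (m + 1) A = @Bool.rec (fun _ => ℕ) (xkG W n k m A)
        (flG W n m (xkG W n k m A)) (Nat.beq (Nat.mod (Nat.div k (Nat.pow 2 m)) 2) 1) := rfl
    rw [e1, beq_mod_two]
    cases hb : k.testBit m
    · refine h1.congr fun b => ?_
      congr 1
      funext r
      by_cases h2 : r = m
      · rw [h2, hb]; simp
      · have : decide (r < m + 1) = decide (r < m) := by
          congr 1; apply propext; omega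
        rw [this]
    · refine (flG_ar hW h1 (q := m) (by omega)).congr fun b => ?_
      congr 1
      funext r
      unfold upd
      by_cases h2 : r = m
      · rw [if_pos h2, h2, hb]; simp
      · rw [if_neg h2]
        have : decide (r < m + 1) = decide (r < m) := by
          congr 1; apply propext; omega
        rw [this]

end Pool.Agent.Lib.MP_afdd4d_co.K8
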