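import Pool.Agent.Lib.MP_afdd4d_co.K8.Main
import Pool.Agent.Lib.MP_afdd4d_co.K8.Prog

/-!
# Codes of even tuples

The code of a tuple consists of the bits of the quadruples that contain the first vertex. If the tuple
is even, then the other bits are sums of four bits of the code.
-/

namespace Pool.Agent.Lib.MP_afdd4d_co.K8

open Finset

/-! ### Bits modulo two -/

/-- A bit as an element of `ZMod 2`. -/
def bz (b : Bool) : ZMod 2 := if b = true then 1 else 0

theorem bz_xor (a b : Bool) : bz (a ^^ b) = bz a + bz b := by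
  cases a <;> cases b <;> decide

theorem bz_inj {a b : Bool} (h : bz a = bz b) : a = b := by
  revert h
  cases a <;> cases b <;> decide

theorem bz_and_true (b : Bool) : bz (true && b) = bz b := by cases b <;> rfl

theorem bz_and_false (b : Bool) : bz (false && b) = 0 := by cases b <;> rfl

theorem bz_lf (N m : ℕ) (b : ℕ → Bool) :
    bz (lf N m b) = bz (m.testBit 0) + ∑ i ∈ range N, bz (m.testBit (i + 1) && b i) := by
  induction N with
  | zero => simp [lf]
  | succ N ih => rw [lf, bz_xor, ih, Finset.sum_range_succ]; ring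

theorem lf_ext (N k m : ℕ) (b : ℕ → Bool) (hm : m < 2 ^ (N + 1)) : lf (N + k) m b = lf N m b := by
  induction k with
  | zero => rfl
  | succ k ih =>
    have h1 : m.testBit (N + k + 1) = false := by
      apply Nat.testBit_lt_two_pow
      exact lt_of_lt_of_le hm (Nat.pow_le_pow_right (by norm_num) (by omega))
    have h2 : N + (k + 1) = (N + k) + 1 := by ring
    rw [h2, lf, ih, h1]
    simp

/-- The exchange of bits of the number `idx`. -/
theorem idx_eq_lf (n N : ℕ) (c : ℕ → Bool) (fm : ℕ → ℕ) (b : ℕ → Bool)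
    (h : ∀ r < n, c r = lf N (fm r) b) : idx n c = idx n fun r => lf N (fm r) b :=
  idx_congr n _ _ h

/-! ### Codes -/

/-- The triples of `1, …, 7` in colex order. -/
def TRI : List (List ℕ) := [
  [1, 2, 3],
  [1, 2, 4], [1, 3, 4], [2, 3, 4],
  [1, 2, 5], [1, 3, 5], [2, 3, 5], [1, 4, 5], [2, 4, 5], [3, 4, 5],
  [1, 2, 6], [1, 3, 6], [2, 3, 6], [1, 4, 6], [2, 4, 6], [3, 4, 6], [1, 5, 6], [2, 5, 6],
  [3, 5, 6], [4, 5, 6],
  [1, 2, 7], [1, 3, 7], [2, 3, 7], [1, 4, 7], [2, 4, 7], [3, 4, 7], [1, 5, 7], [2, 5, 7],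
  [3, 5, 7], [4, 5, 7], [1, 6, 7], [2, 6, 7], [3, 6, 7], [4, 6, 7], [5, 6, 7]]

/-- The quadruple of the bit `r` of the code: the `r`-th triple and `0`. -/
def qd (m r : ℕ) : Finset (Fin m) := univ.filter fun z => (z : ℕ) = 0 ∨ (z : ℕ) ∈ TRI.getD r []

theorem qd_data : ∀ r < 35, (qd 8 r).card = 4 ∧ (0 : Fin 8) ∈ qd 8 r := by decide +kernel

theorem qd_inj : ∀ r < 35, ∀ r' < 35, qd 8 r = qd 8 r' → r = r' := by decide +kernel

theorem qd_surj : ∀ Q : Finset (Fin 8), Q.card = 4 → (0 : Fin 8) ∈ Q → ∃ r < 35, qd 8 r = Q := by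
  have h1 : ((Finset.range 35).image (qd 8)) =
      ((univ : Finset (Fin 8)).powersetCard 4).filter fun Q => (0 : Fin 8) ∈ Q := by
    apply Finset.eq_of_subset_of_card_le
    · intro T hT
      rw [Finset.mem_image] at hT
      obtain ⟨r, hr, rfl⟩ := hT
      rw [Finset.mem_filter, Finset.mem_powersetCard]
      exact ⟨⟨Finset.subset_univ _, (qd_data r (Finset.mem_range.mp hr)).1⟩,
        (qd_data r (Finset.mem_range.mp hr)).2⟩
    · rw [Finset.card_image_of_injOn, Finset.card_range]
      · decide +kernel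
      · intro i hi j hj hij
        exact qd_inj i (Finset.mem_range.mp hi) j (Finset.mem_range.mp hj) hij
  intro Q hQ h0
  have h2 : Q ∈ ((univ : Finset (Fin 8)).powersetCard 4).filter fun Q => (0 : Fin 8) ∈ Q := by
    rw [Finset.mem_filter, Finset.mem_powersetCard]
    exact ⟨⟨Finset.subset_univ _, hQ⟩, h0⟩
  rw [← h1, Finset.mem_image] at h2
  obtain ⟨r, hr, h3⟩ := h2
  exact ⟨r, Finset.mem_range.mp hr, h3⟩

/-- The affine form of the bit of a quadruple in terms of the code. -/
def exF (T : Finset (Fin 8)) : ℕ := 2 * idx 35 fun r => decide (qd 8 r ⊆ insert 0 T)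

section tup
variable {n : ℕ} (H : Finset (Finset (Fin n)))

/-- Whether the image of `T` is an edge. -/
def zb {m : ℕ} (t : Fin m → Fin n) (T : Finset (Fin m)) : Bool := !E H t T

theorem zt_eq {m : ℕ} (t : Fin m → Fin n) (T : Finset (Fin m)) : zt H t T = bz (zb H t T) := by
  unfold zt bz zb
  cases E H t T <;> rfl

theorem zb_comp {m k : ℕ} (t : Fin m → Fin n) (f : Fin k → Fin m) (T : Finset (Fin k)) :
    zb H (t ∘ f) T = zb H t (T.image f) := by
  unfold zb
  rw [E_comp]

/-- The bits of the code. -/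
def gc {m : ℕ} (t : Fin m → Fin n) (r : ℕ) : Bool := zb H t (qd m r)

theorem zb_eq (t : Fin 8 → Fin n) (hev : EvT H t) (T : Finset (Fin 8)) (hT : T.card = 4) :
    zb H t T = lf 35 (exF T) (gc H t) := by
  apply bz_inj
  rw [bz_lf]
  have h0 : (exF T).testBit 0 = false := by
    rw [exF]
    simp
  have h1 : ∀ i ∈ range 35, bz ((exF T).testBit (i + 1) && gc H t i) =
      if qd 8 i ⊆ insert 0 T then bz (gc H t i) else 0 := by
    intro i hi
    have e1 : (exF T).testBit (i + 1) = decide (qd 8 i ⊆ insert 0 T) := by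
      rw [exF, mul_comm, show (2 : ℕ) = 2 ^ 1 from rfl, Nat.testBit_mul_two_pow]
      have : decide (1 ≤ i + 1) = true := by simp
      rw [this, Bool.true_and, Nat.add_sub_cancel, testBit_idx]
      have h2 := Finset.mem_range.mp hi
      simp [h2]
    rw [e1]
    by_cases h3 : qd 8 i ⊆ insert 0 T
    · rw [if_pos h3, decide_eq_true h3, bz_and_true]
    · rw [if_neg h3, decide_eq_false h3, bz_and_false]
  have hb0 : bz false = 0 := rfl
  rw [h0, hb0, zero_add, Finset.sum_congr rfl h1, ← Finset.sum_filter]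
  by_cases hT0 : (0 : Fin 8) ∈ T
  · -- the quadruple itself
    obtain ⟨r, hr, hrT⟩ := qd_surj T hT hT0
    have h4 : (range 35).filter (fun i => qd 8 i ⊆ insert 0 T) = {r} := by
      ext i
      rw [Finset.mem_filter, Finset.mem_range, Finset.mem_singleton,
        Finset.insert_eq_of_mem hT0]
      constructor
      · rintro ⟨h5, h6⟩
        have h7 : qd 8 i = T := Finset.eq_of_subset_of_card_le h6 (by
          rw [hT, (qd_data i h5).1])
        exact qd_inj i h5 r hr (h7.trans hrT.symm)
      · rintro rfl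
        exact ⟨hr, by rw [hrT]⟩
    rw [h4, Finset.sum_singleton, gc, hrT]
  · -- five vertices
    have hS : (insert 0 T).card = 5 := by
      rw [Finset.card_insert_of_notMem hT0, hT]
    have h5 := hev (insert 0 T) hS
    unfold dl at h5
    rw [Finset.sum_insert hT0, Finset.erase_insert hT0, zt_eq] at h5
    have h6 : ∑ x ∈ T, zt H t ((insert 0 T).erase x) =
        ∑ i ∈ (range 35).filter (fun i => qd 8 i ⊆ insert 0 T), bz (gc H t i) := by
      symm
      have h7 : ∀ i ∈ (range 35).filter (fun i => qd 8 i ⊆ insert 0 T),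
          ∃ x ∈ T, (insert 0 T).erase x = qd 8 i := by
        intro i hi
        rw [Finset.mem_filter, Finset.mem_range] at hi
        obtain ⟨hi1, hi2⟩ := hi
        have h8 : ((insert 0 T) \ qd 8 i).card = 1 := by
          rw [Finset.card_sdiff_of_subset hi2, hS, (qd_data i hi1).1]
        obtain ⟨x, hx⟩ := Finset.card_eq_one.mp h8
        have hx1 : x ∈ (insert 0 T) \ qd 8 i := by rw [hx]; exact Finset.mem_singleton_self x
        rw [Finset.mem_sdiff, Finset.mem_insert] at hx1
        have hxT : x ∈ T := by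
          rcases hx1.1 with h9 | h9
          · exact absurd (h9 ▸ (qd_data i hi1).2) hx1.2
          · exact h9
        refine ⟨x, hxT, ?_⟩
        symm
        apply Finset.eq_of_subset_of_card_le
        · intro y hy
          rw [Finset.mem_erase]
          exact ⟨fun h => hx1.2 (h ▸ hy), hi2 hy⟩
        · rw [Finset.card_erase_of_mem (Finset.mem_insert_of_mem hxT), hS, (qd_data i hi1).1]
      choose! g hg1 hg2 using h7
      refine Finset.sum_bij (fun i _ => g i) (fun i hi => hg1 i hi) ?_ ?_ ?_
      · intro i hi j hj hij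
        have h9 := hg2 i hi
        rw [hij, hg2 j hj] at h9
        rw [Finset.mem_filter, Finset.mem_range] at hi hj
        exact (qd_inj j hj.1 i hi.1 h9).symm
      · intro x hx
        have hc : ((insert 0 T).erase x).card = 4 := by
          rw [Finset.card_erase_of_mem (Finset.mem_insert_of_mem hx), hS]
        have h0x : (0 : Fin 8) ∈ (insert 0 T).erase x := by
          rw [Finset.mem_erase]
          exact ⟨fun h => hT0 (h ▸ hx), Finset.mem_insert_self _ _⟩
        obtain ⟨r, hr, hrQ⟩ := qd_surj _ hc h0x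
        have hrm : r ∈ (range 35).filter (fun i => qd 8 i ⊆ insert 0 T) := by
          rw [Finset.mem_filter, Finset.mem_range]
          exact ⟨hr, by rw [hrQ]; exact Finset.erase_subset _ _⟩
        refine ⟨r, hrm, ?_⟩
        have h9 := hg2 r hrm
        rw [hrQ] at h9
        have h10 : g r ∈ T := hg1 r hrm
        by_contra hne
        have h11 : x ∈ (insert 0 T).erase (g r) := by
          rw [Finset.mem_erase]
          exact ⟨fun h => hne h.symm, Finset.mem_insert_of_mem hx⟩
        rw [h9] at h11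
        exact absurd h11 (Finset.notMem_erase x _)
      · intro i hi
        rw [gc, ← hg2 i hi, ← zt_eq]
    rw [h6] at h5
    have h8 := eq_neg_of_add_eq_zero_left h5
    rw [h8, CharTwo.neg_eq]

/-- The code of a tuple with permuted or selected vertices. -/
theorem gc_comp {m : ℕ} (t : Fin 8 → Fin n) (hev : EvT H t) (f : Fin m → Fin 8) (r : ℕ)
    (hc : ((qd m r).image f).card = 4) :
    gc H (t ∘ f) r = lf 35 (exF ((qd m r).image f)) (gc H t) := by
  rw [gc, zb_comp, zb_eq H t hev _ hc]

end tup

end Pool.Agent.Lib.MP_afdd4d_co.K8
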