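import Pool.Agent.Lib.MP_afdd4d_co.K8.Ev.C0
import Pool.Agent.Lib.MP_afdd4d_co.K8.Ev.C1
import Pool.Agent.Lib.MP_afdd4d_co.K8.Ev.C2
import Pool.Agent.Lib.MP_afdd4d_co.K8.Ev.C3
import Pool.Agent.Lib.MP_afdd4d_co.K8.Ev.C4
import Pool.Agent.Lib.MP_afdd4d_co.K8.Ev.C5
import Pool.Agent.Lib.MP_afdd4d_co.K8.Ev.C6
import Pool.Agent.Lib.MP_afdd4d_co.K8.Ev.C7
import Pool.Agent.Lib.MP_afdd4d_co.K8.Ev.C8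
import Pool.Agent.Lib.MP_afdd4d_co.K8.Ev.C9
import Pool.Agent.Lib.MP_afdd4d_co.K8.Ev.C10
import Pool.Agent.Lib.MP_afdd4d_co.K8.Ev.C11
import Pool.Agent.Lib.MP_afdd4d_co.K8.Ev.C12
import Pool.Agent.Lib.MP_afdd4d_co.K8.Ev.C13
import Pool.Agent.Lib.MP_afdd4d_co.K8.Ev.C14
import Pool.Agent.Lib.MP_afdd4d_co.K8.Ev.C15
import Pool.Agent.Lib.MP_afdd4d_co.K8.Ev.C16
import Pool.Agent.Lib.MP_afdd4d_co.K8.Ev.C17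
import Pool.Agent.Lib.MP_afdd4d_co.K8.Ev.C18
import Pool.Agent.Lib.MP_afdd4d_co.K8.Ev.C19
import Pool.Agent.Lib.MP_afdd4d_co.K8.Ev.C20
import Pool.Agent.Lib.MP_afdd4d_co.K8.Ev.C21
import Pool.Agent.Lib.MP_afdd4d_co.K8.Ev.C22
import Pool.Agent.Lib.MP_afdd4d_co.K8.Ev.C23
import Pool.Agent.Lib.MP_afdd4d_co.K8.Tab

/-!
# All checks
-/

namespace Pool.Agent.Lib.MP_afdd4d_co.K8

theorem ev_parts : ∀ j < 423, (part 1 j reps).all oneE = true := by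
  intro j hj
  interval_cases j
  · exact ev0.1
  · exact ev0.2.1
  · exact ev0.2.2.1
  · exact ev0.2.2.2.1
  · exact ev0.2.2.2.2.1
  · exact ev0.2.2.2.2.2.1
  · exact ev0.2.2.2.2.2.2.1
  · exact ev0.2.2.2.2.2.2.2.1
  · exact ev0.2.2.2.2.2.2.2.2.1
  · exact ev0.2.2.2.2.2.2.2.2.2.1
  · exact ev0.2.2.2.2.2.2.2.2.2.2.1
  · exact ev0.2.2.2.2.2.2.2.2.2.2.2.1
  · exact ev0.2.2.2.2.2.2.2.2.2.2.2.2.1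
  · exact ev0.2.2.2.2.2.2.2.2.2.2.2.2.2.1
  · exact ev0.2.2.2.2.2.2.2.2.2.2.2.2.2.2.1
  · exact ev0.2.2.2.2.2.2.2.2.2.2.2.2.2.2.2.1
  · exact ev0.2.2.2.2.2.2.2.2.2.2.2.2.2.2.2.2.1
  · exact ev0.2.2.2.2.2.2.2.2.2.2.2.2.2.2.2.2.2
  · exact ev1.1
  · exact ev1.2.1
  · exact ev1.2.2.1
  · exact ev1.2.2.2.1
  · exact ev1.2.2.2.2.1
  · exact ev1.2.2.2.2.2.1
  · exact ev1.2.2.2.2.2.2.1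
  · exact ev1.2.2.2.2.2.2.2.1
  · exact ev1.2.2.2.2.2.2.2.2.1
  · exact ev1.2.2.2.2.2.2.2.2.2.1
  · exact ev1.2.2.2.2.2.2.2.2.2.2.1
  · exact ev1.2.2.2.2.2.2.2.2.2.2.2.1
  · exact ev1.2.2.2.2.2.2.2.2.2.2.2.2.1
  · exact ev1.2.2.2.2.2.2.2.2.2.2.2.2.2.1
  · exact ev1.2.2.2.2.2.2.2.2.2.2.2.2.2.2.1
  · exact ev1.2.2.2.2.2.2.2.2.2.2.2.2.2.2.2.1
  · exact ev1.2.2.2.2.2.2.2.2.2.2.2.2.2.2.2.2.1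
  · exact ev1.2.2.2.2.2.2.2.2.2.2.2.2.2.2.2.2.2
  · exact ev2.1
  · exact ev2.2.1
  · exact ev2.2.2.1
  · exact ev2.2.2.2.1
  · exact ev2.2.2.2.2.1
  · exact ev2.2.2.2.2.2.1
  · exact ev2.2.2.2.2.2.2.1
  · exact ev2.2.2.2.2.2.2.2.1
  · exact ev2.2.2.2.2.2.2.2.2.1
  · exact ev2.2.2.2.2.2.2.2.2.2.1
  · exact ev2.2.2.2.2.2.2.2.2.2.2.1
  · exact ev2.2.2.2.2.2.2.2.2.2.2.2.1
  · exact ev2.2.2.2.2.2.2.2.2.2.2.2.2.1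
  · exact ev2.2.2.2.2.2.2.2.2.2.2.2.2.2.1
  · exact ev2.2.2.2.2.2.2.2.2.2.2.2.2.2.2.1
  · exact ev2.2.2.2.2.2.2.2.2.2.2.2.2.2.2.2.1
  · exact ev2.2.2.2.2.2.2.2.2.2.2.2.2.2.2.2.2.1
  · exact ev2.2.2.2.2.2.2.2.2.2.2.2.2.2.2.2.2.2
  · exact ev3.1
  · exact ev3.2.1
  · exact ev3.2.2.1
  · exact ev3.2.2.2.1
  · exact ev3.2.2.2.2.1
  · exact ev3.2.2.2.2.2.1
  · exact ev3.2.2.2.2.2.2.1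
  · exact ev3.2.2.2.2.2.2.2.1
  · exact ev3.2.2.2.2.2.2.2.2.1
  · exact ev3.2.2.2.2.2.2.2.2.2.1
  · exact ev3.2.2.2.2.2.2.2.2.2.2.1
  · exact ev3.2.2.2.2.2.2.2.2.2.2.2.1
  · exact ev3.2.2.2.2.2.2.2.2.2.2.2.2.1
  · exact ev3.2.2.2.2.2.2.2.2.2.2.2.2.2.1
  · exact ev3.2.2.2.2.2.2.2.2.2.2.2.2.2.2.1
  · exact ev3.2.2.2.2.2.2.2.2.2.2.2.2.2.2.2.1
  · exact ev3.2.2.2.2.2.2.2.2.2.2.2.2.2.2.2.2.1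
  · exact ev3.2.2.2.2.2.2.2.2.2.2.2.2.2.2.2.2.2
  · exact ev4.1
  · exact ev4.2.1
  · exact ev4.2.2.1
  · exact ev4.2.2.2.1
  · exact ev4.2.2.2.2.1
  · exact ev4.2.2.2.2.2.1
  · exact ev4.2.2.2.2.2.2.1
  · exact ev4.2.2.2.2.2.2.2.1
  · exact ev4.2.2.2.2.2.2.2.2.1
  · exact ev4.2.2.2.2.2.2.2.2.2.1
  · exact ev4.2.2.2.2.2.2.2.2.2.2.1
  · exact ev4.2.2.2.2.2.2.2.2.2.2.2.1
  · exact ev4.2.2.2.2.2.2.2.2.2.2.2.2.1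
  · exact ev4.2.2.2.2.2.2.2.2.2.2.2.2.2.1
  · exact ev4.2.2.2.2.2.2.2.2.2.2.2.2.2.2.1
  · exact ev4.2.2.2.2.2.2.2.2.2.2.2.2.2.2.2.1
  · exact ev4.2.2.2.2.2.2.2.2.2.2.2.2.2.2.2.2.1
  · exact ev4.2.2.2.2.2.2.2.2.2.2.2.2.2.2.2.2.2
  · exact ev5.1
  · exact ev5.2.1
  · exact ev5.2.2.1
  · exact ev5.2.2.2.1
  · exact ev5.2.2.2.2.1
  · exact ev5.2.2.2.2.2.1
  · exact ev5.2.2.2.2.2.2.1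
  · exact ev5.2.2.2.2.2.2.2.1
  · exact ev5.2.2.2.2.2.2.2.2.1
  · exact ev5.2.2.2.2.2.2.2.2.2.1
  · exact ev5.2.2.2.2.2.2.2.2.2.2.1
  · exact ev5.2.2.2.2.2.2.2.2.2.2.2.1
  · exact ev5.2.2.2.2.2.2.2.2.2.2.2.2.1
  · exact ev5.2.2.2.2.2.2.2.2.2.2.2.2.2.1
  · exact ev5.2.2.2.2.2.2.2.2.2.2.2.2.2.2.1
  · exact ev5.2.2.2.2.2.2.2.2.2.2.2.2.2.2.2.1
  · exact ev5.2.2.2.2.2.2.2.2.2.2.2.2.2.2.2.2.1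
  · exact ev5.2.2.2.2.2.2.2.2.2.2.2.2.2.2.2.2.2
  · exact ev6.1
  · exact ev6.2.1
  · exact ev6.2.2.1
  · exact ev6.2.2.2.1
  · exact ev6.2.2.2.2.1
  · exact ev6.2.2.2.2.2.1
  · exact ev6.2.2.2.2.2.2.1
  · exact ev6.2.2.2.2.2.2.2.1
  · exact ev6.2.2.2.2.2.2.2.2.1
  · exact ev6.2.2.2.2.2.2.2.2.2.1
  · exact ev6.2.2.2.2.2.2.2.2.2.2.1
  · exact ev6.2.2.2.2.2.2.2.2.2.2.2.1
  · exact ev6.2.2.2.2.2.2.2.2.2.2.2.2.1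
  · exact ev6.2.2.2.2.2.2.2.2.2.2.2.2.2.1
  · exact ev6.2.2.2.2.2.2.2.2.2.2.2.2.2.2.1
  · exact ev6.2.2.2.2.2.2.2.2.2.2.2.2.2.2.2.1
  · exact ev6.2.2.2.2.2.2.2.2.2.2.2.2.2.2.2.2.1
  · exact ev6.2.2.2.2.2.2.2.2.2.2.2.2.2.2.2.2.2
  · exact ev7.1
  · exact ev7.2.1
  · exact ev7.2.2.1
  · exact ev7.2.2.2.1
  · exact ev7.2.2.2.2.1
  · exact ev7.2.2.2.2.2.1
  · exact ev7.2.2.2.2.2.2.1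
  · exact ev7.2.2.2.2.2.2.2.1
  · exact ev7.2.2.2.2.2.2.2.2.1
  · exact ev7.2.2.2.2.2.2.2.2.2.1
  · exact ev7.2.2.2.2.2.2.2.2.2.2.1
  · exact ev7.2.2.2.2.2.2.2.2.2.2.2.1
  · exact ev7.2.2.2.2.2.2.2.2.2.2.2.2.1
  · exact ev7.2.2.2.2.2.2.2.2.2.2.2.2.2.1
  · exact ev7.2.2.2.2.2.2.2.2.2.2.2.2.2.2.1
  · exact ev7.2.2.2.2.2.2.2.2.2.2.2.2.2.2.2.1
  · exact ev7.2.2.2.2.2.2.2.2.2.2.2.2.2.2.2.2.1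
  · exact ev7.2.2.2.2.2.2.2.2.2.2.2.2.2.2.2.2.2
  · exact ev8.1
  · exact ev8.2.1
  · exact ev8.2.2.1
  · exact ev8.2.2.2.1
  · exact ev8.2.2.2.2.1
  · exact ev8.2.2.2.2.2.1
  · exact ev8.2.2.2.2.2.2.1
  · exact ev8.2.2.2.2.2.2.2.1
  · exact ev8.2.2.2.2.2.2.2.2.1
  · exact ev8.2.2.2.2.2.2.2.2.2.1
  · exact ev8.2.2.2.2.2.2.2.2.2.2.1
  · exact ev8.2.2.2.2.2.2.2.2.2.2.2.1
  · exact ev8.2.2.2.2.2.2.2.2.2.2.2.2.1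
  · exact ev8.2.2.2.2.2.2.2.2.2.2.2.2.2.1
  · exact ev8.2.2.2.2.2.2.2.2.2.2.2.2.2.2.1
  · exact ev8.2.2.2.2.2.2.2.2.2.2.2.2.2.2.2.1
  · exact ev8.2.2.2.2.2.2.2.2.2.2.2.2.2.2.2.2.1
  · exact ev8.2.2.2.2.2.2.2.2.2.2.2.2.2.2.2.2.2
  · exact ev9.1
  · exact ev9.2.1
  · exact ev9.2.2.1
  · exact ev9.2.2.2.1
  · exact ev9.2.2.2.2.1
  · exact ev9.2.2.2.2.2.1
  · exact ev9.2.2.2.2.2.2.1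
  · exact ev9.2.2.2.2.2.2.2.1
  · exact ev9.2.2.2.2.2.2.2.2.1
  · exact ev9.2.2.2.2.2.2.2.2.2.1
  · exact ev9.2.2.2.2.2.2.2.2.2.2.1
  · exact ev9.2.2.2.2.2.2.2.2.2.2.2.1
  · exact ev9.2.2.2.2.2.2.2.2.2.2.2.2.1
  · exact ev9.2.2.2.2.2.2.2.2.2.2.2.2.2.1
  · exact ev9.2.2.2.2.2.2.2.2.2.2.2.2.2.2.1
  · exact ev9.2.2.2.2.2.2.2.2.2.2.2.2.2.2.2.1
  · exact ev9.2.2.2.2.2.2.2.2.2.2.2.2.2.2.2.2.1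
  · exact ev9.2.2.2.2.2.2.2.2.2.2.2.2.2.2.2.2.2
  · exact ev10.1
  · exact ev10.2.1
  · exact ev10.2.2.1
  · exact ev10.2.2.2.1
  · exact ev10.2.2.2.2.1
  · exact ev10.2.2.2.2.2.1
  · exact ev10.2.2.2.2.2.2.1
  · exact ev10.2.2.2.2.2.2.2.1
  · exact ev10.2.2.2.2.2.2.2.2.1
  · exact ev10.2.2.2.2.2.2.2.2.2.1
  · exact ev10.2.2.2.2.2.2.2.2.2.2.1
  · exact ev10.2.2.2.2.2.2.2.2.2.2.2.1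
  · exact ev10.2.2.2.2.2.2.2.2.2.2.2.2.1
  · exact ev10.2.2.2.2.2.2.2.2.2.2.2.2.2.1
  · exact ev10.2.2.2.2.2.2.2.2.2.2.2.2.2.2.1
  · exact ev10.2.2.2.2.2.2.2.2.2.2.2.2.2.2.2.1
  · exact ev10.2.2.2.2.2.2.2.2.2.2.2.2.2.2.2.2.1
  · exact ev10.2.2.2.2.2.2.2.2.2.2.2.2.2.2.2.2.2
  · exact ev11.1
  · exact ev11.2.1
  · exact ev11.2.2.1
  · exact ev11.2.2.2.1
  · exact ev11.2.2.2.2.1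
  · exact ev11.2.2.2.2.2.1
  · exact ev11.2.2.2.2.2.2.1
  · exact ev11.2.2.2.2.2.2.2.1
  · exact ev11.2.2.2.2.2.2.2.2.1
  · exact ev11.2.2.2.2.2.2.2.2.2.1
  · exact ev11.2.2.2.2.2.2.2.2.2.2.1
  · exact ev11.2.2.2.2.2.2.2.2.2.2.2.1
  · exact ev11.2.2.2.2.2.2.2.2.2.2.2.2.1
  · exact ev11.2.2.2.2.2.2.2.2.2.2.2.2.2.1
  · exact ev11.2.2.2.2.2.2.2.2.2.2.2.2.2.2.1
  · exact ev11.2.2.2.2.2.2.2.2.2.2.2.2.2.2.2.1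
  · exact ev11.2.2.2.2.2.2.2.2.2.2.2.2.2.2.2.2.1
  · exact ev11.2.2.2.2.2.2.2.2.2.2.2.2.2.2.2.2.2
  · exact ev12.1
  · exact ev12.2.1
  · exact ev12.2.2.1
  · exact ev12.2.2.2.1
  · exact ev12.2.2.2.2.1
  · exact ev12.2.2.2.2.2.1
  · exact ev12.2.2.2.2.2.2.1
  · exact ev12.2.2.2.2.2.2.2.1
  · exact ev12.2.2.2.2.2.2.2.2.1
  · exact ev12.2.2.2.2.2.2.2.2.2.1
  · exact ev12.2.2.2.2.2.2.2.2.2.2.1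
  · exact ev12.2.2.2.2.2.2.2.2.2.2.2.1
  · exact ev12.2.2.2.2.2.2.2.2.2.2.2.2.1
  · exact ev12.2.2.2.2.2.2.2.2.2.2.2.2.2.1
  · exact ev12.2.2.2.2.2.2.2.2.2.2.2.2.2.2.1
  · exact ev12.2.2.2.2.2.2.2.2.2.2.2.2.2.2.2.1
  · exact ev12.2.2.2.2.2.2.2.2.2.2.2.2.2.2.2.2.1
  · exact ev12.2.2.2.2.2.2.2.2.2.2.2.2.2.2.2.2.2
  · exact ev13.1
  · exact ev13.2.1
  · exact ev13.2.2.1
  · exact ev13.2.2.2.1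
  · exact ev13.2.2.2.2.1
  · exact ev13.2.2.2.2.2.1
  · exact ev13.2.2.2.2.2.2.1
  · exact ev13.2.2.2.2.2.2.2.1
  · exact ev13.2.2.2.2.2.2.2.2.1
  · exact ev13.2.2.2.2.2.2.2.2.2.1
  · exact ev13.2.2.2.2.2.2.2.2.2.2.1
  · exact ev13.2.2.2.2.2.2.2.2.2.2.2.1
  · exact ev13.2.2.2.2.2.2.2.2.2.2.2.2.1
  · exact ev13.2.2.2.2.2.2.2.2.2.2.2.2.2.1
  · exact ev13.2.2.2.2.2.2.2.2.2.2.2.2.2.2.1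
  · exact ev13.2.2.2.2.2.2.2.2.2.2.2.2.2.2.2.1
  · exact ev13.2.2.2.2.2.2.2.2.2.2.2.2.2.2.2.2.1
  · exact ev13.2.2.2.2.2.2.2.2.2.2.2.2.2.2.2.2.2
  · exact ev14.1
  · exact ev14.2.1
  · exact ev14.2.2.1
  · exact ev14.2.2.2.1
  · exact ev14.2.2.2.2.1
  · exact ev14.2.2.2.2.2.1
  · exact ev14.2.2.2.2.2.2.1
  · exact ev14.2.2.2.2.2.2.2.1
  · exact ev14.2.2.2.2.2.2.2.2.1
  · exact ev14.2.2.2.2.2.2.2.2.2.1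
  · exact ev14.2.2.2.2.2.2.2.2.2.2.1
  · exact ev14.2.2.2.2.2.2.2.2.2.2.2.1
  · exact ev14.2.2.2.2.2.2.2.2.2.2.2.2.1
  · exact ev14.2.2.2.2.2.2.2.2.2.2.2.2.2.1
  · exact ev14.2.2.2.2.2.2.2.2.2.2.2.2.2.2.1
  · exact ev14.2.2.2.2.2.2.2.2.2.2.2.2.2.2.2.1
  · exact ev14.2.2.2.2.2.2.2.2.2.2.2.2.2.2.2.2.1
  · exact ev14.2.2.2.2.2.2.2.2.2.2.2.2.2.2.2.2.2
  · exact ev15.1
  · exact ev15.2.1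
  · exact ev15.2.2.1
  · exact ev15.2.2.2.1
  · exact ev15.2.2.2.2.1
  · exact ev15.2.2.2.2.2.1
  · exact ev15.2.2.2.2.2.2.1
  · exact ev15.2.2.2.2.2.2.2.1
  · exact ev15.2.2.2.2.2.2.2.2.1
  · exact ev15.2.2.2.2.2.2.2.2.2.1
  · exact ev15.2.2.2.2.2.2.2.2.2.2.1
  · exact ev15.2.2.2.2.2.2.2.2.2.2.2.1
  · exact ev15.2.2.2.2.2.2.2.2.2.2.2.2.1
  · exact ev15.2.2.2.2.2.2.2.2.2.2.2.2.2.1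
  · exact ev15.2.2.2.2.2.2.2.2.2.2.2.2.2.2.1
  · exact ev15.2.2.2.2.2.2.2.2.2.2.2.2.2.2.2.1
  · exact ev15.2.2.2.2.2.2.2.2.2.2.2.2.2.2.2.2.1
  · exact ev15.2.2.2.2.2.2.2.2.2.2.2.2.2.2.2.2.2
  · exact ev16.1
  · exact ev16.2.1
  · exact ev16.2.2.1
  · exact ev16.2.2.2.1
  · exact ev16.2.2.2.2.1
  · exact ev16.2.2.2.2.2.1
  · exact ev16.2.2.2.2.2.2.1
  · exact ev16.2.2.2.2.2.2.2.1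
  · exact ev16.2.2.2.2.2.2.2.2.1
  · exact ev16.2.2.2.2.2.2.2.2.2.1
  · exact ev16.2.2.2.2.2.2.2.2.2.2.1
  · exact ev16.2.2.2.2.2.2.2.2.2.2.2.1
  · exact ev16.2.2.2.2.2.2.2.2.2.2.2.2.1
  · exact ev16.2.2.2.2.2.2.2.2.2.2.2.2.2.1
  · exact ev16.2.2.2.2.2.2.2.2.2.2.2.2.2.2.1
  · exact ev16.2.2.2.2.2.2.2.2.2.2.2.2.2.2.2.1
  · exact ev16.2.2.2.2.2.2.2.2.2.2.2.2.2.2.2.2.1
  · exact ev16.2.2.2.2.2.2.2.2.2.2.2.2.2.2.2.2.2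
  · exact ev17.1
  · exact ev17.2.1
  · exact ev17.2.2.1
  · exact ev17.2.2.2.1
  · exact ev17.2.2.2.2.1
  · exact ev17.2.2.2.2.2.1
  · exact ev17.2.2.2.2.2.2.1
  · exact ev17.2.2.2.2.2.2.2.1
  · exact ev17.2.2.2.2.2.2.2.2.1
  · exact ev17.2.2.2.2.2.2.2.2.2.1
  · exact ev17.2.2.2.2.2.2.2.2.2.2.1
  · exact ev17.2.2.2.2.2.2.2.2.2.2.2.1
  · exact ev17.2.2.2.2.2.2.2.2.2.2.2.2.1
  · exact ev17.2.2.2.2.2.2.2.2.2.2.2.2.2.1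
  · exact ev17.2.2.2.2.2.2.2.2.2.2.2.2.2.2.1
  · exact ev17.2.2.2.2.2.2.2.2.2.2.2.2.2.2.2.1
  · exact ev17.2.2.2.2.2.2.2.2.2.2.2.2.2.2.2.2.1
  · exact ev17.2.2.2.2.2.2.2.2.2.2.2.2.2.2.2.2.2
  · exact ev18.1
  · exact ev18.2.1
  · exact ev18.2.2.1
  · exact ev18.2.2.2.1
  · exact ev18.2.2.2.2.1
  · exact ev18.2.2.2.2.2.1
  · exact ev18.2.2.2.2.2.2.1
  · exact ev18.2.2.2.2.2.2.2.1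
  · exact ev18.2.2.2.2.2.2.2.2.1
  · exact ev18.2.2.2.2.2.2.2.2.2.1
  · exact ev18.2.2.2.2.2.2.2.2.2.2.1
  · exact ev18.2.2.2.2.2.2.2.2.2.2.2.1
  · exact ev18.2.2.2.2.2.2.2.2.2.2.2.2.1
  · exact ev18.2.2.2.2.2.2.2.2.2.2.2.2.2.1
  · exact ev18.2.2.2.2.2.2.2.2.2.2.2.2.2.2.1
  · exact ev18.2.2.2.2.2.2.2.2.2.2.2.2.2.2.2.1
  · exact ev18.2.2.2.2.2.2.2.2.2.2.2.2.2.2.2.2.1
  · exact ev18.2.2.2.2.2.2.2.2.2.2.2.2.2.2.2.2.2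
  · exact ev19.1
  · exact ev19.2.1
  · exact ev19.2.2.1
  · exact ev19.2.2.2.1
  · exact ev19.2.2.2.2.1
  · exact ev19.2.2.2.2.2.1
  · exact ev19.2.2.2.2.2.2.1
  · exact ev19.2.2.2.2.2.2.2.1
  · exact ev19.2.2.2.2.2.2.2.2.1
  · exact ev19.2.2.2.2.2.2.2.2.2.1
  · exact ev19.2.2.2.2.2.2.2.2.2.2.1
  · exact ev19.2.2.2.2.2.2.2.2.2.2.2.1
  · exact ev19.2.2.2.2.2.2.2.2.2.2.2.2.1
  · exact ev19.2.2.2.2.2.2.2.2.2.2.2.2.2.1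
  · exact ev19.2.2.2.2.2.2.2.2.2.2.2.2.2.2.1
  · exact ev19.2.2.2.2.2.2.2.2.2.2.2.2.2.2.2.1
  · exact ev19.2.2.2.2.2.2.2.2.2.2.2.2.2.2.2.2.1
  · exact ev19.2.2.2.2.2.2.2.2.2.2.2.2.2.2.2.2.2
  · exact ev20.1
  · exact ev20.2.1
  · exact ev20.2.2.1
  · exact ev20.2.2.2.1
  · exact ev20.2.2.2.2.1
  · exact ev20.2.2.2.2.2.1
  · exact ev20.2.2.2.2.2.2.1
  · exact ev20.2.2.2.2.2.2.2.1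
  · exact ev20.2.2.2.2.2.2.2.2.1
  · exact ev20.2.2.2.2.2.2.2.2.2.1
  · exact ev20.2.2.2.2.2.2.2.2.2.2.1
  · exact ev20.2.2.2.2.2.2.2.2.2.2.2.1
  · exact ev20.2.2.2.2.2.2.2.2.2.2.2.2.1
  · exact ev20.2.2.2.2.2.2.2.2.2.2.2.2.2.1
  · exact ev20.2.2.2.2.2.2.2.2.2.2.2.2.2.2.1
  · exact ev20.2.2.2.2.2.2.2.2.2.2.2.2.2.2.2.1
  · exact ev20.2.2.2.2.2.2.2.2.2.2.2.2.2.2.2.2.1
  · exact ev20.2.2.2.2.2.2.2.2.2.2.2.2.2.2.2.2.2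
  · exact ev21.1
  · exact ev21.2.1
  · exact ev21.2.2.1
  · exact ev21.2.2.2.1
  · exact ev21.2.2.2.2.1
  · exact ev21.2.2.2.2.2.1
  · exact ev21.2.2.2.2.2.2.1
  · exact ev21.2.2.2.2.2.2.2.1
  · exact ev21.2.2.2.2.2.2.2.2.1
  · exact ev21.2.2.2.2.2.2.2.2.2.1
  · exact ev21.2.2.2.2.2.2.2.2.2.2.1
  · exact ev21.2.2.2.2.2.2.2.2.2.2.2.1
  · exact ev21.2.2.2.2.2.2.2.2.2.2.2.2.1
  · exact ev21.2.2.2.2.2.2.2.2.2.2.2.2.2.1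
  · exact ev21.2.2.2.2.2.2.2.2.2.2.2.2.2.2.1
  · exact ev21.2.2.2.2.2.2.2.2.2.2.2.2.2.2.2.1
  · exact ev21.2.2.2.2.2.2.2.2.2.2.2.2.2.2.2.2.1
  · exact ev21.2.2.2.2.2.2.2.2.2.2.2.2.2.2.2.2.2
  · exact ev22.1
  · exact ev22.2.1
  · exact ev22.2.2.1
  · exact ev22.2.2.2.1
  · exact ev22.2.2.2.2.1
  · exact ev22.2.2.2.2.2.1
  · exact ev22.2.2.2.2.2.2.1
  · exact ev22.2.2.2.2.2.2.2.1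
  · exact ev22.2.2.2.2.2.2.2.2.1
  · exact ev22.2.2.2.2.2.2.2.2.2.1
  · exact ev22.2.2.2.2.2.2.2.2.2.2.1
  · exact ev22.2.2.2.2.2.2.2.2.2.2.2.1
  · exact ev22.2.2.2.2.2.2.2.2.2.2.2.2.1
  · exact ev22.2.2.2.2.2.2.2.2.2.2.2.2.2.1
  · exact ev22.2.2.2.2.2.2.2.2.2.2.2.2.2.2.1
  · exact ev22.2.2.2.2.2.2.2.2.2.2.2.2.2.2.2.1
  · exact ev22.2.2.2.2.2.2.2.2.2.2.2.2.2.2.2.2.1
  · exact ev22.2.2.2.2.2.2.2.2.2.2.2.2.2.2.2.2.2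
  · exact ev23.1
  · exact ev23.2.1
  · exact ev23.2.2.1
  · exact ev23.2.2.2.1
  · exact ev23.2.2.2.2.1
  · exact ev23.2.2.2.2.2.1
  · exact ev23.2.2.2.2.2.2.1
  · exact ev23.2.2.2.2.2.2.2.1
  · exact ev23.2.2.2.2.2.2.2.2

theorem ev_all : ∀ c ∈ reps, oneE c = true :=
  all_parts oneE 1 423 (by norm_num) reps (by rw [reps_len]) ev_parts

end Pool.Agent.Lib.MP_afdd4d_co.K8
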