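import Pool.Agent.Lib.MP_afdd4d_co.K8.Red

/-!
# The upper bound for a class of 4-graphs from local inequalities on eight-tuples
-/

namespace Pool.Agent.Lib.MP_afdd4d_co.K8

open Finset

/-- From the local inequality on eight-tuples to the bound, for a class `Cl` of 4-graphs. -/
theorem skelC (Cl : ∀ n : ℕ, Finset (Finset (Fin n)) → Prop) (L A C lam : ℝ) (hA : 0 < A)
    (hlam : lam * (A * 70) ≤ L)
    (h : ∀ (n : ℕ) (H : Finset (Finset (Fin n))), (∀ e ∈ H, e.card = 4) → Cl n H →
      ∃ R : (Fin (4 + 4) → Fin n) → ℝ,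
        -(C * ((n : ℝ) ^ (4 + 4) - (n.descFactorial (4 + 4) : ℝ))) ≤
          ∑ t ∈ inj (Fin n) (4 + 4), R t ∧
        ∀ t, Function.Injective t → L + R t ≤ A * (N8 H t : ℝ)) :
    ∀ ε : ℝ, 0 < ε → ∃ N : ℕ, ∀ n : ℕ, N ≤ n → ∀ H : Finset (Finset (Fin n)),
      (∀ e ∈ H, e.card = 4) → Cl n H →
      (H.card : ℝ) ≤ (1 - lam + ε) * ((n.choose 4 : ℕ) : ℝ) := by
  intro ε hε
  have hA70 : 0 < A * 70 := by positivity
  obtain ⟨N, hN⟩ := density_bound (4 + 4) 4 (by norm_num) (A * 70) L C lam hA70 hlam ε hε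
  refine ⟨N, fun n hn H h4 hcl => ?_⟩
  obtain ⟨R, hR, hloc⟩ := h n H h4 hcl
  classical
  -- the non-edges
  set G : Finset (Finset (Fin n)) := (univ.powersetCard 4) \ H with hGdef
  have hG : ∀ s ∈ G, s.card = 4 := by
    intro s hs
    rw [hGdef, Finset.mem_sdiff, Finset.mem_powersetCard] at hs
    exact hs.1.2
  have hHsub : H ⊆ univ.powersetCard 4 := by
    intro e he
    rw [Finset.mem_powersetCard]
    exact ⟨Finset.subset_univ _, h4 e he⟩
  have hcard : (G.card : ℝ) = ((n.choose 4 : ℕ) : ℝ) - (H.card : ℝ) := by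
    have h1 := Finset.card_sdiff_add_card_eq_card hHsub
    rw [Finset.card_powersetCard, Finset.card_univ, Fintype.card_fin] at h1
    have h2 : ((G.card + H.card : ℕ) : ℝ) = ((n.choose 4 : ℕ) : ℝ) := by exact_mod_cast h1
    push_cast at h2
    linarith
  have hS : ∑ t ∈ inj (Fin n) (4 + 4), D4 H (fun i => t (Fin.castAdd 4 i)) ≤
      (n : ℝ) ^ (4 + 4 - 4) * (((4 : ℕ).factorial : ℝ) * (G.card : ℝ)) := by
    have h1 := sum_inj_le_pow (V := Fin n) 4 4 (D4 H) (D4_nonneg H)
    rw [Fintype.card_fin] at h1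
    refine le_trans h1 ?_
    refine mul_le_mul_of_nonneg_left ?_ (by positivity)
    refine sum_inj_le_edges 4 G hG (D4 H) (D4_le_one H) ?_
    intro b hb hbG
    unfold D4
    have hc : (univ.image b).card = 4 := by
      rw [Finset.card_image_of_injective _ hb, Finset.card_univ, Fintype.card_fin]
    have hin : univ.image b ∈ H := by
      by_contra hno
      apply hbG
      rw [hGdef, Finset.mem_sdiff, Finset.mem_powersetCard]
      exact ⟨⟨Finset.subset_univ _, hc⟩, hno⟩
    rw [if_neg (not_not.mpr hin)]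
  have hsum : L * (n.descFactorial (4 + 4) : ℝ) + ∑ t ∈ inj (Fin n) (4 + 4), R t ≤
      A * (70 * ∑ t ∈ inj (Fin n) (4 + 4), D4 H (fun i => t (Fin.castAdd 4 i))) := by
    have h1 : ∑ t ∈ inj (Fin n) (4 + 4), (L + R t) ≤
        ∑ t ∈ inj (Fin n) (4 + 4), A * (N8 H t : ℝ) :=
      Finset.sum_le_sum fun t ht => hloc t (mem_inj.mp ht)
    rw [Finset.sum_add_distrib, Finset.sum_const, nsmul_eq_mul, card_inj, Fintype.card_fin,
      ← Finset.mul_sum, sum_N8] at h1
    linarith
  have hmain := hN n hn (G.card : ℝ)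
    (∑ t ∈ inj (Fin n) (4 + 4), D4 H (fun i => t (Fin.castAdd 4 i))) (Nat.cast_nonneg _) hS (by
      linarith)
  rw [hcard] at hmain
  have hch : (0 : ℝ) ≤ ((n.choose 4 : ℕ) : ℝ) := Nat.cast_nonneg _
  nlinarith [hmain]

/-- Every five vertices span an even number of edges. -/
def EvenH (n : ℕ) (H : Finset (Finset (Fin n))) : Prop :=
  ∀ S : Finset (Fin n), S.card = 5 → Even ((S.powersetCard 4).filter fun e => e ∈ H).card

theorem bz_eq_zero_or (b : Bool) : bz b = 0 ∨ bz b = 1 := by cases b <;> decide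

theorem evT_of_evenH {n m : ℕ} (H : Finset (Finset (Fin n))) (h : EvenH n H) (t : Fin m → Fin n)
    (ht : Function.Injective t) : EvT H t := by
  intro S hS
  have h1 := h (S.image t) (by rw [Finset.card_image_of_injective _ ht, hS])
  have hSt : (S.image t).card = 5 := by rw [Finset.card_image_of_injective _ ht, hS]
  have h2 : ∀ x ∈ S, zt H t (S.erase x) = if (S.image t).erase (t x) ∈ H then 1 else 0 := by
    intro x _
    rw [zt_eq, zb, E, Finset.image_erase ht]
    by_cases h3 : (S.image t).erase (t x) ∈ H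
    · rw [if_pos h3, decide_eq_false (not_not.mpr h3)]; rfl
    · rw [if_neg h3, decide_eq_true h3]; rfl
  unfold dl
  rw [Finset.sum_congr rfl h2]
  have h3 : ∑ x ∈ S, (if (S.image t).erase (t x) ∈ H then (1 : ZMod 2) else 0) =
      ∑ y ∈ S.image t, if (S.image t).erase y ∈ H then (1 : ZMod 2) else 0 := by
    rw [Finset.sum_image fun a _ b _ h => ht h]
  have h4 : ∑ y ∈ S.image t, (if (S.image t).erase y ∈ H then (1 : ZMod 2) else 0) =
      ((((S.image t).powersetCard 4).filter fun e => e ∈ H).card : ZMod 2) := by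
    rw [← Finset.sum_filter, Finset.sum_const, nsmul_eq_mul, mul_one]
    congr 1
    refine Finset.card_bij (fun y _ => (S.image t).erase y) ?_ ?_ ?_
    · intro y hy
      rw [Finset.mem_filter] at hy
      rw [Finset.mem_filter, Finset.mem_powersetCard]
      exact ⟨⟨Finset.erase_subset _ _, by rw [Finset.card_erase_of_mem hy.1, hSt]⟩, hy.2⟩
    · intro a ha b hb hab
      rw [Finset.mem_filter] at ha hb
      by_contra hne
      have h5 : a ∈ (S.image t).erase b := Finset.mem_erase.mpr ⟨hne, ha.1⟩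
      rw [← hab] at h5
      exact absurd h5 (Finset.notMem_erase a _)
    · intro e he
      rw [Finset.mem_filter, Finset.mem_powersetCard] at he
      have h5 : ((S.image t) \ e).card = 1 := by
        rw [Finset.card_sdiff_of_subset he.1.1, hSt, he.1.2]
      obtain ⟨y, hy⟩ := Finset.card_eq_one.mp h5
      have hy1 : y ∈ (S.image t) \ e := by rw [hy]; exact Finset.mem_singleton_self y
      rw [Finset.mem_sdiff] at hy1
      have h6 : (S.image t).erase y = e := by
        symm
        apply Finset.eq_of_subset_of_card_le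
        · intro z hz
          rw [Finset.mem_erase]
          exact ⟨fun h => hy1.2 (h ▸ hz), he.1.1 hz⟩
        · rw [Finset.card_erase_of_mem hy1.1, hSt, he.1.2]
      refine ⟨y, ?_, h6⟩
      rw [Finset.mem_filter]
      exact ⟨hy1.1, by rw [h6]; exact he.2⟩
  rw [h3, h4]
  obtain ⟨k, hk⟩ := h1
  rw [hk, Nat.cast_add]
  exact add_self_zmod2 _

end Pool.Agent.Lib.MP_afdd4d_co.K8
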