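import Pool.Agent.Lib.MP_afdd4d_co.K8.View3
import Pool.Agent.Lib.MP_afdd4d_co.K8.View4
import Pool.Agent.Lib.MP_afdd4d_co.K8.EvenSk

/-!
# The upper bound for even 4-graphs from a finite check
-/

namespace Pool.Agent.Lib.MP_afdd4d_co.K8

open Finset

/-- The upper bound for a class of 4-graphs from the local inequalities on eight-tuples. -/
theorem bound8K (Cl : ∀ n : ℕ, Finset (Finset (Fin n)) → Prop) (κ5 : Kern 5) (κ6 : Kern 6)
    (a Lo : ℤ) (ha : 0 < a) (lam : ℝ) (hlam : lam * (35 * a) ≤ Lo)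
    (h : ∀ (n : ℕ) (H : Finset (Finset (Fin n))), (∀ e ∈ H, e.card = 4) → Cl n H →
      ∀ t : Fin (7 + 1) → Fin n, Function.Injective t →
        16 * Lo + DS (PS (κ5.f H)) t + PS (κ6.f H) t ≤ 8 * a * (N8 H t : ℤ)) :
    ∀ ε : ℝ, 0 < ε → ∃ N : ℕ, ∀ n : ℕ, N ≤ n → ∀ H : Finset (Finset (Fin n)),
      (∀ e ∈ H, e.card = 4) → Cl n H →
      (H.card : ℝ) ≤ (1 - lam + ε) * ((n.choose 4 : ℕ) : ℝ) := by
  have haR : (0 : ℝ) < a := by exact_mod_cast ha
  refine skelC Cl (16 * Lo) (8 * a) (8 * (42 * κ5.C) + 56 * κ6.C) lam (by positivity) ?_ ?_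
  · have : lam * (8 * (a : ℝ) * 70) = 16 * (lam * (35 * a)) := by ring
    rw [this]
    linarith
  · intro n H h4 hcl
    refine ⟨fun t => ((DS (PS (κ5.f H)) t : ℤ) : ℝ) + ((PS (κ6.f H) t : ℤ) : ℝ), ?_, ?_⟩
    · rw [Finset.sum_add_distrib]
      have h1 := DS_PS_ge (V := Fin n) (fun s u w => ((κ5.f H s u w : ℤ) : ℝ)) κ5.C (κ5.psd H)
        (κ5.bd H)
      have h2 := PS_inj_ge (V := Fin n) (k := 6) 0 (fun s u w => ((κ6.f H s u w : ℤ) : ℝ)) κ6.C
        (κ6.psd H) (κ6.bd H) id Function.injective_id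
      rw [Fintype.card_fin] at h1 h2
      have e1 : ∀ t : Fin (4 + 4) → Fin n, ((DS (m := 7) (PS (κ5.f H)) t : ℤ) : ℝ) =
          DS (m := 7) (PS fun s u w => ((κ5.f H s u w : ℤ) : ℝ)) t := by
        intro t
        rw [cast_DS]
        congr 1
        funext s
        exact cast_PS _ s
      have e2 : ∀ t : Fin (4 + 4) → Fin n, ((PS (k := 6) (κ6.f H) t : ℤ) : ℝ) =
          PS (k := 6) (fun s u w => ((κ6.f H s u w : ℤ) : ℝ)) t := fun t => cast_PS _ t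
      rw [Finset.sum_congr rfl fun t _ => e1 t, Finset.sum_congr rfl fun t _ => e2 t]
      have h3 : -(56 * κ6.C * ((n : ℝ) ^ (4 + 4) - (n.descFactorial (4 + 4) : ℝ))) ≤
          ∑ t ∈ inj (Fin n) (4 + 4), PS (k := 6) (fun s u w => ((κ6.f H s u w : ℤ) : ℝ)) t := by
        refine le_trans (le_of_eq ?_) h2
        norm_num
      linarith
    · intro t ht
      have h1 := h n H h4 hcl t ht
      have h2 : (((16 * Lo + DS (PS (κ5.f H)) t + PS (κ6.f H) t : ℤ)) : ℝ) ≤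
          ((8 * a * (N8 H t : ℤ) : ℤ) : ℝ) := by exact_mod_cast h1
      push_cast at h2
      linarith

/-- The value of a seven-tuple. -/
def q2 {n : ℕ} (H : Finset (Finset (Fin n))) (κ5 : (Fin 5 → Fin n) → Fin n → Fin n → ℤ) (a Lo : ℤ)
    (s : Fin (5 + 1 + 1) → Fin n) : ℤ := 2 * Lo + PS κ5 s - 2 * a * (N8 H s : ℤ)

theorem N8_perm {n m : ℕ} (H : Finset (Finset (Fin n))) (τ : Equiv.Perm (Fin m))
    (s : Fin m → Fin n) : N8 H (s ∘ τ) = N8 H s := by
  unfold N8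
  refine Finset.sum_bij (fun T _ => T.image τ) ?_ ?_ ?_ ?_
  · intro T hT
    rw [Finset.mem_powersetCard] at hT ⊢
    exact ⟨Finset.subset_univ _, by rw [Finset.card_image_of_injective _ τ.injective]; exact hT.2⟩
  · intro T _ T' _ h
    exact Finset.image_injective τ.injective h
  · intro T hT
    rw [Finset.mem_powersetCard] at hT
    refine ⟨T.image τ.symm, ?_, ?_⟩
    · rw [Finset.mem_powersetCard]
      exact ⟨Finset.subset_univ _, by
        rw [Finset.card_image_of_injective _ τ.symm.injective]; exact hT.2⟩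
    · rw [Finset.image_image]
      have e : (τ ∘ τ.symm : Fin m → Fin m) = id := by
        funext i
        simp
      rw [e, Finset.image_id]
  · intro T _
    rw [E_comp]

theorem q2_perm {n : ℕ} (H : Finset (Finset (Fin n))) (κ5 : (Fin 5 → Fin n) → Fin n → Fin n → ℤ)
    (h5 : ∀ (τ : Equiv.Perm (Fin 5)) s u w, κ5 (s ∘ τ) u w = κ5 s u w) (a Lo : ℤ)
    (τ : Equiv.Perm (Fin 7)) (s : Fin 7 → Fin n) : q2 H κ5 a Lo (s ∘ τ) = q2 H κ5 a Lo s := by
  unfold q2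
  rw [N8_perm H τ s]
  have h := PS_perm κ5 h5 τ s
  rw [h]

theorem DS_perm8 {V : Type*} (P : (Fin 7 → V) → ℤ)
    (hP : ∀ (τ : Equiv.Perm (Fin 7)) t, P (t ∘ τ) = P t) (σ : Equiv.Perm (Fin 8))
    (t : Fin 8 → V) : DS (m := 7) P (t ∘ σ) = DS (m := 7) P t := DS_perm (m := 7) P hP σ t

/-- The data of the check. -/
structure Chk where
  κ5 : Kern 5
  κ6 : Kern 6
  g : ℕ → ℕ → ℤ
  a : ℤ
  Lo : ℤ
  O : ℕ
  O' : ℕ
  B2 : ℕ
  Q : ℕ → ℕ
  bk : ℕ → ℕ → ℕ → ℕ
  row : ℕ → ℕ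
  W : ℕ
  hW : 1 < W
  ha : 0 < a
  hlam : (5 / 16 : ℝ) * (35 * a) ≤ Lo
  hk6 : ∀ {n : ℕ} (H : Finset (Finset (Fin n))), κ6.f H = evk H (gK H g)
  hs : ∀ c d, g c d = g d c
  hO : ∀ c d, |g c d| ≤ O
  hQ2 : ∀ c, Q c ≤ B2
  hp5 : ∀ {n : ℕ} (H : Finset (Finset (Fin n))) (τ : Equiv.Perm (Fin 5)) s u w,
    κ5.f H (s ∘ τ) u w = κ5.f H s u w
  hp6 : ∀ {n : ℕ} (H : Finset (Finset (Fin n))) (τ : Equiv.Perm (Fin 6)) s u w,
    evk H (gK H g) (s ∘ τ) u w = evk H (gK H g) s u w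
  hQ : ∀ {n : ℕ} (H : Finset (Finset (Fin n))) (s : Fin 7 → Fin n), Function.Injective s →
    EvT H s → 2 * (O' : ℤ) + q2 H (κ5.f H) a Lo s ≤ 2 * (Q (idx 20 (gc H s)) : ℤ)
  hbd : 49 * (2 * O + B2) < 2 ^ (W - 1)
  hbk : ∀ p < 1024, ∀ x0 < 64, ∀ y0 < 64, Ar W 8 (bk p x0 y0) fun b =>
      gN g O p (x0 + 64 * idx 4 b) (y0 + 64 * idx 4 fun k => b (4 + k))
  hrow : ∀ c < 2 ^ 20, Ar W 10 (row c) fun b => gN g O (c % 1024) (c / 1024) (idx 10 b) +
      Q (c % 1024 + 1024 * idx 10 b)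

namespace Chk
variable (C : Chk)

/-- The check of one base. -/
def one (c : ℕ) : Bool :=
  leG C.W 15 (Nat.sub (Nat.add (Nat.mul 28 C.O) (Nat.mul 8 C.O')) (C.Q c))
    (arG C.W (tabG C.W C.bk) C.row wd c)

theorem gN_le (p x y : ℕ) : gN C.g C.O p x y ≤ 2 * C.O := by
  unfold gN
  have h := abs_le.mp (C.hO (p + 1024 * x) (p + 1024 * y))
  rw [Int.toNat_le]
  push_cast
  linarith [h.2]

theorem wd_len : wd.length = 49 := by decide

/-- The local inequality from the check. -/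
theorem local_of_one (c : ℕ) (hc : c < 2 ^ 20) (hQc : C.Q c ≤ 28 * C.O + 8 * C.O')
    (hone : C.one c = true) {n : ℕ} (H : Finset (Finset (Fin n)))
    (t : Fin 8 → Fin n) (ht : Function.Injective t) (hev : EvT H t)
    (htc : idx 20 (gc H t) = c) :
    DS (m := 7) (q2 H (C.κ5.f H) C.a C.Lo) t + PS (evk H (gK H C.g)) t ≤ 0 := by
  have hW : 0 < C.W := by have := C.hW; omega
  have h2W : 2 ^ C.W = 2 ^ (C.W - 1) + 2 ^ (C.W - 1) := by
    obtain ⟨k, hk⟩ : ∃ k, C.W = k + 1 := ⟨C.W - 1, by omega⟩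
    rw [hk, Nat.add_sub_cancel, pow_succ]; ring
  have hbd := C.hbd
  have har := arG_ar (gN C.g C.O) C.Q (tabG C.W C.bk) C.row hW (2 * C.O) C.B2
    (fun p x y => C.gN_le p x y) C.hQ2
    (fun c _ => tabG_ar hW (gN C.g C.O) C.bk C.hbk c) C.hrow 49 (by omega) wd (by decide)
    (by rw [wd_len]) c hc
  have hle : ∀ b, fV (gN C.g C.O) C.Q wd (mkz c b) < 2 ^ (C.W - 1) := by
    intro b
    have h1 := fV_le (gN C.g C.O) C.Q (2 * C.O) C.B2 (fun p x y => C.gN_le p x y) C.hQ2 wd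
      (mkz c b)
    rw [wd_len] at h1
    omega
  set K := 28 * C.O + 8 * C.O' - C.Q c with hK
  by_cases hK2 : K < 2 ^ (C.W - 1)
  · have h3 := leG_le C.hW har hK2 hle hone
    -- the lane of the tuple
    have h4 : fV (gN C.g C.O) C.Q wd (gc H t) ≤ K := by
      have h5 := h3 fun l => gc H t (lam.getD l 0)
      have h6 : fV (gN C.g C.O) C.Q wd (mkz c fun l => gc H t (lam.getD l 0)) =
          fV (gN C.g C.O) C.Q wd (gc H t) := by
        apply fV_congr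
        intro i hi
        unfold mkz
        by_cases h7 : i < 20
        · rw [if_pos h7, ← htc, testBit_idx]
          simp [h7]
        · rw [if_neg h7]
          obtain ⟨_, _, _, _, h10⟩ := lai_data (i - 20) (by omega)
          have h11 : lam.getD (lai.getD (i - 20) 0) 0 = i := by omega
          exact congrArg (gc H t) h11
      rw [← h6]
      exact h5
    exact even_local H C.g C.O C.O' K C.Q (fun c d => (abs_le.mp (C.hO c d)).1) C.hs (C.hp6 H)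
      (q2 H (C.κ5.f H) C.a C.Lo) (q2_perm H (C.κ5.f H) (C.hp5 H) C.a C.Lo) t ht hev
      (C.hQ H) (by rw [htc]; omega) h4
  · have h4 : fV (gN C.g C.O) C.Q wd (gc H t) ≤ K := by
      have h1 := fV_le (gN C.g C.O) C.Q (2 * C.O) C.B2 (fun p x y => C.gN_le p x y) C.hQ2 wd
        (gc H t)
      rw [wd_len] at h1
      omega
    exact even_local H C.g C.O C.O' K C.Q (fun c d => (abs_le.mp (C.hO c d)).1) C.hs (C.hp6 H)
      (q2 H (C.κ5.f H) C.a C.Lo) (q2_perm H (C.κ5.f H) (C.hp5 H) C.a C.Lo) t ht hev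
      (C.hQ H) (by rw [htc]; omega) h4

/-- The upper bound. -/
theorem bound (hlt : ∀ c ∈ reps, C.Q c ≤ 28 * C.O + 8 * C.O')
    (hall : ∀ c ∈ reps, C.one c = true) :
    ∀ ε : ℝ, 0 < ε → ∃ N : ℕ, ∀ n : ℕ, N ≤ n → ∀ H : Finset (Finset (Fin n)),
      (∀ e ∈ H, e.card = 4) → EvenH n H →
      (H.card : ℝ) ≤ (11 / 16 + ε) * ((n.choose 4 : ℕ) : ℝ) := by
  have hr : ∀ c ∈ reps, c < 2 ^ 20 := by
    have h := reps_lt
    rw [List.all_eq_true] at h
    exact fun c hc => of_decide_eq_true (h c hc)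
  have h := bound8K EvenH C.κ5 C.κ6 C.a C.Lo C.ha (5 / 16) C.hlam (by
    intro n H h4 hev t ht
    have hevT : EvT H t := evT_of_evenH H hev t ht
    have key : DS (m := 7) (q2 H (C.κ5.f H) C.a C.Lo) t + PS (evk H (gK H C.g)) t ≤ 0 := by
      refine even_reduce H (fun t : Fin 8 → Fin n =>
        DS (m := 7) (q2 H (C.κ5.f H) C.a C.Lo) t + PS (evk H (gK H C.g)) t ≤ 0) ?_ ?_ t ht hevT
      · intro t σ h1
        rw [DS_perm8 _ (q2_perm H (C.κ5.f H) (C.hp5 H) C.a C.Lo) σ t] at h1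
        have h2 := PS_perm (evk H (gK H C.g)) (C.hp6 H) σ t
        rw [h2] at h1
        exact h1
      · intro c hc t ht hev htc
        exact C.local_of_one c (hr c hc) (hlt c hc) (hall c hc) H t ht hev htc
    rw [C.hk6 H]
    have h6 := lin_aux (fun x => (N8 H (t ∘ x.succAbove) : ℤ))
      (fun x => PS (C.κ5.f H) (t ∘ x.succAbove)) C.a C.Lo (N8 H t : ℤ) (by
        have e1 := DS_N8 (m := 7) (by norm_num) H t
        have e4 : ((∑ x : Fin (7 + 1), N8 H (t ∘ x.succAbove) : ℕ) : ℤ) =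
            (((7 - 3) * N8 H t : ℕ) : ℤ) := congrArg Nat.cast e1
        rw [Nat.cast_sum, Nat.cast_mul] at e4
        exact e4)
    have h7 : DS (m := 7) (q2 H (C.κ5.f H) C.a C.Lo) t =
        -∑ x : Fin (7 + 1), (2 * C.a * (N8 H (t ∘ x.succAbove) : ℤ) - 2 * C.Lo -
          PS (C.κ5.f H) (t ∘ x.succAbove)) := by
      rw [← Finset.sum_neg_distrib]
      unfold DS q2
      refine Finset.sum_congr rfl fun x _ => ?_
      ring
    have h8 : DS (PS (C.κ5.f H)) t = ∑ x : Fin (7 + 1), PS (C.κ5.f H) (t ∘ x.succAbove) := rfl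
    rw [h6] at h7
    rw [h7, ← h8] at key
    linarith)
  intro ε hε
  obtain ⟨N, hN⟩ := h ε hε
  refine ⟨N, fun n hn H h4 hev => ?_⟩
  have := hN n hn H h4 hev
  norm_num at this ⊢
  exact this

end Chk

end Pool.Agent.Lib.MP_afdd4d_co.K8
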