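import Pool.Agent.Lib.MP_afdd4d_co.K8.LowerEven

/-!
# From even 4-graphs to all 4-graphs

For a 4-graph `H` and a vertex `v` let `EG H v` be the 4-graph with the same link of `v` and, for
four vertices `Q` not containing `v`, `Q` an edge if and only if an odd number of the triples of `Q`
are in the link. Every five vertices span an even number of edges of `EG H v`, and the average number
of its edges over `v` is a linear function of the numbers of 5-sets of `H` with given number of edges.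
-/

namespace Pool.Agent.Lib.MP_afdd4d_co.K8

open Finset

section general
variable {V : Type*} [DecidableEq V]

/-- The number of edges inside a set. -/
def c5 (H : Finset (Finset V)) (S : Finset V) : ℕ := ((S.powersetCard 4).filter fun e => e ∈ H).card

/-- The number of link triples of `v` inside `Q`. -/
def tl (H : Finset (Finset V)) (v : V) (Q : Finset V) : ℕ :=
  (Q.filter fun x => insert v (Q.erase x) ∈ H).card

theorem c5_split (H : Finset (Finset V)) (S : Finset V) (hS : S.card = 5) (v : V) (hv : v ∈ S) :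
    c5 H S = tl H v (S.erase v) + if S.erase v ∈ H then 1 else 0 := by
  unfold c5 tl
  rw [count_erase H S hS]
  conv_lhs => rw [← Finset.insert_erase hv]
  rw [Finset.filter_insert]
  have h1 : (insert v (S.erase v)).erase v = S.erase v := by
    rw [Finset.insert_erase hv]
  have h2 : ((S.erase v).filter fun y => (insert v (S.erase v)).erase y ∈ H) =
      (S.erase v).filter fun x => insert v ((S.erase v).erase x) ∈ H := by
    refine Finset.filter_congr fun y hy => ?_
    have hyv : y ≠ v := Finset.ne_of_mem_erase hy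
    rw [Finset.erase_insert_of_ne hyv.symm]
  rw [h1, h2]
  split_ifs with h3
  · rw [Finset.card_insert_of_notMem]
    intro h4
    exact Finset.notMem_erase v S (Finset.mem_filter.mp h4).1
  · rfl

/-- The parity of a count of odd numbers. -/
theorem even_filter_odd_iff {ι : Type*} (s : Finset ι) (f : ι → ℕ) :
    Even (s.filter fun i => Odd (f i)).card ↔ Even (∑ i ∈ s, f i) := by
  classical
  induction s using Finset.induction_on with
  | empty => simp
  | insert a s ha ih =>
    rw [Finset.sum_insert ha, Finset.filter_insert, Nat.even_add]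
    by_cases h : Odd (f a)
    · rw [if_pos h, Finset.card_insert_of_notMem fun h1 => ha (Finset.mem_filter.mp h1).1,
        Nat.even_add_one, ih]
      have h2 : ¬ Even (f a) := Nat.not_even_iff_odd.mpr h
      tauto
    · rw [if_neg h, ih]
      have h2 : Even (f a) := Nat.not_odd_iff_even.mp h
      tauto

/-- A double sum of a symmetric function over pairs of different elements is even. -/
theorem even_sum_pairs (s : Finset V) (g : V → V → ℕ) (hg : ∀ x y, g x y = g y x) :
    Even (∑ y ∈ s, ∑ x ∈ s.erase y, g x y) := by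
  induction s using Finset.induction_on with
  | empty => simp
  | insert a s ha ih =>
    rw [Finset.sum_insert ha, Finset.erase_insert ha]
    have h1 : ∑ y ∈ s, ∑ x ∈ (insert a s).erase y, g x y =
        ∑ y ∈ s, g a y + ∑ y ∈ s, ∑ x ∈ s.erase y, g x y := by
      rw [← Finset.sum_add_distrib]
      refine Finset.sum_congr rfl fun y hy => ?_
      have hay : a ≠ y := fun h => ha (h ▸ hy)
      rw [Finset.erase_insert_of_ne hay, Finset.sum_insert fun h => ha (Finset.mem_of_mem_erase h)]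
    have h2 : ∑ y ∈ s, g a y = ∑ x ∈ s, g x a := Finset.sum_congr rfl fun y _ => hg a y
    rw [h1, h2, ← add_assoc]
    exact (Even.add_self _).add ih

variable [Fintype V]

/-- The even 4-graph with the same link of `v`. -/
def EG (H : Finset (Finset V)) (v : V) : Finset (Finset V) :=
  (univ.powersetCard 4).filter fun e => if v ∈ e then e ∈ H else Odd (tl H v e)

theorem mem_EG (H : Finset (Finset V)) (v : V) (e : Finset V) :
    e ∈ EG H v ↔ e.card = 4 ∧ if v ∈ e then e ∈ H else Odd (tl H v e) := by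
  unfold EG
  rw [Finset.mem_filter, Finset.mem_powersetCard]
  simp

theorem EG_even (H : Finset (Finset V)) (v : V) (S : Finset V) (hS : S.card = 5) :
    Even (c5 (EG H v) S) := by
  have hcard : ∀ y ∈ S, (S.erase y).card = 4 := fun y hy => by
    rw [Finset.card_erase_of_mem hy, hS]
  by_cases hv : v ∈ S
  · rw [c5_split _ S hS v hv]
    have h1 : tl (EG H v) v (S.erase v) = tl H v (S.erase v) := by
      unfold tl
      congr 1
      refine Finset.filter_congr fun x hx => ?_
      have hc : (insert v ((S.erase v).erase x)).card = 4 := by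
        rw [Finset.card_insert_of_notMem, Finset.card_erase_of_mem hx, hcard v hv]
        intro h
        exact Finset.notMem_erase v S (Finset.mem_of_mem_erase h)
      rw [mem_EG, if_pos (Finset.mem_insert_self _ _)]
      exact and_iff_right hc
    have h2 : (S.erase v ∈ EG H v) ↔ Odd (tl H v (S.erase v)) := by
      rw [mem_EG, if_neg (Finset.notMem_erase v S)]
      exact and_iff_right (hcard v hv)
    rw [h1]
    by_cases h3 : Odd (tl H v (S.erase v))
    · rw [if_pos (h2.mpr h3)]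
      exact h3.add_odd odd_one
    · rw [if_neg (fun h => h3 (h2.mp h)), add_zero]
      exact Nat.not_odd_iff_even.mp h3
  · unfold c5
    rw [count_erase _ S hS]
    have h1 : (S.filter fun y => S.erase y ∈ EG H v) =
        S.filter fun y => Odd (tl H v (S.erase y)) := by
      refine Finset.filter_congr fun y hy => ?_
      rw [mem_EG, if_neg (fun h => hv (Finset.mem_of_mem_erase h))]
      exact and_iff_right (hcard y hy)
    rw [h1, even_filter_odd_iff]
    have h2 : ∀ y ∈ S, tl H v (S.erase y) =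
        ∑ x ∈ S.erase y, if insert v ((S.erase y).erase x) ∈ H then 1 else 0 := by
      intro y _
      unfold tl
      rw [Finset.card_filter]
    rw [Finset.sum_congr rfl h2]
    exact even_sum_pairs S (fun x y => if insert v ((S.erase y).erase x) ∈ H then 1 else 0)
      fun x y => by rw [Finset.erase_right_comm]

/-- Pairs of a vertex and a set not containing it. -/
theorem sum_pairs (k : ℕ) (f : V → Finset V → ℕ) :
    ∑ v : V, ∑ Q ∈ (univ.powersetCard k).filter (fun Q => v ∉ Q), f v Q =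
      ∑ S ∈ univ.powersetCard (k + 1), ∑ v ∈ S, f v (S.erase v) := by
  rw [Finset.sum_sigma', Finset.sum_sigma']
  refine Finset.sum_bij' (fun p _ => ⟨insert p.1 p.2, p.1⟩) (fun p _ => ⟨p.2, p.1.erase p.2⟩)
    ?_ ?_ ?_ ?_ ?_
  · rintro ⟨v, Q⟩ h
    rw [Finset.mem_sigma, Finset.mem_filter, Finset.mem_powersetCard] at h
    rw [Finset.mem_sigma, Finset.mem_powersetCard]
    exact ⟨⟨Finset.subset_univ _, by rw [Finset.card_insert_of_notMem h.2.2, h.2.1.2]⟩,
      Finset.mem_insert_self _ _⟩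
  · rintro ⟨S, v⟩ h
    rw [Finset.mem_sigma, Finset.mem_powersetCard] at h
    rw [Finset.mem_sigma, Finset.mem_filter, Finset.mem_powersetCard]
    exact ⟨Finset.mem_univ _, ⟨Finset.subset_univ _, by
      rw [Finset.card_erase_of_mem h.2, h.1.2, Nat.add_sub_cancel]⟩, Finset.notMem_erase _ _⟩
  · rintro ⟨v, Q⟩ h
    rw [Finset.mem_sigma, Finset.mem_filter] at h
    simp only [Finset.erase_insert h.2.2]
  · rintro ⟨S, v⟩ h
    rw [Finset.mem_sigma] at h
    simp only [Finset.insert_erase h.2]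
  · rintro ⟨v, Q⟩ h
    rw [Finset.mem_sigma, Finset.mem_filter] at h
    simp only [Finset.erase_insert h.2.2]

/-- The weight of a 5-set. -/
def w5 (c : ℕ) : ℕ := if Odd c then 5 - c else c

omit [Fintype V] in
theorem card_odd_tl (H : Finset (Finset V)) (S : Finset V) (hS : S.card = 5) :
    (S.filter fun v => Odd (tl H v (S.erase v))).card = w5 (c5 H S) := by
  have hc : c5 H S = (S.filter fun v => S.erase v ∈ H).card := count_erase H S hS
  unfold w5
  by_cases ho : Odd (c5 H S)
  · rw [if_pos ho]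
    have h1 : (S.filter fun v => Odd (tl H v (S.erase v))) = S.filter fun v => ¬ S.erase v ∈ H := by
      refine Finset.filter_congr fun v hv => ?_
      have h2 := c5_split H S hS v hv
      by_cases h3 : S.erase v ∈ H
      · rw [if_pos h3] at h2
        rw [h2, Nat.odd_add_one] at ho
        tauto
      · rw [if_neg h3, add_zero] at h2
        rw [h2] at ho
        tauto
    have h4 := Finset.card_filter_add_card_filter_not (s := S) fun v => S.erase v ∈ H
    rw [h1]
    omega
  · rw [if_neg ho, hc]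
    congr 1
    refine Finset.filter_congr fun v hv => ?_
    have h2 := c5_split H S hS v hv
    by_cases h3 : S.erase v ∈ H
    · rw [if_pos h3] at h2
      rw [h2, Nat.odd_add_one, not_not] at ho
      tauto
    · rw [if_neg h3, add_zero] at h2
      rw [h2] at ho
      tauto

theorem sum_card_EG (H : Finset (Finset V)) (h4 : ∀ e ∈ H, e.card = 4) :
    ∑ v : V, (EG H v).card = 4 * H.card + ∑ S ∈ univ.powersetCard 5, w5 (c5 H S) := by
  have h1 : ∀ v : V, (EG H v).card = (H.filter fun e => v ∈ e).card +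
      ∑ Q ∈ (univ.powersetCard 4).filter (fun Q => v ∉ Q), if Odd (tl H v Q) then 1 else 0 := by
    intro v
    have h2 : EG H v = (H.filter fun e => v ∈ e) ∪
        (((univ.powersetCard 4).filter fun Q => v ∉ Q).filter fun Q => Odd (tl H v Q)) := by
      ext e
      rw [mem_EG, Finset.mem_union, Finset.mem_filter, Finset.mem_filter, Finset.mem_filter,
        Finset.mem_powersetCard]
      by_cases hv : v ∈ e
      · rw [if_pos hv]
        constructor
        · rintro ⟨_, h3⟩
          exact Or.inl ⟨h3, hv⟩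
        · rintro (⟨h3, _⟩ | ⟨⟨_, h3⟩, _⟩)
          · exact ⟨h4 e h3, h3⟩
          · exact absurd hv h3
      · rw [if_neg hv]
        constructor
        · rintro ⟨h3, h5⟩
          exact Or.inr ⟨⟨⟨Finset.subset_univ _, h3⟩, hv⟩, h5⟩
        · rintro (⟨_, h3⟩ | ⟨⟨⟨_, h3⟩, _⟩, h5⟩)
          · exact absurd h3 hv
          · exact ⟨h3, h5⟩
    rw [h2, Finset.card_union_of_disjoint, Finset.card_filter (fun Q => Odd (tl H v Q))]
    rw [Finset.disjoint_left]
    intro e he he2
    exact (Finset.mem_filter.mp (Finset.mem_filter.mp he2).1).2 (Finset.mem_filter.mp he).2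
  rw [Finset.sum_congr rfl fun v _ => h1 v, Finset.sum_add_distrib]
  congr 1
  · have h2 : ∀ v : V, (H.filter fun e => v ∈ e).card = ∑ e ∈ H, if v ∈ e then 1 else 0 :=
      fun v => Finset.card_filter _ _
    rw [Finset.sum_congr rfl fun v _ => h2 v, Finset.sum_comm]
    have h3 : ∀ e ∈ H, ∑ v : V, (if v ∈ e then 1 else 0) = 4 := by
      intro e he
      rw [← Finset.card_filter, Finset.filter_mem_eq_inter, Finset.univ_inter, h4 e he]
    rw [Finset.sum_congr rfl h3, Finset.sum_const, smul_eq_mul, mul_comm]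
  · rw [sum_pairs 4 fun v Q => if Odd (tl H v Q) then 1 else 0]
    refine Finset.sum_congr rfl fun S hS => ?_
    rw [← Finset.card_filter, card_odd_tl H S (Finset.mem_powersetCard.mp hS).2]

omit [Fintype V] in
theorem c5_le (H : Finset (Finset V)) (S : Finset V) (hS : S.card = 5) : c5 H S ≤ 5 := by
  unfold c5
  rw [count_erase H S hS, ← hS]
  exact Finset.card_filter_le _ _

/-- The number of 5-sets with exactly `c` edges. -/
def T5 (H : Finset (Finset V)) (c : ℕ) : ℕ := ((univ.powersetCard 5).filter fun S => c5 H S = c).card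

theorem sum_c5 (H : Finset (Finset V)) (f : ℕ → ℕ) :
    ∑ S ∈ univ.powersetCard 5, f (c5 H S) = ∑ c ∈ range 6, f c * T5 H c := by
  have h1 : ∀ S ∈ (univ : Finset V).powersetCard 5, f (c5 H S) =
      ∑ c ∈ range 6, if c5 H S = c then f c else 0 := by
    intro S hS
    rw [Finset.sum_ite_eq, if_pos]
    rw [Finset.mem_range]
    have := c5_le H S (Finset.mem_powersetCard.mp hS).2
    omega
  rw [Finset.sum_congr rfl h1, Finset.sum_comm]
  refine Finset.sum_congr rfl fun c _ => ?_
  unfold T5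
  rw [← Finset.sum_filter, Finset.sum_const, smul_eq_mul, mul_comm]

/-- Double counting of the pairs of an edge and a 5-set containing it. -/
theorem sum_c5_card (H : Finset (Finset V)) (h4 : ∀ e ∈ H, e.card = 4) :
    ∑ S ∈ univ.powersetCard 5, c5 H S = (Fintype.card V - 4) * H.card := by
  have h1 : ∀ S ∈ (univ : Finset V).powersetCard 5, c5 H S =
      ∑ v ∈ S, if S.erase v ∈ H then 1 else 0 := by
    intro S hS
    unfold c5
    rw [count_erase H S (Finset.mem_powersetCard.mp hS).2, Finset.card_filter]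
  rw [Finset.sum_congr rfl h1, ← sum_pairs 4 fun _ Q => if Q ∈ H then 1 else 0]
  have h2 : ∀ v : V, ∑ Q ∈ (univ.powersetCard 4).filter (fun Q => v ∉ Q),
      (if Q ∈ H then 1 else 0) = ∑ e ∈ H, if v ∉ e then 1 else 0 := by
    intro v
    rw [← Finset.sum_filter, ← Finset.sum_filter]
    refine Finset.sum_congr ?_ fun _ _ => rfl
    ext e
    rw [Finset.mem_filter, Finset.mem_filter, Finset.mem_powersetCard, Finset.mem_filter]
    constructor
    · rintro ⟨⟨_, h3⟩, h5⟩
      exact ⟨h5, h3⟩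
    · rintro ⟨h3, h5⟩
      exact ⟨⟨⟨Finset.subset_univ _, h4 e h3⟩, h5⟩, h3⟩
  rw [Finset.sum_congr rfl fun v _ => h2 v, Finset.sum_comm]
  have h3 : ∀ e ∈ H, ∑ v : V, (if v ∉ e then 1 else 0) = Fintype.card V - 4 := by
    intro e he
    rw [← Finset.card_filter]
    have h5 : (univ.filter fun v => v ∉ e) = eᶜ := by
      ext v
      simp
    rw [h5, Finset.card_compl, h4 e he]
  rw [Finset.sum_congr rfl h3, Finset.sum_const, smul_eq_mul, mul_comm]

end general

/-- The inequality for all 4-graphs. -/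
theorem marked_of_even
    (hE : ∀ ε : ℝ, 0 < ε → ∃ N : ℕ, ∀ n : ℕ, N ≤ n → ∀ H : Finset (Finset (Fin n)),
      (∀ e ∈ H, e.card = 4) → EvenH n H →
      (H.card : ℝ) ≤ (11 / 16 + ε) * ((n.choose 4 : ℕ) : ℝ)) :
    ∀ ε : ℝ, 0 < ε → ∃ N : ℕ, ∀ n : ℕ, N ≤ n → ∀ H : Finset (Finset (Fin n)),
      (∀ e ∈ H, e.card = 4) →
      (4 * H.card + (4 * T5 H 1 + 2 * T5 H 2 + 2 * T5 H 3 + 4 * T5 H 4) : ℝ) ≤
        (11 / 16 + ε) * (n * ((n.choose 4 : ℕ) : ℝ)) := by
  intro ε hε
  obtain ⟨N, hN⟩ := hE ε hε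
  refine ⟨N, fun n hn H h4 => ?_⟩
  have h1 : ∀ v : Fin n, ((EG H v).card : ℝ) ≤ (11 / 16 + ε) * ((n.choose 4 : ℕ) : ℝ) := fun v =>
    hN n hn (EG H v) (fun e he => ((mem_EG H v e).mp he).1) fun S hS => EG_even H v S hS
  have h2 : (∑ v : Fin n, ((EG H v).card : ℝ)) ≤
      ∑ v : Fin n, (11 / 16 + ε) * ((n.choose 4 : ℕ) : ℝ) := Finset.sum_le_sum fun v _ => h1 v
  rw [Finset.sum_const, Finset.card_univ, Fintype.card_fin, nsmul_eq_mul] at h2
  have h3 := sum_card_EG H h4
  rw [sum_c5 H w5] at h3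
  have h5 : ∑ c ∈ range 6, w5 c * T5 H c = 4 * T5 H 1 + 2 * T5 H 2 + 2 * T5 H 3 + 4 * T5 H 4 := by
    have e0 : w5 0 = 0 := by decide
    have e1 : w5 1 = 4 := by decide
    have e2 : w5 2 = 2 := by decide
    have e3 : w5 3 = 2 := by decide
    have e4 : w5 4 = 4 := by decide
    have e5 : w5 5 = 0 := by decide
    simp only [Finset.sum_range_succ, Finset.sum_range_zero, e0, e1, e2, e3, e4, e5]
    ring
  rw [h5] at h3
  have h6 : (∑ v : Fin n, ((EG H v).card : ℝ)) =
      4 * H.card + (4 * T5 H 1 + 2 * T5 H 2 + 2 * T5 H 3 + 4 * T5 H 4) := by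
    exact_mod_cast h3
  rw [h6] at h2
  calc _ ≤ (n : ℝ) * ((11 / 16 + ε) * ((n.choose 4 : ℕ) : ℝ)) := h2
    _ = _ := by ring

theorem sum_five (n : ℕ) (H : Finset (Finset (Fin n))) (h4 : ∀ e ∈ H, e.card = 4) :
    T5 H 1 + 2 * T5 H 2 + 3 * T5 H 3 + 4 * T5 H 4 + 5 * T5 H 5 = (n - 4) * H.card := by
  have h1 := sum_c5_card H h4
  rw [Fintype.card_fin, sum_c5 H fun c => c] at h1
  rw [← h1]
  simp only [Finset.sum_range_succ, Finset.sum_range_zero]
  ring

theorem choose5_mul (n : ℕ) : 5 * n.choose 5 = (n - 4) * n.choose 4 := by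
  have h := Nat.choose_succ_right_eq n 4
  linarith

/-- The bound for all 4-graphs: the density is at most `11/16 + (θ₃ + 5 θ₅ - 3 θ₁) / 5 + o(1)`. -/
theorem density_of_even
    (hE : ∀ ε : ℝ, 0 < ε → ∃ N : ℕ, ∀ n : ℕ, N ≤ n → ∀ H : Finset (Finset (Fin n)),
      (∀ e ∈ H, e.card = 4) → EvenH n H →
      (H.card : ℝ) ≤ (11 / 16 + ε) * ((n.choose 4 : ℕ) : ℝ)) :
    ∀ ε : ℝ, 0 < ε → ∃ N : ℕ, ∀ n : ℕ, N ≤ n → ∀ H : Finset (Finset (Fin n)),
      (∀ e ∈ H, e.card = 4) →
      (H.card : ℝ) / ((n.choose 4 : ℕ) : ℝ) ≤ 11 / 16 +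
        ((T5 H 3 : ℝ) + 5 * (T5 H 5 : ℝ) - 3 * (T5 H 1 : ℝ)) / (5 * ((n.choose 5 : ℕ) : ℝ)) + ε := by
  intro ε hε
  obtain ⟨N, hN⟩ := marked_of_even hE (ε / 2) (by linarith)
  obtain ⟨M, hM⟩ := exists_nat_gt ((4 * (11 / 16 + ε / 2)) / (ε / 2))
  refine ⟨max N (M + 5), fun n hn H h4 => ?_⟩
  have hn5 : 5 ≤ n := by have := le_trans (le_max_right N (M + 5)) hn; omega
  have hnM : M ≤ n - 4 := by have := le_trans (le_max_right N (M + 5)) hn; omega
  have h1 := hN n (le_trans (le_max_left _ _) hn) H h4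
  have h2 := sum_five n H h4
  have h3 := choose5_mul n
  obtain ⟨m, rfl⟩ : ∃ m, n = m + 4 := ⟨n - 4, by omega⟩
  rw [Nat.add_sub_cancel] at h2 h3 hnM
  have hC : (0 : ℝ) < (((m + 4).choose 4 : ℕ) : ℝ) := by
    exact_mod_cast Nat.choose_pos (by omega)
  have hm : (0 : ℝ) < m := by
    have : 1 ≤ m := by omega
    exact_mod_cast this
  have h2' : (T5 H 1 : ℝ) + 2 * T5 H 2 + 3 * T5 H 3 + 4 * T5 H 4 + 5 * T5 H 5 = m * H.card := by
    exact_mod_cast h2
  have h3' : 5 * (((m + 4).choose 5 : ℕ) : ℝ) = m * (((m + 4).choose 4 : ℕ) : ℝ) := by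
    exact_mod_cast h3
  rw [h3']
  set C : ℝ := (((m + 4).choose 4 : ℕ) : ℝ) with hCdef
  have hM' : 4 * (11 / 16 + ε / 2) < (ε / 2) * m := by
    have h5 : (4 * (11 / 16 + ε / 2)) / (ε / 2) < m := lt_of_lt_of_le hM (by exact_mod_cast hnM)
    rw [div_lt_iff₀ (by linarith)] at h5
    linarith
  have hH0 : (0 : ℝ) ≤ H.card := Nat.cast_nonneg _
  have e1 : (4 * (H.card : ℝ) + (m * H.card + 3 * T5 H 1 - T5 H 3 - 5 * T5 H 5)) ≤
      (11 / 16 + ε / 2) * ((m + 4) * C) := by
    push_cast at h1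
    linarith
  have e2 : (m : ℝ) * H.card ≤ (11 / 16) * (m * C) +
      (T5 H 3 + 5 * T5 H 5 - 3 * T5 H 1) + ε * (m * C) := by
    have h5 : (4 * (11 / 16 + ε / 2)) * C ≤ (ε / 2 * m) * C :=
      mul_le_mul_of_nonneg_right hM'.le hC.le
    nlinarith
  have hmC : 0 < (m : ℝ) * C := mul_pos hm hC
  have e3 : (H.card : ℝ) / C = (m * H.card) / (m * C) := by
    rw [mul_div_mul_left _ _ hm.ne']
  rw [e3, div_le_iff₀ hmC]
  have e4 : (11 / 16 + ((T5 H 3 : ℝ) + 5 * (T5 H 5 : ℝ) - 3 * (T5 H 1 : ℝ)) / (m * C) + ε) *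
      (m * C) = (11 / 16) * (m * C) + (T5 H 3 + 5 * T5 H 5 - 3 * T5 H 1) + ε * (m * C) := by
    field_simp
  rw [e4]
  exact e2

/-- The final statement from the theorem for even 4-graphs. -/
theorem profile_of_even
    (hE : ∀ ε : ℝ, 0 < ε → ∃ N : ℕ, ∀ n : ℕ, N ≤ n → ∀ H : Finset (Finset (Fin n)),
      (∀ e ∈ H, e.card = 4) → EvenH n H →
      (H.card : ℝ) ≤ (11 / 16 + ε) * ((n.choose 4 : ℕ) : ℝ)) :
    ∀ ε : ℝ, 0 < ε → ∃ N : ℕ, ∀ n : ℕ, N ≤ n →
      (∀ H : Finset (Finset (Fin n)), (∀ e ∈ H, e.card = 4) →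
        (H.card : ℝ) / ((n.choose 4 : ℕ) : ℝ) ≤ 11 / 16 +
          ((T5 H 3 : ℝ) + 5 * (T5 H 5 : ℝ) - 3 * (T5 H 1 : ℝ)) / (5 * ((n.choose 5 : ℕ) : ℝ)) +
            ε) ∧
      (∀ H : Finset (Finset (Fin n)), (∀ e ∈ H, e.card = 4) → T5 H 3 = 0 → T5 H 5 = 0 →
        (H.card : ℝ) ≤ (11 / 16 + ε) * ((n.choose 4 : ℕ) : ℝ)) ∧
      (∃ H : Finset (Finset (Fin n)), (∀ e ∈ H, e.card = 4) ∧
        T5 H 1 = 0 ∧ T5 H 3 = 0 ∧ T5 H 5 = 0 ∧
        (11 / 16 - ε) * ((n.choose 4 : ℕ) : ℝ) ≤ (H.card : ℝ)) := by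
  intro ε hε
  obtain ⟨N, hN⟩ := density_of_even hE ε hε
  obtain ⟨M, hM⟩ := lower_even ε hε
  refine ⟨max (max N M) 4, fun n hn => ⟨?_, ?_, ?_⟩⟩
  · exact hN n (le_trans (le_trans (le_max_left _ _) (le_max_left _ _)) hn)
  · intro H h4 h3 h5
    have h1 := hN n (le_trans (le_trans (le_max_left _ _) (le_max_left _ _)) hn) H h4
    rw [h3, h5] at h1
    have hn4 : 4 ≤ n := le_trans (le_max_right _ _) hn
    have hC : (0 : ℝ) < ((n.choose 4 : ℕ) : ℝ) := by exact_mod_cast Nat.choose_pos hn4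
    have h6 : ((0 : ℕ) + 5 * ((0 : ℕ) : ℝ) - 3 * (T5 H 1 : ℝ)) / (5 * ((n.choose 5 : ℕ) : ℝ)) ≤
        0 := by
      apply div_nonpos_of_nonpos_of_nonneg
      · have : (0 : ℝ) ≤ (T5 H 1 : ℝ) := Nat.cast_nonneg _
        push_cast
        linarith
      · positivity
    have h7 : (H.card : ℝ) / ((n.choose 4 : ℕ) : ℝ) ≤ 11 / 16 + ε := by linarith
    rwa [div_le_iff₀ hC] at h7
  · obtain ⟨H, h4, hev, hc⟩ :=
      hM n (le_trans (le_trans (le_max_right _ _) (le_max_left _ _)) hn)
    have hodd : ∀ c : ℕ, Odd c → T5 H c = 0 := by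
      intro c hc
      unfold T5
      rw [Finset.card_eq_zero, Finset.filter_eq_empty_iff]
      intro S hS h
      have h1 := hev S (Finset.mem_powersetCard.mp hS).2
      have h2 : c5 H S = c := h
      unfold c5 at h2
      rw [h2] at h1
      exact (Nat.not_even_iff_odd.mpr hc) h1
    exact ⟨H, h4, hodd 1 (by decide), hodd 3 (by decide), hodd 5 (by decide), hc⟩

end Pool.Agent.Lib.MP_afdd4d_co.K8
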