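import Pool.Agent.Lib.MP_afdd4d_co.K8.EvAll
import Pool.Agent.Lib.MP_afdd4d_co.K8.D6.Tb
import Pool.Agent.Lib.MP_afdd4d_co.K8.Even8
import Pool.Agent.Lib.MP_afdd4d_co.K8.Marked

/-!
# The theorem for even 4-graphs and its consequence for all 4-graphs
-/

namespace Pool.Agent.Lib.MP_afdd4d_co.K8

open Finset

theorem B5_val : Og.B5 = 607717849433024 := by
  unfold Og.B5
  norm_num

theorem gN_D6_le (p x y : ℕ) :
    gN D6.D.g 562949953421312 p x y ≤ 2 * 562949953421312 := by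
  unfold gN
  have h := abs_le.mp (TF.g_abs D6.rowsOK (p + 1024 * x) (p + 1024 * y))
  have hB : ((D6.D.B : ℕ) : ℤ) = 562949953421312 := rfl
  rw [Int.toNat_le]
  push_cast
  linarith [h.2]

/-- The data of the check. -/
noncomputable def evCk : Chk where
  κ5 := Og.kern5
  κ6 := D6.D.kern D6.rowsOK D6.psdOK
  g := D6.D.g
  a := (Og.a5 : ℤ)
  Lo := (Og.Lo5 : ℤ)
  O := 562949953421312
  O' := 562949953421312
  B2 := Og.B5
  Q := Og.Q5
  bk := bkE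
  row := rowE
  W := 64
  hW := by norm_num
  ha := Og.ha5
  hlam := Og.hlam5
  hk6 := fun H => D6.D.kern_f D6.rowsOK D6.psdOK H
  hs := TF.g_symm D6.numOK D6.symOK
  hO := TF.g_abs D6.rowsOK
  hQ2 := Og.hQ25
  hp5 := Og.hp5'
  hp6 := fun H τ s u w => TF.evk_g_perm D6.invOK H τ s u w
  hQ := fun H s hs hev => Og.hQ5' H s hs hev
  hbd := by unfold Og.B5; norm_num
  hbk := fun p hp x0 hx y0 hy =>
    (BE.blkH_ar D6.rowsOK D6.prOK D6.eOK (BE.tbH D6.TB) D6.tb_ok p x0 y0 hp hx hy).congr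
      fun _ => (TF.gN_eq D6.D _ _ _ _ hp).symm
  hrow := fun c _ => by
    refine Ar.add (TF.row_ar D6.rowsOK D6.prOK (c % 1024) (c / 1024)
      (Nat.mod_lt _ (by norm_num))) (Og.row5_ar (c % 1024) (Nat.mod_lt _ (by norm_num)))
      (by norm_num) ?_
    intro b
    have h1 := gN_D6_le (c % 1024) (c / 1024) (idx 10 b)
    have h2 := Og.hQ25 (c % 1024 + 1024 * idx 10 b)
    rw [B5_val] at h2
    calc gN D6.D.g 562949953421312 (c % 1024) (c / 1024) (idx 10 b) +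
        Og.Q5 (c % 1024 + 1024 * idx 10 b) ≤ 2 * 562949953421312 + 607717849433024 :=
          Nat.add_le_add h1 h2
      _ < 2 ^ 64 := by norm_num

theorem one_eq (c : ℕ) : evCk.one c = oneE c := by
  have h1 : evCk.W = 64 := rfl
  have h2 : evCk.O = 562949953421312 := rfl
  have h3 : evCk.O' = 562949953421312 := rfl
  have h4 : evCk.Q = Og.Q5 := rfl
  have h5 : evCk.bk = bkE := rfl
  have h6 : evCk.row = rowE := by
    unfold evCk
    with_reducible rfl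
  unfold Chk.one oneE
  rw [h1, h2, h3, h4, h5, h6]

theorem Q_le (c : ℕ) : evCk.Q c ≤ 28 * evCk.O + 8 * evCk.O' := by
  have h := Og.hQ25 c
  rw [B5_val] at h
  have e : 28 * evCk.O + 8 * evCk.O' = 20266198323167232 := rfl
  rw [e]
  exact le_trans h (by norm_num)

theorem even_upper : ∀ ε : ℝ, 0 < ε → ∃ N : ℕ, ∀ n : ℕ, N ≤ n → ∀ H : Finset (Finset (Fin n)),
    (∀ e ∈ H, e.card = 4) → EvenH n H →
    (H.card : ℝ) ≤ (11 / 16 + ε) * ((n.choose 4 : ℕ) : ℝ) :=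
  evCk.bound (fun c _ => Q_le c) fun c hc => by rw [one_eq]; exact ev_all c hc

/-- The final statement. -/
theorem profile : ∀ ε : ℝ, 0 < ε → ∃ N : ℕ, ∀ n : ℕ, N ≤ n →
      (∀ H : Finset (Finset (Fin n)), (∀ e ∈ H, e.card = 4) →
        (H.card : ℝ) / ((n.choose 4 : ℕ) : ℝ) ≤ 11 / 16 +
          ((T5 H 3 : ℝ) + 5 * (T5 H 5 : ℝ) - 3 * (T5 H 1 : ℝ)) / (5 * ((n.choose 5 : ℕ) : ℝ)) +
            ε) ∧
      (∀ H : Finset (Finset (Fin n)), (∀ e ∈ H, e.card = 4) → T5 H 3 = 0 → T5 H 5 = 0 →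
        (H.card : ℝ) ≤ (11 / 16 + ε) * ((n.choose 4 : ℕ) : ℝ)) ∧
      (∃ H : Finset (Finset (Fin n)), (∀ e ∈ H, e.card = 4) ∧
        T5 H 1 = 0 ∧ T5 H 3 = 0 ∧ T5 H 5 = 0 ∧
        (11 / 16 - ε) * ((n.choose 4 : ℕ) : ℝ) ≤ (H.card : ℝ)) :=
  profile_of_even even_upper

end Pool.Agent.Lib.MP_afdd4d_co.K8
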