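import Pool.Agent.Lib.MP_afdd4d_co.K8.F5Val

/-!
# The fields of the check which depend on the five-vertex types
-/

namespace Pool.Agent.Lib.MP_afdd4d_co.K8.Og

/-- The value of the class of a code. -/
def Q5 (c : ℕ) : ℕ := Ln 64 V5 (cix c)

theorem ha5 : 0 < (a5 : ℤ) := by
  unfold a5
  norm_num

theorem hlam5 : (5 / 16 : ℝ) * (35 * ((a5 : ℤ) : ℝ)) ≤ ((Lo5 : ℤ) : ℝ) := by
  unfold a5 Lo5
  norm_num

theorem hQ25 (c : ℕ) : Q5 c ≤ B5 := V5_le _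

theorem hp5' {n : ℕ} (H : Finset (Finset (Fin n))) (τ : Equiv.Perm (Fin 5)) (s : Fin 5 → Fin n)
    (u w : Fin n) : kern5.f H (s ∘ τ) u w = kern5.f H s u w := hp5 H τ s u w

theorem hQ5' {n : ℕ} (H : Finset (Finset (Fin n))) (s : Fin 7 → Fin n)
    (_ : Function.Injective s) (hev : EvT H s) :
    2 * (O5 : ℤ) + q2 H (kern5.f H) (a5 : ℤ) (Lo5 : ℤ) s ≤ 2 * (Q5 (idx 20 (gc H s)) : ℤ) :=
  hQ5 H s hev

theorem row5_ar (p : ℕ) (hp : p < 1024) :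
    Ar 64 10 (row7 64 V5 p) fun b => Q5 (p + 1024 * idx 10 b) :=
  row7_ar V5 p (by norm_num) hp

end Pool.Agent.Lib.MP_afdd4d_co.K8.Og
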