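import Pool.Agent.Lib.MP_afdd4d_co.K8.D6.TbD
import Pool.Agent.Lib.MP_afdd4d_co.K8.F5Fin
import Pool.Agent.Lib.MP_afdd4d_co.K8.Part

/-!
# The check of one base with the data
-/

namespace Pool.Agent.Lib.MP_afdd4d_co.K8

/-- The blocks. -/
noncomputable def bkE (p x0 y0 : ℕ) : ℕ := D6.E.blkH 64 562949953421312 (BE.tbH D6.TB) p x0 y0

/-- The rows. -/
noncomputable def rowE (c : ℕ) : ℕ :=
  Nat.add (D6.D.rowC (Nat.mod c 1024) (Nat.div c 1024)) (row7 64 Og.V5 (Nat.mod c 1024))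

/-- The check. -/
noncomputable def oneE (c : ℕ) : Bool :=
  leG 64 15 (Nat.sub (Nat.add (Nat.mul 28 562949953421312) (Nat.mul 8 562949953421312)) (Og.Q5 c))
    (arG 64 (tabG 64 bkE) rowE wd c)

end Pool.Agent.Lib.MP_afdd4d_co.K8
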