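import Pool.Agent.Lib.MP_afdd4d_co.K8.F5Psd
import Pool.Agent.Lib.MP_afdd4d_co.K8.Even8

/-!
# The values of the classes on seven vertices

For an even seven-tuple `s` the number `2 Lo + ∑ κ5 - 2 a N8` is a function of the class of its code. It is
bounded by the entry of the class in an array.
-/

namespace Pool.Agent.Lib.MP_afdd4d_co.K8.Og

open Finset

/-! ### The quadruples of seven vertices -/

/-- The quadruples of seven vertices. -/
def M7 : List ℕ := [
  15, 23, 27, 29, 39, 43, 45, 51, 53, 57, 71, 75, 77, 83, 85, 89, 99, 101, 105, 113, 30, 46,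
  78, 54, 86, 102, 58, 90, 106, 114, 60, 92, 108, 116, 120]

/-- The quadruple `j`. -/
def T7 (j : ℕ) : Finset (Fin 7) := univ.filter fun z => (M7.getD j 0).testBit z = true

theorem T7_card : ∀ j < 35, (T7 j).card = 4 := by decide +kernel

theorem T7_inj : ∀ j < 35, ∀ j' < 35, T7 j = T7 j' → j = j' := by decide +kernel

theorem T7_all : (range 35).image T7 = (univ : Finset (Fin 7)).powersetCard 4 := by
  apply Finset.eq_of_subset_of_card_le
  · intro T hT
    rw [Finset.mem_image] at hT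
    obtain ⟨j, hj, rfl⟩ := hT
    rw [Finset.mem_powersetCard]
    exact ⟨Finset.subset_univ _, T7_card j (Finset.mem_range.mp hj)⟩
  · rw [Finset.card_image_of_injOn, Finset.card_range, Finset.card_powersetCard, Finset.card_univ,
      Fintype.card_fin]
    · decide
    · intro i hi j hj hij
      exact T7_inj i (Finset.mem_range.mp hi) j (Finset.mem_range.mp hj) hij

/-- The columns of the linear map from the code to the bits of all quadruples. -/
def nc7 : List ℕ := [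
  7340033, 26214402, 202375172, 3222274056, 44040208, 337641504, 5370806336, 612368512,
  9672065280, 18320720384, 54526976, 406849536, 6446649344, 687874048, 10754211840,
  19461603328, 838926336, 12918587392, 21743534080, 26307198976]

theorem nc7_len : nc7.length = 20 := rfl

theorem nc7_geo : ∀ j < 35, ∀ k < 20, (exF7 (T7 j)).testBit (k + 1) = (nc7.getD k 0).testBit j := by
  decide +kernel

theorem exF7_zero (T : Finset (Fin 7)) : (exF7 T).testBit 0 = false := by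
  rw [exF7]
  simp

/-- The quadruples of the bits of the pairs of codes. -/
def tl7 : List (List ℕ) := [
  [30, 31, 32, 33, 3, 6, 8, 12, 14, 17, 20, 21, 23, 22, 24, 25],
  [26, 27, 28, 29, 2, 5, 7, 11, 13, 16, 20, 21, 23, 22, 24, 25],
  [23, 24, 25, 29, 1, 4, 7, 10, 13, 16, 20, 21, 26, 22, 27, 28],
  [21, 22, 25, 28, 0, 4, 5, 10, 11, 16, 20, 23, 26, 24, 27, 29],
  [20, 22, 24, 27, 0, 1, 2, 10, 11, 13, 21, 23, 26, 25, 28, 29],
  [20, 21, 23, 26, 0, 1, 2, 4, 5, 7, 22, 24, 27, 25, 28, 29],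
  [30, 31, 32, 33, 20, 21, 23, 22, 24, 25, 3, 6, 8, 12, 14, 17],
  [9, 15, 18, 19, 2, 5, 7, 11, 13, 16, 3, 6, 8, 12, 14, 17],
  [8, 14, 17, 19, 1, 4, 7, 10, 13, 16, 3, 6, 9, 12, 15, 18],
  [6, 12, 17, 18, 0, 4, 5, 10, 11, 16, 3, 8, 9, 14, 15, 19],
  [3, 12, 14, 15, 0, 1, 2, 10, 11, 13, 6, 8, 9, 17, 18, 19],
  [3, 6, 8, 9, 0, 1, 2, 4, 5, 7, 12, 14, 15, 17, 18, 19],
  [26, 27, 28, 29, 20, 21, 23, 22, 24, 25, 2, 5, 7, 11, 13, 16],
  [9, 15, 18, 19, 3, 6, 8, 12, 14, 17, 2, 5, 7, 11, 13, 16],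
  [7, 13, 16, 19, 1, 4, 8, 10, 14, 17, 2, 5, 9, 11, 15, 18],
  [5, 11, 16, 18, 0, 4, 6, 10, 12, 17, 2, 7, 9, 13, 15, 19],
  [2, 11, 13, 15, 0, 1, 3, 10, 12, 14, 5, 7, 9, 16, 18, 19],
  [2, 5, 7, 9, 0, 1, 3, 4, 6, 8, 11, 13, 15, 16, 18, 19],
  [23, 24, 25, 29, 20, 21, 26, 22, 27, 28, 1, 4, 7, 10, 13, 16],
  [8, 14, 17, 19, 3, 6, 9, 12, 15, 18, 1, 4, 7, 10, 13, 16],
  [7, 13, 16, 19, 2, 5, 9, 11, 15, 18, 1, 4, 8, 10, 14, 17],
  [4, 10, 16, 17, 0, 5, 6, 11, 12, 18, 1, 7, 8, 13, 14, 19],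
  [1, 10, 13, 14, 0, 2, 3, 11, 12, 15, 4, 7, 8, 16, 17, 19],
  [1, 4, 7, 8, 0, 2, 3, 5, 6, 9, 10, 13, 14, 16, 17, 19],
  [21, 22, 25, 28, 20, 23, 26, 24, 27, 29, 0, 4, 5, 10, 11, 16],
  [6, 12, 17, 18, 3, 8, 9, 14, 15, 19, 0, 4, 5, 10, 11, 16],
  [5, 11, 16, 18, 2, 7, 9, 13, 15, 19, 0, 4, 6, 10, 12, 17],
  [4, 10, 16, 17, 1, 7, 8, 13, 14, 19, 0, 5, 6, 11, 12, 18],
  [0, 10, 11, 12, 1, 2, 3, 13, 14, 15, 4, 5, 6, 16, 17, 18],
  [0, 4, 5, 6, 1, 2, 3, 7, 8, 9, 10, 11, 12, 16, 17, 18],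
  [20, 22, 24, 27, 21, 23, 26, 25, 28, 29, 0, 1, 2, 10, 11, 13],
  [3, 12, 14, 15, 6, 8, 9, 17, 18, 19, 0, 1, 2, 10, 11, 13],
  [2, 11, 13, 15, 5, 7, 9, 16, 18, 19, 0, 1, 3, 10, 12, 14],
  [1, 10, 13, 14, 4, 7, 8, 16, 17, 19, 0, 2, 3, 11, 12, 15],
  [0, 10, 11, 12, 4, 5, 6, 16, 17, 18, 1, 2, 3, 13, 14, 15],
  [0, 1, 2, 3, 4, 5, 6, 7, 8, 9, 10, 11, 12, 13, 14, 15],
  [20, 21, 23, 26, 22, 24, 27, 25, 28, 29, 0, 1, 2, 4, 5, 7],
  [3, 6, 8, 9, 12, 14, 15, 17, 18, 19, 0, 1, 2, 4, 5, 7],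
  [2, 5, 7, 9, 11, 13, 15, 16, 18, 19, 0, 1, 3, 4, 6, 8],
  [1, 4, 7, 8, 10, 13, 14, 16, 17, 19, 0, 2, 3, 5, 6, 9],
  [0, 4, 5, 6, 10, 11, 12, 16, 17, 18, 1, 2, 3, 7, 8, 9],
  [0, 1, 2, 3, 10, 11, 12, 13, 14, 15, 4, 5, 6, 7, 8, 9]]

/-- The positions of the six vertices of a flag. -/
def fp1 (x : Fin 7) (y : Fin 6) : Fin 6 → Fin 7 := Fin.snoc (x.succAbove ∘ y.succAbove) x

/-- The positions of the six vertices of the other flag. -/
def fp2 (x : Fin 7) (y : Fin 6) : Fin 6 → Fin 7 :=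
  Fin.snoc (x.succAbove ∘ y.succAbove) (x.succAbove y)

theorem fp_inj : ∀ (x : Fin 7) (y : Fin 6), Function.Injective (fp1 x y) ∧
    Function.Injective (fp2 x y) := by
  decide +kernel

theorem tl7_geo : ∀ (x : Fin 7) (y : Fin 6), ∀ r < 16,
    (tl7.getD (y.val + 6 * x.val) []).getD r 0 < 35 ∧
    (if r < 10 then (qd 6 r).image (fp1 x y) else (qd 6 (r - 6)).image (fp2 x y)) =
      T7 ((tl7.getD (y.val + 6 * x.val) []).getD r 0) := by
  decide +kernel

theorem tl7_len : tl7.length = 42 := rfl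

theorem tl7_len16 : ∀ l ∈ tl7, l.length = 16 := by decide +kernel

/-! ### The code of an even seven-tuple -/

section tup
variable {n : ℕ} (H : Finset (Finset (Fin n)))

/-- The bits of all quadruples. -/
def w7 (s : Fin 7 → Fin n) : ℕ := lx 20 (fun k => nc7.getD k 0) (gc H s)

theorem w7_bit (s : Fin 7 → Fin n) (hev : EvT H s) (j : ℕ) (hj : j < 35) :
    (w7 H s).testBit j = zb H s (T7 j) := by
  rw [zb7_eq H s hev _ (T7_card j hj), lf_eq_xo 20 _ _ (exF7_zero _), w7, testBit_lx]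
  apply xo_congr
  intro k hk
  rw [nc7_geo j hj k hk]

theorem cb_comp1 (s : Fin 7 → Fin n) (x : Fin 7) (y : Fin 6) (r : ℕ) :
    cb H (s ∘ x.succAbove ∘ y.succAbove) (s x) r = zb H s ((qd 6 r).image (fp1 x y)) := by
  have e : (Fin.snoc (s ∘ x.succAbove ∘ y.succAbove) (s x) : Fin 6 → Fin n) = s ∘ fp1 x y :=
    (Fin.comp_snoc s (x.succAbove ∘ y.succAbove) x).symm
  rw [cb, e, gc, zb_comp]

theorem cb_comp2 (s : Fin 7 → Fin n) (x : Fin 7) (y : Fin 6) (r : ℕ) :
    cb H (s ∘ x.succAbove ∘ y.succAbove) (s (x.succAbove y)) r =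
      zb H s ((qd 6 r).image (fp2 x y)) := by
  have e : (Fin.snoc (s ∘ x.succAbove ∘ y.succAbove) (s (x.succAbove y)) : Fin 6 → Fin n) =
      s ∘ fp2 x y :=
    (Fin.comp_snoc s (x.succAbove ∘ y.succAbove) (x.succAbove y)).symm
  rw [cb, e, gc, zb_comp]

theorem ev_comp1 (s : Fin 7 → Fin n) (hev : EvT H s) (x : Fin 7) (y : Fin 6) :
    EvT H (Fin.snoc (s ∘ x.succAbove ∘ y.succAbove) (s x) : Fin 6 → Fin n) := by
  have e : (Fin.snoc (s ∘ x.succAbove ∘ y.succAbove) (s x) : Fin 6 → Fin n) = s ∘ fp1 x y :=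
    (Fin.comp_snoc s (x.succAbove ∘ y.succAbove) x).symm
  rw [e]
  exact evT_comp H s _ (fp_inj x y).1 hev

theorem ev_comp2 (s : Fin 7 → Fin n) (hev : EvT H s) (x : Fin 7) (y : Fin 6) :
    EvT H (Fin.snoc (s ∘ x.succAbove ∘ y.succAbove) (s (x.succAbove y)) : Fin 6 → Fin n) := by
  have e : (Fin.snoc (s ∘ x.succAbove ∘ y.succAbove) (s (x.succAbove y)) : Fin 6 → Fin n) =
      s ∘ fp2 x y :=
    (Fin.comp_snoc s (x.succAbove ∘ y.succAbove) (x.succAbove y)).symm
  rw [e]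
  exact evT_comp H s _ (fp_inj x y).2 hev

/-- The bits of the pair of codes. -/
theorem pb_w7 (s : Fin 7 → Fin n) (hev : EvT H s) (x : Fin 7) (y : Fin 6) (r : ℕ) (hr : r < 16) :
    pb (cb H (s ∘ x.succAbove ∘ y.succAbove) (s x))
      (cb H (s ∘ x.succAbove ∘ y.succAbove) (s (x.succAbove y))) r =
      (w7 H s).testBit ((tl7.getD (y.val + 6 * x.val) []).getD r 0) := by
  obtain ⟨h1, h2⟩ := tl7_geo x y r hr
  rw [w7_bit H s hev _ h1, ← h2, pb]
  by_cases h : r < 10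
  · rw [if_pos h, if_pos h, cb_comp1]
  · rw [if_neg h, if_neg h, cb_comp2]

/-- The number of non-edges. -/
theorem N8_w7 (s : Fin 7 → Fin n) (hev : EvT H s) :
    N8 H s + ∑ j ∈ range 35, ((w7 H s).testBit j).toNat = 35 := by
  have h1 : N8 H s = ∑ j ∈ range 35, (E H s (T7 j)).toNat := by
    unfold N8
    rw [← T7_all, Finset.sum_image]
    intro i hi j hj hij
    exact T7_inj i (Finset.mem_range.mp hi) j (Finset.mem_range.mp hj) hij
  rw [h1, ← Finset.sum_add_distrib]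
  have h2 : ∀ j ∈ range 35, (E H s (T7 j)).toNat + ((w7 H s).testBit j).toNat = 1 := by
    intro j hj
    rw [w7_bit H s hev j (Finset.mem_range.mp hj), zb]
    cases E H s (T7 j) <;> rfl
  rw [Finset.sum_congr rfl h2, Finset.sum_const, Finset.card_range]
  rfl

end tup

/-! ### Evaluation -/

/-- The number with the bits of `w` with the numbers in `l`. -/
def gaG (w : ℕ) (l : List ℕ) : ℕ :=
  @List.rec ℕ (fun _ => ℕ) 0
    (fun j _ ih => Nat.add (Nat.mod (Nat.div w (Nat.pow 2 j)) 2) (Nat.mul 2 ih)) l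

theorem mod_two_toNat (w j : ℕ) : Nat.mod (Nat.div w (Nat.pow 2 j)) 2 = (w.testBit j).toNat :=
  (Nat.toNat_testBit w j).symm

theorem gaG_eq (w : ℕ) (l : List ℕ) : gaG w l = idx l.length fun r => w.testBit (l.getD r 0) := by
  induction l with
  | nil => rfl
  | cons j l ih =>
    have e : gaG w (j :: l) = Nat.mod (Nat.div w (Nat.pow 2 j)) 2 + 2 * gaG w l := rfl
    rw [e, mod_two_toNat, ih, List.length_cons, Nat.add_comm l.length 1, idx_split 1 l.length]
    have e1 : (idx 1 fun r => w.testBit ((j :: l).getD r 0)) = (w.testBit j).toNat := by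
      simp [idx]
    have e2 : (idx l.length fun r => w.testBit ((j :: l).getD (1 + r) 0)) =
        idx l.length fun r => w.testBit (l.getD r 0) := by
      apply idx_congr
      intro r _
      rw [Nat.add_comm 1 r, List.getD_cons_succ]
    rw [e1, e2, pow_one]

/-- The number of bits `j < n` of `w`. -/
def pcG (w n : ℕ) : ℕ :=
  @Nat.rec (fun _ => ℕ) 0 (fun j ih => Nat.add ih (Nat.mod (Nat.div w (Nat.pow 2 j)) 2)) n

theorem pcG_eq (w n : ℕ) : pcG w n = ∑ j ∈ range n, (w.testBit j).toNat := by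
  induction n with
  | zero => rfl
  | succ n ih =>
    have e : pcG w (n + 1) = pcG w n + Nat.mod (Nat.div w (Nat.pow 2 n)) 2 := rfl
    rw [e, mod_two_toNat, ih, Finset.sum_range_succ]

namespace F5
variable (D : F5)

/-- The entry with the number `I`. -/
def vlG (I : ℕ) : ℕ :=
  lnG D.W (D.row (Nat.mod I 16) (Nat.mod (Nat.div I 16) 64)) (Nat.div I 1024)

variable {D}

theorem Ok.vlG_eq (h : D.Ok) (b : ℕ → Bool) : D.vlG (idx 16 b) = Ln D.W D.T (idx 16 b) := by
  have h1 := idx_split 4 12 b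
  have h2 := idx_split 6 6 fun r => b (4 + r)
  have e3 : (idx 6 fun r => b (4 + (6 + r))) = idx 6 fun k => b (10 + k) :=
    idx_congr 6 _ _ fun r _ => by
      congr 1
      omega
  rw [e3] at h2
  have h3 : idx (4 + 12) b = idx 16 b := rfl
  have h4 : (idx (6 + 6) fun r => b (4 + r)) = idx 12 fun r => b (4 + r) := rfl
  rw [h4] at h2
  rw [h3, h2] at h1
  have b1 := idx_lt 4 b
  have b2 := idx_lt 6 fun r => b (4 + r)
  have b3 := idx_lt 6 fun k => b (10 + k)
  norm_num at h1 b1 b2 b3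
  rw [h.T_lane]
  unfold vlG
  rw [lnG_eq]
  have e1 : Nat.mod (idx 16 b) 16 = idx 4 b := by
    show idx 16 b % 16 = idx 4 b
    omega
  have e2 : Nat.mod (Nat.div (idx 16 b) 16) 64 = idx 6 fun r => b (4 + r) := by
    show idx 16 b / 16 % 64 = _
    omega
  have e4 : Nat.div (idx 16 b) 1024 = idx 6 fun k => b (10 + k) := by
    show idx 16 b / 1024 = _
    omega
  rw [e1, e2, e4]

variable (D)

/-- The sum of the entries. -/
def smG (w : ℕ) (l : List (List ℕ)) : ℕ :=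
  @List.rec (List ℕ) (fun _ => ℕ) 0 (fun a _ ih => Nat.add (D.vlG (gaG w a)) ih) l

theorem smG_eq (w : ℕ) (l : List (List ℕ)) :
    D.smG w l = ∑ q ∈ range l.length, D.vlG (gaG w (l.getD q [])) := by
  induction l with
  | nil => rfl
  | cons a l ih =>
    have e : D.smG w (a :: l) = D.vlG (gaG w a) + D.smG w l := rfl
    rw [e, ih, List.length_cons, Finset.sum_range_succ', Nat.add_comm]
    rfl

theorem sum_pairs {M : Type*} [AddCommMonoid M] (F : ℕ → M) :
    ∑ x : Fin 7, ∑ y : Fin 6, F (y.val + 6 * x.val) = ∑ q ∈ range 42, F q := by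
  rw [← Fintype.sum_prod_type' (f := fun (x : Fin 7) (y : Fin 6) => F (y.val + 6 * x.val)),
    ← Fin.sum_univ_eq_sum_range]
  exact (finProdFinEquiv (m := 7) (n := 6)).sum_comp (fun q : Fin (7 * 6) => F q)

/-- The check of the class `k` with the representative with the bits `w`. -/
def c7H (a Lo O W' V k w : ℕ) : Bool :=
  Nat.ble (Nat.add (Nat.add (Nat.mul 2 (Nat.add O Lo)) (D.smG w tl7))
      (Nat.mul (Nat.mul 2 a) (pcG w 35)))
    (Nat.add (Nat.add (Nat.mul 2 (lnG W' V k)) (Nat.mul 42 D.B)) (Nat.mul 70 a))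

/-- The check of the classes `k, k + 1, …` with the given representatives. -/
def a7G (a Lo O W' V : ℕ) (l : List ℕ) : ℕ → Bool :=
  @List.rec ℕ (fun _ => ℕ → Bool) (fun _ => true)
    (fun c _ ih k => @Bool.rec (fun _ => Bool) false (ih (Nat.succ k))
      (D.c7H a Lo O W' V k (selG nc7 c 0))) l

theorem a7G_get (a Lo O W' V : ℕ) (l : List ℕ) : ∀ k, D.a7G a Lo O W' V l k = true →
    ∀ j < l.length, D.c7H a Lo O W' V (k + j) (selG nc7 (l.getD j 0) 0) = true := by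
  induction l with
  | nil => intro k _ j hj; exact absurd hj (by simp)
  | cons c l ih =>
    intro k h j hj
    have e1 : D.a7G a Lo O W' V (c :: l) k = @Bool.rec (fun _ => Bool) false
      (D.a7G a Lo O W' V l (Nat.succ k)) (D.c7H a Lo O W' V k (selG nc7 c 0)) := rfl
    rw [e1, bool_rec_and, Bool.and_eq_true] at h
    cases j with
    | zero => exact h.1
    | succ j =>
      have h2 := ih _ h.2 j (by simpa using hj)
      have e2 : k + (j + 1) = Nat.succ k + j := by rw [Nat.succ_eq_add_one]; ring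
      rw [e2]
      exact h2

variable {D}

/-- The sum over the pairs of a seven-tuple. -/
theorem Ok.PS_eq (h : D.Ok) {n : ℕ} (H : Finset (Finset (Fin n))) (s : Fin (5 + 1 + 1) → Fin n)
    (hev : EvT H s) : PS ((D.kern h).f H) s = ((D.smG (w7 H s) tl7 : ℕ) : ℤ) - 42 * D.B := by
  have h1 : ∀ (x : Fin 7) (y : Fin 6), (D.kern h).f H (s ∘ x.succAbove ∘ y.succAbove) (s x)
      (s (x.succAbove y)) =
      ((D.vlG (gaG (w7 H s) (tl7.getD (y.val + 6 * x.val) [])) : ℕ) : ℤ) - D.B := by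
    intro x y
    have e1 : (D.kern h).f H (s ∘ x.succAbove ∘ y.succAbove) (s x) (s (x.succAbove y)) =
      evk H (D.gk H) (s ∘ x.succAbove ∘ y.succAbove) (s x) (s (x.succAbove y)) := rfl
    rw [e1, evk, if_pos ⟨ev_comp1 H s hev x y, ev_comp2 H s hev x y⟩]
    unfold gk gp
    have h2 : tl7.getD (y.val + 6 * x.val) [] ∈ tl7 := by
      have h3 : y.val + 6 * x.val < tl7.length := by
        rw [tl7_len]
        omega
      rw [List.getD_eq_getElem _ _ h3]
      exact List.getElem_mem h3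
    have h4 := tl7_len16 _ h2
    have h5 : gaG (w7 H s) (tl7.getD (y.val + 6 * x.val) []) =
        idx 16 (pb (cb H (s ∘ x.succAbove ∘ y.succAbove) (s x))
          (cb H (s ∘ x.succAbove ∘ y.succAbove) (s (x.succAbove y)))) := by
      rw [gaG_eq, h4]
      exact idx_congr 16 _ _ fun r hr => (pb_w7 H s hev x y r hr).symm
    rw [h5, h.vlG_eq]
  have h2 : PS ((D.kern h).f H) s = ∑ x : Fin 7, ∑ y : Fin 6,
      (((D.vlG (gaG (w7 H s) (tl7.getD (y.val + 6 * x.val) [])) : ℕ) : ℤ) - D.B) := by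
    unfold PS
    exact Finset.sum_congr rfl fun x _ => Finset.sum_congr rfl fun y _ => h1 x y
  rw [h2, sum_pairs (fun q => ((D.vlG (gaG (w7 H s) (tl7.getD q [])) : ℕ) : ℤ) - D.B),
    Finset.sum_sub_distrib, Finset.sum_const, Finset.card_range, D.smG_eq, tl7_len]
  push_cast
  ring

/-- The inequality for the representatives. -/
theorem Ok.base (h : D.Ok) {a Lo O W' V : ℕ} (k c : ℕ)
    (hc : D.c7H a Lo O W' V k (selG nc7 c 0) = true) {n : ℕ} (H : Finset (Finset (Fin n)))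
    (s : Fin 7 → Fin n) (hev : EvT H s) (hsc : idx 20 (gc H s) = c) :
    2 * (O : ℤ) + q2 H ((D.kern h).f H) a Lo s ≤ 2 * ((Ln W' V k : ℕ) : ℤ) := by
  have hw : selG nc7 c 0 = w7 H s := by
    rw [selG_eq, Nat.zero_xor, nc7_len, w7]
    apply lx_congr
    · intro k hk
      rw [← hsc, testBit_idx, decide_eq_true hk, Bool.true_and]
    · intro k _
      rfl
  rw [hw] at hc
  have h1 := Nat.le_of_ble_eq_true hc
  rw [lnG_eq, pcG_eq] at h1
  have h2 := N8_w7 H s hev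
  have h3 := h.PS_eq H s hev
  have h1' : 2 * (O + Lo) + D.smG (w7 H s) tl7 + 2 * a * ∑ j ∈ range 35, ((w7 H s).testBit j).toNat ≤
      2 * Ln W' V k + 42 * D.B + 70 * a := h1
  have h4 : ((2 * (O + Lo) + D.smG (w7 H s) tl7 +
      2 * a * ∑ j ∈ range 35, ((w7 H s).testBit j).toNat : ℕ) : ℤ) ≤
      ((2 * Ln W' V k + 42 * D.B + 70 * a : ℕ) : ℤ) := by exact_mod_cast h1'
  have h5 : ((N8 H s : ℕ) : ℤ) + ((∑ j ∈ range 35, ((w7 H s).testBit j).toNat : ℕ) : ℤ) = 35 := by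
    exact_mod_cast h2
  rw [q2, h3]
  generalize (∑ j ∈ range 35, ((w7 H s).testBit j).toNat) = S at h4 h5
  push_cast at h4
  have h6 : ((N8 H s : ℕ) : ℤ) = 35 - S := by linarith
  rw [h6]
  linarith

end F5

/-! ### Reduction to the representatives -/

theorem mvs7_geo : ∀ i : Fin 6, ∀ r < 20,
    ((qd 7 r).image (Equiv.swap i.castSucc i.succ : Equiv.Perm (Fin 7))).card = 4 ∧
    syG (mvs.getD i []) 20 r =
      exF7 ((qd 7 r).image (Equiv.swap i.castSucc i.succ : Equiv.Perm (Fin 7))) := by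
  decide +kernel

theorem gc7_move {n : ℕ} (H : Finset (Finset (Fin n))) (s : Fin 7 → Fin n) (hev : EvT H s)
    (i : Fin 6) : idx 20 (gc H (s ∘ (Equiv.swap i.castSucc i.succ : Equiv.Perm (Fin 7)))) =
      idx 20 (seG (mvs.getD i []) 20 (gc H s)) := by
  apply idx_congr
  intro r hr
  obtain ⟨h1, h2⟩ := mvs7_geo i r hr
  obtain ⟨h4, h5⟩ := mvs_getD i
  rw [gc7_comp H s hev _ r h1, seG_eq 20 (gc H s) _ 20 h4 (by rw [h5]) r hr, h2]

/-- A property of even seven-tuples that is invariant under the exchanges holds if it holds for the codes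
of the representatives. -/
theorem even7_reduce {n : ℕ} (H : Finset (Finset (Fin n))) (Q : (Fin 7 → Fin n) → Prop)
    (hinv : ∀ (s : Fin 7 → Fin n) (i : Fin 6), EvT H s →
      Q (s ∘ (Equiv.swap i.castSucc i.succ : Equiv.Perm (Fin 7))) → Q s)
    (hbase : ∀ k < 423, ∀ s : Fin 7 → Fin n, EvT H s → idx 20 (gc H s) = reps.getD k 0 → Q s) :
    ∀ s : Fin 7 → Fin n, EvT H s → Q s := by
  have key : ∀ b : ℕ → Bool, ∀ s : Fin 7 → Fin n, EvT H s → idx 20 (gc H s) = idx 20 b → Q s := by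
    refine red_all20 (fun c => ∀ s : Fin 7 → Fin n, EvT H s → idx 20 (gc H s) = c → Q s) ?_ ?_
    · intro c hc s hev hsc
      obtain ⟨k, hk, rfl⟩ := List.mem_iff_getElem.mp hc
      rw [← List.getD_eq_getElem reps 0 hk] at hsc
      rw [reps_len] at hk
      exact hbase k hk s hev hsc
    · intro i b hb s hev hsb
      by_cases hi : i < 6
      · apply hinv s ⟨i, hi⟩ hev
        apply hb _ ((evT_perm H s _).mpr hev)
        have h1 := gc7_move H s hev ⟨i, hi⟩
        rw [h1]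
        obtain ⟨h4, h5⟩ := mvs_getD i
        apply idx_congr
        intro r hr
        rw [seG_eq 20 (gc H s) _ 20 h4 (by rw [h5]) r hr, seG_eq 20 b _ 20 h4 (by rw [h5]) r hr]
        exact lf_congr 20 _ _ _ (idx_inj 20 _ _ hsb)
      · have h6 : mvs.getD i [] = [] := List.getD_eq_default _ _ (by rw [mvs_len]; omega)
        rw [h6] at hb
        exact hb s hev hsb
  intro s hev
  exact key (gc H s) s hev rfl

namespace F5
variable {D : F5}

/-- The bound for the value of a seven-tuple. -/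
theorem Ok.hQ (h : D.Ok) {a Lo O W' V : ℕ} (hck : ∀ k < 423,
      D.c7H a Lo O W' V k (selG nc7 (reps.getD k 0) 0) = true) {n : ℕ}
    (H : Finset (Finset (Fin n))) (s : Fin 7 → Fin n) (hev : EvT H s) :
    2 * (O : ℤ) + q2 H ((D.kern h).f H) a Lo s ≤
      2 * ((Ln W' V (cix (idx 20 (gc H s))) : ℕ) : ℤ) := by
  refine even7_reduce H (fun s => 2 * (O : ℤ) + q2 H ((D.kern h).f H) a Lo s ≤
    2 * ((Ln W' V (cix (idx 20 (gc H s))) : ℕ) : ℤ)) ?_ ?_ s hev
  · intro s i hev h1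
    have h2 := q2_perm H ((D.kern h).f H) (fun τ s u w => h.evk_perm H τ s u w) (a : ℤ) (Lo : ℤ)
      (Equiv.swap i.castSucc i.succ) s
    have h3 : cix (idx 20 (gc H (s ∘ (Equiv.swap i.castSucc i.succ : Equiv.Perm (Fin 7))))) =
        cix (idx 20 (gc H s)) := by
      rw [gc7_move H s hev i, cix_move]
    rw [h2, h3] at h1
    exact h1
  · intro k hk s hev hsc
    have h1 := h.base k (reps.getD k 0) (hck k hk) H s hev hsc
    rw [hsc, cix_reps k hk]
    exact h1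

end F5

end Pool.Agent.Lib.MP_afdd4d_co.K8.Og
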