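import Pool.Agent.Lib.MP_afdd4d_co.K8.Red

/-!
# Codes of even six-tuples

The code of a six-tuple has ten bits. The pair of the codes of `(s, u)` and `(s, w)` for a five-tuple
`s` has sixteen bits: the bits `0, …, 9` are the code of `(s, u)`, the bits `10, …, 15` are the bits of
the code of `(s, w)` that contain `w`.
-/

namespace Pool.Agent.Lib.MP_afdd4d_co.K8.Og

open Finset

theorem qd6_data : ∀ r < 10, (qd 6 r).card = 4 ∧ (0 : Fin 6) ∈ qd 6 r := by decide +kernel

theorem qd6_inj : ∀ r < 10, ∀ r' < 10, qd 6 r = qd 6 r' → r = r' := by decide +kernel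

theorem qd6_surj : ∀ Q : Finset (Fin 6), Q.card = 4 → (0 : Fin 6) ∈ Q → ∃ r < 10, qd 6 r = Q := by
  have h1 : ((Finset.range 10).image (qd 6)) =
      ((univ : Finset (Fin 6)).powersetCard 4).filter fun Q => (0 : Fin 6) ∈ Q := by
    apply Finset.eq_of_subset_of_card_le
    · intro T hT
      rw [Finset.mem_image] at hT
      obtain ⟨r, hr, rfl⟩ := hT
      rw [Finset.mem_filter, Finset.mem_powersetCard]
      exact ⟨⟨Finset.subset_univ _, (qd6_data r (Finset.mem_range.mp hr)).1⟩,
        (qd6_data r (Finset.mem_range.mp hr)).2⟩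
    · rw [Finset.card_image_of_injOn, Finset.card_range]
      · decide +kernel
      · intro i hi j hj hij
        exact qd6_inj i (Finset.mem_range.mp hi) j (Finset.mem_range.mp hj) hij
  intro Q hQ h0
  have h2 : Q ∈ ((univ : Finset (Fin 6)).powersetCard 4).filter fun Q => (0 : Fin 6) ∈ Q := by
    rw [Finset.mem_filter, Finset.mem_powersetCard]
    exact ⟨⟨Finset.subset_univ _, hQ⟩, h0⟩
  rw [← h1, Finset.mem_image] at h2
  obtain ⟨r, hr, h3⟩ := h2
  exact ⟨r, Finset.mem_range.mp hr, h3⟩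

/-- The affine form of the bit of a quadruple in terms of the code. -/
def exF6 (T : Finset (Fin 6)) : ℕ := 2 * idx 10 fun r => decide (qd 6 r ⊆ insert 0 T)

section tup
variable {n : ℕ} (H : Finset (Finset (Fin n)))

theorem zb6_eq (t : Fin 6 → Fin n) (hev : EvT H t) (T : Finset (Fin 6)) (hT : T.card = 4) :
    zb H t T = lf 10 (exF6 T) (gc H t) := by
  apply bz_inj
  rw [bz_lf]
  have h0 : (exF6 T).testBit 0 = false := by
    rw [exF6]
    simp
  have h1 : ∀ i ∈ range 10, bz ((exF6 T).testBit (i + 1) && gc H t i) =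
      if qd 6 i ⊆ insert 0 T then bz (gc H t i) else 0 := by
    intro i hi
    have e1 : (exF6 T).testBit (i + 1) = decide (qd 6 i ⊆ insert 0 T) := by
      rw [exF6, mul_comm, show (2 : ℕ) = 2 ^ 1 from rfl, Nat.testBit_mul_two_pow]
      have : decide (1 ≤ i + 1) = true := by simp
      rw [this, Bool.true_and, Nat.add_sub_cancel, testBit_idx]
      have h2 := Finset.mem_range.mp hi
      simp [h2]
    rw [e1]
    by_cases h3 : qd 6 i ⊆ insert 0 T
    · rw [if_pos h3, decide_eq_true h3, bz_and_true]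
    · rw [if_neg h3, decide_eq_false h3, bz_and_false]
  have hb0 : bz false = 0 := rfl
  rw [h0, hb0, zero_add, Finset.sum_congr rfl h1, ← Finset.sum_filter]
  by_cases hT0 : (0 : Fin 6) ∈ T
  · -- the quadruple itself
    obtain ⟨r, hr, hrT⟩ := qd6_surj T hT hT0
    have h4 : (range 10).filter (fun i => qd 6 i ⊆ insert 0 T) = {r} := by
      ext i
      rw [Finset.mem_filter, Finset.mem_range, Finset.mem_singleton,
        Finset.insert_eq_of_mem hT0]
      constructor
      · rintro ⟨h5, h6⟩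
        have h7 : qd 6 i = T := Finset.eq_of_subset_of_card_le h6 (by
          rw [hT, (qd6_data i h5).1])
        exact qd6_inj i h5 r hr (h7.trans hrT.symm)
      · rintro rfl
        exact ⟨hr, by rw [hrT]⟩
    rw [h4, Finset.sum_singleton, gc, hrT]
  · -- five vertices
    have hS : (insert 0 T).card = 5 := by
      rw [Finset.card_insert_of_notMem hT0, hT]
    have h5 := hev (insert 0 T) hS
    unfold dl at h5
    rw [Finset.sum_insert hT0, Finset.erase_insert hT0, zt_eq] at h5
    have h6 : ∑ x ∈ T, zt H t ((insert 0 T).erase x) =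
        ∑ i ∈ (range 10).filter (fun i => qd 6 i ⊆ insert 0 T), bz (gc H t i) := by
      symm
      have h7 : ∀ i ∈ (range 10).filter (fun i => qd 6 i ⊆ insert 0 T),
          ∃ x ∈ T, (insert 0 T).erase x = qd 6 i := by
        intro i hi
        rw [Finset.mem_filter, Finset.mem_range] at hi
        obtain ⟨hi1, hi2⟩ := hi
        have h8 : ((insert 0 T) \ qd 6 i).card = 1 := by
          rw [Finset.card_sdiff_of_subset hi2, hS, (qd6_data i hi1).1]
        obtain ⟨x, hx⟩ := Finset.card_eq_one.mp h8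
        have hx1 : x ∈ (insert 0 T) \ qd 6 i := by rw [hx]; exact Finset.mem_singleton_self x
        rw [Finset.mem_sdiff, Finset.mem_insert] at hx1
        have hxT : x ∈ T := by
          rcases hx1.1 with h9 | h9
          · exact absurd (h9 ▸ (qd6_data i hi1).2) hx1.2
          · exact h9
        refine ⟨x, hxT, ?_⟩
        symm
        apply Finset.eq_of_subset_of_card_le
        · intro y hy
          rw [Finset.mem_erase]
          exact ⟨fun h => hx1.2 (h ▸ hy), hi2 hy⟩
        · rw [Finset.card_erase_of_mem (Finset.mem_insert_of_mem hxT), hS, (qd6_data i hi1).1]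
      choose! g hg1 hg2 using h7
      refine Finset.sum_bij (fun i _ => g i) (fun i hi => hg1 i hi) ?_ ?_ ?_
      · intro i hi j hj hij
        have h9 := hg2 i hi
        rw [hij, hg2 j hj] at h9
        rw [Finset.mem_filter, Finset.mem_range] at hi hj
        exact (qd6_inj j hj.1 i hi.1 h9).symm
      · intro x hx
        have hc : ((insert 0 T).erase x).card = 4 := by
          rw [Finset.card_erase_of_mem (Finset.mem_insert_of_mem hx), hS]
        have h0x : (0 : Fin 6) ∈ (insert 0 T).erase x := by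
          rw [Finset.mem_erase]
          exact ⟨fun h => hT0 (h ▸ hx), Finset.mem_insert_self _ _⟩
        obtain ⟨r, hr, hrQ⟩ := qd6_surj _ hc h0x
        have hrm : r ∈ (range 10).filter (fun i => qd 6 i ⊆ insert 0 T) := by
          rw [Finset.mem_filter, Finset.mem_range]
          exact ⟨hr, by rw [hrQ]; exact Finset.erase_subset _ _⟩
        refine ⟨r, hrm, ?_⟩
        have h9 := hg2 r hrm
        rw [hrQ] at h9
        have h10 : g r ∈ T := hg1 r hrm
        by_contra hne
        have h11 : x ∈ (insert 0 T).erase (g r) := by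
          rw [Finset.mem_erase]
          exact ⟨fun h => hne h.symm, Finset.mem_insert_of_mem hx⟩
        rw [h9] at h11
        exact absurd h11 (Finset.notMem_erase x _)
      · intro i hi
        rw [gc, ← hg2 i hi, ← zt_eq]
    rw [h6] at h5
    have h8 := eq_neg_of_add_eq_zero_left h5
    rw [h8, CharTwo.neg_eq]


theorem gc6_comp (t : Fin 6 → Fin n) (hev : EvT H t) (f : Fin 6 → Fin 6) (r : ℕ)
    (hc : ((qd 6 r).image f).card = 4) :
    gc H (t ∘ f) r = lf 10 (exF6 ((qd 6 r).image f)) (gc H t) := by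
  rw [gc, zb_comp, zb6_eq H t hev _ hc]

end tup

/-! ### Exchanges of two neighbouring roots -/

/-- The exchange of the vertices `i` and `i + 1`. -/
def ex6 (i : Fin 4) : Equiv.Perm (Fin 6) :=
  Equiv.swap ⟨i, by omega⟩ ⟨i + 1, by omega⟩

/-- The programs of the exchanges on the codes of pairs. -/
def mv5 : List (List (ℕ × ℕ × ℕ)) := [
  [(2, 0, 3), (2, 1, 3), (2, 2, 3), (2, 0, 6), (2, 4, 6), (2, 5, 6), (2, 1, 8), (2, 4, 8),
  (2, 7, 8), (2, 2, 9), (2, 5, 9), (2, 7, 9), (2, 0, 12), (2, 10, 12), (2, 11, 12), (2, 1, 14),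
  (2, 10, 14), (2, 13, 14), (2, 2, 15), (2, 11, 15), (2, 13, 15)],
  [(1, 2, 3), (1, 5, 6), (1, 7, 8), (1, 11, 12), (1, 13, 14)],
  [(1, 1, 2), (1, 4, 5), (1, 8, 9), (1, 10, 11), (1, 14, 15)],
  [(1, 0, 1), (1, 5, 7), (1, 6, 8), (1, 11, 13), (1, 12, 14)]]

/-- The bits of a pair of codes. -/
def pb (c d : ℕ → Bool) (r : ℕ) : Bool := if r < 10 then c r else d (r - 6)

theorem lf_pb_low (m : ℕ) (hm : m < 2 ^ 11) (c d : ℕ → Bool) : lf 16 m (pb c d) = lf 10 m c := by
  rw [lf_ext 10 6 m (pb c d) hm]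
  apply lf_congr
  intro i hi
  rw [pb, if_pos hi]

theorem lf_pb_high (M m : ℕ) (c d : ℕ → Bool) (hcd : ∀ r < 4, c r = d r)
    (hM : ∀ k < 17, M.testBit k =
      if k < 5 then m.testBit k else if k < 11 then false else m.testBit (k - 6)) :
    lf 16 M (pb c d) = lf 10 m d := by
  have b0 : pb c d 0 = d 0 := hcd 0 (by norm_num)
  have b1 : pb c d 1 = d 1 := hcd 1 (by norm_num)
  have b2 : pb c d 2 = d 2 := hcd 2 (by norm_num)
  have b3 : pb c d 3 = d 3 := hcd 3 (by norm_num)
  have e0 : M.testBit 0 = m.testBit 0 := hM 0 (by norm_num)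
  have e1 : M.testBit 1 = m.testBit 1 := hM 1 (by norm_num)
  have e2 : M.testBit 2 = m.testBit 2 := hM 2 (by norm_num)
  have e3 : M.testBit 3 = m.testBit 3 := hM 3 (by norm_num)
  have e4 : M.testBit 4 = m.testBit 4 := hM 4 (by norm_num)
  have e5 : M.testBit 5 = false := hM 5 (by norm_num)
  have e6 : M.testBit 6 = false := hM 6 (by norm_num)
  have e7 : M.testBit 7 = false := hM 7 (by norm_num)
  have e8 : M.testBit 8 = false := hM 8 (by norm_num)
  have e9 : M.testBit 9 = false := hM 9 (by norm_num)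
  have e10 : M.testBit 10 = false := hM 10 (by norm_num)
  have e11 : M.testBit 11 = m.testBit 5 := hM 11 (by norm_num)
  have e12 : M.testBit 12 = m.testBit 6 := hM 12 (by norm_num)
  have e13 : M.testBit 13 = m.testBit 7 := hM 13 (by norm_num)
  have e14 : M.testBit 14 = m.testBit 8 := hM 14 (by norm_num)
  have e15 : M.testBit 15 = m.testBit 9 := hM 15 (by norm_num)
  have e16 : M.testBit 16 = m.testBit 10 := hM 16 (by norm_num)
  have f10 : pb c d 10 = d 4 := rfl
  have f11 : pb c d 11 = d 5 := rfl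
  have f12 : pb c d 12 = d 6 := rfl
  have f13 : pb c d 13 = d 7 := rfl
  have f14 : pb c d 14 = d 8 := rfl
  have f15 : pb c d 15 = d 9 := rfl
  simp only [lf, Nat.reduceAdd, zero_add, e0, e1, e2, e3, e4, e5, e6, e7, e8, e9, e10, e11, e12, e13,
    e14, e15, e16, b0, b1, b2, b3, f10, f11, f12, f13, f14, f15, Bool.false_and, Bool.xor_false]

theorem mv5_ok : ∀ i : Fin 4, okR (mv5.getD i []) 16 = true ∧ ndG (mv5.getD i []) 16 = 16 := by
  decide +kernel

theorem mv5_geo : ∀ i : Fin 4, ∀ r < 10, ((qd 6 r).image (ex6 i)).card = 4 ∧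
    exF6 ((qd 6 r).image (ex6 i)) < 2 ^ 11 ∧
    syG (mv5.getD i []) 16 r = exF6 ((qd 6 r).image (ex6 i)) := by
  decide +kernel

theorem mv5_geo' : ∀ i : Fin 4, ∀ r < 16, 10 ≤ r → ∀ k < 17,
    (syG (mv5.getD i []) 16 r).testBit k =
      if k < 5 then (exF6 ((qd 6 (r - 6)).image (ex6 i))).testBit k
      else if k < 11 then false else (exF6 ((qd 6 (r - 6)).image (ex6 i))).testBit (k - 6) := by
  decide +kernel

theorem qd6_low : ∀ r < 4, qd 6 r = (qd 5 r).image Fin.castSucc := by decide +kernel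

section tup
variable {n : ℕ} (H : Finset (Finset (Fin n)))

/-- The bits of the code of an even flag. -/
def cb (s : Fin 5 → Fin n) (u : Fin n) : ℕ → Bool := gc H (Fin.snoc s u : Fin 6 → Fin n)

theorem cb_low (s : Fin 5 → Fin n) (u : Fin n) (r : ℕ) (hr : r < 4) : cb H s u r = gc H s r := by
  have e : s = (Fin.snoc s u : Fin 6 → Fin n) ∘ Fin.castSucc := by
    funext i
    rw [Function.comp_apply, Fin.snoc_castSucc]
  rw [cb, gc, gc, qd6_low r hr]
  conv_rhs => rw [e]
  rw [zb_comp]

theorem snoc6_comp (s : Fin 5 → Fin n) (u : Fin n) (i : Fin 4) :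
    (Fin.snoc (s ∘ Equiv.swap i.castSucc i.succ) u : Fin 6 → Fin n) =
      (Fin.snoc s u : Fin 6 → Fin n) ∘ ex6 i := by
  funext j
  have h1 : ∀ (a b x : Fin 5), Fin.castSucc (Equiv.swap a b x) =
      Equiv.swap a.castSucc b.castSucc x.castSucc := by
    intro a b x
    by_cases hxa : x = a
    · rw [hxa, Equiv.swap_apply_left, Equiv.swap_apply_left]
    · by_cases hxb : x = b
      · rw [hxb, Equiv.swap_apply_right, Equiv.swap_apply_right]
      · rw [Equiv.swap_apply_of_ne_of_ne hxa hxb, Equiv.swap_apply_of_ne_of_ne]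
        · exact fun h => hxa (Fin.castSucc_injective _ h)
        · exact fun h => hxb (Fin.castSucc_injective _ h)
  have e0 : ex6 i = Equiv.swap (i.castSucc : Fin 5).castSucc (i.succ : Fin 5).castSucc := rfl
  refine Fin.lastCases ?_ (fun j => ?_) j
  · rw [Fin.snoc_last, Function.comp_apply, e0, Equiv.swap_apply_of_ne_of_ne, Fin.snoc_last]
    · intro h
      exact absurd h.symm (Fin.castSucc_lt_last _).ne
    · intro h
      exact absurd h.symm (Fin.castSucc_lt_last _).ne
  · rw [Fin.snoc_castSucc, Function.comp_apply, Function.comp_apply, e0, ← h1, Fin.snoc_castSucc]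

/-- The code of a pair of even flags after an exchange of two roots. -/
theorem pb_move (s : Fin 5 → Fin n) (u w : Fin n) (i : Fin 4)
    (hu : EvT H (Fin.snoc s u : Fin 6 → Fin n)) (hw : EvT H (Fin.snoc s w : Fin 6 → Fin n)) (r : ℕ)
    (hr : r < 16) :
    pb (cb H (s ∘ Equiv.swap i.castSucc i.succ) u) (cb H (s ∘ Equiv.swap i.castSucc i.succ) w) r =
      seG (mv5.getD i []) 16 (pb (cb H s u) (cb H s w)) r := by
  obtain ⟨h1, h2⟩ := mv5_ok i
  rw [seG_eq 16 _ _ 16 h1 (by rw [h2]) r hr]
  have hcd : ∀ r < 4, cb H s u r = cb H s w r := by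
    intro r hr
    rw [cb_low H s u r hr, cb_low H s w r hr]
  by_cases h10 : r < 10
  · obtain ⟨h3, h4, h5⟩ := mv5_geo i r h10
    rw [h5, lf_pb_low _ h4]
    unfold pb
    rw [if_pos h10]
    unfold cb
    rw [snoc6_comp, gc6_comp H _ hu _ r h3]
  · obtain ⟨h3, _, _⟩ := mv5_geo i (r - 6) (by omega)
    rw [lf_pb_high _ _ _ _ hcd (mv5_geo' i r hr (by omega))]
    unfold pb
    rw [if_neg h10]
    unfold cb
    rw [snoc6_comp, gc6_comp H _ hw _ (r - 6) h3]

end tup

end Pool.Agent.Lib.MP_afdd4d_co.K8.Og
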