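import Pool.Agent.Lib.MP_afdd4d_co.K8.F5Cls
import Pool.Agent.Lib.MP_afdd4d_co.K8.F5Row0
import Pool.Agent.Lib.MP_afdd4d_co.K8.F5Row1
import Pool.Agent.Lib.MP_afdd4d_co.K8.F5Row2
import Pool.Agent.Lib.MP_afdd4d_co.K8.F5Row3

/-!
# The data of the five-vertex types
-/

namespace Pool.Agent.Lib.MP_afdd4d_co.K8.Og

/-- The rows. -/
def L5 : List (List ℕ) := [r5_0, r5_1, r5_2, r5_3, r5_4, r5_5, r5_6, r5_7, r5_8, r5_9, r5_10, r5_11, r5_12, r5_13, r5_14, r5_15, r5_16, r5_17, r5_18, r5_19, r5_20, r5_21, r5_22, r5_23, r5_24, r5_25, r5_26, r5_27, r5_28, r5_29, r5_30, r5_31, r5_32, r5_33, r5_34, r5_35, r5_36, r5_37, r5_38, r5_39, r5_40, r5_41, r5_42, r5_43, r5_44, r5_45, r5_46, r5_47, r5_48, r5_49, r5_50, r5_51, r5_52, r5_53, r5_54, r5_55, r5_56, r5_57, r5_58, r5_59, r5_60, r5_61, r5_62, r5_63]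

/-- The data. -/
def D5 : F5 := ⟨72, 0x2b3bf59ee810, L5⟩

theorem D5_rows : D5.rowsG = true := by decide +kernel

theorem D5_inv : ivG D5.W 16 mv5 D5.T = true := by decide +kernel

end Pool.Agent.Lib.MP_afdd4d_co.K8.Og
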