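import Pool.Agent.Lib.MP_afdd4d_co.K8.F5Dat
import Pool.Agent.Lib.MP_afdd4d_co.K8.F5Cer1

/-!
# Checks of the matrices
-/

namespace Pool.Agent.Lib.MP_afdd4d_co.K8.Og

theorem psd5_4 : psdG D5.W D5.B 0x1000 30 0x12b127f6 (D5.gs 4) n5_4 i5_4 w5_4 = true := by
  decide +kernel

theorem psd5_5 : psdG D5.W D5.B 0x1000 30 0x12b127f6 (D5.gs 5) n5_5 i5_5 w5_5 = true := by
  decide +kernel

theorem psd5_6 : psdG D5.W D5.B 0x1000 30 0x12b127f6 (D5.gs 6) n5_6 i5_6 w5_6 = true := by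
  decide +kernel

theorem psd5_7 : psdG D5.W D5.B 0x1000 30 0x12b127f6 (D5.gs 7) n5_7 i5_7 w5_7 = true := by
  decide +kernel

end Pool.Agent.Lib.MP_afdd4d_co.K8.Og
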