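import Pool.Agent.Lib.MP_afdd4d_co.K8.F5Dat
import Pool.Agent.Lib.MP_afdd4d_co.K8.F5Cer2

/-!
# Checks of the matrices
-/

namespace Pool.Agent.Lib.MP_afdd4d_co.K8.Og

theorem psd5_8 : psdG D5.W D5.B 0x1000 30 0x12b127f6 (D5.gs 8) n5_8 i5_8 w5_8 = true := by
  decide +kernel

theorem psd5_9 : psdG D5.W D5.B 0x1000 30 0x12b127f6 (D5.gs 9) n5_9 i5_9 w5_9 = true := by
  decide +kernel

theorem psd5_10 : psdG D5.W D5.B 0x1000 30 0x12b127f6 (D5.gs 10) n5_10 i5_10 w5_10 = true := by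
  decide +kernel

theorem psd5_11 : psdG D5.W D5.B 0x1000 30 0x12b127f6 (D5.gs 11) n5_11 i5_11 w5_11 = true := by
  decide +kernel

end Pool.Agent.Lib.MP_afdd4d_co.K8.Og
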