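import Pool.Agent.Lib.MP_afdd4d_co.K8.F5Dat
import Pool.Agent.Lib.MP_afdd4d_co.K8.F5Cer3

/-!
# Checks of the matrices
-/

namespace Pool.Agent.Lib.MP_afdd4d_co.K8.Og

theorem psd5_12 : psdG D5.W D5.B 0x1000 30 0x12b127f6 (D5.gs 12) n5_12 i5_12 w5_12 = true := by
  decide +kernel

theorem psd5_13 : psdG D5.W D5.B 0x1000 30 0x12b127f6 (D5.gs 13) n5_13 i5_13 w5_13 = true := by
  decide +kernel

theorem psd5_14 : psdG D5.W D5.B 0x1000 30 0x12b127f6 (D5.gs 14) n5_14 i5_14 w5_14 = true := by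
  decide +kernel

theorem psd5_15 : psdG D5.W D5.B 0x1000 30 0x12b127f6 (D5.gs 15) n5_15 i5_15 w5_15 = true := by
  decide +kernel

end Pool.Agent.Lib.MP_afdd4d_co.K8.Og
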