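import Pool.Agent.Lib.MP_afdd4d_co.K8.F5Pd0
import Pool.Agent.Lib.MP_afdd4d_co.K8.F5Pd1
import Pool.Agent.Lib.MP_afdd4d_co.K8.F5Pd2
import Pool.Agent.Lib.MP_afdd4d_co.K8.F5Pd3

/-!
# The kernel of the five-vertex types
-/

namespace Pool.Agent.Lib.MP_afdd4d_co.K8.Og

theorem D5_ok : D5.Ok := by
  refine D5.ok_of (by decide) rfl (by decide +kernel) D5_rows D5_inv ?_
  intro p hp
  interval_cases p
  · exact ⟨_, _, _, _, _, _, psd5_0⟩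
  · exact ⟨_, _, _, _, _, _, psd5_1⟩
  · exact ⟨_, _, _, _, _, _, psd5_2⟩
  · exact ⟨_, _, _, _, _, _, psd5_3⟩
  · exact ⟨_, _, _, _, _, _, psd5_4⟩
  · exact ⟨_, _, _, _, _, _, psd5_5⟩
  · exact ⟨_, _, _, _, _, _, psd5_6⟩
  · exact ⟨_, _, _, _, _, _, psd5_7⟩
  · exact ⟨_, _, _, _, _, _, psd5_8⟩
  · exact ⟨_, _, _, _, _, _, psd5_9⟩
  · exact ⟨_, _, _, _, _, _, psd5_10⟩
  · exact ⟨_, _, _, _, _, _, psd5_11⟩
  · exact ⟨_, _, _, _, _, _, psd5_12⟩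
  · exact ⟨_, _, _, _, _, _, psd5_13⟩
  · exact ⟨_, _, _, _, _, _, psd5_14⟩
  · exact ⟨_, _, _, _, _, _, psd5_15⟩

/-- The kernel. -/
def kern5 : Kern 5 := D5.kern D5_ok

end Pool.Agent.Lib.MP_afdd4d_co.K8.Og
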