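import Pool.Agent.Lib.MP_afdd4d_co.K8.OgRow

/-!
# Tables and blocks

For a pattern and the low bits `x0` of a vector, the chunk contains the values for all vectors `x` with
these low bits and all vectors `y`. The block for the low bits `x0`, `y0` is a part of the chunk,
transported by an affine map.
-/

namespace Pool.Agent.Lib.MP_afdd4d_co.K8.Og

open Finset

theorem idx_split (m n : ℕ) (b : ℕ → Bool) :
    idx (m + n) b = idx m b + 2 ^ m * idx n fun r => b (m + r) := by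
  induction n with
  | zero => rw [Nat.add_zero, idx, mul_zero, add_zero]
  | succ n ih =>
    have e : m + (n + 1) = (m + n) + 1 := by ring
    rw [e, idx, ih, idx, pow_add]
    ring

/-! ### Concatenation of a power of two of arrays -/

/-- The arrays `f X, …, f (X + 2 ^ k - 1)` one after the other. -/
def ctG (W n : ℕ) (f : ℕ → ℕ) (k : ℕ) : ℕ → ℕ :=
  @Nat.rec (fun _ => ℕ → ℕ) f
    (fun k ih X => Nat.add (ih X) (Nat.shiftLeft (ih (Nat.add X (Nat.pow 2 k)))
      (Nat.mul W (Nat.pow 2 (Nat.add n k))))) k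

theorem ctG_ar {W n : ℕ} (hW : 0 < W) {f : ℕ → ℕ} {g : ℕ → (ℕ → Bool) → ℕ} (N : ℕ)
    (hf : ∀ X < N, Ar W n (f X) (g X)) (k : ℕ) : ∀ X, X + 2 ^ k ≤ N →
    Ar W (n + k) (ctG W n f k X) fun b => g (X + idx k fun r => b (n + r)) b := by
  induction k with
  | zero =>
    intro X hX
    refine (hf X (by rw [pow_zero] at hX; omega)).congr fun b => ?_
    rw [idx, Nat.add_zero]
  | succ k ih =>
    intro X hX
    have e2 : X + 2 ^ k + 2 ^ k ≤ N := by
      have : X + 2 ^ k + 2 ^ k = X + 2 ^ (k + 1) := by rw [pow_succ]; ring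
      rw [this]
      exact hX
    have h1 := ih X (le_trans (Nat.le_add_right _ _) e2)
    have h2 := ih (X + 2 ^ k) e2
    have h3 := h1.cat h2 hW
    refine h3.congr fun b => ?_
    rw [idx]
    cases b (n + k)
    · rw [if_neg (by simp), Bool.toNat_false, mul_zero, add_zero]
    · rw [if_pos rfl, Bool.toNat_true, mul_one]
      congr 1
      omega

/-! ### A part of an array -/

/-- The part `y` of an array, of `2 ^ m` lanes. -/
def slG (W m A y : ℕ) : ℕ :=
  Nat.mod (Nat.shiftRight A (Nat.mul (Nat.mul W (Nat.pow 2 m)) y))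
    (Nat.pow 2 (Nat.mul W (Nat.pow 2 m)))

theorem slG_ar {W m n A : ℕ} {f : (ℕ → Bool) → ℕ} (hW : 0 < W) (hA : Ar W (m + n) A f) (y : ℕ)
    (hy : y < 2 ^ n) :
    Ar W m (slG W m A y) fun b => f fun r => if r < m then b r else y.testBit (r - m) := by
  have e1 : slG W m A y = (A >>> (W * (2 ^ m * y))) % 2 ^ (W * 2 ^ m) := by
    have : slG W m A y = (A >>> (W * 2 ^ m * y)) % 2 ^ (W * 2 ^ m) := rfl
    rw [this, mul_assoc]
  refine ⟨?_, fun b => ?_⟩
  · rw [e1]
    exact Nat.mod_lt _ (Nat.two_pow_pos _)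
  · rw [e1, Ln_mod, if_pos (idx_lt m b), Ln_shr, ← hA.get, idx_split]
    congr 1
    congr 1
    · apply idx_congr
      intro r hr
      rw [if_pos hr]
    · congr 1
      have h2 : idx n (fun r => if m + r < m then b (m + r) else y.testBit (m + r - m)) =
          idx n y.testBit := by
        apply idx_congr
        intro r _
        rw [if_neg (by omega), Nat.add_sub_cancel_left]
      rw [h2, idx_testBit n y hy]

/-! ### Centred rows -/

/-- The exchanges of bits for the chunks. -/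
def pm14 : List (ℕ × ℕ × ℕ) := [(1, 0, 8), (1, 1, 9), (1, 2, 10), (1, 3, 11), (1, 4, 12),
  (1, 5, 13), (1, 4, 6), (1, 5, 7), (1, 0, 6), (1, 1, 7), (1, 0, 2), (1, 1, 3)]

/-- The images of the bits. -/
def pmL : List ℕ := [8, 9, 10, 11, 12, 13, 4, 5, 6, 7, 0, 1, 2, 3]

theorem pm14_ok : okR pm14 14 = true ∧ ndG pm14 14 = 14 ∧
    ∀ r < 14, syG pm14 14 r = 2 ^ (pmL.getD r 0 + 1) ∧ pmL.getD r 0 < 14 := by decide +kernel

theorem pm14_se (b : ℕ → Bool) (r : ℕ) (hr : r < 14) : seG pm14 14 b r = b (pmL.getD r 0) := by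
  obtain ⟨h1, h2, h3⟩ := pm14_ok
  rw [seG_eq 14 b pm14 14 h1 (by rw [h2]) r hr, (h3 r hr).1, lf_two_pow]
  have h4 := (h3 r hr).2
  rw [decide_eq_true h4, Bool.true_and]

theorem pmL_10 : ∀ r < 4, pmL.getD (10 + r) 0 = r := by decide

theorem pmL_0 : ∀ r < 6, pmL.getD r 0 = 8 + r := by decide

theorem pmL_6 : ∀ r < 4, pmL.getD (6 + r) 0 = 4 + r := by decide

namespace KD
variable (D : KD)

/-- The sums of the absolute values of the entries are bounded. -/
structure CenOK (B : ℕ) : Prop where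
  hB : ∀ τ, ∑ i ∈ range D.ns, ∑ j ∈ range D.ns, |D.gd.m τ i j| ≤ B
  hBO : B ≤ D.O
  hBW : 2 * B < 2 ^ D.W

/-- The row with the offset `B`. -/
def rowC (B p x : ℕ) : ℕ := Nat.sub (D.rowG p x) (csG D.W (Nat.sub D.O B) 10)

/-- The chunk of the pattern `q` and of `x0`. -/
def chG (B q x0 : ℕ) : ℕ := ruG D.W pm14 14
  (ctG D.W 10 (fun X => D.rowC B q (Nat.add x0 (Nat.mul 64 X))) 4 0)

variable {D}

theorem CenOK.bil {B : ℕ} (h : D.CenOK B) (τ z z' : ℕ) : |D.gd.bil τ z z'| ≤ B := by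
  refine le_trans ?_ (h.hB τ)
  unfold GD.bil
  refine le_trans (Finset.abs_sum_le_sum_abs _ _) (Finset.sum_le_sum fun i _ => ?_)
  refine le_trans (Finset.abs_sum_le_sum_abs _ _) (Finset.sum_le_sum fun j _ => ?_)
  rw [abs_mul, abs_mul, sg_abs, sg_abs, mul_one, mul_one]

theorem CenOK.g6 {B : ℕ} (h : D.CenOK B) (c d : ℕ) : |D.gd.g6 c d| ≤ B := by
  unfold GD.g6
  split_ifs
  · rw [abs_zero]
    exact Int.natCast_nonneg _
  · exact h.bil _ _ _

theorem rowC_ar (h : D.RowsOK) (hs : D.ScOK) (hp : D.PrOK) {B : ℕ} (hc : D.CenOK B) (p x : ℕ)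
    (hp1 : p < 1024) :
    Ar D.W 10 (D.rowC B p x) fun b => ((B : ℤ) +
      D.gd.g6 (p + 1024 * x) (p + 1024 * idx 10 b)).toNat := by
  have hW := h.hW
  have hT := h.hT
  have hBO := hc.hBO
  have hO : D.O < 2 ^ D.W := by
    have e : D.O = 1024 * D.T := rfl
    rw [e]
    omega
  obtain ⟨h1, _⟩ := rowG_ar h hs hp p x hp1
  have h2 := csG_ar (c := D.O - B) hW (by omega) 10
  have h3 := h1.sub h2 hW (by
    intro b
    have h4 := (abs_le.mp (hc.g6 (p + 1024 * x) (p + 1024 * idx 10 b))).1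
    omega)
  refine h3.congr fun b => ?_
  have h4 := (abs_le.mp (hc.g6 (p + 1024 * x) (p + 1024 * idx 10 b))).1
  omega

theorem rowC_lt (h : D.RowsOK) (hs : D.ScOK) (hp : D.PrOK) {B : ℕ} (hc : D.CenOK B) (p x : ℕ)
    (hp1 : p < 1024) : D.rowC B p x < 2 ^ (D.W * 2 ^ 10) := (rowC_ar h hs hp hc p x hp1).lt

theorem chG_ar (h : D.RowsOK) (hs : D.ScOK) (hp : D.PrOK) {B : ℕ} (hc : D.CenOK B) (q x0 : ℕ)
    (hq : q < 1024) :
    Ar D.W 14 (D.chG B q x0) fun b => ((B : ℤ) +
      D.gd.g6 (q + 1024 * (x0 + 64 * idx 4 b))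
        (q + 1024 * (idx 6 (fun r => b (8 + r)) + 64 * idx 4 fun r => b (4 + r)))).toNat := by
  have hW := h.hW
  have h1 := ctG_ar (n := 10) hW 16 (f := fun X => D.rowC B q (Nat.add x0 (Nat.mul 64 X)))
    (fun X _ => rowC_ar h hs hp hc q (x0 + 64 * X) hq) 4 0 (by norm_num)
  obtain ⟨ho1, ho2, _⟩ := pm14_ok
  have h2 := ruG_ar hW pm14 14 _ _ ho1 h1
  rw [ho2] at h2
  refine h2.congr fun b => ?_
  have e1 : idx 4 (fun r => seG pm14 14 b (10 + r)) = idx 4 b := by
    apply idx_congr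
    intro r hr
    rw [pm14_se b (10 + r) (by omega), pmL_10 r hr]
  have e4 : idx 6 (seG pm14 14 b) = idx 6 fun r => b (8 + r) := by
    apply idx_congr
    intro r hr
    rw [pm14_se b r (by omega), pmL_0 r hr]
  have e5 : idx 4 (fun r => seG pm14 14 b (6 + r)) = idx 4 fun r => b (4 + r) := by
    apply idx_congr
    intro r hr
    rw [pm14_se b (6 + r) (by omega), pmL_6 r hr]
  have e2 : idx 10 (seG pm14 14 b) = idx 6 (fun r => b (8 + r)) +
      64 * idx 4 fun r => b (4 + r) := by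
    have e3 := idx_split 6 4 (seG pm14 14 b)
    rw [e4, e5] at e3
    exact e3
  rw [e1, e2, Nat.zero_add]

end KD

end Pool.Agent.Lib.MP_afdd4d_co.K8.Og
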