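import Pool.Agent.Lib.MP_afdd4d_co.K8.OgChk

/-!
# Checks of positive semidefiniteness
-/

namespace Pool.Agent.Lib.MP_afdd4d_co.K8.Og

open Finset

namespace Lz
variable {W N U V A B : ℕ} {o o' : ℤ} {f g : ℕ → ℤ}

theorem smul (c : ℕ) (hA : Lz W N U A o f) (hW : 0 < W) (h : c * U < 2 ^ W) :
    Lz W N (c * U) (c * A) (c * o) fun i => c * f i := by
  have h0 : ∀ i, c * Ln W A i < 2 ^ W := fun i =>
    lt_of_le_of_lt (Nat.mul_le_mul_left _ (hA.bd0 i)) h
  refine ⟨?_, fun i hi => ?_, fun i hi => ?_⟩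
  · apply lt_of_Ln_eq_zero _ _ _ hW
    intro i hi
    rw [Ln_smul _ _ _ h0, hA.out i hi, mul_zero]
  · rw [Ln_smul _ _ _ h0, Nat.cast_mul, hA.get i hi]
    ring
  · rw [Ln_smul _ _ _ h0]
    exact Nat.mul_le_mul_left _ (hA.bd i hi)

theorem zero (W N : ℕ) : Lz W N 0 0 0 fun _ => 0 :=
  ⟨Nat.two_pow_pos _, fun i _ => by rw [Ln_zero_left]; simp, fun i _ => by rw [Ln_zero_left]⟩

end Lz

/-! ### Kernel vectors -/

/-- The combination of the rows with the coefficients in the lanes of `c`. -/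
def lcG (W c : ℕ) (gs : List (List ℕ)) : ℕ := sRG (fun i r => Nat.mul (lnG W c i) r) gs 0 0

/-- The sum of the coefficients. -/
def suG (W c : ℕ) (gs : List (List ℕ)) : ℕ := sRG (fun i _ => lnG W c i) gs 0 0

/-- The check of a kernel vector with positive part `cP` and negative part `cN`. -/
def nulG (W of ns : ℕ) (gs : List (List ℕ)) (cP cN : ℕ) : Bool :=
  @Bool.rec (fun _ => Bool) false
    (Nat.beq (Nat.add (lcG W cP gs) (Nat.mul (Nat.mul of (suG W cN gs)) (onG W ns)))
      (Nat.add (lcG W cN gs) (Nat.mul (Nat.mul of (suG W cP gs)) (onG W ns))))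
    (Nat.blt (Nat.mul (Nat.mul 4 of) (Nat.add (suG W cP gs) (suG W cN gs))) (Nat.pow 2 W))

theorem suG_eq (W c : ℕ) (gs : List (List ℕ)) (hlen : ∀ rs ∈ gs, rs.length ≤ 16) :
    suG W c gs = ∑ i ∈ range (16 * gs.length), if exR gs i then Ln W c i else 0 := by
  unfold suG
  rw [sRG_eq _ _ hlen, Nat.zero_add]
  refine Finset.sum_congr rfl fun i _ => ?_
  rw [Nat.zero_add, lnG_eq]

theorem lcG_lz {W of ns : ℕ} (hW : 0 < W) (gs : List (List ℕ))
    (hl : ∀ rs ∈ gs, rs.length ≤ 16 ∧
      ∀ r ∈ rs, Lz W ns (2 * of) r of fun j => ((Ln W r j : ℕ) : ℤ) - of) (c : ℕ)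
    (hb : 2 * of * suG W c gs < 2 ^ W) :
    Lz W ns (2 * of * suG W c gs) (lcG W c gs) (of * suG W c gs) fun j =>
      ∑ i ∈ range (16 * gs.length), (Ln W c i : ℤ) * mrv W of gs i j := by
  have hlen : ∀ rs ∈ gs, rs.length ≤ 16 := fun rs hr => (hl rs hr).1
  have hrow : ∀ i, exR gs i → Lz W ns (2 * of) (rwA gs i) of fun j =>
      ((Ln W (rwA gs i) j : ℕ) : ℤ) - of := by
    intro i hi
    unfold exR at hi
    have hmem : gs.getD (i / 16) [] ∈ gs := by
      rcases getD_mem_or gs (i / 16) [] with h3 | h3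
      · exact h3
      · rw [h3] at hi
        exact absurd hi (by simp)
    apply (hl _ hmem).2
    unfold rwA
    rw [List.getD_eq_getElem _ _ hi]
    exact List.getElem_mem hi
  have hsu := suG_eq W c gs hlen
  have hlc : lcG W c gs = ∑ i ∈ range (16 * gs.length),
      if exR gs i then Ln W c i * rwA gs i else 0 := by
    unfold lcG
    rw [sRG_eq _ _ hlen, Nat.zero_add]
    refine Finset.sum_congr rfl fun i _ => ?_
    rw [Nat.zero_add, lnG_eq]
    rfl
  have key : ∀ M, M ≤ 16 * gs.length →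
      Lz W ns (2 * of * ∑ i ∈ range M, (if exR gs i then Ln W c i else 0))
        (∑ i ∈ range M, if exR gs i then Ln W c i * rwA gs i else 0)
        (of * ((∑ i ∈ range M, (if exR gs i then Ln W c i else 0) : ℕ) : ℤ))
        fun j => ∑ i ∈ range M, (Ln W c i : ℤ) * mrv W of gs i j := by
    intro M
    induction M with
    | zero =>
      intro _
      exact (Lz.zero W ns).congr (by simp) fun i _ => by simp
    | succ M ih =>
      intro hM
      have h1 := ih (by omega)
      have hle : ∑ i ∈ range (M + 1), (if exR gs i then Ln W c i else 0) ≤ suG W c gs := by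
        rw [hsu]
        exact Finset.sum_le_sum_of_subset (Finset.range_mono hM)
      have hlt : 2 * of * ∑ i ∈ range (M + 1), (if exR gs i then Ln W c i else 0) < 2 ^ W :=
        lt_of_le_of_lt (Nat.mul_le_mul_left _ hle) hb
      rw [Finset.sum_range_succ] at hlt
      simp_rw [Finset.sum_range_succ]
      by_cases h2 : exR gs M
      · rw [if_pos h2] at hlt
        rw [if_pos h2, if_pos h2]
        have h3 := (hrow M h2).smul (Ln W c M) hW (by
          refine lt_of_le_of_lt ?_ hlt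
          rw [mul_add]
          have : Ln W c M * (2 * of) = 2 * of * Ln W c M := by ring
          omega)
        have h4 := h1.add h3 hW (by
          have : Ln W c M * (2 * of) = 2 * of * Ln W c M := by ring
          rw [this, ← mul_add]
          exact hlt)
        refine (h4.mono ?_).congr ?_ fun j _ => ?_
        · have : Ln W c M * (2 * of) = 2 * of * Ln W c M := by ring
          rw [this, ← mul_add]
        · push_cast
          ring
        · rw [mrv_eq, if_pos h2]
      · rw [if_neg h2, if_neg h2, add_zero, add_zero]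
        refine h1.congr rfl fun j _ => ?_
        rw [mrv_eq, if_neg h2, mul_zero, add_zero]
  have h := key _ le_rfl
  rw [← hsu, ← hlc] at h
  exact h

theorem nulG_spec {W of ng : ℕ} (hW : 0 < W) (gs : List (List ℕ)) (hg : gs.length ≤ ng)
    (hl : ∀ rs ∈ gs, rs.length ≤ 16 ∧
      ∀ r ∈ rs, Lz W (16 * ng) (2 * of) r of fun j => ((Ln W r j : ℕ) : ℤ) - of) (cP cN : ℕ)
    (h : nulG W of (16 * ng) gs cP cN = true) :
    ∀ j < 16 * ng, ∑ i ∈ range (16 * ng), ((Ln W cP i : ℤ) - Ln W cN i) * mrv W of gs i j = 0 := by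
  unfold nulG at h
  rw [bool_rec_and, Bool.and_eq_true] at h
  obtain ⟨h1, h2⟩ := h
  have h1' : 4 * of * (suG W cP gs + suG W cN gs) < 2 ^ W := Nat.blt_eq ▸ h1
  have h2' : lcG W cP gs + of * suG W cN gs * onG W (16 * ng) =
    lcG W cN gs + of * suG W cP gs * onG W (16 * ng) := Nat.eq_of_beq_eq_true h2
  have hP := lcG_lz hW gs hl cP (by nlinarith [Nat.zero_le (of * suG W cN gs)])
  have hN := lcG_lz hW gs hl cN (by nlinarith [Nat.zero_le (of * suG W cP gs)])
  have hcN := con_lz hW (of * suG W cN gs) (by nlinarith [Nat.zero_le (of * suG W cP gs)]) (16 * ng)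
  have hcP := con_lz hW (of * suG W cP gs) (by nlinarith [Nat.zero_le (of * suG W cN gs)]) (16 * ng)
  have hA := hP.add hcN hW (by nlinarith [Nat.zero_le (of * suG W cP gs)])
  have hB := hN.add hcP hW (by nlinarith [Nat.zero_le (of * suG W cN gs)])
  intro j hj
  have e1 := hA.get j hj
  have e2 := hB.get j hj
  have e3 : lcG W cP gs + Nat.mul (of * suG W cN gs) (onG W (16 * ng)) =
    lcG W cN gs + Nat.mul (of * suG W cP gs) (onG W (16 * ng)) := h2'
  rw [e3, e2] at e1
  have e4 : ∑ i ∈ range (16 * ng), ((Ln W cP i : ℤ) - Ln W cN i) * mrv W of gs i j =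
      ∑ i ∈ range (16 * gs.length), ((Ln W cP i : ℤ) - Ln W cN i) * mrv W of gs i j := by
    apply KD.sum_range_ext
    · omega
    · intro i hi
      rw [KD.mrv_out _ _ _ _ _ hi, mul_zero]
  rw [e4]
  have e5 : ∑ i ∈ range (16 * gs.length), ((Ln W cP i : ℤ) - Ln W cN i) * mrv W of gs i j =
      ∑ i ∈ range (16 * gs.length), (Ln W cP i : ℤ) * mrv W of gs i j -
        ∑ i ∈ range (16 * gs.length), (Ln W cN i : ℤ) * mrv W of gs i j := by
    rw [← Finset.sum_sub_distrib]
    refine Finset.sum_congr rfl fun i _ => ?_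
    ring
  rw [e5]
  push_cast at e1
  linarith

/-! ### The rows of the approximate factorisation -/

/-- Addition of the products of the lane `i` of the vectors with the vectors. -/
def psG (W i CC ow : ℕ) (ws : List ℕ) : ℕ → ℕ :=
  @List.rec ℕ (fun _ => ℕ → ℕ) (fun a => a)
    (fun w _ ih a => ih (@Bool.rec (fun _ => ℕ)
      (Nat.add a (Nat.mul (Nat.sub ow (lnG W w i)) (Nat.sub CC w)))
      (Nat.add a (Nat.mul (Nat.sub (lnG W w i) ow) w)) (Nat.ble ow (lnG W w i)))) ws

/-- The value of a vector. -/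
def wv (W ow : ℕ) (ws : List ℕ) (k j : ℕ) : ℤ :=
  if k < ws.length then ((Ln W (ws.getD k 0) j : ℕ) : ℤ) - ow else 0

theorem psG_lz {W N ow : ℕ} (hW : 0 < W) {CC : ℕ} (hC : Lz W N (2 * ow) CC (2 * ow) fun _ => 0)
    (i : ℕ) (hi : i < N) (ws : List ℕ)
    (hl : ∀ w ∈ ws, Lz W N (2 * ow) w ow fun j => ((Ln W w j : ℕ) : ℤ) - ow) :
    ∀ (a U : ℕ) (o : ℤ) (f : ℕ → ℤ), Lz W N U a o f → U + ws.length * (2 * ow * ow) < 2 ^ W →
      ∃ X : ℕ, X ≤ ws.length * (ow * ow) ∧
      Lz W N (U + 2 * X) (psG W i CC ow ws a) (o + X) fun j =>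
        f j + ∑ k ∈ range ws.length, wv W ow ws k i * wv W ow ws k j := by
  induction ws with
  | nil =>
    intro a U o f ha _
    refine ⟨0, by simp, ?_⟩
    refine (ha.mono (by simp)).congr (by simp) fun j _ => by simp
  | cons w ws ih =>
    intro a U o f ha hU
    have hw := hl w List.mem_cons_self
    rw [List.length_cons] at hU
    set e := Ln W w i with he
    have heb : e ≤ 2 * ow := hw.bd i hi
    have h2 : (ws.length + 1) * (2 * ow * ow) = ws.length * (2 * ow * ow) + 2 * ow * ow := by ring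
    rw [h2] at hU
    -- one step
    have hstep : ∃ X1 : ℕ, X1 ≤ ow * ow ∧ Lz W N (U + 2 * X1) (@Bool.rec (fun _ => ℕ)
        (Nat.add a (Nat.mul (Nat.sub ow (lnG W w i)) (Nat.sub CC w)))
        (Nat.add a (Nat.mul (Nat.sub (lnG W w i) ow) w)) (Nat.ble ow (lnG W w i))) (o + X1)
        fun j => f j + ((e : ℤ) - ow) * (((Ln W w j : ℕ) : ℤ) - ow) := by
      rw [lnG_eq, ← he]
      by_cases h1 : ow ≤ e
      · have e1 : Nat.ble ow e = true := Nat.ble_eq ▸ h1
        rw [e1]
        refine ⟨(e - ow) * ow, Nat.mul_le_mul_right _ (by omega), ?_⟩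
        have h3 : (e - ow) * (2 * ow) ≤ 2 * ow * ow := by
          have : (e - ow) * (2 * ow) ≤ ow * (2 * ow) := Nat.mul_le_mul_right _ (by omega)
          nlinarith
        have h4 := ha.add (hw.smul (e - ow) hW (by omega)) hW (by omega)
        refine (h4.mono ?_).congr ?_ fun j _ => ?_
        · nlinarith
        · push_cast
          ring
        · rw [Nat.cast_sub h1]
      · have e1 : Nat.ble ow e = false := by
          rw [Bool.eq_false_iff]
          intro h3
          exact h1 (Nat.ble_eq ▸ h3)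
        rw [e1]
        refine ⟨(ow - e) * ow, Nat.mul_le_mul_right _ (by omega), ?_⟩
        have h3 : (ow - e) * (2 * ow) ≤ 2 * ow * ow := by
          have : (ow - e) * (2 * ow) ≤ ow * (2 * ow) := Nat.mul_le_mul_right _ (by omega)
          nlinarith
        have hcw := hC.sub hw hW (by
          intro j hj
          have h5 := hC.get j hj
          have h6 := hw.bd j hj
          have h7 : ((Ln W CC j : ℕ) : ℤ) = ((2 * ow : ℕ) : ℤ) := by
            rw [h5]
            push_cast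
            ring
          have h8 : Ln W CC j = 2 * ow := by exact_mod_cast h7
          omega)
        have h4 := ha.add (hcw.smul (ow - e) hW (by omega)) hW (by omega)
        refine (h4.mono ?_).congr ?_ fun j _ => ?_
        · nlinarith
        · push_cast
          ring
        · rw [Nat.cast_sub (by omega)]
          ring
    obtain ⟨X1, hX1, h3⟩ := hstep
    obtain ⟨X2, hX2, h4⟩ := ih (fun w hw => hl w (List.mem_cons_of_mem _ hw)) _ _ _ _ h3
      (by nlinarith)
    refine ⟨X1 + X2, ?_, ?_⟩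
    · rw [List.length_cons]
      nlinarith
    · have e1 : psG W i CC ow (w :: ws) a = psG W i CC ow ws (@Bool.rec (fun _ => ℕ)
          (Nat.add a (Nat.mul (Nat.sub ow (lnG W w i)) (Nat.sub CC w)))
          (Nat.add a (Nat.mul (Nat.sub (lnG W w i) ow) w)) (Nat.ble ow (lnG W w i))) := rfl
      rw [e1]
      refine (h4.mono (by omega)).congr ?_ fun j _ => ?_
      · push_cast
        ring
      · rw [List.length_cons, sum_range_cons]
        have e2 : ∀ j, wv W ow (w :: ws) 0 j = ((Ln W w j : ℕ) : ℤ) - ow := by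
          intro j
          unfold wv
          simp
        have e3 : ∀ k j, wv W ow (w :: ws) (k + 1) j = wv W ow ws k j := by
          intro k j
          unfold wv
          simp
        simp_rw [e3]
        rw [e2, e2]
        ring

theorem and_high (W s y : ℕ) (hs : s ≤ W) (hy : y < 2 ^ W) :
    y &&& (2 ^ W - 2 ^ s) = y - y % 2 ^ s := by
  have e1 : y - y % 2 ^ s = (y >>> s) <<< s := by
    rw [Nat.shiftRight_eq_div_pow, Nat.shiftLeft_eq]
    have := Nat.div_add_mod y (2 ^ s)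
    rw [mul_comm] at this
    omega
  have e2 : 2 ^ W - 2 ^ s = (2 ^ (W - s) - 1) <<< s := by
    rw [Nat.shiftLeft_eq, Nat.sub_mul, one_mul, ← pow_add, Nat.sub_add_cancel hs]
  rw [e1, e2]
  apply Nat.eq_of_testBit_eq
  intro r
  rw [Nat.testBit_and, Nat.testBit_shiftLeft, Nat.testBit_shiftLeft, Nat.testBit_shiftRight,
    Nat.testBit_two_pow_sub_one]
  by_cases h1 : s ≤ r
  · have e3 : s + (r - s) = r := by omega
    have e4 : decide (r ≥ s) = true := decide_eq_true h1
    rw [e3, e4, Bool.true_and, Bool.true_and]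
    by_cases h2 : r - s < W - s
    · rw [decide_eq_true h2, Bool.and_true]
    · rw [decide_eq_false h2, Bool.and_false]
      symm
      apply Nat.testBit_lt_two_pow
      exact lt_of_lt_of_le hy (Nat.pow_le_pow_right (by norm_num) (by omega))
  · have e4 : decide (r ≥ s) = false := decide_eq_false h1
    rw [e4, Bool.false_and, Bool.false_and, Bool.and_false]

def fchC (W ns t H ind i Y : ℕ) : Bool :=
  @Bool.rec (fun _ => Bool) false
    (Nat.ble (Nat.add H (Nat.mul ns (Nat.pow 2 t))) (lnG W Y i))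
    (Nat.beq (Nat.land (Nat.add Y (Nat.mul (Nat.pow 2 t) (onG W ns)))
      (Nat.mul (Nat.sub (Nat.pow 2 W) (Nat.pow 2 (Nat.succ t)))
        (Nat.sub ind (Nat.shiftLeft 1 (Nat.mul W i)))))
      (Nat.mul H (Nat.sub ind (Nat.shiftLeft 1 (Nat.mul W i)))))

def fchB (W of ns Dn t H ind i r S : ℕ) : Bool :=
  fchC W ns t H ind i (Nat.sub (Nat.sub (Nat.add (Nat.mul Dn r)
    (Nat.mul (Nat.add H (lnG W S ns)) (onG W ns))) (Nat.mod S (Nat.pow 2 (Nat.mul W ns))))
    (Nat.mul (Nat.mul Dn of) (onG W ns)))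

/-- The check of the row `r` in the slot `i`. -/
def fchG (W of ns Dn t H ow CC ind : ℕ) (ws : List ℕ) (i r : ℕ) : Bool :=
  @Bool.rec (fun _ => Bool) true (fchB W of ns Dn t H ind i r (psG W i CC ow ws 0))
    (Nat.beq (lnG W ind i) 1)

theorem Lz.mod {W N N' U A : ℕ} {o : ℤ} {f : ℕ → ℤ} (h : Lz W N' U A o f) (hN : N ≤ N') :
    Lz W N U (A % 2 ^ (W * N)) o f := by
  refine ⟨Nat.mod_lt _ (Nat.two_pow_pos _), fun i hi => ?_, fun i hi => ?_⟩
  · rw [Ln_mod, if_pos hi]
    exact h.get i (by omega)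
  · rw [Ln_mod, if_pos hi]
    exact h.bd i (by omega)

theorem fchG_spec {W of ns Dn t ow ind : ℕ} (hW : 2 ≤ W) (ws : List ℕ)
    (hl : ∀ w ∈ ws, Lz W (ns + 1) (2 * ow) w ow (fun j => ((Ln W w j : ℕ) : ℤ) - ow) ∧
      Ln W w ns = ow)
    (hnum : ws.length * (ow * ow) + 2 * Dn * of + 2 ^ t ≤ 2 ^ (W - 2)) (ht : t + 1 ≤ W)
    (how : 2 * ow < 2 ^ W)
    (hind : ∀ j, Ln W ind j ≤ 1)
    (i r : ℕ) (hi : i < ns) (hr : Lz W ns (2 * of) r of fun j => ((Ln W r j : ℕ) : ℤ) - of)
    (h : fchG W of ns Dn t (2 ^ (W - 2)) ow (Nat.mul (2 * ow) (onG W (ns + 1))) ind ws i r = true)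
    (hii : Ln W ind i = 1) :
    (∀ j < ns, Ln W ind j = 1 → i ≠ j → |(Dn : ℤ) * (((Ln W r j : ℕ) : ℤ) - of) -
      ∑ k ∈ range ws.length, wv W ow ws k i * wv W ow ws k j| ≤ 2 ^ t) ∧
    (ns : ℤ) * 2 ^ t ≤ (Dn : ℤ) * (((Ln W r i : ℕ) : ℤ) - of) -
      ∑ k ∈ range ws.length, wv W ow ws k i * wv W ow ws k i := by
  have hW0 : 0 < W := by omega
  set H := 2 ^ (W - 2) with hH
  have h4H : 4 * H = 2 ^ W := by
    rw [hH, show (4 : ℕ) = 2 ^ 2 from rfl, ← pow_add]
    congr 1
    omega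
  have ht0 : 0 < 2 ^ t := Nat.two_pow_pos t
  have hH0 : 0 < H := Nat.two_pow_pos _
  have hnum' : ws.length * (ow * ow) + 2 * (Dn * of) + 2 ^ t ≤ H := by
    have : 2 * Dn * of = 2 * (Dn * of) := by ring
    rw [this] at hnum
    exact hnum
  have hDof : Dn * (2 * of) = 2 * (Dn * of) := by ring
  have hcc := con_lz hW0 (2 * ow) how (ns + 1)
  have hcc' : Lz W (ns + 1) (2 * ow) (Nat.mul (2 * ow) (onG W (ns + 1))) (2 * ow) fun _ => 0 :=
    hcc.congr (by push_cast; ring) fun _ _ => rfl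
  obtain ⟨X, hX, hS⟩ := psG_lz hW0 hcc' i (by omega) ws (fun w hw => (hl w hw).1) 0 0 0 _
    (Lz.zero W (ns + 1)) (by
      have : ws.length * (2 * ow * ow) = 2 * (ws.length * (ow * ow)) := by ring
      rw [this, Nat.zero_add]
      omega)
  have hXH : X + 2 * (Dn * of) + 2 ^ t ≤ H := by omega
  set S := psG W i (Nat.mul (2 * ow) (onG W (ns + 1))) ow ws 0 with hSdef
  -- the last lane
  have hXl : lnG W S ns = X := by
    rw [lnG_eq]
    have h1 := hS.get ns (by omega)
    have h2 : ∀ k ∈ range ws.length, wv W ow ws k i * wv W ow ws k ns = 0 := by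
      intro k hk
      have hk' := Finset.mem_range.mp hk
      have h3 : wv W ow ws k ns = 0 := by
        unfold wv
        rw [if_pos hk', List.getD_eq_getElem _ _ hk', (hl _ (List.getElem_mem hk')).2, sub_self]
      rw [h3, mul_zero]
    rw [Finset.sum_eq_zero h2] at h1
    have h4 : ((Ln W S ns : ℕ) : ℤ) = (X : ℤ) := by
      rw [h1]
      ring
    exact_mod_cast h4
  unfold fchG at h
  have e1 : Nat.beq (lnG W ind i) 1 = true := by
    rw [lnG_eq, hii]
    rfl
  rw [e1] at h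
  have h' : fchB W of ns Dn t H ind i r S = true := h
  unfold fchB fchC at h'
  rw [bool_rec_and, Bool.and_eq_true, hXl] at h'
  obtain ⟨h2, h1⟩ := h'
  -- the array Y
  have hS' := hS.mod (show ns ≤ ns + 1 by omega)
  have hA := hr.smul Dn hW0 (by omega)
  have hc := con_lz hW0 (H + X) (by omega) ns
  have hA1 := hA.add hc hW0 (by omega)
  have hA2 := hA1.sub hS' hW0 (by
    intro j hj
    have e2 := hA1.get j hj
    have e3 := hS'.bd j hj
    have e5 := hA.get j hj
    have e6 : (0 : ℤ) ≤ ((Ln W (Dn * r) j : ℕ) : ℤ) := Int.natCast_nonneg _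
    have e7 : ((Ln W (S % 2 ^ (W * ns)) j : ℕ) : ℤ) ≤ 2 * X := by
      have : Ln W (S % 2 ^ (W * ns)) j ≤ 2 * X := by omega
      exact_mod_cast this
    have e8 : (X : ℤ) ≤ H := by
      have : X ≤ H := by omega
      exact_mod_cast this
    have e9 : ((Ln W (S % 2 ^ (W * ns)) j : ℕ) : ℤ) ≤
        ((Ln W (Dn * r + Nat.mul (H + X) (onG W ns)) j : ℕ) : ℤ) := by
      rw [e2]
      push_cast at e5 ⊢
      linarith
    exact_mod_cast e9)
  have hd := con_lz hW0 (Dn * of) (by omega) ns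
  have hA3 := hA2.sub hd hW0 (by
    intro j hj
    have e2 := hA2.get j hj
    have e3 := hS'.bd j hj
    have e4 := hS'.get j hj
    have e5 := hA.get j hj
    have e6 : (0 : ℤ) ≤ ((Ln W (Dn * r) j : ℕ) : ℤ) := Int.natCast_nonneg _
    have e7 : ((Ln W (S % 2 ^ (W * ns)) j : ℕ) : ℤ) ≤ 2 * X := by
      have : Ln W (S % 2 ^ (W * ns)) j ≤ 2 * X := by omega
      exact_mod_cast this
    have e8 : (X : ℤ) + Dn * of ≤ H := by
      have : X + Dn * of ≤ H := by omega
      exact_mod_cast this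
    have e10 := hd.get j hj
    have e9 : ((Ln W (Nat.mul (Dn * of) (onG W ns)) j : ℕ) : ℤ) ≤
        ((Ln W (Dn * r + Nat.mul (H + X) (onG W ns) - S % 2 ^ (W * ns)) j : ℕ) : ℤ) := by
      rw [e2, e10]
      push_cast at e4 e5 ⊢
      linarith
    exact_mod_cast e9)
  set Y := Dn * r + Nat.mul (H + X) (onG W ns) - S % 2 ^ (W * ns) - Nat.mul (Dn * of) (onG W ns)
    with hY
  have hYl : ∀ j < ns, ((Ln W Y j : ℕ) : ℤ) = H + ((Dn : ℤ) * (((Ln W r j : ℕ) : ℤ) - of) -
      ∑ k ∈ range ws.length, wv W ow ws k i * wv W ow ws k j) := by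
    intro j hj
    rw [hA3.get j hj]
    push_cast
    ring
  constructor
  · intro j hj hjF hij
    have ht2 : (2 : ℕ) ^ t < 2 ^ W := by omega
    have hct := con_lz hW0 (2 ^ t) ht2 ns
    have hYt := hA3.add hct hW0 (by
      have : Dn * (2 * of) + (H + X) + 2 ^ t ≤ 3 * H := by nlinarith
      omega)
    have h2' := Nat.eq_of_beq_eq_true h2
    have e0 : Nat.land (Nat.add Y (Nat.mul (2 ^ t) (onG W ns)))
      (Nat.mul (2 ^ W - 2 ^ (t + 1)) (ind - 1 <<< (W * i))) =
      Nat.mul H (ind - 1 <<< (W * i)) := h2'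
    have e0' : (Y + Nat.mul (2 ^ t) (onG W ns)) &&& ((2 ^ W - 2 ^ (t + 1)) * (ind - 1 <<< (W * i))) =
      H * (ind - 1 <<< (W * i)) := e0
    have h1W : 1 < 2 ^ W := Nat.one_lt_two_pow (by omega)
    have hsh : ∀ m, Ln W (1 <<< (W * i)) m = if m = i then 1 else 0 := by
      intro m
      rw [Ln_shl, Ln_small W 1 h1W]
      by_cases h5 : m < i
      · rw [if_pos h5, if_neg (by omega)]
      · rw [if_neg h5]
        by_cases h6 : m = i
        · rw [if_pos (by omega), if_pos h6]
        · rw [if_neg (by omega), if_neg h6]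
    have hile : ∀ m, Ln W (1 <<< (W * i)) m ≤ Ln W ind m := by
      intro m
      rw [hsh]
      by_cases h6 : m = i
      · rw [if_pos h6, h6, hii]
      · rw [if_neg h6]
        exact Nat.zero_le _
    have hindl : ∀ m, Ln W (ind - 1 <<< (W * i)) m = Ln W ind m - if m = i then 1 else 0 := by
      intro m
      rw [Ln_sub _ _ _ hW0 hile, hsh]
    have hindle : ∀ m, Ln W (ind - 1 <<< (W * i)) m ≤ 1 := by
      intro m
      rw [hindl]
      exact le_trans (Nat.sub_le _ _) (hind m)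
    have hmul : ∀ c, c < 2 ^ W → ∀ m, Ln W (c * (ind - 1 <<< (W * i))) m =
        c * Ln W (ind - 1 <<< (W * i)) m := by
      intro c hc m
      rw [Ln_smul]
      intro m
      refine lt_of_le_of_lt (Nat.mul_le_mul_left _ (hindle m)) (by rw [mul_one]; exact hc)
    have hone : Ln W (ind - 1 <<< (W * i)) j = 1 := by
      rw [hindl, hjF, if_neg (fun h => hij h.symm)]
    have e3 : Ln W ((Y + Nat.mul (2 ^ t) (onG W ns)) &&&
        ((2 ^ W - 2 ^ (t + 1)) * (ind - 1 <<< (W * i)))) j =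
        Ln W (H * (ind - 1 <<< (W * i))) j := by rw [e0']
    rw [Ln_and, hmul _ (by have := Nat.two_pow_pos (t + 1); have := Nat.two_pow_pos W; omega),
      hmul H (by omega), hone, mul_one, mul_one,
      and_high W (t + 1) _ ht (Ln_lt _ _ _)] at e3
    set y := Ln W (Y + Nat.mul (2 ^ t) (onG W ns)) j with hy
    have hylt : y % 2 ^ (t + 1) < 2 ^ (t + 1) := Nat.mod_lt _ (Nat.two_pow_pos _)
    have hyle : y % 2 ^ (t + 1) ≤ y := Nat.mod_le _ _
    have hyv := hYt.get j hj
    rw [← hy] at hyv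
    have e4 : y = H + y % 2 ^ (t + 1) := by omega
    have e5 : (y : ℤ) = H + ((Dn : ℤ) * (((Ln W r j : ℕ) : ℤ) - of) -
        ∑ k ∈ range ws.length, wv W ow ws k i * wv W ow ws k j) + 2 ^ t := by
      rw [hyv]
      push_cast
      ring
    have e6 : (y : ℤ) = H + ((y % 2 ^ (t + 1) : ℕ) : ℤ) := by exact_mod_cast e4
    have e7 : ((y % 2 ^ (t + 1) : ℕ) : ℤ) < 2 * 2 ^ t := by
      have h9 : ((y % 2 ^ (t + 1) : ℕ) : ℤ) < ((2 ^ (t + 1) : ℕ) : ℤ) := by exact_mod_cast hylt
      have h10 : ((2 ^ (t + 1) : ℕ) : ℤ) = 2 * 2 ^ t := by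
        push_cast
        ring
      rw [h10] at h9
      exact h9
    have e8 : (0 : ℤ) ≤ ((y % 2 ^ (t + 1) : ℕ) : ℤ) := Int.natCast_nonneg _
    rw [abs_le]
    constructor <;> linarith
  · have h1' : H + ns * 2 ^ t ≤ Ln W Y i := by
      rw [← lnG_eq]
      exact Nat.le_of_ble_eq_true h1
    have h3 := hYl i hi
    have h4 : ((H + ns * 2 ^ t : ℕ) : ℤ) ≤ ((Ln W Y i : ℕ) : ℤ) := by exact_mod_cast h1'
    rw [h3] at h4
    push_cast at h4
    linarith

end Pool.Agent.Lib.MP_afdd4d_co.K8.Og
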