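import Pool.Agent.Lib.MP_afdd4d_co.K8.F5Code
import Pool.Agent.Lib.MP_afdd4d_co.K8.Tab
import Pool.Agent.Lib.MP_afdd4d_co.K8.OgBlk
import Pool.Agent.Lib.MP_afdd4d_co.K8.OgPsC

/-!
# The kernel of the five-vertex types

For every pattern `p < 16` of the roots there is a matrix with the rows `row p x`, `x < 64`, of 64 lanes
with the offset `B`. The rows are stored in 64 groups of 16 rows.
-/

namespace Pool.Agent.Lib.MP_afdd4d_co.K8.Og

open Finset

/-- The exchanges which move the index of an entry to the index of its pair of codes. -/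
def rot5 : List (ℕ × ℕ × ℕ) := [(1, 0, 10), (1, 1, 11), (1, 2, 12), (1, 3, 13), (1, 4, 14),
  (1, 5, 15), (1, 4, 6), (1, 5, 7), (1, 6, 8), (1, 7, 9), (1, 0, 8), (1, 1, 9), (1, 0, 2), (1, 1, 3)]

theorem rot5_ok : okR rot5 16 = true ∧ ndG rot5 16 = 16 := by decide +kernel

theorem rot5_sy : ∀ r < 16, syG rot5 16 r =
    2 ^ ((if r < 6 then r + 10 else if r < 12 then r - 2 else r - 12) + 1) := by
  decide +kernel

theorem rot5_se (b : ℕ → Bool) (r : ℕ) (hr : r < 16) :
    seG rot5 16 b r = b (if r < 6 then r + 10 else if r < 12 then r - 2 else r - 12) := by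
  rw [seG_eq 16 b rot5 16 rot5_ok.1 (by rw [rot5_ok.2]) r hr, rot5_sy r hr, lf_two_pow]
  have : (if r < 6 then r + 10 else if r < 12 then r - 2 else r - 12) < 16 := by
    split_ifs <;> omega
  rw [decide_eq_true this, Bool.true_and]

/-- The index after the exchanges. -/
theorem rot5_idx (b : ℕ → Bool) : idx 16 (seG rot5 16 b) =
    (idx 6 fun k => b (10 + k)) + 64 * (idx 6 fun k => b (4 + k)) + 4096 * idx 4 b := by
  have h1 := idx_split 6 10 (seG rot5 16 b)
  have h2 := idx_split 6 4 fun r => seG rot5 16 b (6 + r)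
  have e1 : idx 6 (seG rot5 16 b) = idx 6 fun k => b (10 + k) := by
    apply idx_congr
    intro r hr
    rw [rot5_se b r (by omega), if_pos hr, Nat.add_comm]
  have e2 : (idx 6 fun r => seG rot5 16 b (6 + r)) = idx 6 fun k => b (4 + k) := by
    apply idx_congr
    intro r hr
    rw [rot5_se b (6 + r) (by omega), if_neg (by omega), if_pos (by omega)]
    congr 1
    omega
  have e3 : (idx 4 fun r => seG rot5 16 b (6 + (6 + r))) = idx 4 b := by
    apply idx_congr
    intro r hr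
    rw [rot5_se b (6 + (6 + r)) (by omega), if_neg (by omega), if_neg (by omega)]
    congr 1
    omega
  rw [e1] at h1
  rw [e2, e3] at h2
  have h3 : idx (6 + 10) (seG rot5 16 b) = idx 16 (seG rot5 16 b) := rfl
  have h4 : (idx (6 + 4) fun r => seG rot5 16 b (6 + r)) = idx 10 fun r => seG rot5 16 b (6 + r) :=
    rfl
  rw [h3] at h1
  rw [h4] at h2
  rw [h1, h2]
  ring

/-- The data of the five-vertex types. -/
structure F5 where
  W : ℕ
  B : ℕ
  L : List (List ℕ)

namespace F5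
variable (D : F5)

/-- The row `x` of the pattern `p`. -/
def row (p x : ℕ) : ℕ :=
  (D.L.getD (Nat.add (Nat.mul 4 p) (Nat.div x 16)) []).getD (Nat.mod x 16) 0

/-- The entries. -/
def g (p x y : ℕ) : ℤ := ((Ln D.W (D.row p x) y : ℕ) : ℤ) - D.B

/-- The rows one after the other. -/
def A0 : ℕ := cat2G (Nat.mul D.W 64) (Nat.mul D.W 1024) D.L

/-- The table of the values at the pairs of codes. -/
def T : ℕ := ruG D.W rot5 16 D.A0

/-- The groups of the rows of a pattern. -/
def gs (p : ℕ) : List (List ℕ) :=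
  [D.L.getD (Nat.mul 4 p) [], D.L.getD (Nat.add (Nat.mul 4 p) 1) [],
    D.L.getD (Nat.add (Nat.mul 4 p) 2) [], D.L.getD (Nat.add (Nat.mul 4 p) 3) []]

/-- The conditions. -/
structure Ok : Prop where
  hW : 0 < D.W
  len : D.L.length = 64
  len16 : ∀ l ∈ D.L, l.length = 16
  lt : ∀ l ∈ D.L, ∀ a ∈ l, a < 2 ^ (D.W * 64)
  bd : ∀ l ∈ D.L, ∀ a ∈ l, ∀ y < 64, Ln D.W a y ≤ 2 * D.B
  inv : ivG D.W 16 mv5 D.T = true
  psd : ∀ p < 16, ∀ a : ℕ → ℝ, 0 ≤ qf 64 (D.g p) a

variable {D}

theorem Ok.A0_lane (h : D.Ok) (p x y : ℕ) (hx : x < 64) (hy : y < 64) :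
    Ln D.W D.A0 (y + 64 * x + 4096 * p) = Ln D.W (D.row p x) y := by
  have h1 := cat2G_lane D.W 64 16 D.L h.len16 h.lt (4 * p + x / 16) (x % 16) y
    (Nat.mod_lt _ (by norm_num)) hy
  have e : y + 64 * x + 4096 * p = (y + 64 * (x % 16)) + 64 * 16 * (4 * p + x / 16) := by omega
  rw [e]
  exact h1

theorem Ok.A0_lt (h : D.Ok) : D.A0 < 2 ^ (D.W * 2 ^ 16) := by
  have h1 : ∀ a ∈ D.L.map (catG (D.W * 64)), a < 2 ^ (D.W * (64 * 16)) := by
    intro a ha
    rw [List.mem_map] at ha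
    obtain ⟨l, hl, rfl⟩ := ha
    have h3 := catG_lt D.W 64 l (h.lt l hl)
    rwa [h.len16 l hl] at h3
  have h2 := catG_lt D.W (64 * 16) _ h1
  rw [List.length_map, h.len] at h2
  have e : D.A0 = catG (D.W * (64 * 16)) (D.L.map (catG (D.W * 64))) :=
    cat2G_eq (D.W * 64) (D.W * (64 * 16)) D.L
  rw [e]
  exact h2

theorem Ok.T_ar (h : D.Ok) : Ar D.W 16 D.T fun b => Ln D.W D.A0 (idx 16 (seG rot5 16 b)) := by
  have h3 : Ar D.W 16 D.A0 fun b => Ln D.W D.A0 (idx 16 b) := ⟨h.A0_lt, fun _ => rfl⟩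
  have h4 := ruG_ar h.hW rot5 16 D.A0 _ rot5_ok.1 h3
  rw [rot5_ok.2] at h4
  exact h4

theorem Ok.T_lane (h : D.Ok) (b : ℕ → Bool) : Ln D.W D.T (idx 16 b) =
    Ln D.W (D.row (idx 4 b) (idx 6 fun k => b (4 + k))) (idx 6 fun k => b (10 + k)) := by
  rw [h.T_ar.get b, rot5_idx]
  exact h.A0_lane _ _ _ (idx_lt 6 _) (idx_lt 6 _)

theorem Ok.row_le (h : D.Ok) (p x y : ℕ) (hy : y < 64) : Ln D.W (D.row p x) y ≤ 2 * D.B := by
  unfold row
  rcases getD_mem_or D.L (Nat.add (Nat.mul 4 p) (Nat.div x 16)) [] with h1 | h1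
  · rcases getD_mem_or (D.L.getD (Nat.add (Nat.mul 4 p) (Nat.div x 16)) []) (Nat.mod x 16) 0
      with h2 | h2
    · exact h.bd _ h1 _ h2 y hy
    · rw [h2, Ln_zero_left]
      exact Nat.zero_le _
  · rw [h1, List.getD_nil, Ln_zero_left]
    exact Nat.zero_le _

variable (D)

/-- The value of a pair of codes. -/
def gp (c d : ℕ → Bool) : ℤ := ((Ln D.W D.T (idx 16 (pb c d)) : ℕ) : ℤ) - D.B

/-- The kernel as a function of vertices. -/
def gk {n : ℕ} (H : Finset (Finset (Fin n))) (s : Fin 5 → Fin n) (u w : Fin n) : ℤ :=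
  D.gp (cb H s u) (cb H s w)

variable {D}

theorem Ok.gp_eq (h : D.Ok) (c d : ℕ → Bool) : D.gp c d =
    D.g (idx 4 c) (idx 6 fun k => c (4 + k)) (idx 6 fun k => d (4 + k)) := by
  unfold gp g
  rw [h.T_lane]
  have e1 : idx 4 (pb c d) = idx 4 c := idx_congr 4 _ _ fun r hr => by
    rw [pb, if_pos (by omega)]
  have e2 : (idx 6 fun k => pb c d (4 + k)) = idx 6 fun k => c (4 + k) :=
    idx_congr 6 _ _ fun r hr => by rw [pb, if_pos (by omega)]
  have e3 : (idx 6 fun k => pb c d (10 + k)) = idx 6 fun k => d (4 + k) :=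
    idx_congr 6 _ _ fun r hr => by
      rw [pb, if_neg (by omega)]
      congr 1
      omega
  rw [e1, e2, e3]

theorem Ok.gp_le (h : D.Ok) (c d : ℕ → Bool) : |D.gp c d| ≤ D.B := by
  rw [h.gp_eq]
  unfold g
  have h1 := h.row_le (idx 4 c) (idx 6 fun k => c (4 + k)) (idx 6 fun k => d (4 + k)) (idx_lt 6 _)
  rw [abs_le]
  constructor
  · have : (0 : ℤ) ≤ ((Ln D.W (D.row (idx 4 c) (idx 6 fun k => c (4 + k)))
      (idx 6 fun k => d (4 + k)) : ℕ) : ℤ) := Int.natCast_nonneg _
    linarith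
  · have h2 : ((Ln D.W (D.row (idx 4 c) (idx 6 fun k => c (4 + k)))
      (idx 6 fun k => d (4 + k)) : ℕ) : ℤ) ≤ ((2 * D.B : ℕ) : ℤ) := by exact_mod_cast h1
    push_cast at h2
    linarith

theorem mv5_len : mv5.length = 4 := rfl

theorem Ok.evk_ex (h : D.Ok) {n : ℕ} (H : Finset (Finset (Fin n))) (s : Fin 5 → Fin n)
    (u w : Fin n) (i : Fin 4) :
    evk H (D.gk H) (s ∘ Equiv.swap i.castSucc i.succ) u w = evk H (D.gk H) s u w := by
  have hiff : (EvT H (Fin.snoc (s ∘ Equiv.swap i.castSucc i.succ) u : Fin 6 → Fin n) ∧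
      EvT H (Fin.snoc (s ∘ Equiv.swap i.castSucc i.succ) w : Fin 6 → Fin n)) ↔
      (EvT H (Fin.snoc s u : Fin 6 → Fin n) ∧ EvT H (Fin.snoc s w : Fin 6 → Fin n)) := by
    rw [snoc6_comp, snoc6_comp, evT_perm, evT_perm]
  unfold evk
  by_cases hev : EvT H (Fin.snoc s u : Fin 6 → Fin n) ∧ EvT H (Fin.snoc s w : Fin 6 → Fin n)
  · rw [if_pos hev, if_pos (hiff.mpr hev)]
    unfold gk gp
    have h1 : idx 16 (pb (cb H (s ∘ Equiv.swap i.castSucc i.succ) u)
        (cb H (s ∘ Equiv.swap i.castSucc i.succ) w)) =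
        idx 16 (seG (mv5.getD i []) 16 (pb (cb H s u) (cb H s w))) :=
      idx_congr 16 _ _ fun r hr => pb_move H s u w i hev.1 hev.2 r hr
    have h2 : mv5.getD i [] ∈ mv5 := by
      have hi : (i : ℕ) < mv5.length := i.isLt
      rw [List.getD_eq_getElem _ _ hi]
      exact List.getElem_mem hi
    have h3 := inv_lane h.hW h.T_ar.lt (mv5.getD i []) (mv5_ok i).1 (mv5_ok i).2
      (ivG_mem D.W 16 mv5 D.T h.inv _ h2) (pb (cb H s u) (cb H s w))
    rw [h1, h3]
  · rw [if_neg hev, if_neg fun h => hev (hiff.mp h)]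

/-- The kernel is invariant under permutations of the type. -/
theorem Ok.evk_perm (h : D.Ok) {n : ℕ} (H : Finset (Finset (Fin n))) (τ : Equiv.Perm (Fin 5)) :
    ∀ (s : Fin 5 → Fin n) (u w : Fin n),
      evk H (D.gk H) (s ∘ τ) u w = evk H (D.gk H) s u w := by
  have h1 : τ ∈ Submonoid.closure (Set.range fun i : Fin 4 => Equiv.swap i.castSucc i.succ) := by
    rw [Equiv.Perm.mclosure_swap_castSucc_succ]
    exact Submonoid.mem_top _
  induction h1 using Submonoid.closure_induction with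
  | mem x hx =>
    obtain ⟨i, rfl⟩ := hx
    intro s u w
    exact h.evk_ex H s u w i
  | one =>
    intro s u w
    rfl
  | mul x y _ _ hx hy =>
    intro s u w
    have e : s ∘ (x * y) = (s ∘ x) ∘ y := rfl
    rw [e, hy, hx]

end F5

theorem qf_count (N : ℕ) (m : ℕ → ℕ → ℤ) {ι : Type*} (U : Finset ι) (z : ι → ℕ)
    (hz : ∀ u ∈ U, z u < N) : ∑ u ∈ U, ∑ w ∈ U, ((m (z u) (z w) : ℤ) : ℝ) =
      qf N m fun i => ∑ u ∈ U, if z u = i then (1 : ℝ) else 0 := by
  unfold qf
  have e1 : ∀ i ∈ range N, ∀ j ∈ range N, (m i j : ℝ) * ((∑ u ∈ U, if z u = i then (1 : ℝ) else 0) *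
      ∑ u ∈ U, if z u = j then (1 : ℝ) else 0) =
      ∑ u ∈ U, ∑ w ∈ U, if z u = i then (if z w = j then (m (z u) (z w) : ℝ) else 0) else 0 := by
    intro i _ j _
    rw [Finset.sum_mul_sum, Finset.mul_sum]
    refine Finset.sum_congr rfl fun u _ => ?_
    rw [Finset.mul_sum]
    refine Finset.sum_congr rfl fun w _ => ?_
    by_cases h1 : z u = i
    · by_cases h2 : z w = j
      · simp only [if_pos h1, if_pos h2]
        rw [h1, h2]
        ring
      · simp only [if_neg h2, ite_self]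
        ring
    · simp only [if_neg h1]
      ring
  rw [Finset.sum_congr rfl fun i hi => Finset.sum_congr rfl fun j hj => e1 i hi j hj]
  have e2 : ∀ i ∈ range N, ∑ j ∈ range N, ∑ u ∈ U, ∑ w ∈ U,
      (if z u = i then (if z w = j then (m (z u) (z w) : ℝ) else 0) else 0) =
      ∑ u ∈ U, if z u = i then ∑ w ∈ U, (m (z u) (z w) : ℝ) else 0 := by
    intro i _
    rw [Finset.sum_comm]
    refine Finset.sum_congr rfl fun u _ => ?_
    rw [Finset.sum_comm]
    by_cases h1 : z u = i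
    · simp only [if_pos h1]
      refine Finset.sum_congr rfl fun w hw => ?_
      rw [Finset.sum_ite_eq, if_pos (Finset.mem_range.mpr (hz w hw))]
    · simp only [if_neg h1, Finset.sum_const_zero]
  rw [Finset.sum_congr rfl e2]
  symm
  rw [Finset.sum_comm]
  refine Finset.sum_congr rfl fun u hu => ?_
  rw [Finset.sum_ite_eq, if_pos (Finset.mem_range.mpr (hz u hu))]

namespace F5
variable {D : F5}

theorem Ok.evk_psd (h : D.Ok) {n : ℕ} (H : Finset (Finset (Fin n))) (s : Fin 5 → Fin n) :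
    0 ≤ ∑ u, ∑ w, ((evk H (D.gk H) s u w : ℤ) : ℝ) := by
  set p := idx 4 (gc H s) with hp
  have hpat : ∀ u : Fin n, idx 4 (cb H s u) = p := by
    intro u
    rw [hp]
    exact idx_congr 4 _ _ fun r hr => cb_low H s u r hr
  set U : Finset (Fin n) := univ.filter fun u => EvT H (Fin.snoc s u : Fin 6 → Fin n) with hU
  set z : Fin n → ℕ := fun u => idx 6 fun k => cb H s u (4 + k) with hz
  have h1 : ∀ u w, evk H (D.gk H) s u w =
      if u ∈ U then (if w ∈ U then D.g p (z u) (z w) else 0) else 0 := by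
    intro u w
    unfold evk gk
    rw [h.gp_eq, hpat]
    by_cases hu : EvT H (Fin.snoc s u : Fin 6 → Fin n)
    · by_cases hw : EvT H (Fin.snoc s w : Fin 6 → Fin n)
      · have hu' : u ∈ U := by rw [hU, Finset.mem_filter]; exact ⟨Finset.mem_univ _, hu⟩
        have hw' : w ∈ U := by rw [hU, Finset.mem_filter]; exact ⟨Finset.mem_univ _, hw⟩
        rw [if_pos ⟨hu, hw⟩, if_pos hu', if_pos hw']
      · have hw' : w ∉ U := by
          rw [hU, Finset.mem_filter]
          exact fun h => hw h.2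
        rw [if_neg fun h => hw h.2, if_neg hw', ite_self]
    · have hu' : u ∉ U := by
        rw [hU, Finset.mem_filter]
        exact fun h => hu h.2
      rw [if_neg fun h => hu h.1, if_neg hu']
  have h2 : ∑ u, ∑ w, ((evk H (D.gk H) s u w : ℤ) : ℝ) =
      ∑ u ∈ U, ∑ w ∈ U, ((D.g p (z u) (z w) : ℤ) : ℝ) := by
    have e1 : ∀ u, ∑ w, ((evk H (D.gk H) s u w : ℤ) : ℝ) =
        if u ∈ U then ∑ w ∈ U, ((D.g p (z u) (z w) : ℤ) : ℝ) else 0 := by
      intro u
      by_cases hu : u ∈ U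
      · rw [if_pos hu, ← Finset.sum_filter_add_sum_filter_not univ (fun w => w ∈ U)]
        have e2 : (univ.filter fun w => w ∈ U) = U := by
          ext w
          simp
        rw [e2]
        have e3 : ∑ w ∈ univ.filter (fun w => ¬ w ∈ U), ((evk H (D.gk H) s u w : ℤ) : ℝ) = 0 := by
          refine Finset.sum_eq_zero fun w hw => ?_
          rw [h1, if_pos hu, if_neg (Finset.mem_filter.mp hw).2]
          simp
        rw [e3, add_zero]
        refine Finset.sum_congr rfl fun w hw => ?_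
        rw [h1, if_pos hu, if_pos hw]
      · rw [if_neg hu]
        refine Finset.sum_eq_zero fun w _ => ?_
        rw [h1, if_neg hu]
        simp
    rw [Finset.sum_congr rfl fun u _ => e1 u, ← Finset.sum_filter]
    have e2 : (univ.filter fun w => w ∈ U) = U := by
      ext w
      simp
    rw [e2]
  rw [h2, qf_count 64 (D.g p) U z fun u _ => idx_lt 6 _]
  exact h.psd p (by rw [hp]; exact idx_lt 4 _) _

/-- The kernel for the eight-vertex level. -/
def kern (D : F5) (h : D.Ok) : Kern 5 where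
  f := fun {n} (H : Finset (Finset (Fin n))) => evk H (D.gk H)
  C := (D.B : ℝ)
  psd := fun H s => h.evk_psd H s
  bd := by
    intro n H s u w
    have h3 : evk H (D.gk H) s u w ≤ (D.B : ℤ) := by
      unfold evk
      split_ifs
      · exact le_trans (le_abs_self _) (h.gp_le _ _)
      · positivity
    have h4 : ((evk H (D.gk H) s u w : ℤ) : ℝ) ≤ ((D.B : ℤ) : ℝ) := by
      exact_mod_cast h3
    push_cast at h4
    exact h4

end F5

end Pool.Agent.Lib.MP_afdd4d_co.K8.Og
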