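import Pool.Agent.Lib.MP_afdd4d_co.K8.F5Dat
import Pool.Agent.Lib.MP_afdd4d_co.K8.F5Cer0

/-!
# Checks of the matrices
-/

namespace Pool.Agent.Lib.MP_afdd4d_co.K8.Og

theorem psd5_0 : psdG D5.W D5.B 0x1000 30 0x12b127f6 (D5.gs 0) n5_0 i5_0 w5_0 = true := by
  decide +kernel

theorem psd5_1 : psdG D5.W D5.B 0x1000 30 0x12b127f6 (D5.gs 1) n5_1 i5_1 w5_1 = true := by
  decide +kernel

theorem psd5_2 : psdG D5.W D5.B 0x1000 30 0x12b127f6 (D5.gs 2) n5_2 i5_2 w5_2 = true := by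
  decide +kernel

theorem psd5_3 : psdG D5.W D5.B 0x1000 30 0x12b127f6 (D5.gs 3) n5_3 i5_3 w5_3 = true := by
  decide +kernel

end Pool.Agent.Lib.MP_afdd4d_co.K8.Og
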