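import Pool.Agent.Lib.MP_afdd4d_co.K8.F5Kern

/-!
# Checks for the data of the five-vertex types
-/

namespace Pool.Agent.Lib.MP_afdd4d_co.K8.Og

open Finset

/-- The first `n` lanes of `A` are at most `U`. -/
def bdG (W U A n : ℕ) : Bool :=
  @Nat.rec (fun _ => Bool) true
    (fun y ih => @Bool.rec (fun _ => Bool) false ih (Nat.ble (lnG W A y) U)) n

theorem bdG_spec (W U A n : ℕ) (h : bdG W U A n = true) : ∀ y < n, Ln W A y ≤ U := by
  induction n with
  | zero => intro y hy; exact absurd hy (Nat.not_lt_zero _)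
  | succ n ih =>
    have e : bdG W U A (n + 1) =
      @Bool.rec (fun _ => Bool) false (bdG W U A n) (Nat.ble (lnG W A n) U) := rfl
    rw [e, bool_rec_and, Bool.and_eq_true] at h
    intro y hy
    by_cases hyn : y < n
    · exact ih h.2 y hyn
    · have : y = n := by omega
      subst this
      have h1 := Nat.le_of_ble_eq_true h.1
      rwa [lnG_eq] at h1

theorem Ln_le_of_bdG (W U A n : ℕ) (h1 : Nat.blt A (Nat.pow 2 (Nat.mul W n)) = true)
    (h2 : bdG W U A n = true) (k : ℕ) : Ln W A k ≤ U := by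
  by_cases hk : k < n
  · exact bdG_spec W U A n h2 k hk
  · have h3 : A < 2 ^ (W * n) := Nat.blt_eq ▸ h1
    rw [Ln_eq_zero_of_lt _ _ _ _ h3 (by omega)]
    exact Nat.zero_le _

/-- Every kernel vector vanishes at the pivots of the earlier ones. -/
def pwG (W : ℕ) : List (ℕ × ℕ × ℕ) → Bool
  | [] => true
  | e :: l => (l.all fun e' => Nat.beq (lnG W e'.2.1 e.1) (lnG W e'.2.2 e.1)) && pwG W l

theorem pwG_spec (W : ℕ) (l : List (ℕ × ℕ × ℕ)) (h : pwG W l = true) :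
    l.Pairwise fun e e' => Ln W e'.2.1 e.1 = Ln W e'.2.2 e.1 := by
  induction l with
  | nil => exact List.Pairwise.nil
  | cons e l ih =>
    rw [pwG, Bool.and_eq_true, List.all_eq_true] at h
    refine List.Pairwise.cons (fun e' he' => ?_) (ih h.2)
    have h1 := Nat.eq_of_beq_eq_true (h.1 e' he')
    rwa [lnG_eq, lnG_eq] at h1

/-- The check of a matrix with 64 rows. -/
def psdG (W of Dn t ow : ℕ) (gs : List (List ℕ)) (nv : List (ℕ × ℕ × ℕ)) (ind : ℕ)
    (ws : List ℕ) : Bool :=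
  ((Nat.ble (Nat.add (Nat.add (Nat.mul ws.length (Nat.mul ow ow)) (Nat.mul (Nat.mul 2 Dn) of))
      (Nat.pow 2 t)) (Nat.pow 2 (Nat.sub W 2)) && Nat.ble (Nat.add t 1) W) &&
    ((Nat.blt (Nat.mul 2 ow) (Nat.pow 2 W) && Nat.ble 2 W) && Nat.blt 0 Dn)) &&
  (((symG W of 64 gs && pwG W nv) &&
    ((nv.all fun e => (Nat.blt e.1 64 && !(Nat.beq (lnG W e.2.1 e.1) (lnG W e.2.2 e.1))) &&
      nulG W of 64 gs e.2.1 e.2.2) &&
    (ws.all fun w => (Nat.blt w (Nat.pow 2 (Nat.mul W 65)) && bdG W (Nat.mul 2 ow) w 65) &&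
      Nat.beq (lnG W w 64) ow))) &&
  (((Nat.blt ind (Nat.pow 2 (Nat.mul W 64)) && bdG W 1 ind 64) &&
    ((List.range 64).all fun i => Nat.beq (lnG W ind i) 1 || nv.any fun e => Nat.beq e.1 i)) &&
    allRG (fchG W of 64 Dn t (Nat.pow 2 (Nat.sub W 2)) ow (Nat.mul (Nat.mul 2 ow) (onG W 65)) ind
      ws) gs 0))

theorem psdG_spec {W of Dn t ow : ℕ} (hof : of < 2 ^ W) {gs : List (List ℕ)}
    (hg : gs.length = 4) (hl : ∀ rs ∈ gs, rs.length = 16 ∧
      ∀ r ∈ rs, Lz W 64 (2 * of) r of fun j => ((Ln W r j : ℕ) : ℤ) - of)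
    {nv : List (ℕ × ℕ × ℕ)} {ind : ℕ} {ws : List ℕ} (h : psdG W of Dn t ow gs nv ind ws = true)
    (a : ℕ → ℝ) : 0 ≤ qf 64 (mrv W of gs) a := by
  unfold psdG at h
  simp only [Bool.and_eq_true] at h
  obtain ⟨⟨⟨hnum, ht⟩, ⟨how, hW⟩, hDn⟩, ⟨⟨hsym, hpw⟩, hnv, hws⟩, ⟨⟨hind1, hind2⟩, hcov⟩, hall⟩ := h
  have hnum' : ws.length * (ow * ow) + 2 * Dn * of + 2 ^ t ≤ 2 ^ (W - 2) :=
    Nat.le_of_ble_eq_true hnum
  have ht' : t + 1 ≤ W := Nat.le_of_ble_eq_true ht
  have how' : 2 * ow < 2 ^ W := Nat.blt_eq ▸ how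
  have hW' : 2 ≤ W := Nat.le_of_ble_eq_true hW
  have hDn' : 0 < Dn := Nat.blt_eq ▸ hDn
  have hW0 : 0 < W := by omega
  rw [List.all_eq_true] at hnv hws hcov
  have hlen : ∀ rs ∈ gs, rs.length ≤ 16 := fun rs hr => (hl rs hr).1.le
  have hl' : ∀ rs ∈ gs, rs.length ≤ 16 ∧
      ∀ r ∈ rs, Lz W 64 (2 * of) r of fun j => ((Ln W r j : ℕ) : ℤ) - of :=
    fun rs hr => ⟨hlen rs hr, (hl rs hr).2⟩
  -- all slots have a row
  have hex : ∀ i < 64, exR gs i ∧ ∃ rs ∈ gs, rwA gs i ∈ rs := by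
    intro i hi
    have h1 : i / 16 < gs.length := by omega
    have h2 : gs.getD (i / 16) [] ∈ gs := by
      rw [List.getD_eq_getElem _ _ h1]
      exact List.getElem_mem h1
    have h3 : (gs.getD (i / 16) []).length = 16 := (hl _ h2).1
    have h4 : i % 16 < (gs.getD (i / 16) []).length := by
      rw [h3]
      exact Nat.mod_lt _ (by norm_num)
    refine ⟨h4, gs.getD (i / 16) [], h2, ?_⟩
    unfold rwA
    rw [List.getD_eq_getElem _ _ h4]
    exact List.getElem_mem h4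
  -- symmetry
  have hs : ∀ i < 64, ∀ j < 64, mrv W of gs i j = mrv W of gs j i :=
    symG_spec (ng := 4) hW0 hof gs hlen (by rw [hg]) hsym
  -- the kernel vectors
  refine qf_null 64 (mrv W of gs) hs
    (nv.map fun e => (e.1, fun i => ((Ln W e.2.1 i : ℕ) : ℤ) - Ln W e.2.2 i)) ?_ ?_ ?_ a
  · intro e' he'
    rw [List.mem_map] at he'
    obtain ⟨e, he, rfl⟩ := he'
    have h1 := hnv e he
    rw [Bool.and_eq_true, Bool.and_eq_true] at h1
    obtain ⟨⟨h2, h3⟩, h4⟩ := h1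
    have h2' : e.1 < 64 := Nat.blt_eq ▸ h2
    refine ⟨h2', ?_, ?_⟩
    · intro h5
      have h6 : Ln W e.2.1 e.1 = Ln W e.2.2 e.1 := by
        have h7 : ((Ln W e.2.1 e.1 : ℕ) : ℤ) = Ln W e.2.2 e.1 := sub_eq_zero.mp h5
        exact_mod_cast h7
      rw [lnG_eq, lnG_eq, h6] at h3
      simp at h3
    · exact nulG_spec (ng := 4) hW0 gs (by rw [hg]) hl' e.2.1 e.2.2 h4
  · rw [List.pairwise_map]
    refine (pwG_spec W nv hpw).imp fun {e e'} h1 => ?_
    show ((Ln W e'.2.1 e.1 : ℕ) : ℤ) - Ln W e'.2.2 e.1 = 0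
    rw [h1, sub_self]
  · intro a ha
    -- the remaining indices
    set F := (range 64).filter fun i => Ln W ind i = 1 with hF
    have hind : ∀ j, Ln W ind j ≤ 1 := by
      intro j
      by_cases hj : j < 64
      · exact bdG_spec W 1 ind 64 hind2 j hj
      · have h1 : ind < 2 ^ (W * 64) := Nat.blt_eq ▸ hind1
        rw [Ln_eq_zero_of_lt _ _ _ _ h1 (by omega)]
        exact Nat.zero_le _
    have hwl : ∀ w ∈ ws, Lz W (64 + 1) (2 * ow) w ow (fun j => ((Ln W w j : ℕ) : ℤ) - ow) ∧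
        Ln W w 64 = ow := by
      intro w hw
      have h1 := hws w hw
      rw [Bool.and_eq_true, Bool.and_eq_true] at h1
      obtain ⟨⟨h2, h3⟩, h4⟩ := h1
      have h2' : w < 2 ^ (W * 65) := Nat.blt_eq ▸ h2
      refine ⟨⟨h2', fun i _ => by ring, bdG_spec W _ w 65 h3⟩, ?_⟩
      have h5 := Nat.eq_of_beq_eq_true h4
      rwa [lnG_eq] at h5
    have hrow : ∀ i ∈ F, (∀ j < 64, Ln W ind j = 1 → i ≠ j →
        |(Dn : ℤ) * mrv W of gs i j -
          ∑ k ∈ range ws.length, wv W ow ws k i * wv W ow ws k j| ≤ 2 ^ t) ∧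
        ((64 : ℕ) : ℤ) * 2 ^ t ≤ (Dn : ℤ) * mrv W of gs i i -
          ∑ k ∈ range ws.length, wv W ow ws k i * wv W ow ws k i := by
      intro i hi
      rw [hF, Finset.mem_filter, Finset.mem_range] at hi
      obtain ⟨h1, rs, hrs, h2⟩ := hex i hi.1
      have h3 := allRG_spec _ gs hlen 0 hall i h1
      rw [Nat.zero_add] at h3
      have h4 := fchG_spec (ns := 64) (t := t) (Dn := Dn) hW' ws hwl hnum' ht' how' hind i
        (rwA gs i) hi.1 ((hl rs hrs).2 _ h2) h3 hi.2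
      have h5 : ∀ j, mrv W of gs i j = ((Ln W (rwA gs i) j : ℕ) : ℤ) - of := by
        intro j
        rw [mrv_eq, if_pos h1]
      simp only [h5]
      exact h4
    refine qf_supp 64 (mrv W of gs) F (Finset.filter_subset _ _) Dn (by exact_mod_cast hDn')
      ws.length (wv W ow ws) (2 ^ t) (by positivity) ?_ ?_ a ?_
    · intro i hi j hj hij
      have h1 := (hrow i hi).1 j
      rw [hF, Finset.mem_filter, Finset.mem_range] at hj
      exact h1 hj.1 hj.2 hij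
    · intro i hi
      exact (hrow i hi).2
    · intro i hi hiF
      rw [Finset.mem_range] at hi
      have h1 := hcov i (List.mem_range.mpr hi)
      rw [Bool.or_eq_true] at h1
      rcases h1 with h1 | h1
      · exfalso
        apply hiF
        rw [hF, Finset.mem_filter, Finset.mem_range]
        have h2 := Nat.eq_of_beq_eq_true h1
        rw [lnG_eq] at h2
        exact ⟨hi, h2⟩
      · rw [List.any_eq_true] at h1
        obtain ⟨e, he, h2⟩ := h1
        have h3 := Nat.eq_of_beq_eq_true h2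
        have h4 := ha (e.1, fun i => ((Ln W e.2.1 i : ℕ) : ℤ) - Ln W e.2.2 i)
          (List.mem_map.mpr ⟨e, he, rfl⟩)
        rw [← h3]
        exact h4

namespace F5
variable (D : F5)

/-- The check of the rows. -/
def rowsG : Bool := D.L.all fun l => Nat.beq l.length 16 &&
  l.all fun a => Nat.blt a (Nat.pow 2 (Nat.mul D.W 64)) && bdG D.W (Nat.mul 2 D.B) a 64

theorem rowsG_spec (h : D.rowsG = true) : (∀ l ∈ D.L, l.length = 16) ∧
    (∀ l ∈ D.L, ∀ a ∈ l, a < 2 ^ (D.W * 64)) ∧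
    ∀ l ∈ D.L, ∀ a ∈ l, ∀ y < 64, Ln D.W a y ≤ 2 * D.B := by
  unfold rowsG at h
  rw [List.all_eq_true] at h
  have h1 : ∀ l ∈ D.L, l.length = 16 ∧ ∀ a ∈ l, a < 2 ^ (D.W * 64) ∧
      ∀ y < 64, Ln D.W a y ≤ 2 * D.B := by
    intro l hl
    have h2 := h l hl
    rw [Bool.and_eq_true, List.all_eq_true] at h2
    refine ⟨Nat.eq_of_beq_eq_true h2.1, fun a ha => ?_⟩
    have h3 := h2.2 a ha
    rw [Bool.and_eq_true] at h3
    exact ⟨Nat.blt_eq ▸ h3.1, bdG_spec _ _ _ _ h3.2⟩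
  exact ⟨fun l hl => (h1 l hl).1, fun l hl a ha => ((h1 l hl).2 a ha).1,
    fun l hl a ha => ((h1 l hl).2 a ha).2⟩

theorem gs_spec (hlen : D.L.length = 64) (h : D.rowsG = true) (p : ℕ) (hp : p < 16) :
    ∀ rs ∈ D.gs p, rs.length = 16 ∧
      ∀ r ∈ rs, Lz D.W 64 (2 * D.B) r D.B fun j => ((Ln D.W r j : ℕ) : ℤ) - D.B := by
  obtain ⟨h1, h2, h3⟩ := D.rowsG_spec h
  have hm : ∀ k < 64, D.L.getD k [] ∈ D.L := by
    intro k hk
    have hk' : k < D.L.length := by rw [hlen]; exact hk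
    rw [List.getD_eq_getElem _ _ hk']
    exact List.getElem_mem hk'
  have key : ∀ k < 64, (D.L.getD k []).length = 16 ∧
      ∀ r ∈ D.L.getD k [], Lz D.W 64 (2 * D.B) r D.B fun j => ((Ln D.W r j : ℕ) : ℤ) - D.B :=
    fun k hk => ⟨h1 _ (hm k hk), fun r hr => ⟨h2 _ (hm k hk) r hr, fun i _ => by ring,
      h3 _ (hm k hk) r hr⟩⟩
  intro rs hrs
  unfold gs at hrs
  simp only [List.mem_cons, List.not_mem_nil, or_false] at hrs
  rcases hrs with rfl | rfl | rfl | rfl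
  · exact key (4 * p) (by omega)
  · exact key (4 * p + 1) (by omega)
  · exact key (4 * p + 2) (by omega)
  · exact key (4 * p + 3) (by omega)

theorem gs_get (p x : ℕ) (hx : x < 64) : (D.gs p).getD (x / 16) [] =
    D.L.getD (4 * p + x / 16) [] := by
  have h4 : x / 16 < 4 := by omega
  generalize x / 16 = q at h4
  have hq : q = 0 ∨ q = 1 ∨ q = 2 ∨ q = 3 := by omega
  rcases hq with rfl | rfl | rfl | rfl <;> rfl

theorem mrv_gs (hlen : D.L.length = 64) (h : D.rowsG = true) (p : ℕ) (hp : p < 16) (x : ℕ)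
    (hx : x < 64) (y : ℕ) : mrv D.W D.B (D.gs p) x y = D.g p x y := by
  have h1 : (D.gs p).getD (x / 16) [] ∈ D.gs p := by
    have h2 : x / 16 < (D.gs p).length := by
      have : (D.gs p).length = 4 := rfl
      omega
    rw [List.getD_eq_getElem _ _ h2]
    exact List.getElem_mem h2
  have h3 := (D.gs_spec hlen h p hp _ h1).1
  have h4 : exR (D.gs p) x := by
    unfold exR
    rw [h3]
    exact Nat.mod_lt _ (by norm_num)
  rw [mrv_eq, if_pos h4]
  unfold g row rwA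
  rw [D.gs_get p x hx]
  rfl

theorem qf_congr (N : ℕ) (m m' : ℕ → ℕ → ℤ) (a : ℕ → ℝ) (h : ∀ i < N, ∀ j < N, m i j = m' i j) :
    qf N m a = qf N m' a := by
  unfold qf
  refine Finset.sum_congr rfl fun i hi => Finset.sum_congr rfl fun j hj => ?_
  rw [h i (Finset.mem_range.mp hi) j (Finset.mem_range.mp hj)]

/-- The conditions from the checks. -/
theorem ok_of (hW : 0 < D.W) (hlen : D.L.length = 64) (hof : D.B < 2 ^ D.W) (hr : D.rowsG = true)
    (hi : ivG D.W 16 mv5 D.T = true) (h : ∀ p < 16, ∃ (Dn t ow : ℕ) (nv : List (ℕ × ℕ × ℕ))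
      (ind : ℕ) (ws : List ℕ), psdG D.W D.B Dn t ow (D.gs p) nv ind ws = true) : D.Ok := by
  obtain ⟨h1, h2, h3⟩ := D.rowsG_spec hr
  refine ⟨hW, hlen, h1, h2, h3, hi, fun p hp a => ?_⟩
  obtain ⟨Dn, t, ow, nv, ind, ws, h4⟩ := h p hp
  have h5 := psdG_spec hof (gs := D.gs p) rfl (D.gs_spec hlen hr p hp) h4 a
  rwa [qf_congr 64 (mrv D.W D.B (D.gs p)) (D.g p) a fun i hi j _ =>
    D.mrv_gs hlen hr p hp i hi j] at h5

end F5

end Pool.Agent.Lib.MP_afdd4d_co.K8.Og
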