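import Pool.Agent.Lib.MP_afdd4d_co.K8.F6Fac

/-!
# The check of positive semidefiniteness of one type
-/

namespace Pool.Agent.Lib.MP_afdd4d_co.K8

open Finset

/-! ### Lanes of double width -/

/-- The lanes of `r` as lanes of double width: first the even ones, then the odd ones. -/
def cvG (W h r : ℕ) : ℕ :=
  Nat.add (Nat.land r (Nat.mul (Nat.sub (Nat.pow 2 W) 1) (onG (Nat.mul 2 W) h)))
    (Nat.shiftLeft (Nat.land (Nat.shiftRight r W)
      (Nat.mul (Nat.sub (Nat.pow 2 W) 1) (onG (Nat.mul 2 W) h))) (Nat.mul (Nat.mul 2 W) h))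

theorem cv_half {W h : ℕ} (hW : 0 < W) (r : ℕ) :
    (r &&& ((2 ^ W - 1) * onG (2 * W) h)) < 2 ^ (2 * W * h) ∧
    ∀ j, Ln (2 * W) (r &&& ((2 ^ W - 1) * onG (2 * W) h)) j =
      if j < h then Ln W r (2 * j) else 0 := by
  have h2 : 2 ^ W - 1 < 2 ^ (2 * W) := by
    have h3 : 2 ^ W ≤ 2 ^ (2 * W) := Nat.pow_le_pow_right (by norm_num) (by omega)
    have h4 := Nat.two_pow_pos W
    omega
  have hl : ∀ j, Ln (2 * W) (r &&& ((2 ^ W - 1) * onG (2 * W) h)) j =
      if j < h then Ln W r (2 * j) else 0 := by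
    intro j
    rw [Ln_and, Ln_mul_onG (by omega) _ h2]
    by_cases hj : j < h
    · rw [if_pos hj, if_pos hj, Nat.and_two_pow_sub_one_eq_mod]
      unfold Ln
      rw [Nat.mod_mod_of_dvd _ (pow_dvd_pow 2 (by omega : W ≤ 2 * W))]
      congr 3
      ring
    · rw [if_neg hj, if_neg hj, Nat.and_zero]
  refine ⟨?_, hl⟩
  apply lt_of_Ln_eq_zero _ _ _ (by omega)
  intro i hi
  rw [hl, if_neg (by omega)]

theorem cvG_lane {W h : ℕ} (hW : 0 < W) (r j : ℕ) : Ln (2 * W) (cvG W h r) j =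
    if j < h then Ln W r (2 * j) else if j < 2 * h then Ln W r (2 * (j - h) + 1) else 0 := by
  obtain ⟨h1, h2⟩ := cv_half (h := h) hW r
  obtain ⟨_, h4⟩ := cv_half (h := h) hW (r >>> W)
  have e1 : cvG W h r = (r &&& ((2 ^ W - 1) * onG (2 * W) h)) +
    ((r >>> W) &&& ((2 ^ W - 1) * onG (2 * W) h)) <<< (2 * W * h) := rfl
  rw [e1, Ln_cat _ _ _ _ _ h1, h2, h4]
  by_cases hj : j < h
  · rw [if_pos hj, if_pos hj, if_pos hj]
  · rw [if_neg hj, if_neg hj]
    by_cases hj2 : j < 2 * h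
    · rw [if_pos (by omega), if_pos hj2]
      have e2 : (r >>> W) = r >>> (W * 1) := by rw [mul_one]
      rw [e2, Ln_shr]
    · rw [if_neg (by omega), if_neg hj2]

/-- The slot of a lane. -/
def sgi (h j : ℕ) : ℕ := if j < h then 2 * j else 2 * (j - h) + 1

/-- The lane of a slot. -/
def sgG (h i : ℕ) : ℕ := @Nat.rec (fun _ => ℕ) (Nat.div i 2) (fun _ _ => Nat.add h (Nat.div i 2))
  (Nat.mod i 2)

theorem sgG_eq (h i : ℕ) : sgG h i = if i % 2 = 0 then i / 2 else h + i / 2 := by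
  have e1 : sgG h i = @Nat.rec (fun _ => ℕ) (i / 2) (fun _ _ => h + i / 2) (i % 2) := rfl
  rw [e1]
  rcases Nat.mod_two_eq_zero_or_one i with h1 | h1 <;> rw [h1] <;> rfl

theorem sgi_sgG (h i : ℕ) (hi : i < 2 * h) : sgi h (sgG h i) = i := by
  rw [sgG_eq, sgi]
  split_ifs <;> omega

theorem sgG_sgi (h j : ℕ) : sgG h (sgi h j) = j := by
  rw [sgG_eq, sgi]
  split_ifs <;> omega

theorem sgG_lt (h i : ℕ) (hi : i < 2 * h) : sgG h i < 2 * h := by
  rw [sgG_eq]
  split_ifs <;> omega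

theorem sgi_lt (h j : ℕ) (hj : j < 2 * h) : sgi h j < 2 * h := by
  rw [sgi]
  split_ifs <;> omega

theorem cvG_lane' {W h : ℕ} (hW : 0 < W) (r j : ℕ) (hj : j < 2 * h) :
    Ln (2 * W) (cvG W h r) j = Ln W r (sgi h j) := by
  rw [cvG_lane hW, sgi]
  split_ifs <;> rfl

theorem cvG_lt {W h : ℕ} (hW : 0 < W) (r : ℕ) : cvG W h r < 2 ^ (2 * W * (2 * h)) := by
  apply lt_of_Ln_eq_zero _ _ _ (by omega)
  intro i hi
  rw [cvG_lane hW, if_neg (by omega), if_neg (by omega)]

/-- A vector with the offset in a further lane. -/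
def exW (W h ow w : ℕ) : ℕ :=
  Nat.add (cvG W h w) (Nat.shiftLeft ow (Nat.mul (Nat.mul 2 W) (Nat.mul 2 h)))

theorem exW_spec {W h ow w : ℕ} (hW : 0 < W) (how : 2 * ow < 2 ^ (2 * W))
    (hw : ∀ j < 2 * h, Ln W w j ≤ 2 * ow) :
    Lz (2 * W) (2 * h + 1) (2 * ow) (exW W h ow w) ow
      (fun j => ((Ln (2 * W) (exW W h ow w) j : ℕ) : ℤ) - ow) ∧
    Ln (2 * W) (exW W h ow w) (2 * h) = ow ∧
    ∀ j < 2 * h, Ln (2 * W) (exW W h ow w) j = Ln W w (sgi h j) := by
  have e1 : exW W h ow w = cvG W h w + ow <<< (2 * W * (2 * h)) := rfl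
  have hl : ∀ j, Ln (2 * W) (exW W h ow w) j =
      if j < 2 * h then Ln W w (sgi h j) else if j = 2 * h then ow else 0 := by
    intro j
    rw [e1, Ln_cat _ _ _ _ _ (cvG_lt hW w)]
    by_cases hj : j < 2 * h
    · rw [if_pos hj, if_pos hj, cvG_lane' hW _ _ hj]
    · rw [if_neg hj, if_neg hj, Ln_small _ _ (by omega)]
      by_cases hj2 : j = 2 * h
      · rw [if_pos (by omega), if_pos hj2]
      · rw [if_neg (by omega), if_neg hj2]
  refine ⟨⟨?_, fun i _ => by ring, fun i hi => ?_⟩, ?_, fun j hj => ?_⟩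
  · apply lt_of_Ln_eq_zero _ _ _ (by omega)
    intro i hi
    rw [hl, if_neg (by omega), if_neg (by omega)]
  · rw [hl]
    split_ifs with h3 h4
    · exact hw _ (sgi_lt h i h3)
    · omega
    · omega
  · rw [hl, if_neg (by omega), if_pos rfl]
  · rw [hl, if_pos hj]

/-! ### Rows and columns -/

/-- The entry in row `i` and column `j`. -/
def me (W of : ℕ) (R : List ℕ) (i j : ℕ) : ℤ := ((Ln W (R.getD i 0) j : ℕ) : ℤ) - of

/-- Conditions on the rows. -/
def RwOK (W of : ℕ) (R : List ℕ) : Prop := ∀ r ∈ R, r < 2 ^ (W * (R.length + 1)) ∧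
  (∀ j < R.length + 1, Ln W r j ≤ 2 * of) ∧ Ln W r R.length = of

theorem RwOK.lz {W of : ℕ} {R : List ℕ} (h : RwOK W of R) : ∀ r ∈ R,
    Lz W (R.length + 1) (2 * of) r of fun j => ((Ln W r j : ℕ) : ℤ) - of :=
  fun r hr => ⟨(h r hr).1, fun j _ => by ring, (h r hr).2.1⟩

theorem mem_getD {R : List ℕ} {i : ℕ} (hi : i < R.length) : R.getD i 0 ∈ R := by
  rw [List.getD_eq_getElem _ _ hi]
  exact List.getElem_mem hi

/-- The column `j`, and the offset in a further lane. -/
def clG (W of : ℕ) (R : List ℕ) (j : ℕ) : ℕ :=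
  Nat.add (sR (fun i r => Nat.shiftLeft (lnG W r j) (Nat.mul W i)) R 0 0)
    (Nat.shiftLeft of (Nat.mul W R.length))

/-- Every row is equal to the corresponding column. -/
def symG (W of : ℕ) (R : List ℕ) : Bool := allR (fun j r => Nat.beq r (clG W of R j)) R 0

theorem symG_spec {W of : ℕ} (hW : 0 < W) (R : List ℕ) (h : symG W of R = true) :
    ∀ i < R.length, ∀ j < R.length, me W of R i j = me W of R j i := by
  have hcol : ∀ j, ∀ k < R.length, Ln W (clG W of R j) k = Ln W (R.getD k 0) j := by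
    intro j k hk
    obtain ⟨h1, h2⟩ := Ln_sum_shl (W := W) (fun i => Ln W (R.getD i 0) j)
      (fun i => Ln_lt _ _ _) hW R.length
    have e1 : clG W of R j = (∑ i ∈ range R.length, (Ln W (R.getD i 0) j) <<< (W * i)) +
        of <<< (W * R.length) := by
      have e2 : clG W of R j = (sR (fun i r => Nat.shiftLeft (lnG W r j) (Nat.mul W i)) R 0 0) +
        of <<< (W * R.length) := rfl
      rw [e2, sR_eq, Nat.zero_add]
      congr 1
      refine Finset.sum_congr rfl fun i _ => ?_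
      rw [Nat.zero_add, lnG_eq]
      rfl
    rw [e1, Ln_cat _ _ _ _ _ h1, if_pos hk, h2, if_pos hk]
  have hrow : ∀ j < R.length, R.getD j 0 = clG W of R j := by
    intro j hj
    have h2 := allR_spec _ R 0 h j hj
    rw [Nat.zero_add] at h2
    exact Nat.eq_of_beq_eq_true h2
  intro i hi j hj
  unfold me
  congr 2
  conv_lhs => rw [hrow i hi]
  exact hcol i j hj

/-! ### Kernel vectors -/

/-- The combination of the rows with the coefficients in the lanes of `c`. -/
def lcG (W c : ℕ) (R : List ℕ) : ℕ := sR (fun i r => Nat.mul (lnG W c i) r) R 0 0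

/-- The sum of the coefficients. -/
def suG (W c : ℕ) (R : List ℕ) : ℕ := sR (fun i _ => lnG W c i) R 0 0

/-- The check of a kernel vector with positive part `cP` and negative part `cN`. -/
def nulG (W of : ℕ) (R : List ℕ) (cP cN : ℕ) : Bool :=
  @Bool.rec (fun _ => Bool) false
    (Nat.beq (Nat.add (lcG W cP R) (Nat.mul (Nat.mul of (suG W cN R)) (onG W (Nat.succ R.length))))
      (Nat.add (lcG W cN R) (Nat.mul (Nat.mul of (suG W cP R)) (onG W (Nat.succ R.length)))))
    (Nat.blt (Nat.mul (Nat.mul 4 of) (Nat.add (suG W cP R) (suG W cN R))) (Nat.pow 2 W))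

theorem suG_eq (W c : ℕ) (R : List ℕ) : suG W c R = ∑ i ∈ range R.length, Ln W c i := by
  unfold suG
  rw [sR_eq, Nat.zero_add]
  refine Finset.sum_congr rfl fun i _ => ?_
  rw [Nat.zero_add, lnG_eq]

theorem lcG_lz {W of : ℕ} (hW : 0 < W) (R : List ℕ) (hl : RwOK W of R) (c : ℕ)
    (hb : 2 * of * suG W c R < 2 ^ W) :
    Lz W (R.length + 1) (2 * of * suG W c R) (lcG W c R) (of * suG W c R) fun j =>
      ∑ i ∈ range R.length, (Ln W c i : ℤ) * me W of R i j := by
  have hsu := suG_eq W c R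
  have hlc : lcG W c R = ∑ i ∈ range R.length, Ln W c i * R.getD i 0 := by
    unfold lcG
    rw [sR_eq, Nat.zero_add]
    refine Finset.sum_congr rfl fun i _ => ?_
    rw [Nat.zero_add, lnG_eq]
    rfl
  have key : ∀ M, M ≤ R.length →
      Lz W (R.length + 1) (2 * of * ∑ i ∈ range M, Ln W c i)
        (∑ i ∈ range M, Ln W c i * R.getD i 0)
        (of * ((∑ i ∈ range M, Ln W c i : ℕ) : ℤ))
        fun j => ∑ i ∈ range M, (Ln W c i : ℤ) * me W of R i j := by
    intro M
    induction M with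
    | zero =>
      intro _
      exact (Lz.zero W (R.length + 1)).congr (by simp) fun i _ => by simp
    | succ M ih =>
      intro hM
      have h1 := ih (by omega)
      have hle : ∑ i ∈ range (M + 1), Ln W c i ≤ suG W c R := by
        rw [hsu]
        exact Finset.sum_le_sum_of_subset (Finset.range_mono hM)
      have hlt : 2 * of * ∑ i ∈ range (M + 1), Ln W c i < 2 ^ W :=
        lt_of_le_of_lt (Nat.mul_le_mul_left _ hle) hb
      rw [Finset.sum_range_succ] at hlt
      simp_rw [Finset.sum_range_succ]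
      have h3 := (hl.lz _ (mem_getD (show M < R.length by omega))).smul (Ln W c M) hW (by
        refine lt_of_le_of_lt ?_ hlt
        rw [mul_add]
        have : Ln W c M * (2 * of) = 2 * of * Ln W c M := by ring
        omega)
      have h4 := h1.add h3 hW (by
        have : Ln W c M * (2 * of) = 2 * of * Ln W c M := by ring
        rw [this, ← mul_add]
        exact hlt)
      refine (h4.mono ?_).congr ?_ fun j _ => ?_
      · have : Ln W c M * (2 * of) = 2 * of * Ln W c M := by ring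
        rw [this, ← mul_add]
      · push_cast
        ring
      · rfl
  have h := key _ le_rfl
  rw [← hsu, ← hlc] at h
  exact h

theorem nulG_spec {W of : ℕ} (hW : 0 < W) (R : List ℕ) (hl : RwOK W of R) (cP cN : ℕ)
    (h : nulG W of R cP cN = true) :
    ∀ j < R.length, ∑ i ∈ range R.length, (((Ln W cP i : ℕ) : ℤ) - (Ln W cN i : ℕ)) *
      me W of R i j = 0 := by
  unfold nulG at h
  rw [bool_rec_and, Bool.and_eq_true] at h
  obtain ⟨h1, h2⟩ := h
  have h2' := Nat.eq_of_beq_eq_true h2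
  rw [Nat.blt_eq] at h1
  have h1' : 4 * of * (suG W cP R + suG W cN R) < 2 ^ W := h1
  have e0 : 4 * of * (suG W cP R + suG W cN R) = 2 * of * suG W cP R + 2 * of * suG W cN R +
      (2 * of * suG W cP R + 2 * of * suG W cN R) := by ring
  rw [e0] at h1'
  have e00 : ∀ c, of * suG W c R ≤ 2 * of * suG W c R := by
    intro c
    nlinarith [Nat.zero_le (of * suG W c R)]
  have e01 := e00 cP
  have e02 := e00 cN
  have hP := lcG_lz hW R hl cP (by omega)
  have hN := lcG_lz hW R hl cN (by omega)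
  have hcN := con_lz hW (of * suG W cN R) (by omega) (R.length + 1)
  have hcP := con_lz hW (of * suG W cP R) (by omega) (R.length + 1)
  have hA := hP.add hcN hW (by omega)
  have hB := hN.add hcP hW (by omega)
  intro j hj
  have e1 := hA.get j (by omega)
  have e2 := hB.get j (by omega)
  have e3 : lcG W cP R + Nat.mul (of * suG W cN R) (onG W (R.length + 1)) =
    lcG W cN R + Nat.mul (of * suG W cP R) (onG W (R.length + 1)) := h2'
  rw [e3, e2] at e1
  have e5 : ∑ i ∈ range R.length, (((Ln W cP i : ℕ) : ℤ) - (Ln W cN i : ℕ)) * me W of R i j =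
      ∑ i ∈ range R.length, (Ln W cP i : ℤ) * me W of R i j -
        ∑ i ∈ range R.length, (Ln W cN i : ℤ) * me W of R i j := by
    rw [← Finset.sum_sub_distrib]
    refine Finset.sum_congr rfl fun i _ => ?_
    ring
  rw [e5]
  push_cast at e1
  linarith

/-! ### The check -/

/-- The data. -/
structure PD where
  /-- factor -/
  Dn : ℕ
  /-- bound `2 ^ t` for the error -/
  t : ℕ
  /-- offset `2 ^ k` of the vectors -/
  k : ℕ
  /-- vectors -/
  ws : List ℕ
  /-- slots that are not pivots, in lanes of double width -/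
  ind : ℕ
  /-- kernel vectors with pivots -/
  nul : List (ℕ × (ℕ × ℕ))

/-- The numerical conditions. -/
def PD.num (P : PD) (W of : ℕ) : Bool :=
  decide (0 < P.Dn) && (decide (P.ws.length * (2 ^ P.k * 2 ^ P.k) + 2 * P.Dn * of + 2 ^ P.t ≤
    2 ^ (2 * W - 2)) && (decide (P.t + 1 ≤ 2 * W) && decide (P.k + 1 < 2 * W ∧ P.k + 1 ≤ W)))

/-- The bounds for the lanes of a vector. -/
def wbG (W ns k w : ℕ) : Bool :=
  Nat.beq (Nat.land w (Nat.mul (Nat.sub (Nat.pow 2 W) (Nat.pow 2 (Nat.succ k))) (onG W ns))) 0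

theorem wbG_spec {W ns k w : ℕ} (hW : 0 < W) (hk : k + 1 ≤ W) (h : wbG W ns k w = true) :
    ∀ j < ns, Ln W w j ≤ 2 * 2 ^ k := by
  have h1 := Nat.eq_of_beq_eq_true h
  have h2 : w &&& ((2 ^ W - 2 ^ (k + 1)) * onG W ns) = 0 := h1
  intro j hj
  have h3 : Ln W (w &&& ((2 ^ W - 2 ^ (k + 1)) * onG W ns)) j = Ln W 0 j := by rw [h2]
  have h4 := Nat.two_pow_pos (k + 1)
  have h5 := Nat.two_pow_pos W
  rw [Ln_and, Ln_mul_onG hW _ (by omega), if_pos hj, Ln_zero_left,
    and_high W (k + 1) _ hk (Ln_lt _ _ _)] at h3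
  have h6 : Ln W w j % 2 ^ (k + 1) < 2 ^ (k + 1) := Nat.mod_lt _ h4
  have h7 : 2 ^ (k + 1) = 2 * 2 ^ k := by rw [pow_succ]; ring
  omega

/-- Whether the slot `i` is one of the pivots. -/
def pvG (l : List (ℕ × (ℕ × ℕ))) (i : ℕ) : Bool := l.any fun e => Nat.beq e.1 i

/-- Conditions on the kernel vectors. -/
def nuG (W of : ℕ) (R : List ℕ) : List (ℕ × (ℕ × ℕ)) → Bool
  | [] => true
  | e :: l => (decide (e.1 < R.length) && (!(Nat.beq (lnG W e.2.1 e.1) (lnG W e.2.2 e.1)) &&
      nulG W of R e.2.1 e.2.2)) &&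
    ((l.all fun e' => Nat.beq (lnG W e'.2.1 e.1) (lnG W e'.2.2 e.1)) && nuG W of R l)

/-- The rows of the factorisation. -/
def faG (W of h : ℕ) (P : PD) (R : List ℕ) : Bool :=
  allR (fun i r => fchG (2 * W) of (2 * h) P.Dn P.t (2 ^ (2 * W - 2)) (2 ^ P.k)
    (Nat.mul (2 * 2 ^ P.k) (onG (2 * W) (2 * h + 1))) P.ind (P.ws.map (exW W h (2 ^ P.k)))
    (sgG h i) (cvG W h r)) R 0

/-- The indicator. -/
def idG (W h : ℕ) (P : PD) : Bool := Nat.beq (Nat.land P.ind (onG (2 * W) (2 * h))) P.ind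

/-- The slots that are not in the indicator are pivots. -/
def pidG (W h : ℕ) (P : PD) (R : List ℕ) : Bool :=
  allR (fun i _ => @Bool.rec (fun _ => Bool) (pvG P.nul i) true
      (Nat.beq (lnG (2 * W) P.ind (sgG h i)) 1)) R 0

/-- The whole check. -/
def PD.chk (P : PD) (W of h : ℕ) (R : List ℕ) : Bool :=
  decide (R.length ≤ 2 * h ∧ 2 * h ≤ R.length + 1) && (P.num W of &&
    ((P.ws.all fun w => wbG W (2 * h) P.k w) && (idG W h P && (pidG W h P R &&
    (nuG W of R P.nul && (symG W of R && faG W of h P R))))))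

theorem qf_congr (n : ℕ) (m : ℕ → ℕ → ℤ) (a a' : ℕ → ℝ)
    (h : ∀ i < n, a i = a' i ∨ ((∀ j < n, m i j = 0) ∧ ∀ j < n, m j i = 0)) :
    qf n m a = qf n m a' := by
  unfold qf
  refine Finset.sum_congr rfl fun i hi => Finset.sum_congr rfl fun j hj => ?_
  have hi' := Finset.mem_range.mp hi
  have hj' := Finset.mem_range.mp hj
  rcases h i hi' with h1 | h1
  · rcases h j hj' with h2 | h2
    · rw [h1, h2]
    · rw [h2.2 i hi']; simp
  · rw [h1.1 j hj']; simp

theorem qf_perm (h : ℕ) (m : ℕ → ℕ → ℤ) (a : ℕ → ℝ) :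
    qf (2 * h) (fun i j => m (sgi h i) (sgi h j)) (fun i => a (sgi h i)) = qf (2 * h) m a := by
  unfold qf
  have key : ∀ F : ℕ → ℝ, ∑ i ∈ range (2 * h), F (sgi h i) = ∑ i ∈ range (2 * h), F i := by
    intro F
    refine Finset.sum_nbij' (sgi h) (sgG h) ?_ ?_ ?_ ?_ ?_
    · intro i hi
      exact Finset.mem_range.mpr (sgi_lt h i (Finset.mem_range.mp hi))
    · intro i hi
      exact Finset.mem_range.mpr (sgG_lt h i (Finset.mem_range.mp hi))
    · intro i _
      exact sgG_sgi h i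
    · intro i hi
      exact sgi_sgG h i (Finset.mem_range.mp hi)
    · intro i _
      rfl
  rw [← key fun i => ∑ j ∈ range (2 * h), (m i j : ℝ) * (a i * a j)]
  refine Finset.sum_congr rfl fun i _ => ?_
  exact key fun j => (m (sgi h i) j : ℝ) * (a (sgi h i) * a j)

theorem qf_ext (n N : ℕ) (hN : n ≤ N) (m : ℕ → ℕ → ℤ) (a : ℕ → ℝ) (h : ∀ i, n ≤ i → a i = 0) :
    qf N m a = qf n m a := by
  unfold qf
  have h1 : ∀ i, ∑ j ∈ range N, (m i j : ℝ) * (a i * a j) =
      ∑ j ∈ range n, (m i j : ℝ) * (a i * a j) := by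
    intro i
    symm
    apply Finset.sum_subset (Finset.range_mono hN)
    intro j _ hj
    rw [Finset.mem_range, not_lt] at hj
    rw [h j hj, mul_zero, mul_zero]
  rw [Finset.sum_congr rfl fun i _ => h1 i]
  symm
  apply Finset.sum_subset (Finset.range_mono hN)
  intro i _ hi
  rw [Finset.mem_range, not_lt] at hi
  refine Finset.sum_eq_zero fun j _ => ?_
  rw [h i hi, zero_mul, mul_zero]

theorem nuG_spec {W of : ℕ} (hW : 0 < W) (R : List ℕ) (hl : RwOK W of R)
    (l : List (ℕ × (ℕ × ℕ))) (h : nuG W of R l = true) :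
    (∀ e ∈ l.map (fun e => (e.1, fun i => ((Ln W e.2.1 i : ℕ) : ℤ) - (Ln W e.2.2 i : ℕ))),
      e.1 < R.length ∧ e.2 e.1 ≠ 0 ∧
        ∀ j < R.length, ∑ i ∈ range R.length, e.2 i * me W of R i j = 0) ∧
    (l.map (fun e => (e.1, fun i => ((Ln W e.2.1 i : ℕ) : ℤ) - (Ln W e.2.2 i : ℕ)))).Pairwise
      fun e e' => e'.2 e.1 = 0 := by
  induction l with
  | nil =>
    refine ⟨fun e he => absurd he (by simp), ?_⟩
    rw [List.map_nil]
    exact List.Pairwise.nil
  | cons e l ih =>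
    rw [nuG, Bool.and_eq_true, Bool.and_eq_true, Bool.and_eq_true, Bool.and_eq_true] at h
    obtain ⟨⟨h1, h2, h3⟩, h4, h5⟩ := h
    obtain ⟨ih1, ih2⟩ := ih h5
    constructor
    · intro e' he'
      rw [List.map_cons, List.mem_cons] at he'
      rcases he' with h6 | h6
      · subst h6
        refine ⟨of_decide_eq_true h1, ?_, fun j hj => ?_⟩
        · intro h7
          simp only at h7
          rw [lnG_eq, lnG_eq] at h2
          have h8 : Ln W e.2.1 e.1 = Ln W e.2.2 e.1 := by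
            have := sub_eq_zero.mp h7
            exact_mod_cast this
          rw [h8, Nat.beq_refl] at h2
          exact Bool.noConfusion h2
        · exact nulG_spec hW R hl e.2.1 e.2.2 h3 j hj
      · exact ih1 e' h6
    · rw [List.map_cons, List.pairwise_cons]
      refine ⟨fun e' he' => ?_, ih2⟩
      rw [List.mem_map] at he'
      obtain ⟨e'', he'', rfl⟩ := he'
      rw [List.all_eq_true] at h4
      have h6 := Nat.eq_of_beq_eq_true (h4 e'' he'')
      rw [lnG_eq, lnG_eq] at h6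
      simp only
      rw [h6, sub_self]

theorem PD.psd {W of h : ℕ} (P : PD) (hW : 0 < W) (R : List ℕ) (hl : RwOK W of R)
    (hc : P.chk W of h R = true) (a : ℕ → ℝ) : 0 ≤ qf R.length (me W of R) a := by
  unfold PD.chk at hc
  rw [Bool.and_eq_true, Bool.and_eq_true, Bool.and_eq_true, Bool.and_eq_true, Bool.and_eq_true,
    Bool.and_eq_true, Bool.and_eq_true] at hc
  obtain ⟨h0, h1, h2, h3, h4, h5, h6, h7⟩ := hc
  obtain ⟨hh1, hh2⟩ := of_decide_eq_true h0
  unfold PD.num at h1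
  rw [Bool.and_eq_true, Bool.and_eq_true, Bool.and_eq_true] at h1
  obtain ⟨n1, n2, n3, n4⟩ := h1
  have n1 := of_decide_eq_true n1
  have n2 := of_decide_eq_true n2
  have n3 := of_decide_eq_true n3
  obtain ⟨n4, n5⟩ := of_decide_eq_true n4
  have hsym := symG_spec hW R h6
  obtain ⟨q1, q2⟩ := nuG_spec hW R hl P.nul h5
  have how : 2 * 2 ^ P.k < 2 ^ (2 * W) := by
    have : 2 * 2 ^ P.k = 2 ^ (P.k + 1) := by rw [pow_succ]; ring
    rw [this]
    exact Nat.pow_lt_pow_right (by norm_num) n4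
  -- the indicator
  have hind : ∀ j, Ln (2 * W) P.ind j ≤ 1 := by
    intro j
    have h8 := Nat.eq_of_beq_eq_true h3
    have h9 : Ln (2 * W) (P.ind &&& onG (2 * W) (2 * h)) j = Ln (2 * W) P.ind j := by
      have : P.ind &&& onG (2 * W) (2 * h) = P.ind := h8
      rw [this]
    have hon : Ln (2 * W) (onG (2 * W) (2 * h)) j = if j < 2 * h then 1 else 0 := by
      have := Ln_mul_onG (W := 2 * W) (by omega) 1 (Nat.one_lt_two_pow (by omega)) (2 * h) j
      rwa [one_mul] at this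
    rw [Ln_and, hon] at h9
    rw [← h9]
    refine le_trans Nat.and_le_right ?_
    split_ifs <;> omega
  refine qf_null R.length (me W of R) (fun i hi j hj => hsym i hi j hj) _ q1 q2 ?_ a
  intro a ha
  have hpiv : ∀ i, pvG P.nul i = true → a i = 0 := by
    intro i hi
    unfold pvG at hi
    rw [List.any_eq_true] at hi
    obtain ⟨e, he, h8⟩ := hi
    have h9 := Nat.eq_of_beq_eq_true h8
    have h10 := ha (e.1, fun i => ((Ln W e.2.1 i : ℕ) : ℤ) - (Ln W e.2.2 i : ℕ))
      (List.mem_map.mpr ⟨e, he, rfl⟩)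
    simp only at h10
    rw [← h9]
    exact h10
  -- the vector without the unused slots
  classical
  set F : Finset ℕ := (range (2 * h)).filter fun j =>
    Ln (2 * W) P.ind j = 1 ∧ sgi h j < R.length with hF
  have e1 : qf R.length (me W of R) a =
      qf R.length (me W of R) fun i => if i < R.length ∧ sgG h i ∈ F then a i else 0 := by
    apply qf_congr
    intro i hi
    left
    by_cases h9 : sgG h i ∈ F
    · rw [if_pos ⟨hi, h9⟩]
    · rw [if_neg fun h => h9 h.2]
      apply hpiv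
      have h10 := allR_spec _ R 0 h4 i hi
      rw [Nat.zero_add] at h10
      have h11 : Nat.beq (lnG (2 * W) P.ind (sgG h i)) 1 = false := by
        rw [Bool.eq_false_iff]
        intro h12
        apply h9
        rw [hF, Finset.mem_filter, Finset.mem_range]
        refine ⟨sgG_lt _ _ (by omega), ?_, ?_⟩
        · rw [← lnG_eq]
          exact Nat.eq_of_beq_eq_true h12
        · rw [sgi_sgG _ _ (by omega)]
          exact hi
      rw [h11] at h10
      exact h10
  have hzero : ∀ i, R.length ≤ i → (if i < R.length ∧ sgG h i ∈ F then a i else 0) = 0 := by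
    intro i hi
    rw [if_neg]
    intro h8
    omega
  rw [e1, ← qf_ext R.length (2 * h) hh1 _ _ hzero, ← qf_perm h]
  have hws : ∀ w ∈ P.ws.map (exW W h (2 ^ P.k)),
      Lz (2 * W) (2 * h + 1) (2 * 2 ^ P.k) w ((2 ^ P.k : ℕ) : ℤ)
        (fun j => ((Ln (2 * W) w j : ℕ) : ℤ) - ((2 ^ P.k : ℕ) : ℤ)) ∧
      Ln (2 * W) w (2 * h) = 2 ^ P.k := by
    intro w hw
    rw [List.mem_map] at hw
    obtain ⟨w0, hw0, rfl⟩ := hw
    rw [List.all_eq_true] at h2
    have h8 := wbG_spec hW n5 (h2 w0 hw0)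
    obtain ⟨h9, h10, _⟩ := exW_spec (h := h) (w := w0) hW how h8
    exact ⟨h9, h10⟩
  have hrow : ∀ i ∈ F, (∀ j < 2 * h, Ln (2 * W) P.ind j = 1 → i ≠ j →
      |(P.Dn : ℤ) * me W of R (sgi h i) (sgi h j) -
        ∑ k ∈ range (P.ws.map (exW W h (2 ^ P.k))).length,
          wv (2 * W) (2 ^ P.k) (P.ws.map (exW W h (2 ^ P.k))) k i *
          wv (2 * W) (2 ^ P.k) (P.ws.map (exW W h (2 ^ P.k))) k j| ≤ 2 ^ P.t) ∧
      ((2 * h : ℕ) : ℤ) * 2 ^ P.t ≤ (P.Dn : ℤ) *
        me W of R (sgi h i) (sgi h i) -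
        ∑ k ∈ range (P.ws.map (exW W h (2 ^ P.k))).length,
          wv (2 * W) (2 ^ P.k) (P.ws.map (exW W h (2 ^ P.k))) k i *
          wv (2 * W) (2 ^ P.k) (P.ws.map (exW W h (2 ^ P.k))) k i := by
    intro i hi
    rw [hF, Finset.mem_filter, Finset.mem_range] at hi
    obtain ⟨hi1, hi2, hi3⟩ := hi
    have h8 := allR_spec _ R 0 h7 (sgi h i) hi3
    rw [Nat.zero_add, sgG_sgi] at h8
    set r := R.getD (sgi h i) 0 with hr
    have hz := hl r (mem_getD hi3)
    have hcv : Lz (2 * W) (2 * h) (2 * of) (cvG W h r) of fun j =>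
        ((Ln (2 * W) (cvG W h r) j : ℕ) : ℤ) - of := by
      refine ⟨cvG_lt hW r, fun j _ => by ring, fun j hj => ?_⟩
      rw [cvG_lane' hW _ _ hj]
      have := sgi_lt h j hj
      exact hz.2.1 _ (by omega)
    have hmr : ∀ j, me W of R (sgi h i) j = ((Ln W r j : ℕ) : ℤ) - of := fun j => rfl
    obtain ⟨g1, g2⟩ := fchG_spec (W := 2 * W) (of := of) (ns := 2 * h) (Dn := P.Dn)
      (t := P.t) (ow := 2 ^ P.k) (ind := P.ind) (by omega)
      (P.ws.map (exW W h (2 ^ P.k))) hws (by rw [List.length_map]; exact n2) n3 how hind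
      i (cvG W h r) hi1 hcv h8 hi2
    constructor
    · intro j hj hj1 hij
      have g3 := g1 j hj hj1 hij
      rw [cvG_lane' hW _ _ hj] at g3
      rw [hmr]
      exact g3
    · rw [cvG_lane' hW _ _ hi1] at g2
      rw [hmr]
      exact g2
  refine qf_supp (2 * h) (fun i j => me W of R (sgi h i) (sgi h j)) F
    (Finset.filter_subset _ _) P.Dn (by exact_mod_cast n1) _
    (wv (2 * W) (2 ^ P.k) (P.ws.map (exW W h (2 ^ P.k)))) (2 ^ P.t) (by positivity)
    (fun i hi j hj hij => ?_) (fun i hi => (hrow i hi).2) _ ?_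
  · rw [hF, Finset.mem_filter, Finset.mem_range] at hj
    exact (hrow i hi).1 j hj.1 hj.2.1 hij
  · intro i hi hiF
    rw [sgG_sgi, if_neg fun h => hiF h.2]

end Pool.Agent.Lib.MP_afdd4d_co.K8
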