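import Pool.Agent.Lib.MP_afdd4d_co.K8.F6Inv
import Pool.Agent.Lib.MP_afdd4d_co.K8.F6Psd
import Pool.Agent.Lib.MP_afdd4d_co.K8.F6Blk

/-!
# The checks of all conditions
-/

namespace Pool.Agent.Lib.MP_afdd4d_co.K8

open Finset

/-- The expanded table of a function. -/
def exT (W w fo t : ℕ) : ℕ :=
  Nat.add (ctG W 0 (fun z => lnG w t z) 10 0) (Nat.shiftLeft fo (Nat.mul W 1024))

theorem exT_spec {W w fo t : ℕ} (hW : 0 < W) (hfo : 2 * fo < 2 ^ W)
    (ht : ∀ z < 1024, Ln w t z ≤ 2 * fo) :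
    exT W w fo t < 2 ^ (W * 1025) ∧ (∀ z < 1024, Ln W (exT W w fo t) z = Ln w t z) ∧
      Ln W (exT W w fo t) 1024 = fo := by
  have h1 := ctG_ar (W := W) (n := 0) hW 1024 (f := fun z => lnG w t z)
    (g := fun z _ => Ln w t z) (fun z hz => by
      rw [lnG_eq]
      exact Ar.ofLt (lt_of_le_of_lt (ht z hz) hfo)) 10 0 (by norm_num)
  rw [Nat.zero_add] at h1
  have hlt : ctG W 0 (fun z => lnG w t z) 10 0 < 2 ^ (W * 1024) := h1.lt
  have hl : ∀ z < 1024, Ln W (ctG W 0 (fun z => lnG w t z) 10 0) z = Ln w t z := by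
    intro z hz
    have h2 := h1.get z.testBit
    rw [idx_testBit 10 z hz] at h2
    rw [h2]
    congr 1
    rw [Nat.zero_add]
    have : (fun r => z.testBit (0 + r)) = z.testBit := by
      funext r
      rw [Nat.zero_add]
    rw [this, idx_testBit 10 z hz]
  have e1 : exT W w fo t = ctG W 0 (fun z => lnG w t z) 10 0 + fo <<< (W * 1024) := rfl
  have hall : ∀ z, Ln W (exT W w fo t) z = if z < 1024 then Ln w t z else
      if z = 1024 then fo else 0 := by
    intro z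
    rw [e1, Ln_cat _ _ _ _ _ hlt]
    by_cases hz : z < 1024
    · rw [if_pos hz, if_pos hz, hl z hz]
    · rw [if_neg hz, if_neg hz, Ln_small _ _ (by omega)]
      by_cases hz2 : z = 1024
      · rw [if_pos (by omega), if_pos hz2]
      · rw [if_neg (by omega), if_neg hz2]
  refine ⟨?_, fun z hz => by rw [hall, if_pos hz], by rw [hall, if_neg (by omega), if_pos rfl]⟩
  apply lt_of_Ln_eq_zero _ _ _ hW
  intro i hi
  rw [hall, if_neg (by omega), if_neg (by omega)]

/-- The rows of a list. -/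
def rwsG (l : List (ℕ × ℕ × ℕ)) : List ℕ :=
  @List.rec (ℕ × ℕ × ℕ) (fun _ => List ℕ) [] (fun e _ ih => e.2.2 :: ih) l

theorem rwsG_length (l : List (ℕ × ℕ × ℕ)) : (rwsG l).length = l.length := by
  induction l with
  | nil => rfl
  | cons e l ih =>
    have e1 : rwsG (e :: l) = e.2.2 :: rwsG l := rfl
    rw [e1, List.length_cons, ih, List.length_cons]

theorem rwsG_getD (l : List (ℕ × ℕ × ℕ)) : ∀ i, (rwsG l).getD i 0 = (l.getD i (0, 0, 0)).2.2 := by
  induction l with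
  | nil => intro i; rfl
  | cons e l ih =>
    intro i
    have e1 : rwsG (e :: l) = e.2.2 :: rwsG l := rfl
    rw [e1]
    cases i with
    | zero => rfl
    | succ i => exact ih i

namespace TF
variable (D : TF)

/-- The numerical conditions. -/
def numG : Bool := decide (3 ≤ D.W) && (decide (2 * D.of < 2 ^ D.W) &&
  (decide (2 * D.fo < 2 ^ D.W) && (decide (D.kv + 3 ≤ D.W) && decide (D.kb + 3 ≤ D.W))))

/-- The check of a list. -/
def tyG (a fa : ℕ) (l : List (ℕ × ℕ × ℕ)) : Bool :=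
  decide (D.of = 2 ^ a ∧ D.fo = 2 ^ fa ∧ a + 1 ≤ D.W ∧ fa + 1 ≤ D.w) &&
  (decide (l.length * (D.fo * D.of) ≤ 2 ^ (D.W - 2) ∧
    2 * (l.length * (2 ^ D.kv * D.fo)) < 2 ^ D.W) &&
  allA (fun _ e => Nat.blt e.2.2 (Nat.pow 2 (Nat.mul D.W (Nat.succ l.length))) &&
    (wbG D.W (Nat.succ l.length) a e.2.2 && (Nat.beq (lnG D.W e.2.2 l.length) D.of &&
    (Nat.blt e.1 (Nat.pow 2 (Nat.mul D.w 1024)) && (wbG D.w 1024 fa e.1 &&
      Nat.beq e.2.1 (exT D.W D.w D.fo e.1)))))) l 0)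

variable {D}

theorem numG_spec (h : D.numG = true) : D.NumOK := by
  unfold numG at h
  rw [Bool.and_eq_true, Bool.and_eq_true, Bool.and_eq_true, Bool.and_eq_true] at h
  obtain ⟨h1, h2, h3, h4, h5⟩ := h
  exact ⟨of_decide_eq_true h1, of_decide_eq_true h2, of_decide_eq_true h3, of_decide_eq_true h4,
    of_decide_eq_true h5⟩

theorem tyG_spec (hn : D.NumOK) {a fa : ℕ} {l : List (ℕ × ℕ × ℕ)} (h : D.tyG a fa l = true) :
    D.TyOK l ∧ ∀ e ∈ l, e.1 < 2 ^ (D.w * 1024) := by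
  unfold tyG at h
  rw [Bool.and_eq_true, Bool.and_eq_true] at h
  obtain ⟨h1, h2, h3⟩ := h
  obtain ⟨h4, h5, h6, h7⟩ := of_decide_eq_true h1
  obtain ⟨h8, h9⟩ := of_decide_eq_true h2
  have hW : 0 < D.W := by have := hn.hW; omega
  have key : ∀ e ∈ l, (e.2.2 < 2 ^ (D.W * (l.length + 1)) ∧ (∀ j < l.length + 1,
      Ln D.W e.2.2 j ≤ 2 * D.of) ∧ Ln D.W e.2.2 l.length = D.of) ∧
      e.1 < 2 ^ (D.w * 1024) ∧ (∀ z < 1024, Ln D.w e.1 z ≤ 2 * D.fo) ∧
      e.2.1 = exT D.W D.w D.fo e.1 := by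
    intro e he
    obtain ⟨k, hk, rfl⟩ := List.getElem_of_mem he
    have h10 := allA_spec (0, 0, 0) _ l 0 h3 k hk
    rw [List.getD_eq_getElem _ _ hk] at h10
    simp only [Bool.and_eq_true] at h10
    obtain ⟨b1, b2, b3, b4, b5, b6⟩ := h10
    rw [Nat.blt_eq] at b1 b4
    refine ⟨⟨b1, ?_, ?_⟩, b4, ?_, Nat.eq_of_beq_eq_true b6⟩
    · rw [h4]
      exact wbG_spec hW h6 b2
    · rw [← lnG_eq]
      exact Nat.eq_of_beq_eq_true b3
    · rw [h5]
      exact wbG_spec (by omega) h7 b5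
  refine ⟨⟨fun e he => (key e he).1, fun e he => (key e he).2.2.1, fun e he => ?_, h8, h9⟩,
    fun e he => (key e he).2.1⟩
  rw [(key e he).2.2.2]
  exact exT_spec hW hn.hfo (key e he).2.2.1

theorem tyOK_nil : D.TyOK [] :=
  ⟨fun e he => absurd he List.not_mem_nil, fun e he => absurd he List.not_mem_nil,
    fun e he => absurd he List.not_mem_nil, by simp, by simp⟩

theorem L_out (τ : ℕ) (h : D.tp.length ≤ τ) : D.L τ = [] := by
  unfold L
  rw [nthG_eq, List.getD_eq_default _ _ h]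

/-- The conditions on the rows. -/
theorem rowsOK_of (hn : D.numG = true) (a fa : ℕ) (h0 : D.L 0 = [])
    (ht : ∀ τ, 0 < τ → τ < D.tp.length → D.tyG a fa (D.L τ) = true)
    (hz : ∀ τ, 0 < τ → τ < D.tp.length → allN (D.okZ τ) 1024 = true) : D.RowsOK := by
  have hn' := numG_spec hn
  refine ⟨hn', fun τ => ?_, h0, fun τ h1 h2 z h3 => allN_spec _ _ (hz τ h1 h2) z h3⟩
  rcases Nat.eq_zero_or_pos τ with h1 | h1
  · rw [h1, h0]
    exact tyOK_nil
  · by_cases h2 : τ < D.tp.length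
    · exact (tyG_spec hn' (ht τ h1 h2)).1
    · rw [L_out τ (by omega)]
      exact tyOK_nil

variable (D)

/-- The check of the program of a pattern. -/
def prG (p : ℕ) : Bool :=
  @Nat.rec (fun _ => Bool) true (fun _ _ =>
    Nat.blt (Nat.mod (entG D.tab p) 256) D.tp.length && (okR (D.pr p) 10 &&
    (Nat.beq (ndG (D.pr p) 10) 10 &&
      allN (fun r => !(bG (syG (D.pr p) 10 r) 0) &&
        allN (fun k => bG (syG (D.pr p) 10 r) (k + 1) == bG (colG (entG D.tab p) k) r) 10) 10)))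
    (Nat.mod (entG D.tab p) 256)

variable {D}

theorem prG_spec (h : allN D.prG 1024 = true) : D.PrOK := by
  intro p hp h0
  have h1 := allN_spec _ _ h p hp
  have ety : D.fd.ty p = Nat.mod (entG D.tab p) 256 := rfl
  obtain ⟨t, ht⟩ : ∃ t, D.fd.ty p = t + 1 := ⟨D.fd.ty p - 1, by omega⟩
  have h2 : D.prG p = (Nat.blt (Nat.mod (entG D.tab p) 256) D.tp.length && (okR (D.pr p) 10 &&
    (Nat.beq (ndG (D.pr p) 10) 10 &&
      allN (fun r => !(bG (syG (D.pr p) 10 r) 0) &&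
        allN (fun k => bG (syG (D.pr p) 10 r) (k + 1) ==
          bG (colG (entG D.tab p) k) r) 10) 10))) := by
    have : D.prG p = @Nat.rec (fun _ => Bool) true (fun _ _ =>
      Nat.blt (Nat.mod (entG D.tab p) 256) D.tp.length && (okR (D.pr p) 10 &&
      (Nat.beq (ndG (D.pr p) 10) 10 &&
        allN (fun r => !(bG (syG (D.pr p) 10 r) 0) &&
          allN (fun k => bG (syG (D.pr p) 10 r) (k + 1) ==
            bG (colG (entG D.tab p) k) r) 10) 10))) (D.fd.ty p) := rfl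
    rw [this, ht]
  rw [h2, Bool.and_eq_true, Bool.and_eq_true, Bool.and_eq_true, Nat.blt_eq] at h1
  obtain ⟨h3, h4, h5, h6⟩ := h1
  refine ⟨h3, h4, Nat.eq_of_beq_eq_true h5, fun r hr => ?_⟩
  have h7 := allN_spec _ _ h6 r hr
  rw [Bool.and_eq_true, bG_eq, Bool.not_eq_true'] at h7
  refine ⟨h7.1, fun k hk => ?_⟩
  have h8 := eq_of_beq (allN_spec _ _ h7.2 k hk)
  rw [bG_eq, bG_eq] at h8
  exact h8

theorem me_eq (τ i j : ℕ) : me D.W D.of (rwsG (D.L τ)) i j = D.fd.m τ i j := by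
  unfold me
  rw [rwsG_getD]
  rfl

theorem rwOK_of {l : List (ℕ × ℕ × ℕ)} (h : D.TyOK l) : RwOK D.W D.of (rwsG l) := by
  intro r hr
  obtain ⟨k, hk, rfl⟩ := List.getElem_of_mem hr
  have e1 : (rwsG l)[k] = (l.getD k (0, 0, 0)).2.2 := by
    rw [← rwsG_getD, List.getD_eq_getElem _ _ hk]
  have hk2 : k < l.length := by rw [← rwsG_length]; exact hk
  have h1 := h.hr _ (getD_mem' l k (0, 0, 0) hk2)
  rw [e1, rwsG_length]
  exact h1

/-- Symmetry of the matrices. -/
theorem sym_of (hn : D.NumOK) (τ : ℕ) (h : symG D.W D.of (rwsG (D.L τ)) = true) :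
    ∀ i < (D.L τ).length, ∀ j < (D.L τ).length, D.fd.m τ i j = D.fd.m τ j i := by
  intro i hi j hj
  have hW : 0 < D.W := by have := hn.hW; omega
  have h1 := symG_spec hW _ h i (by rw [rwsG_length]; exact hi) j (by rw [rwsG_length]; exact hj)
  rw [me_eq, me_eq] at h1
  exact h1

theorem psdOK_of (h : D.RowsOK) (P : ℕ → PD) (hh : ℕ → ℕ)
    (hp : ∀ τ, 0 < τ → τ < D.tp.length → (P τ).chk D.W D.of (hh τ) (rwsG (D.L τ)) = true) :
    D.fd.PsdOK := by
  intro τ a
  have hW : 0 < D.W := by have := h.hn.hW; omega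
  have e1 : ∀ τ, D.fd.ns τ = (D.L τ).length := fun τ => rfl
  have h00 : D.L τ = [] → 0 ≤ ∑ i ∈ range (D.fd.ns τ), ∑ j ∈ range (D.fd.ns τ),
      (D.fd.m τ i j : ℝ) * (a i * a j) := by
    intro h1
    rw [e1, h1]
    simp
  rcases Nat.eq_zero_or_pos τ with h1 | h1
  · exact h00 (by rw [h1, h.h0])
  · by_cases h2 : τ < D.tp.length
    · have h3 := (P τ).psd hW _ (rwOK_of (h.ht τ)) (hp τ h1 h2) a
      rw [rwsG_length] at h3
      have e2 : qf (D.L τ).length (me D.W D.of (rwsG (D.L τ))) a =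
          ∑ i ∈ range (D.fd.ns τ), ∑ j ∈ range (D.fd.ns τ), (D.fd.m τ i j : ℝ) * (a i * a j) := by
        unfold qf
        rw [e1]
        refine Finset.sum_congr rfl fun i _ => Finset.sum_congr rfl fun j _ => ?_
        rw [me_eq]
      rw [← e2]
      exact h3
    · exact h00 (L_out τ (by omega))

/-- The links of a type. -/
theorem links_of (h : D.RowsOK) (hw : 0 < D.w) (hfw : 2 * D.fo < 2 ^ D.w) {a fa : ℕ} {τ : ℕ}
    (ht : D.tyG a fa (D.L τ) = true) (hs : symG D.W D.of (rwsG (D.L τ)) = true)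
    (ls : List LK) (hl : allA (fun _ L => Nat.beq L.ty τ && D.lkG L (D.L τ)) ls 0 = true) :
    ∀ L ∈ ls, L.ac.length = 10 ∧ D.fd.Good L.ty L.ty L.ab fun k => L.ac.getD k 0 := by
  intro L hL
  obtain ⟨k, hk, rfl⟩ := List.getElem_of_mem hL
  have h1 := allA_spec ⟨0, 0, [], [], 0, 0⟩ _ ls 0 hl k hk
  rw [List.getD_eq_getElem _ _ hk, Bool.and_eq_true] at h1
  obtain ⟨h2, h3⟩ := h1
  have h2' := Nat.eq_of_beq_eq_true h2
  obtain ⟨h4, h5⟩ := tyG_spec h.hn ht
  apply link_good ls[k] hw hfw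
  · rw [h2']; exact h4
  · rw [h2']; exact h5
  · rw [h2']; exact sym_of h.hn τ hs
  · rw [h2']; exact h3

end TF

namespace BD
variable (E : BD) (D : TF)

/-- The check of a column. -/
def bcG (e q : ℕ) : Bool :=
  allN (fun k => Nat.beq (colG (entG D.tab e) k)
    (Nat.xor (conG (entG D.tab q)) (xrG (entG D.tab q) (colG (entG E.tab e) k) 10))) 10

/-- The check of the program. -/
def bpG (p : ℕ) : Bool := okR (E.pr p) 8 && (Nat.beq (ndG (E.pr p) 8) 8 &&
  allN (fun r => !(bG (syG (E.pr p) 8 r) 0) && (!(bG (syG (E.pr p) 8 (4 + r)) 0) &&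
    allN (fun k => (bG (syG (E.pr p) 8 r) (k + 1) ==
        bG (colG (entG E.tab p) (6 + k)) (6 + r)) && (!(bG (syG (E.pr p) 8 r) (k + 5)) &&
      (!(bG (syG (E.pr p) 8 (4 + r)) (k + 1)) &&
        (bG (syG (E.pr p) 8 (4 + r)) (k + 5) ==
          bG (colG (entG E.tab p) (6 + k)) (6 + r))))) 4)) 4)

/-- The check of a pattern. -/
def bqG (p q : ℕ) : Bool :=
  Nat.beq (Nat.mod (entG D.tab p) 256) (Nat.mod (entG D.tab q) 256) &&
  (Nat.beq (conG (entG D.tab p)) (xrG (entG D.tab q) (conG (entG E.tab p)) 10) &&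
  (E.bcG D p q && (allN (fun k => Nat.beq (Nat.mod (colG (entG E.tab p) (6 + k)) 64) 0) 4 &&
    E.bpG p)))

/-- The check of a pattern. -/
def bkG (p : ℕ) : Bool :=
  @Nat.rec (fun _ => Bool) (Nat.beq (Nat.mod (entG D.tab p) 256) 0)
    (fun t _ => Nat.blt t E.qs.length && E.bqG D p (nthG 0 E.qs t)) (Nat.mod (entG E.tab p) 256)

theorem bkG_spec (hq : (E.qs.all fun q => decide (q < 1024)) = true)
    (h : allN (E.bkG D) 1024 = true) : E.OK D := by
  refine ⟨fun q hq' => ?_, fun p hp => ?_⟩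
  · rw [List.all_eq_true] at hq
    exact of_decide_eq_true (hq q hq')
  · have h1 := allN_spec _ _ h p hp
    constructor
    · intro h0
      have h2 : E.bkG D p = Nat.beq (Nat.mod (entG D.tab p) 256) 0 := by
        unfold bkG
        rw [h0]
        rfl
      rw [h2] at h1
      exact Nat.eq_of_beq_eq_true h1
    · intro t ht
      have h2 : E.bkG D p = (Nat.blt t E.qs.length && E.bqG D p (nthG 0 E.qs t)) := by
        unfold bkG
        rw [ht]
      rw [h2, Bool.and_eq_true, Nat.blt_eq, nthG_eq] at h1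
      obtain ⟨h3, h4⟩ := h1
      unfold bqG at h4
      rw [Bool.and_eq_true, Bool.and_eq_true, Bool.and_eq_true, Bool.and_eq_true] at h4
      obtain ⟨c1, c2, c3, c4, c5⟩ := h4
      unfold bpG at c5
      rw [Bool.and_eq_true, Bool.and_eq_true] at c5
      obtain ⟨c6, c7, c8⟩ := c5
      refine ⟨h3, Nat.eq_of_beq_eq_true c1, ?_, fun k hk => ?_, fun k hk => ?_, c6,
        Nat.eq_of_beq_eq_true c7, fun r hr => ?_⟩
      · have c2' := Nat.eq_of_beq_eq_true c2
        rw [xrG_app] at c2'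
        exact c2'
      · have c3' := Nat.eq_of_beq_eq_true (allN_spec _ _ c3 k hk)
        rw [xrG_app] at c3'
        have e1 : ∀ x y : ℕ, Nat.xor x (x ^^^ y) = y := by
          intro x y
          have : Nat.xor x (x ^^^ y) = x ^^^ (x ^^^ y) := rfl
          rw [this, ← Nat.xor_assoc, Nat.xor_self, Nat.zero_xor]
        rw [e1] at c3'
        exact c3'
      · exact Nat.eq_of_beq_eq_true (allN_spec _ _ c4 k hk)
      · have c9 := allN_spec _ _ c8 r hr
        rw [Bool.and_eq_true, Bool.and_eq_true, Bool.not_eq_true', Bool.not_eq_true', bG_eq,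
          bG_eq] at c9
        obtain ⟨d1, d2, d3⟩ := c9
        refine ⟨d1, d2, fun k hk => ?_⟩
        have d4 := allN_spec _ _ d3 k hk
        simp only [Bool.and_eq_true, Bool.not_eq_true', bG_eq, beq_iff_eq] at d4
        exact d4

end BD

end Pool.Agent.Lib.MP_afdd4d_co.K8
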