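import Pool.Agent.Lib.MP_afdd4d_co.K8.F6Lk2

/-!
# Products of automorphisms
-/

namespace Pool.Agent.Lib.MP_afdd4d_co.K8

open Finset

/-- An automorphism as the identity or as the product of a given automorphism with a further one. -/
structure AU where
  /-- type -/
  ty : ℕ
  /-- constant -/
  ab : ℕ
  /-- columns -/
  ac : List ℕ
  /-- number of the given automorphism -/
  i : ℕ
  /-- number of the further automorphism -/
  j : ℕ

/-- The identity. -/
def auI (x : AU) : Bool := decide (x.ab = 0 ∧ x.ac = [1, 2, 4, 8, 16, 32, 64, 128, 256, 512])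

/-- The product of `L` and `y`. -/
def auP (x y : AU) (L : LK) : Bool :=
  decide (x.ac.length = 10 ∧ L.ty = x.ty ∧ y.ty = x.ty ∧ x.ab = L.ab ^^^ selG L.ac y.ab 0) &&
    allN (fun k => Nat.beq (nthG 0 x.ac k) (selG L.ac (nthG 0 y.ac k) 0)) 10

/-- The check of a list. -/
def auG (ls : List LK) : List AU → Bool
  | [] => true
  | x :: l => (auI x || (decide (x.i < ls.length ∧ x.j < l.length) &&
      auP x (nthG ⟨0, 0, [], 0, 0⟩ l x.j) (nthG ⟨0, 0, [], [], 0, 0⟩ ls x.i))) && auG ls l

namespace TF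
variable {D : TF}

theorem auI_good {x : AU} (h : auI x = true) :
    x.ac.length = 10 ∧ D.fd.Good x.ty x.ty x.ab fun k => x.ac.getD k 0 := by
  obtain ⟨h1, h2⟩ := of_decide_eq_true h
  rw [h1, h2]
  exact idL_good x.ty

theorem auP_good {x y : AU} {L : LK} (h : auP x y L = true)
    (hL : L.ac.length = 10 ∧ D.fd.Good L.ty L.ty L.ab fun k => L.ac.getD k 0)
    (hy : y.ac.length = 10 ∧ D.fd.Good y.ty y.ty y.ab fun k => y.ac.getD k 0) :
    x.ac.length = 10 ∧ D.fd.Good x.ty x.ty x.ab fun k => x.ac.getD k 0 := by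
  unfold auP at h
  rw [Bool.and_eq_true] at h
  obtain ⟨h1, h2⟩ := h
  obtain ⟨h3, h4, h5, h6⟩ := of_decide_eq_true h1
  refine ⟨h3, ?_⟩
  have g1 := hy.2
  have g2 := hL.2
  rw [h5] at g1
  rw [h4] at g2
  refine g1.comp g2 ?_ fun k hk => ?_
  · rw [h6, selG_eq, Nat.zero_xor, hL.1]
    rfl
  · have h7 := Nat.eq_of_beq_eq_true (allN_spec _ _ h2 k hk)
    rw [nthG_eq, nthG_eq, selG_eq, Nat.zero_xor, hL.1] at h7
    exact h7

/-- The automorphisms of the list. -/
theorem auG_good {ls : List LK}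
    (hls : ∀ L ∈ ls, L.ac.length = 10 ∧ D.fd.Good L.ty L.ty L.ab fun k => L.ac.getD k 0)
    (l : List AU) (h : auG ls l = true) :
    ∀ x ∈ l, x.ac.length = 10 ∧ D.fd.Good x.ty x.ty x.ab fun k => x.ac.getD k 0 := by
  induction l with
  | nil => intro x hx; exact absurd hx List.not_mem_nil
  | cons a l ih =>
    rw [auG, Bool.and_eq_true, Bool.or_eq_true, Bool.and_eq_true] at h
    obtain ⟨h1, h2⟩ := h
    have ih' := ih h2
    intro x hx
    rcases List.mem_cons.mp hx with rfl | hx
    · rcases h1 with h1 | ⟨h3, h4⟩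
      · exact auI_good h1
      · obtain ⟨h5, h6⟩ := of_decide_eq_true h3
        refine auP_good h4 ?_ ?_
        · apply hls
          rw [nthG_eq, List.getD_eq_getElem _ _ h5]
          exact List.getElem_mem h5
        · apply ih'
          rw [nthG_eq, List.getD_eq_getElem _ _ h6]
          exact List.getElem_mem h6
    · exact ih' x hx

end TF

end Pool.Agent.Lib.MP_afdd4d_co.K8
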