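import Pool.Agent.Lib.MP_afdd4d_co.K8.F6Bl2
import Pool.Agent.Lib.MP_afdd4d_co.K8.F6All
import Pool.Agent.Lib.MP_afdd4d_co.K8.F6Aut

/-!
# The check of the entries
-/

namespace Pool.Agent.Lib.MP_afdd4d_co.K8

open Finset

namespace BE
variable (E : BE) (D : TF)

/-- The check of the columns of the entry `e` of a pattern with the entry `f` and a representative with
the entry `g`. -/
def bcG (e f g : ℕ) (ac : List ℕ) : Bool :=
  allN (fun k => Nat.beq (selG ac (colG f k) 0) (Nat.xor (conG g) (xrG g (colG e k) 10))) 10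

/-- The check of the program. -/
def bpG (e : ℕ) (l : List (ℕ × ℕ × ℕ)) : Bool := okR l 8 && (Nat.beq (ndG l 8) 8 &&
  allN (fun r => !(bG (syG l 8 r) 0) && (!(bG (syG l 8 (4 + r)) 0) &&
    allN (fun k => (bG (syG l 8 r) (k + 1) == bG (colG e (6 + k)) (6 + r)) &&
      (!(bG (syG l 8 r) (k + 5)) && (!(bG (syG l 8 (4 + r)) (k + 1)) &&
        (bG (syG l 8 (4 + r)) (k + 5) == bG (colG e (6 + k)) (6 + r))))) 4)) 4)

/-- The part of an entry with the affine map. -/
def afG (e : ℕ) : ℕ := Nat.land e (Nat.sub (Nat.pow 2 118) (Nat.pow 2 8))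

/-- The part of an entry with the affine map on the high bits. -/
def ahG (e : ℕ) : ℕ := Nat.land e (Nat.mul (Nat.mul 15 (Nat.pow 2 84)) (onG 10 4))

theorem testBit_msk (r : ℕ) : (2 ^ 118 - 2 ^ 8).testBit r = (decide (8 ≤ r) && decide (r < 118)) := by
  have e : 2 ^ 118 - 2 ^ 8 = (2 ^ 110 - 1) <<< 8 := by decide
  rw [e, Nat.testBit_shiftLeft, Nat.testBit_two_pow_sub_one]
  by_cases h : 8 ≤ r
  · have h2 : decide (r ≥ 8) = decide (8 ≤ r) := rfl
    rw [h2, decide_eq_true h, Bool.true_and, Bool.true_and]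
    congr 1
    apply propext
    omega
  · have h2 : decide (r ≥ 8) = decide (8 ≤ r) := rfl
    rw [h2, decide_eq_false h, Bool.false_and, Bool.false_and]

theorem afG_bit (e r : ℕ) (h1 : 8 ≤ r) (h2 : r < 118) : (afG e).testBit r = e.testBit r := by
  have e1 : afG e = e &&& (2 ^ 118 - 2 ^ 8) := rfl
  rw [e1, Nat.testBit_and, testBit_msk, decide_eq_true h1, decide_eq_true h2]
  simp

theorem conG_bit (e r : ℕ) : (conG e).testBit r = (decide (r < 10) && e.testBit (8 + r)) := by
  have e1 : conG e = (e >>> 8) % 2 ^ 10 := rfl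
  rw [e1, Nat.testBit_mod_two_pow, Nat.testBit_shiftRight]

theorem colG_bit (e k r : ℕ) : (colG e k).testBit r =
    (decide (r < 10) && e.testBit (18 + 10 * k + r)) := by
  have e1 : colG e k = (e >>> (18 + 10 * k)) % 2 ^ 10 := rfl
  rw [e1, Nat.testBit_mod_two_pow, Nat.testBit_shiftRight]

theorem conG_afG (e : ℕ) : conG (afG e) = conG e := by
  apply Nat.eq_of_testBit_eq
  intro r
  rw [conG_bit, conG_bit]
  by_cases h : r < 10
  · rw [afG_bit _ _ (by omega) (by omega)]
  · rw [decide_eq_false h, Bool.false_and, Bool.false_and]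

theorem colG_afG (e k : ℕ) (hk : k < 10) : colG (afG e) k = colG e k := by
  apply Nat.eq_of_testBit_eq
  intro r
  rw [colG_bit, colG_bit]
  by_cases h : r < 10
  · rw [afG_bit _ _ (by omega) (by omega)]
  · rw [decide_eq_false h, Bool.false_and, Bool.false_and]

theorem ahG_bits : ∀ k < 4, ∀ r < 4,
    ((15 * 2 ^ 84) * onG 10 4).testBit (18 + 10 * (6 + k) + (6 + r)) = true := by decide +kernel

theorem ahG_bit (e k r : ℕ) (hk : k < 4) (hr : r < 4) :
    (colG (ahG e) (6 + k)).testBit (6 + r) = (colG e (6 + k)).testBit (6 + r) := by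
  have e1 : ahG e = e &&& ((15 * 2 ^ 84) * onG 10 4) := rfl
  rw [colG_bit, colG_bit, e1, Nat.testBit_and, ahG_bits k hk r hr, Bool.and_true]

/-- The check of the columns with the parts evaluated first. -/
def bcF (e f g : ℕ) (ac : List ℕ) : Bool := frG (afG e) fun c => bcG c f g ac

/-- The check of the program with the parts evaluated first. -/
def bpF (e i : ℕ) : Bool := frG (ahG e) fun c => frG i fun i => bpG c (nthG [] E.prg i)

theorem bcF_eq (e f g : ℕ) (ac : List ℕ) : bcF e f g ac = bcG e f g ac := by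
  unfold bcF bcG allN
  rw [frG_eq]
  have key : ∀ n ≤ 10, (@Nat.rec (fun _ => Bool) true (fun k ih => @Bool.rec (fun _ => Bool) false ih
      (Nat.beq (selG ac (colG f k) 0) (Nat.xor (conG g) (xrG g (colG (afG e) k) 10)))) n) =
      (@Nat.rec (fun _ => Bool) true (fun k ih => @Bool.rec (fun _ => Bool) false ih
      (Nat.beq (selG ac (colG f k) 0) (Nat.xor (conG g) (xrG g (colG e k) 10)))) n) := by
    intro n
    induction n with
    | zero => intro _; rfl
    | succ n ih =>
      intro hn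
      have h1 := ih (by omega)
      have h2 := colG_afG e n (by omega)
      simp only at h1 ⊢
      rw [h1, h2]
  exact key 10 le_rfl

/-- The check of an entry. -/
def bqG (e f g x0 z i : ℕ) (x : AU) : Bool :=
  Nat.beq (Nat.mod f 256) (Nat.mod g 256) && (Nat.beq (Nat.mod f 256) x.ty &&
  (Nat.beq (Nat.xor x.ab (selG x.ac (conG f) 0)) (xrG g (conG e) 10) &&
  (bcF e f g x.ac && (allN (fun k => Nat.beq (Nat.mod (colG e (6 + k)) 64) 0) 4 &&
    (Nat.beq (Nat.mod (xrG e x0 6) 64) z && E.bpF e i)))))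

/-- The check of an entry. -/
def beG (al : List AU) (A : List ℕ) (x0 p : ℕ) : Bool :=
  @Nat.rec (fun _ => Bool) (Nat.beq (Nat.mod (entG D.tab p) 256) 0)
    (fun t _ => Nat.blt t E.qs.length && frG (lnG 16 (nthG 0 A x0) p) fun i =>
      Nat.blt i al.length && frG (nthG (0, 0) E.qs t).1 fun q =>
      E.bqG (E.en p x0) (entG D.tab p) (entG D.tab q) x0
        (nthG (0, 0) E.qs t).2 (Nat.shiftRight (E.en p x0) 118) (nthG ⟨0, 0, [], 0, 0⟩ al i))
    (Nat.mod (E.en p x0) 256)

theorem beG_spec (al : List AU) (A : List ℕ)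
    (hal : ∀ x ∈ al, x.ac.length = 10 ∧ D.fd.Good x.ty x.ty x.ab fun k => x.ac.getD k 0)
    (hq : (E.qs.all fun q => decide (q.1 < 1024)) = true)
    (h : ∀ x0 < 64, allN (E.beG D al A x0) 1024 = true) : E.OK D := by
  refine ⟨fun q hq' => ?_, fun p hp x0 hx => ?_⟩
  · rw [List.all_eq_true] at hq
    exact of_decide_eq_true (hq q hq')
  · have h1 := allN_spec _ _ (h x0 hx) p hp
    constructor
    · intro h0
      have h2 : E.beG D al A x0 p = Nat.beq (Nat.mod (entG D.tab p) 256) 0 := by
        unfold beG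
        rw [h0]
        rfl
      rw [h2] at h1
      exact Nat.eq_of_beq_eq_true h1
    · intro t ht
      have h2 : E.beG D al A x0 p = (Nat.blt t E.qs.length &&
          (Nat.blt (lnG 16 (nthG 0 A x0) p) al.length &&
          E.bqG (E.en p x0) (entG D.tab p) (entG D.tab (nthG (0, 0) E.qs t).1) x0
            (nthG (0, 0) E.qs t).2 (Nat.shiftRight (E.en p x0) 118)
            (nthG ⟨0, 0, [], 0, 0⟩ al (lnG 16 (nthG 0 A x0) p)))) := by
        unfold beG
        rw [ht]
        simp only [frG_eq]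
      rw [h2, Bool.and_eq_true, Bool.and_eq_true, Nat.blt_eq, Nat.blt_eq] at h1
      obtain ⟨h3, h3', h4⟩ := h1
      set x := nthG ⟨0, 0, [], 0, 0⟩ al (lnG 16 (nthG 0 A x0) p) with hx'
      have hxm : x ∈ al := by
        rw [hx', nthG_eq, List.getD_eq_getElem _ _ h3']
        exact List.getElem_mem h3'
      obtain ⟨hl, hg⟩ := hal x hxm
      rw [nthG_eq] at h4
      unfold bqG at h4
      rw [Bool.and_eq_true, Bool.and_eq_true, Bool.and_eq_true, Bool.and_eq_true,
        Bool.and_eq_true, Bool.and_eq_true] at h4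
      obtain ⟨c1, c1', c2, c3, c4, c4', c5⟩ := h4
      unfold bpF at c5
      rw [frG_eq, frG_eq] at c5
      have c5' : bpG (ahG (E.en p x0)) (E.pr p x0) = true := c5
      unfold bpG at c5'
      rw [Bool.and_eq_true, Bool.and_eq_true] at c5'
      obtain ⟨c6, c7, c8⟩ := c5'
      rw [bcF_eq] at c3
      have hty : D.fd.ty p = x.ty := Nat.eq_of_beq_eq_true c1'
      refine ⟨h3, Nat.eq_of_beq_eq_true c1, ⟨x.ab, fun k => x.ac.getD k 0, ?_, ?_, fun k hk => ?_⟩,
        fun k hk => ?_, Nat.eq_of_beq_eq_true c4', c6, Nat.eq_of_beq_eq_true c7, fun r hr => ?_⟩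
      · rw [hty]
        exact hg
      · have c2' := Nat.eq_of_beq_eq_true c2
        rw [xrG_app, selG_app _ hl] at c2'
        exact c2'.symm
      · have c3' := Nat.eq_of_beq_eq_true (allN_spec _ _ c3 k hk)
        rw [xrG_app, selG_app _ hl] at c3'
        have e1 : ∀ x y : ℕ, Nat.xor x (x ^^^ y) = y := by
          intro x y
          have : Nat.xor x (x ^^^ y) = x ^^^ (x ^^^ y) := rfl
          rw [this, ← Nat.xor_assoc, Nat.xor_self, Nat.zero_xor]
        rw [e1] at c3'
        exact c3'.symm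
      · exact Nat.eq_of_beq_eq_true (allN_spec _ _ c4 k hk)
      · have c9 := allN_spec _ _ c8 r hr
        rw [Bool.and_eq_true, Bool.and_eq_true, Bool.not_eq_true', Bool.not_eq_true', bG_eq,
          bG_eq] at c9
        obtain ⟨d1, d2, d3⟩ := c9
        refine ⟨d1, d2, fun k hk => ?_⟩
        have d4 := allN_spec _ _ d3 k hk
        simp only [Bool.and_eq_true, Bool.not_eq_true', bG_eq, beq_iff_eq,
          ahG_bit (E.en p x0) k r hk hr] at d4
        exact d4

/-- The blocks from stored tables. -/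
def tbG (T : List (List ℕ)) (t : ℕ) : ℕ := nthG 0 (nthG [] T (Nat.div t 16)) (Nat.mod t 16)

/-- Equality of the tables in a list with given values. -/
theorem tbG_of (T : List (List ℕ)) (n : ℕ) (f : ℕ → ℕ) (h : ∀ i, 16 * i < n → ∀ j < 16,
    16 * i + j < n → ((T.getD i []).getD j 0) = f (16 * i + j)) : ∀ t < n, tbG T t = f t := by
  intro t ht
  unfold tbG
  rw [nthG_eq, nthG_eq]
  have e1 : Nat.div t 16 = t / 16 := rfl
  have e2 : Nat.mod t 16 = t % 16 := rfl
  have h1 := h (t / 16) (by omega) (t % 16) (by omega) (by omega)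
  rw [e1, e2, h1]
  congr 1
  omega

end BE

end Pool.Agent.Lib.MP_afdd4d_co.K8
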