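import Pool.Agent.Lib.MP_afdd4d_co.K8.F6Bl3

/-!
# Blocks from stored slices
-/

namespace Pool.Agent.Lib.MP_afdd4d_co.K8

/-- Eight slices of a chunk. -/
def slI (W A b : ℕ) : ℕ → List ℕ :=
  @Nat.rec (fun _ => List ℕ) [] (fun k ih => slG W 8 A (Nat.add b (Nat.sub 7 k)) :: ih)

/-- The slices of a chunk, in lists of eight. -/
def slO (W A : ℕ) : ℕ → List (List ℕ) :=
  @Nat.rec (fun _ => List (List ℕ)) [] (fun k ih => slI W A (Nat.mul 8 (Nat.sub 7 k)) 8 :: ih)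

theorem slO_get (W A z1 z0 : ℕ) (h1 : z1 < 8) (h0 : z0 < 8) :
    nthG 0 (nthG [] (slO W A 8) z1) z0 = slG W 8 A (8 * z1 + z0) := by
  rw [nthG_eq, nthG_eq]
  interval_cases z1 <;> interval_cases z0 <;> rfl

namespace BE
variable (E : BE)

/-- The block. -/
def blkH (W B : ℕ) (tb : ℕ → ℕ → ℕ) (p x0 y0 : ℕ) : ℕ :=
  @Nat.rec (fun _ => ℕ) (csG W B 8)
    (fun t _ => ruG W (E.pr p x0) 8 (xkG W 8
      (Nat.add (Nat.div (xrG (E.en p x0) x0 6) 64)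
        (Nat.mul 16 (Nat.div (xrG (E.en p x0) y0 6) 64))) 8
      (tb t (Nat.mod (xrG (E.en p x0) y0 6) 64))))
    (Nat.mod (E.en p x0) 256)

variable {E}

theorem blkH_eq {D : TF} (hE : E.OK D) (tb : ℕ → ℕ → ℕ)
    (ht : ∀ t < E.qs.length, ∀ z < 64, tb t z =
      slG D.W 8 (D.chG (E.qs.getD t (0, 0)).1 (E.qs.getD t (0, 0)).2) z)
    (p x0 y0 : ℕ) (hp1 : p < 1024) (hx : x0 < 64) :
    E.blkH D.W D.B tb p x0 y0 =
      E.blkG D.W D.B (fun t => D.chG (E.qs.getD t (0, 0)).1 (E.qs.getD t (0, 0)).2) p x0 y0 := by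
  obtain ⟨hE0, hE1⟩ := hE.2 p hp1 x0 hx
  unfold blkH blkG
  rcases Nat.eq_zero_or_pos (Nat.mod (E.en p x0) 256) with h0 | h0
  · rw [h0]
    rfl
  · obtain ⟨t, ht1⟩ : ∃ t, Nat.mod (E.en p x0) 256 = t + 1 :=
      ⟨Nat.mod (E.en p x0) 256 - 1, by omega⟩
    have htl := (hE1 t ht1).hl
    rw [ht1]
    show ruG D.W (E.pr p x0) 8 (xkG D.W 8 _ 8 (tb t _)) = ruG D.W (E.pr p x0) 8 (xkG D.W 8 _ 8 _)
    rw [ht t htl (Nat.mod (xrG (E.en p x0) y0 6) 64) (Nat.mod_lt _ (by norm_num))]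

/-- The blocks. -/
theorem blkH_ar {D : TF} (h : D.RowsOK) (hp : D.PrOK) (hE : E.OK D) (tb : ℕ → ℕ → ℕ)
    (ht : ∀ t < E.qs.length, ∀ z < 64, tb t z =
      slG D.W 8 (D.chG (E.qs.getD t (0, 0)).1 (E.qs.getD t (0, 0)).2) z)
    (p x0 y0 : ℕ) (hp1 : p < 1024) (hx : x0 < 64) (hy : y0 < 64) :
    Ar D.W 8 (E.blkH D.W D.B tb p x0 y0) fun b => ((D.B : ℤ) +
      D.fd.g6 (p + 1024 * (x0 + 64 * idx 4 b))
        (p + 1024 * (y0 + 64 * idx 4 fun r => b (4 + r)))).toNat := by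
  rw [blkH_eq hE tb ht p x0 y0 hp1 hx]
  exact E.blkG_ar h hp hE _ (fun _ _ => rfl) p x0 y0 hp1 hx hy

/-- A slice of a stored chunk. -/
def tbH (T : List (List (List (List ℕ)))) (t z : ℕ) : ℕ :=
  nthG 0 (nthG [] (nthG [] (nthG [] T (Nat.div t 16)) (Nat.mod t 16)) (Nat.div z 8)) (Nat.mod z 8)

theorem tbH_of (T : List (List (List (List ℕ)))) (n W : ℕ) (f : ℕ → ℕ) (h : ∀ i, 16 * i < n →
    ∀ j < 16, 16 * i + j < n → ((T.getD i []).getD j []) = slO W (f (16 * i + j)) 8) :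
    ∀ t < n, ∀ z < 64, tbH T t z = slG W 8 (f t) z := by
  intro t ht z hz
  unfold tbH
  rw [nthG_eq [] T, nthG_eq [] (T.getD _ _)]
  have e1 : Nat.div t 16 = t / 16 := rfl
  have e2 : Nat.mod t 16 = t % 16 := rfl
  have e3 : Nat.div z 8 = z / 8 := rfl
  have e4 : Nat.mod z 8 = z % 8 := rfl
  have h1 := h (t / 16) (by omega) (t % 16) (by omega) (by omega)
  rw [e1, e2, e3, e4, h1, slO_get W _ _ _ (by omega) (by omega)]
  congr 1
  · congr 1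
    omega
  · omega

end BE

end Pool.Agent.Lib.MP_afdd4d_co.K8
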