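import Pool.Agent.Lib.MP_afdd4d_co.K8.F6Con

/-!
# Signed combinations of arrays
-/

namespace Pool.Agent.Lib.MP_afdd4d_co.K8

open Finset

/-- Addition of the multiples of the arrays `ar e` with the factors `s k e - oc`; for negative factors
the array is subtracted from `CC`. -/
def cmbG {α : Type} (CC oc : ℕ) (s : ℕ → α → ℕ) (ar : α → ℕ) (l : List α) : ℕ → ℕ → ℕ :=
  @List.rec α (fun _ => ℕ → ℕ → ℕ) (fun _ a => a)
    (fun e _ ih k a => ih (Nat.succ k) (@Bool.rec (fun _ => ℕ)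
      (Nat.add a (Nat.mul (Nat.sub oc (s k e)) (Nat.sub CC (ar e))))
      (Nat.add a (Nat.mul (Nat.sub (s k e) oc) (ar e))) (Nat.ble oc (s k e)))) l

theorem cmbG_lz {α : Type} {W N oa Sb : ℕ} (hW : 0 < W) {CC : ℕ}
    (hC : Lz W N (2 * oa) CC (2 * oa) fun _ => 0)
    (oc : ℕ) (s : ℕ → α → ℕ) (ar : α → ℕ) (d : α) (l : List α) :
    ∀ (k0 : ℕ)
      (_ : ∀ e ∈ l, Lz W N (2 * oa) (ar e) oa fun j => ((Ln W (ar e) j : ℕ) : ℤ) - oa)
      (_ : ∀ k < l.length, |((s (k0 + k) (l.getD k d) : ℕ) : ℤ) - oc| ≤ Sb)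
      (a U : ℕ) (o : ℤ) (f : ℕ → ℤ),
      Lz W N U a o f → U + l.length * (2 * oa * Sb) < 2 ^ W →
      ∃ X : ℕ, X ≤ l.length * (Sb * oa) ∧
      Lz W N (U + 2 * X) (cmbG CC oc s ar l k0 a) (o + X) fun j =>
        f j + ∑ k ∈ range l.length, (((s (k0 + k) (l.getD k d) : ℕ) : ℤ) - oc) *
          (((Ln W (ar (l.getD k d)) j : ℕ) : ℤ) - oa) := by
  induction l with
  | nil =>
    intro k0 _ _ a U o f ha _
    refine ⟨0, by simp, ?_⟩
    refine (ha.mono (by simp)).congr (by simp) fun j _ => by simp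
  | cons e l ih =>
    intro k0 hl hs a U o f ha hU
    have hw := hl e List.mem_cons_self
    rw [List.length_cons] at hU
    set c := s k0 e with hc
    have hcb : |((c : ℕ) : ℤ) - oc| ≤ Sb := by
      have := hs 0 (by simp)
      simpa using this
    have h2 : (l.length + 1) * (2 * oa * Sb) = l.length * (2 * oa * Sb) + 2 * oa * Sb := by ring
    rw [h2] at hU
    -- one step
    have hstep : ∃ X1 : ℕ, X1 ≤ Sb * oa ∧ Lz W N (U + 2 * X1) (@Bool.rec (fun _ => ℕ)
        (Nat.add a (Nat.mul (Nat.sub oc c) (Nat.sub CC (ar e))))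
        (Nat.add a (Nat.mul (Nat.sub c oc) (ar e))) (Nat.ble oc c)) (o + X1)
        fun j => f j + ((c : ℤ) - oc) * (((Ln W (ar e) j : ℕ) : ℤ) - oa) := by
      by_cases h1 : oc ≤ c
      · have e1 : Nat.ble oc c = true := Nat.ble_eq ▸ h1
        rw [e1]
        have h5 : c - oc ≤ Sb := by
          rw [← Nat.cast_sub h1, Nat.abs_cast] at hcb
          exact_mod_cast hcb
        refine ⟨(c - oc) * oa, Nat.mul_le_mul_right _ h5, ?_⟩
        have h3 : (c - oc) * (2 * oa) ≤ 2 * oa * Sb := by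
          have : (c - oc) * (2 * oa) ≤ Sb * (2 * oa) := Nat.mul_le_mul_right _ h5
          nlinarith
        have h4 := ha.add (hw.smul (c - oc) hW (by omega)) hW (by omega)
        refine (h4.mono ?_).congr ?_ fun j _ => ?_
        · nlinarith
        · push_cast
          ring
        · rw [Nat.cast_sub h1]
      · have e1 : Nat.ble oc c = false := by
          rw [Bool.eq_false_iff]
          intro h3
          exact h1 (Nat.ble_eq ▸ h3)
        rw [e1]
        have h5 : oc - c ≤ Sb := by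
          rw [abs_sub_comm, ← Nat.cast_sub (by omega : c ≤ oc), Nat.abs_cast] at hcb
          exact_mod_cast hcb
        refine ⟨(oc - c) * oa, Nat.mul_le_mul_right _ h5, ?_⟩
        have h3 : (oc - c) * (2 * oa) ≤ 2 * oa * Sb := by
          have : (oc - c) * (2 * oa) ≤ Sb * (2 * oa) := Nat.mul_le_mul_right _ h5
          nlinarith
        have hcw := hC.sub hw hW (by
          intro j hj
          have h5 := hC.get j hj
          have h6 := hw.bd j hj
          have h7 : ((Ln W CC j : ℕ) : ℤ) = ((2 * oa : ℕ) : ℤ) := by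
            rw [h5]
            push_cast
            ring
          have h8 : Ln W CC j = 2 * oa := by exact_mod_cast h7
          omega)
        have h4 := ha.add (hcw.smul (oc - c) hW (by omega)) hW (by omega)
        refine (h4.mono ?_).congr ?_ fun j _ => ?_
        · nlinarith
        · push_cast
          ring
        · rw [Nat.cast_sub (by omega)]
          ring
    obtain ⟨X1, hX1, h3⟩ := hstep
    have hs' : ∀ k < l.length, |((s (Nat.succ k0 + k) (l.getD k d) : ℕ) : ℤ) - oc| ≤ Sb := by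
      intro k hk
      have h5 := hs (k + 1) (by simpa using hk)
      have e2 : k0 + (k + 1) = Nat.succ k0 + k := by rw [Nat.succ_eq_add_one]; ring
      rw [e2] at h5
      exact h5
    obtain ⟨X2, hX2, h4⟩ := ih (Nat.succ k0) (fun w hw => hl w (List.mem_cons_of_mem _ hw)) hs'
      _ _ _ _ h3 (by nlinarith)
    refine ⟨X1 + X2, ?_, ?_⟩
    · rw [List.length_cons]
      nlinarith
    · have e1 : cmbG CC oc s ar (e :: l) k0 a = cmbG CC oc s ar l (Nat.succ k0)
          (@Bool.rec (fun _ => ℕ)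
          (Nat.add a (Nat.mul (Nat.sub oc c) (Nat.sub CC (ar e))))
          (Nat.add a (Nat.mul (Nat.sub c oc) (ar e))) (Nat.ble oc c)) := rfl
      rw [e1]
      refine (h4.mono (by omega)).congr ?_ fun j _ => ?_
      · push_cast
        ring
      · rw [List.length_cons, sum_range_cons]
        have e2 : ∀ k, s (k0 + (k + 1)) ((e :: l).getD (k + 1) d) =
            s (Nat.succ k0 + k) (l.getD k d) := by
          intro k
          have : k0 + (k + 1) = Nat.succ k0 + k := by rw [Nat.succ_eq_add_one]; ring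
          rw [this]
          rfl
        have e3 : ∀ k, (e :: l).getD (k + 1) d = l.getD k d := fun k => rfl
        have e4 : (e :: l).getD 0 d = e := rfl
        simp_rw [e2, e3]
        rw [e4, Nat.add_zero, ← hc]
        ring

/-! ### Change of the offset and bounds -/

/-- The array with the offset `H` instead of `X`. -/
def rcG (W N H q X : ℕ) : ℕ :=
  Nat.sub (Nat.add (Nat.mod q (Nat.pow 2 (Nat.mul W N))) (Nat.mul H (onG W N)))
    (Nat.mul X (onG W N))

theorem rcG_lz {W N N' H q X : ℕ} {f : ℕ → ℤ} (hW : 0 < W) (hN : N ≤ N')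
    (hq : Lz W N' (2 * X) q X f) (hX : X ≤ H) (hb : 2 * X + H < 2 ^ W) :
    Lz W N (2 * X + H) (rcG W N H q X) H f := by
  have h1 := hq.mod hN
  have h2 := con_lz hW H (by omega) N
  have h3 := h1.add h2 hW hb
  have h4 := con_lz hW X (by omega) N
  have h5 := h3.sub h4 hW (by
    intro j hj
    have e1 := h4.get j hj
    have e2 := h3.get j hj
    have e3 := h1.get j hj
    have e4 : (0 : ℤ) ≤ ((Ln W (q % 2 ^ (W * N)) j : ℕ) : ℤ) := Int.natCast_nonneg _
    have e5 : (X : ℤ) ≤ H := by exact_mod_cast hX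
    have e6 : ((Ln W (Nat.mul X (onG W N)) j : ℕ) : ℤ) ≤
        ((Ln W (q % 2 ^ (W * N) + Nat.mul H (onG W N)) j : ℕ) : ℤ) := by
      rw [e1, e2]
      linarith
    exact_mod_cast e6)
  refine h5.congr (by ring) fun j _ => by ring

/-- The values of the array with the offset `H` are bounded by `2 ^ t`. -/
def inbG (W N t H Y : ℕ) : Bool :=
  Nat.beq (Nat.land (Nat.add Y (Nat.mul (Nat.pow 2 t) (onG W N)))
    (Nat.mul (Nat.sub (Nat.pow 2 W) (Nat.pow 2 (Nat.succ t))) (onG W N))) (Nat.mul H (onG W N))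

theorem inbG_spec {W N t H Y U : ℕ} {f : ℕ → ℤ} (hW : 0 < W) (ht : t + 1 ≤ W) (hH : H < 2 ^ W)
    (hY : Lz W N U Y H f) (hU : U + 2 ^ t < 2 ^ W) (h : inbG W N t H Y = true) :
    ∀ j < N, |f j| ≤ 2 ^ t := by
  intro j hj
  have h1 : (Y + Nat.mul (2 ^ t) (onG W N)) &&& ((2 ^ W - 2 ^ (t + 1)) * onG W N) =
    H * onG W N := Nat.eq_of_beq_eq_true h
  have ht2 : (2 : ℕ) ^ t < 2 ^ W := by omega
  have h2 := (hY.add (con_lz hW (2 ^ t) ht2 N) hW hU).get j hj
  have h3 : Ln W ((Y + Nat.mul (2 ^ t) (onG W N)) &&& ((2 ^ W - 2 ^ (t + 1)) * onG W N)) j =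
      Ln W (H * onG W N) j := by rw [h1]
  have h4 := Nat.two_pow_pos (t + 1)
  have h5 := Nat.two_pow_pos W
  rw [Ln_and, Ln_mul_onG hW _ (by omega), if_pos hj, Ln_mul_onG hW H hH, if_pos hj,
    and_high W (t + 1) _ ht (Ln_lt _ _ _)] at h3
  set y := Ln W (Y + Nat.mul (2 ^ t) (onG W N)) j with hy
  have hylt : y % 2 ^ (t + 1) < 2 ^ (t + 1) := Nat.mod_lt _ (Nat.two_pow_pos _)
  have hyle : y % 2 ^ (t + 1) ≤ y := Nat.mod_le _ _
  have e4 : y = H + y % 2 ^ (t + 1) := by omega
  have e6 : (y : ℤ) = H + ((y % 2 ^ (t + 1) : ℕ) : ℤ) := by exact_mod_cast e4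
  have e7 : ((y % 2 ^ (t + 1) : ℕ) : ℤ) < 2 * 2 ^ t := by
    have h9 : ((y % 2 ^ (t + 1) : ℕ) : ℤ) < ((2 ^ (t + 1) : ℕ) : ℤ) := by exact_mod_cast hylt
    have h10 : ((2 ^ (t + 1) : ℕ) : ℤ) = 2 * 2 ^ t := by
      push_cast
      ring
    rw [h10] at h9
    exact h9
  have e8 : (0 : ℤ) ≤ ((y % 2 ^ (t + 1) : ℕ) : ℤ) := Int.natCast_nonneg _
  push_cast at h2
  rw [abs_le]
  constructor <;> linarith

end Pool.Agent.Lib.MP_afdd4d_co.K8
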