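import Pool.Agent.Lib.MP_afdd4d_co.K8.F6Pdp

/-!
# The check of the symmetry for diagonal matrices
-/

namespace Pool.Agent.Lib.MP_afdd4d_co.K8

open Finset

theorem allR_of (chk : ℕ → ℕ → Bool) (l : List ℕ) : ∀ i,
    (∀ k < l.length, chk (i + k) (l.getD k 0) = true) → allR chk l i = true := by
  induction l with
  | nil => intro i _; rfl
  | cons r l ih =>
    intro i h
    have e1 : allR chk (r :: l) i = @Bool.rec (fun _ => Bool) false
      (allR chk l (Nat.succ i)) (chk i r) := rfl
    rw [e1, bool_rec_and, Bool.and_eq_true]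
    refine ⟨?_, ih (Nat.succ i) fun k hk => ?_⟩
    · have h1 := h 0 (by simp)
      simpa using h1
    · have h1 := h (k + 1) (by simpa using hk)
      have e2 : i + (k + 1) = Nat.succ i + k := by
        rw [Nat.succ_eq_add_one]
        ring
      rw [e2, List.getD_cons_succ] at h1
      exact h1

/-- The check of the rows of a diagonal matrix; `C` contains the offsets. -/
def dg6G (W of C : ℕ) (R : List ℕ) : Bool :=
  @Bool.rec (fun _ => Bool) false
    (allR (fun j r => Nat.beq r (Nat.add C (Nat.shiftLeft (Nat.sub (lnG W r j) of) (Nat.mul W j)))) R 0)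
    (Nat.beq C (Nat.mul of (onG W (Nat.succ R.length))))

theorem sum_ite_shl {W : ℕ} (hW : 0 < W) (of d j : ℕ) : ∀ n : ℕ,
    (∑ i ∈ range n, (if i = j then of + d else of) <<< (W * i)) =
      of * onG W n + (if j < n then d <<< (W * j) else 0) := by
  intro n
  induction n with
  | zero => simp [onG_zero]
  | succ n ih =>
    rw [Finset.sum_range_succ, ih, onG_succ hW, Nat.shiftLeft_eq, Nat.shiftLeft_eq]
    by_cases h1 : n = j
    · rw [if_pos h1, if_neg (by omega), if_pos (by omega), ← h1]
      ring
    · rw [if_neg h1]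
      by_cases h2 : j < n
      · rw [if_pos h2, if_pos (by omega)]
        ring
      · rw [if_neg h2, if_neg (by omega)]
        ring

theorem symG_of_dg6G {W of C : ℕ} (hW : 0 < W) (hof : of < 2 ^ W) (R : List ℕ)
    (h : dg6G W of C R = true) : symG W of R = true := by
  unfold dg6G at h
  rw [bool_rec_and, Bool.and_eq_true] at h
  obtain ⟨hC, hr⟩ := h
  have hC' : C = of * onG W (R.length + 1) := Nat.eq_of_beq_eq_true hC
  have hrow : ∀ j < R.length, R.getD j 0 =
      of * onG W (R.length + 1) + (Ln W (R.getD j 0) j - of) <<< (W * j) := by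
    intro j hj
    have h1 := allR_spec _ R 0 hr j hj
    rw [Nat.zero_add] at h1
    have h2 := Nat.eq_of_beq_eq_true h1
    rw [lnG_eq, hC'] at h2
    exact h2
  -- the rows as sums
  have hd : ∀ j < R.length, of + (Ln W (R.getD j 0) j - of) < 2 ^ W := by
    intro j _
    have := Ln_lt W (R.getD j 0) j
    omega
  have hsum : ∀ j < R.length, R.getD j 0 =
      ∑ i ∈ range (R.length + 1), (if i = j then of + (Ln W (R.getD j 0) j - of) else of) <<<
        (W * i) := by
    intro j hj
    rw [sum_ite_shl hW, if_pos (by omega)]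
    exact hrow j hj
  have hlane : ∀ j < R.length, ∀ k < R.length + 1, Ln W (R.getD j 0) k =
      if k = j then of + (Ln W (R.getD j 0) j - of) else of := by
    intro j hj k hk
    have h1 := (Ln_sum_shl (W := W) (fun i => if i = j then of + (Ln W (R.getD j 0) j - of) else of)
      (fun i => by
        by_cases hi : i = j
        · simp only [if_pos hi]
          exact hd j hj
        · simp only [if_neg hi]
          exact hof) hW (R.length + 1)).2 k
    rw [if_pos hk] at h1
    have h2 := congrArg (fun x => Ln W x k) (hsum j hj)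
    exact h2.trans h1
  refine allR_of _ R 0 fun j hj => ?_
  rw [Nat.zero_add]
  have key : R.getD j 0 = clG W of R j := by
    have e1 : clG W of R j = (sR (fun i r => Nat.shiftLeft (lnG W r j) (Nat.mul W i)) R 0 0) +
        of <<< (W * R.length) := rfl
    have e5 := sR_eq (fun i r => Nat.shiftLeft (lnG W r j) (Nat.mul W i)) R 0 0
    have e6 : (∑ k ∈ range R.length, (fun i r => Nat.shiftLeft (lnG W r j) (Nat.mul W i)) (0 + k)
        (R.getD k 0)) = ∑ i ∈ range R.length,
          (if i = j then of + (Ln W (R.getD j 0) j - of) else of) <<< (W * i) := by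
      refine Finset.sum_congr rfl fun i hi => ?_
      have hi' := Finset.mem_range.mp hi
      have h7 : Ln W (R.getD i 0) j = if i = j then of + (Ln W (R.getD j 0) j - of) else of := by
        rw [hlane i hi' j (by omega)]
        by_cases hij : i = j
        · rw [if_pos hij, if_pos hij.symm, hij]
        · rw [if_neg hij, if_neg (Ne.symm hij)]
      rw [← h7]
      have h8 : (0 + i) = i := Nat.zero_add i
      show Nat.shiftLeft (lnG W (R.getD i 0) j) (Nat.mul W (0 + i)) = _
      rw [h8, lnG_eq]
      rfl
    rw [e6] at e5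
    rw [e1, e5]
    have h9 := hsum j hj
    rw [Finset.sum_range_succ, if_neg (show ¬R.length = j by omega)] at h9
    rw [Nat.zero_add]
    exact h9
  show Nat.beq (R.getD j 0) (clG W of R j) = true
  rw [← key]
  exact Nat.beq_refl _

/-- The conditions apart from the symmetry and the factorisation. -/
def PD.chkD (P : PD) (W of h : ℕ) (R : List ℕ) : Bool :=
  decide (R.length ≤ 2 * h ∧ 2 * h ≤ R.length + 1) && (P.num W of &&
    ((P.ws.all fun w => wbG W (2 * h) P.k w) && (idG W h P && (pidG W h P R &&
    nuG W of R P.nul))))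

theorem PD.chk0_of (P : PD) (W of C h : ℕ) (R : List ℕ) (hW : 0 < W) (hof : of < 2 ^ W)
    (h0 : P.chkD W of h R = true) (hd : dg6G W of C R = true) : P.chk0 W of h R = true := by
  unfold PD.chkD at h0
  unfold PD.chk0
  rw [Bool.and_eq_true, Bool.and_eq_true, Bool.and_eq_true, Bool.and_eq_true,
    Bool.and_eq_true] at h0
  obtain ⟨h1, h2, h3, h4, h5, h6⟩ := h0
  rw [h1, h2, h3, h4, h5, h6, symG_of_dg6G hW hof R hd]
  rfl

end Pool.Agent.Lib.MP_afdd4d_co.K8
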