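import Pool.Agent.Lib.MP_afdd4d_co.K8.F6Qf

/-!
# The rows of an approximate factorisation
-/

namespace Pool.Agent.Lib.MP_afdd4d_co.K8

open Finset

/-- Addition of the products of the lane `i` of the vectors with the vectors. -/
def psG (W i CC ow : ℕ) (ws : List ℕ) : ℕ → ℕ :=
  @List.rec ℕ (fun _ => ℕ → ℕ) (fun a => a)
    (fun w _ ih a => ih (@Bool.rec (fun _ => ℕ)
      (Nat.add a (Nat.mul (Nat.sub ow (lnG W w i)) (Nat.sub CC w)))
      (Nat.add a (Nat.mul (Nat.sub (lnG W w i) ow) w)) (Nat.ble ow (lnG W w i)))) ws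

/-- The value of a vector. -/
def wv (W ow : ℕ) (ws : List ℕ) (k j : ℕ) : ℤ :=
  if k < ws.length then ((Ln W (ws.getD k 0) j : ℕ) : ℤ) - ow else 0

theorem psG_lz {W N ow : ℕ} (hW : 0 < W) {CC : ℕ} (hC : Lz W N (2 * ow) CC (2 * ow) fun _ => 0)
    (i : ℕ) (hi : i < N) (ws : List ℕ)
    (hl : ∀ w ∈ ws, Lz W N (2 * ow) w ow fun j => ((Ln W w j : ℕ) : ℤ) - ow) :
    ∀ (a U : ℕ) (o : ℤ) (f : ℕ → ℤ), Lz W N U a o f → U + ws.length * (2 * ow * ow) < 2 ^ W →
      ∃ X : ℕ, X ≤ ws.length * (ow * ow) ∧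
      Lz W N (U + 2 * X) (psG W i CC ow ws a) (o + X) fun j =>
        f j + ∑ k ∈ range ws.length, wv W ow ws k i * wv W ow ws k j := by
  induction ws with
  | nil =>
    intro a U o f ha _
    refine ⟨0, by simp, ?_⟩
    refine (ha.mono (by simp)).congr (by simp) fun j _ => by simp
  | cons w ws ih =>
    intro a U o f ha hU
    have hw := hl w List.mem_cons_self
    rw [List.length_cons] at hU
    set e := Ln W w i with he
    have heb : e ≤ 2 * ow := hw.bd i hi
    have h2 : (ws.length + 1) * (2 * ow * ow) = ws.length * (2 * ow * ow) + 2 * ow * ow := by ring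
    rw [h2] at hU
    -- one step
    have hstep : ∃ X1 : ℕ, X1 ≤ ow * ow ∧ Lz W N (U + 2 * X1) (@Bool.rec (fun _ => ℕ)
        (Nat.add a (Nat.mul (Nat.sub ow (lnG W w i)) (Nat.sub CC w)))
        (Nat.add a (Nat.mul (Nat.sub (lnG W w i) ow) w)) (Nat.ble ow (lnG W w i))) (o + X1)
        fun j => f j + ((e : ℤ) - ow) * (((Ln W w j : ℕ) : ℤ) - ow) := by
      rw [lnG_eq, ← he]
      by_cases h1 : ow ≤ e
      · have e1 : Nat.ble ow e = true := Nat.ble_eq ▸ h1
        rw [e1]
        refine ⟨(e - ow) * ow, Nat.mul_le_mul_right _ (by omega), ?_⟩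
        have h3 : (e - ow) * (2 * ow) ≤ 2 * ow * ow := by
          have : (e - ow) * (2 * ow) ≤ ow * (2 * ow) := Nat.mul_le_mul_right _ (by omega)
          nlinarith
        have h4 := ha.add (hw.smul (e - ow) hW (by omega)) hW (by omega)
        refine (h4.mono ?_).congr ?_ fun j _ => ?_
        · nlinarith
        · push_cast
          ring
        · rw [Nat.cast_sub h1]
      · have e1 : Nat.ble ow e = false := by
          rw [Bool.eq_false_iff]
          intro h3
          exact h1 (Nat.ble_eq ▸ h3)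
        rw [e1]
        refine ⟨(ow - e) * ow, Nat.mul_le_mul_right _ (by omega), ?_⟩
        have h3 : (ow - e) * (2 * ow) ≤ 2 * ow * ow := by
          have : (ow - e) * (2 * ow) ≤ ow * (2 * ow) := Nat.mul_le_mul_right _ (by omega)
          nlinarith
        have hcw := hC.sub hw hW (by
          intro j hj
          have h5 := hC.get j hj
          have h6 := hw.bd j hj
          have h7 : ((Ln W CC j : ℕ) : ℤ) = ((2 * ow : ℕ) : ℤ) := by
            rw [h5]
            push_cast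
            ring
          have h8 : Ln W CC j = 2 * ow := by exact_mod_cast h7
          omega)
        have h4 := ha.add (hcw.smul (ow - e) hW (by omega)) hW (by omega)
        refine (h4.mono ?_).congr ?_ fun j _ => ?_
        · nlinarith
        · push_cast
          ring
        · rw [Nat.cast_sub (by omega)]
          ring
    obtain ⟨X1, hX1, h3⟩ := hstep
    obtain ⟨X2, hX2, h4⟩ := ih (fun w hw => hl w (List.mem_cons_of_mem _ hw)) _ _ _ _ h3
      (by nlinarith)
    refine ⟨X1 + X2, ?_, ?_⟩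
    · rw [List.length_cons]
      nlinarith
    · have e1 : psG W i CC ow (w :: ws) a = psG W i CC ow ws (@Bool.rec (fun _ => ℕ)
          (Nat.add a (Nat.mul (Nat.sub ow (lnG W w i)) (Nat.sub CC w)))
          (Nat.add a (Nat.mul (Nat.sub (lnG W w i) ow) w)) (Nat.ble ow (lnG W w i))) := rfl
      rw [e1]
      refine (h4.mono (by omega)).congr ?_ fun j _ => ?_
      · push_cast
        ring
      · rw [List.length_cons, sum_range_cons]
        have e2 : ∀ j, wv W ow (w :: ws) 0 j = ((Ln W w j : ℕ) : ℤ) - ow := by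
          intro j
          unfold wv
          simp
        have e3 : ∀ k j, wv W ow (w :: ws) (k + 1) j = wv W ow ws k j := by
          intro k j
          unfold wv
          simp
        simp_rw [e3]
        rw [e2, e2]
        ring

def fchC (W ns t H ind i Y : ℕ) : Bool :=
  @Bool.rec (fun _ => Bool) false
    (Nat.ble (Nat.add H (Nat.mul ns (Nat.pow 2 t))) (lnG W Y i))
    (Nat.beq (Nat.land (Nat.add Y (Nat.mul (Nat.pow 2 t) (onG W ns)))
      (Nat.mul (Nat.sub (Nat.pow 2 W) (Nat.pow 2 (Nat.succ t)))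
        (Nat.sub ind (Nat.shiftLeft 1 (Nat.mul W i)))))
      (Nat.mul H (Nat.sub ind (Nat.shiftLeft 1 (Nat.mul W i)))))

def fchB (W of ns Dn t H ind i r S : ℕ) : Bool :=
  fchC W ns t H ind i (Nat.sub (Nat.sub (Nat.add (Nat.mul Dn r)
    (Nat.mul (Nat.add H (lnG W S ns)) (onG W ns))) (Nat.mod S (Nat.pow 2 (Nat.mul W ns))))
    (Nat.mul (Nat.mul Dn of) (onG W ns)))

/-- The check of the row `r` in the slot `i`. -/
def fchG (W of ns Dn t H ow CC ind : ℕ) (ws : List ℕ) (i r : ℕ) : Bool :=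
  @Bool.rec (fun _ => Bool) true (fchB W of ns Dn t H ind i r (psG W i CC ow ws 0))
    (Nat.beq (lnG W ind i) 1)

theorem fchG_spec {W of ns Dn t ow ind : ℕ} (hW : 2 ≤ W) (ws : List ℕ)
    (hl : ∀ w ∈ ws, Lz W (ns + 1) (2 * ow) w ow (fun j => ((Ln W w j : ℕ) : ℤ) - ow) ∧
      Ln W w ns = ow)
    (hnum : ws.length * (ow * ow) + 2 * Dn * of + 2 ^ t ≤ 2 ^ (W - 2)) (ht : t + 1 ≤ W)
    (how : 2 * ow < 2 ^ W)
    (hind : ∀ j, Ln W ind j ≤ 1)
    (i r : ℕ) (hi : i < ns) (hr : Lz W ns (2 * of) r of fun j => ((Ln W r j : ℕ) : ℤ) - of)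
    (h : fchG W of ns Dn t (2 ^ (W - 2)) ow (Nat.mul (2 * ow) (onG W (ns + 1))) ind ws i r = true)
    (hii : Ln W ind i = 1) :
    (∀ j < ns, Ln W ind j = 1 → i ≠ j → |(Dn : ℤ) * (((Ln W r j : ℕ) : ℤ) - of) -
      ∑ k ∈ range ws.length, wv W ow ws k i * wv W ow ws k j| ≤ 2 ^ t) ∧
    (ns : ℤ) * 2 ^ t ≤ (Dn : ℤ) * (((Ln W r i : ℕ) : ℤ) - of) -
      ∑ k ∈ range ws.length, wv W ow ws k i * wv W ow ws k i := by
  have hW0 : 0 < W := by omega
  set H := 2 ^ (W - 2) with hH
  have h4H : 4 * H = 2 ^ W := by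
    rw [hH, show (4 : ℕ) = 2 ^ 2 from rfl, ← pow_add]
    congr 1
    omega
  have ht0 : 0 < 2 ^ t := Nat.two_pow_pos t
  have hH0 : 0 < H := Nat.two_pow_pos _
  have hnum' : ws.length * (ow * ow) + 2 * (Dn * of) + 2 ^ t ≤ H := by
    have : 2 * Dn * of = 2 * (Dn * of) := by ring
    rw [this] at hnum
    exact hnum
  have hDof : Dn * (2 * of) = 2 * (Dn * of) := by ring
  have hcc := con_lz hW0 (2 * ow) how (ns + 1)
  have hcc' : Lz W (ns + 1) (2 * ow) (Nat.mul (2 * ow) (onG W (ns + 1))) (2 * ow) fun _ => 0 :=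
    hcc.congr (by push_cast; ring) fun _ _ => rfl
  obtain ⟨X, hX, hS⟩ := psG_lz hW0 hcc' i (by omega) ws (fun w hw => (hl w hw).1) 0 0 0 _
    (Lz.zero W (ns + 1)) (by
      have : ws.length * (2 * ow * ow) = 2 * (ws.length * (ow * ow)) := by ring
      rw [this, Nat.zero_add]
      omega)
  have hXH : X + 2 * (Dn * of) + 2 ^ t ≤ H := by omega
  set S := psG W i (Nat.mul (2 * ow) (onG W (ns + 1))) ow ws 0 with hSdef
  -- the last lane
  have hXl : lnG W S ns = X := by
    rw [lnG_eq]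
    have h1 := hS.get ns (by omega)
    have h2 : ∀ k ∈ range ws.length, wv W ow ws k i * wv W ow ws k ns = 0 := by
      intro k hk
      have hk' := Finset.mem_range.mp hk
      have h3 : wv W ow ws k ns = 0 := by
        unfold wv
        rw [if_pos hk', List.getD_eq_getElem _ _ hk', (hl _ (List.getElem_mem hk')).2, sub_self]
      rw [h3, mul_zero]
    rw [Finset.sum_eq_zero h2] at h1
    have h4 : ((Ln W S ns : ℕ) : ℤ) = (X : ℤ) := by
      rw [h1]
      ring
    exact_mod_cast h4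
  unfold fchG at h
  have e1 : Nat.beq (lnG W ind i) 1 = true := by
    rw [lnG_eq, hii]
    rfl
  rw [e1] at h
  have h' : fchB W of ns Dn t H ind i r S = true := h
  unfold fchB fchC at h'
  rw [bool_rec_and, Bool.and_eq_true, hXl] at h'
  obtain ⟨h2, h1⟩ := h'
  -- the array Y
  have hS' := hS.mod (show ns ≤ ns + 1 by omega)
  have hA := hr.smul Dn hW0 (by omega)
  have hc := con_lz hW0 (H + X) (by omega) ns
  have hA1 := hA.add hc hW0 (by omega)
  have hA2 := hA1.sub hS' hW0 (by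
    intro j hj
    have e2 := hA1.get j hj
    have e3 := hS'.bd j hj
    have e5 := hA.get j hj
    have e6 : (0 : ℤ) ≤ ((Ln W (Dn * r) j : ℕ) : ℤ) := Int.natCast_nonneg _
    have e7 : ((Ln W (S % 2 ^ (W * ns)) j : ℕ) : ℤ) ≤ 2 * X := by
      have : Ln W (S % 2 ^ (W * ns)) j ≤ 2 * X := by omega
      exact_mod_cast this
    have e8 : (X : ℤ) ≤ H := by
      have : X ≤ H := by omega
      exact_mod_cast this
    have e9 : ((Ln W (S % 2 ^ (W * ns)) j : ℕ) : ℤ) ≤
        ((Ln W (Dn * r + Nat.mul (H + X) (onG W ns)) j : ℕ) : ℤ) := by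
      rw [e2]
      push_cast at e5 ⊢
      linarith
    exact_mod_cast e9)
  have hd := con_lz hW0 (Dn * of) (by omega) ns
  have hA3 := hA2.sub hd hW0 (by
    intro j hj
    have e2 := hA2.get j hj
    have e3 := hS'.bd j hj
    have e4 := hS'.get j hj
    have e5 := hA.get j hj
    have e6 : (0 : ℤ) ≤ ((Ln W (Dn * r) j : ℕ) : ℤ) := Int.natCast_nonneg _
    have e7 : ((Ln W (S % 2 ^ (W * ns)) j : ℕ) : ℤ) ≤ 2 * X := by
      have : Ln W (S % 2 ^ (W * ns)) j ≤ 2 * X := by omega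
      exact_mod_cast this
    have e8 : (X : ℤ) + Dn * of ≤ H := by
      have : X + Dn * of ≤ H := by omega
      exact_mod_cast this
    have e10 := hd.get j hj
    have e9 : ((Ln W (Nat.mul (Dn * of) (onG W ns)) j : ℕ) : ℤ) ≤
        ((Ln W (Dn * r + Nat.mul (H + X) (onG W ns) - S % 2 ^ (W * ns)) j : ℕ) : ℤ) := by
      rw [e2, e10]
      push_cast at e4 e5 ⊢
      linarith
    exact_mod_cast e9)
  set Y := Dn * r + Nat.mul (H + X) (onG W ns) - S % 2 ^ (W * ns) - Nat.mul (Dn * of) (onG W ns)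
    with hY
  have hYl : ∀ j < ns, ((Ln W Y j : ℕ) : ℤ) = H + ((Dn : ℤ) * (((Ln W r j : ℕ) : ℤ) - of) -
      ∑ k ∈ range ws.length, wv W ow ws k i * wv W ow ws k j) := by
    intro j hj
    rw [hA3.get j hj]
    push_cast
    ring
  constructor
  · intro j hj hjF hij
    have ht2 : (2 : ℕ) ^ t < 2 ^ W := by omega
    have hct := con_lz hW0 (2 ^ t) ht2 ns
    have hYt := hA3.add hct hW0 (by
      have : Dn * (2 * of) + (H + X) + 2 ^ t ≤ 3 * H := by nlinarith
      omega)
    have h2' := Nat.eq_of_beq_eq_true h2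
    have e0 : Nat.land (Nat.add Y (Nat.mul (2 ^ t) (onG W ns)))
      (Nat.mul (2 ^ W - 2 ^ (t + 1)) (ind - 1 <<< (W * i))) =
      Nat.mul H (ind - 1 <<< (W * i)) := h2'
    have e0' : (Y + Nat.mul (2 ^ t) (onG W ns)) &&& ((2 ^ W - 2 ^ (t + 1)) * (ind - 1 <<< (W * i))) =
      H * (ind - 1 <<< (W * i)) := e0
    have h1W : 1 < 2 ^ W := Nat.one_lt_two_pow (by omega)
    have hsh : ∀ m, Ln W (1 <<< (W * i)) m = if m = i then 1 else 0 := by
      intro m
      rw [Ln_shl, Ln_small W 1 h1W]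
      by_cases h5 : m < i
      · rw [if_pos h5, if_neg (by omega)]
      · rw [if_neg h5]
        by_cases h6 : m = i
        · rw [if_pos (by omega), if_pos h6]
        · rw [if_neg (by omega), if_neg h6]
    have hile : ∀ m, Ln W (1 <<< (W * i)) m ≤ Ln W ind m := by
      intro m
      rw [hsh]
      by_cases h6 : m = i
      · rw [if_pos h6, h6, hii]
      · rw [if_neg h6]
        exact Nat.zero_le _
    have hindl : ∀ m, Ln W (ind - 1 <<< (W * i)) m = Ln W ind m - if m = i then 1 else 0 := by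
      intro m
      rw [Ln_sub _ _ _ hW0 hile, hsh]
    have hindle : ∀ m, Ln W (ind - 1 <<< (W * i)) m ≤ 1 := by
      intro m
      rw [hindl]
      exact le_trans (Nat.sub_le _ _) (hind m)
    have hmul : ∀ c, c < 2 ^ W → ∀ m, Ln W (c * (ind - 1 <<< (W * i))) m =
        c * Ln W (ind - 1 <<< (W * i)) m := by
      intro c hc m
      rw [Ln_smul]
      intro m
      refine lt_of_le_of_lt (Nat.mul_le_mul_left _ (hindle m)) (by rw [mul_one]; exact hc)
    have hone : Ln W (ind - 1 <<< (W * i)) j = 1 := by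
      rw [hindl, hjF, if_neg (fun h => hij h.symm)]
    have e3 : Ln W ((Y + Nat.mul (2 ^ t) (onG W ns)) &&&
        ((2 ^ W - 2 ^ (t + 1)) * (ind - 1 <<< (W * i)))) j =
        Ln W (H * (ind - 1 <<< (W * i))) j := by rw [e0']
    rw [Ln_and, hmul _ (by have := Nat.two_pow_pos (t + 1); have := Nat.two_pow_pos W; omega),
      hmul H (by omega), hone, mul_one, mul_one,
      and_high W (t + 1) _ ht (Ln_lt _ _ _)] at e3
    set y := Ln W (Y + Nat.mul (2 ^ t) (onG W ns)) j with hy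
    have hylt : y % 2 ^ (t + 1) < 2 ^ (t + 1) := Nat.mod_lt _ (Nat.two_pow_pos _)
    have hyle : y % 2 ^ (t + 1) ≤ y := Nat.mod_le _ _
    have hyv := hYt.get j hj
    rw [← hy] at hyv
    have e4 : y = H + y % 2 ^ (t + 1) := by omega
    have e5 : (y : ℤ) = H + ((Dn : ℤ) * (((Ln W r j : ℕ) : ℤ) - of) -
        ∑ k ∈ range ws.length, wv W ow ws k i * wv W ow ws k j) + 2 ^ t := by
      rw [hyv]
      push_cast
      ring
    have e6 : (y : ℤ) = H + ((y % 2 ^ (t + 1) : ℕ) : ℤ) := by exact_mod_cast e4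
    have e7 : ((y % 2 ^ (t + 1) : ℕ) : ℤ) < 2 * 2 ^ t := by
      have h9 : ((y % 2 ^ (t + 1) : ℕ) : ℤ) < ((2 ^ (t + 1) : ℕ) : ℤ) := by exact_mod_cast hylt
      have h10 : ((2 ^ (t + 1) : ℕ) : ℤ) = 2 * 2 ^ t := by
        push_cast
        ring
      rw [h10] at h9
      exact h9
    have e8 : (0 : ℤ) ≤ ((y % 2 ^ (t + 1) : ℕ) : ℤ) := Int.natCast_nonneg _
    rw [abs_le]
    constructor <;> linarith
  · have h1' : H + ns * 2 ^ t ≤ Ln W Y i := by
      rw [← lnG_eq]
      exact Nat.le_of_ble_eq_true h1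
    have h3 := hYl i hi
    have h4 : ((H + ns * 2 ^ t : ℕ) : ℤ) ≤ ((Ln W Y i : ℕ) : ℤ) := by exact_mod_cast h1'
    rw [h3] at h4
    push_cast at h4
    linarith

end Pool.Agent.Lib.MP_afdd4d_co.K8
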