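import Pool.Agent.Lib.MP_afdd4d_co.K8.F6Lnk

/-!
# The check of the invariance
-/

namespace Pool.Agent.Lib.MP_afdd4d_co.K8

open Finset

/-- The patterns of the columns of the exchanges. -/
def mcLo : List (List ℕ) := [
  [73, 266, 524, 8, 336, 608, 64, 896, 256, 512],
  [1, 2, 8, 4, 16, 64, 32, 256, 128, 512],
  [1, 4, 2, 8, 32, 16, 64, 128, 512, 256],
  [2, 1, 4, 8, 16, 128, 256, 32, 64, 512],
  [1, 16, 32, 64, 2, 4, 8, 128, 256, 512]]

/-- The other parts of these columns. -/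
def mcHi : List (List ℕ) := [
  [4, 16, 32, 0, 128, 256, 0, 512, 0, 0],
  [0, 0, 0, 0, 0, 0, 0, 0, 0, 0],
  [0, 0, 0, 0, 0, 0, 0, 0, 0, 0],
  [0, 0, 0, 0, 0, 0, 0, 0, 0, 0],
  [0, 0, 0, 0, 0, 0, 0, 0, 0, 0]]

/-- The remaining columns. -/
def mcX : List (List ℕ) := [
  [149, 294, 4, 568, 16, 32, 960, 128, 256, 512],
  [1, 4, 2, 16, 8, 32, 128, 64, 256, 512],
  [2, 1, 4, 8, 32, 16, 64, 256, 128, 512],
  [1, 8, 16, 2, 4, 32, 64, 128, 512, 256],
  [1, 2, 4, 64, 128, 256, 8, 16, 32, 512]]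

theorem mc_lists : ∀ i < 5, (mcLo.getD i []).length = 10 ∧ (mcHi.getD i []).length = 10 ∧
    ∀ k < 10, (mcLo.getD i []).getD k 0 = mc i k % 1024 ∧
      (mcHi.getD i []).getD k 0 = mc i k >>> 10 ∧
      (mcX.getD i []).getD k 0 = mc i (10 + k) >>> 10 := by decide +kernel

/-- The image of a pattern. -/
def mvpG (i p : ℕ) : ℕ := selG (nthG [] mcLo i) p 0

theorem mvG_eq (i p : ℕ) (hi : i < 5) : mvpG i p = mvp i p := by
  obtain ⟨h1, _, h3⟩ := mc_lists i hi
  unfold mvpG mvp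
  rw [selG_eq, Nat.zero_xor, nthG_eq, h1]
  exact lx_congr _ _ _ _ _ (fun _ _ => rfl) fun k hk => (h3 k hk).1

theorem selG_app (l : List ℕ) (hl : l.length = 10) (z : ℕ) :
    selG l z 0 = app (fun k => l.getD k 0) z := by
  rw [selG_eq, Nat.zero_xor, hl]
  rfl

theorem xrG_app (e z : ℕ) : xrG e z 10 = conG e ^^^ app (colG e) z := xrG_eq _ _ _

namespace TF
variable (D : TF)

/-- The check of the columns. -/
def icG (i e e' : ℕ) (L : LK) : Bool :=
  allN (fun k => Nat.beq (Nat.xor (conG e') (xrG e' (nthG 0 (nthG [] mcX i) k) 10))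
    (selG L.ac (colG e k) 0)) 10

/-- The check of a link. -/
def ilG (i p e e' : ℕ) (L : LK) : Bool :=
  Nat.beq (Nat.mod e 256) L.ty && (Nat.beq (Nat.mod e' 256) L.ty &&
    (Nat.beq (xrG e' (selG (nthG [] mcHi i) p 0) 10) (Nat.xor L.ab (selG L.ac (conG e) 0)) &&
      icG i e e' L))

/-- The check of a pattern and an exchange. -/
def ivG (LT : ℕ) (ls : List LK) (L0 : LK) (i p : ℕ) : Bool :=
  @Nat.rec (fun _ => Bool) (Nat.beq (Nat.mod (entG D.tab (mvpG i p)) 256) 0)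
    (fun _ _ => Nat.blt (lnG 16 LT (Nat.add (Nat.mul 8 p) i)) ls.length &&
      ilG i p (entG D.tab p) (entG D.tab (mvpG i p))
        (nthG L0 ls (lnG 16 LT (Nat.add (Nat.mul 8 p) i))))
    (Nat.mod (entG D.tab p) 256)

theorem inv_ok (LT : ℕ) (ls : List LK) (L0 : LK)
    (hls : ∀ L ∈ ls, L.ac.length = 10 ∧ D.fd.Good L.ty L.ty L.ab fun k => L.ac.getD k 0)
    (h : ∀ i < 5, allN (D.ivG LT ls L0 i) 1024 = true) : D.fd.InvOK := by
  intro i hi p hp
  have h1 := allN_spec _ _ (h i hi) p hp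
  obtain ⟨hm1, hm2, hm3⟩ := mc_lists i hi
  set e := entG D.tab p with he
  have hty : D.fd.ty p = Nat.mod e 256 := rfl
  rcases Nat.eq_zero_or_pos (Nat.mod e 256) with h0 | h0
  · have h2 : D.ivG LT ls L0 i p = Nat.beq (Nat.mod (entG D.tab (mvpG i p)) 256) 0 := by
      unfold ivG
      rw [← he, h0]
      rfl
    rw [h2] at h1
    have h3 := Nat.eq_of_beq_eq_true h1
    rw [mvG_eq i p hi] at h3
    have h4 : D.fd.ty (mvp i p) = 0 := h3
    refine ⟨⟨fun _ => h4, fun _ => by rw [hty, h0]⟩, fun h5 => absurd (by rw [hty, h0]) h5⟩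
  · obtain ⟨t, ht⟩ : ∃ t, Nat.mod e 256 = t + 1 := ⟨Nat.mod e 256 - 1, by omega⟩
    set e' := entG D.tab (mvpG i p) with he'
    set L := nthG L0 ls (lnG 16 LT (Nat.add (Nat.mul 8 p) i)) with hL
    have h2 : D.ivG LT ls L0 i p = (Nat.blt (lnG 16 LT (Nat.add (Nat.mul 8 p) i)) ls.length &&
        ilG i p e e' L) := by
      have : D.ivG LT ls L0 i p = @Nat.rec (fun _ => Bool) (Nat.beq (Nat.mod e' 256) 0)
        (fun _ _ => Nat.blt (lnG 16 LT (Nat.add (Nat.mul 8 p) i)) ls.length &&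
          ilG i p e e' L) (Nat.mod e 256) := rfl
      rw [this, ht]
    rw [h2, Bool.and_eq_true] at h1
    obtain ⟨h3, h4⟩ := h1
    unfold ilG at h4
    rw [Bool.and_eq_true, Bool.and_eq_true, Bool.and_eq_true] at h4
    obtain ⟨h5, h6, h7, h8⟩ := h4
    have h5' := Nat.eq_of_beq_eq_true h5
    have h6' := Nat.eq_of_beq_eq_true h6
    have h7' := Nat.eq_of_beq_eq_true h7
    have h3' : lnG 16 LT (Nat.add (Nat.mul 8 p) i) < ls.length := by
      rw [Nat.blt_eq] at h3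
      exact h3
    have hLm : L ∈ ls := by
      rw [hL, nthG_eq, List.getD_eq_getElem _ _ h3']
      exact List.getElem_mem h3'
    obtain ⟨hl, hg⟩ := hls L hLm
    have he'' : e' = entG D.tab (mvp i p) := by rw [he', mvG_eq i p hi]
    have hty' : D.fd.ty (mvp i p) = Nat.mod e' 256 := by rw [he'']; rfl
    have hxb' : D.fd.xb (mvp i p) = conG e' := by rw [he'']; rfl
    have hxc' : D.fd.xc (mvp i p) = colG e' := by rw [he'']; rfl
    refine ⟨⟨fun h9 => ?_, fun h9 => ?_⟩, fun _ => ⟨L.ab, fun k => L.ac.getD k 0, ⟨?_, ?_⟩, ?_⟩⟩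
    · rw [hty] at h9
      rw [hty', h6', ← h5', h9]
    · rw [hty'] at h9
      rw [hty, h5', ← h6', h9]
    · rw [hxb', hxc']
      have e1 : lx 10 (fun k => mc i k >>> 10) p.testBit = selG (nthG [] mcHi i) p 0 := by
        rw [selG_eq, Nat.zero_xor, nthG_eq, hm2]
        exact lx_congr _ _ _ _ _ (fun _ _ => rfl) fun k hk => (hm3 k hk).2.1.symm
      rw [e1, ← xrG_app, h7', selG_app _ hl]
      rfl
    · intro k hk
      rw [hxc']
      have h9 := Nat.eq_of_beq_eq_true (allN_spec _ _ h8 k hk)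
      rw [xrG_app, selG_app _ hl, nthG_eq, nthG_eq, (hm3 k hk).2.2] at h9
      have e1 : Nat.xor (conG e') (conG e' ^^^ app (colG e') (mc i (10 + k) >>> 10)) =
          conG e' ^^^ (conG e' ^^^ app (colG e') (mc i (10 + k) >>> 10)) := rfl
      rw [e1, ← Nat.xor_assoc, Nat.xor_self, Nat.zero_xor] at h9
      exact h9
    · rw [hty, hty', h5', h6']
      exact hg

end TF

end Pool.Agent.Lib.MP_afdd4d_co.K8
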