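import Pool.Agent.Lib.MP_afdd4d_co.K8.F6Inv

/-!
# Invariance of the rows
-/

namespace Pool.Agent.Lib.MP_afdd4d_co.K8

open Finset

/-- The data of the identity. -/
def idL (τ : ℕ) : LK where
  ty := τ
  ab := 0
  ac := [1, 2, 4, 8, 16, 32, 64, 128, 256, 512]
  pg := []
  P := 0
  S := 0

theorem app_idL (τ z : ℕ) : app (fun k => (idL τ).ac.getD k 0) z = z % 1024 := by
  apply Nat.eq_of_testBit_eq
  intro r
  have h1 : app (fun k => (idL τ).ac.getD k 0) z = lx 10 (fun k => (idL τ).ac.getD k 0) z.testBit :=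
    rfl
  rw [h1, testBit_lx, show (1024 : ℕ) = 2 ^ 10 from rfl, Nat.testBit_mod_two_pow]
  have h2 : ∀ k < 10, (idL τ).ac.getD k 0 = 2 ^ k := by
    intro k hk
    interval_cases k <;> rfl
  have h3 : (xo 10 fun k => z.testBit k && ((idL τ).ac.getD k 0).testBit r) =
      xo 10 fun k => z.testBit k && decide (k = r) := by
    apply xo_congr
    intro k hk
    rw [h2 k hk, Nat.testBit_two_pow]
  rw [h3]
  have h4 : ∀ n, (xo n fun k => z.testBit k && decide (k = r)) =
      (decide (r < n) && z.testBit r) := by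
    intro n
    induction n with
    | zero => simp [xo]
    | succ n ih =>
      rw [xo, ih]
      by_cases h5 : n = r
      · subst h5
        simp
      · have h6 : decide (r < n + 1) = decide (r < n) := by
          congr 1
          apply propext
          omega
        rw [h6, decide_eq_false h5, Bool.and_false, Bool.xor_false]
  exact h4 10

/-- Forcing of the evaluation of a number. -/
def frG (n : ℕ) (f : ℕ → Bool) : Bool :=
  @Nat.rec (fun _ => Bool) (f 0) (fun k _ => f (Nat.succ k)) n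

theorem frG_eq (n : ℕ) (f : ℕ → Bool) : frG n f = f n := by
  cases n <;> rfl

/-- Composition of checks. -/
theorem frG_join (f : ℕ → Bool) {a n m : ℕ} (h1 : ∀ i < a, f i = true)
    (h2 : allN (fun i => f (Nat.add a i)) n = true) (hm : m = a + n) : ∀ i < m, f i = true := by
  intro i hi
  by_cases h3 : i < a
  · exact h1 i h3
  · have h4 := allN_spec _ _ h2 (i - a) (by omega)
    have e : Nat.add a (i - a) = i := by
      have : Nat.add a (i - a) = a + (i - a) := rfl
      omega
    rw [e] at h4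
    exact h4

theorem frG_all (P N : ℕ) (hP : Nat.beq (orG P N) (Nat.sub (Nat.pow 2 N) 1) = true)
    (f : ℕ → Bool) (hf : ∀ i < N, f (lnG 16 P i) = true) : ∀ z < N, f z = true := by
  intro z hz
  have h1 : orG P N = 2 ^ N - 1 := Nat.eq_of_beq_eq_true hP
  have h2 : (orG P N).testBit z = true := by
    rw [h1, Nat.testBit_two_pow_sub_one, decide_eq_true hz]
  obtain ⟨i, hi, h3⟩ := (orG_bit P N z).mp h2
  rw [← h3, ← lnG_eq]
  exact hf i hi

namespace TF
variable (D : TF)

/-- The bounds and the invariance for one vector. -/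
def lbG (τ : ℕ) (ls : List LK) (z : ℕ) : Bool :=
  frG z fun z => @Bool.rec (fun _ => Bool) false
    (allA (fun _ L => frG (Nat.xor L.ab (selG L.ac z 0)) fun y =>
      Nat.beq (trG D.W L (D.rt τ y)) (D.rt τ z)) ls 0)
    (D.okZ τ z)

variable {D}

theorem lbG_spec {τ : ℕ} {ls : List LK} {z : ℕ} (h : D.lbG τ ls z = true) :
    D.okZ τ z = true ∧ ∀ L ∈ ls, trG D.W L (D.rt τ (L.ab ^^^ selG L.ac z 0)) = D.rt τ z := by
  unfold lbG at h
  rw [frG_eq, bool_rec_and, Bool.and_eq_true] at h
  refine ⟨h.1, fun L hL => ?_⟩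
  obtain ⟨k, hk, rfl⟩ := List.getElem_of_mem hL
  have h2 := allA_spec ⟨0, 0, [], [], 0, 0⟩ _ ls 0 h.2 k hk
  rw [List.getD_eq_getElem _ _ hk, frG_eq] at h2
  exact Nat.eq_of_beq_eq_true h2

theorem idL_good (τ : ℕ) : (idL τ).ac.length = 10 ∧
    D.fd.Good (idL τ).ty (idL τ).ty (idL τ).ab fun k => (idL τ).ac.getD k 0 := by
  refine ⟨rfl, fun z z' => ?_⟩
  have e : (idL τ).ab = 0 := rfl
  rw [e, Nat.zero_xor, Nat.zero_xor, app_idL, app_idL]
  exact (bil_mod _ _ _).symm

theorem li_good (h : D.RowsOK) (L : LK) (h0 : 0 < L.ty) (h1 : L.ty < D.tp.length)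
    (h2 : cmaG L = true)
    (h3 : ∀ z < 1024, trG D.W L (D.rt L.ty (L.ab ^^^ selG L.ac z 0)) = D.rt L.ty z) :
    L.ac.length = 10 ∧ D.fd.Good L.ty L.ty L.ab fun k => L.ac.getD k 0 := by
  have hW : 0 < D.W := by have := h.hn.hW; omega
  unfold cmaG at h2
  rw [Bool.and_eq_true, Bool.and_eq_true, Bool.and_eq_true, Bool.and_eq_true] at h2
  obtain ⟨a1, a2, a3, a4, a5⟩ := h2
  obtain ⟨a0, a1⟩ := of_decide_eq_true a1
  rw [List.all_eq_true] at a2
  have a4 := Nat.eq_of_beq_eq_true a4
  refine ⟨a0, ?_⟩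
  set A : ℕ → ℕ := fun z => L.ab ^^^ app (fun k => L.ac.getD k 0) z with hA
  have hAlt : ∀ z, A z < 1024 := by
    intro z
    have h5 : app (fun k => L.ac.getD k 0) z < 2 ^ 10 := by
      apply lx_lt
      intro k hk
      have := of_decide_eq_true (a2 (L.ac.getD k 0) (getD_mem' L.ac k 0 (by omega)))
      exact this
    exact Nat.xor_lt_two_pow (n := 10) a1 h5
  have hidx : ∀ z, idx 10 (fun r => seG L.pg 10 z.testBit r ^^ (decide (r < 10) &&
      L.ab.testBit r)) = A z := by
    intro z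
    apply Nat.eq_of_testBit_eq
    intro r
    rw [testBit_idx]
    by_cases hr : r < 10
    · rw [decide_eq_true hr, Bool.true_and, Bool.true_and]
      have h5 := allN_spec _ _ a5 r hr
      rw [Bool.and_eq_true, bG_eq, Bool.not_eq_true'] at h5
      obtain ⟨h6, h7⟩ := h5
      rw [seG_eq 10 z.testBit L.pg 10 a3 (by rw [a4]) r hr, lf_eq_xo 10 _ _ h6, hA]
      simp only
      have h8 : (app (fun k => L.ac.getD k 0) z).testBit r =
          xo 10 fun k => z.testBit k && (L.ac.getD k 0).testBit r := testBit_lx _ _ _ _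
      rw [Nat.testBit_xor, h8, Bool.xor_comm]
      congr 1
      apply xo_congr
      intro k hk
      have h9 := allN_spec _ _ h7 k hk
      have h10 := eq_of_beq h9
      rw [bG_eq, bG_eq, nthG_eq] at h10
      rw [h10]
    · rw [decide_eq_false hr, Bool.false_and]
      symm
      apply Nat.testBit_lt_two_pow
      exact lt_of_lt_of_le (hAlt z) (by
        rw [show (1024 : ℕ) = 2 ^ 10 from rfl]
        exact Nat.pow_le_pow_right (by norm_num) (by omega))
  have hA10 : ∀ z, A (z % 1024) = A z := by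
    intro z
    rw [hA]
    simp only
    congr 1
    have e : ∀ z, app (fun k => L.ac.getD k 0) z = lx 10 (fun k => L.ac.getD k 0) z.testBit :=
      fun _ => rfl
    rw [e, e]
    apply lx_congr
    · intro k hk
      rw [show (1024 : ℕ) = 2 ^ 10 from rfl, Nat.testBit_mod_two_pow]
      simp [hk]
    · intro k _
      rfl
  have hrow : ∀ z < 1024, Ar D.W 10 (D.rt L.ty z)
      (fun b => ((D.B : ℤ) + D.fd.bil L.ty z (idx 10 b)).toNat) := fun z hz =>
    (rt_spec h.hn L.ty z (h.ht _) hz (h.hz _ h0 h1 z hz)).1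
  have hb := h.bil
  -- equality for small arguments
  have key : ∀ z < 1024, ∀ z' < 1024, D.fd.bil L.ty (A z) (A z') = D.fd.bil L.ty z z' := by
    intro z hz z' hz'
    have h5 := h3 z hz
    have e1 : L.ab ^^^ (selG L.ac z 0) = A z := by
      rw [selG_eq, Nat.zero_xor, a0]
      rfl
    rw [e1] at h5
    have h6 := xkG_ar (k := L.ab) hW (hrow (A z) (hAlt z)) 10 le_rfl
    have h7 := ruG_ar hW L.pg 10 _ _ a3 h6
    rw [a4] at h7
    have h8 := h7.get z'.testBit
    have h9 := (hrow z hz).get z'.testBit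
    rw [idx_testBit 10 z' hz'] at h8 h9
    have e2 : ruG D.W L.pg 10 (xkG D.W 10 L.ab 10 (D.rt L.ty (A z))) =
      trG D.W L (D.rt L.ty (A z)) := rfl
    rw [e2, h5, h9] at h8
    have e3 := hidx z'
    have h10 : ((D.B : ℤ) + D.fd.bil L.ty z z').toNat =
        ((D.B : ℤ) + D.fd.bil L.ty (A z) (A z')).toNat := by
      rw [← e3]
      exact h8
    have b1 := abs_le.mp (hb L.ty z z')
    have b2 := abs_le.mp (hb L.ty (A z) (A z'))
    omega
  intro z z'
  have e4 := key (z % 1024) (Nat.mod_lt _ (by norm_num)) (z' % 1024) (Nat.mod_lt _ (by norm_num))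
  rw [hA10, hA10] at e4
  rw [bil_mod L.ty z z']
  exact e4

/-- The check of the affine maps of a list. -/
def cmlG (τ : ℕ) (ls : List LK) : Bool :=
  allA (fun _ L => Nat.beq L.ty τ && cmaG L) ls 0

/-- The links of a type. -/
theorem lis_of (h : D.RowsOK) {τ : ℕ} (h0 : 0 < τ) (h1 : τ < D.tp.length) {ls : List LK}
    (hc : cmlG τ ls = true) (hz : ∀ z < 1024, D.lbG τ ls z = true) :
    ∀ L ∈ ls, L.ac.length = 10 ∧ D.fd.Good L.ty L.ty L.ab fun k => L.ac.getD k 0 := by
  intro L hL
  obtain ⟨k, hk, rfl⟩ := List.getElem_of_mem hL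
  have h2 := allA_spec ⟨0, 0, [], [], 0, 0⟩ _ ls 0 hc k hk
  rw [List.getD_eq_getElem _ _ hk, Bool.and_eq_true] at h2
  have h3 := Nat.eq_of_beq_eq_true h2.1
  refine li_good h _ (by rw [h3]; exact h0) (by rw [h3]; exact h1) h2.2 fun z hz' => ?_
  rw [h3]
  exact (lbG_spec (hz z hz')).2 _ hL

end TF

end Pool.Agent.Lib.MP_afdd4d_co.K8
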