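import Pool.Agent.Lib.MP_afdd4d_co.K8.F6Row

/-!
# Signed permutations of the functions
-/

namespace Pool.Agent.Lib.MP_afdd4d_co.K8

open Finset

namespace FD
variable (D : FD)

/-- The matrices agree up to a signed permutation of the functions, which describes the effect of the
affine map with constant `ab` and columns `ac` on the functions. -/
structure SP (τ ab : ℕ) (ac : ℕ → ℕ) (π : ℕ → ℕ) (s : ℕ → ℤ) : Prop where
  hπ : ∀ i < D.ns τ, π i < D.ns τ
  hs : ∀ i < D.ns τ, ∃ j < D.ns τ, π j = i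
  hf : ∀ i < D.ns τ, ∀ z, D.fn τ i (ab ^^^ app ac z) = s i * D.fn τ (π i) z
  hm : ∀ i < D.ns τ, ∀ j < D.ns τ, D.m τ (π i) (π j) = s i * s j * D.m τ i j

variable {D}

theorem SP.sum {τ ab : ℕ} {ac π : ℕ → ℕ} {s : ℕ → ℤ} (h : D.SP τ ab ac π s) (F : ℕ → ℤ) :
    ∑ i ∈ range (D.ns τ), F i = ∑ i ∈ range (D.ns τ), F (π i) := by
  have hmaps : Set.MapsTo π (range (D.ns τ) : Finset ℕ) (range (D.ns τ) : Finset ℕ) := by
    intro i hi
    rw [Finset.mem_coe, Finset.mem_range] at hi ⊢
    exact h.hπ i hi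
  have hsurj : Set.SurjOn π (range (D.ns τ) : Finset ℕ) (range (D.ns τ) : Finset ℕ) := by
    intro i hi
    rw [Finset.mem_coe, Finset.mem_range] at hi
    obtain ⟨j, hj, hj2⟩ := h.hs i hi
    exact ⟨j, by rw [Finset.mem_coe, Finset.mem_range]; exact hj, hj2⟩
  have hinj : Set.InjOn π (range (D.ns τ) : Finset ℕ) :=
    Finset.injOn_of_surjOn_of_card_le π hmaps hsurj le_rfl
  symm
  exact Finset.sum_nbij π hmaps hinj hsurj fun i _ => rfl

theorem SP.good {τ ab : ℕ} {ac π : ℕ → ℕ} {s : ℕ → ℤ} (h : D.SP τ ab ac π s) :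
    D.Good τ τ ab ac := by
  intro z z'
  have e1 : D.bil τ z z' = ∑ i ∈ range (D.ns τ), ∑ j ∈ range (D.ns τ), D.m τ (π i) (π j) *
      (D.fn τ (π i) z * D.fn τ (π j) z') := by
    unfold bil
    rw [h.sum fun i => ∑ j ∈ range (D.ns τ), D.m τ i j * (D.fn τ i z * D.fn τ j z')]
    refine Finset.sum_congr rfl fun i _ => ?_
    exact h.sum fun j => D.m τ (π i) j * (D.fn τ (π i) z * D.fn τ j z')
  rw [e1]
  unfold bil
  refine Finset.sum_congr rfl fun i hi => ?_
  have hi' := Finset.mem_range.mp hi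
  refine Finset.sum_congr rfl fun j hj => ?_
  have hj' := Finset.mem_range.mp hj
  rw [h.hm i hi' j hj', h.hf i hi', h.hf j hj']
  ring

end FD

/-! ### Loops over a list -/

/-- A check of all entries of a list. -/
def allA {α : Type} (chk : ℕ → α → Bool) (l : List α) : ℕ → Bool :=
  @List.rec α (fun _ => ℕ → Bool) (fun _ => true)
    (fun r _ ih i => @Bool.rec (fun _ => Bool) false (ih (Nat.succ i)) (chk i r)) l

theorem allA_spec {α : Type} (d : α) (chk : ℕ → α → Bool) (l : List α) : ∀ i,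
    allA chk l i = true → ∀ k < l.length, chk (i + k) (l.getD k d) = true := by
  induction l with
  | nil => intro i _ k hk; exact absurd hk (by simp)
  | cons r l ih =>
    intro i h k hk
    have e1 : allA chk (r :: l) i = @Bool.rec (fun _ => Bool) false (allA chk l (Nat.succ i))
      (chk i r) := rfl
    rw [e1, bool_rec_and, Bool.and_eq_true] at h
    cases k with
    | zero => exact h.1
    | succ k =>
      have h2 := ih _ h.2 k (by simpa using hk)
      have e2 : i + (k + 1) = Nat.succ i + k := by rw [Nat.succ_eq_add_one]; ring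
      rw [e2]
      exact h2

/-! ### Automorphisms -/

/-- The data of an automorphism. -/
structure LK where
  /-- type -/
  ty : ℕ
  /-- constant -/
  ab : ℕ
  /-- columns -/
  ac : List ℕ
  /-- program of the linear map -/
  pg : List (ℕ × ℕ × ℕ)
  /-- permutation of the functions -/
  P : ℕ
  /-- signs -/
  S : ℕ

/-- The transported table. -/
def trG (w : ℕ) (L : LK) (t : ℕ) : ℕ := ruG w L.pg 10 (xkG w 10 L.ab 10 t)

/-- Comparison of two entries. -/
def cmpG (W of P S i r r' j : ℕ) : Bool :=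
  Nat.beq (lnG W r' (lnG 16 P j))
    (@Bool.rec (fun _ => ℕ) (Nat.sub (Nat.mul 2 of) (lnG W r j)) (lnG W r j)
      (@Bool.rec (fun _ => Bool) (@Bool.rec (fun _ => Bool) true false (bG S j)) (bG S j) (bG S i)))

/-- The sign. -/
def sgS (S i : ℕ) : ℤ := if S.testBit i = true then -1 else 1

/-- The check of the affine map. -/
def cmaG (L : LK) : Bool :=
  decide (L.ac.length = 10 ∧ L.ab < 1024) && ((L.ac.all fun c => decide (c < 1024)) &&
    (okR L.pg 10 && (Nat.beq (ndG L.pg 10) 10 &&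
      allN (fun r => !(bG (syG L.pg 10 r) 0) &&
        allN (fun k => bG (syG L.pg 10 r) (k + 1) == bG (nthG 0 L.ac k) r) 10) 10)))

namespace TF
variable (D : TF)

/-- Comparison of the tables. -/
def cmfG (L : LK) (l : List (ℕ × ℕ × ℕ)) : Bool :=
  allA (fun i e => Nat.beq (trG D.w L e.1)
    (@Bool.rec (fun _ => ℕ) (nthG (0, 0, 0) l (lnG 16 L.P i)).1
      (Nat.sub (Nat.mul (Nat.mul 2 D.fo) (onG D.w 1024)) (nthG (0, 0, 0) l (lnG 16 L.P i)).1)
      (bG L.S i))) l 0

/-- Comparison of the rows. -/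
def cmrG (L : LK) (l : List (ℕ × ℕ × ℕ)) : Bool :=
  allA (fun i e => allN (cmpG D.W D.of L.P L.S i e.2.2
    (nthG (0, 0, 0) l (lnG 16 L.P i)).2.2) (Nat.succ i)) l 0

/-- The check of a link. -/
def lkG (L : LK) (l : List (ℕ × ℕ × ℕ)) : Bool :=
  Nat.beq (orG L.P l.length) (Nat.sub (Nat.pow 2 l.length) 1) && (cmaG L &&
    (D.cmfG L l && D.cmrG L l))

variable {D}

theorem link_good (L : LK) (hw : 0 < D.w) (hfw : 2 * D.fo < 2 ^ D.w) (ht : D.TyOK (D.L L.ty))
    (ht2 : ∀ e ∈ D.L L.ty, e.1 < 2 ^ (D.w * 1024))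
    (hsym : ∀ i < (D.L L.ty).length, ∀ j < (D.L L.ty).length,
      D.fd.m L.ty i j = D.fd.m L.ty j i)
    (hL : D.lkG L (D.L L.ty) = true) :
    L.ac.length = 10 ∧ D.fd.Good L.ty L.ty L.ab fun k => L.ac.getD k 0 := by
  unfold lkG at hL
  rw [Bool.and_eq_true, Bool.and_eq_true, Bool.and_eq_true] at hL
  obtain ⟨h1, h2, h3, h4⟩ := hL
  unfold cmaG at h2
  rw [Bool.and_eq_true, Bool.and_eq_true, Bool.and_eq_true, Bool.and_eq_true] at h2
  obtain ⟨a1, a2, a3, a4, a5⟩ := h2
  obtain ⟨a0, a1⟩ := of_decide_eq_true a1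
  rw [List.all_eq_true] at a2
  have a4 := Nat.eq_of_beq_eq_true a4
  set l := D.L L.ty with hl
  set n := l.length with hn
  have h1' : orG L.P n = 2 ^ n - 1 := Nat.eq_of_beq_eq_true h1
  have hb : ∀ r, (∃ i < n, Ln 16 L.P i = r) ↔ r < n := by
    intro r
    rw [← orG_bit, h1', Nat.testBit_two_pow_sub_one, decide_eq_true_eq]
  have hπ : ∀ i < n, Ln 16 L.P i < n := fun i hi => (hb _).mp ⟨i, hi, rfl⟩
  refine ⟨a0, ?_⟩
  set A : ℕ → ℕ := fun z => L.ab ^^^ app (fun k => L.ac.getD k 0) z with hA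
  have hAlt : ∀ z, A z < 1024 := by
    intro z
    have h5 : app (fun k => L.ac.getD k 0) z < 2 ^ 10 := by
      apply lx_lt
      intro k hk
      have := of_decide_eq_true (a2 (L.ac.getD k 0) (getD_mem' L.ac k 0 (by omega)))
      exact this
    exact Nat.xor_lt_two_pow (n := 10) a1 h5
  -- the index after the program
  have hidx : ∀ z, idx 10 (fun r => seG L.pg 10 z.testBit r ^^ (decide (r < 10) &&
      L.ab.testBit r)) = A z := by
    intro z
    apply Nat.eq_of_testBit_eq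
    intro r
    rw [testBit_idx]
    by_cases hr : r < 10
    · rw [decide_eq_true hr, Bool.true_and, Bool.true_and]
      have h5 := allN_spec _ _ a5 r hr
      rw [Bool.and_eq_true, bG_eq, Bool.not_eq_true'] at h5
      obtain ⟨h6, h7⟩ := h5
      rw [seG_eq 10 z.testBit L.pg 10 a3 (by rw [a4]) r hr, lf_eq_xo 10 _ _ h6, hA]
      simp only
      have h8 : (app (fun k => L.ac.getD k 0) z).testBit r =
          xo 10 fun k => z.testBit k && (L.ac.getD k 0).testBit r := testBit_lx _ _ _ _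
      rw [Nat.testBit_xor, h8, Bool.xor_comm]
      congr 1
      apply xo_congr
      intro k hk
      have h9 := allN_spec _ _ h7 k hk
      have h10 := eq_of_beq h9
      rw [bG_eq, bG_eq, nthG_eq] at h10
      rw [h10]
    · rw [decide_eq_false hr, Bool.false_and]
      symm
      apply Nat.testBit_lt_two_pow
      exact lt_of_lt_of_le (hAlt z) (by
        rw [show (1024 : ℕ) = 2 ^ 10 from rfl]
        exact Nat.pow_le_pow_right (by norm_num) (by omega))
  have hti : ∀ i < n, (l.getD i (0, 0, 0)).1 < 2 ^ (D.w * 2 ^ 10) := fun i hi =>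
    ht2 _ (getD_mem' l i (0, 0, 0) hi)
  have htr : ∀ i < n, ∀ z, Ln D.w (trG D.w L (l.getD i (0, 0, 0)).1) (z % 1024) =
      Ln D.w (l.getD i (0, 0, 0)).1 (A z) := by
    intro i hi z
    have h5 : Ar D.w 10 (l.getD i (0, 0, 0)).1 fun b => Ln D.w (l.getD i (0, 0, 0)).1 (idx 10 b) :=
      ⟨hti i hi, fun b => rfl⟩
    have h6 := xkG_ar (k := L.ab) hw h5 10 le_rfl
    have h7 := ruG_ar hw L.pg 10 _ _ a3 h6
    rw [a4] at h7
    have h8 := h7.get (z % 1024).testBit
    rw [idx_testBit 10 (z % 1024) (Nat.mod_lt _ (by norm_num))] at h8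
    have h9 := hidx (z % 1024)
    have h10 : A (z % 1024) = A z := by
      rw [hA]
      simp only
      congr 1
      have e : ∀ z, app (fun k => L.ac.getD k 0) z = lx 10 (fun k => L.ac.getD k 0) z.testBit :=
        fun _ => rfl
      rw [e, e]
      apply lx_congr
      · intro k hk
        rw [show (1024 : ℕ) = 2 ^ 10 from rfl, Nat.testBit_mod_two_pow]
        simp [hk]
      · intro k _
        rfl
    refine Eq.trans h8 ?_
    rw [← h10, ← h9]
  have hfn : ∀ i z, D.fd.fn L.ty i z = ((Ln D.w (l.getD i (0, 0, 0)).1 (z % 1024) : ℕ) : ℤ) - D.fo :=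
    fun i z => rfl
  have hf : ∀ i < n, ∀ z, D.fd.fn L.ty i (A z) = sgS L.S i * D.fd.fn L.ty (Ln 16 L.P i) z := by
    intro i hi z
    have h5 := allA_spec (0, 0, 0) _ l 0 h3 i hi
    rw [Nat.zero_add] at h5
    have h6 := Nat.eq_of_beq_eq_true h5
    rw [nthG_eq, lnG_eq, bG_eq] at h6
    rw [hfn, hfn, Nat.mod_eq_of_lt (hAlt z), ← htr i hi z, h6, sgS]
    have hb2 := ht.ht _ (getD_mem' l _ (0, 0, 0) (hπ i hi)) (z % 1024) (Nat.mod_lt _ (by norm_num))
    cases hS : L.S.testBit i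
    · rw [if_neg (by simp), one_mul]
    · rw [if_pos rfl]
      have hon : ∀ j, Ln D.w (Nat.mul (Nat.mul 2 D.fo) (onG D.w 1024)) j =
          if j < 1024 then 2 * D.fo else 0 := fun j => Ln_mul_onG hw _ hfw 1024 j
      have hle : ∀ j, Ln D.w (l.getD (Ln 16 L.P i) (0, 0, 0)).1 j ≤
          Ln D.w (Nat.mul (Nat.mul 2 D.fo) (onG D.w 1024)) j := by
        intro j
        rw [hon]
        by_cases hj : j < 1024
        · rw [if_pos hj]
          exact ht.ht _ (getD_mem' l _ (0, 0, 0) (hπ i hi)) j hj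
        · rw [if_neg hj]
          have := Ln_eq_zero_of_lt D.w _ 1024 j (hti _ (hπ i hi)) (by omega)
          rw [this]
      have h7 := Ln_sub D.w _ _ hw hle (z % 1024)
      rw [hon, if_pos (Nat.mod_lt _ (by norm_num))] at h7
      have e : Ln D.w ((Nat.mul (Nat.mul 2 D.fo) (onG D.w 1024)).sub
          (l.getD (Ln 16 L.P i) (0, 0, 0)).1) (z % 1024) =
          2 * D.fo - Ln D.w (l.getD (Ln 16 L.P i) (0, 0, 0)).1 (z % 1024) := h7
      rw [e, Nat.cast_sub hb2]
      push_cast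
      ring
  have hm1 : ∀ i j, D.fd.m L.ty i j =
      ((Ln D.W (l.getD i (0, 0, 0)).2.2 j : ℕ) : ℤ) - D.of := fun i j => rfl
  have key : ∀ i < n, ∀ j ≤ i, D.fd.m L.ty (Ln 16 L.P i) (Ln 16 L.P j) = sgS L.S i *
      sgS L.S j * D.fd.m L.ty i j := by
    intro i hi j hj
    have h6 := allA_spec (0, 0, 0) _ l 0 h4 i hi
    rw [Nat.zero_add] at h6
    have h7 := allN_spec _ _ h6 j (by rw [Nat.succ_eq_add_one]; omega)
    have h8 := Nat.eq_of_beq_eq_true h7
    rw [lnG_eq, lnG_eq, lnG_eq, lnG_eq, nthG_eq, bG_eq, bG_eq] at h8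
    have hub := (ht.hr _ (getD_mem' l i (0, 0, 0) hi)).2.1 j (by omega)
    rw [hm1, hm1, h8, sgS, sgS]
    have e : (2 : ℕ).mul D.of = 2 * D.of := rfl
    have e2 : (2 * D.of).sub (Ln D.W (l.getD i (0, 0, 0)).2.2 j) =
      2 * D.of - Ln D.W (l.getD i (0, 0, 0)).2.2 j := rfl
    cases L.S.testBit i <;> cases L.S.testBit j
    · simp
    · simp only [e, e2]
      rw [Nat.cast_sub hub]
      push_cast
      simp
      ring
    · simp only [e, e2]
      rw [Nat.cast_sub hub]
      push_cast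
      simp
      ring
    · simp
  have hsp : D.fd.SP L.ty L.ab (fun k => L.ac.getD k 0) (fun i => Ln 16 L.P i)
      fun i => sgS L.S i := by
    refine ⟨fun i hi => hπ i hi, fun i hi => (hb i).mpr hi, fun i hi z => hf i hi z, ?_⟩
    intro i hi j hj
    rcases Nat.le_total j i with hji | hji
    · exact key i hi j hji
    · have h6 := key j hj i hji
      rw [hsym _ (hπ i hi) _ (hπ j hj), h6, hsym j hj i hi]
      ring
  exact hsp.good

end TF

end Pool.Agent.Lib.MP_afdd4d_co.K8
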