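import Pool.Agent.Lib.MP_afdd4d_co.K8.G6Lin

/-!
# Arrays of integers with an offset
-/

namespace Pool.Agent.Lib.MP_afdd4d_co.K8

open Finset

/-- `A` has `N` lanes with the values `o + f i`, bounded by `U`. -/
structure Lz (W N U A : ℕ) (o : ℤ) (f : ℕ → ℤ) : Prop where
  lt : A < 2 ^ (W * N)
  get : ∀ i < N, ((Ln W A i : ℕ) : ℤ) = o + f i
  bd : ∀ i < N, Ln W A i ≤ U

namespace Lz
variable {W N U V A B : ℕ} {o o' : ℤ} {f g : ℕ → ℤ}

theorem out (h : Lz W N U A o f) (i : ℕ) (hi : N ≤ i) : Ln W A i = 0 :=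
  Ln_eq_zero_of_lt _ _ _ _ h.lt hi

theorem bd' (h : Lz W N U A o f) (i : ℕ) : Ln W A i ≤ U ∨ Ln W A i = 0 := by
  by_cases hi : i < N
  · exact Or.inl (h.bd i hi)
  · exact Or.inr (h.out i (not_lt.mp hi))

theorem bd0 (h : Lz W N U A o f) (i : ℕ) : Ln W A i ≤ U := by
  rcases h.bd' i with h1 | h1
  · exact h1
  · rw [h1]; exact Nat.zero_le _

theorem congr (h : Lz W N U A o f) (ho : o = o') (hf : ∀ i < N, f i = g i) : Lz W N U A o' g :=
  ⟨h.lt, fun i hi => by rw [h.get i hi, hf i hi, ho], h.bd⟩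

theorem mono (h : Lz W N U A o f) (hU : U ≤ V) : Lz W N V A o f :=
  ⟨h.lt, h.get, fun i hi => le_trans (h.bd i hi) hU⟩

theorem add (hA : Lz W N U A o f) (hB : Lz W N V B o' g) (hW : 0 < W) (h : U + V < 2 ^ W) :
    Lz W N (U + V) (A + B) (o + o') fun i => f i + g i := by
  have h0 : ∀ i, Ln W A i + Ln W B i < 2 ^ W := by
    intro i
    have h1 := hA.bd0 i
    have h2 := hB.bd0 i
    omega
  refine ⟨?_, fun i hi => ?_, fun i hi => ?_⟩
  · apply lt_of_Ln_eq_zero _ _ _ hW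
    intro i hi
    rw [Ln_add _ _ _ h0, hA.out i hi, hB.out i hi]
  · rw [Ln_add _ _ _ h0, Nat.cast_add, hA.get i hi, hB.get i hi]
    ring
  · rw [Ln_add _ _ _ h0]
    exact Nat.add_le_add (hA.bd i hi) (hB.bd i hi)

theorem sub (hA : Lz W N U A o f) (hB : Lz W N V B o' g) (hW : 0 < W)
    (h : ∀ i < N, Ln W B i ≤ Ln W A i) :
    Lz W N U (A - B) (o - o') fun i => f i - g i := by
  have h0 : ∀ i, Ln W B i ≤ Ln W A i := by
    intro i
    by_cases hi : i < N
    · exact h i hi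
    · rw [hA.out i (not_lt.mp hi), hB.out i (not_lt.mp hi)]
  refine ⟨?_, fun i hi => ?_, fun i hi => ?_⟩
  · apply lt_of_Ln_eq_zero _ _ _ hW
    intro i hi
    rw [Ln_sub _ _ _ hW h0, hA.out i hi, hB.out i hi]
  · rw [Ln_sub _ _ _ hW h0, Nat.cast_sub (h0 i), hA.get i hi, hB.get i hi]
    ring
  · rw [Ln_sub _ _ _ hW h0]
    exact le_trans (Nat.sub_le _ _) (hA.bd i hi)

theorem smul (c : ℕ) (hA : Lz W N U A o f) (hW : 0 < W) (h : c * U < 2 ^ W) :
    Lz W N (c * U) (c * A) (c * o) fun i => c * f i := by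
  have h0 : ∀ i, c * Ln W A i < 2 ^ W := fun i =>
    lt_of_le_of_lt (Nat.mul_le_mul_left _ (hA.bd0 i)) h
  refine ⟨?_, fun i hi => ?_, fun i hi => ?_⟩
  · apply lt_of_Ln_eq_zero _ _ _ hW
    intro i hi
    rw [Ln_smul _ _ _ h0, hA.out i hi, mul_zero]
  · rw [Ln_smul _ _ _ h0, Nat.cast_mul, hA.get i hi]
    ring
  · rw [Ln_smul _ _ _ h0]
    exact Nat.mul_le_mul_left _ (hA.bd i hi)

theorem zero (W N : ℕ) : Lz W N 0 0 0 fun _ => 0 :=
  ⟨Nat.two_pow_pos _, fun i _ => by rw [Ln_zero_left]; simp, fun i _ => by rw [Ln_zero_left]⟩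

end Lz

theorem Lz.mod {W N N' U A : ℕ} {o : ℤ} {f : ℕ → ℤ} (h : Lz W N' U A o f) (hN : N ≤ N') :
    Lz W N U (A % 2 ^ (W * N)) o f := by
  refine ⟨Nat.mod_lt _ (Nat.two_pow_pos _), fun i hi => ?_, fun i hi => ?_⟩
  · rw [Ln_mod, if_pos hi]
    exact h.get i (by omega)
  · rw [Ln_mod, if_pos hi]
    exact h.bd i (by omega)

/-! ### Selection of columns -/

theorem mod_two_beq (n : ℕ) : Nat.beq (Nat.mod n 2) 1 = n.testBit 0 := by
  have e1 : Nat.mod n 2 = n % 2 := rfl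
  rw [e1, Nat.testBit_zero]
  rcases Nat.mod_two_eq_zero_or_one n with h | h <;> rw [h] <;> rfl

/-- The number `a` with the entries of `l` selected by the bits of `n` added. -/
def selG (l : List ℕ) : ℕ → ℕ → ℕ :=
  @List.rec ℕ (fun _ => ℕ → ℕ → ℕ) (fun _ a => a)
    (fun m _ ih n a => ih (Nat.div n 2)
      (@Bool.rec (fun _ => ℕ) a (Nat.xor a m) (Nat.beq (Nat.mod n 2) 1))) l

theorem lx_cons (n : ℕ) (c : ℕ → ℕ) (b : ℕ → Bool) :
    lx (n + 1) c b = (if b 0 = true then c 0 else 0) ^^^ lx n (fun k => c (k + 1))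
      fun k => b (k + 1) := by
  have h := lx_add 1 n c b
  rw [add_comm 1 n] at h
  rw [h]
  have e : lx 1 c b = if b 0 = true then c 0 else 0 := by
    rw [lx, lx, Nat.zero_xor]
  rw [e]
  congr 1
  apply lx_congr
  · intro k _
    rw [add_comm]
  · intro k _
    rw [add_comm]

theorem selG_eq (l : List ℕ) : ∀ n a : ℕ, selG l n a = a ^^^ lx l.length (fun k => l.getD k 0) n.testBit := by
  induction l with
  | nil => intro n a; rw [List.length_nil, lx, Nat.xor_zero]; rfl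
  | cons m l ih =>
    intro n a
    have e1 : selG (m :: l) n a = selG l (Nat.div n 2)
      (@Bool.rec (fun _ => ℕ) a (Nat.xor a m) (Nat.beq (Nat.mod n 2) 1)) := rfl
    rw [e1, ih, List.length_cons, lx_cons, mod_two_beq]
    have e2 : (@Bool.rec (fun _ => ℕ) a (Nat.xor a m) (n.testBit 0)) =
        a ^^^ (if n.testBit 0 = true then (m :: l).getD 0 0 else 0) := by
      cases n.testBit 0
      · simp
      · simp
    rw [e2, Nat.xor_assoc]
    congr 2
    apply lx_congr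
    · intro k _
      have e3 : Nat.div n 2 = n / 2 := rfl
      rw [e3, Nat.testBit_div_two]
    · intro k _
      rfl

theorem sum_range_cons (n : ℕ) (f : ℕ → ℤ) :
    ∑ k ∈ range (n + 1), f k = f 0 + ∑ k ∈ range n, f (k + 1) := by
  rw [Finset.sum_range_succ', add_comm]

end Pool.Agent.Lib.MP_afdd4d_co.K8
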