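import Pool.Agent.Lib.MP_afdd4d_co.K8.F6Chk

/-!
# The check of a factorisation in parts
-/

namespace Pool.Agent.Lib.MP_afdd4d_co.K8

theorem allR_append (chk : ℕ → ℕ → Bool) (l l' : List ℕ) : ∀ i,
    allR chk (l ++ l') i = (allR chk l i && allR chk l' (i + l.length)) := by
  induction l with
  | nil => intro i; rfl
  | cons r l ih =>
    intro i
    have e1 : allR chk (r :: (l ++ l')) i = @Bool.rec (fun _ => Bool) false
      (allR chk (l ++ l') (Nat.succ i)) (chk i r) := rfl
    have e2 : allR chk (r :: l) i = @Bool.rec (fun _ => Bool) false (allR chk l (Nat.succ i))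
      (chk i r) := rfl
    rw [List.cons_append, e1, e2, bool_rec_and, bool_rec_and, ih, List.length_cons, Bool.and_assoc]
    congr 3
    rw [Nat.succ_eq_add_one]
    ring

theorem allR_parts (chk : ℕ → ℕ → Bool) (m : ℕ) : ∀ (k : ℕ) (l : List ℕ) (i : ℕ),
    l.length ≤ m * k →
    (∀ j < k, allR chk ((l.drop (m * j)).take m) (i + m * j) = true) → allR chk l i = true := by
  intro k
  induction k with
  | zero =>
    intro l i hl _
    have : l = [] := by
      rw [Nat.mul_zero, Nat.le_zero] at hl
      exact List.length_eq_zero_iff.mp hl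
    rw [this]
    rfl
  | succ k ih =>
    intro l i hl h
    by_cases h0 : l.length ≤ m
    · have h1 := h 0 (Nat.succ_pos k)
      rw [Nat.mul_zero, List.drop_zero, Nat.add_zero, List.take_of_length_le h0] at h1
      exact h1
    · have e := List.take_append_drop m l
      rw [← e, allR_append, Bool.and_eq_true]
      have h1 := h 0 (Nat.succ_pos k)
      rw [Nat.mul_zero, List.drop_zero, Nat.add_zero] at h1
      refine ⟨h1, ?_⟩
      have h2 : (l.take m).length = m := by rw [List.length_take]; omega
      rw [h2]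
      refine ih (l.drop m) (i + m) ?_ ?_
      · rw [List.length_drop]
        have h4 : m * (k + 1) = m * k + m := by ring
        rw [h4] at hl
        omega
      · intro j hj
        have h3 := h (j + 1) (by omega)
        rw [List.drop_drop]
        have e1 : m + m * j = m * (j + 1) := by ring
        have e2 : i + m + m * j = i + m * (j + 1) := by ring
        rw [e1, e2]
        exact h3

/-- Two checks of consecutive numbers. -/
theorem allN_join (f : ℕ → Bool) (b m n c : ℕ) {k : ℕ} (hc : Nat.add b m = c) (hk : Nat.add m n = k)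
    (h1 : allN (fun i => f (Nat.add b i)) m = true) (h2 : allN (fun i => f (Nat.add c i)) n = true) :
    allN (fun i => f (Nat.add b i)) k = true := by
  subst hk
  induction n with
  | zero => exact h1
  | succ n ih =>
    have e1 : allN (fun i => f (Nat.add c i)) (n + 1) = @Bool.rec (fun _ => Bool) false
      (allN (fun i => f (Nat.add c i)) n) (f (Nat.add c n)) := rfl
    have e2 : allN (fun i => f (Nat.add b i)) (Nat.add m (n + 1)) = @Bool.rec (fun _ => Bool) false
      (allN (fun i => f (Nat.add b i)) (Nat.add m n)) (f (Nat.add b (Nat.add m n))) := rfl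
    rw [e1, bool_rec_and, Bool.and_eq_true] at h2
    rw [e2, bool_rec_and, Bool.and_eq_true]
    refine ⟨?_, ih h2.2⟩
    have e3 : Nat.add b (Nat.add m n) = Nat.add c n := by
      rw [← hc]
      exact (Nat.add_assoc b m n).symm
    rw [e3]
    exact h2.1

/-- The conditions apart from the factorisation. -/
def PD.chk0 (P : PD) (W of h : ℕ) (R : List ℕ) : Bool :=
  decide (R.length ≤ 2 * h ∧ 2 * h ≤ R.length + 1) && (P.num W of &&
    ((P.ws.all fun w => wbG W (2 * h) P.k w) && (idG W h P && (pidG W h P R &&
    (nuG W of R P.nul && symG W of R)))))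

/-- The rows `m * j, …, m * j + m - 1` of the factorisation. -/
def PD.chkP (P : PD) (W of h : ℕ) (R : List ℕ) (m j : ℕ) : Bool :=
  allR (fun i r => fchG (2 * W) of (2 * h) P.Dn P.t (2 ^ (2 * W - 2)) (2 ^ P.k)
    (Nat.mul (2 * 2 ^ P.k) (onG (2 * W) (2 * h + 1))) P.ind (P.ws.map (exW W h (2 ^ P.k)))
    (sgG h i) (cvG W h r)) ((R.drop (Nat.mul m j)).take m) (Nat.mul m j)

theorem PD.chk_of (P : PD) (W of h : ℕ) (R : List ℕ) (m k : ℕ) (h0 : P.chk0 W of h R = true)
    (hl : R.length ≤ m * k) (hp : ∀ j < k, P.chkP W of h R m j = true) :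
    P.chk W of h R = true := by
  have hf : faG W of h P R = true := by
    unfold faG
    refine allR_parts _ m k R 0 hl fun j hj => ?_
    rw [Nat.zero_add]
    exact hp j hj
  unfold PD.chk0 at h0
  unfold PD.chk
  rw [Bool.and_eq_true, Bool.and_eq_true, Bool.and_eq_true, Bool.and_eq_true, Bool.and_eq_true,
    Bool.and_eq_true] at h0
  obtain ⟨h1, h2, h3, h4, h5, h6, h7⟩ := h0
  rw [h1, h2, h3, h4, h5, h6, h7, hf]
  rfl

end Pool.Agent.Lib.MP_afdd4d_co.K8
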