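import Pool.Agent.Lib.MP_afdd4d_co.K8.F6Cmb

/-!
# Positive semidefinite matrices from integer data
-/

namespace Pool.Agent.Lib.MP_afdd4d_co.K8

open Finset

section gen
variable (n : ℕ) (m : ℕ → ℕ → ℤ)

/-- The quadratic form. -/
def qf (a : ℕ → ℝ) : ℝ := ∑ i ∈ range n, ∑ j ∈ range n, (m i j : ℝ) * (a i * a j)

theorem qf_dd (R : ℕ → ℕ → ℤ) (ρ : ℤ) (hρ : 0 ≤ ρ) (F : Finset ℕ) (hF : F ⊆ range n)
    (h1 : ∀ i ∈ F, ∀ j ∈ F, i ≠ j → |R i j| ≤ ρ) (h2 : ∀ i ∈ F, (n : ℤ) * ρ ≤ R i i)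
    (a : ℕ → ℝ) : 0 ≤ ∑ i ∈ F, ∑ j ∈ F, (R i j : ℝ) * (a i * a j) := by
  have hρR : (0 : ℝ) ≤ ρ := by exact_mod_cast hρ
  have hcard : F.card ≤ n := by
    have := Finset.card_le_card hF
    rwa [Finset.card_range] at this
  have key : ∀ i ∈ F, ∀ j ∈ F, (if i = j then ((n : ℝ) * ρ) * (a i * a i) else 0) -
      ρ * ((a i ^ 2 + a j ^ 2) / 2) ≤ (R i j : ℝ) * (a i * a j) := by
    intro i hi j hj
    by_cases hij : i = j
    · subst hij
      rw [if_pos rfl]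
      have h3 : ((n : ℝ) * ρ) ≤ (R i i : ℝ) := by exact_mod_cast h2 i hi
      have h4 : 0 ≤ a i * a i := mul_self_nonneg _
      have h5 : ((n : ℝ) * ρ) * (a i * a i) ≤ (R i i : ℝ) * (a i * a i) :=
        mul_le_mul_of_nonneg_right h3 h4
      have h6 : 0 ≤ ρ * ((a i ^ 2 + a i ^ 2) / 2) := by positivity
      linarith
    · rw [if_neg hij]
      have h3 : |(R i j : ℝ)| ≤ ρ := by exact_mod_cast h1 i hi j hj hij
      have h4 : |(R i j : ℝ) * (a i * a j)| ≤ ρ * ((a i ^ 2 + a j ^ 2) / 2) := by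
        rw [abs_mul]
        have h5 : |a i * a j| ≤ (a i ^ 2 + a j ^ 2) / 2 := by
          rw [abs_le]
          constructor
          · nlinarith [sq_nonneg (a i + a j)]
          · nlinarith [sq_nonneg (a i - a j)]
        exact mul_le_mul h3 h5 (abs_nonneg _) hρR
      have h5 := (abs_le.mp h4).1
      linarith
  have h3 : ∑ i ∈ F, ∑ j ∈ F, ((if i = j then ((n : ℝ) * ρ) * (a i * a i) else 0) -
      ρ * ((a i ^ 2 + a j ^ 2) / 2)) ≤ ∑ i ∈ F, ∑ j ∈ F, (R i j : ℝ) * (a i * a j) :=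
    Finset.sum_le_sum fun i hi => Finset.sum_le_sum fun j hj => key i hi j hj
  refine le_trans ?_ h3
  have h4 : ∀ i ∈ F, ∑ j ∈ F, ((if i = j then ((n : ℝ) * ρ) * (a i * a i) else 0) -
      ρ * ((a i ^ 2 + a j ^ 2) / 2)) =
      ((n : ℝ) * ρ) * (a i * a i) - ρ / 2 * (F.card * a i ^ 2 + ∑ j ∈ F, a j ^ 2) := by
    intro i hi
    rw [Finset.sum_sub_distrib, Finset.sum_ite_eq, if_pos hi]
    congr 1
    have : ∀ j ∈ F, ρ * ((a i ^ 2 + a j ^ 2) / 2) = ρ / 2 * (a i ^ 2 + a j ^ 2) := by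
      intro j _
      ring
    rw [Finset.sum_congr rfl this, ← Finset.mul_sum, Finset.sum_add_distrib, Finset.sum_const,
      nsmul_eq_mul]
  rw [Finset.sum_congr rfl h4, Finset.sum_sub_distrib, ← Finset.mul_sum]
  have h5 : ∑ i ∈ F, ρ / 2 * (F.card * a i ^ 2 + ∑ j ∈ F, a j ^ 2) =
      ρ * (F.card * ∑ j ∈ F, a j ^ 2) := by
    rw [← Finset.mul_sum, Finset.sum_add_distrib, Finset.sum_const, nsmul_eq_mul,
      ← Finset.mul_sum]
    ring
  rw [h5]
  have h6 : ∑ i ∈ F, ((n : ℝ) * ρ) * (a i * a i) = ρ * (n * ∑ j ∈ F, a j ^ 2) := by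
    rw [← Finset.mul_sum]
    have : ∑ i ∈ F, a i * a i = ∑ j ∈ F, a j ^ 2 := by
      refine Finset.sum_congr rfl fun i _ => ?_
      ring
    rw [this]
    ring
  have h7 : ∑ i ∈ F, (n : ℝ) * ρ * (a i * a i) = ρ * (n * ∑ j ∈ F, a j ^ 2) := h6
  have h8 : (n : ℝ) * ρ * ∑ i ∈ F, a i * a i = ρ * (n * ∑ j ∈ F, a j ^ 2) := by
    rw [← h7, Finset.mul_sum]
  rw [h8]
  have h9 : (F.card : ℝ) ≤ n := by exact_mod_cast hcard
  have h10 : 0 ≤ ∑ j ∈ F, a j ^ 2 := Finset.sum_nonneg fun j _ => sq_nonneg _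
  have h11 : ρ * (F.card * ∑ j ∈ F, a j ^ 2) ≤ ρ * (n * ∑ j ∈ F, a j ^ 2) :=
    mul_le_mul_of_nonneg_left (mul_le_mul_of_nonneg_right h9 h10) hρR
  linarith

/-- The form is nonnegative on vectors supported on `F`. -/
theorem qf_supp (F : Finset ℕ) (hF : F ⊆ range n) (Dn : ℤ) (hDn : 0 < Dn) (K : ℕ)
    (w : ℕ → ℕ → ℤ) (ρ : ℤ) (hρ : 0 ≤ ρ)
    (h1 : ∀ i ∈ F, ∀ j ∈ F, i ≠ j → |Dn * m i j - ∑ k ∈ range K, w k i * w k j| ≤ ρ)
    (h2 : ∀ i ∈ F, (n : ℤ) * ρ ≤ Dn * m i i - ∑ k ∈ range K, w k i * w k i)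
    (a : ℕ → ℝ) (ha : ∀ i ∈ range n, i ∉ F → a i = 0) : 0 ≤ qf n m a := by
  have hDR : (0 : ℝ) < Dn := by exact_mod_cast hDn
  have h3 : qf n m a = ∑ i ∈ F, ∑ j ∈ F, (m i j : ℝ) * (a i * a j) := by
    unfold qf
    symm
    have e1 : ∀ i, ∑ j ∈ F, (m i j : ℝ) * (a i * a j) = ∑ j ∈ range n, (m i j : ℝ) * (a i * a j) := by
      intro i
      apply Finset.sum_subset hF
      intro j hj hjF
      rw [ha j hj hjF, mul_zero, mul_zero]
    rw [Finset.sum_congr rfl fun i _ => e1 i]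
    apply Finset.sum_subset hF
    intro i hi hiF
    refine Finset.sum_eq_zero fun j _ => ?_
    rw [ha i hi hiF, zero_mul, mul_zero]
  have h4 := qf_dd n (fun i j => Dn * m i j - ∑ k ∈ range K, w k i * w k j) ρ hρ F hF h1 h2 a
  have h5 : (Dn : ℝ) * qf n m a = ∑ k ∈ range K, (∑ i ∈ F, (w k i : ℝ) * a i) ^ 2 +
      ∑ i ∈ F, ∑ j ∈ F, ((Dn * m i j - ∑ k ∈ range K, w k i * w k j : ℤ) : ℝ) * (a i * a j) := by
    have e1 : ∀ k ∈ range K, (∑ i ∈ F, (w k i : ℝ) * a i) ^ 2 =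
        ∑ i ∈ F, ∑ j ∈ F, ((w k i * w k j : ℤ) : ℝ) * (a i * a j) := by
      intro k _
      rw [sq, Finset.sum_mul_sum]
      refine Finset.sum_congr rfl fun i _ => Finset.sum_congr rfl fun j _ => ?_
      push_cast
      ring
    rw [Finset.sum_congr rfl e1, h3, Finset.mul_sum, Finset.sum_comm, ← Finset.sum_add_distrib]
    refine Finset.sum_congr rfl fun i _ => ?_
    rw [Finset.sum_comm, ← Finset.sum_add_distrib, Finset.mul_sum]
    refine Finset.sum_congr rfl fun j _ => ?_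
    push_cast
    rw [← Finset.sum_mul]
    ring
  have h6 : 0 ≤ (Dn : ℝ) * qf n m a := by
    rw [h5]
    exact add_nonneg (Finset.sum_nonneg fun k _ => sq_nonneg _) h4
  exact nonneg_of_mul_nonneg_right h6 hDR

/-- A vector in the kernel does not change the form. -/
theorem qf_add (hs : ∀ i < n, ∀ j < n, m i j = m j i) (nv : ℕ → ℤ)
    (hn : ∀ j < n, ∑ i ∈ range n, nv i * m i j = 0) (a : ℕ → ℝ) (c : ℝ) :
    qf n m (fun i => a i + c * nv i) = qf n m a := by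
  have hn' : ∀ j ∈ range n, ∑ i ∈ range n, (m i j : ℝ) * nv i = 0 := by
    intro j hj
    have h := hn j (Finset.mem_range.mp hj)
    have h2 : ((∑ i ∈ range n, nv i * m i j : ℤ) : ℝ) = 0 := by rw [h]; simp
    push_cast at h2
    rw [← h2]
    refine Finset.sum_congr rfl fun i _ => ?_
    ring
  have hn2 : ∀ i ∈ range n, ∑ j ∈ range n, (m i j : ℝ) * nv j = 0 := by
    intro i hi
    rw [← hn' i hi]
    refine Finset.sum_congr rfl fun j hj => ?_
    rw [hs i (Finset.mem_range.mp hi) j (Finset.mem_range.mp hj)]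
  unfold qf
  have e1 : ∀ i ∈ range n, ∑ j ∈ range n, (m i j : ℝ) * ((a i + c * nv i) * (a j + c * nv j)) =
      ∑ j ∈ range n, (m i j : ℝ) * (a i * a j) + c * nv i * ∑ j ∈ range n, (m i j : ℝ) * a j := by
    intro i hi
    have e2 : ∀ j ∈ range n, (m i j : ℝ) * ((a i + c * nv i) * (a j + c * nv j)) =
        (m i j : ℝ) * (a i * a j) + c * nv i * ((m i j : ℝ) * a j) +
          (a i + c * nv i) * c * ((m i j : ℝ) * nv j) := by
      intro j _
      ring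
    rw [Finset.sum_congr rfl e2, Finset.sum_add_distrib, Finset.sum_add_distrib, ← Finset.mul_sum,
      ← Finset.mul_sum, hn2 i hi, mul_zero, add_zero]
  rw [Finset.sum_congr rfl e1, Finset.sum_add_distrib]
  have e3 : ∑ i ∈ range n, c * nv i * ∑ j ∈ range n, (m i j : ℝ) * a j = 0 := by
    have e4 : ∀ i ∈ range n, c * nv i * ∑ j ∈ range n, (m i j : ℝ) * a j =
        ∑ j ∈ range n, c * a j * ((m i j : ℝ) * nv i) := by
      intro i _
      rw [Finset.mul_sum]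
      refine Finset.sum_congr rfl fun j _ => ?_
      ring
    rw [Finset.sum_congr rfl e4, Finset.sum_comm]
    refine Finset.sum_eq_zero fun j hj => ?_
    rw [← Finset.mul_sum, hn' j hj, mul_zero]
  rw [e3, add_zero]

/-- The form is nonnegative if it is so on the vectors that vanish at the pivots of a list of kernel
vectors. -/
theorem qf_null (hs : ∀ i < n, ∀ j < n, m i j = m j i) (l : List (ℕ × (ℕ → ℤ))) :
    (∀ e ∈ l, e.1 < n ∧ e.2 e.1 ≠ 0 ∧ ∀ j < n, ∑ i ∈ range n, e.2 i * m i j = 0) →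
    (l.Pairwise fun e e' => e'.2 e.1 = 0) →
    (∀ a : ℕ → ℝ, (∀ e ∈ l, a e.1 = 0) → 0 ≤ qf n m a) → ∀ a : ℕ → ℝ, 0 ≤ qf n m a := by
  intro h1 h2 h3 a
  -- successive elimination of the pivots
  have key : ∀ l' : List (ℕ × (ℕ → ℤ)), ∀ l'' : List (ℕ × (ℕ → ℤ)), l = l'' ++ l' →
      ∀ a : ℕ → ℝ, (∀ e ∈ l'', a e.1 = 0) → 0 ≤ qf n m a := by
    intro l'
    induction l' with
    | nil =>
      intro l'' hl a ha
      rw [List.append_nil] at hl
      exact h3 a (by rw [hl]; exact ha)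
    | cons e l' ih =>
      intro l'' hl a ha
      have he : e ∈ l := by rw [hl]; simp
      obtain ⟨_, he1, he2⟩ := h1 e he
      have he1' : ((e.2 e.1 : ℤ) : ℝ) ≠ 0 := by exact_mod_cast he1
      have h4 := qf_add n m hs e.2 he2 a (-(a e.1) / e.2 e.1)
      rw [← h4]
      apply ih (l'' ++ [e])
      · rw [hl]; simp
      · intro e' he'
        rw [List.mem_append, List.mem_singleton] at he'
        rcases he' with h5 | h5
        · have h6 : e.2 e'.1 = 0 := by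
            rw [hl, List.pairwise_append] at h2
            exact h2.2.2 e' h5 e List.mem_cons_self
          rw [ha e' h5, h6]
          simp
        · rw [h5]
          field_simp
          ring
  exact key l [] rfl a (by intro e he; exact absurd he List.not_mem_nil)

end gen

end Pool.Agent.Lib.MP_afdd4d_co.K8
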