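import Pool.Agent.Lib.MP_afdd4d_co.K8.F6Cmb
import Pool.Agent.Lib.MP_afdd4d_co.K8.F6Kern

/-!
# Tables of a kernel of six-vertex types and its rows
-/

namespace Pool.Agent.Lib.MP_afdd4d_co.K8

open Finset

/-- The tables. -/
structure TF where
  /-- width of the lanes -/
  W : ℕ
  /-- width of the lanes of the function tables -/
  w : ℕ
  /-- offset of the entries of the matrices -/
  of : ℕ
  /-- offset of the values of the functions -/
  fo : ℕ
  /-- bound `2 ^ kv` for the intermediate values -/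
  kv : ℕ
  /-- bound `2 ^ kb` for the values of the kernel -/
  kb : ℕ
  /-- the types: tables, expanded tables and rows -/
  tp : List (List (ℕ × ℕ × ℕ))
  /-- patterns -/
  tab : ℕ
  /-- programs -/
  prg : List (List (ℕ × ℕ × ℕ))

namespace TF
variable (D : TF)

/-- The list of a type. -/
def L (τ : ℕ) : List (ℕ × ℕ × ℕ) := nthG [] D.tp τ

/-- The bound for the values, and the offset of the results. -/
def B : ℕ := Nat.pow 2 D.kb

/-- The offset of the intermediate results. -/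
def H : ℕ := Nat.pow 2 (Nat.sub D.W 2)

/-- The underlying kernel. -/
def fd : FD where
  ns := fun τ => (D.L τ).length
  fn := fun τ i z => ((Ln D.w ((D.L τ).getD i (0, 0, 0)).1 (z % 1024) : ℕ) : ℤ) - D.fo
  ty := fun p => Nat.mod (entG D.tab p) 256
  xb := fun p => conG (entG D.tab p)
  xc := fun p => colG (entG D.tab p)
  m := fun τ i j => ((Ln D.W ((D.L τ).getD i (0, 0, 0)).2.2 j : ℕ) : ℤ) - D.of

/-- The program of a pattern. -/
def pr (p : ℕ) : List (ℕ × ℕ × ℕ) := nthG [] D.prg (Nat.shiftRight (entG D.tab p) 118)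

/-- The products of the values of the functions at `z` with the rows. -/
def q1 (τ z : ℕ) : ℕ :=
  cmbG (Nat.mul (Nat.mul 2 D.of) (onG D.W (Nat.succ (D.L τ).length))) D.fo
    (fun _ e => lnG D.w e.1 z) (fun e => e.2.2) (D.L τ) 0 0

/-- The products with the functions. -/
def s2 (τ z : ℕ) : ℕ :=
  cmbG (Nat.mul (Nat.mul 2 D.fo) (onG D.W 1025)) (lnG D.W (D.q1 τ z) (D.L τ).length)
    (fun k _ => lnG D.W (D.q1 τ z) k) (fun e => e.2.1) (D.L τ) 0 0

/-- The row of `z` in the model of the type. -/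
def rt (τ z : ℕ) : ℕ :=
  Nat.sub (rcG D.W 1024 D.H (D.s2 τ z) (lnG D.W (D.s2 τ z) 1024))
    (Nat.mul (Nat.sub D.H D.B) (onG D.W 1024))

/-- The bounds hold. -/
def okZ (τ z : ℕ) : Bool :=
  @Bool.rec (fun _ => Bool) false
    (@Bool.rec (fun _ => Bool) false
      (inbG D.W 1024 D.kb D.H (rcG D.W 1024 D.H (D.s2 τ z) (lnG D.W (D.s2 τ z) 1024)))
      (Nat.ble (lnG D.W (D.s2 τ z) 1024) D.H))
    (inbG D.W (D.L τ).length D.kv D.H
      (rcG D.W (D.L τ).length D.H (D.q1 τ z) (lnG D.W (D.q1 τ z) (D.L τ).length)))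

/-- The row of the pattern `p` and the vector `x`. -/
def rowC (p x : ℕ) : ℕ :=
  @Nat.rec (fun _ => ℕ) (csG D.W D.B 10)
    (fun _ _ => ruG D.W (D.pr p) 10 (xkG D.W 10 (conG (entG D.tab p)) 10
      (D.rt (Nat.mod (entG D.tab p) 256) (xrG (entG D.tab p) x 10))))
    (Nat.mod (entG D.tab p) 256)

/-- Numerical conditions. -/
structure NumOK : Prop where
  hW : 3 ≤ D.W
  hof : 2 * D.of < 2 ^ D.W
  hfo : 2 * D.fo < 2 ^ D.W
  hkv : D.kv + 3 ≤ D.W
  hkb : D.kb + 3 ≤ D.W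

/-- Conditions on the list of a type. -/
structure TyOK (l : List (ℕ × ℕ × ℕ)) : Prop where
  hr : ∀ e ∈ l, e.2.2 < 2 ^ (D.W * (l.length + 1)) ∧ (∀ j < l.length + 1,
    Ln D.W e.2.2 j ≤ 2 * D.of) ∧ Ln D.W e.2.2 l.length = D.of
  ht : ∀ e ∈ l, ∀ z < 1024, Ln D.w e.1 z ≤ 2 * D.fo
  hE : ∀ e ∈ l, e.2.1 < 2 ^ (D.W * 1025) ∧ (∀ z < 1024, Ln D.W e.2.1 z = Ln D.w e.1 z) ∧
    Ln D.W e.2.1 1024 = D.fo
  hn1 : l.length * (D.fo * D.of) ≤ 2 ^ (D.W - 2)
  hn2 : 2 * (l.length * (2 ^ D.kv * D.fo)) < 2 ^ D.W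

/-- Conditions on the tables. -/
structure RowsOK : Prop where
  hn : D.NumOK
  ht : ∀ τ, D.TyOK (D.L τ)
  h0 : D.L 0 = []
  hz : ∀ τ, 0 < τ → τ < D.tp.length → ∀ z < 1024, D.okZ τ z = true

/-- Conditions on the programs. -/
def PrOK : Prop := ∀ p < 1024, D.fd.ty p ≠ 0 → D.fd.ty p < D.tp.length ∧
  okR (D.pr p) 10 = true ∧ ndG (D.pr p) 10 = 10 ∧
  ∀ r < 10, (syG (D.pr p) 10 r).testBit 0 = false ∧
    ∀ k < 10, (syG (D.pr p) 10 r).testBit (k + 1) = (D.fd.xc p k).testBit r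

variable {D}

theorem four_H (hW : 3 ≤ D.W) : 4 * D.H = 2 ^ D.W := by
  have e : D.H = 2 ^ (D.W - 2) := rfl
  rw [e, show (4 : ℕ) = 2 ^ 2 from rfl, ← pow_add]
  congr 1
  omega

theorem getD_mem' {α : Type} (l : List α) (k : ℕ) (d : α) (hk : k < l.length) : l.getD k d ∈ l := by
  rw [List.getD_eq_getElem _ _ hk]
  exact List.getElem_mem hk

theorem rt_spec (h : D.NumOK) (τ z : ℕ) (ht : D.TyOK (D.L τ)) (hz : z < 1024)
    (hk : D.okZ τ z = true) :
    Ar D.W 10 (D.rt τ z) (fun b => ((D.B : ℤ) + D.fd.bil τ z (idx 10 b)).toNat) ∧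
      ∀ z' < 1024, |D.fd.bil τ z z'| ≤ (D.B : ℤ) := by
  have hW3 := h.hW
  have hW : 0 < D.W := by omega
  have h4H := four_H hW3
  have hHe : D.H = 2 ^ (D.W - 2) := rfl
  set n := (D.L τ).length with hn
  set l := D.L τ with hl
  have hH0 : 0 < D.H := by rw [hHe]; exact Nat.two_pow_pos _
  have hkv := h.hkv
  have hkb := h.hkb
  have hBH : 2 * D.B ≤ D.H := by
    have e : D.B = 2 ^ D.kb := rfl
    rw [e, hHe, ← pow_succ']
    exact Nat.pow_le_pow_right (by norm_num) (by omega)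
  have hBk : 2 ^ D.kb = D.B := rfl
  have hVH : 2 * 2 ^ D.kv ≤ D.H := by
    rw [hHe, ← pow_succ']
    exact Nat.pow_le_pow_right (by norm_num) (by omega)
  -- first stage
  have hC1 : Lz D.W (n + 1) (2 * D.of) (Nat.mul (Nat.mul 2 D.of) (onG D.W (n + 1)))
      (2 * D.of) fun _ => 0 :=
    (con_lz hW (2 * D.of) h.hof (n + 1)).congr (by push_cast; ring) fun _ _ => rfl
  obtain ⟨X1, hX1, hq⟩ := cmbG_lz (Sb := D.fo) hW hC1 D.fo (fun _ e => lnG D.w e.1 z)
    (fun e : ℕ × ℕ × ℕ => e.2.2) (0, 0, 0) l 0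
    (fun e he => ⟨(ht.hr e he).1, fun j _ => by ring, (ht.hr e he).2.1⟩)
    (fun k hk => by
      have h1 := ht.ht _ (getD_mem' l k (0, 0, 0) hk) z hz
      rw [lnG_eq, abs_le]
      constructor
      · have := Int.natCast_nonneg (Ln D.w (l.getD k (0, 0, 0)).1 z)
        linarith
      · have h2 : ((Ln D.w (l.getD k (0, 0, 0)).1 z : ℕ) : ℤ) ≤ ((2 * D.fo : ℕ) : ℤ) := by
          exact_mod_cast h1
        push_cast at h2
        linarith)
    0 0 0 _ (Lz.zero D.W (n + 1)) (by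
      have h1 := ht.hn1
      have e : l.length * (2 * D.of * D.fo) = 2 * (l.length * (D.fo * D.of)) := by ring
      rw [e, Nat.zero_add]
      omega)
  have hX1H : X1 ≤ D.H := le_trans hX1 ht.hn1
  have hq1 : D.q1 τ z = cmbG (Nat.mul (Nat.mul 2 D.of) (onG D.W (n + 1))) D.fo
    (fun _ e => lnG D.w e.1 z) (fun e : ℕ × ℕ × ℕ => e.2.2) l 0 0 := rfl
  rw [← hq1] at hq
  set v : ℕ → ℤ := fun k => ∑ i ∈ range n, D.fd.fn τ i z * D.fd.m τ i k with hv
  have hzm : z % 1024 = z := Nat.mod_eq_of_lt hz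
  have hq' : Lz D.W (n + 1) (2 * X1) (D.q1 τ z) X1 v := by
    refine (hq.mono (by omega)).congr (by ring) fun j _ => ?_
    rw [hv, zero_add]
    refine Finset.sum_congr rfl fun k _ => ?_
    have e1 : D.fd.fn τ k z = ((Ln D.w (l.getD k (0, 0, 0)).1 (z % 1024) : ℕ) : ℤ) - D.fo := rfl
    have e2 : D.fd.m τ k j = ((Ln D.W (l.getD k (0, 0, 0)).2.2 j : ℕ) : ℤ) - D.of := rfl
    rw [e1, e2, hzm, lnG_eq]
  have hlast : lnG D.W (D.q1 τ z) n = X1 := by
    rw [lnG_eq]
    have h1 := hq'.get n (by omega)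
    have h2 : v n = 0 := by
      rw [hv]
      refine Finset.sum_eq_zero fun i hi => ?_
      have e2 : D.fd.m τ i n = ((Ln D.W (l.getD i (0, 0, 0)).2.2 n : ℕ) : ℤ) - D.of := rfl
      rw [e2, (ht.hr _ (getD_mem' l i (0, 0, 0) (Finset.mem_range.mp hi))).2.2, sub_self, mul_zero]
    rw [h2, add_zero] at h1
    exact_mod_cast h1
  have hk'' : inbG D.W n D.kv D.H (rcG D.W n D.H (D.q1 τ z) (lnG D.W (D.q1 τ z) n)) = true ∧
      Nat.ble (lnG D.W (D.s2 τ z) 1024) D.H = true ∧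
      inbG D.W 1024 D.kb D.H (rcG D.W 1024 D.H (D.s2 τ z) (lnG D.W (D.s2 τ z) 1024)) = true := by
    have e : D.okZ τ z = (@Bool.rec (fun _ => Bool) false
      (@Bool.rec (fun _ => Bool) false
      (inbG D.W 1024 D.kb D.H (rcG D.W 1024 D.H (D.s2 τ z) (lnG D.W (D.s2 τ z) 1024)))
      (Nat.ble (lnG D.W (D.s2 τ z) 1024) D.H))
      (inbG D.W n D.kv D.H (rcG D.W n D.H (D.q1 τ z) (lnG D.W (D.q1 τ z) n)))) := rfl
    rw [e, bool_rec_and, bool_rec_and, Bool.and_eq_true, Bool.and_eq_true] at hk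
    exact hk
  have hk' := And.intro hk''.1 hk''.2.2
  have hkX := Nat.le_of_ble_eq_true hk''.2.1
  have hvb : ∀ k < n, |v k| ≤ 2 ^ D.kv := by
    have h1 := rcG_lz hW (Nat.le_succ n) hq' hX1H (by omega)
    rw [hlast] at hk'
    exact inbG_spec hW (by omega) (by omega) h1 (by omega) hk'.1
  -- second stage
  have hC2 : Lz D.W 1025 (2 * D.fo) (Nat.mul (Nat.mul 2 D.fo) (onG D.W 1025)) (2 * D.fo)
      fun _ => 0 :=
    (con_lz hW (2 * D.fo) h.hfo 1025).congr (by push_cast; ring) fun _ _ => rfl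
  obtain ⟨X2, hX2, hs⟩ := cmbG_lz (Sb := 2 ^ D.kv) hW hC2 X1 (fun k _ => lnG D.W (D.q1 τ z) k)
    (fun e : ℕ × ℕ × ℕ => e.2.1) (0, 0, 0) l 0
    (fun e he => ⟨(ht.hE e he).1, fun j _ => by ring, fun j hj => by
      by_cases hj2 : j < 1024
      · rw [(ht.hE e he).2.1 j hj2]
        exact ht.ht e he j hj2
      · have e3 : j = 1024 := by omega
        rw [e3, (ht.hE e he).2.2]
        omega⟩)
    (fun k hk => by
      rw [lnG_eq, Nat.zero_add, hq'.get k (by omega)]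
      have := hvb k hk
      push_cast
      have e : (X1 : ℤ) + v k - X1 = v k := by ring
      rw [e]
      exact this)
    0 0 0 _ (Lz.zero D.W 1025) (by
      have h1 := ht.hn2
      have e : l.length * (2 * D.fo * 2 ^ D.kv) = 2 * (l.length * (2 ^ D.kv * D.fo)) := by ring
      rw [e, Nat.zero_add]
      exact h1)
  have hs2 : D.s2 τ z = cmbG (Nat.mul (Nat.mul 2 D.fo) (onG D.W 1025)) X1
      (fun k _ => lnG D.W (D.q1 τ z) k) (fun e : ℕ × ℕ × ℕ => e.2.1) l 0 0 := by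
    rw [← hlast]
    rfl
  rw [← hs2] at hs
  have hsv : ∀ j < 1025, 0 + ∑ k ∈ range l.length,
      (((lnG D.W (D.q1 τ z) (0 + k) : ℕ) : ℤ) - X1) *
        (((Ln D.W (l.getD k (0, 0, 0)).2.1 j : ℕ) : ℤ) - D.fo) =
      if j < 1024 then D.fd.bil τ z j else 0 := by
    intro j hj
    rw [zero_add]
    by_cases hj2 : j < 1024
    · rw [if_pos hj2]
      unfold FD.bil
      rw [Finset.sum_comm]
      refine Finset.sum_congr rfl fun k hk => ?_
      have hk' : k < n := Finset.mem_range.mp hk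
      rw [lnG_eq, Nat.zero_add, hq'.get k (by omega),
        (ht.hE _ (getD_mem' l k (0, 0, 0) hk')).2.1 j hj2]
      have e1 : D.fd.fn τ k j = ((Ln D.w (l.getD k (0, 0, 0)).1 (j % 1024) : ℕ) : ℤ) - D.fo := rfl
      rw [Nat.mod_eq_of_lt hj2] at e1
      rw [← e1, hv]
      have e2 : (X1 : ℤ) + (∑ i ∈ range n, D.fd.fn τ i z * D.fd.m τ i k) - X1 =
          ∑ i ∈ range n, D.fd.fn τ i z * D.fd.m τ i k := by ring
      simp only
      rw [e2, Finset.sum_mul]
      refine Finset.sum_congr rfl fun i _ => ?_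
      ring
    · rw [if_neg hj2]
      refine Finset.sum_eq_zero fun k hk => ?_
      have hk' := Finset.mem_range.mp hk
      have e3 : j = 1024 := by omega
      rw [e3, (ht.hE _ (getD_mem' l k (0, 0, 0) hk')).2.2, sub_self, mul_zero]
  have hs' : Lz D.W 1025 (2 * X2) (D.s2 τ z) X2 fun j => if j < 1024 then D.fd.bil τ z j else 0 :=
    (hs.mono (by omega)).congr (by ring) hsv
  have hlast2 : lnG D.W (D.s2 τ z) 1024 = X2 := by
    rw [lnG_eq]
    have h1 := hs'.get 1024 (by omega)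
    rw [if_neg (by omega), add_zero] at h1
    exact_mod_cast h1
  rw [hlast2] at hk' hkX
  have hX2H : X2 ≤ D.H := hkX
  have hr := rcG_lz hW (N := 1024) (by omega) hs' hX2H (by omega)
  have hgb := inbG_spec hW (by omega) (by omega) hr (by omega) hk'.2
  have hgb' : ∀ z' < 1024, |D.fd.bil τ z z'| ≤ (D.B : ℤ) := by
    intro z' hz'
    have h1 := hgb z' hz'
    rw [if_pos hz'] at h1
    have e : D.B = 2 ^ D.kb := rfl
    rw [e]
    push_cast
    exact h1
  refine ⟨?_, hgb'⟩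
  have hc := con_lz hW (D.H - D.B) (by omega) 1024
  have hf := hr.sub hc hW (by
    intro j hj
    have e1 := hr.get j hj
    have e2 := hc.get j hj
    rw [if_pos hj] at e1
    have e3 := (abs_le.mp (hgb' j hj)).1
    have e4 : ((Ln D.W (Nat.mul (D.H - D.B) (onG D.W 1024)) j : ℕ) : ℤ) ≤
        ((Ln D.W (rcG D.W 1024 D.H (D.s2 τ z) X2) j : ℕ) : ℤ) := by
      rw [e1, e2, Nat.cast_sub (by omega : D.B ≤ D.H)]
      linarith
    exact_mod_cast e4)
  have hrt : D.rt τ z = rcG D.W 1024 D.H (D.s2 τ z) X2 -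
      Nat.mul (D.H - D.B) (onG D.W 1024) := by
    rw [← hlast2]
    rfl
  rw [← hrt] at hf
  refine ⟨?_, fun b => ?_⟩
  · have := hf.lt
    exact this
  · have hb := idx_lt 10 b
    have h1 := hf.get (idx 10 b) hb
    rw [if_pos (show idx 10 b < 1024 from hb)] at h1
    have h2 : ((Ln D.W (D.rt τ z) (idx 10 b) : ℕ) : ℤ) = (D.B : ℤ) + D.fd.bil τ z (idx 10 b) := by
      rw [h1, Nat.cast_sub (by omega : D.B ≤ D.H)]
      ring
    rw [← h2, Int.toNat_natCast]

theorem bil_mod (τ z z' : ℕ) : D.fd.bil τ z z' = D.fd.bil τ (z % 1024) (z' % 1024) := by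
  unfold FD.bil
  refine Finset.sum_congr rfl fun i _ => Finset.sum_congr rfl fun j _ => ?_
  have e : ∀ i z, D.fd.fn τ i z = D.fd.fn τ i (z % 1024) := by
    intro i z
    have e1 : ∀ z, D.fd.fn τ i z = ((Ln D.w ((D.L τ).getD i (0, 0, 0)).1 (z % 1024) : ℕ) : ℤ) - D.fo :=
      fun _ => rfl
    rw [e1, e1, Nat.mod_mod]
  rw [← e i z, ← e j z']

theorem RowsOK.bil (h : D.RowsOK) : D.fd.BilOK D.B := by
  intro τ z z'
  rcases Nat.eq_zero_or_pos τ with h0 | h0
  · have e : D.fd.bil τ z z' = 0 := by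
      unfold FD.bil
      have : D.fd.ns τ = 0 := by
        have e1 : D.fd.ns τ = (D.L τ).length := rfl
        rw [e1, h0, h.h0]
        rfl
      rw [this]
      simp
    rw [e, abs_zero]
    exact Int.natCast_nonneg _
  · by_cases h1 : τ < D.tp.length
    · rw [bil_mod]
      exact (rt_spec h.hn τ (z % 1024) (h.ht τ) (Nat.mod_lt _ (by norm_num))
        (h.hz τ h0 h1 _ (Nat.mod_lt _ (by norm_num)))).2 _ (Nat.mod_lt _ (by norm_num))
    · have e : D.fd.bil τ z z' = 0 := by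
        unfold FD.bil
        have : D.fd.ns τ = 0 := by
          have e1 : D.fd.ns τ = (D.L τ).length := rfl
          have e2 : D.L τ = [] := by
            unfold L
            rw [nthG_eq, List.getD_eq_default _ _ (by omega)]
          rw [e1, e2]
          rfl
        rw [this]
        simp
      rw [e, abs_zero]
      exact Int.natCast_nonneg _

theorem g6_pair (p x y : ℕ) (hp : p < 1024) :
    D.fd.g6 (p + 1024 * x) (p + 1024 * y) =
      if D.fd.ty p = 0 then 0 else D.fd.bil (D.fd.ty p) (D.fd.X p x.testBit)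
        (D.fd.X p y.testBit) := by
  unfold FD.g6
  have e1 : (p + 1024 * x) % 1024 = p := by omega
  have e2 : ∀ x, (fun k => (p + 1024 * x).testBit (10 + k)) = x.testBit := by
    intro x
    funext k
    have e3 : (p + 1024 * x) / 2 ^ 10 = x := by
      rw [show (2 : ℕ) ^ 10 = 1024 from rfl]
      omega
    rw [add_comm 10 k, ← Nat.testBit_div_two_pow, e3]
  rw [e1, e2, e2]

/-- The rows. -/
theorem rowC_ar (h : D.RowsOK) (hp : D.PrOK) (p x : ℕ) (hp1 : p < 1024) :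
    Ar D.W 10 (D.rowC p x) fun b => ((D.B : ℤ) +
      D.fd.g6 (p + 1024 * x) (p + 1024 * idx 10 b)).toNat := by
  have hW : 0 < D.W := by have := h.hn.hW; omega
  have hB : D.B < 2 ^ D.W := by
    have e : D.B = 2 ^ D.kb := rfl
    rw [e]
    have := h.hn.hkb
    exact Nat.pow_lt_pow_right (by norm_num) (by omega)
  have ety : D.fd.ty p = Nat.mod (entG D.tab p) 256 := rfl
  by_cases h0 : D.fd.ty p = 0
  · have e1 : D.rowC p x = csG D.W D.B 10 := by
      have : D.rowC p x = @Nat.rec (fun _ => ℕ) (csG D.W D.B 10)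
        (fun _ _ => ruG D.W (D.pr p) 10 (xkG D.W 10 (conG (entG D.tab p)) 10
          (D.rt (Nat.mod (entG D.tab p) 256) (xrG (entG D.tab p) x 10))))
        (D.fd.ty p) := rfl
      rw [this, h0]
      rfl
    rw [e1]
    refine (csG_ar hW hB 10).congr fun b => ?_
    rw [g6_pair p x _ hp1, if_pos h0, add_zero, Int.toNat_natCast]
  · obtain ⟨k, hk⟩ : ∃ k, D.fd.ty p = k + 1 := ⟨D.fd.ty p - 1, by omega⟩
    set z := xrG (entG D.tab p) x 10 with hz
    have hz1 : z < 1024 := xrG_lt _ _ _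
    have hzX : z = D.fd.X p x.testBit := xrG_eq _ _ _
    obtain ⟨hpl, h2, h3, h4⟩ := hp p hp1 h0
    have h1 := (rt_spec h.hn (D.fd.ty p) z (h.ht _) hz1 (h.hz _ (by omega) hpl z hz1)).1
    have e1 : D.rowC p x = ruG D.W (D.pr p) 10 (xkG D.W 10 (conG (entG D.tab p)) 10
        (D.rt (D.fd.ty p) z)) := by
      have : D.rowC p x = @Nat.rec (fun _ => ℕ) (csG D.W D.B 10)
        (fun _ _ => ruG D.W (D.pr p) 10 (xkG D.W 10 (conG (entG D.tab p)) 10
          (D.rt (D.fd.ty p) z)))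
        (D.fd.ty p) := rfl
      rw [this, hk]
    rw [e1]
    have h5 := xkG_ar (k := conG (entG D.tab p)) hW h1 10 le_rfl
    have h6 := ruG_ar hW (D.pr p) 10 _ _ h2 h5
    rw [h3] at h6
    refine h6.congr fun b => ?_
    rw [g6_pair p x _ hp1, if_neg h0, hzX]
    congr 2
    rw [bil_mod _ _ (D.fd.X p (idx 10 b).testBit), ← hzX, bil_mod _ z (idx 10 _)]
    congr 1
    -- the two indices agree
    rw [Nat.mod_eq_of_lt (show idx 10 _ < 1024 from idx_lt 10 _)]
    apply Nat.eq_of_testBit_eq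
    intro r
    rw [testBit_idx, show (1024 : ℕ) = 2 ^ 10 from rfl, Nat.testBit_mod_two_pow]
    by_cases hr : r < 10
    · have e2 : decide (r < 10) = true := decide_eq_true hr
      rw [e2, Bool.true_and, Bool.true_and, Bool.true_and]
      obtain ⟨h7, h8⟩ := h4 r hr
      rw [seG_eq 10 b (D.pr p) 10 h2 (by rw [h3]) r hr, lf_eq_xo 10 _ _ h7]
      unfold FD.X
      rw [Nat.testBit_xor, testBit_lx, Bool.xor_comm]
      congr 1
      apply xo_congr
      intro k hk
      rw [h8 k hk, testBit_idx]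
      simp [hk]
    · have e2 : decide (r < 10) = false := decide_eq_false hr
      rw [e2, Bool.false_and, Bool.false_and]

end TF

end Pool.Agent.Lib.MP_afdd4d_co.K8
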