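import Pool.Agent.Lib.MP_afdd4d_co.K8.F6All

/-!
# Fast expansion of a table

The lanes of a table with `2 ^ 10` lanes of `w` bits are moved to the distance `W` in ten steps.
-/

namespace Pool.Agent.Lib.MP_afdd4d_co.K8

open Finset

/-- Lanes of half the width. -/
theorem ar_half {B n A : ℕ} {f : (ℕ → Bool) → ℕ} (hA : Ar (2 * B) n A f) :
    Ar B (n + 1) A fun b =>
      if b 0 = true then f (fun i => b (1 + i)) / 2 ^ B else f (fun i => b (1 + i)) % 2 ^ B := by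
  refine ⟨?_, fun b => ?_⟩
  · have h := hA.lt
    have e : 2 * B * 2 ^ n = B * 2 ^ (n + 1) := by rw [pow_succ]; ring
    rwa [e] at h
  · have e1 : idx (n + 1) b = idx 1 b + 2 ^ 1 * idx n fun k => b (1 + k) := by
      rw [add_comm n 1, idx_split]
    have h := hA.get fun k => b (1 + k)
    rw [e1]
    generalize (idx n fun k => b (1 + k)) = i at h ⊢
    have e2 : idx 1 b = (b 0).toNat := by
      rw [idx, idx]
      simp
    unfold Ln at h ⊢
    rw [e2, ← h]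
    have e3 : A / 2 ^ (B * ((b 0).toNat + 2 ^ 1 * i)) =
        A / 2 ^ (2 * B * i) / 2 ^ (B * (b 0).toNat) := by
      rw [Nat.div_div_eq_div_mul, ← pow_add]
      congr 2
      ring
    rw [e3]
    generalize A / 2 ^ (2 * B * i) = y
    have e4 : (2 : ℕ) ^ (2 * B) = 2 ^ B * 2 ^ B := by rw [← pow_add]; congr 1; ring
    cases b 0
    · rw [if_neg (by decide), Bool.toNat_false, mul_zero, pow_zero, Nat.div_one, e4,
        Nat.mod_mul_left_mod]
    · rw [if_pos rfl, Bool.toNat_true, mul_one, e4, Nat.mod_mul_right_div_self]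

/-- One step: the upper halves of the contents are moved by `s` bits. -/
def spS (M s X : ℕ) : ℕ := Nat.add (Nat.land X M) (Nat.shiftLeft (Nat.sub X (Nat.land X M)) s)

/-- The steps of the expansion. -/
def spG (W w A : ℕ) : ℕ → ℕ := @Nat.rec (fun _ => ℕ) A
  (fun n ih => spS (csG (Nat.mul 2 (Nat.mul W (Nat.pow 2 (Nat.sub 9 n))))
    (Nat.sub (Nat.pow 2 (Nat.mul w (Nat.pow 2 (Nat.sub 9 n)))) 1) n)
    (Nat.mul (Nat.sub W w) (Nat.pow 2 (Nat.sub 9 n))) ih)

theorem spS_ar {W w u : ℕ} {n X : ℕ} {f : (ℕ → Bool) → ℕ} (hu : 0 < u) (hw : w ≤ W) (hW : 0 < W)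
    (hA : Ar (2 * (W * u)) n X f) (hf : ∀ b, f b < 2 ^ (2 * (w * u))) :
    Ar (W * u) (n + 1) (spS (csG (2 * (W * u)) (2 ^ (w * u) - 1) n) ((W - w) * u) X) fun b =>
      if b 0 = true then f (fun i => b (1 + i)) / 2 ^ (w * u)
      else f (fun i => b (1 + i)) % 2 ^ (w * u) := by
  have hWu : 0 < W * u := Nat.mul_pos hW hu
  have hwu : w * u ≤ W * u := Nat.mul_le_mul_right u hw
  have hp : (2 : ℕ) ^ (w * u) ≤ 2 ^ (W * u) := Nat.pow_le_pow_right (by norm_num) hwu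
  have h2 : (2 : ℕ) ^ (2 * (W * u)) = 2 ^ (W * u) * 2 ^ (W * u) := by
    rw [← pow_add]; congr 1; ring
  have hc := csG_ar (W := 2 * (W * u)) (c := 2 ^ (w * u) - 1) (by omega) (by
    have := Nat.two_pow_pos (w * u)
    have h3 : (2 : ℕ) ^ (W * u) ≤ 2 ^ (2 * (W * u)) :=
      Nat.pow_le_pow_right (by norm_num) (by omega)
    omega) n
  have h1 : Ar (2 * (W * u)) n (X &&& csG (2 * (W * u)) (2 ^ (w * u) - 1) n)
      fun b => f b % 2 ^ (w * u) := by
    refine ⟨lt_of_le_of_lt Nat.and_le_left hA.lt, fun b => ?_⟩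
    rw [Ln_and, hA.get, hc.get, Nat.and_two_pow_sub_one_eq_mod]
  have h3 : Ar (2 * (W * u)) n (X - (X &&& csG (2 * (W * u)) (2 ^ (w * u) - 1) n))
      fun b => f b - f b % 2 ^ (w * u) := hA.sub h1 (by omega) fun b => Nat.mod_le _ _
  have h4 : ∀ b, f b - f b % 2 ^ (w * u) = 2 ^ (w * u) * (f b / 2 ^ (w * u)) := by
    intro b
    have := Nat.div_add_mod (f b) (2 ^ (w * u))
    omega
  have h5 : ∀ b, f b / 2 ^ (w * u) < 2 ^ (w * u) := by
    intro b
    rw [Nat.div_lt_iff_lt_mul (Nat.two_pow_pos _), ← pow_add]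
    have := hf b
    rwa [two_mul] at this
  have e5 : (2 : ℕ) ^ ((W - w) * u) * 2 ^ (w * u) = 2 ^ (W * u) := by
    rw [← pow_add, ← add_mul]
    congr 2
    omega
  have h6 : ∀ b, 2 ^ ((W - w) * u) * (f b - f b % 2 ^ (w * u)) =
      2 ^ (W * u) * (f b / 2 ^ (w * u)) := by
    intro b
    rw [h4, ← mul_assoc, e5]
  have h7 : ∀ b, 2 ^ (W * u) * (f b / 2 ^ (w * u)) + 2 ^ (W * u) ≤ 2 ^ (2 * (W * u)) := by
    intro b
    rw [h2]
    have h8 : f b / 2 ^ (w * u) + 1 ≤ 2 ^ (W * u) := by have := h5 b; omega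
    calc _ = 2 ^ (W * u) * (f b / 2 ^ (w * u) + 1) := by ring
      _ ≤ _ := Nat.mul_le_mul_left _ h8
  have hpos := Nat.two_pow_pos (W * u)
  have h9 := h3.smul (2 ^ ((W - w) * u)) (by omega) fun b => by
    rw [h6]
    have := h7 b
    omega
  have h10 := h1.add h9 (by omega) fun b => by
    rw [h6]
    have h11 := h7 b
    have h12 : f b % 2 ^ (w * u) < 2 ^ (w * u) := Nat.mod_lt _ (Nat.two_pow_pos _)
    omega
  have e6 : spS (csG (2 * (W * u)) (2 ^ (w * u) - 1) n) ((W - w) * u) X =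
      (X &&& csG (2 * (W * u)) (2 ^ (w * u) - 1) n) +
      2 ^ ((W - w) * u) * (X - (X &&& csG (2 * (W * u)) (2 ^ (w * u) - 1) n)) := by
    have e7 : spS (csG (2 * (W * u)) (2 ^ (w * u) - 1) n) ((W - w) * u) X =
      (X &&& csG (2 * (W * u)) (2 ^ (w * u) - 1) n) +
      (X - (X &&& csG (2 * (W * u)) (2 ^ (w * u) - 1) n)) <<< ((W - w) * u) := rfl
    rw [e7, Nat.shiftLeft_eq]; congr 1; exact Nat.mul_comm _ _
  rw [e6]
  refine (ar_half h10).congr fun b => ?_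
  simp only [h6]
  generalize f (fun i => b (1 + i)) = y at *
  have h12 : y % 2 ^ (w * u) < 2 ^ (W * u) := lt_of_lt_of_le (Nat.mod_lt _ (Nat.two_pow_pos _)) hp
  cases b 0
  · rw [if_neg (by decide), if_neg (by decide), Nat.add_mul_mod_self_left, Nat.mod_eq_of_lt h12]
  · rw [if_pos rfl, if_pos rfl, Nat.add_mul_div_left _ _ hpos, Nat.div_eq_of_lt h12, Nat.zero_add]

theorem spG_ar {W w A : ℕ} (hw : w ≤ W) (hw0 : 0 < w) (hA : A < 2 ^ (w * 1024)) :
    ∀ n ≤ 10, Ar (W * 2 ^ (10 - n)) n (spG W w A n) fun b => Ln (w * 2 ^ (10 - n)) A (idx n b) := by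
  intro n
  have hW : 0 < W := by omega
  induction n with
  | zero =>
    intro _
    have e : spG W w A 0 = A := rfl
    rw [e]
    have h1 : A < 2 ^ (W * 2 ^ (10 - 0)) :=
      lt_of_lt_of_le hA (Nat.pow_le_pow_right (by norm_num) (Nat.mul_le_mul_right _ hw))
    refine (Ar.ofLt h1).congr fun b => ?_
    rw [idx, Ln, mul_zero, pow_zero, Nat.div_one, Nat.mod_eq_of_lt]
    exact hA
  | succ n ih =>
    intro hn
    have ih' := ih (by omega)
    have hu : 0 < 2 ^ (9 - n) := Nat.two_pow_pos _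
    have e1 : (2 : ℕ) ^ (10 - n) = 2 * 2 ^ (9 - n) := by
      rw [← pow_succ']
      congr 1
      omega
    have e2 : W * 2 ^ (10 - n) = 2 * (W * 2 ^ (9 - n)) := by rw [e1]; ring
    have e3 : w * 2 ^ (10 - n) = 2 * (w * 2 ^ (9 - n)) := by rw [e1]; ring
    rw [e2, e3] at ih'
    have h := spS_ar hu hw hW ih' (fun b => Ln_lt _ _ _)
    have e4 : 10 - (n + 1) = 9 - n := by omega
    rw [e4]
    refine Ar.congr h fun b => ?_
    have e5 : idx (n + 1) b = idx 1 b + 2 ^ 1 * idx n fun k => b (1 + k) := by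
      rw [add_comm n 1, idx_split]
    have e6 : idx 1 b = (b 0).toNat := by
      rw [idx, idx]
      simp
    rw [e5, e6]
    generalize (idx n fun k => b (1 + k)) = i
    generalize w * 2 ^ (9 - n) = v
    unfold Ln
    have e7 : A / 2 ^ (v * ((b 0).toNat + 2 ^ 1 * i)) =
        A / 2 ^ (2 * v * i) / 2 ^ (v * (b 0).toNat) := by
      rw [Nat.div_div_eq_div_mul, ← pow_add]
      congr 2
      ring
    rw [e7]
    generalize A / 2 ^ (2 * v * i) = y
    have e8 : (2 : ℕ) ^ (2 * v) = 2 ^ v * 2 ^ v := by rw [← pow_add]; congr 1; ring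
    cases b 0
    · rw [if_neg (by decide), Bool.toNat_false, mul_zero, pow_zero, Nat.div_one, e8,
        Nat.mod_mul_left_mod]
    · rw [if_pos rfl, Bool.toNat_true, mul_one, e8, Nat.mod_mul_right_div_self]

/-- The expanded table of a function. -/
def exQ (W w fo t : ℕ) : ℕ := Nat.add (spG W w t 10) (Nat.shiftLeft fo (Nat.mul W 1024))

theorem exQ_spec {W w fo t : ℕ} (hw : w ≤ W) (hw0 : 0 < w) (hfo : 2 * fo < 2 ^ W)
    (ht : t < 2 ^ (w * 1024)) :
    exQ W w fo t < 2 ^ (W * 1025) ∧ (∀ z < 1024, Ln W (exQ W w fo t) z = Ln w t z) ∧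
      Ln W (exQ W w fo t) 1024 = fo := by
  have hW : 0 < W := by omega
  have h1 := spG_ar (W := W) hw hw0 ht 10 le_rfl
  rw [Nat.sub_self, pow_zero, mul_one, mul_one] at h1
  have hlt : spG W w t 10 < 2 ^ (W * 1024) := h1.lt
  have hl : ∀ z < 1024, Ln W (spG W w t 10) z = Ln w t z := by
    intro z hz
    have h2 := h1.get z.testBit
    rwa [idx_testBit 10 z hz] at h2
  have e1 : exQ W w fo t = spG W w t 10 + fo <<< (W * 1024) := rfl
  have hall : ∀ z, Ln W (exQ W w fo t) z = if z < 1024 then Ln w t z else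
      if z = 1024 then fo else 0 := by
    intro z
    rw [e1, Ln_cat _ _ _ _ _ hlt]
    by_cases hz : z < 1024
    · rw [if_pos hz, if_pos hz, hl z hz]
    · rw [if_neg hz, if_neg hz, Ln_small _ _ (by omega)]
      by_cases hz2 : z = 1024
      · rw [if_pos (by omega), if_pos hz2]
      · rw [if_neg (by omega), if_neg hz2]
  refine ⟨?_, fun z hz => by rw [hall, if_pos hz], by rw [hall, if_neg (by omega), if_pos rfl]⟩
  apply lt_of_Ln_eq_zero _ _ _ hW
  intro i hi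
  rw [hall, if_neg (by omega), if_neg (by omega)]

namespace TF
variable (D : TF)

/-- The check of a list, with the fast expansion. -/
def tyF (a fa : ℕ) (l : List (ℕ × ℕ × ℕ)) : Bool :=
  decide (D.of = 2 ^ a ∧ D.fo = 2 ^ fa ∧ a + 1 ≤ D.W ∧ fa + 1 ≤ D.w ∧ D.w ≤ D.W) &&
  (decide (l.length * (D.fo * D.of) ≤ 2 ^ (D.W - 2) ∧
    2 * (l.length * (2 ^ D.kv * D.fo)) < 2 ^ D.W) &&
  allA (fun _ e => Nat.blt e.2.2 (Nat.pow 2 (Nat.mul D.W (Nat.succ l.length))) &&
    (wbG D.W (Nat.succ l.length) a e.2.2 && (Nat.beq (lnG D.W e.2.2 l.length) D.of &&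
    (Nat.blt e.1 (Nat.pow 2 (Nat.mul D.w 1024)) && (wbG D.w 1024 fa e.1 &&
      Nat.beq e.2.1 (exQ D.W D.w D.fo e.1)))))) l 0)

variable {D}

theorem tyF_spec (hn : D.NumOK) {a fa : ℕ} {l : List (ℕ × ℕ × ℕ)} (h : D.tyF a fa l = true) :
    D.TyOK l ∧ ∀ e ∈ l, e.1 < 2 ^ (D.w * 1024) := by
  unfold tyF at h
  rw [Bool.and_eq_true, Bool.and_eq_true] at h
  obtain ⟨h1, h2, h3⟩ := h
  obtain ⟨h4, h5, h6, h7, h7'⟩ := of_decide_eq_true h1
  obtain ⟨h8, h9⟩ := of_decide_eq_true h2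
  have hW : 0 < D.W := by have := hn.hW; omega
  have key : ∀ e ∈ l, (e.2.2 < 2 ^ (D.W * (l.length + 1)) ∧ (∀ j < l.length + 1,
      Ln D.W e.2.2 j ≤ 2 * D.of) ∧ Ln D.W e.2.2 l.length = D.of) ∧
      e.1 < 2 ^ (D.w * 1024) ∧ (∀ z < 1024, Ln D.w e.1 z ≤ 2 * D.fo) ∧
      e.2.1 = exQ D.W D.w D.fo e.1 := by
    intro e he
    obtain ⟨k, hk, rfl⟩ := List.getElem_of_mem he
    have h10 := allA_spec (0, 0, 0) _ l 0 h3 k hk
    rw [List.getD_eq_getElem _ _ hk] at h10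
    simp only [Bool.and_eq_true] at h10
    obtain ⟨b1, b2, b3, b4, b5, b6⟩ := h10
    rw [Nat.blt_eq] at b1 b4
    refine ⟨⟨b1, ?_, ?_⟩, b4, ?_, Nat.eq_of_beq_eq_true b6⟩
    · rw [h4]
      exact wbG_spec hW h6 b2
    · rw [← lnG_eq]
      exact Nat.eq_of_beq_eq_true b3
    · rw [h5]
      exact wbG_spec (by omega) h7 b5
  refine ⟨⟨fun e he => (key e he).1, fun e he => (key e he).2.2.1, fun e he => ?_, h8, h9⟩,
    fun e he => (key e he).2.1⟩
  rw [(key e he).2.2.2]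
  exact exQ_spec h7' (by omega) hn.hfo (key e he).2.1

end TF

end Pool.Agent.Lib.MP_afdd4d_co.K8
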