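import Pool.Agent.Lib.MP_afdd4d_co.K8.View2

/-!
# The flags of the terms
-/

namespace Pool.Agent.Lib.MP_afdd4d_co.K8

open Finset

theorem idx_add_ten (m : ℕ) (b : ℕ → Bool) :
    idx (10 + m) b = idx 10 b + 1024 * idx m fun k => b (10 + k) := by
  induction m with
  | zero => simp [idx]
  | succ m ih =>
    have e1 : idx (10 + (m + 1)) b = idx (10 + m) b + 2 ^ (10 + m) * (b (10 + m)).toNat := rfl
    have e2 : (idx (m + 1) fun k => b (10 + k)) =
      (idx m fun k => b (10 + k)) + 2 ^ m * (b (10 + m)).toNat := rfl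
    rw [e1, e2, ih, pow_add]
    ring

theorem sum_flatMap_int {α : Type*} (f : α → List ℤ) (l : List α) :
    (l.flatMap f).sum = (l.map fun x => (f x).sum).sum := by
  induction l with
  | nil => rfl
  | cons a l ih => rw [List.flatMap_cons, List.sum_append, ih, List.map_cons, List.sum_cons]

section codes
variable {n : ℕ} (H : Finset (Finset (Fin n)))

/-- The tuples of the two flags of a term. -/
def f1 : Fin 7 → Fin 8 := ![0, 1, 2, 3, 4, 7, 5]
def f2 : Fin 7 → Fin 8 := ![0, 1, 2, 3, 4, 7, 6]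
def f3 : Fin 7 → Fin 8 := ![0, 1, 2, 3, 4, 5, 6]
def f4 : Fin 7 → Fin 8 := ![0, 1, 2, 3, 4, 5, 7]

theorem f1_data : ∀ r < 20, (qd 7 r).image f1 = qd 8 ((sP ++ sX).getD r 0) := by decide +kernel
theorem f2_data : ∀ r < 20, (qd 7 r).image f2 = qd 8 ((sP ++ sY).getD r 0) := by decide +kernel
theorem f3_data : ∀ r < 20, (qd 7 r).image f3 = qd 8 ((rP ++ rX).getD r 0) := by decide +kernel
theorem f4_data : ∀ r < 20, (qd 7 r).image f4 = qd 8 ((rP ++ rY).getD r 0) := by decide +kernel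

theorem idx_flag (t : Fin 8 → Fin n) (f : Fin 7 → Fin 8) (l l' : List ℕ) (hl : l.length = 10)
    (hf : ∀ r < 20, (qd 7 r).image f = qd 8 ((l ++ l').getD r 0)) :
    idx 20 (gc H (t ∘ f)) = idx 10 (sel l (gc H t)) + 1024 * idx 10 (sel l' (gc H t)) := by
  have e0 : idx 20 (gc H (t ∘ f)) = idx (10 + 10) (gc H (t ∘ f)) := rfl
  have e1 : idx 10 (gc H (t ∘ f)) = idx 10 (sel l (gc H t)) := by
    apply idx_congr
    intro r hr
    have h1 : gc H (t ∘ f) r = zb H (t ∘ f) (qd 7 r) := rfl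
    have h2 : sel l (gc H t) r = zb H t (qd 8 (l.getD r 0)) := rfl
    rw [h1, h2, zb_comp, hf r (by omega), List.getD_append _ _ _ _ (by omega)]
  have e2 : (idx 10 fun k => gc H (t ∘ f) (10 + k)) = idx 10 (sel l' (gc H t)) := by
    apply idx_congr
    intro r hr
    have h1 : gc H (t ∘ f) (10 + r) = zb H (t ∘ f) (qd 7 (10 + r)) := rfl
    have h2 : sel l' (gc H t) r = zb H t (qd 8 (l'.getD r 0)) := rfl
    rw [h1, h2, zb_comp, hf (10 + r) (by omega), List.getD_append_right _ _ _ _ (by omega), hl,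
      Nat.add_sub_cancel_left]
  rw [e0, idx_add_ten, e1, e2]

end codes

/-- The term as a natural number. -/
def gN (g : ℕ → ℕ → ℤ) (O p x y : ℕ) : ℕ := ((O : ℤ) + g (p + 1024 * x) (p + 1024 * y)).toNat

end Pool.Agent.Lib.MP_afdd4d_co.K8
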