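import Pool.Agent.Lib.MP_afdd4d_co.K8.RSkel
import Pool.Agent.Lib.MP_afdd4d_co.K8.EvenSk

/-!
# Pairs of a 4-graph and an optimal even 4-graph

Every 4-graph `H` without `K_5` is compared with an even 4-graph `E` of smallest cost, where the cost
of a quadruple depends on its membership in `H` and in `E`.  Local inequalities about the pair on
seven-tuples, about `E` on eight-tuples and about the links of `H` give an upper bound for the size
of `H`.
-/

namespace Pool.Agent.Lib.MP_afdd4d_co.K8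

open Finset

/-! ### Injective quadruples and sets of four vertices -/

section fib
variable {V : Type*} [Fintype V] [DecidableEq V]

/-- The orderings of a set of four elements. -/
noncomputable def fibE (Q : Finset V) :
    {b : Fin 4 → V // Function.Injective b ∧ univ.image b = Q} ≃ (Fin 4 ≃ Q) where
  toFun b := Equiv.ofBijective
    (fun i => (⟨b.1 i, by
      have h : b.1 i ∈ univ.image b.1 := Finset.mem_image_of_mem _ (Finset.mem_univ i)
      exact (congrArg (fun A => b.1 i ∈ A) b.2.2).mp h⟩ : Q)) (by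
      constructor
      · intro i j hij
        exact b.2.1 (congrArg Subtype.val hij)
      · rintro ⟨q, hq⟩
        have h : q ∈ univ.image b.1 := by rw [b.2.2]; exact hq
        obtain ⟨i, _, hi⟩ := Finset.mem_image.mp h
        exact ⟨i, Subtype.ext hi⟩)
  invFun e := ⟨fun i => (e i : V), fun i j hij => e.injective (Subtype.ext hij), by
    ext q
    rw [Finset.mem_image]
    constructor
    · rintro ⟨i, _, rfl⟩
      exact (e i).2
    · intro hq
      exact ⟨e.symm ⟨q, hq⟩, Finset.mem_univ _, by rw [Equiv.apply_symm_apply]⟩⟩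
  left_inv b := by
    apply Subtype.ext
    rfl
  right_inv e := by
    ext i
    rfl

theorem card_fib (Q : Finset V) (hQ : Q.card = 4) :
    ((univ : Finset (Fin 4 → V)).filter fun b => Function.Injective b ∧ univ.image b = Q).card =
      24 := by
  classical
  rw [← Fintype.card_subtype, Fintype.card_congr (fibE Q),
    Fintype.card_equiv (Fintype.equivOfCardEq (by rw [Fintype.card_fin, Fintype.card_coe, hQ])),
    Fintype.card_fin]
  rfl

/-- The sum over the injective quadruples of a function of the image. -/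
theorem sum_img (f : Finset V → ℝ) :
    ∑ b : Fin 4 → V, (if Function.Injective b then f (univ.image b) else 0) =
      24 * ∑ Q ∈ (univ : Finset V).powersetCard 4, f Q := by
  classical
  rw [← Finset.sum_filter]
  have hm : ∀ b ∈ (univ : Finset (Fin 4 → V)).filter (fun b => Function.Injective b),
      univ.image b ∈ (univ : Finset V).powersetCard 4 := by
    intro b hb
    rw [Finset.mem_powersetCard]
    refine ⟨Finset.subset_univ _, ?_⟩
    rw [Finset.card_image_of_injective _ (Finset.mem_filter.mp hb).2, Finset.card_univ,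
      Fintype.card_fin]
  rw [← Finset.sum_fiberwise_of_maps_to hm, Finset.mul_sum]
  refine Finset.sum_congr rfl fun Q hQ => ?_
  rw [Finset.filter_filter]
  have h1 : ∀ b ∈ (univ : Finset (Fin 4 → V)).filter
      (fun b => Function.Injective b ∧ univ.image b = Q), f (univ.image b) = f Q := by
    intro b hb
    rw [(Finset.mem_filter.mp hb).2.2]
  rw [Finset.sum_congr rfl h1, Finset.sum_const, card_fib Q (Finset.mem_powersetCard.mp hQ).2,
    nsmul_eq_mul]
  norm_num

end fib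

/-! ### Changing an even 4-graph by a coboundary -/

section flip
variable {n : ℕ}

/-- The parity of the number of triples of `Q` that are chosen by `γ`. -/
def par (γ : Finset (Fin n) → Bool) (Q : Finset (Fin n)) : Bool :=
  decide (Odd ((Q.powersetCard 3).filter fun T => γ T = true).card)

/-- The sum of `E` and of the coboundary of `γ`. -/
def flpE (E : Finset (Finset (Fin n))) (γ : Finset (Fin n) → Bool) : Finset (Finset (Fin n)) :=
  ((univ : Finset (Fin n)).powersetCard 4).filter fun Q => (decide (Q ∈ E) ^^ par γ Q) = true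

theorem flpE_card (E : Finset (Finset (Fin n))) (γ : Finset (Fin n) → Bool) :
    ∀ e ∈ flpE E γ, e.card = 4 := by
  intro e he
  exact (Finset.mem_powersetCard.mp (Finset.mem_filter.mp he).1).2

theorem mem_flpE (E : Finset (Finset (Fin n))) (γ : Finset (Fin n) → Bool) (Q : Finset (Fin n))
    (hQ : Q.card = 4) : (Q ∈ flpE E γ) ↔ (decide (Q ∈ E) ^^ par γ Q) = true := by
  unfold flpE
  rw [Finset.mem_filter, Finset.mem_powersetCard]
  constructor
  · exact fun h => h.2
  · exact fun h => ⟨⟨Finset.subset_univ _, hQ⟩, h⟩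

theorem dec_flpE (E : Finset (Finset (Fin n))) (γ : Finset (Fin n) → Bool) (Q : Finset (Fin n))
    (hQ : Q.card = 4) : decide (Q ∈ flpE E γ) = (decide (Q ∈ E) ^^ par γ Q) := by
  rw [Bool.eq_iff_iff, decide_eq_true_iff]
  exact mem_flpE E γ Q hQ

theorem bz_odd (k : ℕ) : bz (decide (Odd k)) = (k : ZMod 2) := by
  by_cases h : Odd k
  · rw [decide_eq_true h]
    obtain ⟨m, hm⟩ := h
    rw [hm]
    push_cast
    have : (2 : ZMod 2) = 0 := by decide
    rw [this, zero_mul, zero_add]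
    rfl
  · rw [decide_eq_false h]
    rw [Nat.not_odd_iff_even] at h
    obtain ⟨m, hm⟩ := h
    rw [hm]
    push_cast
    have h2 : (m : ZMod 2) + m = 2 * m := by ring
    have : (2 : ZMod 2) = 0 := by decide
    rw [h2, this, zero_mul]
    rfl

theorem bz_par (γ : Finset (Fin n) → Bool) (Q : Finset (Fin n)) :
    bz (par γ Q) = ∑ T ∈ Q.powersetCard 3, bz (γ T) := by
  unfold par
  rw [bz_odd, Finset.card_filter]
  push_cast
  refine Finset.sum_congr rfl fun T _ => ?_
  cases γ T <;> rfl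

theorem card4_filter (A : Finset (Finset (Fin n))) (S : Finset (Fin n)) (hS : S.card = 5) :
    ((((S.powersetCard 4).filter fun e => e ∈ A).card : ℕ) : ZMod 2) =
      ∑ x ∈ S, bz (decide (S.erase x ∈ A)) := by
  have h2 : ∀ x ∈ S, bz (decide (S.erase x ∈ A)) = if S.erase x ∈ A then (1 : ZMod 2) else 0 := by
    intro x _
    by_cases h : S.erase x ∈ A
    · rw [if_pos h, decide_eq_true h]; rfl
    · rw [if_neg h, decide_eq_false h]; rfl
  rw [Finset.sum_congr rfl h2, ← Finset.sum_filter, Finset.sum_const, nsmul_eq_mul, mul_one]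
  congr 1
  symm
  refine Finset.card_bij (fun y _ => S.erase y) ?_ ?_ ?_
  · intro y hy
    rw [Finset.mem_filter] at hy
    rw [Finset.mem_filter, Finset.mem_powersetCard]
    exact ⟨⟨Finset.erase_subset _ _, by rw [Finset.card_erase_of_mem hy.1, hS]⟩, hy.2⟩
  · intro a ha b hb hab
    rw [Finset.mem_filter] at ha hb
    by_contra hne
    have h5 : a ∈ S.erase b := Finset.mem_erase.mpr ⟨hne, ha.1⟩
    rw [← hab] at h5
    exact absurd h5 (Finset.notMem_erase a _)
  · intro e he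
    rw [Finset.mem_filter, Finset.mem_powersetCard] at he
    have h5 : (S \ e).card = 1 := by
      rw [Finset.card_sdiff_of_subset he.1.1, hS, he.1.2]
    obtain ⟨y, hy⟩ := Finset.card_eq_one.mp h5
    have hy1 : y ∈ S \ e := by rw [hy]; exact Finset.mem_singleton_self y
    rw [Finset.mem_sdiff] at hy1
    have h6 : S.erase y = e := by
      symm
      apply Finset.eq_of_subset_of_card_le
      · intro z hz
        rw [Finset.mem_erase]
        exact ⟨fun h => hy1.2 (h ▸ hz), he.1.1 hz⟩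
      · rw [Finset.card_erase_of_mem hy1.1, hS, he.1.2]
    refine ⟨y, ?_, h6⟩
    rw [Finset.mem_filter]
    exact ⟨hy1.1, by rw [h6]; exact he.2⟩

theorem even_iff_zmod (k : ℕ) : Even k ↔ ((k : ℕ) : ZMod 2) = 0 := by
  rw [ZMod.natCast_eq_zero_iff_even]

/-- The double sum over a five-set, a quadruple in it and a triple in the quadruple is zero. -/
theorem sum_tri (g : Finset (Fin n) → ZMod 2) (S : Finset (Fin n)) (hS : S.card = 5) :
    ∑ x ∈ S, ∑ T ∈ (S.erase x).powersetCard 3, g T = 0 := by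
  have h1 : ∑ x ∈ S, ∑ T ∈ (S.erase x).powersetCard 3, g T =
      ∑ T ∈ S.powersetCard 3, ∑ x ∈ S.filter (fun x => x ∉ T), g T := by
    refine Finset.sum_comm' ?_
    intro x T
    rw [Finset.mem_powersetCard, Finset.mem_powersetCard, Finset.mem_filter]
    constructor
    · rintro ⟨hx, hT, hc⟩
      refine ⟨⟨hx, fun h => ?_⟩, hT.trans (Finset.erase_subset _ _), hc⟩
      exact absurd (hT h) (Finset.notMem_erase x _)
    · rintro ⟨⟨hx, hxT⟩, hT, hc⟩
      refine ⟨hx, fun z hz => ?_, hc⟩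
      exact Finset.mem_erase.mpr ⟨fun h => hxT (h ▸ hz), hT hz⟩
  rw [h1]
  refine Finset.sum_eq_zero fun T hT => ?_
  rw [Finset.mem_powersetCard] at hT
  rw [Finset.sum_const, Finset.filter_notMem_eq_sdiff, Finset.card_sdiff_of_subset hT.1, hS, hT.2]
  have : (5 - 3) • g T = g T + g T := by rw [show 5 - 3 = 2 from rfl, two_nsmul]
  rw [this]
  exact add_self_zmod2 _

theorem evenH_flpE (E : Finset (Finset (Fin n))) (hE : EvenH n E) (γ : Finset (Fin n) → Bool) :
    EvenH n (flpE E γ) := by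
  intro S hS
  rw [even_iff_zmod, card4_filter _ S hS]
  have h1 : ∀ x ∈ S, bz (decide (S.erase x ∈ flpE E γ)) =
      bz (decide (S.erase x ∈ E)) + ∑ T ∈ (S.erase x).powersetCard 3, bz (γ T) := by
    intro x hx
    have hc : (S.erase x).card = 4 := by rw [Finset.card_erase_of_mem hx, hS]
    rw [← bz_par, ← bz_xor, dec_flpE E γ _ hc]
  rw [Finset.sum_congr rfl h1, Finset.sum_add_distrib, ← card4_filter _ S hS,
    (even_iff_zmod _).mp (hE S hS), zero_add]
  exact sum_tri (fun T => bz (γ T)) S hS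

end flip

/-! ### Optimal even 4-graphs -/

section opt
variable {n : ℕ}

/-- The cost of `E` with respect to `H`. -/
def cst (c : Bool → Bool → ℤ) (H E : Finset (Finset (Fin n))) : ℤ :=
  ∑ Q ∈ (univ : Finset (Fin n)).powersetCard 4, c (decide (Q ∈ H)) (decide (Q ∈ E))

/-- `E` is an even 4-graph of smallest cost with respect to `H`. -/
def OptE (c : Bool → Bool → ℤ) (H E : Finset (Finset (Fin n))) : Prop :=
  (∀ e ∈ E, e.card = 4) ∧ EvenH n E ∧
    ∀ E' : Finset (Finset (Fin n)), (∀ e ∈ E', e.card = 4) → EvenH n E' → cst c H E ≤ cst c H E'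

theorem exists_optE (c : Bool → Bool → ℤ) (H : Finset (Finset (Fin n))) :
    ∃ E : Finset (Finset (Fin n)), OptE c H E := by
  classical
  have hne : ((univ : Finset (Finset (Finset (Fin n)))).filter fun E =>
      (∀ e ∈ E, e.card = 4) ∧ EvenH n E).Nonempty := by
    refine ⟨∅, ?_⟩
    rw [Finset.mem_filter]
    refine ⟨Finset.mem_univ _, fun e he => absurd he (Finset.notMem_empty e), ?_⟩
    intro S _
    simp
  obtain ⟨E, hE, hmin⟩ := Finset.exists_min_image _ (fun E => cst c H E) hne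
  rw [Finset.mem_filter] at hE
  exact ⟨E, hE.2.1, hE.2.2, fun E' h4 hev => hmin E' (by
    rw [Finset.mem_filter]
    exact ⟨Finset.mem_univ _, h4, hev⟩)⟩

/-- The change of the cost of one quadruple if `E` is changed by the coboundary of a function of
triples that depends on three roots. -/
def FT (c : Bool → Bool → ℤ) (H E : Finset (Finset (Fin n)))
    (γ : (Fin 3 → Fin n) → Finset (Fin n) → Bool) (R : Fin 3 → Fin n) (b : Fin 4 → Fin n) : ℤ :=
  if Function.Injective b then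
    c (decide (univ.image b ∈ H)) (decide (univ.image b ∈ E) ^^ par (γ R) (univ.image b)) -
      c (decide (univ.image b ∈ H)) (decide (univ.image b ∈ E))
  else 0

theorem FT_sum (c : Bool → Bool → ℤ) (H E : Finset (Finset (Fin n))) (h : OptE c H E)
    (γ : (Fin 3 → Fin n) → Finset (Fin n) → Bool) (R : Fin 3 → Fin n) :
    0 ≤ ∑ b, ((FT c H E γ R b : ℤ) : ℝ) := by
  have e1 : ∀ b : Fin 4 → Fin n, ((FT c H E γ R b : ℤ) : ℝ) =
      if Function.Injective b then
        (fun Q : Finset (Fin n) => ((c (decide (Q ∈ H)) (decide (Q ∈ E) ^^ par (γ R) Q) -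
          c (decide (Q ∈ H)) (decide (Q ∈ E)) : ℤ) : ℝ)) (univ.image b) else 0 := by
    intro b
    unfold FT
    split_ifs
    · rfl
    · simp
  rw [Finset.sum_congr rfl fun b _ => e1 b,
    sum_img (fun Q : Finset (Fin n) => ((c (decide (Q ∈ H)) (decide (Q ∈ E) ^^ par (γ R) Q) -
      c (decide (Q ∈ H)) (decide (Q ∈ E)) : ℤ) : ℝ))]
  have h1 := h.2.2 (flpE E (γ R)) (flpE_card E (γ R)) (evenH_flpE E h.2.1 (γ R))
  have h2 : cst c H (flpE E (γ R)) = ∑ Q ∈ (univ : Finset (Fin n)).powersetCard 4,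
      c (decide (Q ∈ H)) (decide (Q ∈ E) ^^ par (γ R) Q) := by
    unfold cst
    refine Finset.sum_congr rfl fun Q hQ => ?_
    rw [dec_flpE E (γ R) Q (Finset.mem_powersetCard.mp hQ).2]
  have h3 : 0 ≤ ∑ Q ∈ (univ : Finset (Fin n)).powersetCard 4,
      (c (decide (Q ∈ H)) (decide (Q ∈ E) ^^ par (γ R) Q) -
        c (decide (Q ∈ H)) (decide (Q ∈ E))) := by
    rw [Finset.sum_sub_distrib, ← h2]
    unfold cst at h1 ⊢
    linarith
  have h4 : (0 : ℝ) ≤ ∑ Q ∈ (univ : Finset (Fin n)).powersetCard 4,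
      ((c (decide (Q ∈ H)) (decide (Q ∈ E) ^^ par (γ R) Q) -
        c (decide (Q ∈ H)) (decide (Q ∈ E)) : ℤ) : ℝ) := by
    exact_mod_cast h3
  linarith

/-- The change of the cost as a function of seven vertices: three roots and a quadruple. -/
def F7 (c : Bool → Bool → ℤ) (H E : Finset (Finset (Fin n)))
    (γ : (Fin 3 → Fin n) → Finset (Fin n) → Bool) (p : Fin (3 + 4) → Fin n) : ℤ :=
  FT c H E γ (p ∘ Fin.castAdd 4) (p ∘ Fin.natAdd 3)

theorem F7_tot (c : Bool → Bool → ℤ) (H E : Finset (Finset (Fin n))) (h : OptE c H E)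
    (γ : (Fin 3 → Fin n) → Finset (Fin n) → Bool) :
    0 ≤ ∑ p, ((F7 c H E γ p : ℤ) : ℝ) := by
  rw [← (Fin.appendEquiv 3 4).sum_comp, Fintype.sum_prod_type]
  refine Finset.sum_nonneg fun R _ => ?_
  have h1 : ∀ b : Fin 4 → Fin n, F7 c H E γ ((Fin.appendEquiv 3 4) (R, b)) = FT c H E γ R b := by
    intro b
    unfold F7
    have e1 : ((Fin.appendEquiv 3 4) (R, b) : Fin (3 + 4) → Fin n) ∘ Fin.castAdd 4 = R := by
      funext i
      simp only [Function.comp_apply, Fin.appendEquiv_apply, Fin.append_left]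
    have e2 : ((Fin.appendEquiv 3 4) (R, b) : Fin (3 + 4) → Fin n) ∘ Fin.natAdd 3 = b := by
      funext i
      simp only [Function.comp_apply, Fin.appendEquiv_apply, Fin.append_right]
    rw [e1, e2]
  simp_rw [h1]
  exact FT_sum c H E h γ R

theorem F7_le (c : Bool → Bool → ℤ) (C : ℤ) (hC : ∀ x y z, c x y - c x z ≤ C) (hC0 : 0 ≤ C)
    (H E : Finset (Finset (Fin n))) (γ : (Fin 3 → Fin n) → Finset (Fin n) → Bool)
    (p : Fin (3 + 4) → Fin n) : ((F7 c H E γ p : ℤ) : ℝ) ≤ C := by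
  unfold F7 FT
  split_ifs
  · exact_mod_cast hC _ _ _
  · exact_mod_cast hC0

/-- The sum of the changes over the injective eight-tuples, for a fixed choice of the roots and of
the quadruple. -/
theorem F7_ge (c : Bool → Bool → ℤ) (C : ℤ) (hC : ∀ x y z, c x y - c x z ≤ C) (hC0 : 0 ≤ C)
    (H E : Finset (Finset (Fin n))) (h : OptE c H E)
    (γ : (Fin 3 → Fin n) → Finset (Fin n) → Bool) (j : Fin 7 → Fin 8)
    (hj : Function.Injective j) :
    -((C : ℝ) * ((n : ℝ) ^ (4 + 4) - (n.descFactorial (4 + 4) : ℝ))) ≤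
      ∑ t ∈ inj (Fin n) (4 + 4), ((F7 c H E γ (t ∘ j) : ℤ) : ℝ) := by
  have h1 := inj_comp_ge (V := Fin n) (k := 7) 1 (fun p => ((F7 c H E γ p : ℤ) : ℝ)) C
    (F7_tot c H E h γ) (F7_le c C hC hC0 H E γ) j hj
  rw [Fintype.card_fin] at h1
  exact h1

end opt

/-! ### The upper bound -/

/-- A kernel for pairs of hypergraphs. -/
structure PKern (k : ℕ) where
  f : ∀ {n : ℕ}, Finset (Finset (Fin n)) → Finset (Finset (Fin n)) → (Fin k → Fin n) → Fin n →
    Fin n → ℤ
  C : ℝ
  psd : ∀ {n : ℕ} (H E : Finset (Finset (Fin n))) (s : Fin k → Fin n),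
    0 ≤ ∑ u, ∑ w, ((f H E s u w : ℤ) : ℝ)
  bd : ∀ {n : ℕ} (H E : Finset (Finset (Fin n))) s u w, ((f H E s u w : ℤ) : ℝ) ≤ C

/-- A kernel that does not depend on the even 4-graph. -/
def Kern.toP {k : ℕ} (κ : Kern k) : PKern k where
  f := fun H _ s u w => κ.f H s u w
  C := κ.C
  psd := fun H _ s => κ.psd H s
  bd := fun H _ s u w => κ.bd H s u w

/-- The optimality terms: functions of triples that depend on three roots, with weights and with
choices of the roots and of the quadruple among seven vertices. -/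
structure OTerm where
  ι : Type
  [fi : Fintype ι]
  γ : ι → ∀ {n : ℕ}, Finset (Finset (Fin n)) → Finset (Finset (Fin n)) → (Fin 3 → Fin n) →
    Finset (Fin n) → Bool
  w : ι → ℕ
  J : ι → Fin 7 → Fin 7
  hJ : ∀ i, Function.Injective (J i)

attribute [instance] OTerm.fi

/-- The value of the optimality terms. -/
def OTerm.val (o : OTerm) (c : Bool → Bool → ℤ) {n : ℕ} (H E : Finset (Finset (Fin n)))
    (s : Fin 7 → Fin n) : ℤ :=
  ∑ i : o.ι, (o.w i : ℤ) * F7 c H E (o.γ i H E) (s ∘ o.J i)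

theorem OTerm.val_ge (o : OTerm) (c : Bool → Bool → ℤ) (C : ℤ) (hC : ∀ x y z, c x y - c x z ≤ C)
    (hC0 : 0 ≤ C) {n : ℕ} (H E : Finset (Finset (Fin n))) (h : OptE c H E) :
    -((8 * (∑ i : o.ι, (o.w i : ℝ)) * C) *
        ((n : ℝ) ^ (4 + 4) - (n.descFactorial (4 + 4) : ℝ))) ≤
      ∑ t ∈ inj (Fin n) (4 + 4), ((DS (m := 7) (o.val c H E) t : ℤ) : ℝ) := by
  set D : ℝ := (n : ℝ) ^ (4 + 4) - (n.descFactorial (4 + 4) : ℝ) with hD
  have h1 : ∀ t : Fin (7 + 1) → Fin n, ((DS (m := 7) (o.val c H E) t : ℤ) : ℝ) =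
      ∑ x : Fin (7 + 1), ∑ i : o.ι, (o.w i : ℝ) *
        ((F7 c H E (o.γ i H E) (t ∘ (x.succAbove ∘ o.J i)) : ℤ) : ℝ) := by
    intro t
    unfold DS OTerm.val
    push_cast
    rfl
  have h2 : ∑ t ∈ inj (Fin n) (4 + 4), ((DS (m := 7) (o.val c H E) t : ℤ) : ℝ) =
      ∑ x : Fin (7 + 1), ∑ i : o.ι, (o.w i : ℝ) * ∑ t ∈ inj (Fin n) (4 + 4),
        ((F7 c H E (o.γ i H E) (t ∘ (x.succAbove ∘ o.J i)) : ℤ) : ℝ) := by
    rw [Finset.sum_congr rfl fun t _ => h1 t, Finset.sum_comm]
    refine Finset.sum_congr rfl fun x _ => ?_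
    rw [Finset.sum_comm]
    refine Finset.sum_congr rfl fun i _ => ?_
    rw [Finset.mul_sum]
  rw [h2]
  have h3 : ∀ (x : Fin (7 + 1)) (i : o.ι), (o.w i : ℝ) * -((C : ℝ) * D) ≤
      (o.w i : ℝ) * ∑ t ∈ inj (Fin n) (4 + 4),
        ((F7 c H E (o.γ i H E) (t ∘ (x.succAbove ∘ o.J i)) : ℤ) : ℝ) := by
    intro x i
    refine mul_le_mul_of_nonneg_left ?_ (Nat.cast_nonneg _)
    exact F7_ge c C hC hC0 H E h (o.γ i H E) (x.succAbove ∘ o.J i)
      (Fin.succAbove_right_injective.comp (o.hJ i))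
  calc -((8 * (∑ i : o.ι, (o.w i : ℝ)) * C) * D) =
        ∑ _x : Fin (7 + 1), ∑ i : o.ι, (o.w i : ℝ) * -((C : ℝ) * D) := by
        rw [Finset.sum_const, Finset.card_univ, Fintype.card_fin, nsmul_eq_mul,
          ← Finset.sum_mul]
        push_cast
        ring
    _ ≤ _ := Finset.sum_le_sum fun x _ => Finset.sum_le_sum fun i _ => h3 x i

theorem pair_DS_PS {n : ℕ} (κ5 : PKern 5) (H E : Finset (Finset (Fin n))) :
    -(8 * (42 * κ5.C) * ((n : ℝ) ^ (4 + 4) - (n.descFactorial (4 + 4) : ℝ))) ≤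
      ∑ t ∈ inj (Fin n) (4 + 4), ((DS (m := 7) (PS (κ5.f H E)) t : ℤ) : ℝ) := by
  have h1 := DS_PS_ge (V := Fin n) (fun s u w => ((κ5.f H E s u w : ℤ) : ℝ)) κ5.C (κ5.psd H E)
    (κ5.bd H E)
  rw [Fintype.card_fin] at h1
  have e1 : ∀ t : Fin (4 + 4) → Fin n, ((DS (m := 7) (PS (κ5.f H E)) t : ℤ) : ℝ) =
      DS (m := 7) (PS fun s u w => ((κ5.f H E s u w : ℤ) : ℝ)) t := by
    intro t
    rw [cast_DS]
    congr 1
    funext s
    exact cast_PS _ s
  rw [Finset.sum_congr rfl fun t _ => e1 t]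
  exact h1

/-- The upper bound from local inequalities about pairs. -/
theorem boundG (c : Bool → Bool → ℤ) (Cc : ℤ) (hCc : ∀ x y z, c x y - c x z ≤ Cc) (hCc0 : 0 ≤ Cc)
    (κ5 : PKern 5) (κ6 : Kern 6) (κr : RKern) (o : OTerm)
    (μ : ∀ {n : ℕ}, Finset (Finset (Fin n)) → Fin n → (Fin 6 → Fin n) → ℤ)
    (W : ∀ {n : ℕ}, Finset (Finset (Fin n)) → (Fin 7 → Fin n) → ℤ)
    (a Lo : ℤ) (ha : 0 < a) (lam : ℝ) (hlam : lam * (35 * a) ≤ Lo)
    (hK : ∀ (n : ℕ) (H E : Finset (Finset (Fin n))), (∀ e ∈ H, e.card = 4) →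
      (∀ S : Finset (Fin n), S.card = 5 → ∃ e ∈ S.powersetCard 4, e ∉ H) →
      (∀ e ∈ E, e.card = 4) → EvenH n E →
      ∀ s : Fin 7 → Fin n, Function.Injective s →
        2 * Lo + PS (κ5.f H E) s + MS (μ H) s + W E s + o.val c H E s ≤ 2 * a * (N8 H s : ℤ))
    (hB : ∀ (n : ℕ) (E : Finset (Finset (Fin n))), (∀ e ∈ E, e.card = 4) → EvenH n E →
      ∀ t : Fin (7 + 1) → Fin n, Function.Injective t → PS (κ6.f E) t ≤ DS (m := 7) (W E) t)
    (hL : ∀ (n : ℕ) (H : Finset (Finset (Fin n))) (r : Fin n) (p : Fin 7 → Fin n),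
      (∀ e ∈ H, e.card = 4) → Function.Injective p → (∀ i, p i ≠ r) →
        PS (κr.f H r) p ≤ DS (m := 6) (μ H r) p) :
    ∀ ε : ℝ, 0 < ε → ∃ N : ℕ, ∀ n : ℕ, N ≤ n → ∀ H : Finset (Finset (Fin n)),
      (∀ e ∈ H, e.card = 4) →
      (∀ S : Finset (Fin n), S.card = 5 → ∃ e ∈ S.powersetCard 4, e ∉ H) →
      (H.card : ℝ) ≤ (1 - lam + ε) * ((n.choose 4 : ℕ) : ℝ) := by
  have haR : (0 : ℝ) < a := by exact_mod_cast ha
  refine skel8 (16 * Lo) (8 * a)
    (8 * (42 * κ5.C) + 336 * κr.C + 56 * κ6.C + 8 * (∑ i : o.ι, (o.w i : ℝ)) * Cc) lam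
    (by positivity) ?_ ?_
  · have : lam * (8 * (a : ℝ) * 70) = 16 * (lam * (35 * a)) := by ring
    rw [this]
    linarith
  · intro n H h4 h5
    obtain ⟨E, hE⟩ := exists_optE c H
    refine ⟨fun t => ((DS (PS (κ5.f H E)) t : ℤ) : ℝ) + ((RS (κr.f H) t : ℤ) : ℝ) +
      ((PS (κ6.f E) t : ℤ) : ℝ) + ((DS (m := 7) (o.val c H E) t : ℤ) : ℝ), ?_, ?_⟩
    · rw [Finset.sum_add_distrib, Finset.sum_add_distrib, Finset.sum_add_distrib]
      have h1 := pair_DS_PS κ5 H E
      have h2 := RS_ge (V := Fin n) (fun r s u w => ((κr.f H r s u w : ℤ) : ℝ)) κr.C (κr.psd H)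
        (κr.bd H)
      have h3 := PS_inj_ge (V := Fin n) (k := 6) 0 (fun s u w => ((κ6.f E s u w : ℤ) : ℝ)) κ6.C
        (κ6.psd E) (κ6.bd E) id Function.injective_id
      have h6 := o.val_ge c Cc hCc hCc0 H E hE
      rw [Fintype.card_fin] at h2 h3
      have e2 : ∀ t : Fin (4 + 4) → Fin n, ((RS (κr.f H) t : ℤ) : ℝ) =
          RS (fun r s u w => ((κr.f H r s u w : ℤ) : ℝ)) t := by
        intro t
        unfold RS
        rw [Int.cast_sum]
        exact Finset.sum_congr rfl fun z _ => cast_PS _ _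
      have e3 : ∀ t : Fin (4 + 4) → Fin n, ((PS (k := 6) (κ6.f E) t : ℤ) : ℝ) =
          PS (k := 6) (fun s u w => ((κ6.f E s u w : ℤ) : ℝ)) t := fun t => cast_PS _ t
      rw [Finset.sum_congr rfl fun t _ => e2 t, Finset.sum_congr rfl fun t _ => e3 t]
      have h7 : -(56 * κ6.C * ((n : ℝ) ^ (4 + 4) - (n.descFactorial (4 + 4) : ℝ))) ≤
          ∑ t ∈ inj (Fin n) (4 + 4), PS (k := 6) (fun s u w => ((κ6.f E s u w : ℤ) : ℝ)) t := by
        refine le_trans (le_of_eq ?_) h3
        norm_num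
      linarith
    · intro t ht
      have hx : ∀ x : Fin (7 + 1), 2 * Lo + PS (κ5.f H E) (t ∘ x.succAbove) +
          MS (μ H) (t ∘ x.succAbove) + W E (t ∘ x.succAbove) + o.val c H E (t ∘ x.succAbove) ≤
            2 * a * (N8 H (t ∘ x.succAbove) : ℤ) := fun x =>
        hK n H E h4 h5 hE.1 hE.2.1 (t ∘ x.succAbove) (ht.comp Fin.succAbove_right_injective)
      have hz : ∀ z : Fin (7 + 1), PS (κr.f H (t z)) (t ∘ z.succAbove) ≤
          DS (m := 6) (μ H (t z)) (t ∘ z.succAbove) := fun z =>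
        hL n H (t z) (t ∘ z.succAbove) h4 (ht.comp Fin.succAbove_right_injective) fun i h =>
          Fin.succAbove_ne z i (ht h)
      have hb := hB n E hE.1 hE.2.1 t ht
      have s1 := Finset.sum_le_sum fun x (_ : x ∈ (univ : Finset (Fin (7 + 1)))) => hx x
      have s2 := Finset.sum_le_sum fun z (_ : z ∈ (univ : Finset (Fin (7 + 1)))) => hz z
      rw [Finset.sum_add_distrib, Finset.sum_add_distrib, Finset.sum_add_distrib,
        Finset.sum_add_distrib, Finset.sum_const, Finset.card_univ,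
        Fintype.card_fin, ← Finset.mul_sum, DS_MS] at s1
      have e3 : ∑ x : Fin (7 + 1), (N8 H (t ∘ x.succAbove) : ℤ) = 4 * (N8 H t : ℤ) := by
        have e4 : ((∑ x : Fin (7 + 1), N8 H (t ∘ x.succAbove) : ℕ) : ℤ) =
            (((7 - 3) * N8 H t : ℕ) : ℤ) := congrArg Nat.cast (DS_N8 (m := 7) (by norm_num) H t)
        rw [Nat.cast_sum, Nat.cast_mul] at e4
        exact e4
      rw [e3] at s1
      have h1 : 16 * Lo + DS (PS (κ5.f H E)) t + RS (κr.f H) t + PS (κ6.f E) t +
          DS (m := 7) (o.val c H E) t ≤ 8 * a * (N8 H t : ℤ) := by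
        have e5 : DS (PS (κ5.f H E)) t =
          ∑ x : Fin (7 + 1), PS (κ5.f H E) (t ∘ x.succAbove) := rfl
        have e6 : RS (κr.f H) t = ∑ z : Fin (7 + 1), PS (κr.f H (t z)) (t ∘ z.succAbove) := rfl
        have e8 : DS (m := 7) (o.val c H E) t =
          ∑ x : Fin (7 + 1), o.val c H E (t ∘ x.succAbove) := rfl
        have e9 : DS (m := 7) (W E) t = ∑ x : Fin (7 + 1), W E (t ∘ x.succAbove) := rfl
        rw [e9] at hb
        rw [e5, e6, e8]
        have e7 : ((7 + 1 : ℕ) : ℤ) = 8 := by norm_num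
        rw [nsmul_eq_mul, e7] at s1
        linarith
      have h2 : (((16 * Lo + DS (PS (κ5.f H E)) t + RS (κr.f H) t + PS (κ6.f E) t +
          DS (m := 7) (o.val c H E) t : ℤ)) : ℝ) ≤
          ((8 * a * (N8 H t : ℤ) : ℤ) : ℝ) := by exact_mod_cast h1
      push_cast at h2
      linarith

end Pool.Agent.Lib.MP_afdd4d_co.K8
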