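import Pool.Agent.Lib.MP_afdd4d_co.K8.GamFrm

/-!
# The term of a pair as an entry of a table
-/

namespace Pool.Agent.Lib.MP_afdd4d_co.K8.Gm

open Finset

/-! ### Links -/

/-- The lists of the forms of a link. -/
def gL : List (List ℕ) := [[0], [1], [2], [0, 1, 2, 6], [3], [4], [0, 3, 4, 7], [5], [1, 3, 5, 8],
  [2, 4, 5, 9]]

theorem gL_data : ∀ r < 10, gwF.getD r 0 = fm (gL.getD r []) ∧ ∀ j ∈ gL.getD r [], j < 10 := by
  decide +kernel

theorem gwb_xl (z : ℕ → Bool) (r : ℕ) (hr : r < 10) : gwb z r = xl z (gL.getD r []) := by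
  unfold gwb
  rw [(gL_data r hr).1, lf_fm 10 z _ (gL_data r hr).2]

/-- The ten bits of the index of a link. -/
def lz (x : ℕ → Bool) (A p : ℕ → Bool) (r : ℕ) : Bool :=
  if r < 4 then x ([0, 1, 2, 4].getD r 0) else if r < 6 then x ([5, 7].getD (r - 4) 0) else
    (A (r - 6) ^^ p (r - 6))

theorem lz_eq (x A p : ℕ → Bool)
    (h0 : A 0 = (p 0 ^^ (x 0 ^^ (x 1 ^^ (x 2 ^^ x 3)))))
    (h1 : A 1 = (p 1 ^^ (x 0 ^^ (x 4 ^^ (x 5 ^^ x 6)))))
    (h2 : A 2 = (p 2 ^^ (x 1 ^^ (x 4 ^^ (x 7 ^^ x 8)))))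
    (h3 : A 3 = (p 3 ^^ (x 2 ^^ (x 5 ^^ (x 7 ^^ x 9))))) :
    ∀ r < 10, gwb (lz x A p) r = x r := by
  intro r hr
  rw [gwb_xl _ r hr]
  have e0 : lz x A p 0 = x 0 := rfl
  have e1 : lz x A p 1 = x 1 := rfl
  have e2 : lz x A p 2 = x 2 := rfl
  have e3 : lz x A p 3 = x 4 := rfl
  have e4 : lz x A p 4 = x 5 := rfl
  have e5 : lz x A p 5 = x 7 := rfl
  have e6 : lz x A p 6 = (A 0 ^^ p 0) := rfl
  have e7 : lz x A p 7 = (A 1 ^^ p 1) := rfl
  have e8 : lz x A p 8 = (A 2 ^^ p 2) := rfl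
  have e9 : lz x A p 9 = (A 3 ^^ p 3) := rfl
  have hx : ∀ a b c d : Bool, ((((d ^^ c) ^^ b) ^^ a) = (a ^^ (b ^^ (c ^^ d)))) := by decide
  have hy : ∀ p a b c d : Bool, ((((false ^^ ((p ^^ (a ^^ (b ^^ (c ^^ d)))) ^^ p)) ^^ c) ^^ b) ^^ a) = d := by
    decide
  have hf : ∀ a : Bool, (false ^^ a) = a := by decide
  interval_cases r
  · exact (hf _).trans e0
  · exact (hf _).trans e1
  · exact (hf _).trans e2
  · show ((((false ^^ lz x A p 6) ^^ lz x A p 2) ^^ lz x A p 1) ^^ lz x A p 0) = x 3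
    rw [e6, e2, e1, e0, h0]
    exact hy _ _ _ _ _
  · exact (hf _).trans e3
  · exact (hf _).trans e4
  · show ((((false ^^ lz x A p 7) ^^ lz x A p 4) ^^ lz x A p 3) ^^ lz x A p 0) = x 6
    rw [e7, e4, e3, e0, h1]
    exact hy _ _ _ _ _
  · exact (hf _).trans e5
  · show ((((false ^^ lz x A p 8) ^^ lz x A p 5) ^^ lz x A p 3) ^^ lz x A p 1) = x 8
    rw [e8, e5, e3, e1, h2]
    exact hy _ _ _ _ _
  · show ((((false ^^ lz x A p 9) ^^ lz x A p 5) ^^ lz x A p 4) ^^ lz x A p 2) = x 9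
    rw [e9, e5, e4, e2, h3]
    exact hy _ _ _ _ _

/-! ### Quadruples -/

theorem q6_c5 : ∀ r < 5, (q6 5 r).image c5 = q7 r := by decide +kernel

/-- The first five positions and one more. -/
def cu (u : Fin 7) : Fin 6 → Fin 7 := Fin.snoc c5 u

theorem q6_cu5 : ∀ r < 10, (q6 6 (5 + r)).image (cu 5) = q7 (5 + r) := by decide +kernel

theorem q6_cu6 : ∀ r < 10, (q6 6 (5 + r)).image (cu 6) = q7 (15 + r) := by decide +kernel

theorem snoc_cu {V : Type*} (t : Fin 7 → V) (u : Fin 7) :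
    (Fin.snoc (t ∘ c5) (t u) : Fin 6 → V) = t ∘ cu u := by
  funext i
  refine Fin.lastCases ?_ (fun j => ?_) i
  · unfold cu
    rw [Fin.snoc_last, Function.comp_apply, Fin.snoc_last]
  · unfold cu
    rw [Fin.snoc_castSucc, Function.comp_apply, Function.comp_apply, Fin.snoc_castSucc]

section tup
variable {n : ℕ} (H : Finset (Finset (Fin n)))

theorem pk_zq (t : Fin 7 → Fin n) : pk H (t ∘ c5) = idx 5 (zq H t) := by
  unfold pk
  apply idx_congr
  intro r hr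
  unfold zq
  rw [zb_comp, q6_c5 r hr]

theorem xk_zq5 (t : Fin 7 → Fin n) (r : ℕ) (hr : r < 10) :
    xk H (t ∘ c5) (t 5) r = zq H t (5 + r) := by
  unfold xk zq
  rw [snoc_cu, zb_comp, q6_cu5 r hr]

theorem xk_zq6 (t : Fin 7 → Fin n) (r : ℕ) (hr : r < 10) :
    xk H (t ∘ c5) (t 6) r = zq H t (15 + r) := by
  unfold xk zq
  rw [snoc_cu, zb_comp, q6_cu6 r hr]

/-- The order of the index bits of the tables. -/
def ord : List ℕ := [10, 11, 12, 13, 14, 15, 4, 5, 6, 7, 8, 9, 0, 1, 2, 3]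

theorem ord_p : ∀ r < 4, ord.getD (12 + r) 0 = r ∧ jq.getD r 0 = r := by decide

/-- The lists of the five-sets of the two vertices. -/
def lA : List (List ℕ) := [f7 1, f7 2, f7 3, f7 4]
def lB : List (List ℕ) := [f7 6, f7 7, f7 8, f7 9]

/-- The constants of a tuple. -/
def cπ (c : ℕ) : ℕ := xbG c (f7 0)
def cα (c : ℕ) : ℕ := cbG c lA
def cβ (c : ℕ) : ℕ := cbG c lB

theorem cπ_lt (c : ℕ) : cπ c < 2 := by
  unfold cπ
  rw [xbG_eq]
  cases xl c.testBit (f7 0) <;> decide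

theorem cα_lt (c : ℕ) : cα c < 16 := cbG_lt c lA

theorem cβ_lt (c : ℕ) : cβ c < 16 := cbG_lt c lB

theorem link_eq (x A : ℕ → Bool) (p : ℕ → Bool) (y α e : ℕ)
    (hA : ∀ r < 4, α.testBit r = A r) (he : ∀ r < 4, e.testBit r = p r) (hy : ∀ r < 6, y.testBit r =
      lz x A p r) (hy6 : y < 64)
    (h0 : A 0 = (p 0 ^^ (x 0 ^^ (x 1 ^^ (x 2 ^^ x 3)))))
    (h1 : A 1 = (p 1 ^^ (x 0 ^^ (x 4 ^^ (x 5 ^^ x 6)))))
    (h2 : A 2 = (p 2 ^^ (x 1 ^^ (x 4 ^^ (x 7 ^^ x 8)))))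
    (h3 : A 3 = (p 3 ^^ (x 2 ^^ (x 5 ^^ (x 7 ^^ x 9))))) (hα : α < 16) (he16 : e < 16) :
    gwG (y + 64 * (α ^^^ e)) = idx 10 x := by
  have hx : α ^^^ e < 16 := Nat.xor_lt_two_pow (n := 4) hα he16
  have e1 : y + 64 * (α ^^^ e) = idx 10 (lz x A p) := by
    have hlt : y + 64 * (α ^^^ e) < 2 ^ 10 := by omega
    rw [← idx_testBit 10 _ hlt]
    apply idx_congr
    intro r hr
    have e2 : y + 64 * (α ^^^ e) = 2 ^ 6 * (α ^^^ e) + y := by
      norm_num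
      ring
    rw [e2, Nat.testBit_two_pow_mul_add _ (show y < 2 ^ 6 by omega) r]
    by_cases h6 : r < 6
    · rw [if_pos h6, hy r h6]
    · rw [if_neg h6, Nat.testBit_xor, hA (r - 6) (by omega), he (r - 6) (by omega)]
      unfold lz
      rw [if_neg (by omega), if_neg h6]
  rw [e1, gwG_eq]
  exact idx_congr 10 _ _ fun r hr => lz_eq x A p h0 h1 h2 h3 r hr

variable (D : TF)

/-- The term of a tuple as an entry of the table. -/
theorem tvN_ttv (s : ℕ) (oo : ℕ → ℕ) (E' : Finset (Finset (Fin n))) (t : Fin 7 → Fin n)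
    (hev : EvT E' t) (c : ℕ) (hJ : JD H E' t = jset c) :
    D.ttv s oo (cπ c) (cα c) (cβ c) (fun r => gc H t (ord.getD r 0)) =
      D.tvN s oo (pk H (t ∘ c5)) (idx 10 (xk H (t ∘ c5) (t 5))) (idx 10 (xk H (t ∘ c5) (t 6))) := by
  set Z : ℕ → Bool := zq H t with hZ
  have hg : ∀ i < 20, gc H t i = Z (jq.getD i 0) := fun i hi => gc_zq H t i hi
  have hpar : ∀ i < 21, xl Z (f7 i) = xl c.testBit (f7 i) := fun i hi => par_H H E' t hev c hJ i hi
  -- the four bits of the pattern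
  have hp : (idx 4 fun r => gc H t (ord.getD (12 + r) 0)) = idx 4 Z := by
    apply idx_congr
    intro r hr
    obtain ⟨h1, h2⟩ := ord_p r hr
    rw [h1, hg r (by omega), h2]
  have hx5 : ∀ a b c d e : Bool, (((((false ^^ e) ^^ d) ^^ c) ^^ b) ^^ a) =
      (a ^^ (b ^^ (c ^^ (d ^^ e)))) := by decide
  have hP : peG (cπ c) (idx 4 Z) = pk H (t ∘ c5) := by
    have h1 : cπ c = (xl Z (f7 0)).toNat := by
      unfold cπ
      rw [xbG_eq, hpar 0 (by norm_num)]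
    have h2 : xl Z (f7 0) = (Z 0 ^^ (Z 1 ^^ (Z 2 ^^ (Z 3 ^^ Z 4)))) := hx5 _ _ _ _ _
    rw [h1, peG_eq, pk_zq]
    apply idx_congr
    intro r hr
    by_cases h4 : r < 4
    · rw [if_pos h4]
    · have h5 : r = 4 := by omega
      rw [if_neg h4, h2, h5]
      have h6 : ∀ a b c d e : Bool, ((a ^^ (b ^^ (c ^^ (d ^^ e)))) ^^ (a ^^ (b ^^ (c ^^ d)))) = e := by
        decide
      exact h6 _ _ _ _ _
  have hA : ∀ r < 4, (cα c).testBit r = xl Z (f7 (1 + r)) := by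
    intro r hr
    unfold cα
    rw [cbG_testBit, hpar (1 + r) (by omega)]
    interval_cases r <;> rfl
  have hB : ∀ r < 4, (cβ c).testBit r = xl Z (f7 (6 + r)) := by
    intro r hr
    unfold cβ
    rw [cbG_testBit, hpar (6 + r) (by omega)]
    interval_cases r <;> rfl
  have he : ∀ r < 4, (idx 4 Z).testBit r = Z r := by
    intro r hr
    rw [testBit_idx, decide_eq_true hr, Bool.true_and]
  have hx5' : ∀ a b c d e : Bool, (((((false ^^ e) ^^ d) ^^ c) ^^ b) ^^ a) =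
      (a ^^ (b ^^ (c ^^ (d ^^ e)))) := by decide
  have hU : gwG ((idx 6 fun r => gc H t (ord.getD (6 + r) 0)) +
      64 * (cα c ^^^ idx 4 Z)) = idx 10 (xk H (t ∘ c5) (t 5)) := by
    rw [idx_congr 10 (xk H (t ∘ c5) (t 5)) (fun r => Z (5 + r)) fun r hr => xk_zq5 H t r hr]
    refine link_eq (fun r => Z (5 + r)) (fun r => xl Z (f7 (1 + r))) Z _ _ _ hA he ?_ ?_ ?_ ?_ ?_ ?_
      (cα_lt c) (idx_lt 4 _)
    · intro r hr
      rw [testBit_idx, decide_eq_true hr, Bool.true_and]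
      have e1 : ord.getD (6 + r) 0 = 4 + r := by interval_cases r <;> rfl
      rw [e1, hg _ (by omega)]
      interval_cases r <;> rfl
    · exact idx_lt 6 _
    · exact hx5' _ _ _ _ _
    · exact hx5' _ _ _ _ _
    · exact hx5' _ _ _ _ _
    · exact hx5' _ _ _ _ _
  have hW : gwG ((idx 6 fun r => gc H t (ord.getD r 0)) + 64 * (cβ c ^^^ idx 4 Z)) =
      idx 10 (xk H (t ∘ c5) (t 6)) := by
    rw [idx_congr 10 (xk H (t ∘ c5) (t 6)) (fun r => Z (15 + r)) fun r hr => xk_zq6 H t r hr]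
    refine link_eq (fun r => Z (15 + r)) (fun r => xl Z (f7 (6 + r))) Z _ _ _ hB he ?_ ?_ ?_ ?_ ?_ ?_
      (cβ_lt c) (idx_lt 4 _)
    · intro r hr
      rw [testBit_idx, decide_eq_true hr, Bool.true_and]
      have e1 : ord.getD r 0 = 10 + r := by interval_cases r <;> rfl
      rw [e1, hg _ (by omega)]
      interval_cases r <;> rfl
    · exact idx_lt 6 _
    · exact hx5' _ _ _ _ _
    · exact hx5' _ _ _ _ _
    · exact hx5' _ _ _ _ _
    · exact hx5' _ _ _ _ _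
  unfold TF.ttv
  rw [hp, hP, hU, hW]

end tup

end Pool.Agent.Lib.MP_afdd4d_co.K8.Gm
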