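import Pool.Agent.Lib.MP_afdd4d_co.K8.GamPair

/-!
# The bits of the quadruples of seven vertices in terms of the link of the first vertex

If the 4-graph differs from an even 4-graph by a given 4-graph, then the parities of all five-sets are
known, and the bits of all quadruples are affine forms in the twenty bits of the quadruples with the
first vertex.
-/

namespace Pool.Agent.Lib.MP_afdd4d_co.K8.Gm

open Finset

/-! ### Lists -/

theorem xl_cons (z : ℕ → Bool) (a : ℕ) (l : List ℕ) : xl z (a :: l) = (xl z l ^^ z a) := rfl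

theorem bz_xl (z : ℕ → Bool) (l : List ℕ) : bz (xl z l) = (l.map fun r => bz (z r)).sum := by
  induction l with
  | nil => rfl
  | cons a l ih => rw [xl_cons, bz_xor, ih, List.map_cons, List.sum_cons, add_comm]

theorem xl_xor (z z' : ℕ → Bool) (l : List ℕ) :
    xl (fun r => z r ^^ z' r) l = (xl z l ^^ xl z' l) := by
  induction l with
  | nil => rfl
  | cons a l ih =>
    rw [xl_cons, xl_cons, xl_cons, ih]
    cases xl z l <;> cases xl z' l <;> cases z a <;> cases z' a <;> rfl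

theorem xl_cancel (f g : ℕ → Bool) (r : ℕ) (l : List ℕ) (hr : r ∈ l) (hn : l.Nodup)
    (h : ∀ r' ∈ l, r' ≠ r → f r' = g r') (hx : xl f l = xl g l) : f r = g r := by
  induction l with
  | nil => exact absurd hr List.not_mem_nil
  | cons a l ih =>
    rw [xl_cons, xl_cons] at hx
    rw [List.nodup_cons] at hn
    by_cases ha : r = a
    · subst ha
      have h1 : xl f l = xl g l := xl_congr f g l fun j hj =>
        h j (List.mem_cons_of_mem _ hj) fun h2 => hn.1 (h2 ▸ hj)
      rw [h1] at hx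
      cases hx1 : xl g l <;> cases hf : f r <;> cases hg : g r <;>
        simp [hx1, hf, hg] at hx ⊢
    · have h1 : r ∈ l := by
        rcases List.mem_cons.mp hr with h2 | h2
        · exact absurd h2 ha
        · exact h2
      have h3 : f a = g a := h a List.mem_cons_self fun h2 => ha h2.symm
      refine ih h1 hn.2 (fun r' hr' hne => h r' (List.mem_cons_of_mem _ hr') hne) ?_
      rw [h3] at hx
      cases h4 : xl f l <;> cases h5 : xl g l <;> cases h6 : g a <;> simp [h4, h5, h6] at hx ⊢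

/-- The sum of forms. -/
def xf (F : ℕ → ℕ) (l : List ℕ) : ℕ := l.foldr (fun j a => a ^^^ F j) 0

theorem lf_xf (N : ℕ) (F : ℕ → ℕ) (v : ℕ → Bool) (l : List ℕ) :
    lf N (xf F l) v = xl (fun r => lf N (F r) v) l := by
  induction l with
  | nil => exact lf_zero N v
  | cons a l ih =>
    have e1 : xf F (a :: l) = xf F l ^^^ F a := rfl
    rw [e1, lf_xor, ih, xl_cons]

/-! ### Data -/

/-- The quadruples with the first vertex. -/
def jq : List ℕ := [0, 1, 2, 3, 5, 6, 7, 9, 10, 12, 15, 16, 17, 19, 20, 22, 25, 26, 28, 31]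

theorem jq_data : ∀ i < 20, jq.getD i 0 < 35 ∧ qd 7 i = q7 (jq.getD i 0) := by decide +kernel

/-- The list of the quadruples of a five-set. -/
def f7 (i : ℕ) : List ℕ := F7L.getD i []

theorem f7_set : ∀ i < 21, ∃ S : Finset (Fin 7), S.card = 5 ∧ (f7 i).Nodup ∧
    (∀ r ∈ f7 i, r < 35) ∧ (∀ x ∈ S, ∃ r ∈ f7 i, q7 r = S.erase x) ∧
    ∀ r ∈ f7 i, ∃ x ∈ S, q7 r = S.erase x := by
  decide +kernel

/-- The five-sets with the first vertex. -/
def z0 : List ℕ := [0, 1, 2, 3, 4, 6, 7, 8, 9, 11, 12, 13, 15, 16, 18]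

/-- The forms of the quadruples. -/
def ZF : List ℕ := [2, 4, 8, 16, 2097182, 32, 64, 128, 4194530, 256, 512, 8389412, 1024, 16778568,
  33556112, 2048, 4096, 8192, 67123202, 16384, 32768, 134268932, 65536, 268521480, 536977424,
  131072, 262144, 1074137120, 524288, 2148143168, 4295762048, 1048576, 8591130880, 17181213184,
  34361377792]

/-- The form of a quadruple. -/
def zF (r : ℕ) : ℕ := ZF.getD r 0

theorem zF_data : ∀ r < 35, (∃ i < 20, jq.getD i 0 = r ∧ zF r = 2 ^ (i + 1)) ∨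
    (∃ j < 15, r ∈ f7 (z0.getD j 0) ∧ (f7 (z0.getD j 0)).Nodup ∧
      xf zF (f7 (z0.getD j 0)) = 2 ^ (20 + j + 1) ∧
      ∀ r' ∈ f7 (z0.getD j 0), r' ≠ r → ∃ i < 20, jq.getD i 0 = r' ∧ zF r' = 2 ^ (i + 1)) := by
  decide +kernel

theorem z0_lt : ∀ j < 15, z0.getD j 0 < 21 := by decide

/-! ### Bits of quadruples -/

section tup
variable {n : ℕ} (H E' : Finset (Finset (Fin n)))

/-- The bit of a quadruple. -/
def zq (t : Fin 7 → Fin n) (r : ℕ) : Bool := zb H t (q7 r)

theorem gc_zq (t : Fin 7 → Fin n) (i : ℕ) (hi : i < 20) : gc H t i = zq H t (jq.getD i 0) := by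
  unfold gc zq
  rw [(jq_data i hi).2]

theorem par_ev (t : Fin 7 → Fin n) (hev : EvT E' t) (i : ℕ) (hi : i < 21) :
    xl (zq E' t) (f7 i) = false := by
  obtain ⟨S, hS, hnd, h35, h1, h2⟩ := f7_set i hi
  apply bz_inj
  have e0 : bz false = 0 := rfl
  have h3 := hev S hS
  unfold dl at h3
  rw [e0, bz_xl, ← List.sum_toFinset _ hnd, ← h3]
  symm
  choose! g hg1 hg2 using h1
  refine Finset.sum_bij (fun x _ => g x) ?_ ?_ ?_ ?_
  · intro x hx
    exact List.mem_toFinset.mpr (hg1 x hx)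
  · intro x hx y hy hxy
    have h6 := hg2 x hx
    rw [hxy, hg2 y hy] at h6
    by_contra hne
    have : x ∈ S.erase y := Finset.mem_erase.mpr ⟨hne, hx⟩
    rw [h6] at this
    exact absurd this (Finset.notMem_erase x _)
  · intro r hr
    rw [List.mem_toFinset] at hr
    obtain ⟨x, hx, h6⟩ := h2 r hr
    refine ⟨x, hx, ?_⟩
    apply q7_inj _ (h35 _ (hg1 x hx)) _ (h35 r hr)
    rw [hg2 x hx, h6]
  · intro x hx
    rw [zt_eq, ← hg2 x hx]
    rfl

theorem zq_JD (t : Fin 7 → Fin n) (c : ℕ) (hJ : JD H E' t = jset c) (r : ℕ) (hr : r < 35) :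
    zq H t r = (zq E' t r ^^ c.testBit r) := by
  have h1 : c.testBit r = decide (E H t (q7 r) ≠ E E' t (q7 r)) := by
    rw [Bool.eq_iff_iff, decide_eq_true_iff, ← q7_mem_jset c r hr, ← hJ, mem_JD]
    exact ⟨fun h => h.2, fun h => ⟨q7_card r hr, h⟩⟩
  unfold zq zb
  rw [h1]
  cases E H t (q7 r) <;> cases E E' t (q7 r) <;> decide

theorem par_H (t : Fin 7 → Fin n) (hev : EvT E' t) (c : ℕ) (hJ : JD H E' t = jset c) (i : ℕ)
    (hi : i < 21) : xl (zq H t) (f7 i) = xl c.testBit (f7 i) := by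
  obtain ⟨_, _, _, h35, _, _⟩ := f7_set i hi
  rw [xl_congr (zq H t) (fun r => zq E' t r ^^ c.testBit r) _ fun j hj =>
    zq_JD H E' t c hJ j (h35 j hj), xl_xor, par_ev E' t hev i hi, Bool.false_xor]

/-! ### Permuted tuples -/

/-- The code after a permutation. -/
def cp (τ c : ℕ) : ℕ := idx 35 fun r => c.testBit (iq τ r)

theorem zq_pm {τ : ℕ} (h : okp τ = true) (t : Fin 7 → Fin n) (r : ℕ) (hr : r < 35) :
    zq H (t ∘ pm τ) r = zq H t (iq τ r) := by
  unfold zq
  rw [zb_comp, (img_q7 h r hr).2]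

theorem JD_pm {τ : ℕ} (h : okp τ = true) (t : Fin 7 → Fin n) (c : ℕ) (hJ : JD H E' t = jset c) :
    JD H E' (t ∘ pm τ) = jset (cp τ c) := by
  ext T
  by_cases hT : T.card = 4
  · obtain ⟨r, hr, rfl⟩ := q7_surj T hT
    rw [mem_JD_perm, hJ, (img_q7 h r hr).2, q7_mem_jset _ _ (img_q7 h r hr).1, q7_mem_jset _ r hr]
    unfold cp
    rw [testBit_idx, decide_eq_true hr, Bool.true_and]
  · constructor
    · intro h6
      exact absurd (JD_card4 H E' _ T h6) hT
    · intro h6
      exact absurd (jset_card4 _ T h6) hT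

/-! ### The forms -/

/-- The variables: the twenty bits and the parities. -/
def fv (k : ℕ → Bool) (C : ℕ) (i : ℕ) : Bool := if i < 20 then k i else C.testBit (i - 20)

/-- The parities of the five-sets with the first vertex. -/
def cG (c : ℕ) : ℕ := cbG c (z0.map f7)

theorem cG_bit (c j : ℕ) (hj : j < 15) : (cG c).testBit j = xl c.testBit (f7 (z0.getD j 0)) := by
  unfold cG
  rw [cbG_testBit]
  congr 1
  rw [List.getD_eq_getElem _ _ (by rw [List.length_map]; exact hj), List.getElem_map,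
    List.getD_eq_getElem _ _ hj]
  rfl

theorem cG_lt (c : ℕ) : cG c < 2 ^ 15 := by
  have h := cbG_lt c (z0.map f7)
  exact h

theorem zq_form (t : Fin 7 → Fin n) (hev : EvT E' t) (c : ℕ) (hJ : JD H E' t = jset c) (r : ℕ)
    (hr : r < 35) : zq H t r = lf 35 (zF r) (fv (gc H t) (cG c)) := by
  have h0 : ∀ r, (∃ i < 20, jq.getD i 0 = r ∧ zF r = 2 ^ (i + 1)) →
      zq H t r = lf 35 (zF r) (fv (gc H t) (cG c)) := by
    rintro r ⟨i, hi, h1, h2⟩
    rw [h2, lf_two_pow, decide_eq_true (show i < 35 by omega), Bool.true_and, fv, if_pos hi,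
      gc_zq H t i hi, h1]
  rcases zF_data r hr with h1 | ⟨j, hj, h1, h2, h3, h4⟩
  · exact h0 r h1
  · refine xl_cancel (zq H t) (fun r => lf 35 (zF r) (fv (gc H t) (cG c))) r _ h1 h2
      (fun r' hr' hne => h0 r' (h4 r' hr' hne)) ?_
    rw [← lf_xf, h3, lf_two_pow, decide_eq_true (show 20 + j < 35 by omega), Bool.true_and, fv,
      if_neg (by omega), Nat.add_sub_cancel_left, par_H H E' t hev c hJ _ (z0_lt j hj),
      cG_bit c j hj]

/-- The bits of a permuted tuple. -/
theorem gc_form {τ : ℕ} (h : okp τ = true) (t : Fin 7 → Fin n) (hev : EvT E' t) (c : ℕ)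
    (hJ : JD H E' t = jset c) (i : ℕ) (hi : i < 20) :
    gc H (t ∘ pm τ) i = lf 35 (zF (iq τ (jq.getD i 0))) (fv (gc H t) (cG c)) := by
  rw [gc_zq H _ i hi, zq_pm H h t _ (jq_data i hi).1,
    zq_form H E' t hev c hJ _ (img_q7 h _ (jq_data i hi).1).1]

/-- The variables in the lanes. -/
theorem fv_xv (k b : ℕ → Bool) (C τ : ℕ) (hτ : τ < 16) (hb : ∀ i < 16, b i = k i)
    (ht : ∀ i < 4, τ.testBit i = k (16 + i)) (i : ℕ) (hi : i < 35) :
    fv k C i = xv (τ + 16 * C) b i := by
  unfold fv xv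
  by_cases h1 : i < 16
  · rw [if_pos (by omega), if_pos h1, hb i h1]
  · rw [if_neg h1]
    have e1 : ∀ j, (τ + 16 * C).testBit j = if j < 4 then τ.testBit j else C.testBit (j - 4) := by
      intro j
      have e2 : τ + 16 * C = 2 ^ 4 * C + τ := by
        norm_num
        ring
      rw [e2]
      exact Nat.testBit_two_pow_mul_add C (show τ < 2 ^ 4 by omega) j
    rw [e1]
    by_cases h2 : i < 20
    · rw [if_pos h2, if_pos (by omega), ht (i - 16) (by omega), Nat.add_sub_cancel' (by omega)]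
    · rw [if_neg h2, if_neg (by omega)]
      congr 1

end tup

end Pool.Agent.Lib.MP_afdd4d_co.K8.Gm
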