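import Pool.Agent.Lib.MP_afdd4d_co.K8.GamSum
import Pool.Agent.Lib.MP_afdd4d_co.K8.F6Chk

/-!
# The conditions on the tables from the checks of their leaves
-/

namespace Pool.Agent.Lib.MP_afdd4d_co.K8.Gm

namespace GT

theorem ok_of (T : GT) (hw : 0 < T.w) (hW : T.D.W = T.w) (rows : T.D.RowsOK) (pr : T.D.PrOK)
    (inv : T.D.fd.InvK) (sym : T.D.SymOK) (num : 21 * (2 * T.D.B + T.OO) < 2 ^ T.w)
    (h5 : 5 * T.a3 ≤ T.OO) (G : List (ℕ × ℕ × List (ℕ × NT)))
    (hG : ∀ g ∈ G, g.1 < 2 ∧ (∀ X < 512, T.D.tlG 0 T.oo T.w g.1 g.2.1 g.2.2 X = true) ∧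
      allL (fun I : ℕ × NT => Nat.blt I.1 16 && shpG I.2 9) g.2.2 = true)
    (hT : T.tb = G.flatMap fun g => g.2.2.map fun I => (g.1, g.2.1, I.1, I.2)) : OK T where
  hw := hw
  inv := inv
  sym := fun c d h => TF.g6_symm rows.hn sym c d h
  rows := rows
  num := num
  h5 := h5
  tab := by
    have hoo : ∀ p, T.oo p ≤ T.OO := by
      intro p
      unfold oo
      rw [ooG_eq]
      exact Nat.sub_le _ _
    have hn : T.D.TNum 0 T.oo T.w :=
      { hw := hw
        hW := hW
        hs := Nat.zero_le _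
        h1 := by
          rw [hW, pow_zero]
          omega
        h2 := fun p _ => by
          have h1 := hoo p
          rw [pow_zero, Nat.add_sub_cancel, Nat.div_one]
          omega }
    intro i hi
    have h1 : T.en i ∈ T.tb := by
      unfold en
      rw [nthG_eq, List.getD_eq_getElem _ _ hi]
      exact List.getElem_mem hi
    rw [hT, List.mem_flatMap] at h1
    obtain ⟨g, hg, h2⟩ := h1
    rw [List.mem_map] at h2
    obtain ⟨I, hI, h3⟩ := h2
    obtain ⟨h4, h5, h6⟩ := hG g hg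
    have h7 := allL_spec _ _ h6 I hI
    rw [Bool.and_eq_true, Nat.blt_eq] at h7
    have h8 := TF.ttG_rep rows pr hn g.1 g.2.1 g.2.2 h4 h5 I hI h7.1 h7.2
    unfold TV
    rw [← h3]
    exact h8

/-- The leaves of a group from the checks of the parts. -/
theorem leaves_of {f : ℕ → Bool} (m k : ℕ) (hmk : 512 ≤ m * k)
    (h : ∀ j < k, allN (fun z => f (Nat.add (m * j) z)) m = true) : ∀ X < 512, f X = true := by
  intro X hX
  have hm : 0 < m := by
    rcases Nat.eq_zero_or_pos m with h0 | h0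
    · rw [h0] at hmk
      omega
    · exact h0
  have h1 : X / m < k := by
    rw [Nat.div_lt_iff_lt_mul hm]
    rw [Nat.mul_comm] at hmk
    omega
  have h2 := allN_spec _ _ (h (X / m) h1) (X % m) (Nat.mod_lt _ hm)
  have h3 : Nat.add (m * (X / m)) (X % m) = X := Nat.div_add_mod X m
  rw [h3] at h2
  exact h2

end GT

end Pool.Agent.Lib.MP_afdd4d_co.K8.Gm
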