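import Pool.Agent.Lib.MP_afdd4d_co.K8.GamTab

/-!
# Programs with an environment

The instructions are `(k, p, q)`: insertion of the index bit `p` for `k = 0`, exchange of the index
bits `p < q` for `k = 1`, negation of bit `q` in the lanes with bit `p` for `k = 2`, negation of bit
`p` for `k = 3`, restriction of the last bit to the bit `p` of the environment for `k = 4`, and negation
of bit `p` otherwise if the environment has bit `q`.
-/

namespace Pool.Agent.Lib.MP_afdd4d_co.K8.Gm

open Finset

/-- The bit `j` of the environment. -/
def ebG (e j : ℕ) : ℕ := Nat.mod (Nat.shiftRight e j) 2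

theorem ebG_eq (e j : ℕ) : ebG e j = (e.testBit j).toNat := by
  rw [Nat.toNat_testBit, ← Nat.shiftRight_eq_div_pow]
  rfl

theorem ebG_beq (e j : ℕ) : Nat.beq (ebG e j) 1 = e.testBit j := by
  rw [ebG_eq]
  cases e.testBit j <;> rfl

/-- An instruction. -/
def stV (W e n A k p q : ℕ) : ℕ :=
  @Bool.rec (fun _ => ℕ)
    (@Bool.rec (fun _ => ℕ)
      (@Bool.rec (fun _ => ℕ)
        (@Bool.rec (fun _ => ℕ)
          (@Bool.rec (fun _ => ℕ)
            (@Bool.rec (fun _ => ℕ) A (flG W n p A) (Nat.beq (ebG e q) 1))
            (slG W (Nat.pred n) A (ebG e p)) (Nat.beq k 4))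
          (flG W n p A) (Nat.beq k 3))
        (cnG W n p q A) (Nat.beq k 2))
      (swG W n p q A) (Nat.beq k 1))
    (inG W n p A) (Nat.beq k 0)

/-- The number of index bits after an instruction. -/
def niV (n k : ℕ) : ℕ :=
  @Bool.rec (fun _ => ℕ) (@Bool.rec (fun _ => ℕ) n (Nat.pred n) (Nat.beq k 4)) (Nat.succ n)
    (Nat.beq k 0)

/-- A program. -/
def rvG (W e : ℕ) (l : List (ℕ × ℕ × ℕ)) : ℕ → ℕ → ℕ :=
  @List.rec (ℕ × ℕ × ℕ) (fun _ => ℕ → ℕ → ℕ) (fun _ A => A)
    (fun I _ ih n A => @Prod.rec ℕ (ℕ × ℕ) (fun _ => ℕ) (fun k J => @Prod.rec ℕ ℕ (fun _ => ℕ)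
      (fun p q => ih (niV n k) (stV W e n A k p q)) J) I) l

/-- The number of index bits after a program. -/
def ndV : List (ℕ × ℕ × ℕ) → ℕ → ℕ
  | [], n => n
  | I :: l, n => ndV l (if I.1 = 0 then n + 1 else if I.1 = 4 then n - 1 else n)

/-- Conditions on the instructions. -/
def okV : List (ℕ × ℕ × ℕ) → ℕ → Bool
  | [], _ => true
  | I :: l, n =>
    (if I.1 = 0 then decide (I.2.1 ≤ n)
      else if I.1 = 1 then decide (I.2.1 < I.2.2) && decide (I.2.2 < n)
      else if I.1 = 2 then decide (I.2.1 ≠ I.2.2) && (decide (I.2.1 < n) && decide (I.2.2 < n))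
      else if I.1 = 3 then decide (I.2.1 < n)
      else if I.1 = 4 then decide (0 < n) && decide (I.2.1 < 19)
      else decide (I.2.1 < n) && decide (I.2.2 < 19)) &&
      okV l (if I.1 = 0 then n + 1 else if I.1 = 4 then n - 1 else n)

/-- The effect of an instruction on the bits of the index. -/
def seJ (e : ℕ) (I : ℕ × ℕ × ℕ) (n : ℕ) (b : ℕ → Bool) : ℕ → Bool :=
  if I.1 = 0 then upd b I.2.1 (b n)
  else if I.1 = 1 then b ∘ Equiv.swap I.2.1 I.2.2
  else if I.1 = 2 then upd b I.2.2 (b I.2.2 ^^ b I.2.1)
  else if I.1 = 3 then upd b I.2.1 (!b I.2.1)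
  else if I.1 = 4 then upd b (n - 1) (e.testBit I.2.1)
  else upd b I.2.1 (b I.2.1 ^^ e.testBit I.2.2)

/-- The effect of a program on the bits of the index. -/
def seV (e : ℕ) : List (ℕ × ℕ × ℕ) → ℕ → (ℕ → Bool) → ℕ → Bool
  | [], _, b => b
  | I :: l, n, b => seJ e I n (seV e l (if I.1 = 0 then n + 1 else if I.1 = 4 then n - 1 else n) b)

theorem niV_eq (n k : ℕ) : niV n k = if k = 0 then n + 1 else if k = 4 then n - 1 else n := by
  unfold niV
  by_cases h0 : k = 0
  · rw [if_pos h0, h0]; rfl
  · have e2 : Nat.beq k 0 = false := by
      rw [Bool.eq_false_iff]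
      intro h
      exact h0 (Nat.eq_of_beq_eq_true h)
    rw [if_neg h0, e2]
    by_cases h4 : k = 4
    · rw [if_pos h4, h4]; rfl
    · have e3 : Nat.beq k 4 = false := by
        rw [Bool.eq_false_iff]
        intro h
        exact h4 (Nat.eq_of_beq_eq_true h)
      rw [if_neg h4, e3]

theorem beq_false_of_ne {a b : ℕ} (h : a ≠ b) : Nat.beq a b = false := by
  rw [Bool.eq_false_iff]
  intro h1
  exact h (Nat.eq_of_beq_eq_true h1)

theorem rvG_ar {W : ℕ} (hW : 0 < W) (e : ℕ) (l : List (ℕ × ℕ × ℕ)) :
    ∀ (n A : ℕ) (f : (ℕ → Bool) → ℕ), okV l n = true → Ar W n A f →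
    Ar W (ndV l n) (rvG W e l n A) fun b => f (seV e l n b) := by
  induction l with
  | nil => intro n A f _ hA; exact hA
  | cons I l ih =>
    intro n A f hok hA
    obtain ⟨k, p, q⟩ := I
    have e0 : rvG W e ((k, p, q) :: l) n A = rvG W e l (niV n k) (stV W e n A k p q) := rfl
    rw [okV, Bool.and_eq_true] at hok
    obtain ⟨hok1, hok2⟩ := hok
    simp only at hok1 hok2
    have h1 : Ar W (if k = 0 then n + 1 else if k = 4 then n - 1 else n) (stV W e n A k p q)
        fun b => f (seJ e (k, p, q) n b) := by
      unfold stV seJ
      simp only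
      by_cases hk0 : k = 0
      · rw [if_pos hk0] at hok1
        have e2 : Nat.beq k 0 = true := by rw [hk0]; rfl
        simp only [e2, if_pos hk0]
        exact inG_ar hW hA (of_decide_eq_true hok1)
      · rw [if_neg hk0] at hok1
        simp only [beq_false_of_ne hk0, if_neg hk0]
        by_cases hk1 : k = 1
        · rw [if_pos hk1, Bool.and_eq_true] at hok1
          have e3 : Nat.beq k 1 = true := by rw [hk1]; rfl
          have hk4 : k ≠ 4 := by omega
          simp only [e3, if_pos hk1, if_neg hk4]
          exact swG_ar hW hA (of_decide_eq_true hok1.1) (of_decide_eq_true hok1.2)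
        · rw [if_neg hk1] at hok1
          simp only [beq_false_of_ne hk1, if_neg hk1]
          by_cases hk2 : k = 2
          · rw [if_pos hk2, Bool.and_eq_true, Bool.and_eq_true] at hok1
            have e4 : Nat.beq k 2 = true := by rw [hk2]; rfl
            have hk4 : k ≠ 4 := by omega
            simp only [e4, if_pos hk2, if_neg hk4]
            exact cnG_ar hW hA (of_decide_eq_true hok1.1) (of_decide_eq_true hok1.2.1)
              (of_decide_eq_true hok1.2.2)
          · rw [if_neg hk2] at hok1
            simp only [beq_false_of_ne hk2, if_neg hk2]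
            by_cases hk3 : k = 3
            · rw [if_pos hk3] at hok1
              have e5 : Nat.beq k 3 = true := by rw [hk3]; rfl
              have hk4 : k ≠ 4 := by omega
              simp only [e5, if_pos hk3, if_neg hk4]
              exact flG_ar hW hA (of_decide_eq_true hok1)
            · rw [if_neg hk3] at hok1
              simp only [beq_false_of_ne hk3, if_neg hk3]
              by_cases hk4 : k = 4
              · rw [if_pos hk4, Bool.and_eq_true] at hok1
                have e6 : Nat.beq k 4 = true := by rw [hk4]; rfl
                simp only [e6, if_pos hk4]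
                have hn : 0 < n := of_decide_eq_true hok1.1
                have hn1 : n - 1 + 1 = n := by omega
                have hA' : Ar W (n - 1 + 1) A f := by rw [hn1]; exact hA
                have h2 := slG_ar hW hA' (ebG e p) (by
                  rw [ebG_eq]
                  have := Bool.toNat_le (e.testBit p)
                  omega)
                refine h2.congr fun b => ?_
                apply hA.dep
                intro r hr
                unfold upd
                by_cases hr1 : r < n - 1
                · rw [if_pos hr1, if_neg (by omega)]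
                · have hr2 : r = n - 1 := by omega
                  rw [if_neg hr1, if_pos hr2, hr2, Nat.sub_self, ebG_eq]
                  cases e.testBit p <;> rfl
              · rw [if_neg hk4, Bool.and_eq_true] at hok1
                simp only [beq_false_of_ne hk4, if_neg hk4]
                rw [ebG_beq]
                cases hb : e.testBit q
                · refine hA.congr fun b => ?_
                  congr 1
                  funext r
                  unfold upd
                  by_cases hr : r = p
                  · rw [if_pos hr, hr, Bool.xor_false]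
                  · rw [if_neg hr]
                · refine (flG_ar hW hA (of_decide_eq_true hok1.1)).congr fun b => ?_
                  congr 1
                  funext r
                  unfold upd
                  by_cases hr : r = p
                  · rw [if_pos hr, if_pos hr, Bool.xor_true]
                  · rw [if_neg hr, if_neg hr]
    rw [e0, niV_eq]
    exact ih _ _ _ hok2 h1

/-- The variables: sixteen bits of the index, and the bits of the environment. -/
def xv (e : ℕ) (b : ℕ → Bool) (i : ℕ) : Bool := if i < 16 then b i else e.testBit (i - 16)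

/-- The affine form of bit `r` of the index after a program. -/
def syV : List (ℕ × ℕ × ℕ) → ℕ → ℕ → ℕ
  | [], _, r => 2 ^ (r + 1)
  | I :: l, n, r =>
    if I.1 = 0 then syV l (n + 1) (if r = I.2.1 then n else r)
    else if I.1 = 1 then syV l n (if r = I.2.1 then I.2.2 else if r = I.2.2 then I.2.1 else r)
    else if I.1 = 2 then (if r = I.2.2 then syV l n r ^^^ syV l n I.2.1 else syV l n r)
    else if I.1 = 3 then (if r = I.2.1 then syV l n r ^^^ 1 else syV l n r)
    else if I.1 = 4 then (if r = n - 1 then 2 ^ (16 + I.2.1 + 1) else syV l (n - 1) r)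
    else (if r = I.2.1 then syV l n r ^^^ 2 ^ (16 + I.2.2 + 1) else syV l n r)

theorem seV_eq (e : ℕ) (b : ℕ → Bool) (l : List (ℕ × ℕ × ℕ)) : ∀ n : ℕ, okV l n = true →
    ndV l n ≤ 16 → ∀ r < n, seV e l n b r = lf 35 (syV l n r) (xv e b) := by
  have hE : ∀ j < 19, lf 35 (2 ^ (16 + j + 1)) (xv e b) = e.testBit j := by
    intro j hj
    rw [lf_two_pow, decide_eq_true (show 16 + j < 35 by omega), Bool.true_and, xv,
      if_neg (by omega), Nat.add_sub_cancel_left]
  induction l with
  | nil =>
    intro n _ hN r hr
    have hr16 : r < 16 := lt_of_lt_of_le hr hN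
    rw [seV, syV, lf_two_pow, decide_eq_true (show r < 35 by omega), Bool.true_and, xv,
      if_pos hr16]
  | cons I l ih =>
    intro n hok hN r hr
    obtain ⟨k, p, q⟩ := I
    rw [okV, Bool.and_eq_true] at hok
    obtain ⟨hok1, hok2⟩ := hok
    rw [ndV] at hN
    rw [seV, seJ, syV]
    simp only at hok1 hok2 hN ⊢
    by_cases hk0 : k = 0
    · simp only [if_pos hk0] at hok1 hok2 hN ⊢
      unfold upd
      by_cases hrp : r = p
      · rw [if_pos hrp, if_pos hrp]
        exact ih (n + 1) hok2 hN n (by omega)
      · rw [if_neg hrp, if_neg hrp]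
        exact ih (n + 1) hok2 hN r (by omega)
    · simp only [if_neg hk0] at hok1 hok2 hN ⊢
      by_cases hk1 : k = 1
      · have hk4 : k ≠ 4 := by omega
        simp only [if_neg hk4] at hok2 hN ⊢
        have ih' := ih n hok2 hN
        simp only [if_pos hk1, Bool.and_eq_true, decide_eq_true_eq] at hok1 ⊢
        rw [Function.comp_apply]
        by_cases hrp : r = p
        · rw [hrp, Equiv.swap_apply_left, if_pos rfl]
          exact ih' q hok1.2
        · by_cases hrq : r = q
          · rw [hrq, Equiv.swap_apply_right, if_neg (by omega), if_pos rfl]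
            exact ih' p (by omega)
          · rw [Equiv.swap_apply_of_ne_of_ne hrp hrq, if_neg hrp, if_neg hrq]
            exact ih' r hr
      · simp only [if_neg hk1] at hok1 ⊢
        by_cases hk2 : k = 2
        · have hk4 : k ≠ 4 := by omega
          simp only [if_neg hk4] at hok2 hN ⊢
          have ih' := ih n hok2 hN
          simp only [if_pos hk2, Bool.and_eq_true, decide_eq_true_eq] at hok1 ⊢
          unfold upd
          by_cases hrq : r = q
          · rw [if_pos hrq, if_pos hrq, lf_xor, ← ih' r hr, ← ih' p hok1.2.1, hrq]
          · rw [if_neg hrq, if_neg hrq]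
            exact ih' r hr
        · simp only [if_neg hk2] at hok1 ⊢
          by_cases hk3 : k = 3
          · have hk4 : k ≠ 4 := by omega
            simp only [if_neg hk4] at hok2 hN ⊢
            have ih' := ih n hok2 hN
            simp only [if_pos hk3] at hok1 ⊢
            unfold upd
            by_cases hrp : r = p
            · rw [if_pos hrp, if_pos hrp, lf_xor, lf_one, Bool.xor_true, ← ih' r hr, hrp]
            · rw [if_neg hrp, if_neg hrp]
              exact ih' r hr
          · simp only [if_neg hk3] at hok1 ⊢
            by_cases hk4 : k = 4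
            · simp only [if_pos hk4, Bool.and_eq_true, decide_eq_true_eq] at hok1 hok2 hN ⊢
              unfold upd
              by_cases hrn : r = n - 1
              · rw [if_pos hrn, if_pos hrn]
                exact (hE p hok1.2).symm
              · rw [if_neg hrn, if_neg hrn]
                exact ih (n - 1) hok2 hN r (by omega)
            · simp only [if_neg hk4, Bool.and_eq_true, decide_eq_true_eq] at hok1 hok2 hN ⊢
              have ih' := ih n hok2 hN
              unfold upd
              by_cases hrp : r = p
              · rw [if_pos hrp, if_pos hrp, lf_xor, hE q hok1.2, ← ih' r hr, hrp]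
              · rw [if_neg hrp, if_neg hrp]
                exact ih' r hr

end Pool.Agent.Lib.MP_afdd4d_co.K8.Gm
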