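import Pool.Agent.Lib.MP_afdd4d_co.K8.PsiCov
import Pool.Agent.Lib.MP_afdd4d_co.K8.GamPrg
import Pool.Agent.Lib.MP_afdd4d_co.K8.Flag

/-!
# The pairs of seven vertices
-/

namespace Pool.Agent.Lib.MP_afdd4d_co.K8.Gm

open Finset

/-! ### Pairs -/

/-- The index of `y` in the vertices different from `x`. -/
def yb (x y : Fin 7) : Fin 6 := Fin.ofNat 6 (if y.val < x.val then y.val else y.val - 1)

theorem yb_spec : ∀ x y : Fin 7, x ≠ y → x.succAbove (yb x y) = y := by decide +kernel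

theorem yb_succAbove : ∀ (x : Fin 7) (y : Fin 6), yb x (x.succAbove y) = y := by decide +kernel

theorem yb_symm : ∀ x y : Fin 7, x ≠ y → ∀ i : Fin 5,
    x.succAbove ((yb x y).succAbove i) = y.succAbove ((yb y x).succAbove i) := by decide +kernel

/-- The first five positions. -/
def c5 (i : Fin 5) : Fin 7 := Fin.castLE (by norm_num) i

theorem c5_eq : ∀ i : Fin 5, (5 : Fin 7).succAbove ((yb 5 6).succAbove i) = c5 i := by
  decide +kernel

section pairs
variable {V : Type*}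

/-- The term of the pair `x, y`. -/
def KY (κ : (Fin 5 → V) → V → V → ℤ) (t : Fin 7 → V) (x y : Fin 7) : ℤ :=
  κ (t ∘ x.succAbove ∘ (yb x y).succAbove) (t x) (t y)

theorem KY_symm (κ : (Fin 5 → V) → V → V → ℤ) (hs : ∀ s u w, κ s u w = κ s w u) (t : Fin 7 → V)
    (x y : Fin 7) (hxy : x ≠ y) : KY κ t x y = KY κ t y x := by
  unfold KY
  rw [hs]
  congr 1
  funext i
  simp only [Function.comp_apply]
  rw [yb_symm x y hxy i]

theorem KY_perm (κ : (Fin 5 → V) → V → V → ℤ)
    (hκ : ∀ (τ : Equiv.Perm (Fin 5)) s u w, κ (s ∘ τ) u w = κ s u w)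
    (σ : Equiv.Perm (Fin 7)) (t : Fin 7 → V) (x y : Fin 7) (hxy : x ≠ y) :
    KY κ (t ∘ σ) x y = KY κ t (σ x) (σ y) := by
  obtain ⟨τ, hτ⟩ := exists_succAbove_perm (m := 6) σ x
  obtain ⟨τ', hτ'⟩ := exists_succAbove_perm (m := 5) τ (yb x y)
  have h1 : τ (yb x y) = yb (σ x) (σ y) := by
    have h2 := hτ (yb x y)
    rw [yb_spec x y hxy] at h2
    rw [h2, yb_succAbove]
  have e : (t ∘ σ) ∘ x.succAbove ∘ (yb x y).succAbove =
      (t ∘ (σ x).succAbove ∘ (yb (σ x) (σ y)).succAbove) ∘ τ' := by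
    funext i
    simp only [Function.comp_apply]
    rw [hτ, hτ', h1]
  unfold KY
  rw [e, hκ]
  rfl

theorem KY_56 (κ : (Fin 5 → V) → V → V → ℤ) (t : Fin 7 → V) :
    KY κ t 5 6 = κ (t ∘ c5) (t 5) (t 6) := by
  unfold KY
  congr 1
  funext i
  simp only [Function.comp_apply]
  rw [c5_eq i]

theorem PS_eq_KY (κ : (Fin 5 → V) → V → V → ℤ) (t : Fin 7 → V) :
    PS κ t = ∑ x : Fin 7, ∑ y : Fin 6, KY κ t x (x.succAbove y) := by
  unfold PS KY
  refine Finset.sum_congr rfl fun x _ => Finset.sum_congr rfl fun y _ => ?_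
  rw [yb_succAbove]

/-- All pairs of different vertices. -/
def allP : List (Fin 7 × Fin 7) :=
  (List.finRange 7).flatMap fun x => (List.finRange 6).map fun y => (x, x.succAbove y)

theorem sum_allP (F : Fin 7 × Fin 7 → ℤ) :
    (allP.map F).sum = ∑ x : Fin 7, ∑ y : Fin 6, F (x, x.succAbove y) := by
  have h1 : ∀ (n : ℕ) (f : Fin n → ℤ), ∑ x : Fin n, f x = ((List.finRange n).map f).sum := by
    intro n f
    rw [← List.sum_ofFn, List.ofFn_eq_map]
  rw [h1, allP, List.map_flatMap, sum_flatMap_int]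
  refine congrArg List.sum (List.map_congr_left fun x _ => ?_)
  rw [h1, List.map_map]
  rfl

theorem allP_ne : ∀ P ∈ allP, P.1 ≠ P.2 := by decide +kernel

/-- The pairs of a list are all pairs. -/
def okP (L : List (Fin 7 × Fin 7)) : Prop := (L ++ L.map Prod.swap).Perm allP

instance (L : List (Fin 7 × Fin 7)) : Decidable (okP L) := by unfold okP; infer_instance

theorem PS_list (κ : (Fin 5 → V) → V → V → ℤ) (hs : ∀ s u w, κ s u w = κ s w u) (t : Fin 7 → V)
    (L : List (Fin 7 × Fin 7)) (hL : okP L) :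
    PS κ t = 2 * (L.map fun P => KY κ t P.1 P.2).sum := by
  have h1 := (hL.map fun P => KY κ t P.1 P.2).sum_eq
  rw [sum_allP, List.map_append, List.sum_append, List.map_map] at h1
  rw [PS_eq_KY, ← h1]
  have h2 : (L.map ((fun P : Fin 7 × Fin 7 => KY κ t P.1 P.2) ∘ Prod.swap)).sum =
      (L.map fun P => KY κ t P.1 P.2).sum := by
    refine congrArg List.sum (List.map_congr_left fun P hP => ?_)
    have h3 : P ∈ allP := hL.mem_iff.mp (List.mem_append_left _ hP)
    exact KY_symm κ hs t P.2 P.1 (allP_ne P h3).symm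
  rw [h2]
  ring

end pairs

end Pool.Agent.Lib.MP_afdd4d_co.K8.Gm
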