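import Pool.Agent.Lib.MP_afdd4d_co.K8.KFKern

/-!
# Rounded rows of the kernels of the five-vertex types

The lanes of an array are rounded upwards to multiples of a power of two, and two arrays are merged
into one array of lanes of half the width.
-/

namespace Pool.Agent.Lib.MP_afdd4d_co.K8

open Finset

/-! ### Rounding -/

/-- The lanes shifted to the right. -/
def shrG (W s n A : ℕ) : ℕ :=
  Nat.land (Nat.shiftRight A s) (csG W (Nat.sub (Nat.pow 2 (Nat.sub W s)) 1) n)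

theorem shrG_ar {W s n A : ℕ} {f : (ℕ → Bool) → ℕ} (hW : 0 < W) (hs : s ≤ W) (hA : Ar W n A f) :
    Ar W n (shrG W s n A) fun b => f b / 2 ^ s := by
  have hc : 2 ^ (W - s) - 1 < 2 ^ W := by
    have h1 : 2 ^ (W - s) ≤ 2 ^ W := Nat.pow_le_pow_right (by norm_num) (by omega)
    have := Nat.two_pow_pos (W - s)
    omega
  have hm := csG_ar hW hc n
  have e1 : shrG W s n A = (A >>> s) &&& csG W (2 ^ (W - s) - 1) n := rfl
  refine ⟨?_, fun b => ?_⟩
  · rw [e1]
    exact lt_of_le_of_lt Nat.and_le_right hm.lt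
  · rw [e1, Ln_and, hm.get, Nat.and_two_pow_sub_one_eq_mod, ← hA.get b]
    unfold Ln
    rw [Nat.shiftRight_eq_div_pow, Nat.div_div_eq_div_mul, mul_comm (2 ^ s),
      ← Nat.div_div_eq_div_mul]
    set y := A / 2 ^ (W * idx n b)
    have e2 : (2 : ℕ) ^ W = 2 ^ s * 2 ^ (W - s) := by rw [← pow_add]; congr 1; omega
    rw [e2, Nat.mod_mul_right_div_self, Nat.mod_mul_left_mod]

/-- The lanes divided by `2 ^ s` and rounded upwards, plus a constant. -/
def rdG (W s o n A : ℕ) : ℕ :=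
  Nat.add (shrG W s n (Nat.add A (csG W (Nat.sub (Nat.pow 2 s) 1) n))) (csG W o n)

theorem rdG_ar {W s o n A M : ℕ} {f : (ℕ → Bool) → ℕ} (hW : 0 < W) (hs : s ≤ W)
    (hA : Ar W n A f) (hM : ∀ b, f b ≤ M) (h1 : M + 2 ^ s ≤ 2 ^ W)
    (h2 : (M + 2 ^ s - 1) / 2 ^ s + o < 2 ^ W) :
    Ar W n (rdG W s o n A) fun b => (f b + (2 ^ s - 1)) / 2 ^ s + o := by
  have hp := Nat.two_pow_pos s
  have a1 := csG_ar hW (show 2 ^ s - 1 < 2 ^ W by omega) n
  have a2 := hA.add a1 hW fun b => by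
    have := hM b
    omega
  have a3 := shrG_ar hW hs a2
  have ho : o < 2 ^ W := lt_of_le_of_lt (Nat.le_add_left _ _) h2
  have a4 := csG_ar hW ho n
  exact a3.add a4 hW fun b => by
    have h3 := hM b
    have h4 : (f b + (2 ^ s - 1)) / 2 ^ s ≤ (M + 2 ^ s - 1) / 2 ^ s :=
      Nat.div_le_div_right (by omega)
    omega

/-! ### Merging two arrays -/

theorem idx_cons (n : ℕ) (b : ℕ → Bool) :
    idx (n + 1) b = (b 0).toNat + 2 * idx n fun r => b (r + 1) := by
  have h := idx_split 1 n b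
  have e1 : idx (n + 1) b = idx (1 + n) b := by rw [Nat.add_comm]
  have e2 : idx 1 b = (b 0).toNat := by simp [idx]
  have e3 : (fun r => b (1 + r)) = fun r => b (r + 1) := by
    funext r
    rw [Nat.add_comm]
  rw [e1, h, e2, e3, pow_one]

theorem Ln_half (w A i : ℕ) (c : Bool) :
    Ln w A (c.toNat + 2 * i) = Ln (2 * w) A i / 2 ^ (w * c.toNat) % 2 ^ w := by
  unfold Ln
  have e1 : w * (c.toNat + 2 * i) = 2 * w * i + w * c.toNat := by ring
  rw [e1, pow_add, ← Nat.div_div_eq_div_mul]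
  set y := A / 2 ^ (2 * w * i)
  have e2 : (2 : ℕ) ^ (2 * w) = 2 ^ w * 2 ^ w := by rw [← pow_add]; congr 1; ring
  rw [e2]
  cases c
  · rw [Bool.toNat_false, mul_zero, pow_zero, Nat.div_one, Nat.div_one, Nat.mod_mul_left_mod]
  · rw [Bool.toNat_true, mul_one, Nat.mod_mul_right_div_self, Nat.mod_mod]

/-- Two arrays of lanes of twice the width as one array. -/
def zpG (w X Y : ℕ) : ℕ := Nat.add X (Nat.shiftLeft Y w)

theorem zpG_ar {w n X Y : ℕ} {f g : (ℕ → Bool) → ℕ} (hw : 0 < w) (hX : Ar (2 * w) n X f)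
    (hY : Ar (2 * w) n Y g) (hf : ∀ b, f b < 2 ^ w) (hg : ∀ b, g b < 2 ^ w) :
    Ar w (n + 1) (zpG w X Y) fun b =>
      if b 0 = true then g (fun r => b (r + 1)) else f (fun r => b (r + 1)) := by
  have e2 : (2 : ℕ) ^ (2 * w) = 2 ^ w * 2 ^ w := by rw [← pow_add]; congr 1; ring
  have e0 : zpG w X Y = X + 2 ^ w * Y := by
    have : zpG w X Y = X + Y <<< w := rfl
    rw [this, Nat.shiftLeft_eq, mul_comm]
  have h2w : 0 < 2 * w := by omega
  have a1 := hY.smul (2 ^ w) h2w fun b => by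
    rw [e2]
    exact Nat.mul_lt_mul_of_pos_left (hg b) (Nat.two_pow_pos w)
  have a2 := hX.add a1 h2w fun b => by
    rw [e2]
    have h3 := hf b
    have h4 := hg b
    have h5 : 2 ^ w * (g b + 1) ≤ 2 ^ w * 2 ^ w := Nat.mul_le_mul_left _ h4
    rw [mul_add, mul_one] at h5
    omega
  rw [e0]
  refine ⟨?_, fun b => ?_⟩
  · have h3 := a2.lt
    have e3 : w * 2 ^ (n + 1) = 2 * w * 2 ^ n := by rw [pow_succ]; ring
    rw [e3]
    exact h3
  · rw [idx_cons, Ln_half, a2.get]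
    cases hb : b 0
    · rw [Bool.toNat_false, mul_zero, pow_zero, Nat.div_one, if_neg (by simp),
        Nat.add_mul_mod_self_left]
      exact Nat.mod_eq_of_lt (hf _)
    · rw [Bool.toNat_true, mul_one, if_pos rfl, Nat.add_mul_div_left _ _ (Nat.two_pow_pos w),
        Nat.div_eq_of_lt (hf _), Nat.zero_add]
      exact Nat.mod_eq_of_lt (hg _)

/-! ### The ten bits of a link from six bits and four constants -/

/-- The program. -/
def gwP : List (ℕ × ℕ × ℕ) := [(1, 3, 4), (1, 4, 5), (1, 5, 7), (1, 6, 7), (2, 0, 6), (2, 1, 6),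
  (2, 2, 6), (2, 0, 7), (2, 3, 7), (2, 4, 7), (2, 1, 8), (2, 3, 8), (2, 5, 8), (2, 2, 9), (2, 4, 9),
  (2, 5, 9)]

/-- The forms. -/
def gwF : List ℕ := [2, 4, 8, 142, 16, 32, 306, 64, 596, 1128]

theorem gwP_ok : okR gwP 10 = true ∧ ndG gwP 10 = 10 ∧ ∀ r < 10, syG gwP 10 r = gwF.getD r 0 := by
  decide +kernel

/-- The bit `r` of the link. -/
def gwb (b : ℕ → Bool) (r : ℕ) : Bool := lf 10 (gwF.getD r 0) b

theorem gwP_se (b : ℕ → Bool) (r : ℕ) (hr : r < 10) : seG gwP 10 b r = gwb b r := by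
  obtain ⟨h1, h2, h3⟩ := gwP_ok
  rw [seG_eq 10 b gwP 10 h1 (by rw [h2]) r hr, h3 r hr]
  rfl

/-- The columns. -/
def gwC : List ℕ := [73, 266, 524, 336, 608, 896, 8, 64, 256, 512]

/-- The link as a number, for a number with the ten bits. -/
def gwG (z : ℕ) : ℕ :=
  @Nat.rec (fun _ => ℕ) 0 (fun k ih => @Bool.rec (fun _ => ℕ) ih (Nat.xor ih (nthG 0 gwC k))
    (Nat.beq (Nat.mod (Nat.div z (Nat.pow 2 k)) 2) 1)) 10

theorem gwC_ok : ∀ k < 10, ∀ r < 10, (gwC.getD k 0).testBit r = (gwF.getD r 0).testBit (k + 1) := by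
  decide +kernel

theorem gwF_zero : ∀ r < 10, (gwF.getD r 0).testBit 0 = false := by decide +kernel

theorem gwC_lt : ∀ k < 10, gwC.getD k 0 < 2 ^ 10 := by decide +kernel

theorem gwG_eq (b : ℕ → Bool) : gwG (idx 10 b) = idx 10 (gwb b) := by
  have h1 : ∀ m, @Nat.rec (fun _ => ℕ) 0 (fun k ih => @Bool.rec (fun _ => ℕ) ih
      (Nat.xor ih (nthG 0 gwC k))
      (Nat.beq (Nat.mod (Nat.div (idx 10 b) (Nat.pow 2 k)) 2) 1)) m =
        lx m (fun k => gwC.getD k 0) (idx 10 b).testBit := by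
    intro m
    induction m with
    | zero => rfl
    | succ m ih =>
      rw [lx, ← ih]
      have e1 : Nat.beq (Nat.mod (Nat.div (idx 10 b) (Nat.pow 2 m)) 2) 1 =
        (idx 10 b).testBit m := beq_mod_two _ _
      simp only [e1, nthG_eq]
      cases h : (idx 10 b).testBit m
      · simp
      · simp only [if_true]
        rfl
  have h2 : gwG (idx 10 b) = lx 10 (fun k => gwC.getD k 0) (idx 10 b).testBit := h1 10
  rw [h2]
  apply Nat.eq_of_testBit_eq
  intro r
  rw [testBit_lx, testBit_idx]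
  by_cases hr : r < 10
  · rw [decide_eq_true hr, Bool.true_and]
    unfold gwb
    rw [lf_eq_xo 10 _ _ (gwF_zero r hr)]
    apply xo_congr
    intro k hk
    rw [gwC_ok k hk r hr, testBit_idx, decide_eq_true hk, Bool.true_and]
  · rw [decide_eq_false hr, Bool.false_and, ← xo_false 10]
    apply xo_congr
    intro k hk
    have : (gwC.getD k 0).testBit r = false := by
      apply Nat.testBit_lt_two_pow
      exact lt_of_lt_of_le (gwC_lt k hk) (Nat.pow_le_pow_right (by norm_num) (by omega))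
    rw [this, Bool.and_false]

end Pool.Agent.Lib.MP_afdd4d_co.K8
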