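import Pool.Agent.Lib.MP_afdd4d_co.K8.GamRow

/-!
# Tables of the pairs

For a pair of vertices and five roots the parities of the five-sets are fixed: `π` for the roots, the
four bits of `α` and `β` for the five-sets that contain the first root and one of the vertices.  The
values of the kernel are then a function of sixteen bits: four bits of the pattern, six bits of each link.
-/

namespace Pool.Agent.Lib.MP_afdd4d_co.K8

open Finset

/-! ### The pattern from four bits and the parity -/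

/-- The pattern. -/
def peG (π e : ℕ) : ℕ := Nat.add e (Nat.mul 16 (Nat.mod (Nat.add π (Nat.add (Nat.mod e 2)
  (Nat.add (Nat.mod (Nat.div e 2) 2) (Nat.add (Nat.mod (Nat.div e 4) 2) (Nat.div e 8))))) 2))

theorem peG_aux : ∀ c x0 x1 x2 x3 : Bool,
    peG c.toNat (x0.toNat + 2 * x1.toNat + 4 * x2.toNat + 8 * x3.toNat) =
      x0.toNat + 2 * x1.toNat + 4 * x2.toNat + 8 * x3.toNat +
        16 * (c ^^ (x0 ^^ (x1 ^^ (x2 ^^ x3)))).toNat := by
  decide

theorem peG_eq (c : Bool) (b : ℕ → Bool) : peG c.toNat (idx 4 b) =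
    idx 5 fun r => if r < 4 then b r else (c ^^ (b 0 ^^ (b 1 ^^ (b 2 ^^ b 3)))) := by
  have e1 : idx 4 b = (b 0).toNat + 2 * (b 1).toNat + 4 * (b 2).toNat + 8 * (b 3).toNat := by
    simp [idx]
  have e2 : (idx 5 fun r => if r < 4 then b r else (c ^^ (b 0 ^^ (b 1 ^^ (b 2 ^^ b 3))))) =
      (b 0).toNat + 2 * (b 1).toNat + 4 * (b 2).toNat + 8 * (b 3).toNat +
        16 * (c ^^ (b 0 ^^ (b 1 ^^ (b 2 ^^ b 3)))).toNat := by
    simp [idx]
  rw [e1, e2]
  exact peG_aux c (b 0) (b 1) (b 2) (b 3)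

theorem peG_lt : ∀ π < 2, ∀ e < 16, peG π e < 32 := by decide

/-! ### Rows -/

/-- All elements of a list. -/
def allL {α : Type} (f : α → Bool) (l : List α) : Bool :=
  @List.rec α (fun _ => Bool) true (fun a _ ih => @Bool.rec (fun _ => Bool) false ih (f a)) l

theorem allL_spec {α : Type} (f : α → Bool) (l : List α) (h : allL f l = true) :
    ∀ a ∈ l, f a = true := by
  induction l with
  | nil => intro a ha; exact absurd ha List.not_mem_nil
  | cons a l ih =>
    have e1 : allL f (a :: l) = @Bool.rec (fun _ => Bool) false (allL f l) (f a) := rfl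
    rw [e1, bool_rec_and, Bool.and_eq_true] at h
    intro x hx
    rcases List.mem_cons.mp hx with h1 | h1
    · rw [h1]; exact h.1
    · exact ih h.2 x h1

/-! ### Trees of literals -/

/-- A tree of numbers. -/
inductive NT : Type
  | a : ℕ → NT
  | c : NT → NT → NT

/-- The leaf number `X` of a tree of depth `d`. -/
noncomputable def gtG (t : NT) : ℕ → ℕ → ℕ :=
  @NT.rec (fun _ => ℕ → ℕ → ℕ) (fun n _ _ => n)
    (fun _ _ ih1 ih2 d X => @Bool.rec (fun _ => ℕ) (ih1 (Nat.pred d) X) (ih2 (Nat.pred d) X)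
      (Nat.beq (Nat.mod (Nat.div X (Nat.pow 2 (Nat.pred d))) 2) 1)) t

/-- The tree has depth `d`. -/
noncomputable def shpG (t : NT) : ℕ → Bool :=
  @NT.rec (fun _ => ℕ → Bool) (fun _ d => Nat.beq d 0)
    (fun _ _ ih1 ih2 d => @Nat.rec (fun _ => Bool) false
      (fun k _ => @Bool.rec (fun _ => Bool) false (ih1 k) (ih2 k)) d) t

/-- The number of zeros in a list. -/
def kpG : List ℕ → ℕ := @List.rec ℕ (fun _ => ℕ) 0
  (fun s _ ih => @Nat.rec (fun _ => ℕ) (Nat.succ ih) (fun _ _ => ih) s)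

/-- The array of a tree: for the entry `0` both parts, for the entry `j + 1` the part given by the bit
`j` of the environment. -/
noncomputable def asG (w e : ℕ) (t : NT) : List ℕ → ℕ :=
  @NT.rec (fun _ => List ℕ → ℕ) (fun n _ => n)
    (fun _ _ ih1 ih2 S => @List.rec ℕ (fun _ => ℕ) 0 (fun s S' _ => @Nat.rec (fun _ => ℕ)
      (Nat.add (ih1 S') (Nat.shiftLeft (ih2 S') (Nat.mul w (Nat.pow 2 (Nat.add 7 (kpG S'))))))
      (fun j _ => @Bool.rec (fun _ => ℕ) (ih1 S') (ih2 S')
        (Nat.beq (Nat.mod (Nat.div e (Nat.pow 2 j)) 2) 1)) s) S) t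

/-- A tree with the lanes given by a function. -/
def Rep (w : ℕ) : ℕ → NT → ((ℕ → Bool) → ℕ) → Prop
  | 0, .a n, f => Ar w 7 n f
  | d + 1, .c l r, f => Rep w d l (fun b => f (upd b (7 + d) false)) ∧
      Rep w d r (fun b => f (upd b (7 + d) true))
  | _, _, _ => False

/-- The bits of the index of a tree. -/
def sbF (e : ℕ) : List ℕ → (ℕ → Bool) → ℕ → Bool
  | [], b => b
  | s :: S, b => upd (sbF e S b) (7 + S.length) (if s = 0 then b (7 + kpG S) else e.testBit (s - 1))

theorem asG_ar {w : ℕ} (hw : 0 < w) (e : ℕ) (S : List ℕ) : ∀ (t : NT) (f : (ℕ → Bool) → ℕ),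
    Rep w S.length t f → Ar w (7 + kpG S) (asG w e t S) fun b => f (sbF e S b) := by
  induction S with
  | nil =>
    intro t f h
    cases t with
    | a n => exact h
    | c l r => exact absurd h id
  | cons s S ih =>
    intro t f h
    cases t with
    | a n => exact absurd h id
    | c l r =>
      obtain ⟨h1, h2⟩ := h
      have a1 := ih l _ h1
      have a2 := ih r _ h2
      rcases Nat.eq_zero_or_pos s with h0 | h0
      · subst h0
        have e1 : asG w e (.c l r) (0 :: S) =
            asG w e l S + asG w e r S <<< (w * 2 ^ (7 + kpG S)) := rfl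
        have e2 : kpG (0 :: S) = kpG S + 1 := rfl
        rw [e1, e2, ← Nat.add_assoc]
        refine (a1.cat a2 hw).congr fun b => ?_
        have e3 : sbF e (0 :: S) b = upd (sbF e S b) (7 + S.length) (b (7 + kpG S)) := by
          rw [sbF, if_pos rfl]
        rw [e3]
        cases b (7 + kpG S)
        · rw [if_neg (by simp)]
        · rw [if_pos rfl]
      · obtain ⟨j, rfl⟩ : ∃ j, s = j + 1 := ⟨s - 1, by omega⟩
        have e1 : asG w e (.c l r) ((j + 1) :: S) = @Bool.rec (fun _ => ℕ) (asG w e l S)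
            (asG w e r S) (Nat.beq (Nat.mod (Nat.div e (Nat.pow 2 j)) 2) 1) := rfl
        have e2 : kpG ((j + 1) :: S) = kpG S := rfl
        have e3 : ∀ b, sbF e ((j + 1) :: S) b =
            upd (sbF e S b) (7 + S.length) (e.testBit j) := by
          intro b
          rw [sbF, if_neg (by omega), Nat.add_sub_cancel]
        rw [e1, e2, beq_mod_two]
        simp only [e3]
        cases e.testBit j
        · exact a1
        · exact a2

theorem gtG_high (t : NT) : ∀ (d X Y : ℕ), (∀ i < d, X.testBit i = Y.testBit i) →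
    shpG t d = true → gtG t d X = gtG t d Y := by
  induction t with
  | a n => intro d X Y _ _; rfl
  | c l r ihl ihr =>
    intro d X Y h hs
    cases d with
    | zero => exact Bool.noConfusion hs
    | succ d =>
      have e1 : ∀ X, gtG (.c l r) (d + 1) X = @Bool.rec (fun _ => ℕ) (gtG l d X) (gtG r d X)
        (Nat.beq (Nat.mod (Nat.div X (Nat.pow 2 d)) 2) 1) := fun _ => rfl
      have e2 : shpG (.c l r) (d + 1) = @Bool.rec (fun _ => Bool) false (shpG l d) (shpG r d) := rfl
      rw [e2, bool_rec_and, Bool.and_eq_true] at hs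
      rw [e1, e1, beq_mod_two, beq_mod_two, h d (by omega),
        ihl d X Y (fun i hi => h i (by omega)) hs.2, ihr d X Y (fun i hi => h i (by omega)) hs.1]

theorem rep_of_leaves {w : ℕ} (t : NT) : ∀ (d : ℕ) (g : ℕ → (ℕ → Bool) → ℕ),
    (∀ X < 2 ^ d, ∀ b b' : ℕ → Bool, (∀ r < 7, b r = b' r) → g X b = g X b') → shpG t d = true →
    (∀ X < 2 ^ d, Ar w 7 (gtG t d X) (g X)) →
    Rep w d t fun b => g (idx d fun r => b (7 + r)) b := by
  induction t with
  | a n =>
    intro d g _ hs h
    have hd : d = 0 := Nat.eq_of_beq_eq_true hs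
    subst hd
    exact h 0 (by norm_num)
  | c l r ihl ihr =>
    intro d g hg hs h
    cases d with
    | zero => exact Bool.noConfusion hs
    | succ d =>
      have e1 : ∀ X, gtG (.c l r) (d + 1) X = @Bool.rec (fun _ => ℕ) (gtG l d X) (gtG r d X)
        (Nat.beq (Nat.mod (Nat.div X (Nat.pow 2 d)) 2) 1) := fun _ => rfl
      have e2 : shpG (.c l r) (d + 1) = @Bool.rec (fun _ => Bool) false (shpG l d) (shpG r d) := rfl
      rw [e2, bool_rec_and, Bool.and_eq_true] at hs
      have h2d : 2 ^ (d + 1) = 2 ^ d + 2 ^ d := by rw [pow_succ]; ring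
      have hidx : ∀ (b : ℕ → Bool) (v : Bool), (idx (d + 1) fun r => upd b (7 + d) v (7 + r)) =
          (idx d fun r => b (7 + r)) + 2 ^ d * v.toNat := by
        intro b v
        rw [idx]
        have e3 : (idx d fun r => upd b (7 + d) v (7 + r)) = idx d fun r => b (7 + r) := by
          apply idx_congr
          intro r hr
          unfold upd
          rw [if_neg (by omega)]
        have e4 : upd b (7 + d) v (7 + d) = v := by
          unfold upd
          rw [if_pos rfl]
        rw [e3, e4]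
      have hlt : ∀ b : ℕ → Bool, (idx d fun r => b (7 + r)) < 2 ^ d := fun b => idx_lt d _
      refine ⟨?_, ?_⟩
      · have h3 := ihl d g (fun X hX => hg X (by omega)) hs.2 fun X hX => by
          have h4 := h X (by omega)
          rw [e1, beq_mod_two, Nat.testBit_lt_two_pow hX] at h4
          exact h4
        have e5 : (fun b : ℕ → Bool => g (idx (d + 1) fun r => upd b (7 + d) false (7 + r))
            (upd b (7 + d) false)) = fun b => g (idx d fun r => b (7 + r)) b := by
          funext b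
          rw [hidx, Bool.toNat_false, Nat.mul_zero, Nat.add_zero]
          have h6 := hlt b
          refine hg _ (by omega) _ _ fun r hr => ?_
          unfold upd
          rw [if_neg (by omega)]
        rw [← e5] at h3
        exact h3
      · have h3 := ihr d (fun X => g (X + 2 ^ d)) (fun X hX => hg (X + 2 ^ d) (by omega)) hs.1
          fun X hX => by
            have h4 := h (X + 2 ^ d) (by omega)
            have e6 : (X + 2 ^ d).testBit d = true := by
              rw [Nat.add_comm]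
              exact (Nat.testBit_two_pow_add_eq X d).trans (by
                rw [Nat.testBit_lt_two_pow hX]; rfl)
            rw [e1, beq_mod_two, e6] at h4
            have e7 : gtG r d (X + 2 ^ d) = gtG r d X := gtG_high r d _ _ (fun i hi => by
              rw [Nat.add_comm]
              exact Nat.testBit_two_pow_add_gt hi X) hs.1
            simp only at h4
            rw [e7] at h4
            exact h4
        have e5 : (fun b : ℕ → Bool => g (idx (d + 1) fun r => upd b (7 + d) true (7 + r))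
            (upd b (7 + d) true)) = fun b => g ((idx d fun r => b (7 + r)) + 2 ^ d) b := by
          funext b
          rw [hidx, Bool.toNat_true, Nat.mul_one]
          have h6 := hlt b
          refine hg _ (by omega) _ _ fun r hr => ?_
          unfold upd
          rw [if_neg (by omega)]
        rw [← e5] at h3
        exact h3

namespace TF
variable (D : TF)

/-- The row with its bits at their places. -/
def rfG (p x : ℕ) : ℕ := ruG D.W gwP 10 (D.rowC p x)

/-- The part of the row with the constants `j`. -/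
def rsG (p x j : ℕ) : ℕ := slG D.W 6 (D.rfG p x) j

/-- Two rows. -/
def rrG (s o w p x0 x1 j : ℕ) : ℕ :=
  Nat.add (rdG w s o 6 (D.rsG p x0 j)) (Nat.shiftLeft (rdG w s o 6 (D.rsG p x1 j)) (Nat.mul w 64))

/-- The check of the leaves number `X`. -/
noncomputable def tlG (s : ℕ) (oo : ℕ → ℕ) (w π α : ℕ) (L : List (ℕ × NT)) (X : ℕ) : Bool :=
  force (Nat.div X 32) fun e => force (Nat.mod X 32) fun z => force (peG π e) fun p =>
    force (gwG (Nat.add (Nat.mul 2 z) (Nat.mul 64 (Nat.xor α e)))) fun x0 =>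
    force (gwG (Nat.add (Nat.succ (Nat.mul 2 z)) (Nat.mul 64 (Nat.xor α e)))) fun x1 =>
    force (oo p) fun o =>
      allL (fun I : ℕ × NT => Nat.beq (gtG I.2 9 X)
        (@Bool.rec (fun _ => ℕ) (D.rrG s o w p x0 x1 (Nat.xor I.1 e)) 0 (Nat.beq p 31))) L

/-- The value. -/
def tvN (s : ℕ) (oo : ℕ → ℕ) (p x y : ℕ) : ℕ := if p = 31 then 0 else
  ((((D.B : ℤ) + D.fd.g6 (p + 1024 * x) (p + 1024 * y)).toNat + (2 ^ s - 1)) / 2 ^ s + oo p)

/-- The numerical conditions. -/
structure TNum (s : ℕ) (oo : ℕ → ℕ) (w : ℕ) : Prop where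
  hw : 0 < w
  hW : D.W = w
  hs : s ≤ D.W
  h1 : 2 * D.B + 2 ^ s ≤ 2 ^ D.W
  h2 : ∀ p < 31, (2 * D.B + 2 ^ s - 1) / 2 ^ s + oo p < 2 ^ w

variable {D}

theorem rfG_ar (h : D.RowsOK) (hp : D.PrOK) (p x : ℕ) (hp1 : p < 1024) :
    Ar D.W 10 (D.rfG p x) fun b => ((D.B : ℤ) +
      D.fd.g6 (p + 1024 * x) (p + 1024 * gwG (idx 10 b))).toNat := by
  have hW : 0 < D.W := by have := h.hn.hW; omega
  have a1 := rowC_ar h hp p x hp1
  obtain ⟨h1, h2, _⟩ := gwP_ok
  have a2 := ruG_ar hW gwP 10 _ _ h1 a1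
  rw [h2] at a2
  refine a2.congr fun b => ?_
  have e1 : idx 10 (seG gwP 10 b) = idx 10 (gwb b) := idx_congr 10 _ _ fun r hr => gwP_se b r hr
  rw [e1, ← gwG_eq]

theorem rsG_ar (h : D.RowsOK) (hp : D.PrOK) (p x j : ℕ) (hp1 : p < 1024) (hj : j < 16) :
    Ar D.W 6 (D.rsG p x j) fun b => ((D.B : ℤ) +
      D.fd.g6 (p + 1024 * x) (p + 1024 * gwG (idx 6 b + 64 * j))).toNat := by
  have hW : 0 < D.W := by have := h.hn.hW; omega
  have a3 := slG_ar (m := 6) (n := 4) hW (rfG_ar h hp p x hp1) j hj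
  refine a3.congr fun b => ?_
  set c : ℕ → Bool := fun r => if r < 6 then b r else j.testBit (r - 6) with hc
  have e2 : idx 10 c = idx 6 b + 64 * j := by
    have h3 := idx_split 6 4 c
    have e3 : idx 6 c = idx 6 b := idx_congr 6 _ _ fun r hr => by rw [hc]; simp [hr]
    have e4 : (idx 4 fun r => c (6 + r)) = j := by
      have : (idx 4 fun r => c (6 + r)) = idx 4 j.testBit := idx_congr 4 _ _ fun r _ => by
        rw [hc]
        simp only
        rw [if_neg (by omega), Nat.add_sub_cancel_left]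
      rw [this]
      exact idx_testBit 4 j hj
    rw [e3, e4] at h3
    exact h3
  rw [e2]

theorem g6_le (h : D.RowsOK) (c d : ℕ) : ((D.B : ℤ) + D.fd.g6 c d).toNat ≤ 2 * D.B := by
  have h1 := D.fd.g6_abs D.B h.bil c d
  rw [abs_le] at h1
  omega

theorem rdrs_ar (h : D.RowsOK) (hp : D.PrOK) {s : ℕ} {oo : ℕ → ℕ} {w : ℕ} (hn : D.TNum s oo w)
    (p x j : ℕ) (hp1 : p < 31) (hj : j < 16) :
    Ar D.W 6 (rdG D.W s (oo p) 6 (D.rsG p x j)) fun b =>
      D.tvN s oo p x (gwG (idx 6 b + 64 * j)) := by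
  have hW : 0 < D.W := by have := h.hn.hW; omega
  refine (rdG_ar hW hn.hs (rsG_ar h hp p x j (by omega) hj) (fun b => g6_le h _ _) hn.h1 ?_).congr
    fun b => ?_
  · have h3 := hn.h2 p hp1
    rw [hn.hW]
    exact h3
  · unfold tvN
    rw [if_neg (by omega)]

theorem tvN_lt (h : D.RowsOK) {s : ℕ} {oo : ℕ → ℕ} {w : ℕ} (hn : D.TNum s oo w) (p x y : ℕ)
    (hp : p < 32) : D.tvN s oo p x y < 2 ^ w := by
  unfold tvN
  split_ifs with h31
  · exact Nat.two_pow_pos w
  · have h1 := g6_le h (p + 1024 * x) (p + 1024 * y)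
    have hp' := Nat.two_pow_pos s
    have h2 : (((D.B : ℤ) + D.fd.g6 (p + 1024 * x) (p + 1024 * y)).toNat + (2 ^ s - 1)) / 2 ^ s ≤
        (2 * D.B + 2 ^ s - 1) / 2 ^ s := Nat.div_le_div_right (by omega)
    have := hn.h2 p (by omega)
    omega

theorem rrG_ar (h : D.RowsOK) (hp : D.PrOK) {s : ℕ} {oo : ℕ → ℕ} {w : ℕ} (hn : D.TNum s oo w)
    (p x0 x1 j : ℕ) (hp1 : p < 31) (hj : j < 16) :
    Ar w 7 (D.rrG s (oo p) w p x0 x1 j) fun b => D.tvN s oo p (if b 6 = true then x1 else x0)
      (gwG (idx 6 b + 64 * j)) := by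
  have a1 := rdrs_ar h hp hn p x0 j hp1 hj
  have a2 := rdrs_ar h hp hn p x1 j hp1 hj
  rw [hn.hW] at a1 a2
  have a3 := a1.cat a2 hn.hw
  refine Ar.congr (show Ar w 7 (D.rrG s (oo p) w p x0 x1 j) _ from a3) fun b => ?_
  cases b 6
  · rw [if_neg (by simp), if_neg (by simp)]
  · rw [if_pos rfl, if_pos rfl]

/-- A leaf. -/
theorem tlG_ar (h : D.RowsOK) (hp : D.PrOK) {s : ℕ} {oo : ℕ → ℕ} {w : ℕ} (hn : D.TNum s oo w)
    (π α X : ℕ) (L : List (ℕ × NT)) (hπ : π < 2) (hX : X < 512)
    (ht : D.tlG s oo w π α L X = true) (I : ℕ × NT) (hI : I ∈ L) (hβ : I.1 < 16) :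
    Ar w 7 (gtG I.2 9 X) fun b =>
      D.tvN s oo (peG π (X / 32))
      (gwG ((b 6).toNat + 2 * (X % 32) + 64 * (α ^^^ (X / 32))))
      (gwG (idx 6 b + 64 * (I.1 ^^^ (X / 32)))) := by
  have he : X / 32 < 16 := by omega
  have hpe := peG_lt π hπ (X / 32) he
  have hj : I.1 ^^^ (X / 32) < 16 := Nat.xor_lt_two_pow (n := 4) hβ he
  unfold tlG at ht
  simp only [force_eq] at ht
  have h1 := Nat.eq_of_beq_eq_true (allL_spec _ _ ht I hI)
  have e1 : Nat.div X 32 = X / 32 := rfl
  have e2 : Nat.mod X 32 = X % 32 := rfl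
  rw [e1, e2] at h1
  rw [h1]
  by_cases h31 : peG π (X / 32) = 31
  · have e3 : Nat.beq (peG π (X / 32)) 31 = true := by rw [h31]; rfl
    rw [e3]
    refine (ar_zero (W := w) 7).congr fun b => ?_
    unfold tvN
    rw [if_pos h31]
  · have e3 : Nat.beq (peG π (X / 32)) 31 = false := by
      rw [Bool.eq_false_iff]
      intro h3
      exact h31 (Nat.eq_of_beq_eq_true h3)
    rw [e3]
    have hp1 : peG π (X / 32) < 31 := by omega
    refine (rrG_ar h hp hn _ _ _ _ hp1 hj).congr fun b => ?_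
    congr 1
    cases b 6
    · rw [if_neg (by simp), Bool.toNat_false, Nat.zero_add]
      rfl
    · rw [if_pos rfl, Bool.toNat_true]
      have e7 : Nat.succ (Nat.mul 2 (X % 32)) = 1 + 2 * (X % 32) := by
        rw [Nat.add_comm]
        rfl
      rw [e7]
      rfl

variable (D)

/-- The value of a table of a pair. -/
def ttv (s : ℕ) (oo : ℕ → ℕ) (π α β : ℕ) (b : ℕ → Bool) : ℕ :=
  D.tvN s oo (peG π (idx 4 fun r => b (12 + r)))
    (gwG ((idx 6 fun r => b (6 + r)) + 64 * (α ^^^ idx 4 fun r => b (12 + r))))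
    (gwG (idx 6 b + 64 * (β ^^^ idx 4 fun r => b (12 + r))))

theorem ttv_dep (s : ℕ) (oo : ℕ → ℕ) (π α β : ℕ) (b b' : ℕ → Bool) (h : ∀ r < 16, b r = b' r) :
    D.ttv s oo π α β b = D.ttv s oo π α β b' := by
  unfold ttv
  rw [idx_congr 4 (fun r => b (12 + r)) (fun r => b' (12 + r)) fun r hr =>
    h _ (by omega), idx_congr 6 (fun r => b (6 + r)) (fun r => b' (6 + r)) fun r hr =>
    h _ (by omega), idx_congr 6 b b' fun r hr => h _ (by omega)]

variable {D}

theorem ttG_rep (h : D.RowsOK) (hp : D.PrOK) {s : ℕ} {oo : ℕ → ℕ} {w : ℕ} (hn : D.TNum s oo w)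
    (π α : ℕ) (L : List (ℕ × NT)) (hπ : π < 2)
    (ht : ∀ X < 512, D.tlG s oo w π α L X = true) (I : ℕ × NT) (hI : I ∈ L)
    (hβ : I.1 < 16) (hsh : shpG I.2 9 = true) :
    Rep w 9 I.2 (D.ttv s oo π α I.1) := by
  have h1 := rep_of_leaves (w := w) I.2 9 (fun X b => D.tvN s oo (peG π (X / 32))
      (gwG ((b 6).toNat + 2 * (X % 32) + 64 * (α ^^^ (X / 32))))
      (gwG (idx 6 b + 64 * (I.1 ^^^ (X / 32))))) ?_ hsh
    fun X hX => tlG_ar h hp hn π α X L hπ hX (ht X hX) I hI hβ
  · have e1 : (fun b : ℕ → Bool => D.tvN s oo (peG π ((idx 9 fun r => b (7 + r)) / 32))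
        (gwG ((b 6).toNat + 2 * ((idx 9 fun r => b (7 + r)) % 32) +
          64 * (α ^^^ ((idx 9 fun r => b (7 + r)) / 32))))
        (gwG (idx 6 b + 64 * (I.1 ^^^ ((idx 9 fun r => b (7 + r)) / 32))))) =
        D.ttv s oo π α I.1 := by
      funext b
      unfold ttv
      have h2 := idx_split 5 4 fun r => b (7 + r)
      have e4 : (fun r => b (7 + (5 + r))) = fun r => b (12 + r) := by
        funext r
        congr 1
        omega
      rw [e4] at h2
      have h4 : (idx 5 fun r => b (7 + r)) < 32 := idx_lt 5 _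
      have h3 : (idx 9 fun r => b (7 + r)) = (idx 5 fun r => b (7 + r)) +
        32 * idx 4 fun r => b (12 + r) := h2
      have e6 : (idx 6 fun r => b (6 + r)) = (b 6).toNat + 2 * idx 5 fun r => b (7 + r) := by
        rw [idx_cons 5 fun r => b (6 + r)]
        have e9 : (fun r => b (6 + (r + 1))) = fun r => b (7 + r) := by
          funext r
          congr 1
          omega
        rw [e9, Nat.add_zero]
      rw [h3, e6]
      set q := idx 5 fun r => b (7 + r)
      set t := idx 4 fun r => b (12 + r)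
      have e7 : (q + 32 * t) / 32 = t := by omega
      have e8 : (q + 32 * t) % 32 = q := by omega
      rw [e7, e8]
    rw [← e1]
    exact h1
  · intro X _ b b' hb
    rw [hb 6 (by norm_num), idx_congr 6 b b' fun r hr => hb _ (by omega)]

end TF

end Pool.Agent.Lib.MP_afdd4d_co.K8
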