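import Pool.Agent.Lib.MP_afdd4d_co.K8.Ar

/-!
# Insertion of a bit into the index
-/

namespace Pool.Agent.Lib.MP_afdd4d_co.K8

open Finset

theorem idx_bit (n : ℕ) (b : ℕ → Bool) (r : ℕ) (hr : r < n) : (idx n b).testBit r = b r := by
  rw [testBit_idx]
  simp [hr]

theorem ar_shl {W n A : ℕ} {f : (ℕ → Bool) → ℕ} (hA : Ar W n A f) (hW : 0 < W) (D m : ℕ)
    (g : (ℕ → Bool) → ℕ) (hlt : ∀ b, f b ≠ 0 → idx n b + D < 2 ^ m)
    (h1 : ∀ b b', idx m b = idx n b' + D → g b = f b')
    (h2 : ∀ b, (∀ b', idx m b ≠ idx n b' + D) → g b = 0) : Ar W m (A <<< (W * D)) g := by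
  refine ⟨?_, fun b => ?_⟩
  · apply lt_of_Ln_eq_zero _ _ _ hW
    intro i hi
    rw [Ln_shl]
    split_ifs with h3
    · rfl
    · by_contra hne
      by_cases h4 : i - D < 2 ^ n
      · rw [hA.lane _ h4] at hne
        have h5 := hlt _ hne
        rw [idx_testBit n _ h4] at h5
        omega
      · exact hne (hA.out _ (not_lt.mp h4))
  · rw [Ln_shl]
    by_cases h3 : ∃ b', idx m b = idx n b' + D
    · obtain ⟨b', hb'⟩ := h3
      rw [h1 b b' hb', hb', if_neg (by omega), Nat.add_sub_cancel, hA.get]
    · push Not at h3
      rw [h2 b h3]
      split_ifs with h4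
      · rfl
      · by_cases h5 : idx m b - D < 2 ^ n
        · exfalso
          apply h3 (idx m b - D).testBit
          rw [idx_testBit n _ h5]
          omega
        · exact hA.out _ (not_lt.mp h5)

def in3G (Z d : ℕ) : ℕ := Nat.add Z (Nat.shiftLeft Z d)

def in2G (A A0 d : ℕ) : ℕ := Nat.add A0 (Nat.shiftLeft (Nat.xor A A0) d)

/-- The array with `2 ^ (n+1)` lanes in which bit `n` of the index plays the role of bit `u`, and bit
`u` plays no role. -/
def inG (W n u A : ℕ) : ℕ := @Bool.rec (fun _ => ℕ)
  (in3G (in2G A (Nat.land A (mzG W u n)) (Nat.mul W (Nat.sub (Nat.pow 2 n) (Nat.pow 2 u))))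
    (Nat.mul W (Nat.pow 2 u))) (dpG W n A) (Nat.beq u n)

theorem inG_ar {W n A u : ℕ} {f : (ℕ → Bool) → ℕ} (hW : 0 < W) (hA : Ar W n A f) (hu : u ≤ n) :
    Ar W (n + 1) (inG W n u A) fun b => f (upd b u (b n)) := by
  rcases Nat.eq_or_lt_of_le hu with hun | hun
  · have e1 : inG W n u A = dpG W n A := by
      have e2 : Nat.beq u n = true := by rw [hun]; exact Nat.beq_refl n
      rw [inG, e2]
    rw [e1]
    refine (dpG_ar hW hA).congr fun b => ?_
    apply hA.dep
    intro r hr
    rw [upd, if_neg (by omega)]
  · have e1 : inG W n u A = in3G (in2G A (A &&& mzG W u n) (W * (2 ^ n - 2 ^ u)))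
        (W * 2 ^ u) := by
      have e2 : Nat.beq u n = false := by
        rw [Bool.eq_false_iff]
        intro h
        exact absurd (Nat.eq_of_beq_eq_true h) (by omega)
      rw [inG, e2]
      rfl
    rw [e1]
    have h2pow : 2 ^ u < 2 ^ n := Nat.pow_lt_pow_right (by norm_num) hun
    have h2n : 2 ^ (n + 1) = 2 ^ n + 2 ^ n := by rw [pow_succ]; ring
    set D := 2 ^ n - 2 ^ u with hD
    have hD' : D + 2 ^ u = 2 ^ n := by rw [hD]; omega
    have hM := mzG_ar hW u n
    -- the two parts
    have hA0 : Ar W n (A &&& mzG W u n) fun b => if b u = true then 0 else f b := by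
      refine ⟨?_, fun b => ?_⟩
      · exact lt_of_le_of_lt Nat.and_le_left hA.lt
      · rw [Ln_and, hA.get, hM.get]
        by_cases hb : b u = true
        · rw [if_neg, if_pos hb, Nat.and_zero]
          intro h
          rw [h hun] at hb
          exact Bool.noConfusion hb
        · rw [if_pos (fun _ => by simpa using hb), if_neg hb, and_full _ _ (hA.f_lt b)]
    have hA1 : Ar W n (A ^^^ (A &&& mzG W u n)) fun b => if b u = true then f b else 0 := by
      refine ⟨?_, fun b => ?_⟩
      · apply lt_of_Ln_eq_zero _ _ _ hW
        intro i hi
        rw [Ln_xor, hA.out i hi, hA0.out i hi]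
        rfl
      · rw [Ln_xor, hA.get, hA0.get]
        by_cases hb : b u = true
        · rw [if_pos hb, if_pos hb, Nat.xor_zero]
        · rw [if_neg hb, if_neg hb, Nat.xor_self]
    -- index facts
    have hidx : ∀ b : ℕ → Bool, idx (n + 1) b = idx n b + 2 ^ n * (b n).toNat := fun b => rfl
    have hup : ∀ b : ℕ → Bool, idx n (upd b u true) + 2 ^ u * (b u).toNat = idx n b + 2 ^ u := by
      intro b
      have := idx_upd n u hun b true
      rwa [Bool.toNat_true, mul_one] at this
    have hbitn : ∀ x : ℕ, (x + 2 ^ n).testBit u = x.testBit u := by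
      intro x
      rw [Nat.testBit_eq_decide_div_mod_eq, Nat.testBit_eq_decide_div_mod_eq]
      congr 1
      apply propext
      obtain ⟨k, hk⟩ : ∃ k, n = u + (k + 1) := ⟨n - u - 1, by omega⟩
      have h9 : 2 ^ n = 2 ^ u * (2 * 2 ^ k) := by rw [hk, pow_add, pow_succ]; ring
      rw [h9, Nat.add_mul_div_left _ _ (Nat.two_pow_pos u)]
      omega
    have hS : Ar W (n + 1) ((A ^^^ (A &&& mzG W u n)) <<< (W * D))
        fun b => if b n = true ∧ b u = false then f (upd b u true) else 0 := by
      refine ar_shl hA1 hW D (n + 1) _ ?_ ?_ ?_
      · intro b _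
        have := idx_lt n b
        have := Nat.two_pow_pos u
        omega
      · intro b b' hbb
        have hb'lt := idx_lt n b'
        have hblt := idx_lt n b
        by_cases hb'u : b' u = true
        · -- b' has bit u, so b = b' without u, with n
          have h5 : idx (n + 1) (upd (upd b' u false) n true) = idx n b' + D := by
            have h6 : idx n (upd (upd b' u false) n true) = idx n (upd b' u false) := by
              apply idx_congr
              intro r hr
              rw [upd, if_neg (by omega)]
            have h7 := idx_upd n u hun b' false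
            rw [hb'u] at h7
            simp only [Bool.toNat_true, Bool.toNat_false, mul_one, mul_zero, add_zero] at h7
            rw [hidx, h6, upd, if_pos rfl, Bool.toNat_true, mul_one]
            omega
          have h8 := idx_inj (n + 1) _ _ (hbb.trans h5.symm)
          have hbn : b n = true := by
            rw [h8 n (by omega), upd, if_pos rfl]
          have hbu : b u = false := by
            rw [h8 u (by omega), upd, if_neg (by omega), upd, if_pos rfl]
          rw [if_pos ⟨hbn, hbu⟩, if_pos hb'u]
          apply hA.dep
          intro r hr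
          by_cases hru : r = u
          · rw [upd, if_pos hru, hru, hb'u]
          · rw [upd, if_neg hru, h8 r (by omega), upd, if_neg (by omega), upd, if_neg hru]
        · have hb'u' : b' u = false := by simpa using hb'u
          rw [if_neg hb'u, if_neg]
          rintro ⟨hbn, hbu⟩
          have h5 : idx (n + 1) b + 2 ^ u = idx n b' + 2 ^ n := by omega
          have h6 : (idx (n + 1) b).testBit u = false := by
            rw [idx_bit _ _ _ (by omega)]; exact hbu
          have h7 := testBit_add_pow _ _ h6
          rw [h5, hbitn, idx_bit _ _ _ hun, hb'u'] at h7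
          exact Bool.noConfusion h7
      · intro b hb
        rw [if_neg]
        rintro ⟨hbn, hbu⟩
        apply hb (upd b u true)
        have h6 := hup b
        rw [hbu, Bool.toNat_false, mul_zero, add_zero] at h6
        rw [hidx, hbn, Bool.toNat_true, mul_one]
        omega
    have hZ : Ar W (n + 1) (in2G A (A &&& mzG W u n) (W * D))
        fun b => if b u = true then 0 else f (upd b u (b n)) := by
      have h5 := (ar_low hW hA0).add hS hW (by
        intro b
        by_cases hbn : b n = true
        · rw [if_pos hbn, zero_add]
          split_ifs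
          · exact hA.f_lt _
          · exact Nat.two_pow_pos W
        · have e9 : ¬ (b n = true ∧ b u = false) := fun h => hbn h.1
          rw [if_neg hbn, if_neg e9, add_zero]
          split_ifs
          · exact Nat.two_pow_pos W
          · exact hA.f_lt _)
      refine Ar.congr (show Ar W (n + 1) (in2G A (A &&& mzG W u n) (W * D)) _ from h5)
        fun b => ?_
      by_cases hbn : b n = true
      · rw [if_pos hbn, zero_add]
        by_cases hbu : b u = true
        · rw [if_pos hbu, if_neg]
          rintro ⟨_, h6⟩
          rw [hbu] at h6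
          exact Bool.noConfusion h6
        · rw [if_neg hbu, if_pos ⟨hbn, by simpa using hbu⟩, hbn]
      · have e9 : ¬ (b n = true ∧ b u = false) := fun h => hbn h.1
        rw [if_neg hbn, if_neg e9, add_zero]
        by_cases hbu : b u = true
        · rw [if_pos hbu, if_pos hbu]
        · rw [if_neg hbu, if_neg hbu]
          apply hA.dep
          intro r _
          by_cases hru : r = u
          · rw [upd, if_pos hru, hru]
            rw [Bool.not_eq_true] at hbn hbu
            rw [hbn, hbu]
          · rw [upd, if_neg hru]
    -- the last step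
    have hZs : Ar W (n + 1) (in2G A (A &&& mzG W u n) (W * D) <<< (W * 2 ^ u))
        fun b => if b u = true then f (upd b u (b n)) else 0 := by
      have hup1 : ∀ (b : ℕ → Bool) (v : Bool), idx (n + 1) (upd b u v) + 2 ^ u * (b u).toNat =
          idx (n + 1) b + 2 ^ u * v.toNat := fun b v => idx_upd (n + 1) u (by omega) b v
      refine ar_shl hZ hW (2 ^ u) (n + 1) _ ?_ ?_ ?_
      · intro b hb
        have hbu : b u = false := by
          by_contra h6
          rw [Bool.not_eq_false] at h6
          exact hb (if_pos h6)
        have h7 := hup1 b true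
        have h8 := idx_lt (n + 1) (upd b u true)
        rw [hbu, Bool.toNat_false, mul_zero, Bool.toNat_true, mul_one] at h7
        omega
      · intro b b' hbb
        by_cases hb'u : b' u = true
        · rw [if_pos hb'u, if_neg]
          intro hbu
          have h6 : (idx (n + 1) b').testBit u = true := by
            rw [idx_bit _ _ _ (by omega)]; exact hb'u
          have h7 := testBit_add_pow' _ _ h6
          rw [← hbb, idx_bit _ _ _ (by omega), hbu] at h7
          exact Bool.noConfusion h7
        · have hb'u' : b' u = false := by simpa using hb'u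
          have h6 := hup1 b' true
          rw [hb'u', Bool.toNat_false, mul_zero, Bool.toNat_true, mul_one, add_zero] at h6
          have h7 := idx_inj (n + 1) _ _ (hbb.trans h6.symm)
          have hbu : b u = true := by rw [h7 u (by omega), upd, if_pos rfl]
          have hbn : b n = b' n := by rw [h7 n (by omega), upd, if_neg (by omega)]
          rw [if_pos hbu, if_neg hb'u, hbn]
          apply hA.dep
          intro r hr
          by_cases hru : r = u
          · rw [upd, if_pos hru, upd, if_pos hru]
          · rw [upd, if_neg hru, upd, if_neg hru, h7 r (by omega), upd, if_neg hru]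
      · intro b hb
        rw [if_neg]
        intro hbu
        apply hb (upd b u false)
        have h6 := hup1 b false
        rw [hbu, Bool.toNat_true, Bool.toNat_false, mul_one, mul_zero, add_zero] at h6
        omega
    have hR := hZ.add hZs hW (by
      intro b
      by_cases hbu : b u = true
      · rw [if_pos hbu, if_pos hbu, zero_add]; exact hA.f_lt _
      · rw [if_neg hbu, if_neg hbu, add_zero]; exact hA.f_lt _)
    refine Ar.congr (show Ar W (n + 1) (in3G (in2G A (A &&& mzG W u n) (W * D)) (W * 2 ^ u)) _
      from hR) fun b => ?_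
    by_cases hbu : b u = true
    · rw [if_pos hbu, if_pos hbu, zero_add]
    · rw [if_neg hbu, if_neg hbu, add_zero]

end Pool.Agent.Lib.MP_afdd4d_co.K8
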