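import Pool.Agent.Lib.MP_afdd4d_co.K8.JN2

/-!
# The checks of the near rows with literal constants

The constants of the views of a difference are checked once, outside of the checks of the lanes.
-/

namespace Pool.Agent.Lib.MP_afdd4d_co.K8.Jv

open Finset

theorem Ln_land (W A B i : ℕ) : Ln W (Nat.land A B) i = Nat.land (Ln W A i) (Ln W B i) := by
  apply Nat.eq_of_testBit_eq
  intro r
  have e : ∀ x y : ℕ, Nat.land x y = x &&& y := fun _ _ => rfl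
  unfold Ln
  rw [e, e, Nat.testBit_and, Nat.testBit_mod_two_pow, Nat.testBit_mod_two_pow,
    Nat.testBit_mod_two_pow, ← Nat.shiftRight_eq_div_pow, ← Nat.shiftRight_eq_div_pow,
    ← Nat.shiftRight_eq_div_pow, Nat.testBit_shiftRight, Nat.testBit_shiftRight,
    Nat.testBit_shiftRight, Nat.testBit_and]
  cases decide (r < W) <;> cases A.testBit (W * i + r) <;> cases B.testBit (W * i + r) <;> rfl

theorem ar_land {W n A B : ℕ} {f g : (ℕ → Bool) → ℕ} (hA : Ar W n A f) (hB : Ar W n B g) :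
    Ar W n (Nat.land A B) fun b => Nat.land (f b) (g b) := by
  refine ⟨?_, fun b => ?_⟩
  · exact lt_of_le_of_lt Nat.and_le_left hA.lt
  · rw [Ln_land, hA.get, hB.get]

/-- The constants of a difference `c`: low and high part of its code, constants and codes of the
seven views. -/
structure Ent where
  c : ℕ
  jx : ℕ
  jt : ℕ
  y0 : ℕ
  y1 : ℕ
  y2 : ℕ
  y3 : ℕ
  y4 : ℕ
  y5 : ℕ
  y6 : ℕ
  j0 : ℕ
  j1 : ℕ
  j2 : ℕ
  j3 : ℕ
  j4 : ℕ
  j5 : ℕ
  j6 : ℕ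

/-- The sum of seven numbers that depend on two constants. -/
def e7 (f : ℕ → ℕ → ℕ → ℕ) (e : Ent) : ℕ :=
  Nat.add (Nat.add (Nat.add (f 0 e.y0 e.j0) (f 1 e.y1 e.j1))
    (Nat.add (f 2 e.y2 e.j2) (f 3 e.y3 e.j3)))
    (Nat.add (Nat.add (f 4 e.y4 e.j4) (f 5 e.y5 e.j5)) (f 6 e.y6 e.j6))

/-- The comparison with the constants of the views of the even 4-graph. -/
def Ent.mt (e : Ent) : Bool :=
  Nat.beq (Tabs.jx e.c) e.jx && (Nat.beq (Tabs.jt e.c) e.jt && (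
  Nat.beq (yc6 e.c 0) e.y0 && (Nat.beq (yc6 e.c 1) e.y1 && (Nat.beq (yc6 e.c 2) e.y2 && (
  Nat.beq (yc6 e.c 3) e.y3 && (Nat.beq (yc6 e.c 4) e.y4 && (Nat.beq (yc6 e.c 5) e.y5 && (
  Nat.beq (yc6 e.c 6) e.y6 && (
  Nat.beq (jc6 e.c 0) e.j0 && (Nat.beq (jc6 e.c 1) e.j1 && (Nat.beq (jc6 e.c 2) e.j2 && (
  Nat.beq (jc6 e.c 3) e.j3 && (Nat.beq (jc6 e.c 4) e.j4 && (Nat.beq (jc6 e.c 5) e.j5 && (
  Nat.beq (jc6 e.c 6) e.j6)))))))))))))))

/-- The comparison with the constants of the views of the 4-graph alone. -/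
def Ent.mg (e : Ent) : Bool :=
  Nat.beq (xc6 e.c 0) e.y0 && (Nat.beq (xc6 e.c 1) e.y1 && (Nat.beq (xc6 e.c 2) e.y2 && (
  Nat.beq (xc6 e.c 3) e.y3 && (Nat.beq (xc6 e.c 4) e.y4 && (Nat.beq (xc6 e.c 5) e.y5 && (
  Nat.beq (xc6 e.c 6) e.y6 && (
  Nat.beq (gc6 e.c 0) e.j0 && (Nat.beq (gc6 e.c 1) e.j1 && (Nat.beq (gc6 e.c 2) e.j2 && (
  Nat.beq (gc6 e.c 3) e.j3 && (Nat.beq (gc6 e.c 4) e.j4 && (Nat.beq (gc6 e.c 5) e.j5 && (
  Nat.beq (gc6 e.c 6) e.j6)))))))))))))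

theorem e7_mt (f : ℕ → ℕ → ℕ → ℕ) (e : Ent) (h : e.mt = true) :
    e7 f e = Tabs.s7 fun v => f v (yc6 e.c (Fin.ofNat 7 v)) (jc6 e.c v) := by
  unfold Ent.mt at h
  simp only [Bool.and_eq_true, Nat.beq_eq] at h
  obtain ⟨_, _, h1, h2, h3, h4, h5, h6, h7, g1, g2, g3, g4, g5, g6, g7⟩ := h
  unfold e7
  rw [← h1, ← h2, ← h3, ← h4, ← h5, ← h6, ← h7, ← g1, ← g2, ← g3, ← g4, ← g5, ← g6, ← g7]
  rfl

theorem e7_mg (f : ℕ → ℕ → ℕ → ℕ) (e : Ent) (h : e.mg = true) :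
    e7 f e = Tabs.s7 fun v => f v (xc6 e.c (Fin.ofNat 7 v)) (gc6 e.c v) := by
  unfold Ent.mg at h
  simp only [Bool.and_eq_true, Nat.beq_eq] at h
  obtain ⟨h1, h2, h3, h4, h5, h6, h7, g1, g2, g3, g4, g5, g6, g7⟩ := h
  unfold e7
  rw [← h1, ← h2, ← h3, ← h4, ← h5, ← h6, ← h7, ← g1, ← g2, ← g3, ← g4, ← g5, ← g6, ← g7]
  rfl

theorem Ent.mt_jx (e : Ent) (h : e.mt = true) : Tabs.jx e.c = e.jx ∧ Tabs.jt e.c = e.jt := by
  unfold Ent.mt at h
  simp only [Bool.and_eq_true, Nat.beq_eq] at h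
  exact ⟨h.1, h.2.1⟩

namespace Tabs

variable {S : PsiSys} (D : Tabs S)

/-- The lanes of the part of the row that depends on the 4-graph alone. -/
def QE (g : Ent) (τ : ℕ) : ℕ := Nat.add (Nat.add (D.tA g.c τ) (D.tA g.c τ))
  (e7 (fun v x j => D.vx τ v x (D.tP j)) g)

theorem QE_eq (g : Ent) (hg : g.mg = true) (τ : ℕ) : D.QE g τ = D.QA g.c τ := by
  unfold QE QA
  rw [e7_mg _ g hg]

/-- The check of a difference, `M` are the lanes of the mask. -/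
def chkE (A M τ K : ℕ) (e : Ent) : Bool := leG D.w 16 K (Nat.land (Nat.add (Nat.add A
  (e7 (fun v y j => D.vx τ v y (Nat.sub (csG D.w (Nat.mul 2 D.OP) 10) (D.tP j))) e))
  (xkG D.w 16 e.jx 16 (D.tB (Nat.xor τ e.jt)))) M)

/-- The check of a list of differences in a coset, with another check at the end. -/
def chkM (A M τ K : ℕ) (z : Bool) (L : List Ent) : Bool :=
  @List.rec Ent (fun _ => Bool) z (fun e _ ih =>
    @Bool.rec (fun _ => Bool) false ih (D.chkE A M τ K e)) L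

theorem chkM_spec {A M τ K : ℕ} {z : Bool} : ∀ {L : List Ent}, D.chkM A M τ K z L = true →
    z = true ∧ ∀ e ∈ L, D.chkE A M τ K e = true := by
  intro L
  induction L with
  | nil => intro h; exact ⟨h, fun e he => absurd he List.not_mem_nil⟩
  | cons c0 L ih =>
    intro h
    have e : D.chkM A M τ K z (c0 :: L) =
        @Bool.rec (fun _ => Bool) false (D.chkM A M τ K z L) (D.chkE A M τ K c0) := rfl
    rw [e] at h
    cases h1 : D.chkE A M τ K c0 with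
    | false => rw [h1] at h; exact Bool.noConfusion h
    | true =>
      rw [h1] at h
      have h2 := ih h
      refine ⟨h2.1, fun e he => ?_⟩
      rcases List.mem_cons.mp he with h3 | h3
      · rw [h3]; exact h1
      · exact h2.2 e h3

/-- The mask of a coset: all bits of the lane of every `K_5`-free 4-graph. -/
def MaskOK (w c : ℕ) (M : ℕ → ℕ) (fM : ℕ → (ℕ → Bool) → ℕ) : Prop :=
  (∀ τ < 16, Ar w 16 (M τ) (fM τ)) ∧
  ∀ (n : ℕ) (H E' : Finset (Finset (Fin n))) (s : Fin 7 → Fin n), PsiSys.Pr H E' s →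
    JD H E' s = jset c → fM (idx 4 fun i => gc H s (16 + i)) (gc H s) = 2 ^ w - 1

theorem land_mask {w x : ℕ} (hx : x < 2 ^ w) : Nat.land x (2 ^ w - 1) = x := by
  have e : Nat.land x (2 ^ w - 1) = x &&& (2 ^ w - 1) := rfl
  rw [e, Nat.and_two_pow_sub_one_eq_mod, Nat.mod_eq_of_lt hx]

theorem row_mask {n : ℕ} (H E' E'' : Finset (Finset (Fin n))) (s : Fin 7 → Fin n) (g e : Ent)
    (hg : g.mg = true) (he : e.mt = true) (M : ℕ → ℕ) (fM : ℕ → (ℕ → Bool) → ℕ)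
    (hM : MaskOK D.w g.c M fM)
    (hc : g.c ∈ D.reps) (hP : PsiSys.Pr H E' s) (hJ : JD H E' s = jset e.c)
    (hP' : PsiSys.Pr H E'' s) (hJ' : JD H E'' s = jset g.c) (K : ℕ)
    (hK : K < 2 ^ (D.w - 1)) (hKe : (K : ℤ) = D.C0 - 2 * S.Lo + 14 * D.OP + D.OB)
    (hchk : ∀ τ < 16, D.chkE (D.QE g τ) (M τ) τ K e = true) : 0 ≤ S.row H E' s := by
  have hsz := D.hsz
  have hE : EvT E' s := evT_of_evenH E' hP.2.2.2.1 s hP.2.2.2.2
  have hs := hP.2.2.2.2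
  have h0 := D.rowA_eq H E'' s g.c hc hP' hJ'
  have hxt := jt_xor H E' s e.c hJ
  set τ : ℕ := idx 4 fun i => gc H s (16 + i) with hτd
  have hτ : τ < 16 := tau_lt H s
  set τ' : ℕ := idx 4 fun i => gc E' s (16 + i) with hτd'
  have hτ' : τ' < 16 := tau_lt E' s
  have hmk : fM τ (gc H s) = 2 ^ D.w - 1 := hM.2 n H E'' s hP' hJ'
  have h1 := D.QA_ar g.c hc τ hτ
  have h3 := s7_ar D.hw0 (fun v => D.vx τ v (yc6 e.c (Fin.ofNat 7 v))
      (Nat.sub (csG D.w (Nat.mul 2 D.OP) 10) (D.tP (jc6 e.c v))))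
    (fun v b => 2 * D.OP - D.fP (jc6 e.c v) fun r => lf 20 (mf v r) (mk20 τ b) ^^
      (yc6 e.c v).testBit r)
    (2 * D.OP) (fun v => by
      have h := D.vx_ar hτ v (yc6 e.c v)
        (D.neg_ar (D.hP (jc6 e.c v) (jc6_lt e.c v)) (D.hP2 _ (jc6_lt e.c v)))
      simp only [ofNat7]
      exact h) (fun v b => Nat.sub_le _ _) D.sz7
  have h2w : 2 ^ (D.w - 1) ≤ 2 ^ D.w := Nat.pow_le_pow_right (by norm_num) (by omega)
  have h4 := fun b => D.fQ_le g.c hc τ hτ b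
  have h5 : ∀ b, (∑ v : Fin 7, (2 * D.OP - D.fP (jc6 e.c v) fun r =>
      lf 20 (mf v r) (mk20 τ b) ^^ (yc6 e.c v).testBit r)) ≤ 7 * (2 * D.OP) := fun b =>
    sum7_le _ _ fun v => Nat.sub_le _ _
  have h6 := h1.add h3 D.hw0 (fun b => by have := h4 b; have := h5 b; omega)
  have hB := xkG_ar D.hw0 (D.hB τ' hτ') (k := jx e.c) 16 le_rfl
  have hB2 := fun b => D.hB2 τ' hτ' b
  have h7 := h6.add hB D.hw0 (fun b => by
    have := h4 b; have := h5 b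
    have := hB2 (fun r => b r ^^ (decide (r < 16) && (jx e.c).testBit r))
    omega)
  have hbd : ∀ b, (D.fQ g.c τ b + ∑ v : Fin 7, (2 * D.OP - D.fP (jc6 e.c v) fun r =>
      lf 20 (mf v r) (mk20 τ b) ^^ (yc6 e.c v).testBit r)) +
      D.fB τ' (fun r => b r ^^ (decide (r < 16) && (jx e.c).testBit r)) < 2 ^ (D.w - 1) :=
    fun b => by
      have := h4 b; have := h5 b
      have := hB2 (fun r => b r ^^ (decide (r < 16) && (jx e.c).testBit r))
      omega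
  have hck := hchk τ hτ
  unfold chkE at hck
  rw [D.QE_eq g hg, e7_mt _ e he, ← (e.mt_jx he).1, ← (e.mt_jx he).2, hxt] at hck
  have h8 := leG_le D.hw (ar_land h7 (hM.1 τ hτ)) hK
    (fun b => lt_of_le_of_lt Nat.and_le_left (hbd b)) hck (gc H s)
  rw [hmk, land_mask (lt_of_lt_of_le (hbd (gc H s)) h2w)] at h8
  have h9 : DS (m := 6) (S.ψ H E') s = ∑ v : Fin 7, ((D.fP (jc6 e.c v) (fun r =>
      lf 20 (mf v r) (mk20 τ (gc H s)) ^^ (yc6 e.c v).testBit r) : ℤ) - D.OP) := by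
    rw [DS_vq (S.ψ H E') (fun τ p => S.ψs H E' τ p) s]
    refine Finset.sum_congr rfl fun v _ => ?_
    have e1 : D.fP (jc6 e.c v) (gc E' (s ∘ vq v)) = D.fP (jc6 e.c v) (fun r =>
        lf 20 (mf v r) (mk20 τ (gc H s)) ^^ (yc6 e.c v).testBit r) := by
      apply (D.hP (jc6 e.c v) (jc6_lt e.c v)).dep
      intro r hr
      have e2 := lf_congr 20 (mf v r) _ _ (mk20_gc H s)
      rw [← hτd] at e2
      rw [gc_view H E' s e.c hJ hE v r hr, e2]
    rw [D.sP n H E' (s ∘ vq v) (jc6 e.c v) (jc6_lt e.c v) (evT_comp E' s _ (vq_inj v) hE)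
      (fun r hr => jd_view H E' s e.c hJ v r hr), e1]
  have h10 : D.fB τ' (fun r => gc H s r ^^ (decide (r < 16) && (jx e.c).testBit r)) =
      D.fB τ' (gc E' s) := by
    apply (D.hB τ' hτ').dep
    intro r hr
    rw [gc_jd H E' s e.c hJ r (by omega), jx, testBit_idx, decide_eq_true hr, Bool.true_and,
      Bool.true_and]
  have h11 := D.sB n E' s hE
  rw [h10] at h8
  have h12 : (∑ v : Fin 7, ((2 * D.OP - D.fP (jc6 e.c v) fun r =>
      lf 20 (mf v r) (mk20 τ (gc H s)) ^^ (yc6 e.c v).testBit r : ℕ) : ℤ)) =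
      ∑ v : Fin 7, (2 * (D.OP : ℤ) - (D.fP (jc6 e.c v) fun r =>
      lf 20 (mf v r) (mk20 τ (gc H s)) ^^ (yc6 e.c v).testBit r : ℕ)) := by
    refine Finset.sum_congr rfl fun v _ => ?_
    rw [Nat.cast_sub (D.hP2 _ (jc6_lt e.c v) _)]
    push_cast
    ring
  have h13 : ((D.fQ g.c τ (gc H s) : ℕ) : ℤ) + (∑ v : Fin 7, ((2 * D.OP -
      D.fP (jc6 e.c v) fun r => lf 20 (mf v r) (mk20 τ (gc H s)) ^^ (yc6 e.c v).testBit r : ℕ) : ℤ)) +
      (D.fB τ' (gc E' s) : ℕ) ≤ K := by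
    exact_mod_cast h8
  rw [h12, Finset.sum_sub_distrib, Finset.sum_const, Finset.card_univ, Fintype.card_fin,
    nsmul_eq_mul] at h13
  unfold PsiSys.row
  rw [h0, h9, h11, Finset.sum_sub_distrib, Finset.sum_const, Finset.card_univ, Fintype.card_fin,
    nsmul_eq_mul]
  push_cast at h13 ⊢
  linarith

/-- The rows of a list of differences in one coset. -/
theorem rowJ_of_ent (g : Ent) (hg : g.mg = true) (K : ℕ) (hc : g.c ∈ D.reps)
    (M : ℕ → ℕ) (fM : ℕ → (ℕ → Bool) → ℕ) (hM : MaskOK D.w g.c M fM) (L : List Ent)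
    (hK : K < 2 ^ (D.w - 1)) (hKe : (K : ℤ) = D.C0 - 2 * S.Lo + 14 * D.OP + D.OB)
    (hL : (L.all fun e => e.mt && evC (g.c ^^^ e.c)) = true)
    (hchk : ∀ τ < 16, ∀ e ∈ L, D.chkE (D.QE g τ) (M τ) τ K e = true) :
    ∀ e ∈ L, S.RowJ (jset e.c) := by
  intro e he n H E' s hP hJ
  have h1 := List.all_eq_true.mp hL e he
  rw [Bool.and_eq_true] at h1
  obtain ⟨E'', hP', hJ'⟩ := exists_rep hP hJ h1.2
  exact D.row_mask H E' E'' s g e hg h1.1 M fM hM hc hP hJ hP' hJ' K hK hKe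
    fun τ hτ => hchk τ hτ e he

end Tabs

end Pool.Agent.Lib.MP_afdd4d_co.K8.Jv
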