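import Pool.Agent.Lib.MP_afdd4d_co.K8.JV
import Pool.Agent.Lib.MP_afdd4d_co.K8.View2

/-!
# The rows of the near pairs and of the 4-graphs alone, by lanes
-/

namespace Pool.Agent.Lib.MP_afdd4d_co.K8.Jv

open Finset

/-! ### Sums over the seven vertices -/

theorem exists_vq_perm : ∀ v : Fin 7, ∃ τ : Equiv.Perm (Fin 6), ∀ i, vq v i = v.succAbove (τ i) := by
  intro v
  by_cases hv : v = 0
  · refine ⟨⟨![5, 0, 1, 2, 3, 4], ![1, 2, 3, 4, 5, 0], by decide, by decide⟩, ?_⟩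
    subst hv
    decide
  · refine ⟨Equiv.refl _, fun i => ?_⟩
    unfold vq
    rw [if_neg hv]
    rfl

theorem DS_vq {n : ℕ} (f : (Fin 6 → Fin n) → ℤ)
    (hf : ∀ (τ : Equiv.Perm (Fin 6)) (p : Fin 6 → Fin n), f (p ∘ τ) = f p) (s : Fin 7 → Fin n) :
    DS (m := 6) f s = ∑ v : Fin 7, f (s ∘ vq v) := by
  unfold DS
  refine Finset.sum_congr rfl fun v _ => ?_
  obtain ⟨τ, hτ⟩ := exists_vq_perm v
  have e : s ∘ vq v = (s ∘ v.succAbove) ∘ τ := by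
    funext i
    rw [Function.comp_apply, hτ i]
    rfl
  rw [e, hf]

theorem MS_vq {n : ℕ} (f : Fin n → (Fin 6 → Fin n) → ℤ)
    (hf : ∀ (τ : Equiv.Perm (Fin 6)) r (p : Fin 6 → Fin n), f r (p ∘ τ) = f r p)
    (s : Fin 7 → Fin n) : MS f s = ∑ v : Fin 7, f (s v) (s ∘ vq v) := by
  unfold MS
  refine Finset.sum_congr rfl fun v _ => ?_
  obtain ⟨τ, hτ⟩ := exists_vq_perm v
  have e : s ∘ vq v = (s ∘ v.succAbove) ∘ τ := by
    funext i
    rw [Function.comp_apply, hτ i]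
    rfl
  rw [e, hf]

/-! ### The data -/

/-- The tables for a pair system. -/
structure Tabs (S : PsiSys) where
  w : ℕ
  OP : ℕ
  OB : ℕ
  /-- bounds for the lanes -/
  MA : ℕ
  MB : ℕ
  C0 : ℤ
  /-- the function of pairs -/
  tP : ℕ → ℕ
  fP : ℕ → (ℕ → Bool) → ℕ
  /-- the function of even 4-graphs -/
  tB : ℕ → ℕ
  fB : ℕ → (ℕ → Bool) → ℕ
  /-- the part of the five-vertex types -/
  tA : ℕ → ℕ → ℕ
  fA : ℕ → ℕ → (ℕ → Bool) → ℕ
  /-- the representatives of the cosets -/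
  reps : List ℕ
  hw : 1 < w
  hP : ∀ J < 2 ^ 15, Ar w 10 (tP J) (fP J)
  hP2 : ∀ J < 2 ^ 15, ∀ b, fP J b ≤ 2 * OP
  hB : ∀ t < 16, Ar w 16 (tB t) (fB t)
  hB2 : ∀ t < 16, ∀ b, fB t b ≤ MB
  hA : ∀ c ∈ reps, ∀ τ < 16, Ar w 16 (tA c τ) (fA c τ)
  hA2 : ∀ c ∈ reps, ∀ τ < 16, ∀ b, fA c τ b ≤ MA
  hsz : 2 * MA + 14 * (2 * OP) + MB < 2 ^ (w - 1)
  sP : ∀ (n : ℕ) (H E' : Finset (Finset (Fin n))) (p : Fin 6 → Fin n) (J : ℕ), J < 2 ^ 15 →
    EvT E' p → (∀ r < 15, (zb H p (q6 6 r) ^^ zb E' p (q6 6 r)) = J.testBit r) →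
    S.ψ H E' p = (fP J (gc E' p) : ℤ) - OP
  sB : ∀ (n : ℕ) (E' : Finset (Finset (Fin n))) (s : Fin 7 → Fin n), EvT E' s →
    S.B E' s = (fB (idx 4 fun i => gc E' s (16 + i)) (gc E' s) : ℤ) - OB
  sA : ∀ (n : ℕ) (H E' : Finset (Finset (Fin n))) (s : Fin 7 → Fin n) (c : ℕ), c ∈ reps →
    PsiSys.Pr H E' s → JD H E' s = jset c →
    2 * S.a * (N8 H s : ℤ) - PS (S.k5.f H) s =
      C0 - 2 * (fA c (idx 4 fun i => gc H s (16 + i)) (gc H s) : ℤ)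

namespace Tabs

variable {S : PsiSys} (D : Tabs S)

theorem hw0 : 0 < D.w := lt_trans one_pos D.hw

/-- The view of a table with shifted code. -/
def vx (τ v x A : ℕ) : ℕ := vwG D.w τ v (xkG D.w 10 x 10 A)

theorem vx_ar {τ : ℕ} (hτ : τ < 16) (v : Fin 7) (x : ℕ) {A : ℕ} {f : (ℕ → Bool) → ℕ}
    (hA : Ar D.w 10 A f) :
    Ar D.w 16 (D.vx τ v x A) fun b => f fun r => lf 20 (mf v r) (mk20 τ b) ^^ x.testBit r := by
  refine (vwG_ar D.hw0 hτ v (xkG_ar D.hw0 hA (k := x) 10 le_rfl)).congr fun b => ?_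
  apply hA.dep
  intro r hr
  rw [decide_eq_true hr, Bool.true_and]

/-- The sum of seven numbers. -/
def s7 (f : ℕ → ℕ) : ℕ :=
  Nat.add (Nat.add (Nat.add (f 0) (f 1)) (Nat.add (f 2) (f 3))) (Nat.add (Nat.add (f 4) (f 5)) (f 6))

theorem s7_ar {W : ℕ} (hW : 0 < W) (g : ℕ → ℕ) (f : Fin 7 → (ℕ → Bool) → ℕ) (M : ℕ)
    (h : ∀ v : Fin 7, Ar W 16 (g v) (f v)) (hf : ∀ v b, f v b ≤ M) (hM : 7 * M < 2 ^ W) :
    Ar W 16 (s7 g) fun b => ∑ v : Fin 7, f v b := by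
  have h0 : Ar W 16 (g 0) (f 0) := h 0
  have h1 : Ar W 16 (g 1) (f 1) := h 1
  have h2 : Ar W 16 (g 2) (f 2) := h 2
  have h3 : Ar W 16 (g 3) (f 3) := h 3
  have h4 : Ar W 16 (g 4) (f 4) := h 4
  have h5 : Ar W 16 (g 5) (f 5) := h 5
  have h6 : Ar W 16 (g 6) (f 6) := h 6
  have k01 := h0.add h1 hW (fun b => by have := hf 0 b; have := hf 1 b; omega)
  have k23 := h2.add h3 hW (fun b => by have := hf 2 b; have := hf 3 b; omega)
  have k45 := h4.add h5 hW (fun b => by have := hf 4 b; have := hf 5 b; omega)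
  have k0123 := k01.add k23 hW (fun b => by
    have := hf 0 b; have := hf 1 b; have := hf 2 b; have := hf 3 b; omega)
  have k456 := k45.add h6 hW (fun b => by
    have := hf 4 b; have := hf 5 b; have := hf 6 b; omega)
  have k := k0123.add k456 hW (fun b => by
    have := hf 0 b; have := hf 1 b; have := hf 2 b; have := hf 3 b
    have := hf 4 b; have := hf 5 b; have := hf 6 b; omega)
  refine k.congr fun b => ?_
  rw [Fin.sum_univ_seven]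
  ring

/-! ### The 4-graph alone -/

/-- The lanes of the part of the row that depends on the 4-graph alone. -/
def QA (c τ : ℕ) : ℕ := Nat.add (Nat.add (D.tA c τ) (D.tA c τ))
  (s7 fun v => D.vx τ v (xc6 c (Fin.ofNat 7 v)) (D.tP (gc6 c v)))

/-- The value of the lanes. -/
def fQ (c τ : ℕ) (b : ℕ → Bool) : ℕ := (D.fA c τ b + D.fA c τ b) +
  ∑ v : Fin 7, D.fP (gc6 c v) fun r => lf 20 (mf v r) (mk20 τ b) ^^ (xc6 c v).testBit r

theorem gc6_lt (c v : ℕ) : gc6 c v < 2 ^ 15 := idx_lt _ _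

theorem jc6_lt (c v : ℕ) : jc6 c v < 2 ^ 15 := idx_lt _ _

theorem ofNat7 (v : Fin 7) : Fin.ofNat 7 (v : ℕ) = v := by
  apply Fin.ext
  exact Nat.mod_eq_of_lt v.isLt

theorem sz7 : 7 * (2 * D.OP) < 2 ^ D.w := by
  have h := D.hsz
  have h2 : 2 ^ (D.w - 1) ≤ 2 ^ D.w := Nat.pow_le_pow_right (by norm_num) (by omega)
  omega

theorem QA_ar (c : ℕ) (hc : c ∈ D.reps) (τ : ℕ) (hτ : τ < 16) :
    Ar D.w 16 (D.QA c τ) (D.fQ c τ) := by
  have hsz := D.hsz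
  have h2 : 2 ^ (D.w - 1) ≤ 2 ^ D.w := Nat.pow_le_pow_right (by norm_num) (by omega)
  have hA := D.hA c hc τ hτ
  have hA2 := D.hA2 c hc τ hτ
  have h1 := hA.add hA D.hw0 (fun b => by have := hA2 b; omega)
  have h3 := s7_ar D.hw0 (fun v => D.vx τ v (xc6 c (Fin.ofNat 7 v)) (D.tP (gc6 c v)))
    (fun v b => D.fP (gc6 c v) fun r => lf 20 (mf v r) (mk20 τ b) ^^ (xc6 c v).testBit r)
    (2 * D.OP) (fun v => by
      have h := D.vx_ar hτ v (xc6 c v) (D.hP (gc6 c v) (gc6_lt c v))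
      simp only [ofNat7]
      exact h) (fun v b => D.hP2 _ (gc6_lt c v) _) D.sz7
  have h4 : ∀ b, (∑ v : Fin 7, D.fP (gc6 c v) fun r =>
      lf 20 (mf v r) (mk20 τ b) ^^ (xc6 c v).testBit r) ≤ 7 * (2 * D.OP) := by
    intro b
    calc _ ≤ ∑ _v : Fin 7, 2 * D.OP := Finset.sum_le_sum fun v _ => D.hP2 _ (gc6_lt c v) _
      _ = 7 * (2 * D.OP) := by rw [Finset.sum_const, Finset.card_univ, Fintype.card_fin]; rfl
  exact h1.add h3 D.hw0 (fun b => by have := hA2 b; have := h4 b; omega)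

theorem fQ_le (c : ℕ) (hc : c ∈ D.reps) (τ : ℕ) (hτ : τ < 16) (b : ℕ → Bool) :
    D.fQ c τ b ≤ 2 * D.MA + 7 * (2 * D.OP) := by
  have h1 := D.hA2 c hc τ hτ b
  have h4 : (∑ v : Fin 7, D.fP (gc6 c v) fun r =>
      lf 20 (mf v r) (mk20 τ b) ^^ (xc6 c v).testBit r) ≤ 7 * (2 * D.OP) := by
    calc _ ≤ ∑ _v : Fin 7, 2 * D.OP := Finset.sum_le_sum fun v _ => D.hP2 _ (gc6_lt c v) _
      _ = 7 * (2 * D.OP) := by rw [Finset.sum_const, Finset.card_univ, Fintype.card_fin]; rfl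
  unfold fQ
  omega

/-- The lanes of a tuple. -/
theorem mk20_gc {n : ℕ} (H : Finset (Finset (Fin n))) (s : Fin 7 → Fin n) :
    ∀ i < 20, mk20 (idx 4 fun i => gc H s (16 + i)) (gc H s) i = gc H s i := by
  intro i hi
  unfold mk20
  by_cases h : i < 16
  · rw [if_pos h]
  · rw [if_neg h, testBit_idx, decide_eq_true (by omega), Bool.true_and]
    congr 1
    omega

theorem rowA_eq {n : ℕ} (H E' : Finset (Finset (Fin n))) (s : Fin 7 → Fin n) (c : ℕ)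
    (hc : c ∈ D.reps) (hP : PsiSys.Pr H E' s) (hJ : JD H E' s = jset c) :
    S.rowA H s = D.C0 - 2 * S.Lo + 7 * D.OP -
      (D.fQ c (idx 4 fun i => gc H s (16 + i)) (gc H s) : ℤ) := by
  have hE : EvT E' s := evT_of_evenH E' hP.2.2.2.1 s hP.2.2.2.2
  have hs := hP.2.2.2.2
  unfold PsiSys.rowA
  rw [MS_vq (fun r p => S.ψ H (EvR H r) p) (fun τ r p => S.ψs H (EvR H r) τ p) s]
  have h1 := D.sA n H E' s c hc hP hJ
  have h2 : ∀ v : Fin 7, S.ψ H (EvR H (s v)) (s ∘ vq v) =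
      (D.fP (gc6 c v) (fun r => lf 20 (mf v r)
        (mk20 (idx 4 fun i => gc H s (16 + i)) (gc H s)) ^^ (xc6 c v).testBit r) : ℤ) - D.OP := by
    intro v
    have hev : EvT (EvR H (s v)) (s ∘ vq v) :=
      evT_of_evenH _ (EvR_even H (s v)) _ (hs.comp (vq_inj v))
    rw [D.sP n H (EvR H (s v)) (s ∘ vq v) (gc6 c v) (gc6_lt c v) hev
      (fun r hr => jd_evR H E' s c hJ hE hs v r hr)]
    congr 2
    apply (D.hP (gc6 c v) (gc6_lt c v)).dep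
    intro r hr
    rw [gc_evR H E' s c hJ hE hs v r hr]
    congr 1
    exact (lf_congr 20 _ _ _ (mk20_gc H s)).symm
  rw [Finset.sum_congr rfl fun v _ => h2 v, Finset.sum_sub_distrib, Finset.sum_const,
    Finset.card_univ, Fintype.card_fin]
  unfold fQ
  push_cast
  rw [nsmul_eq_mul]
  push_cast
  linarith

theorem neg_ar {A : ℕ} {f : (ℕ → Bool) → ℕ} (hA : Ar D.w 10 A f) (hf : ∀ b, f b ≤ 2 * D.OP) :
    Ar D.w 10 (Nat.sub (csG D.w (Nat.mul 2 D.OP) 10) A) fun b => 2 * D.OP - f b := by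
  have h := D.sz7
  exact (csG_ar D.hw0 (show 2 * D.OP < 2 ^ D.w by omega) 10).sub hA D.hw0 hf

theorem sum7_le (f : Fin 7 → ℕ) (M : ℕ) (h : ∀ v, f v ≤ M) : ∑ v : Fin 7, f v ≤ 7 * M := by
  calc _ ≤ ∑ _v : Fin 7, M := Finset.sum_le_sum fun v _ => h v
    _ = 7 * M := by rw [Finset.sum_const, Finset.card_univ, Fintype.card_fin]; rfl

theorem tau_lt {n : ℕ} (H : Finset (Finset (Fin n))) (s : Fin 7 → Fin n) :
    (idx 4 fun i => gc H s (16 + i)) < 16 := idx_lt 4 _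

end Tabs

end Pool.Agent.Lib.MP_afdd4d_co.K8.Jv
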