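import Pool.Agent.Lib.MP_afdd4d_co.K8.JN

/-!
# The rows of the near pairs by lanes
-/

namespace Pool.Agent.Lib.MP_afdd4d_co.K8.Jv

open Finset

/-- The same 4-graph with another representative of its coset. -/
theorem exists_rep {n : ℕ} {H E' : Finset (Finset (Fin n))} {s : Fin 7 → Fin n} {c cJ : ℕ}
    (hP : PsiSys.Pr H E' s) (hJ : JD H E' s = jset cJ) (hev : evC (c ^^^ cJ) = true) :
    ∃ E'' : Finset (Finset (Fin n)), PsiSys.Pr H E'' s ∧ JD H E'' s = jset c := by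
  obtain ⟨h4, h5, hE4, hE, hs⟩ := hP
  have hev7 : EvT E' s := evT_of_evenH E' hE s hs
  set G : Finset (Finset (Fin (6 + 1))) := ((univ : Finset (Fin (6 + 1))).powersetCard 4).filter
    fun T => (zb H s T ^^ decide (T ∈ jset c)) = true with hG
  have hGm : ∀ T : Finset (Fin (6 + 1)), T.card = 4 →
      (T ∈ G ↔ (zb H s T ^^ decide (T ∈ jset c)) = true) := by
    intro T hT
    rw [hG, Finset.mem_filter, Finset.mem_powersetCard]
    exact ⟨fun h => h.2, fun h => ⟨⟨Finset.subset_univ _, hT⟩, h⟩⟩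
  have hxor : ∀ T : Finset (Fin 7), T.card = 4 → decide (T ∈ jset (c ^^^ cJ)) =
      (decide (T ∈ jset c) ^^ decide (T ∈ jset cJ)) := by
    intro T hT
    obtain ⟨r, hr, rfl⟩ := q7_surj T hT
    have e : ∀ d : ℕ, decide (q7 r ∈ jset d) = d.testBit r := by
      intro d
      rw [Bool.eq_iff_iff, decide_eq_true_iff, q7_mem_jset d r hr]
    rw [e, e, e, Nat.testBit_xor]
  have hGe : EvenH (6 + 1) G := by
    intro U hU
    rw [even_iff_zmod, card4_filter _ U hU]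
    have h1 := evF_of_evC hev U hU
    have h2 := hev7 U hU
    unfold dl at h2
    rw [← add_zero (∑ x ∈ U, bz (decide (U.erase x ∈ G)))]
    nth_rewrite 1 [← h1]
    rw [← Finset.sum_add_distrib, ← h2]
    refine Finset.sum_congr rfl fun x hx => ?_
    have hc : (U.erase x).card = 4 := by rw [Finset.card_erase_of_mem hx, hU]
    rw [zt_eq, ← bz_xor]
    congr 1
    have h3 : decide (U.erase x ∈ G) = (zb H s (U.erase x) ^^ decide (U.erase x ∈ jset c)) := by
      rw [Bool.eq_iff_iff, decide_eq_true_iff]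
      exact hGm _ hc
    show (decide (U.erase x ∈ G) ^^ decide (U.erase x ∈ jset (c ^^^ cJ))) = _
    rw [h3, hxor _ hc, zb_jd H E' s _ hc, hJ]
    cases zb E' s (U.erase x) <;> cases decide (U.erase x ∈ jset c) <;>
      cases decide (U.erase x ∈ jset cJ) <;> rfl
  obtain ⟨E'', hE4', hE'', hEm⟩ := exists_even_ext G hGe s hs
  refine ⟨E'', ⟨h4, h5, hE4', hE'', hs⟩, ?_⟩
  ext T
  by_cases hT : T.card = 4
  · have h6 := hEm T hT
    rw [hGm T hT, zb_eq_dec] at h6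
    rw [mem_JD]
    unfold E
    by_cases a : T.image s ∈ H <;> by_cases b : T ∈ jset c <;> by_cases d : T.image s ∈ E'' <;>
      simp_all
  · constructor
    · intro h6
      exact absurd (JD_card4 H E'' _ T h6) hT
    · intro h6
      exact absurd (jset_card4 c T h6) hT

namespace Tabs

variable {S : PsiSys} (D : Tabs S)

/-- The low sixteen bits of the code of the difference. -/
def jx (c : ℕ) : ℕ := idx 16 (j0 c)

/-- The high four bits. -/
def jt (c : ℕ) : ℕ := idx 4 fun i => j0 c (16 + i)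

/-- The check of a difference, `A` are the lanes of the 4-graph alone. -/
def chk1 (A τ K cJ : ℕ) : Bool := leG D.w 16 K (Nat.add (Nat.add A
  (s7 fun v => D.vx τ v (yc6 cJ (Fin.ofNat 7 v))
    (Nat.sub (csG D.w (Nat.mul 2 D.OP) 10) (D.tP (jc6 cJ v)))))
  (xkG D.w 16 (jx cJ) 16 (D.tB (Nat.xor τ (jt cJ)))))

/-- The check of a list of differences in a coset. -/
def chkL (A τ K : ℕ) (L : List ℕ) : Bool :=
  @List.rec ℕ (fun _ => Bool) true (fun cJ _ ih =>
    @Bool.rec (fun _ => Bool) false ih (D.chk1 A τ K cJ)) L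

theorem chkL_spec {A τ K : ℕ} : ∀ {L : List ℕ}, D.chkL A τ K L = true →
    ∀ cJ ∈ L, D.chk1 A τ K cJ = true := by
  intro L
  induction L with
  | nil => intro _ cJ h; exact absurd h List.not_mem_nil
  | cons c0 L ih =>
    intro h cJ hcJ
    have e : D.chkL A τ K (c0 :: L) =
        @Bool.rec (fun _ => Bool) false (D.chkL A τ K L) (D.chk1 A τ K c0) := rfl
    rw [e] at h
    cases h1 : D.chk1 A τ K c0 with
    | false => rw [h1] at h; exact Bool.noConfusion h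
    | true =>
      rw [h1] at h
      rcases List.mem_cons.mp hcJ with h2 | h2
      · rw [h2]; exact h1
      · exact ih h cJ h2

theorem jt_xor {n : ℕ} (H E' : Finset (Finset (Fin n))) (s : Fin 7 → Fin n) (cJ : ℕ)
    (hJ : JD H E' s = jset cJ) :
    Nat.xor (idx 4 fun i => gc H s (16 + i)) (jt cJ) = idx 4 fun i => gc E' s (16 + i) := by
  apply Nat.eq_of_testBit_eq
  intro r
  have e : Nat.xor (idx 4 fun i => gc H s (16 + i)) (jt cJ) =
      (idx 4 fun i => gc H s (16 + i)) ^^^ (jt cJ) := rfl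
  rw [e, Nat.testBit_xor, jt, testBit_idx, testBit_idx, testBit_idx]
  by_cases hr : r < 4
  · rw [decide_eq_true hr, Bool.true_and, Bool.true_and, Bool.true_and,
      gc_jd H E' s cJ hJ (16 + r) (by omega)]
  · rw [decide_eq_false hr, Bool.false_and, Bool.false_and, Bool.false_and, Bool.xor_false]

theorem jt_lt (c : ℕ) : jt c < 16 := idx_lt 4 _

theorem row_near {n : ℕ} (H E' E'' : Finset (Finset (Fin n))) (s : Fin 7 → Fin n) (c cJ : ℕ)
    (hc : c ∈ D.reps) (hP : PsiSys.Pr H E' s) (hJ : JD H E' s = jset cJ)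
    (hP' : PsiSys.Pr H E'' s) (hJ' : JD H E'' s = jset c) (K : ℕ)
    (hK : K < 2 ^ (D.w - 1)) (hKe : (K : ℤ) = D.C0 - 2 * S.Lo + 14 * D.OP + D.OB)
    (hchk : ∀ τ < 16, D.chk1 (D.QA c τ) τ K cJ = true) : 0 ≤ S.row H E' s := by
  have hsz := D.hsz
  have hE : EvT E' s := evT_of_evenH E' hP.2.2.2.1 s hP.2.2.2.2
  have hs := hP.2.2.2.2
  have h0 := D.rowA_eq H E'' s c hc hP' hJ'
  have hxt := jt_xor H E' s cJ hJ
  set τ : ℕ := idx 4 fun i => gc H s (16 + i) with hτd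
  have hτ : τ < 16 := tau_lt H s
  set τ' : ℕ := idx 4 fun i => gc E' s (16 + i) with hτd'
  have hτ' : τ' < 16 := tau_lt E' s
  have h1 := D.QA_ar c hc τ hτ
  have h3 := s7_ar D.hw0 (fun v => D.vx τ v (yc6 cJ (Fin.ofNat 7 v))
      (Nat.sub (csG D.w (Nat.mul 2 D.OP) 10) (D.tP (jc6 cJ v))))
    (fun v b => 2 * D.OP - D.fP (jc6 cJ v) fun r => lf 20 (mf v r) (mk20 τ b) ^^
      (yc6 cJ v).testBit r)
    (2 * D.OP) (fun v => by
      have h := D.vx_ar hτ v (yc6 cJ v)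
        (D.neg_ar (D.hP (jc6 cJ v) (jc6_lt cJ v)) (D.hP2 _ (jc6_lt cJ v)))
      simp only [ofNat7]
      exact h) (fun v b => Nat.sub_le _ _) D.sz7
  have h2w : 2 ^ (D.w - 1) ≤ 2 ^ D.w := Nat.pow_le_pow_right (by norm_num) (by omega)
  have h4 := fun b => D.fQ_le c hc τ hτ b
  have h5 : ∀ b, (∑ v : Fin 7, (2 * D.OP - D.fP (jc6 cJ v) fun r =>
      lf 20 (mf v r) (mk20 τ b) ^^ (yc6 cJ v).testBit r)) ≤ 7 * (2 * D.OP) := fun b =>
    sum7_le _ _ fun v => Nat.sub_le _ _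
  have h6 := h1.add h3 D.hw0 (fun b => by have := h4 b; have := h5 b; omega)
  have hB := xkG_ar D.hw0 (D.hB τ' hτ') (k := jx cJ) 16 le_rfl
  have hB2 := fun b => D.hB2 τ' hτ' b
  have h7 := h6.add hB D.hw0 (fun b => by
    have := h4 b; have := h5 b; have := hB2 (fun r => b r ^^ (decide (r < 16) && (jx cJ).testBit r))
    omega)
  have hck := hchk τ hτ
  unfold chk1 at hck
  rw [hxt] at hck
  have h8 := leG_le D.hw h7 hK (fun b => by
    have := h4 b; have := h5 b; have := hB2 (fun r => b r ^^ (decide (r < 16) && (jx cJ).testBit r))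
    omega) hck (gc H s)
  have h9 : DS (m := 6) (S.ψ H E') s = ∑ v : Fin 7, ((D.fP (jc6 cJ v) (fun r =>
      lf 20 (mf v r) (mk20 τ (gc H s)) ^^ (yc6 cJ v).testBit r) : ℤ) - D.OP) := by
    rw [DS_vq (S.ψ H E') (fun τ p => S.ψs H E' τ p) s]
    refine Finset.sum_congr rfl fun v _ => ?_
    rw [D.sP n H E' (s ∘ vq v) (jc6 cJ v) (jc6_lt cJ v) (evT_comp E' s _ (vq_inj v) hE)
      (fun r hr => jd_view H E' s cJ hJ v r hr)]
    congr 2
    apply (D.hP (jc6 cJ v) (jc6_lt cJ v)).dep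
    intro r hr
    rw [gc_view H E' s cJ hJ hE v r hr]
    congr 1
    exact (lf_congr 20 _ _ _ (mk20_gc H s)).symm
  have h10 : D.fB τ' (fun r => gc H s r ^^ (decide (r < 16) && (jx cJ).testBit r)) =
      D.fB τ' (gc E' s) := by
    apply (D.hB τ' hτ').dep
    intro r hr
    rw [gc_jd H E' s cJ hJ r (by omega), jx, testBit_idx, decide_eq_true hr, Bool.true_and,
      Bool.true_and]
  have h11 := D.sB n E' s hE
  rw [h10] at h8
  have h12 : (∑ v : Fin 7, ((2 * D.OP - D.fP (jc6 cJ v) fun r =>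
      lf 20 (mf v r) (mk20 τ (gc H s)) ^^ (yc6 cJ v).testBit r : ℕ) : ℤ)) =
      ∑ v : Fin 7, (2 * (D.OP : ℤ) - (D.fP (jc6 cJ v) fun r =>
      lf 20 (mf v r) (mk20 τ (gc H s)) ^^ (yc6 cJ v).testBit r : ℕ)) := by
    refine Finset.sum_congr rfl fun v _ => ?_
    rw [Nat.cast_sub (D.hP2 _ (jc6_lt cJ v) _)]
    push_cast
    ring
  have h13 : ((D.fQ c τ (gc H s) : ℕ) : ℤ) + (∑ v : Fin 7, ((2 * D.OP -
      D.fP (jc6 cJ v) fun r => lf 20 (mf v r) (mk20 τ (gc H s)) ^^ (yc6 cJ v).testBit r : ℕ) : ℤ)) +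
      (D.fB τ' (gc E' s) : ℕ) ≤ K := by
    exact_mod_cast h8
  rw [h12, Finset.sum_sub_distrib, Finset.sum_const, Finset.card_univ, Fintype.card_fin,
    nsmul_eq_mul] at h13
  unfold PsiSys.row
  rw [h0, h9, h11, Finset.sum_sub_distrib, Finset.sum_const, Finset.card_univ, Fintype.card_fin,
    nsmul_eq_mul]
  push_cast at h13 ⊢
  linarith

/-- The rows of a list of differences in one coset. -/
theorem rowJ_of_chkL (c K : ℕ) (hc : c ∈ D.reps) (L : List ℕ)
    (hK : K < 2 ^ (D.w - 1)) (hKe : (K : ℤ) = D.C0 - 2 * S.Lo + 14 * D.OP + D.OB)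
    (hev : ∀ cJ ∈ L, evC (c ^^^ cJ) = true)
    (hchk : ∀ τ < 16, D.chkL (D.QA c τ) τ K L = true) : ∀ cJ ∈ L, S.RowJ (jset cJ) := by
  intro cJ hcJ n H E' s hP hJ
  obtain ⟨E'', hP', hJ'⟩ := exists_rep hP hJ (hev cJ hcJ)
  exact D.row_near H E' E'' s c cJ hc hP hJ hP' hJ' K hK hKe
    fun τ hτ => D.chkL_spec (hchk τ hτ) cJ hcJ

end Tabs

end Pool.Agent.Lib.MP_afdd4d_co.K8.Jv
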