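import Pool.Agent.Lib.MP_afdd4d_co.K8.GSkel

/-!
# Pairs of a 4-graph and the even 4-graph of a root

Every root `r` of a 4-graph `H` without `K_5` gives the even 4-graph `EvR H r`, the coboundary of the
link of `r`.  Local inequalities about all pairs of a 4-graph without `K_5` and an even 4-graph on
seven vertices, which contain a function of pairs on six vertices once with the roots inside and
once with the root outside of the seven vertices, give an upper bound for the size of `H`.
-/

namespace Pool.Agent.Lib.MP_afdd4d_co.K8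

open Finset

/-! ### The even 4-graph of a root -/

section evr
variable {n : ℕ}

/-- The coboundary of the link of `r`. -/
def EvR (H : Finset (Finset (Fin n))) (r : Fin n) : Finset (Finset (Fin n)) :=
  flpE ∅ fun T => decide (r ∉ T ∧ insert r T ∈ H)

theorem EvR_card (H : Finset (Finset (Fin n))) (r : Fin n) : ∀ e ∈ EvR H r, e.card = 4 :=
  flpE_card _ _

theorem EvR_even (H : Finset (Finset (Fin n))) (r : Fin n) : EvenH n (EvR H r) := by
  refine evenH_flpE ∅ ?_ _
  intro S _
  simp

end evr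

/-! ### Sums over injective tuples of functions of one vertex and of the others -/

section ins
variable {V : Type*} [Fintype V] [DecidableEq V]

omit [Fintype V] in
theorem injective_insertNth {m : ℕ} (z : Fin (m + 1)) (r : V) (p : Fin m → V) :
    Function.Injective (z.insertNth (α := fun _ => V) r p) ↔
      Function.Injective p ∧ r ∉ univ.image p := by
  constructor
  · intro h
    refine ⟨?_, ?_⟩
    · intro a b hab
      have h2 : z.insertNth (α := fun _ => V) r p (z.succAbove a) =
          z.insertNth (α := fun _ => V) r p (z.succAbove b) := by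
        rw [Fin.insertNth_apply_succAbove, Fin.insertNth_apply_succAbove]
        exact hab
      exact Fin.succAbove_right_injective (h h2)
    · intro hr
      obtain ⟨a, _, ha⟩ := Finset.mem_image.mp hr
      have h2 : z.insertNth (α := fun _ => V) r p (z.succAbove a) =
          z.insertNth (α := fun _ => V) r p z := by
        rw [Fin.insertNth_apply_succAbove, Fin.insertNth_apply_same]
        exact ha
      exact Fin.succAbove_ne z a (h h2)
  · rintro ⟨h1, h2⟩ a b
    refine Fin.succAboveCases z ?_ (fun i => ?_) a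
    · refine Fin.succAboveCases z ?_ (fun j => ?_) b
      · intro _; rfl
      · intro h
        rw [Fin.insertNth_apply_succAbove, Fin.insertNth_apply_same] at h
        exact absurd (Finset.mem_image.mpr ⟨j, Finset.mem_univ _, h.symm⟩) h2
    · refine Fin.succAboveCases z ?_ (fun j => ?_) b
      · intro h
        rw [Fin.insertNth_apply_succAbove, Fin.insertNth_apply_same] at h
        exact absurd (Finset.mem_image.mpr ⟨i, Finset.mem_univ _, h⟩) h2
      · intro h
        rw [Fin.insertNth_apply_succAbove, Fin.insertNth_apply_succAbove] at h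
        rw [h1 h]

/-- A sum over the injective tuples as a double sum. -/
theorem sum_inj_ins {m : ℕ} (z : Fin (m + 1)) (F : V → (Fin m → V) → ℝ) :
    ∑ t ∈ inj V (m + 1), F (t z) (t ∘ z.succAbove) =
      ∑ p ∈ inj V m, ∑ r ∈ (univ.image p)ᶜ, F r p := by
  rw [inj, Finset.sum_filter, ← (Fin.insertNthEquiv (fun _ => V) z).sum_comp,
    Fintype.sum_prod_type, Finset.sum_comm, inj, Finset.sum_filter]
  refine Finset.sum_congr rfl fun p _ => ?_
  by_cases hp : Function.Injective p
  · rw [if_pos hp, ← Finset.sum_filter_add_sum_filter_not univ (fun r => r ∈ (univ.image p)ᶜ)]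
    have e1 : (univ : Finset V).filter (fun r => r ∈ (univ.image p)ᶜ) = (univ.image p)ᶜ := by
      ext r
      simp
    have e2 : ∑ r ∈ (univ : Finset V).filter (fun r => ¬ r ∈ (univ.image p)ᶜ),
        (if Function.Injective ((Fin.insertNthEquiv (fun _ => V) z) (r, p)) then
          F ((Fin.insertNthEquiv (fun _ => V) z) (r, p) z)
            ((Fin.insertNthEquiv (fun _ => V) z) (r, p) ∘ z.succAbove) else 0) = 0 := by
      refine Finset.sum_eq_zero fun r hr => ?_
      rw [Finset.mem_filter, Finset.mem_compl, not_not] at hr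
      rw [if_neg]
      intro h
      exact ((injective_insertNth z r p).mp h).2 hr.2
    rw [e2, add_zero, e1]
    refine Finset.sum_congr rfl fun r hr => ?_
    rw [Finset.mem_compl] at hr
    have h : Function.Injective ((Fin.insertNthEquiv (fun _ => V) z) (r, p)) :=
      (injective_insertNth z r p).mpr ⟨hp, hr⟩
    rw [if_pos h]
    have e3 : (Fin.insertNthEquiv (fun _ => V) z) (r, p) z = r :=
      Fin.insertNth_apply_same (α := fun _ => V) z r p
    have e4 : (Fin.insertNthEquiv (fun _ => V) z) (r, p) ∘ z.succAbove = p := by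
      funext i
      exact Fin.insertNth_apply_succAbove (α := fun _ => V) z r p i
    rw [e3, e4]
  · rw [if_neg hp]
    refine Finset.sum_eq_zero fun r _ => ?_
    rw [if_neg]
    intro h
    exact hp ((injective_insertNth z r p).mp h).1

theorem card_compl_image {m : ℕ} (p : Fin m → V) (hp : Function.Injective p) :
    (((univ.image p)ᶜ.card : ℕ) : ℝ) = (Fintype.card V : ℝ) - m := by
  have h := Finset.card_compl_add_card (univ.image p)
  rw [Finset.card_image_of_injective _ hp, Finset.card_univ, Fintype.card_fin] at h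
  rw [← h]
  push_cast
  ring

theorem pow7_le (N : ℕ) : (N : ℝ) ^ 7 ≤ (N : ℝ) ^ (4 + 4) - (N.descFactorial (4 + 4) : ℝ) := by
  have h : N ^ 7 + N.descFactorial 8 ≤ N ^ 8 := by
    rcases Nat.lt_or_ge N 8 with h8 | h8
    · rw [Nat.descFactorial_of_lt h8, add_zero]
      rcases Nat.eq_zero_or_pos N with h0 | h0
      · subst h0; norm_num
      · exact Nat.pow_le_pow_right h0 (by norm_num)
    · have h1 : N.descFactorial 8 = (N - 7) * N.descFactorial 7 := Nat.descFactorial_succ _ _
      have h2 := Nat.descFactorial_le_pow N 7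
      have h3 : (N - 7) * N.descFactorial 7 ≤ (N - 7) * N ^ 7 := Nat.mul_le_mul_left _ h2
      have h4 : N ^ 7 + (N - 7) * N ^ 7 ≤ N ^ 8 := by
        have h5 : N ^ 7 + (N - 7) * N ^ 7 = (1 + (N - 7)) * N ^ 7 := by ring
        have h6 : N ^ 8 = N * N ^ 7 := by ring
        rw [h5, h6]
        exact Nat.mul_le_mul_right _ (by omega)
      omega
  have h2 : ((N ^ 7 + N.descFactorial 8 : ℕ) : ℝ) ≤ ((N ^ 8 : ℕ) : ℝ) := by exact_mod_cast h
  rw [Nat.cast_add, Nat.cast_pow, Nat.cast_pow] at h2
  have e : (4 + 4 : ℕ) = 8 := rfl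
  rw [e]
  linarith

/-- A function of a root and of seven other vertices whose sums over the sub-tuples of the
eight-tuples are almost nonnegative for every root has an almost nonnegative total sum. -/
theorem WR_ge (W : V → (Fin 7 → V) → ℝ) (CW C6 : ℝ) (hCW : ∀ r p, |W r p| ≤ CW) (hC6 : 0 ≤ C6)
    (h : ∀ r, -(C6 * ((Fintype.card V : ℝ) ^ (4 + 4) -
        ((Fintype.card V).descFactorial (4 + 4) : ℝ))) ≤
          ∑ t ∈ inj V (7 + 1), DS (m := 7) (W r) t) :
    -((2 * C6 + 112 * CW) * ((Fintype.card V : ℝ) ^ (4 + 4) -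
        ((Fintype.card V).descFactorial (4 + 4) : ℝ))) ≤
      ∑ t ∈ inj V (4 + 4), ∑ z : Fin (7 + 1), W ((t : Fin (7 + 1) → V) z)
        ((t : Fin (7 + 1) → V) ∘ z.succAbove) := by
  set N : ℕ := Fintype.card V with hN
  set D : ℝ := (N : ℝ) ^ (4 + 4) - (N.descFactorial (4 + 4) : ℝ) with hD
  have hD7 : (N : ℝ) ^ 7 ≤ D := pow7_le N
  have hD0 : 0 ≤ D := le_trans (by positivity) hD7
  rcases isEmpty_or_nonempty V with hV | hV
  · have hN0 : N = 0 := by rw [hN]; exact Fintype.card_eq_zero
    have hD' : D = 0 := by rw [hD, hN0]; norm_num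
    rw [hD', mul_zero, neg_zero]
    refine le_of_eq ?_
    symm
    refine Finset.sum_eq_zero fun t _ => ?_
    exact (hV.false (t 0)).elim
  obtain ⟨v0⟩ := hV
  have hCW0 : 0 ≤ CW := le_trans (abs_nonneg _) (hCW v0 fun _ => v0)
  have hcard7 : ((inj V 7).card : ℝ) ≤ (N : ℝ) ^ 7 := by
    rw [card_inj]
    exact_mod_cast Nat.descFactorial_le_pow _ _
  rcases Nat.lt_or_ge N 14 with hsm | hbig
  · -- few vertices
    have h1 : ∀ t ∈ inj V (4 + 4), -(8 * CW) ≤ ∑ z : Fin (7 + 1), W ((t : Fin (7 + 1) → V) z)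
        ((t : Fin (7 + 1) → V) ∘ z.succAbove) := by
      intro t _
      calc -(8 * CW) = ∑ _z : Fin (7 + 1), -CW := by
            rw [Finset.sum_const, Finset.card_univ, Fintype.card_fin, nsmul_eq_mul]
            norm_num
        _ ≤ _ := Finset.sum_le_sum fun z _ => (abs_le.mp (hCW _ _)).1
    have h2 := Finset.sum_le_sum h1
    rw [Finset.sum_const, nsmul_eq_mul] at h2
    have h3 : ((inj V (4 + 4)).card : ℝ) ≤ (N : ℝ) ^ 8 := by
      rw [card_inj]
      exact_mod_cast Nat.descFactorial_le_pow _ _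
    have h4 : (N : ℝ) ^ 8 ≤ 14 * (N : ℝ) ^ 7 := by
      have h5 : (N : ℝ) ≤ 14 := by exact_mod_cast hsm.le
      have h6 : (N : ℝ) ^ 8 = (N : ℝ) * (N : ℝ) ^ 7 := by ring
      rw [h6]
      exact mul_le_mul_of_nonneg_right h5 (by positivity)
    have h7 : ((inj V (4 + 4)).card : ℝ) ≤ 14 * D := by linarith
    have h8 : ((inj V (4 + 4)).card : ℝ) * (8 * CW) ≤ 14 * D * (8 * CW) :=
      mul_le_mul_of_nonneg_right h7 (by positivity)
    have h9 : 0 ≤ C6 * D := mul_nonneg hC6 hD0
    calc -((2 * C6 + 112 * CW) * D) ≤ -(14 * D * (8 * CW)) := by nlinarith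
      _ ≤ ((inj V (4 + 4)).card : ℝ) * -(8 * CW) := by linarith
      _ ≤ _ := h2
  · -- many vertices
    have hN14 : (14 : ℝ) ≤ N := by exact_mod_cast hbig
    set A : V → ℝ := fun r => ∑ p ∈ inj V 7, W r p with hA
    have hDS : ∀ r, ∑ t ∈ inj V (7 + 1), DS (m := 7) (W r) t = 8 * (((N : ℝ) - 7) * A r) := by
      intro r
      unfold DS
      rw [Finset.sum_comm]
      have h1 : ∀ z : Fin (7 + 1), ∑ t ∈ inj V (7 + 1), W r (t ∘ z.succAbove) =
          ((N : ℝ) - 7) * A r := by
        intro z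
        rw [sum_inj_ins z fun _ p => W r p, hA, Finset.mul_sum]
        refine Finset.sum_congr rfl fun p hp => ?_
        rw [Finset.sum_const, nsmul_eq_mul, card_compl_image p (mem_inj.mp hp), ← hN]
        norm_num
      rw [Finset.sum_congr rfl fun z _ => h1 z, Finset.sum_const, Finset.card_univ,
        Fintype.card_fin, nsmul_eq_mul]
      norm_num
    have hAr : ∀ r, -(2 * C6 * D) ≤ 8 * ((N : ℝ) * A r) := by
      intro r
      have h1 := h r
      rw [hDS r] at h1
      have h2 : 0 ≤ C6 * D := mul_nonneg hC6 hD0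
      rcases le_or_gt 0 (A r) with h3 | h3
      · have : 0 ≤ 8 * ((N : ℝ) * A r) := by positivity
        linarith
      · nlinarith
    have hz : ∀ z : Fin (7 + 1), ∑ t ∈ inj V (4 + 4), W ((t : Fin (7 + 1) → V) z)
        ((t : Fin (7 + 1) → V) ∘ z.succAbove) ≥ ∑ r, A r - 7 * CW * D := by
      intro z
      have h1 : ∑ t ∈ inj V (7 + 1), W (t z) (t ∘ z.succAbove) =
          ∑ p ∈ inj V 7, ∑ r ∈ (univ.image p)ᶜ, W r p := sum_inj_ins z W
      have h2 : ∑ t ∈ inj V (4 + 4), W ((t : Fin (7 + 1) → V) z)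
          ((t : Fin (7 + 1) → V) ∘ z.succAbove) =
            ∑ p ∈ inj V 7, ∑ r ∈ (univ.image p)ᶜ, W r p := h1
      rw [h2]
      have h3 : ∑ r, A r = ∑ p ∈ inj V 7, ∑ r, W r p := by
        rw [hA, Finset.sum_comm]
      have h4 : ∀ p ∈ inj V 7, ∑ r, W r p ≤ ∑ r ∈ (univ.image p)ᶜ, W r p + 7 * CW := by
        intro p hp
        rw [← Finset.sum_add_sum_compl (univ.image p)]
        have h5 : ∑ r ∈ univ.image p, W r p ≤ 7 * CW := by
          calc ∑ r ∈ univ.image p, W r p ≤ ∑ r ∈ univ.image p, CW :=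
                Finset.sum_le_sum fun r _ => (abs_le.mp (hCW _ _)).2
            _ = 7 * CW := by
                rw [Finset.sum_const, Finset.card_image_of_injective _ (mem_inj.mp hp),
                  Finset.card_univ, Fintype.card_fin, nsmul_eq_mul]
                norm_num
        linarith
      have h6 := Finset.sum_le_sum h4
      rw [Finset.sum_add_distrib, Finset.sum_const, nsmul_eq_mul, ← h3] at h6
      have h7 : ((inj V 7).card : ℝ) * (7 * CW) ≤ D * (7 * CW) :=
        mul_le_mul_of_nonneg_right (le_trans hcard7 hD7) (by positivity)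
      linarith
    rw [Finset.sum_comm]
    have h10 : ∑ _z : Fin (7 + 1), (∑ r, A r - 7 * CW * D) ≤ ∑ z : Fin (7 + 1),
        ∑ t ∈ inj V (4 + 4), W ((t : Fin (7 + 1) → V) z)
          ((t : Fin (7 + 1) → V) ∘ z.succAbove) := Finset.sum_le_sum fun z _ => hz z
    rw [Finset.sum_const, Finset.card_univ, Fintype.card_fin, nsmul_eq_mul] at h10
    have h11 : -(2 * C6 * D) ≤ 8 * ∑ r, A r := by
      have h12 : ∑ _r : V, -(2 * C6 * D) ≤ ∑ r, 8 * ((N : ℝ) * A r) :=
        Finset.sum_le_sum fun r _ => hAr r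
      rw [Finset.sum_const, Finset.card_univ, nsmul_eq_mul, ← Finset.mul_sum, ← Finset.mul_sum,
        ← hN] at h12
      have hNpos : (0 : ℝ) < N := by linarith
      have h13 : (N : ℝ) * -(2 * C6 * D) ≤ (N : ℝ) * (8 * ∑ r, A r) := by linarith
      exact le_of_mul_le_mul_left h13 hNpos
    have h14 : 0 ≤ CW * D := mul_nonneg hCW0 hD0
    push_cast at h10
    nlinarith

end ins

/-! ### The upper bound -/

/-- The kernel of a root given by a kernel of pairs. -/
def PKern.root (κ : PKern 5) : RKern where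
  f := fun H r s u w => κ.f H (EvR H r) s u w
  C := κ.C
  psd := fun H r s => κ.psd H (EvR H r) s
  bd := fun H r s u w => κ.bd H (EvR H r) s u w

/-- The upper bound from local inequalities about all pairs on seven vertices. -/
theorem boundPsi (κ5 : PKern 5) (κ6 : Kern 6) (κr : RKern)
    (μ : ∀ {n : ℕ}, Finset (Finset (Fin n)) → Fin n → (Fin 6 → Fin n) → ℤ)
    (ψ : ∀ {n : ℕ}, Finset (Finset (Fin n)) → Finset (Finset (Fin n)) → (Fin 6 → Fin n) → ℤ)
    (W W' : ∀ {n : ℕ}, Finset (Finset (Fin n)) → (Fin 7 → Fin n) → ℤ) (CW : ℝ)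
    (hCW : ∀ {n : ℕ} (E : Finset (Finset (Fin n))) (p : Fin 7 → Fin n),
      |((W E p + W' E p : ℤ) : ℝ)| ≤ CW)
    (a Lo : ℤ) (ha : 0 < a) (lam : ℝ) (hlam : lam * (35 * a) ≤ Lo)
    (hK : ∀ (n : ℕ) (H E : Finset (Finset (Fin n))), (∀ e ∈ H, e.card = 4) →
      (∀ S : Finset (Fin n), S.card = 5 → ∃ e ∈ S.powersetCard 4, e ∉ H) →
      (∀ e ∈ E, e.card = 4) → EvenH n E →
      ∀ s : Fin 7 → Fin n, Function.Injective s →
        2 * Lo + PS (κ5.f H E) s + MS (μ H) s + MS (fun r p => ψ H (EvR H r) p) s + W E s ≤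
          2 * a * (N8 H s : ℤ) + DS (m := 6) (ψ H E) s)
    (hB : ∀ (n : ℕ) (E : Finset (Finset (Fin n))), (∀ e ∈ E, e.card = 4) → EvenH n E →
      ∀ t : Fin (7 + 1) → Fin n, Function.Injective t →
        PS (κ6.f E) t ≤ DS (m := 7) (fun p => W E p + W' E p) t)
    (hL : ∀ (n : ℕ) (H : Finset (Finset (Fin n))) (r : Fin n) (p : Fin 7 → Fin n),
      (∀ e ∈ H, e.card = 4) → Function.Injective p → (∀ i, p i ≠ r) →
        PS (κr.f H r) p + W' (EvR H r) p ≤ DS (m := 6) (μ H r) p) :
    ∀ ε : ℝ, 0 < ε → ∃ N : ℕ, ∀ n : ℕ, N ≤ n → ∀ H : Finset (Finset (Fin n)),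
      (∀ e ∈ H, e.card = 4) →
      (∀ S : Finset (Fin n), S.card = 5 → ∃ e ∈ S.powersetCard 4, e ∉ H) →
      (H.card : ℝ) ≤ (1 - lam + ε) * ((n.choose 4 : ℕ) : ℝ) := by
  have haR : (0 : ℝ) < a := by exact_mod_cast ha
  refine skel8 (16 * Lo) (8 * a)
    (336 * κ5.C + 336 * κr.C + (2 * |56 * κ6.C| + 112 * CW)) lam
    (by positivity) ?_ ?_
  · have : lam * (8 * (a : ℝ) * 70) = 16 * (lam * (35 * a)) := by ring
    rw [this]
    linarith
  · intro n H h4 h5
    set V : (Fin (7 + 1) → Fin n) → ℤ := fun t => ∑ z : Fin (7 + 1),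
      (W (EvR H (t z)) (t ∘ z.succAbove) + W' (EvR H (t z)) (t ∘ z.succAbove)) with hV
    refine ⟨fun t => ((RS (κ5.root.f H) t : ℤ) : ℝ) + ((RS (κr.f H) t : ℤ) : ℝ) +
      ((V t : ℤ) : ℝ), ?_, ?_⟩
    · rw [Finset.sum_add_distrib, Finset.sum_add_distrib]
      have h1 := RS_ge (V := Fin n) (fun r s u w => ((κ5.root.f H r s u w : ℤ) : ℝ)) κ5.root.C
        (κ5.root.psd H) (κ5.root.bd H)
      have h2 := RS_ge (V := Fin n) (fun r s u w => ((κr.f H r s u w : ℤ) : ℝ)) κr.C (κr.psd H)
        (κr.bd H)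
      have h3 : ∀ r : Fin n, -(|56 * κ6.C| * ((Fintype.card (Fin n) : ℝ) ^ (4 + 4) -
          ((Fintype.card (Fin n)).descFactorial (4 + 4) : ℝ))) ≤
            ∑ t ∈ inj (Fin n) (7 + 1), DS (m := 7)
              (fun p => ((W (EvR H r) p + W' (EvR H r) p : ℤ) : ℝ)) t := by
        intro r
        have hb := PS_inj_ge (V := Fin n) (k := 6) 0
          (fun s u w => ((κ6.f (EvR H r) s u w : ℤ) : ℝ)) κ6.C
          (κ6.psd (EvR H r)) (κ6.bd (EvR H r)) id Function.injective_id
        have hb1 : -(56 * κ6.C * ((Fintype.card (Fin n) : ℝ) ^ (4 + 4) -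
            ((Fintype.card (Fin n)).descFactorial (4 + 4) : ℝ))) ≤
              ∑ t ∈ inj (Fin n) (4 + 4), PS (k := 6)
                (fun s u w => ((κ6.f (EvR H r) s u w : ℤ) : ℝ)) t := by
          refine le_trans (le_of_eq ?_) hb
          norm_num
        have hD0 : 0 ≤ (Fintype.card (Fin n) : ℝ) ^ (4 + 4) -
            ((Fintype.card (Fin n)).descFactorial (4 + 4) : ℝ) :=
          le_trans (by positivity) (pow7_le (Fintype.card (Fin n)))
        have hb2 : 56 * κ6.C * ((Fintype.card (Fin n) : ℝ) ^ (4 + 4) -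
            ((Fintype.card (Fin n)).descFactorial (4 + 4) : ℝ)) ≤
              |56 * κ6.C| * ((Fintype.card (Fin n) : ℝ) ^ (4 + 4) -
                ((Fintype.card (Fin n)).descFactorial (4 + 4) : ℝ)) :=
          mul_le_mul_of_nonneg_right (le_abs_self _) hD0
        have hb3 : ∑ t ∈ inj (Fin n) (4 + 4), PS (k := 6)
            (fun s u w => ((κ6.f (EvR H r) s u w : ℤ) : ℝ)) t ≤
              ∑ t ∈ inj (Fin n) (7 + 1), DS (m := 7)
                (fun p => ((W (EvR H r) p + W' (EvR H r) p : ℤ) : ℝ)) t := by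
          refine Finset.sum_le_sum fun t ht => ?_
          have hb4 := hB n (EvR H r) (EvR_card H r) (EvR_even H r) t (mem_inj.mp ht)
          have hb5 : ((PS (κ6.f (EvR H r)) t : ℤ) : ℝ) ≤
              ((DS (m := 7) (fun p => W (EvR H r) p + W' (EvR H r) p) t : ℤ) : ℝ) := by
            exact_mod_cast hb4
          rw [cast_DS] at hb5
          have e3 : ((PS (k := 6) (κ6.f (EvR H r)) t : ℤ) : ℝ) =
              PS (k := 6) (fun s u w => ((κ6.f (EvR H r) s u w : ℤ) : ℝ)) t := cast_PS _ t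
          rw [e3] at hb5
          exact hb5
        linarith
      have h6 := WR_ge (V := Fin n)
        (fun r p => ((W (EvR H r) p + W' (EvR H r) p : ℤ) : ℝ)) CW |56 * κ6.C|
        (fun r p => hCW (EvR H r) p) (abs_nonneg _) h3
      rw [Fintype.card_fin] at h1 h2 h6
      have e2 : ∀ (κ : RKern) (t : Fin (4 + 4) → Fin n), ((RS (κ.f H) t : ℤ) : ℝ) =
          RS (fun r s u w => ((κ.f H r s u w : ℤ) : ℝ)) t := by
        intro κ t
        unfold RS
        rw [Int.cast_sum]
        exact Finset.sum_congr rfl fun z _ => cast_PS _ _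
      have e4 : ∀ t : Fin (4 + 4) → Fin n, ((V t : ℤ) : ℝ) =
          ∑ z : Fin (7 + 1), ((W (EvR H ((t : Fin (7 + 1) → Fin n) z))
              ((t : Fin (7 + 1) → Fin n) ∘ z.succAbove) +
            W' (EvR H ((t : Fin (7 + 1) → Fin n) z))
              ((t : Fin (7 + 1) → Fin n) ∘ z.succAbove) : ℤ) : ℝ) := by
        intro t
        rw [hV]
        exact Int.cast_sum _ _
      rw [Finset.sum_congr rfl fun t _ => e2 κ5.root t, Finset.sum_congr rfl fun t _ => e2 κr t,
        Finset.sum_congr rfl fun t _ => e4 t]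
      have e5 : κ5.root.C = κ5.C := rfl
      rw [e5] at h1
      linarith
    · intro t ht
      have hx : ∀ x : Fin (7 + 1), 2 * Lo + PS (κ5.root.f H (t x)) (t ∘ x.succAbove) +
          MS (μ H) (t ∘ x.succAbove) +
          MS (fun r p => ψ H (EvR H r) p) (t ∘ x.succAbove) +
          W (EvR H (t x)) (t ∘ x.succAbove) ≤
            2 * a * (N8 H (t ∘ x.succAbove) : ℤ) +
              DS (m := 6) (ψ H (EvR H (t x))) (t ∘ x.succAbove) := fun x =>
        hK n H (EvR H (t x)) h4 h5 (EvR_card _ _) (EvR_even _ _) (t ∘ x.succAbove)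
          (ht.comp Fin.succAbove_right_injective)
      have hz : ∀ z : Fin (7 + 1), PS (κr.f H (t z)) (t ∘ z.succAbove) +
          W' (EvR H (t z)) (t ∘ z.succAbove) ≤
          DS (m := 6) (μ H (t z)) (t ∘ z.succAbove) := fun z =>
        hL n H (t z) (t ∘ z.succAbove) h4 (ht.comp Fin.succAbove_right_injective) fun i h =>
          Fin.succAbove_ne z i (ht h)
      have s1 := Finset.sum_le_sum fun x (_ : x ∈ (univ : Finset (Fin (7 + 1)))) => hx x
      have s2 := Finset.sum_le_sum fun z (_ : z ∈ (univ : Finset (Fin (7 + 1)))) => hz z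
      rw [Finset.sum_add_distrib, Finset.sum_add_distrib, Finset.sum_add_distrib,
        Finset.sum_add_distrib, Finset.sum_add_distrib, Finset.sum_const, Finset.card_univ,
        Fintype.card_fin, ← Finset.mul_sum, DS_MS, DS_MS] at s1
      rw [Finset.sum_add_distrib] at s2
      have e3 : ∑ x : Fin (7 + 1), (N8 H (t ∘ x.succAbove) : ℤ) = 4 * (N8 H t : ℤ) := by
        have e4 : ((∑ x : Fin (7 + 1), N8 H (t ∘ x.succAbove) : ℕ) : ℤ) =
            (((7 - 3) * N8 H t : ℕ) : ℤ) := congrArg Nat.cast (DS_N8 (m := 7) (by norm_num) H t)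
        rw [Nat.cast_sum, Nat.cast_mul] at e4
        exact e4
      rw [e3] at s1
      have h1 : 16 * Lo + RS (κ5.root.f H) t + RS (κr.f H) t + V t ≤ 8 * a * (N8 H t : ℤ) := by
        have e5 : RS (κ5.root.f H) t =
          ∑ x : Fin (7 + 1), PS (κ5.root.f H (t x)) (t ∘ x.succAbove) := rfl
        have e6 : RS (κr.f H) t = ∑ z : Fin (7 + 1), PS (κr.f H (t z)) (t ∘ z.succAbove) := rfl
        have e8 : V t = ∑ z : Fin (7 + 1), W (EvR H (t z)) (t ∘ z.succAbove) +
            ∑ z : Fin (7 + 1), W' (EvR H (t z)) (t ∘ z.succAbove) := by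
          rw [hV]
          exact Finset.sum_add_distrib
        rw [e5, e6, e8]
        have e7 : ((7 + 1 : ℕ) : ℤ) = 8 := by norm_num
        rw [nsmul_eq_mul, e7] at s1
        linarith
      have h2 : (((16 * Lo + RS (κ5.root.f H) t + RS (κr.f H) t + V t : ℤ)) : ℝ) ≤
          ((8 * a * (N8 H t : ℤ) : ℤ) : ℝ) := by exact_mod_cast h1
      push_cast at h2
      linarith

end Pool.Agent.Lib.MP_afdd4d_co.K8
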