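import Pool.Agent.Lib.MP_afdd4d_co.K8.F6All
import Pool.Agent.Lib.MP_afdd4d_co.K8.F5Code
import Pool.Agent.Lib.MP_afdd4d_co.K8.PsiSkel

/-!
# Kernels of the five-vertex types of arbitrary 4-graphs

The pattern of a five-tuple `s` consists of the five bits of the quadruples of `s`, the link of a
further vertex `u` consists of the ten bits of the quadruples of `s` and `u` that contain `u`.  The
code is `p + 1024 x`.  The kernel is given by the same kind of data as the kernels of the six-vertex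
types, with patterns below 32.
-/

namespace Pool.Agent.Lib.MP_afdd4d_co.K8

open Finset

/-- The quadruples of six points in colex order. -/
def Q6 : List (List ℕ) := [[0, 1, 2, 3], [0, 1, 2, 4], [0, 1, 3, 4], [0, 2, 3, 4], [1, 2, 3, 4],
  [0, 1, 2, 5], [0, 1, 3, 5], [0, 2, 3, 5], [1, 2, 3, 5], [0, 1, 4, 5], [0, 2, 4, 5], [1, 2, 4, 5],
  [0, 3, 4, 5], [1, 3, 4, 5], [2, 3, 4, 5]]

/-- The quadruple `r` of a set of `m` points. -/
def q6 (m r : ℕ) : Finset (Fin m) := univ.filter fun z => (z : ℕ) ∈ Q6.getD r []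

theorem q6_card : ∀ r < 15, (q6 6 r).card = 4 := by decide +kernel

theorem q6_low : ∀ r < 5, q6 6 r = (q6 5 r).image Fin.castSucc := by decide +kernel

/-- The action of the exchanges of neighbouring roots on the quadruples. -/
def peL : List (List ℕ) := [
  [0, 1, 2, 4, 3, 5, 6, 8, 7, 9, 11, 10, 13, 12, 14],
  [0, 1, 3, 2, 4, 5, 7, 6, 8, 10, 9, 11, 12, 14, 13],
  [0, 2, 1, 3, 4, 6, 5, 7, 8, 9, 12, 13, 10, 11, 14],
  [1, 0, 2, 3, 4, 5, 9, 10, 11, 6, 7, 8, 12, 13, 14]]

/-- The image of the quadruple `r` under the exchange `i`. -/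
def pe (i r : ℕ) : ℕ := (peL.getD i []).getD r 0

theorem pe_geo : ∀ i : Fin 4, ∀ r < 15, (q6 6 r).image (Og.ex6 i) = q6 6 (pe i r) := by decide +kernel

theorem pe_low : ∀ i < 4, ∀ r < 5, pe i r < 5 := by decide +kernel

theorem pe_high : ∀ i < 4, ∀ r < 10, 5 ≤ pe i (5 + r) ∧ pe i (5 + r) < 15 := by decide +kernel

/-- The action on the ten quadruples with the last vertex. -/
def px (i r : ℕ) : ℕ := pe i (5 + r) - 5

theorem px_lt : ∀ i < 4, ∀ r < 10, px i r < 10 ∧ 5 + px i r = pe i (5 + r) ∧ px i (px i r) = r := by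
  decide +kernel

/-! ### Sums over permuted bits -/

theorem bz_xo (n : ℕ) (f : ℕ → Bool) : bz (xo n f) = ∑ k ∈ range n, bz (f k) := by
  induction n with
  | zero => rfl
  | succ n ih => rw [xo, bz_xor, ih, Finset.sum_range_succ]

theorem xo_invol (n : ℕ) (f : ℕ → Bool) (π : ℕ → ℕ) (h1 : ∀ k < n, π k < n)
    (h2 : ∀ k < n, π (π k) = k) : xo n (fun k => f (π k)) = xo n f := by
  apply bz_inj
  rw [bz_xo, bz_xo]
  refine Finset.sum_bij' (fun k _ => π k) (fun k _ => π k) ?_ ?_ ?_ ?_ ?_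
  · intro k hk
    exact Finset.mem_range.mpr (h1 k (Finset.mem_range.mp hk))
  · intro k hk
    exact Finset.mem_range.mpr (h1 k (Finset.mem_range.mp hk))
  · intro k hk
    exact h2 k (Finset.mem_range.mp hk)
  · intro k hk
    exact h2 k (Finset.mem_range.mp hk)
  · intro k _
    rfl

theorem lx_invol (n : ℕ) (col : ℕ → ℕ) (b : ℕ → Bool) (π : ℕ → ℕ) (h1 : ∀ k < n, π k < n)
    (h2 : ∀ k < n, π (π k) = k) : lx n col (fun k => b (π k)) = lx n (fun k => col (π k)) b := by
  apply Nat.eq_of_testBit_eq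
  intro r
  rw [testBit_lx, testBit_lx, ← xo_invol n (fun k => b k && (col (π k)).testBit r) π h1 h2]
  apply xo_congr
  intro k hk
  rw [h2 k hk]

section tup
variable {n : ℕ} (H : Finset (Finset (Fin n)))

/-- The pattern of a five-tuple. -/
def pk (s : Fin 5 → Fin n) : ℕ := idx 5 fun r => zb H s (q6 5 r)

/-- The link of `u`. -/
def xk (s : Fin 5 → Fin n) (u : Fin n) (r : ℕ) : Bool :=
  zb H (Fin.snoc s u : Fin 6 → Fin n) (q6 6 (5 + r))

/-- The code of a flag. -/
def ck (s : Fin 5 → Fin n) (u : Fin n) : ℕ := pk H s + 1024 * idx 10 (xk H s u)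

theorem pk_lt (s : Fin 5 → Fin n) : pk H s < 32 := idx_lt 5 _

theorem ck_mod (s : Fin 5 → Fin n) (u : Fin n) : ck H s u % 1024 = pk H s := by
  have := pk_lt H s
  unfold ck
  omega

theorem ck_bit (s : Fin 5 → Fin n) (u : Fin n) (k : ℕ) (hk : k < 10) :
    (ck H s u).testBit (10 + k) = xk H s u k := by
  have h1 : ck H s u / 2 ^ 10 = idx 10 (xk H s u) := by
    have := pk_lt H s
    unfold ck
    rw [show (2 : ℕ) ^ 10 = 1024 from rfl]
    omega
  rw [add_comm 10 k, ← Nat.testBit_div_two_pow, h1, testBit_idx, decide_eq_true hk, Bool.true_and]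

theorem pk_snoc (s : Fin 5 → Fin n) (u : Fin n) :
    pk H s = idx 5 fun r => zb H (Fin.snoc s u : Fin 6 → Fin n) (q6 6 r) := by
  unfold pk
  apply idx_congr
  intro r hr
  rw [q6_low r hr]
  have e : s = (Fin.snoc s u : Fin 6 → Fin n) ∘ Fin.castSucc := by
    funext i
    rw [Function.comp_apply, Fin.snoc_castSucc]
  conv_lhs => rw [e]
  rw [zb_comp]

/-- The image of a pattern under an exchange. -/
def mvk (i p : ℕ) : ℕ := idx 5 fun r => p.testBit (pe i r)

theorem pk_ex (s : Fin 5 → Fin n) (i : Fin 4) :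
    pk H (s ∘ Equiv.swap i.castSucc i.succ) = mvk i (pk H s) := by
  unfold mvk
  have hn : Nonempty (Fin n) := ⟨s 0⟩
  obtain ⟨u⟩ := hn
  rw [pk_snoc H _ u, pk_snoc H s u]
  apply idx_congr
  intro r hr
  have h1 := pe_low i i.isLt r hr
  rw [testBit_idx, decide_eq_true h1, Bool.true_and, Og.snoc6_comp, zb_comp, pe_geo i r (by omega)]

theorem xk_ex (s : Fin 5 → Fin n) (u : Fin n) (i : Fin 4) (r : ℕ) (hr : r < 10) :
    xk H (s ∘ Equiv.swap i.castSucc i.succ) u r = xk H s u (px i r) := by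
  obtain ⟨_, h2, _⟩ := px_lt i i.isLt r hr
  unfold xk
  rw [Og.snoc6_comp, zb_comp, pe_geo i (5 + r) (by omega), h2]

end tup

namespace FD
variable (D : FD)

/-- The kernel as a function of vertices. -/
def kk {n : ℕ} (H : Finset (Finset (Fin n))) (s : Fin 5 → Fin n) (u w : Fin n) : ℤ :=
  D.g6 (ck H s u) (ck H s w)

/-- The kernel in terms of the pattern and of the links. -/
theorem kk_eq {n : ℕ} (H : Finset (Finset (Fin n))) (s : Fin 5 → Fin n) (u w : Fin n) :
    D.kk H s u w = if D.ty (pk H s) = 0 then 0 else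
      D.bil (D.ty (pk H s)) (D.X (pk H s) (xk H s u)) (D.X (pk H s) (xk H s w)) := by
  unfold kk g6
  rw [ck_mod]
  have e : ∀ u, D.X (pk H s) (fun k => (ck H s u).testBit (10 + k)) =
      D.X (pk H s) (xk H s u) := by
    intro u
    unfold X
    congr 1
    exact lx_congr _ _ _ _ _ (fun k hk => ck_bit H s u k hk) fun _ _ => rfl
  rw [e, e]

/-- The condition on the affine maps of the pattern `p` and of its image under the exchange `i`. -/
structure LinkK (i p ab : ℕ) (ac : ℕ → ℕ) : Prop where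
  e0 : D.xb (mvk i p) = ab ^^^ app ac (D.xb p)
  ek : ∀ k < 10, D.xc (mvk i p) (px i k) = app ac (D.xc p k)

theorem X_ex (i : ℕ) (hi : i < 4) (p : ℕ) (b : ℕ → Bool) (ab : ℕ) (ac : ℕ → ℕ)
    (h : D.LinkK i p ab ac) :
    D.X (mvk i p) (fun k => b (px i k)) = ab ^^^ app ac (D.X p b) := by
  have hp := px_lt i hi
  unfold X
  rw [lx_invol 10 _ b (px i) (fun k hk => (hp k hk).1) (fun k hk => (hp k hk).2.2), h.e0, app_xor,
    ← Nat.xor_assoc, app_lx]
  congr 1
  exact lx_congr _ _ _ _ _ (fun _ _ => rfl) h.ek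

/-- The conditions for the invariance. -/
def InvK : Prop := ∀ i < 4, ∀ p < 32, (D.ty p = 0 ↔ D.ty (mvk i p) = 0) ∧
  (D.ty p ≠ 0 → ∃ ab ac, D.LinkK i p ab ac ∧ D.Good (D.ty p) (D.ty (mvk i p)) ab ac)

theorem kk_ex (hD : D.InvK) {n : ℕ} (H : Finset (Finset (Fin n))) (s : Fin 5 → Fin n)
    (u w : Fin n) (i : Fin 4) :
    D.kk H (s ∘ Equiv.swap i.castSucc i.succ) u w = D.kk H s u w := by
  rw [kk_eq, kk_eq, pk_ex]
  obtain ⟨h1, h2⟩ := hD i i.isLt (pk H s) (pk_lt H s)
  by_cases h0 : D.ty (pk H s) = 0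
  · rw [if_pos h0, if_pos (h1.mp h0)]
  · rw [if_neg h0, if_neg fun h => h0 (h1.mpr h)]
    obtain ⟨ab, ac, h3, h4⟩ := h2 h0
    have e : ∀ u, D.X (mvk i (pk H s)) (xk H (s ∘ Equiv.swap i.castSucc i.succ) u) =
        ab ^^^ app ac (D.X (pk H s) (xk H s u)) := by
      intro u
      rw [← D.X_ex i i.isLt (pk H s) (xk H s u) ab ac h3]
      unfold X
      congr 1
      exact lx_congr _ _ _ _ _ (fun k hk => xk_ex H s u i k hk) fun _ _ => rfl
    rw [e, e, h4]

/-- The kernel is invariant under permutations of the roots. -/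
theorem kk_perm (hD : D.InvK) {n : ℕ} (H : Finset (Finset (Fin n))) (τ : Equiv.Perm (Fin 5)) :
    ∀ (s : Fin 5 → Fin n) (u w : Fin n), D.kk H (s ∘ τ) u w = D.kk H s u w := by
  have h1 : τ ∈ Submonoid.closure (Set.range fun i : Fin 4 => Equiv.swap i.castSucc i.succ) := by
    rw [Equiv.Perm.mclosure_swap_castSucc_succ]
    exact Submonoid.mem_top _
  induction h1 using Submonoid.closure_induction with
  | mem x hx =>
    obtain ⟨i, rfl⟩ := hx
    intro s u w
    exact D.kk_ex hD H s u w i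
  | one =>
    intro s u w
    rfl
  | mul x y _ _ hx hy =>
    intro s u w
    have e : s ∘ (x * y) = (s ∘ x) ∘ y := rfl
    rw [e, hy, hx]

theorem kk_psd (hD : D.PsdOK) {n : ℕ} (H : Finset (Finset (Fin n))) (s : Fin 5 → Fin n) :
    0 ≤ ∑ u, ∑ w, ((D.kk H s u w : ℤ) : ℝ) := by
  by_cases h0 : D.ty (pk H s) = 0
  · have h1 : ∀ u w, D.kk H s u w = 0 := by
      intro u w
      rw [kk_eq, if_pos h0]
    simp [h1]
  · have h1 : ∀ u w, D.kk H s u w =
        D.bil (D.ty (pk H s)) (D.X (pk H s) (xk H s u)) (D.X (pk H s) (xk H s w)) := by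
      intro u w
      rw [kk_eq, if_neg h0]
    simp only [h1]
    exact D.bil_sum_nonneg hD _ univ fun u => D.X (pk H s) (xk H s u)

theorem kk_abs (B : ℕ) (hD : D.BilOK B) {n : ℕ} (H : Finset (Finset (Fin n)))
    (s : Fin 5 → Fin n) (u w : Fin n) : |D.kk H s u w| ≤ B := D.g6_abs B hD _ _

/-- The kernel. -/
def kernK (B : ℕ) (h1 : D.PsdOK) (h2 : D.BilOK B) : Kern 5 where
  f := fun {n} (H : Finset (Finset (Fin n))) => D.kk H
  C := B
  psd := fun H s => D.kk_psd h1 H s
  bd := by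
    intro n H s u w
    have h3 : D.kk H s u w ≤ (B : ℤ) := le_trans (le_abs_self _) (D.kk_abs B h2 H s u w)
    exact_mod_cast h3

/-- The kernel as a kernel of pairs. -/
def kernP (B : ℕ) (h1 : D.PsdOK) (h2 : D.BilOK B) : PKern 5 := (D.kernK B h1 h2).toP

end FD

end Pool.Agent.Lib.MP_afdd4d_co.K8
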