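import Pool.Agent.Lib.MP_afdd4d_co.K8.VPrg
import Pool.Agent.Lib.MP_afdd4d_co.K8.G6Code
import Pool.Agent.Lib.MP_afdd4d_co.K8.PsiCov
import Pool.Agent.Lib.MP_afdd4d_co.K8.KFKern

/-!
# Six of seven vertices

For every vertex `v` of a seven-tuple the six other vertices in a fixed order form a six-tuple. The ten
bits of its code are affine forms in the twenty bits of the quadruples with the first vertex of the
seven-tuple. The programs move a table of `2 ^ 10` lanes to `2 ^ 16` lanes, for fixed last four bits.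
-/

namespace Pool.Agent.Lib.MP_afdd4d_co.K8.Jv

open Finset

/-- The order of the vertices without `v`. -/
def vq (v : Fin 7) : Fin 6 → Fin 7 := if v = 0 then ![6, 1, 2, 3, 4, 5] else v.succAbove

theorem vq_inj : ∀ v : Fin 7, Function.Injective (vq v) := by decide +kernel

theorem vq_ne : ∀ (v : Fin 7) (i : Fin 6), vq v i ≠ v := by decide +kernel

/-- The form of the bit `r` of the code of the six-tuple of `v`. -/
def mf (v : Fin 7) (r : ℕ) : ℕ := exF7 ((qd 6 r).image (vq v))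

theorem qd6_card : ∀ (v : Fin 7), ∀ r < 10, ((qd 6 r).image (vq v)).card = 4 := by decide +kernel

/-- The programs of the seven views. -/
def vprog : List (List (ℕ × ℕ × ℕ)) := [
  [(5, 4, 0), (5, 4, 1), (5, 5, 0), (5, 5, 2), (5, 6, 1), (5, 6, 2), (5, 7, 0), (5, 7, 3),
    (5, 8, 1), (5, 8, 3), (5, 9, 2), (5, 9, 3), (0, 10, 0), (2, 10, 0), (2, 10, 1), (2, 10, 4),
    (0, 11, 0), (2, 11, 0), (2, 11, 2), (2, 11, 5), (0, 12, 0), (2, 12, 0), (2, 12, 3),
    (2, 12, 6), (0, 13, 0), (2, 13, 1), (2, 13, 2), (2, 13, 7), (0, 14, 0), (2, 14, 1),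
    (2, 14, 3), (2, 14, 8), (0, 15, 0), (2, 15, 2), (2, 15, 3), (2, 15, 9)],
  [(4, 9, 3), (4, 8, 2), (4, 7, 1), (1, 0, 4), (1, 1, 2), (1, 2, 3), (1, 3, 4), (1, 4, 6),
    (0, 0, 0), (0, 1, 0), (0, 2, 0), (0, 4, 0), (0, 5, 0), (0, 7, 0), (0, 10, 0), (0, 11, 0),
    (0, 13, 0)],
  [(4, 9, 3), (4, 8, 2), (4, 7, 0), (1, 0, 2), (1, 1, 6), (1, 4, 5), (1, 5, 6), (0, 0, 0),
    (0, 1, 0), (0, 3, 0), (0, 4, 0), (0, 6, 0), (0, 8, 0), (0, 10, 0), (0, 12, 0), (0, 14, 0)],
  [(4, 9, 3), (4, 8, 1), (4, 7, 0), (1, 0, 2), (1, 1, 2), (1, 2, 3), (1, 3, 6), (1, 4, 6),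
    (1, 5, 6), (0, 0, 0), (0, 2, 0), (0, 3, 0), (0, 5, 0), (0, 6, 0), (0, 9, 0), (0, 11, 0),
    (0, 12, 0), (0, 15, 0)],
  [(4, 9, 2), (4, 8, 1), (4, 7, 0), (1, 1, 4), (1, 2, 5), (1, 3, 6), (0, 1, 0), (0, 2, 0),
    (0, 3, 0), (0, 7, 0), (0, 8, 0), (0, 9, 0), (0, 13, 0), (0, 14, 0), (0, 15, 0)],
  [(0, 4, 0), (0, 5, 0), (0, 6, 0), (0, 7, 0), (0, 8, 0), (0, 9, 0)],
  [(0, 10, 0), (0, 11, 0), (0, 12, 0), (0, 13, 0), (0, 14, 0), (0, 15, 0)]]

theorem vprog_ok : ∀ v : Fin 7, okV (vprog.getD v []) 10 = true ∧ nvG (vprog.getD v []) 10 = 16 := by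
  decide +kernel

theorem vprog_sx : ∀ τ < 16, ∀ v : Fin 7, ∀ r < 10,
    sxG τ (vprog.getD v []) 10 r = f16 τ (mf v r) := by
  decide +kernel

/-- The view of a table at the vertex `v`. -/
def vwG (W τ v A : ℕ) : ℕ := rvG W τ (vprog.getD v []) 10 A

theorem vwG_ar {W τ A : ℕ} {f : (ℕ → Bool) → ℕ} (hW : 0 < W) (hτ : τ < 16) (v : Fin 7)
    (hA : Ar W 10 A f) :
    Ar W 16 (vwG W τ v A) fun b => f fun r => lf 20 (mf v r) (mk20 τ b) := by
  obtain ⟨h1, h2⟩ := vprog_ok v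
  have h3 := rvG_ar (τ := τ) hW _ 10 A f h1 hA
  rw [h2] at h3
  refine h3.congr fun b => ?_
  apply hA.dep
  intro r hr
  rw [svG_eq τ 16 b _ 10 h1 (by rw [h2]) r hr, vprog_sx τ hτ v r hr, lf_mk20]

/-! ### The bits of the quadruples -/

theorem qd6_q6 : ∀ r < 10, qd 6 r = q6 6 ([0, 1, 2, 3, 5, 6, 7, 9, 10, 12].getD r 0) := by
  decide +kernel

/-- The number of the bit `r` of the code among the quadruples of six vertices. -/
def t10 (r : ℕ) : ℕ := [0, 1, 2, 3, 5, 6, 7, 9, 10, 12].getD r 0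

theorem t10_lt : ∀ r < 10, t10 r < 15 := by decide

/-- The numbers of the quadruples of the six-tuples. -/
def RKt : List (List ℕ) := [
  [18, 21, 23, 24, 4, 27, 29, 30, 8, 32, 33, 11, 34, 13, 14],
  [3, 7, 10, 12, 14, 17, 20, 22, 24, 26, 28, 30, 31, 33, 34],
  [2, 6, 9, 12, 13, 16, 19, 22, 23, 25, 28, 29, 31, 32, 34],
  [1, 5, 9, 10, 11, 15, 19, 20, 21, 25, 26, 27, 31, 32, 33],
  [0, 5, 6, 7, 8, 15, 16, 17, 18, 25, 26, 27, 28, 29, 30],
  [0, 1, 2, 3, 4, 15, 16, 17, 18, 19, 20, 21, 22, 23, 24],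
  [0, 1, 2, 3, 4, 5, 6, 7, 8, 9, 10, 11, 12, 13, 14]]

/-- The numbers of the quadruples of the six-tuples, together with `v`, among the five-sets. -/
def FIt : List (List ℕ) := [
  [6, 7, 8, 9, 0, 11, 12, 13, 1, 15, 16, 2, 18, 3, 4],
  [0, 1, 2, 3, 5, 6, 7, 8, 10, 11, 12, 14, 15, 17, 19],
  [0, 1, 2, 4, 5, 6, 7, 9, 10, 11, 13, 14, 16, 17, 20],
  [0, 1, 3, 4, 5, 6, 8, 9, 10, 12, 13, 14, 18, 19, 20],
  [0, 2, 3, 4, 5, 7, 8, 9, 10, 15, 16, 17, 18, 19, 20],
  [1, 2, 3, 4, 5, 11, 12, 13, 14, 15, 16, 17, 18, 19, 20],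
  [6, 7, 8, 9, 10, 11, 12, 13, 14, 15, 16, 17, 18, 19, 20]]

/-- The numbers of the quadruples with the first vertex. -/
def R0t : List ℕ := [0, 1, 2, 3, 5, 6, 7, 9, 10, 12, 15, 16, 17, 19, 20, 22, 25, 26, 28, 31]

def rk (v r : ℕ) : ℕ := (RKt.getD v []).getD r 0

def fi (v r : ℕ) : ℕ := (FIt.getD v []).getD r 0

theorem rk_q7 : ∀ v : Fin 7, ∀ r < 15, rk v r < 35 ∧ q7 (rk v r) = (q6 6 r).image (vq v) := by
  decide +kernel

theorem r0_q7 : ∀ i < 20, R0t.getD i 0 < 35 ∧ q7 (R0t.getD i 0) = qd 7 i := by decide +kernel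

/-- Whether the five-set `i` is odd. -/
def pbc (c i : ℕ) : Bool := (F7L.getD i []).foldr (fun r a => xor (Nat.testBit c r) a) false

/-- The five-set of `v` and of the quadruple `r` of the six others. -/
def fs (v : Fin 7) (r : ℕ) : Finset (Fin 7) := insert v ((q6 6 r).image (vq v))

theorem fs_data : ∀ v : Fin 7, ∀ r < 15, (fs v r).card = 5 ∧ fi v r < 21 ∧
    (F7L.getD (fi v r) []).Nodup ∧ (∀ j ∈ F7L.getD (fi v r) [], j < 35) ∧
    (∀ x ∈ fs v r, ∃ j ∈ F7L.getD (fi v r) [], q7 j = (fs v r).erase x) ∧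
    ∀ j ∈ F7L.getD (fi v r) [], ∃ x ∈ fs v r, q7 j = (fs v r).erase x := by
  decide +kernel

theorem sum_fs (c : ℕ) (v : Fin 7) (r : ℕ) (hr : r < 15) :
    ∑ x ∈ fs v r, bz (decide ((fs v r).erase x ∈ jset c)) = bz (pbc c (fi v r)) := by
  obtain ⟨_, _, hnd, h35, h1, h2⟩ := fs_data v r hr
  unfold pbc
  rw [← sum_bz_foldr, ← List.sum_toFinset _ hnd]
  choose! g hg1 hg2 using h1
  refine Finset.sum_bij (fun x _ => g x) ?_ ?_ ?_ ?_
  · intro x hx
    exact List.mem_toFinset.mpr (hg1 x hx)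
  · intro x hx y hy hxy
    have h6 := hg2 x hx
    rw [hxy, hg2 y hy] at h6
    by_contra hne
    have : x ∈ (fs v r).erase y := Finset.mem_erase.mpr ⟨hne, hx⟩
    rw [h6] at this
    exact absurd this (Finset.notMem_erase x _)
  · intro j hj
    rw [List.mem_toFinset] at hj
    obtain ⟨x, hx, h6⟩ := h2 j hj
    refine ⟨x, hx, ?_⟩
    apply q7_inj _ (h35 _ (hg1 x hx)) _ (h35 j hj)
    rw [hg2 x hx, h6]
  · intro x hx
    rw [← hg2 x hx]
    congr 1
    rw [Bool.eq_iff_iff, decide_eq_true_iff]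
    exact q7_mem_jset c _ (h35 _ (hg1 x hx))

theorem lf_xor_arg (N m : ℕ) (b b' : ℕ → Bool) (h0 : m.testBit 0 = false) :
    lf N m (fun i => b i ^^ b' i) = (lf N m b ^^ lf N m b') := by
  induction N with
  | zero => rw [lf, lf, lf, h0]; rfl
  | succ N ih =>
    rw [lf, lf, lf, ih]
    cases lf N m b <;> cases lf N m b' <;> cases m.testBit (N + 1) <;> cases b N <;>
      cases b' N <;> rfl

theorem mf_zero (v : Fin 7) (r : ℕ) : (mf v r).testBit 0 = false := by
  unfold mf exF7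
  simp

/-- The bits of the difference at the quadruples with the first vertex. -/
def j0 (c i : ℕ) : Bool := c.testBit (R0t.getD i 0)

/-- The code of the difference on the six-tuple of `v`. -/
def jc6 (c v : ℕ) : ℕ := idx 15 fun r => c.testBit (rk v r)

/-- The code of the difference of the 4-graph and the even 4-graph of the vertex `v`. -/
def gc6 (c v : ℕ) : ℕ := idx 15 fun r => pbc c (fi v r)

/-- The constants of the code of the even 4-graph on the six-tuple of `v`. -/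
def yc6 (c : ℕ) (v : Fin 7) : ℕ := idx 10 fun r => lf 20 (mf v r) (j0 c)

/-- The constants of the code of the even 4-graph of the vertex `v`. -/
def xc6 (c : ℕ) (v : Fin 7) : ℕ := idx 10 fun r =>
  (lf 20 (mf v r) (j0 c) ^^ c.testBit (rk v (t10 r))) ^^ pbc c (fi v (t10 r))

section tup
variable {n : ℕ} (H E' : Finset (Finset (Fin n)))

theorem zb_eq_dec {m : ℕ} (t : Fin m → Fin n) (T : Finset (Fin m)) :
    zb H t T = decide (T.image t ∈ H) := by
  unfold zb E
  by_cases h : T.image t ∈ H <;> simp [h]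

theorem zb_jd {m : ℕ} (t : Fin m → Fin n) (T : Finset (Fin m)) (hT : T.card = 4) :
    zb H t T = (zb E' t T ^^ decide (T ∈ JD H E' t)) := by
  have h : (T ∈ JD H E' t) ↔ E H t T ≠ E E' t T := by
    rw [mem_JD]
    exact ⟨fun h => h.2, fun h => ⟨hT, h⟩⟩
  unfold zb
  by_cases h1 : T ∈ JD H E' t
  · rw [decide_eq_true h1]
    have h2 := h.mp h1
    revert h2
    cases E H t T <;> cases E E' t T <;> simp
  · rw [decide_eq_false h1]
    have h2 : E H t T = E E' t T := by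
      by_contra h3
      exact h1 (h.mpr h3)
    rw [h2, Bool.xor_false]

theorem evT_of_evenH {m : ℕ} (hE : EvenH n E') (t : Fin m → Fin n) (ht : Function.Injective t) :
    EvT E' t := by
  intro S hS
  have h1 := (even_iff_zmod _).mp (hE (S.image t) (by
    rw [Finset.card_image_of_injective _ ht, hS]))
  have hc : (S.image t).card = 5 := by rw [Finset.card_image_of_injective _ ht, hS]
  rw [card4_filter _ _ hc, Finset.sum_image (fun a _ b _ h => ht h)] at h1
  unfold dl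
  rw [← h1]
  refine Finset.sum_congr rfl fun x _ => ?_
  rw [zt_eq, zb_eq_dec, Finset.image_erase ht]

variable (s : Fin 7 → Fin n) (c : ℕ)

theorem gc_jd (hJ : JD H E' s = jset c) (i : ℕ) (hi : i < 20) :
    gc E' s i = (gc H s i ^^ j0 c i) := by
  obtain ⟨h1, h2⟩ := r0_q7 i hi
  have h3 : decide (qd 7 i ∈ jset c) = j0 c i := by
    rw [← h2, Bool.eq_iff_iff, decide_eq_true_iff, q7_mem_jset c _ h1]
    rfl
  rw [gc, gc, zb_jd H E' s _ (qd7_data i hi).1, hJ, h3]
  cases zb E' s (qd 7 i) <;> cases j0 c i <;> rfl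

theorem gc_view (hJ : JD H E' s = jset c) (hE : EvT E' s) (v : Fin 7) (r : ℕ) (hr : r < 10) :
    gc E' (s ∘ vq v) r = (lf 20 (mf v r) (gc H s) ^^ (yc6 c v).testBit r) := by
  rw [gc, zb_comp, zb7_eq E' s hE _ (qd6_card v r hr)]
  have h1 : lf 20 (exF7 ((qd 6 r).image (vq v))) (gc E' s) =
      lf 20 (mf v r) fun i => gc H s i ^^ j0 c i := by
    apply lf_congr
    intro i hi
    exact gc_jd H E' s c hJ i hi
  rw [h1, lf_xor_arg _ _ _ _ (mf_zero v r), yc6, testBit_idx, decide_eq_true hr, Bool.true_and]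

theorem jd_view (hJ : JD H E' s = jset c) (v : Fin 7) (r : ℕ) (hr : r < 15) :
    (zb H (s ∘ vq v) (q6 6 r) ^^ zb E' (s ∘ vq v) (q6 6 r)) = (jc6 c v).testBit r := by
  obtain ⟨h1, h2⟩ := rk_q7 v r hr
  have h4 : ((q6 6 r).image (vq v)).card = 4 := by
    rw [Finset.card_image_of_injective _ (vq_inj v), q6_card r hr]
  rw [zb_comp, zb_comp, zb_jd H E' s _ h4, hJ, jc6, testBit_idx, decide_eq_true hr, Bool.true_and,
    ← h2]
  have h3 : decide (q7 (rk v r) ∈ jset c) = c.testBit (rk v r) := by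
    rw [Bool.eq_iff_iff, decide_eq_true_iff, q7_mem_jset c _ h1]
  rw [h3]
  cases zb E' s (q7 (rk v r)) <;> cases c.testBit (rk v r) <;> rfl

/-- The bits of the even 4-graph of a vertex. -/
theorem bz_evR (hs : Function.Injective s) (v : Fin 7) (Q : Finset (Fin 7)) (hQ : Q.card = 4)
    (hv : v ∉ Q) :
    bz (zb (EvR H (s v)) s Q) = ∑ x ∈ Q, bz (zb H s ((insert v Q).erase x)) := by
  have hc : (Q.image s).card = 4 := by rw [Finset.card_image_of_injective _ hs, hQ]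
  rw [zb_eq_dec]
  unfold EvR
  rw [dec_flpE _ _ _ hc]
  have h2 : decide (Q.image s ∈ (∅ : Finset (Finset (Fin n)))) = false := by simp
  rw [h2, Bool.false_xor, bz_par]
  symm
  refine Finset.sum_bij (fun x _ => (Q.erase x).image s) ?_ ?_ ?_ ?_
  · intro x hx
    rw [Finset.mem_powersetCard]
    refine ⟨Finset.image_subset_image (Finset.erase_subset _ _), ?_⟩
    rw [Finset.card_image_of_injective _ hs, Finset.card_erase_of_mem hx, hQ]
  · intro x hx y hy hxy
    have h3 : Q.erase x = Q.erase y := Finset.image_injective hs hxy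
    by_contra hne
    have : x ∈ Q.erase y := Finset.mem_erase.mpr ⟨hne, hx⟩
    rw [← h3] at this
    exact absurd this (Finset.notMem_erase x _)
  · intro U hU
    rw [Finset.mem_powersetCard] at hU
    obtain ⟨U', hU', rfl⟩ := Finset.subset_image_iff.mp hU.1
    rw [Finset.card_image_of_injective _ hs] at hU
    have h8 : (Q \ U').card = 1 := by
      rw [Finset.card_sdiff_of_subset hU', hQ, hU.2]
    obtain ⟨x, hx⟩ := Finset.card_eq_one.mp h8
    have hx1 : x ∈ Q \ U' := by rw [hx]; exact Finset.mem_singleton_self x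
    rw [Finset.mem_sdiff] at hx1
    refine ⟨x, hx1.1, ?_⟩
    congr 1
    symm
    apply Finset.eq_of_subset_of_card_le
    · intro z hz
      rw [Finset.mem_erase]
      exact ⟨fun h => hx1.2 (h ▸ hz), hU' hz⟩
    · rw [Finset.card_erase_of_mem hx1.1, hQ, hU.2]
  · intro x hx
    have hxv : x ≠ v := fun h => hv (h ▸ hx)
    congr 1
    rw [zb_eq_dec, Finset.erase_insert_of_ne (fun h => hxv h.symm), Finset.image_insert]
    have h9 : s v ∉ (Q.erase x).image s := by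
      intro h
      obtain ⟨y, hy, hyv⟩ := Finset.mem_image.mp h
      rw [hs hyv] at hy
      exact hv (Finset.mem_of_mem_erase hy)
    rw [Bool.eq_iff_iff, decide_eq_true_iff, decide_eq_true_iff]
    exact ⟨fun h => ⟨h9, h⟩, fun h => h.2⟩

/-- The even 4-graph of a vertex and the five-sets. -/
theorem zb_evR (hJ : JD H E' s = jset c) (hE : EvT E' s) (hs : Function.Injective s) (v : Fin 7)
    (r : ℕ) (hr : r < 15) :
    zb (EvR H (s v)) (s ∘ vq v) (q6 6 r) =
      (zb H (s ∘ vq v) (q6 6 r) ^^ pbc c (fi v r)) := by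
  set Q : Finset (Fin 7) := (q6 6 r).image (vq v) with hQ
  have hQ4 : Q.card = 4 := by
    rw [hQ, Finset.card_image_of_injective _ (vq_inj v), q6_card r hr]
  have hv : v ∉ Q := by
    intro h
    obtain ⟨y, _, hyv⟩ := Finset.mem_image.mp h
    exact vq_ne v y hyv
  have hF : fs v r = insert v Q := rfl
  have h5 : (fs v r).card = 5 := (fs_data v r hr).1
  rw [zb_comp, zb_comp, ← hQ]
  apply bz_inj
  rw [bz_xor, bz_evR H s hs v Q hQ4 hv, ← sum_fs c v r hr]
  -- the sum over the five-set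
  have h1 : ∑ x ∈ fs v r, bz (zb H s ((fs v r).erase x)) =
      bz (zb H s Q) + ∑ x ∈ Q, bz (zb H s ((insert v Q).erase x)) := by
    rw [hF, Finset.sum_insert hv, Finset.erase_insert hv]
  have h2 : ∀ x ∈ fs v r, bz (zb H s ((fs v r).erase x)) =
      bz (zb E' s ((fs v r).erase x)) + bz (decide ((fs v r).erase x ∈ jset c)) := by
    intro x hx
    rw [zb_jd H E' s _ (by rw [Finset.card_erase_of_mem hx, h5]), hJ, bz_xor]
  have h3 := hE (fs v r) h5
  unfold dl at h3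
  have h4 : ∑ x ∈ fs v r, bz (zb E' s ((fs v r).erase x)) = 0 := by
    rw [← h3]
    exact Finset.sum_congr rfl fun x _ => (zt_eq E' s _).symm
  rw [Finset.sum_congr rfl h2, Finset.sum_add_distrib, h4, zero_add] at h1
  rw [h1, ← add_assoc, CharTwo.add_self_eq_zero, zero_add]

theorem jd_evR (hJ : JD H E' s = jset c) (hE : EvT E' s) (hs : Function.Injective s) (v : Fin 7)
    (r : ℕ) (hr : r < 15) :
    (zb H (s ∘ vq v) (q6 6 r) ^^ zb (EvR H (s v)) (s ∘ vq v) (q6 6 r)) = (gc6 c v).testBit r := by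
  rw [zb_evR H E' s c hJ hE hs v r hr, gc6, testBit_idx, decide_eq_true hr, Bool.true_and]
  cases zb H (s ∘ vq v) (q6 6 r) <;> cases pbc c (fi v r) <;> rfl

theorem gc_evR (hJ : JD H E' s = jset c) (hE : EvT E' s) (hs : Function.Injective s) (v : Fin 7)
    (r : ℕ) (hr : r < 10) :
    gc (EvR H (s v)) (s ∘ vq v) r = (lf 20 (mf v r) (gc H s) ^^ (xc6 c v).testBit r) := by
  have h15 := t10_lt r hr
  have e1 : qd 6 r = q6 6 (t10 r) := qd6_q6 r hr
  have h1 := jd_view H E' s c hJ v (t10 r) h15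
  have h2 := gc_view H E' s c hJ hE v r hr
  rw [gc, e1] at h2
  rw [gc, e1, zb_evR H E' s c hJ hE hs v (t10 r) h15, xc6, testBit_idx, decide_eq_true hr,
    Bool.true_and]
  rw [h2, jc6, testBit_idx, decide_eq_true h15, Bool.true_and] at h1
  rw [yc6, testBit_idx, decide_eq_true hr, Bool.true_and] at h1
  revert h1
  cases zb H (s ∘ vq v) (q6 6 (t10 r)) <;> cases lf 20 (mf v r) (gc H s) <;>
    cases lf 20 (mf v r) (j0 c) <;> cases c.testBit (rk v (t10 r)) <;>
    cases pbc c (fi v (t10 r)) <;> simp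

end tup

end Pool.Agent.Lib.MP_afdd4d_co.K8.Jv
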