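import Pool.Agent.Lib.MP_afdd4d_co.K8.KFKern
import Pool.Agent.Lib.MP_afdd4d_co.K8.F6Aut

/-!
# The check of the invariance of the kernels of the five-vertex types
-/

namespace Pool.Agent.Lib.MP_afdd4d_co.K8

open Finset

/-- The images of the patterns. -/
def mvkL : List (List ℕ) := [
  [0, 1, 2, 3, 4, 5, 6, 7, 16, 17, 18, 19, 20, 21, 22, 23, 8, 9, 10, 11, 12, 13, 14, 15, 24, 25,
    26, 27, 28, 29, 30, 31],
  [0, 1, 2, 3, 8, 9, 10, 11, 4, 5, 6, 7, 12, 13, 14, 15, 16, 17, 18, 19, 24, 25, 26, 27, 20, 21,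
    22, 23, 28, 29, 30, 31],
  [0, 1, 4, 5, 2, 3, 6, 7, 8, 9, 12, 13, 10, 11, 14, 15, 16, 17, 20, 21, 18, 19, 22, 23, 24, 25,
    28, 29, 26, 27, 30, 31],
  [0, 2, 1, 3, 4, 6, 5, 7, 8, 10, 9, 11, 12, 14, 13, 15, 16, 18, 17, 19, 20, 22, 21, 23, 24, 26,
    25, 27, 28, 30, 29, 31]]

/-- The images of the bits of the links. -/
def pxL : List (List ℕ) := [
  [0, 1, 3, 2, 4, 6, 5, 8, 7, 9],
  [0, 2, 1, 3, 5, 4, 6, 7, 9, 8],
  [1, 0, 2, 3, 4, 7, 8, 5, 6, 9],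
  [0, 4, 5, 6, 1, 2, 3, 7, 8, 9]]

theorem mvkL_eq : ∀ i < 4, ∀ p < 32, (mvkL.getD i []).getD p 0 = mvk i p := by decide +kernel

theorem mvk_lt (i p : ℕ) : mvk i p < 32 := idx_lt 5 _

theorem pxL_eq : ∀ i < 4, ∀ r < 10, (pxL.getD i []).getD r 0 = px i r := by decide +kernel

/-- The image of a pattern. -/
def mvkG (i p : ℕ) : ℕ := nthG 0 (nthG [] mvkL i) p

theorem mvkG_eq (i p : ℕ) (hi : i < 4) (hp : p < 32) : mvkG i p = mvk i p := by
  unfold mvkG
  rw [nthG_eq, nthG_eq]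
  exact mvkL_eq i hi p hp

namespace TF
variable (D : TF)

/-- The check of a link. -/
def ilkG (i e e' : ℕ) (L : LK) : Bool :=
  Nat.beq (Nat.mod e 256) L.ty && (Nat.beq (Nat.mod e' 256) L.ty &&
    (Nat.beq (conG e') (Nat.xor L.ab (selG L.ac (conG e) 0)) &&
      allN (fun k => Nat.beq (colG e' (nthG 0 (nthG [] pxL i) k)) (selG L.ac (colG e k) 0)) 10))

/-- The check of a pattern and an exchange. -/
def ivkG (LT : ℕ) (ls : List LK) (L0 : LK) (i p : ℕ) : Bool :=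
  @Nat.rec (fun _ => Bool) (Nat.beq (Nat.mod (entG D.tab (mvkG i p)) 256) 0)
    (fun _ _ => Nat.blt (lnG 16 LT (Nat.add (Nat.mul 8 p) i)) ls.length &&
      ilkG i (entG D.tab p) (entG D.tab (mvkG i p))
        (nthG L0 ls (lnG 16 LT (Nat.add (Nat.mul 8 p) i))))
    (Nat.mod (entG D.tab p) 256)

theorem invK_ok (LT : ℕ) (ls : List LK) (L0 : LK)
    (hls : ∀ L ∈ ls, L.ac.length = 10 ∧ D.fd.Good L.ty L.ty L.ab fun k => L.ac.getD k 0)
    (h : ∀ i < 4, allN (D.ivkG LT ls L0 i) 32 = true) : D.fd.InvK := by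
  intro i hi p hp
  have h1 := allN_spec _ _ (h i hi) p hp
  set e := entG D.tab p with he
  have hty : D.fd.ty p = Nat.mod e 256 := rfl
  rcases Nat.eq_zero_or_pos (Nat.mod e 256) with h0 | h0
  · have h2 : D.ivkG LT ls L0 i p = Nat.beq (Nat.mod (entG D.tab (mvkG i p)) 256) 0 := by
      unfold ivkG
      rw [← he, h0]
      rfl
    rw [h2] at h1
    have h3 := Nat.eq_of_beq_eq_true h1
    rw [mvkG_eq i p hi hp] at h3
    have h4 : D.fd.ty (mvk i p) = 0 := h3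
    refine ⟨⟨fun _ => h4, fun _ => by rw [hty, h0]⟩, fun h5 => absurd (by rw [hty, h0]) h5⟩
  · obtain ⟨t, ht⟩ : ∃ t, Nat.mod e 256 = t + 1 := ⟨Nat.mod e 256 - 1, by omega⟩
    set e' := entG D.tab (mvkG i p) with he'
    set L := nthG L0 ls (lnG 16 LT (Nat.add (Nat.mul 8 p) i)) with hL
    have h2 : D.ivkG LT ls L0 i p = (Nat.blt (lnG 16 LT (Nat.add (Nat.mul 8 p) i)) ls.length &&
        ilkG i e e' L) := by
      have : D.ivkG LT ls L0 i p = @Nat.rec (fun _ => Bool) (Nat.beq (Nat.mod e' 256) 0)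
        (fun _ _ => Nat.blt (lnG 16 LT (Nat.add (Nat.mul 8 p) i)) ls.length &&
          ilkG i e e' L) (Nat.mod e 256) := rfl
      rw [this, ht]
    rw [h2, Bool.and_eq_true] at h1
    obtain ⟨h3, h4⟩ := h1
    unfold ilkG at h4
    rw [Bool.and_eq_true, Bool.and_eq_true, Bool.and_eq_true] at h4
    obtain ⟨h5, h6, h7, h8⟩ := h4
    have h5' := Nat.eq_of_beq_eq_true h5
    have h6' := Nat.eq_of_beq_eq_true h6
    have h7' := Nat.eq_of_beq_eq_true h7
    have h3' : lnG 16 LT (Nat.add (Nat.mul 8 p) i) < ls.length := by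
      rw [Nat.blt_eq] at h3
      exact h3
    have hLm : L ∈ ls := by
      rw [hL, nthG_eq, List.getD_eq_getElem _ _ h3']
      exact List.getElem_mem h3'
    obtain ⟨hl, hg⟩ := hls L hLm
    have he'' : e' = entG D.tab (mvk i p) := by rw [he', mvkG_eq i p hi hp]
    have hty' : D.fd.ty (mvk i p) = Nat.mod e' 256 := by rw [he'']; rfl
    have hxb' : D.fd.xb (mvk i p) = conG e' := by rw [he'']; rfl
    have hxc' : D.fd.xc (mvk i p) = colG e' := by rw [he'']; rfl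
    refine ⟨⟨fun h9 => ?_, fun h9 => ?_⟩, fun _ => ⟨L.ab, fun k => L.ac.getD k 0, ⟨?_, ?_⟩, ?_⟩⟩
    · rw [hty] at h9
      rw [hty', h6', ← h5', h9]
    · rw [hty'] at h9
      rw [hty, h5', ← h6', h9]
    · rw [hxb', h7', selG_app _ hl]
      rfl
    · intro k hk
      rw [hxc']
      have h9 := Nat.eq_of_beq_eq_true (allN_spec _ _ h8 k hk)
      rw [selG_app _ hl, nthG_eq, nthG_eq, pxL_eq i hi k hk] at h9
      exact h9
    · rw [hty, hty', h5', h6']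
      exact hg

/-- The kernel. -/
def kernK (D : TF) (h : D.RowsOK) (h1 : D.fd.PsdOK) : Kern 5 := D.fd.kernK D.B h1 h.bil

/-- The kernel as a kernel of pairs. -/
def kernP (D : TF) (h : D.RowsOK) (h1 : D.fd.PsdOK) : PKern 5 := (D.kernK h h1).toP

theorem kernP_f (h : D.RowsOK) (h1 : D.fd.PsdOK) {n : ℕ} (H E : Finset (Finset (Fin n))) :
    (D.kernP h h1).f H E = D.fd.kk H := rfl

end TF

end Pool.Agent.Lib.MP_afdd4d_co.K8
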