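import Pool.Agent.Lib.MP_afdd4d_co.Lane

/-!
# Lanes of arbitrary width

A natural number is read as an array of lanes of `W` bits.
-/

namespace Pool.Agent.Lib.MP_afdd4d_co.K8

/-- The `i`-th lane of `A`, for lanes of `W` bits. -/
def Ln (W A i : ℕ) : ℕ := A / 2 ^ (W * i) % 2 ^ W

theorem two_pow_pos' (k : ℕ) : 0 < 2 ^ k := Nat.two_pow_pos k

theorem Ln_lt (W A i : ℕ) : Ln W A i < 2 ^ W := Nat.mod_lt _ (Nat.two_pow_pos W)

theorem mod_succ_lane (W A i : ℕ) :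
    A % 2 ^ (W * (i + 1)) = A % 2 ^ (W * i) + 2 ^ (W * i) * Ln W A i := by
  rw [mul_add, mul_one, pow_add, Nat.mod_mul]
  rfl

theorem Ln_zero_left (W i : ℕ) : Ln W 0 i = 0 := by
  unfold Ln
  rw [Nat.zero_div, Nat.zero_mod]

theorem mod_add_lt (W A B : ℕ) (h : ∀ i, Ln W A i + Ln W B i < 2 ^ W) (i : ℕ) :
    A % 2 ^ (W * i) + B % 2 ^ (W * i) < 2 ^ (W * i) := by
  induction i with
  | zero => simp [Nat.mod_one]
  | succ i ih =>
    rw [mod_succ_lane, mod_succ_lane, mul_add, mul_one, pow_add]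
    have h1 := h i
    have h2 : 2 ^ (W * i) * (Ln W A i + Ln W B i + 1) ≤ 2 ^ (W * i) * 2 ^ W :=
      Nat.mul_le_mul_left _ h1
    nlinarith [ih, h2]

theorem Ln_add (W A B : ℕ) (h : ∀ i, Ln W A i + Ln W B i < 2 ^ W) (i : ℕ) :
    Ln W (A + B) i = Ln W A i + Ln W B i := by
  have h1 := mod_add_lt W A B h i
  have h2 : (A + B) / 2 ^ (W * i) = A / 2 ^ (W * i) + B / 2 ^ (W * i) := by
    rw [Nat.add_div (Nat.two_pow_pos _), if_neg (by omega), add_zero]
  unfold Ln at *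
  rw [h2, Nat.add_mod]
  exact Nat.mod_eq_of_lt (h i)

theorem lt_two_pow_mul (W A : ℕ) (hW : 0 < W) (B : ℕ) : A < 2 ^ (W * (A + B)) := by
  calc A ≤ A + B := Nat.le_add_right _ _
    _ < 2 ^ (A + B) := Nat.lt_two_pow_self
    _ ≤ 2 ^ (W * (A + B)) := Nat.pow_le_pow_right (by norm_num) (Nat.le_mul_of_pos_left _ hW)

theorem Ln_ext (W A B : ℕ) (hW : 0 < W) (h : ∀ i, Ln W A i = Ln W B i) : A = B := by
  have h1 : ∀ i, A % 2 ^ (W * i) = B % 2 ^ (W * i) := by
    intro i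
    induction i with
    | zero => simp [Nat.mod_one]
    | succ i ih => rw [mod_succ_lane, mod_succ_lane, ih, h i]
  have h2 := lt_two_pow_mul W A hW B
  have h3 := lt_two_pow_mul W B hW A
  rw [add_comm] at h3
  have h4 := h1 (A + B)
  rwa [Nat.mod_eq_of_lt h2, Nat.mod_eq_of_lt h3] at h4

theorem Ln_shl (W A d i : ℕ) : Ln W (A <<< (W * d)) i = if i < d then 0 else Ln W A (i - d) := by
  unfold Ln
  rw [Nat.shiftLeft_eq]
  split_ifs with h
  · obtain ⟨k, rfl⟩ : ∃ k, d = i + (k + 1) := ⟨d - i - 1, by omega⟩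
    have h1 : A * 2 ^ (W * (i + (k + 1))) = (A * 2 ^ (W * k) * 2 ^ W) * 2 ^ (W * i) := by
      have h2 : W * (i + (k + 1)) = W * k + W + W * i := by ring
      rw [h2, pow_add, pow_add, ← mul_assoc, ← mul_assoc]
    rw [h1, Nat.mul_div_cancel _ (Nat.two_pow_pos _)]
    exact Nat.mul_mod_left _ _
  · obtain ⟨k, rfl⟩ : ∃ k, i = k + d := ⟨i - d, by omega⟩
    rw [Nat.add_sub_cancel, mul_add, pow_add, mul_comm (2 ^ (W * k)), mul_comm A,
      Nat.mul_div_mul_left _ _ (Nat.two_pow_pos _)]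

theorem Ln_shr (W A d i : ℕ) : Ln W (A >>> (W * d)) i = Ln W A (i + d) := by
  unfold Ln
  rw [Nat.shiftRight_eq_div_pow, Nat.div_div_eq_div_mul, ← pow_add]
  congr 3
  ring

theorem Ln_eq_shr (W A i : ℕ) : Ln W A i = (A >>> (W * i)) % 2 ^ W := by
  rw [Nat.shiftRight_eq_div_pow]; rfl

theorem Ln_and (W A B i : ℕ) : Ln W (A &&& B) i = Ln W A i &&& Ln W B i := by
  simp only [Ln_eq_shr]
  rw [Nat.shiftRight_and_distrib, Nat.and_mod_two_pow]

theorem Ln_or (W A B i : ℕ) : Ln W (A ||| B) i = Ln W A i ||| Ln W B i := by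
  simp only [Ln_eq_shr]
  rw [Nat.shiftRight_or_distrib, Nat.or_mod_two_pow]

theorem Ln_xor (W A B i : ℕ) : Ln W (A ^^^ B) i = Ln W A i ^^^ Ln W B i := by
  simp only [Ln_eq_shr]
  rw [Nat.shiftRight_xor_distrib, Nat.xor_mod_two_pow]

theorem and_full (W x : ℕ) (h : x < 2 ^ W) : x &&& (2 ^ W - 1) = x := by
  rw [Nat.and_two_pow_sub_one_eq_mod]
  exact Nat.mod_eq_of_lt h

theorem Ln_eq_zero_of_lt (W A N i : ℕ) (h : A < 2 ^ (W * N)) (hi : N ≤ i) : Ln W A i = 0 := by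
  unfold Ln
  rw [Nat.div_eq_of_lt, Nat.zero_mod]
  exact lt_of_lt_of_le h (Nat.pow_le_pow_right (by norm_num) (Nat.mul_le_mul_left _ hi))

theorem Ln_mod (W X N i : ℕ) : Ln W (X % 2 ^ (W * N)) i = if i < N then Ln W X i else 0 := by
  split_ifs with hi
  · unfold Ln
    rw [← Nat.mod_mul_right_div_self, ← Nat.mod_mul_right_div_self, ← pow_add]
    rw [Nat.mod_mod_of_dvd]
    refine pow_dvd_pow _ ?_
    calc W * i + W = W * (i + 1) := by ring
      _ ≤ W * N := Nat.mul_le_mul_left _ hi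
  · exact Ln_eq_zero_of_lt _ _ N _ (Nat.mod_lt _ (Nat.two_pow_pos _)) (by omega)

theorem lt_of_Ln_eq_zero (W A N : ℕ) (hW : 0 < W) (h : ∀ i, N ≤ i → Ln W A i = 0) :
    A < 2 ^ (W * N) := by
  have h1 : A % 2 ^ (W * N) = A := by
    apply Ln_ext W _ _ hW
    intro i
    rw [Ln_mod]
    split_ifs with hi
    · rfl
    · rw [h i (by omega)]
  rw [← h1]
  exact Nat.mod_lt _ (Nat.two_pow_pos _)

/-- Concatenation. -/
theorem Ln_cat (W A B N i : ℕ) (hA : A < 2 ^ (W * N)) :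
    Ln W (A + B <<< (W * N)) i = if i < N then Ln W A i else Ln W B (i - N) := by
  have h0 : ∀ j, Ln W A j + Ln W (B <<< (W * N)) j < 2 ^ W := by
    intro j
    rw [Ln_shl]
    split_ifs with h
    · rw [add_zero]; exact Ln_lt _ _ _
    · rw [Ln_eq_zero_of_lt W A N j hA (by omega), zero_add]; exact Ln_lt _ _ _
  rw [Ln_add _ _ _ h0, Ln_shl]
  split_ifs with h
  · rw [add_zero]
  · rw [Ln_eq_zero_of_lt W A N i hA (by omega), zero_add]

theorem Ln_small (W x : ℕ) (hx : x < 2 ^ W) (i : ℕ) : Ln W x i = if i = 0 then x else 0 := by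
  split_ifs with h
  · subst h
    unfold Ln
    rw [mul_zero, pow_zero, Nat.div_one]
    exact Nat.mod_eq_of_lt hx
  · exact Ln_eq_zero_of_lt _ _ 1 _ (by simpa using hx) (by omega)

/-- Subtraction lane by lane. -/
theorem Ln_sub (W A B : ℕ) (hW : 0 < W) (h : ∀ i, Ln W B i ≤ Ln W A i) :
    ∀ i, Ln W (A - B) i = Ln W A i - Ln W B i := by
  -- construct the difference
  have key : ∀ N A B : ℕ, A < 2 ^ (W * N) → (∀ i, Ln W B i ≤ Ln W A i) →
      ∃ C, ∀ i, Ln W C i = Ln W A i - Ln W B i := by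
    intro N
    induction N with
    | zero =>
      intro A B hA _
      refine ⟨0, fun i => ?_⟩
      rw [Ln_zero_left, Ln_eq_zero_of_lt W A 0 i hA (Nat.zero_le _), Nat.zero_sub]
    | succ N ih =>
      intro A B hA hAB
      have hA' : A % 2 ^ (W * N) < 2 ^ (W * N) := Nat.mod_lt _ (Nat.two_pow_pos _)
      obtain ⟨C, hC⟩ := ih (A % 2 ^ (W * N)) (B % 2 ^ (W * N)) hA' (by
        intro i
        rw [Ln_mod, Ln_mod]
        split_ifs with hi
        · exact hAB i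
        · exact le_rfl)
      have hClt : C < 2 ^ (W * N) := by
        apply lt_of_Ln_eq_zero _ _ _ hW
        intro i hi
        rw [hC, Ln_mod, if_neg (by omega), Nat.zero_sub]
      refine ⟨C + (Ln W A N - Ln W B N) <<< (W * N), fun i => ?_⟩
      rw [Ln_cat _ _ _ _ _ hClt]
      split_ifs with hi
      · rw [hC, Ln_mod, Ln_mod, if_pos hi, if_pos hi]
      · have hdlt : Ln W A N - Ln W B N < 2 ^ W := lt_of_le_of_lt (Nat.sub_le _ _) (Ln_lt _ _ _)
        rcases Nat.eq_or_lt_of_le (not_lt.mp hi) with h1 | h1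
        · subst h1
          rw [Nat.sub_self, Ln_small _ _ hdlt, if_pos rfl]
        · rw [Ln_eq_zero_of_lt W A (N + 1) i hA (by omega), Nat.zero_sub, Ln_small _ _ hdlt,
            if_neg (by omega)]
  obtain ⟨N, hN⟩ : ∃ N, A < 2 ^ (W * N) := ⟨A + 0, lt_two_pow_mul W A hW 0⟩
  obtain ⟨C, hC⟩ := key N A B hN h
  have hsum : C + B = A := by
    apply Ln_ext W _ _ hW
    intro i
    have h0 : ∀ j, Ln W C j + Ln W B j < 2 ^ W := by
      intro j
      rw [hC, Nat.sub_add_cancel (h j)]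
      exact Ln_lt _ _ _
    rw [Ln_add _ _ _ h0, hC, Nat.sub_add_cancel (h i)]
  intro i
  rw [← hC]
  congr 1
  omega

theorem Ln_smul (W c A : ℕ) (h : ∀ i, c * Ln W A i < 2 ^ W) (i : ℕ) :
    Ln W (c * A) i = c * Ln W A i := by
  induction c generalizing i with
  | zero => simp [Ln_zero_left]
  | succ c ih =>
    have h1 : ∀ j, c * Ln W A j < 2 ^ W := fun j =>
      lt_of_le_of_lt (Nat.mul_le_mul_right _ (Nat.le_succ c)) (h j)
    rw [Nat.succ_mul, Nat.succ_mul]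
    rw [Ln_add _ _ _ (fun j => by rw [ih h1 j, ← Nat.succ_mul]; exact h j), ih h1 i]

end Pool.Agent.Lib.MP_afdd4d_co.K8
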