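import Pool.Agent.Lib.MP_afdd4d_co.K8.EvenSk
import Pool.Agent.Lib.MP_afdd4d_co.Lower

/-!
# The lower bound for 4-graphs in which every five vertices span an even number of edges

Giraud's construction `GH f A` of `Lower.lean` is even: every five vertices span an even number of
edges.
-/

namespace Pool.Agent.Lib.MP_afdd4d_co.K8

open Finset
open Pool.Agent.Lib.MP_afdd4d_co

section even
variable {V : Type*} [DecidableEq V]

/-- A product of signs is `(-1)` to the number of the factors `-1`. -/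
theorem prod_units_eq_pow (Q : Finset V) (h : V → ℤˣ) :
    ∏ y ∈ Q, h y = (-1) ^ (Q.filter fun y => h y = -1).card := by
  induction Q using Finset.induction_on with
  | empty => simp
  | insert a s ha ih =>
    rw [Finset.prod_insert ha, ih, Finset.filter_insert]
    rcases Int.units_eq_one_or (h a) with h1 | h1
    · rw [h1, if_neg (by decide), one_mul]
    · rw [h1, if_pos rfl, Finset.card_insert_of_notMem (fun h2 => ha (Finset.mem_filter.mp h2).1),
        pow_succ, mul_comm]

theorem even_of_pow_eq_one (k : ℕ) (h : (-1 : ℤˣ) ^ k = 1) : Even k := by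
  rcases Nat.even_or_odd k with h1 | h1
  · exact h1
  · rw [h1.neg_one_pow] at h
    exact absurd h (by decide)

/-- Among the three products of two of three signs an even number is `-1`. -/
theorem even_filter_erase (Q : Finset V) (hQ : Q.card = 3) (g : V → ℤˣ) :
    Even (Q.filter fun y => ∏ b ∈ Q.erase y, g b = -1).card := by
  apply even_of_pow_eq_one
  rw [← prod_units_eq_pow Q (fun y => ∏ b ∈ Q.erase y, g b)]
  have h1 : ∀ y ∈ Q, ∏ b ∈ Q.erase y, g b = g y * ∏ b ∈ Q, g b := by
    intro y hy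
    rw [← Finset.mul_prod_erase Q g hy, ← mul_assoc, Int.units_mul_self, one_mul]
  rw [Finset.prod_congr rfl h1, Finset.prod_mul_distrib, Finset.prod_const, hQ]
  have h2 : ∀ u : ℤˣ, u * u ^ 3 = 1 := by decide
  exact h2 _

variable [Fintype V]

omit [Fintype V] in
/-- The number of edges inside a set of five vertices, by the omitted vertex. -/
theorem count_erase (H : Finset (Finset V)) (S : Finset V) (hS : S.card = 5) :
    ((S.powersetCard 4).filter fun e => e ∈ H).card = (S.filter fun y => S.erase y ∈ H).card := by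
  symm
  refine Finset.card_bij (fun y _ => S.erase y) ?_ ?_ ?_
  · intro y hy
    rw [Finset.mem_filter] at hy
    rw [Finset.mem_filter, Finset.mem_powersetCard]
    exact ⟨⟨Finset.erase_subset _ _, by rw [Finset.card_erase_of_mem hy.1, hS]⟩, hy.2⟩
  · intro a ha b hb hab
    rw [Finset.mem_filter] at ha hb
    by_contra hne
    have h5 : a ∈ S.erase b := Finset.mem_erase.mpr ⟨hne, ha.1⟩
    have h6 : S.erase a = S.erase b := hab
    rw [← h6] at h5
    exact absurd h5 (Finset.notMem_erase a _)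
  · intro e he
    rw [Finset.mem_filter, Finset.mem_powersetCard] at he
    have h5 : (S \ e).card = 1 := by
      rw [Finset.card_sdiff_of_subset he.1.1, hS, he.1.2]
    obtain ⟨y, hy⟩ := Finset.card_eq_one.mp h5
    have hy1 : y ∈ S \ e := by rw [hy]; exact Finset.mem_singleton_self y
    rw [Finset.mem_sdiff] at hy1
    have h6 : S.erase y = e := by
      symm
      apply Finset.eq_of_subset_of_card_le
      · intro z hz
        rw [Finset.mem_erase]
        exact ⟨fun h => hy1.2 (h ▸ hz), he.1.1 hz⟩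
      · rw [Finset.card_erase_of_mem hy1.1, hS, he.1.2]
    refine ⟨y, ?_, h6⟩
    rw [Finset.mem_filter]
    exact ⟨hy1.1, by rw [h6]; exact he.2⟩

/-- Every five vertices span an even number of edges of `GH f A`. -/
theorem GH_even (f : V × V → ℤˣ) (A S : Finset V) (hS : S.card = 5) :
    Even ((S.powersetCard 4).filter fun e => e ∈ GH f A).card := by
  classical
  rw [count_erase _ S hS]
  set P := S ∩ A with hPdef
  set Q := S \ A with hQdef
  have hPQ : P.card + Q.card = 5 := by rw [← hS]; exact card_inter_sdiff S A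
  have hera : ∀ x ∈ P, (S.erase x) ∩ A = P.erase x ∧ (S.erase x) \ A = Q := by
    intro x hx
    have hxA : x ∈ A := (Finset.mem_inter.mp hx).2
    constructor
    · ext z
      simp only [hPdef, Finset.mem_inter, Finset.mem_erase]
      tauto
    · ext z
      simp only [hQdef, Finset.mem_sdiff, Finset.mem_erase]
      constructor
      · rintro ⟨⟨_, h1⟩, h2⟩
        exact ⟨h1, h2⟩
      · rintro ⟨h1, h2⟩
        exact ⟨⟨fun h => h2 (h ▸ hxA), h1⟩, h2⟩
  have herb : ∀ x ∈ Q, (S.erase x) ∩ A = P ∧ (S.erase x) \ A = Q.erase x := by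
    intro x hx
    have hxA : x ∉ A := (Finset.mem_sdiff.mp hx).2
    constructor
    · ext z
      simp only [hPdef, Finset.mem_inter, Finset.mem_erase]
      constructor
      · rintro ⟨⟨_, h1⟩, h2⟩
        exact ⟨h1, h2⟩
      · rintro ⟨h1, h2⟩
        exact ⟨⟨fun h => hxA (h ▸ h2), h1⟩, h2⟩
    · ext z
      simp only [hQdef, Finset.mem_sdiff, Finset.mem_erase]
      tauto
  have hPS : P ⊆ S := Finset.inter_subset_left
  have hQS : Q ⊆ S := Finset.sdiff_subset
  have hcard : ∀ x ∈ S, (S.erase x).card = 4 := by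
    intro x hx
    rw [Finset.card_erase_of_mem hx, hS]
  -- split the count
  have hPP : ∀ x ∈ P, (S.erase x ∈ GH f A ↔ (Odd (P.card - 1) ∨
      (P.card - 1 = 2 ∧ sgn f (P.erase x) Q = -1))) := by
    intro x hx
    rw [mem_GH, (hera x hx).1, (hera x hx).2, Finset.card_erase_of_mem hx]
    exact and_iff_right (hcard x (hPS hx))
  have hQQ : ∀ x ∈ Q, (S.erase x ∈ GH f A ↔ (Odd P.card ∨
      (P.card = 2 ∧ sgn f P (Q.erase x) = -1))) := by
    intro x hx
    rw [mem_GH, (herb x hx).1, (herb x hx).2]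
    exact and_iff_right (hcard x (hQS hx))
  have hsplit : (S.filter fun y => S.erase y ∈ GH f A).card =
      (P.filter fun y => Odd (P.card - 1) ∨ (P.card - 1 = 2 ∧ sgn f (P.erase y) Q = -1)).card +
      (Q.filter fun y => Odd P.card ∨ (P.card = 2 ∧ sgn f P (Q.erase y) = -1)).card := by
    have h1 : (S.filter fun y => S.erase y ∈ GH f A) =
        (P.filter fun y => Odd (P.card - 1) ∨ (P.card - 1 = 2 ∧ sgn f (P.erase y) Q = -1)) ∪
        (Q.filter fun y => Odd P.card ∨ (P.card = 2 ∧ sgn f P (Q.erase y) = -1)) := by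
      ext y
      rw [Finset.mem_union, Finset.mem_filter, Finset.mem_filter, Finset.mem_filter]
      constructor
      · rintro ⟨h1, h2⟩
        by_cases hyA : y ∈ A
        · have hy : y ∈ P := Finset.mem_inter.mpr ⟨h1, hyA⟩
          exact Or.inl ⟨hy, (hPP y hy).mp h2⟩
        · have hy : y ∈ Q := Finset.mem_sdiff.mpr ⟨h1, hyA⟩
          exact Or.inr ⟨hy, (hQQ y hy).mp h2⟩
      · rintro (⟨hy, h2⟩ | ⟨hy, h2⟩)
        · exact ⟨hPS hy, (hPP y hy).mpr h2⟩
        · exact ⟨hQS hy, (hQQ y hy).mpr h2⟩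
    rw [h1, Finset.card_union_of_disjoint]
    refine Finset.disjoint_filter_filter ?_
    rw [Finset.disjoint_left]
    intro y hy hy'
    exact (Finset.mem_sdiff.mp hy').2 (Finset.mem_inter.mp hy).2
  rw [hsplit]
  have hP5 : P.card ≤ 5 := by omega
  have hall : ∀ (T : Finset V) (p : V → Prop) [DecidablePred p], (∀ y ∈ T, p y) →
      (T.filter p).card = T.card := by
    intro T p _ h
    rw [Finset.filter_true_of_mem h]
  have hnone : ∀ (T : Finset V) (p : V → Prop) [DecidablePred p], (∀ y ∈ T, ¬ p y) →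
      (T.filter p).card = 0 := by
    intro T p _ h
    rw [Finset.filter_false_of_mem h, Finset.card_empty]
  interval_cases hP : P.card
  · -- no vertex in A
    rw [hnone Q _ (by
      rintro y _ (h | h)
      · exact absurd h (by decide)
      · exact absurd h.1 (by decide)), Finset.card_eq_zero.mp hP]
    simp
  · rw [hall Q _ (fun y _ => Or.inl (by decide)), hnone P _ (by
      rintro y _ (h | h)
      · exact absurd h (by decide)
      · exact absurd h.1 (by decide))]
    have : Q.card = 4 := by omega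
    rw [this]
    decide
  · have hQ3 : Q.card = 3 := by omega
    rw [hall P _ (fun y _ => Or.inl (by decide)), hP]
    refine Even.add (by decide) ?_
    have h1 : (Q.filter fun y => Odd 2 ∨ (2 = 2 ∧ sgn f P (Q.erase y) = -1)) =
        Q.filter fun y => ∏ b ∈ Q.erase y, (∏ a ∈ P, f (a, b)) = -1 := by
      refine Finset.filter_congr fun y _ => ?_
      have h2 : sgn f P (Q.erase y) = ∏ b ∈ Q.erase y, ∏ a ∈ P, f (a, b) := by
        rw [sgn, Finset.prod_product_right]
      rw [h2]
      constructor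
      · rintro (h | h)
        · exact absurd h (by decide)
        · exact h.2
      · intro h
        exact Or.inr ⟨rfl, h⟩
    rw [h1]
    exact even_filter_erase Q hQ3 _
  · have hQ2 : Q.card = 2 := by omega
    rw [hall Q _ (fun y _ => Or.inl (by decide)), hQ2]
    refine Even.add ?_ (by decide)
    have h1 : (P.filter fun y => Odd (3 - 1) ∨ (3 - 1 = 2 ∧ sgn f (P.erase y) Q = -1)) =
        P.filter fun y => ∏ a ∈ P.erase y, (∏ b ∈ Q, f (a, b)) = -1 := by
      refine Finset.filter_congr fun y _ => ?_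
      have h2 : sgn f (P.erase y) Q = ∏ a ∈ P.erase y, ∏ b ∈ Q, f (a, b) := by
        rw [sgn, Finset.prod_product]
      rw [h2]
      constructor
      · rintro (h | h)
        · exact absurd h (by decide)
        · exact h.2
      · intro h
        exact Or.inr ⟨rfl, h⟩
    rw [h1]
    exact even_filter_erase P hP _
  · rw [hall P _ (fun y _ => Or.inl (by decide)), hP, hnone Q _ (by
      rintro y _ (h | h)
      · exact absurd h (by decide)
      · exact absurd h.1 (by decide))]
    decide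
  · have hQ0 : Q.card = 0 := by omega
    rw [hnone P _ (by
      rintro y _ (h | h)
      · exact absurd h (by decide)
      · exact absurd h.1 (by decide)), Finset.card_eq_zero.mp hQ0]
    simp

end even

theorem GH_evenH {n : ℕ} (f : Fin n × Fin n → ℤˣ) (A : Finset (Fin n)) : EvenH n (GH f A) :=
  fun S hS => GH_even f A S hS

theorem lower_even_card (n : ℕ) : ∃ H : Finset (Finset (Fin n)), (∀ e ∈ H, e.card = 4) ∧
    EvenH n H ∧
    (∀ S : Finset (Fin n), S.card = 5 → ∃ e ∈ S.powersetCard 4, e ∉ H) ∧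
    ((n.choose 4 : ℕ) : ℝ) - 5 / 16 * (((n : ℝ) + 1) ^ 4 / 24) ≤ (H.card : ℝ) := by
  classical
  set A : Finset (Fin n) := univ.filter fun x => (x : ℕ) < n / 2 with hA
  have hAc : A.card = n / 2 := by
    have : A.card = (Finset.range (n / 2)).card := by
      refine Finset.card_bij (fun x _ => (x : ℕ)) ?_ ?_ ?_
      · intro x hx
        rw [hA, Finset.mem_filter] at hx
        exact Finset.mem_range.mpr hx.2
      · intro x _ y _ h
        exact Fin.ext h
      · intro k hk
        have hk' := Finset.mem_range.mp hk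
        refine ⟨⟨k, by omega⟩, ?_, rfl⟩
        rw [hA, Finset.mem_filter]
        exact ⟨Finset.mem_univ _, hk'⟩
    rw [this, Finset.card_range]
  have hBc : Aᶜ.card = n - n / 2 := by
    rw [Finset.card_compl, hAc, Fintype.card_fin]
  obtain ⟨f, hf⟩ := exists_sign A Aᶜ
  refine ⟨GH f A, fun e he => ((mem_GH f A e).mp he).1, GH_evenH f A,
    fun S hS => GH_free f A S hS, ?_⟩
  have h1 := GH_compl f A
  rw [Finset.card_product, Finset.card_powersetCard, Finset.card_powersetCard] at hf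
  set c := (((A.powersetCard 2) ×ˢ (Aᶜ.powersetCard 2)).filter fun z => sgn f z.1 z.2 = 1).card
  have hsub : GH f A ⊆ univ.powersetCard 4 := Finset.filter_subset _ _
  have h2 := Finset.card_sdiff_add_card_eq_card hsub
  rw [Finset.card_powersetCard, Finset.card_univ, Fintype.card_fin] at h2
  rw [hAc, hBc] at h1 hf
  have h3 : (((univ.powersetCard 4) \ GH f A).card : ℝ) + ((GH f A).card : ℝ) = ((n.choose 4 : ℕ) : ℝ) := by
    exact_mod_cast h2
  have h4 : (((univ.powersetCard 4) \ GH f A).card : ℝ) ≤ ((n / 2).choose 4 : ℕ) +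
      ((n - n / 2).choose 4 : ℕ) + (c : ℝ) := by exact_mod_cast h1
  have h5 : 2 * (c : ℝ) ≤ ((n / 2).choose 2 : ℕ) * ((n - n / 2).choose 2 : ℕ) := by
    exact_mod_cast hf
  have ha : ((n / 2 : ℕ) : ℝ) ≤ ((n : ℝ) + 1) / 2 := by
    have : 2 * (n / 2) ≤ n + 1 := by omega
    have h : 2 * ((n / 2 : ℕ) : ℝ) ≤ (n : ℝ) + 1 := by exact_mod_cast this
    linarith
  have hb : ((n - n / 2 : ℕ) : ℝ) ≤ ((n : ℝ) + 1) / 2 := by
    have : 2 * (n - n / 2) ≤ n + 1 := by omega
    have h : 2 * ((n - n / 2 : ℕ) : ℝ) ≤ (n : ℝ) + 1 := by exact_mod_cast this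
    linarith
  have ha0 : (0 : ℝ) ≤ ((n / 2 : ℕ) : ℝ) := Nat.cast_nonneg _
  have hb0 : (0 : ℝ) ≤ ((n - n / 2 : ℕ) : ℝ) := Nat.cast_nonneg _
  set x : ℝ := ((n : ℝ) + 1) / 2 with hx
  have hx0 : 0 ≤ x := by positivity
  have g1 : (((n / 2).choose 4 : ℕ) : ℝ) ≤ x ^ 4 / 24 :=
    le_trans (choose4_le _) (div_le_div_of_nonneg_right (pow_le_pow_left₀ ha0 ha 4) (by norm_num))
  have g2 : (((n - n / 2).choose 4 : ℕ) : ℝ) ≤ x ^ 4 / 24 :=
    le_trans (choose4_le _) (div_le_div_of_nonneg_right (pow_le_pow_left₀ hb0 hb 4) (by norm_num))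
  have g3 : (((n / 2).choose 2 : ℕ) : ℝ) ≤ x ^ 2 / 2 :=
    le_trans (choose2_le _) (div_le_div_of_nonneg_right (pow_le_pow_left₀ ha0 ha 2) (by norm_num))
  have g4 : (((n - n / 2).choose 2 : ℕ) : ℝ) ≤ x ^ 2 / 2 :=
    le_trans (choose2_le _) (div_le_div_of_nonneg_right (pow_le_pow_left₀ hb0 hb 2) (by norm_num))
  have g5 : (((n / 2).choose 2 : ℕ) : ℝ) * (((n - n / 2).choose 2 : ℕ) : ℝ) ≤
      (x ^ 2 / 2) * (x ^ 2 / 2) := mul_le_mul g3 g4 (Nat.cast_nonneg _) (by positivity)
  have e1 : ((n : ℝ) + 1) ^ 4 = 16 * x ^ 4 := by rw [hx]; ring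
  rw [e1]
  nlinarith [h3, h4, h5, g1, g2, g5]

/-- For all large `n` there are 4-graphs in which every five vertices span an even number of edges
(so none contains `K_5^4`), with at least `(11/16 - ε) (n choose 4)` edges. -/
theorem lower_even : ∀ ε : ℝ, 0 < ε → ∃ N : ℕ, ∀ n : ℕ, N ≤ n → ∃ H : Finset (Finset (Fin n)),
    (∀ e ∈ H, e.card = 4) ∧ EvenH n H ∧
    ((11 / 16 : ℝ) - ε) * ((n.choose 4 : ℕ) : ℝ) ≤ (H.card : ℝ) := by
  intro ε hε
  have h1 : Filter.Tendsto (fun n : ℕ => (1 + 1 / (n : ℝ)) ^ 4) Filter.atTop (nhds 1) := by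
    have h0 : Filter.Tendsto (fun n : ℕ => (1 : ℝ) / (n : ℝ)) Filter.atTop (nhds 0) :=
      tendsto_one_div_atTop_nhds_zero_nat
    have h1 := ((tendsto_const_nhds (x := (1 : ℝ))).add h0).pow 4
    simpa using h1
  have h2 := tendsto_desc 4
  have h3 : Filter.Tendsto (fun n : ℕ => (5 / 16 : ℝ) * (1 + 1 / (n : ℝ)) ^ 4 -
      (5 / 16 + ε) * ((n.descFactorial 4 : ℝ) / (n : ℝ) ^ 4)) Filter.atTop
      (nhds ((5 / 16 : ℝ) * 1 - (5 / 16 + ε) * 1)) := (h1.const_mul _).sub (h2.const_mul _)
  have h4 := h3.eventually (gt_mem_nhds (show (5 / 16 : ℝ) * 1 - (5 / 16 + ε) * 1 < 0 by linarith))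
  obtain ⟨N, hN⟩ := Filter.eventually_atTop.mp h4
  refine ⟨max N 1, fun n hn => ?_⟩
  have hn1 : 1 ≤ n := le_trans (le_max_right _ _) hn
  have hn0 : (0 : ℝ) < n := by exact_mod_cast hn1
  have h5 := hN n (le_trans (le_max_left _ _) hn)
  obtain ⟨H, hH1, hH2, _, hH3⟩ := lower_even_card n
  refine ⟨H, hH1, hH2, le_trans ?_ hH3⟩
  have h6 : (n.descFactorial 4 : ℝ) = 24 * ((n.choose 4 : ℕ) : ℝ) := by
    rw [Nat.descFactorial_eq_factorial_mul_choose]
    push_cast
    norm_num [Nat.factorial]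
  have h7 : (5 / 16 : ℝ) * ((n : ℝ) + 1) ^ 4 ≤ (5 / 16 + ε) * (24 * ((n.choose 4 : ℕ) : ℝ)) := by
    rw [← h6]
    have h8 : (5 / 16 : ℝ) * (1 + 1 / (n : ℝ)) ^ 4 ≤
        (5 / 16 + ε) * ((n.descFactorial 4 : ℝ) / (n : ℝ) ^ 4) := by linarith
    have h9 := mul_le_mul_of_nonneg_right h8 (pow_pos hn0 4).le
    have e1 : (5 / 16 : ℝ) * (1 + 1 / (n : ℝ)) ^ 4 * (n : ℝ) ^ 4 = (5 / 16 : ℝ) * ((n : ℝ) + 1) ^ 4 := by
      rw [mul_assoc, ← mul_pow]
      congr 2
      field_simp
    have e2 : (5 / 16 + ε) * ((n.descFactorial 4 : ℝ) / (n : ℝ) ^ 4) * (n : ℝ) ^ 4 =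
        (5 / 16 + ε) * (n.descFactorial 4 : ℝ) := by
      field_simp
    rwa [e1, e2] at h9
  linarith

end Pool.Agent.Lib.MP_afdd4d_co.K8
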