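import Pool.Agent.Lib.MP_afdd4d_co.K8.Coc

/-!
# The upper bound from two levels of local inequalities

The first level has five-vertex types and seven vertices, the second level has six-vertex types and
eight vertices, and its kernel is restricted to even flags.
-/

namespace Pool.Agent.Lib.MP_afdd4d_co.K8

open Finset

/-! ### Counting -/

theorem exists_eq_succAbove_comp {m : ℕ} (v : Fin (m + 1)) (g : Fin m → Fin (m + 1))
    (hg : Function.Injective g) (hv : ∀ i, g i ≠ v) :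
    ∃ τ : Equiv.Perm (Fin m), ∀ i, g i = v.succAbove (τ i) := by
  have h : ∀ i : Fin m, ∃ z : Fin m, v.succAbove z = g i := fun i => Fin.exists_succAbove_eq (hv i)
  choose f hf using h
  have hfi : Function.Injective f := by
    intro a b hab
    apply hg
    rw [← hf, ← hf, hab]
  exact ⟨Equiv.ofBijective f (Finite.injective_iff_bijective.mp hfi), fun i => (hf i).symm⟩

theorem DS_N8 {n m : ℕ} (hm : 4 ≤ m) (H : Finset (Finset (Fin n))) (t : Fin (m + 1) → Fin n) :
    DS (fun s : Fin m → Fin n => N8 H s) t = (m - 3) * N8 H t := by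
  unfold DS N8
  have h1 : ∀ x : Fin (m + 1), ∑ T ∈ (univ : Finset (Fin m)).powersetCard 4,
      (E H (t ∘ x.succAbove) T).toNat =
      ∑ T ∈ (univ : Finset (Fin (m + 1))).powersetCard 4, if x ∉ T then (E H t T).toNat else 0 := by
    intro x
    rw [← Finset.sum_filter]
    refine Finset.sum_bij (fun T _ => T.image x.succAbove) ?_ ?_ ?_ ?_
    · intro T hT
      rw [Finset.mem_filter, Finset.mem_powersetCard]
      refine ⟨⟨Finset.subset_univ _, ?_⟩, ?_⟩
      · rw [Finset.card_image_of_injective _ Fin.succAbove_right_injective]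
        exact (Finset.mem_powersetCard.mp hT).2
      · rw [Finset.mem_image]
        rintro ⟨z, _, hz⟩
        exact Fin.succAbove_ne x z hz
    · intro T _ T' _ h
      exact Finset.image_injective Fin.succAbove_right_injective h
    · intro T hT
      rw [Finset.mem_filter, Finset.mem_powersetCard] at hT
      obtain ⟨⟨_, hT4⟩, hxT⟩ := hT
      have e : (univ.filter fun z => x.succAbove z ∈ T).image x.succAbove = T := by
        ext y
        rw [Finset.mem_image]
        constructor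
        · rintro ⟨z, hz, rfl⟩
          exact (Finset.mem_filter.mp hz).2
        · intro hy
          obtain ⟨z, hz⟩ := Fin.exists_succAbove_eq (x := y) (y := x) (fun h => hxT (h ▸ hy))
          exact ⟨z, Finset.mem_filter.mpr ⟨Finset.mem_univ _, hz ▸ hy⟩, hz⟩
      refine ⟨univ.filter fun z => x.succAbove z ∈ T, ?_, e⟩
      rw [Finset.mem_powersetCard]
      refine ⟨Finset.subset_univ _, ?_⟩
      rw [← Finset.card_image_of_injective _ (Fin.succAbove_right_injective (p := x)), e, hT4]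
    · intro T _
      rw [E_comp]
  rw [Finset.sum_congr rfl fun x _ => h1 x, Finset.sum_comm, Finset.mul_sum]
  refine Finset.sum_congr rfl fun T hT => ?_
  rw [← Finset.sum_filter, Finset.sum_const, smul_eq_mul]
  congr 1
  have h2 : (univ.filter fun x : Fin (m + 1) => x ∉ T) = Tᶜ := by
    ext x
    simp
  rw [h2, Finset.card_compl, Fintype.card_fin, (Finset.mem_powersetCard.mp hT).2]
  omega

/-! ### Even flags -/

section flags
variable {n : ℕ} (H : Finset (Finset (Fin n)))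

/-- The kernel restricted to even flags. -/
def evk {k : ℕ} (g : (Fin k → Fin n) → Fin n → Fin n → ℤ) (s : Fin k → Fin n) (u w : Fin n) : ℤ :=
  if EvT H (Fin.snoc s u : Fin (k + 1) → Fin n) ∧ EvT H (Fin.snoc s w : Fin (k + 1) → Fin n) then
    g s u w else 0

theorem evT_snoc_iff {k : ℕ} (t : Fin (k + 1 + 1) → Fin n) (a : Fin k → Fin (k + 1 + 1))
    (b v : Fin (k + 1 + 1)) (ha : Function.Injective a) (hab : ∀ i, a i ≠ b) (hav : ∀ i, a i ≠ v)
    (hbv : b ≠ v) :
    EvT H (Fin.snoc (t ∘ a) (t b) : Fin (k + 1) → Fin n) ↔ EvT H (t ∘ v.succAbove) := by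
  set g : Fin (k + 1) → Fin (k + 1 + 1) := Fin.snoc a b with hg
  have e1 : (Fin.snoc (t ∘ a) (t b) : Fin (k + 1) → Fin n) = t ∘ g := by
    funext i
    refine Fin.lastCases ?_ (fun j => ?_) i
    · simp [hg]
    · simp [hg]
  have hinj : Function.Injective g := by
    intro i j hij
    revert hij
    refine Fin.lastCases ?_ (fun i' => ?_) i
    · refine Fin.lastCases (fun _ => rfl) (fun j' => ?_) j
      intro hij
      simp only [hg, Fin.snoc_last, Fin.snoc_castSucc] at hij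
      exact absurd hij.symm (hab j')
    · refine Fin.lastCases ?_ (fun j' => ?_) j
      · intro hij
        simp only [hg, Fin.snoc_last, Fin.snoc_castSucc] at hij
        exact absurd hij (hab i')
      · intro hij
        simp only [hg, Fin.snoc_castSucc] at hij
        rw [ha hij]
  have hgv : ∀ i, g i ≠ v := by
    intro i
    refine Fin.lastCases ?_ (fun j => ?_) i
    · simpa [hg] using hbv
    · simpa [hg] using hav j
  obtain ⟨τ, hτ⟩ := exists_eq_succAbove_comp v g hinj hgv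
  have e2 : t ∘ g = (t ∘ v.succAbove) ∘ τ := by
    funext i
    simp only [Function.comp_apply]
    rw [hτ]
  rw [e1, e2, evT_perm]

theorem evk_term {k : ℕ} (g : (Fin k → Fin n) → Fin n → Fin n → ℤ) (t : Fin (k + 1 + 1) → Fin n)
    (x : Fin (k + 1 + 1)) (y : Fin (k + 1)) :
    evk H g (t ∘ x.succAbove ∘ y.succAbove) (t x) (t (x.succAbove y)) =
      if x.succAbove y ∈ JT H t ∧ x ∈ JT H t then
        g (t ∘ x.succAbove ∘ y.succAbove) (t x) (t (x.succAbove y)) else 0 := by
  unfold evk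
  have hinj : Function.Injective (x.succAbove ∘ y.succAbove) :=
    Fin.succAbove_right_injective.comp Fin.succAbove_right_injective
  have h1 := evT_snoc_iff H t (x.succAbove ∘ y.succAbove) x (x.succAbove y) hinj
    (fun i => Fin.succAbove_ne x _)
    (fun i h => Fin.succAbove_ne y i (Fin.succAbove_right_injective h))
    (Fin.succAbove_ne x y).symm
  have h2 := evT_snoc_iff H t (x.succAbove ∘ y.succAbove) (x.succAbove y) x hinj
    (fun i h => Fin.succAbove_ne y i (Fin.succAbove_right_injective h))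
    (fun i => Fin.succAbove_ne x _)
    (Fin.succAbove_ne x y)
  have e : (Fin.snoc (t ∘ x.succAbove ∘ y.succAbove) (t x) : Fin (k + 1) → Fin n) =
      (Fin.snoc (t ∘ (x.succAbove ∘ y.succAbove)) (t x) : Fin (k + 1) → Fin n) := rfl
  refine if_congr ?_ rfl rfl
  rw [JT, Finset.mem_filter, Finset.mem_filter]
  simp only [Finset.mem_univ, true_and]
  exact and_congr h1 h2

/-- The pair sum of an even kernel bounded by `q`. -/
theorem PS_evk_le {k : ℕ} (g : (Fin k → Fin n) → Fin n → Fin n → ℤ) (q : ℤ)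
    (hg : ∀ s u w, g s u w ≤ q) (t : Fin (k + 1 + 1) → Fin n) :
    PS (evk H g) t ≤ ((JT H t).card : ℤ) * (((JT H t).card : ℤ) - 1) * q := by
  unfold PS
  simp_rw [evk_term]
  have h1 : ∀ x : Fin (k + 1 + 1), ∑ y : Fin (k + 1),
      (if x.succAbove y ∈ JT H t ∧ x ∈ JT H t then
        g (t ∘ x.succAbove ∘ y.succAbove) (t x) (t (x.succAbove y)) else 0) ≤
      if x ∈ JT H t then (((JT H t).card : ℤ) - 1) * q else 0 := by
    intro x
    by_cases hx : x ∈ JT H t
    · rw [if_pos hx]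
      have h2 : ∀ y : Fin (k + 1), (if x.succAbove y ∈ JT H t ∧ x ∈ JT H t then
          g (t ∘ x.succAbove ∘ y.succAbove) (t x) (t (x.succAbove y)) else 0) ≤
          if x.succAbove y ∈ JT H t then q else 0 := by
        intro y
        by_cases hy : x.succAbove y ∈ JT H t
        · rw [if_pos ⟨hy, hx⟩, if_pos hy]
          exact hg _ _ _
        · rw [if_neg fun h => hy h.1, if_neg hy]
      refine le_trans (Finset.sum_le_sum fun y _ => h2 y) (le_of_eq ?_)
      rw [← Finset.sum_filter, Finset.sum_const, nsmul_eq_mul]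
      congr 1
      have h3 : ((univ.filter fun y : Fin (k + 1) => x.succAbove y ∈ JT H t).image
          x.succAbove) = (JT H t).erase x := by
        ext z
        rw [Finset.mem_image, Finset.mem_erase]
        constructor
        · rintro ⟨y, hy, rfl⟩
          exact ⟨Fin.succAbove_ne x y, (Finset.mem_filter.mp hy).2⟩
        · rintro ⟨hz, hzJ⟩
          obtain ⟨y, hy⟩ := Fin.exists_succAbove_eq hz
          exact ⟨y, Finset.mem_filter.mpr ⟨Finset.mem_univ _, hy ▸ hzJ⟩, hy⟩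
      have h4 := congrArg Finset.card h3
      rw [Finset.card_image_of_injective _ Fin.succAbove_right_injective,
        Finset.card_erase_of_mem hx] at h4
      have h5 : 1 ≤ (JT H t).card := Finset.card_pos.mpr ⟨x, hx⟩
      rw [h4, Nat.cast_sub h5]
      rfl
    · rw [if_neg hx]
      refine le_of_eq (Finset.sum_eq_zero fun y _ => ?_)
      rw [if_neg fun h => hx h.2]
  refine le_trans (Finset.sum_le_sum fun x _ => h1 x) (le_of_eq ?_)
  rw [← Finset.sum_filter, Finset.sum_const, nsmul_eq_mul]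
  have h6 : (univ.filter fun x => x ∈ JT H t) = JT H t := by
    ext x
    simp
  rw [h6]
  ring

/-- The sum over the seven-vertex subsets of a function with different lower bounds for even and
other tuples. -/
theorem DS_ge {m : ℕ} (P : (Fin m → Fin n) → ℤ) (s0 me : ℤ) (t : Fin (m + 1) → Fin n)
    (h1 : ∀ x : Fin (m + 1), ¬ EvT H (t ∘ x.succAbove) → s0 ≤ P (t ∘ x.succAbove))
    (h2 : ∀ x : Fin (m + 1), EvT H (t ∘ x.succAbove) → -me ≤ P (t ∘ x.succAbove)) :
    ((m : ℤ) + 1 - (JT H t).card) * s0 - ((JT H t).card : ℤ) * me ≤ DS P t := by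
  unfold DS
  have h3 : ∀ x : Fin (m + 1), (if x ∈ JT H t then -me else s0) ≤ P (t ∘ x.succAbove) := by
    intro x
    by_cases hx : x ∈ JT H t
    · rw [if_pos hx]
      exact h2 x (Finset.mem_filter.mp hx).2
    · rw [if_neg hx]
      exact h1 x fun h => hx (Finset.mem_filter.mpr ⟨Finset.mem_univ _, h⟩)
  refine le_trans (le_of_eq ?_) (Finset.sum_le_sum fun x _ => h3 x)
  rw [Finset.sum_ite, Finset.sum_const, Finset.sum_const, nsmul_eq_mul, nsmul_eq_mul]
  have h4 : (univ.filter fun x => x ∈ JT H t) = JT H t := by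
    ext x
    simp
  have h5 : (univ.filter fun x => x ∉ JT H t) = (JT H t)ᶜ := by
    ext x
    simp
  have h6 : ((JT H t)ᶜ.card : ℤ) = (m : ℤ) + 1 - (JT H t).card := by
    have h7 := Finset.card_add_card_compl (JT H t)
    rw [Fintype.card_fin] at h7
    have h8 : (((JT H t).card + (JT H t)ᶜ.card : ℕ) : ℤ) = ((m + 1 : ℕ) : ℤ) := by
      exact_mod_cast h7
    push_cast at h8
    linarith
  rw [h4, h5, h6]
  ring

end flags

/-! ### The upper bound -/

/-- A kernel for all hypergraphs. -/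
structure Kern (k : ℕ) where
  f : ∀ {n : ℕ}, Finset (Finset (Fin n)) → (Fin k → Fin n) → Fin n → Fin n → ℤ
  C : ℝ
  psd : ∀ {n : ℕ} (H : Finset (Finset (Fin n))) (s : Fin k → Fin n),
    0 ≤ ∑ u, ∑ w, ((f H s u w : ℤ) : ℝ)
  bd : ∀ {n : ℕ} (H : Finset (Finset (Fin n))) s u w, ((f H s u w : ℤ) : ℝ) ≤ C

theorem DS_PS_ge {V : Type*} [Fintype V] [DecidableEq V] (κ : (Fin 5 → V) → V → V → ℝ) (C : ℝ)
    (hκ : ∀ s, 0 ≤ ∑ u, ∑ w, κ s u w) (hC : ∀ s u w, κ s u w ≤ C) :
    -(8 * (42 * C) * ((Fintype.card V : ℝ) ^ (4 + 4) - ((Fintype.card V).descFactorial (4 + 4) : ℝ))) ≤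
      ∑ t ∈ inj V (4 + 4), DS (m := 7) (PS κ) t := by
  unfold DS
  rw [Finset.sum_comm]
  have h1 : ∀ x : Fin (7 + 1), -((42 * C) *
      ((Fintype.card V : ℝ) ^ (4 + 4) - ((Fintype.card V).descFactorial (4 + 4) : ℝ))) ≤
      ∑ t ∈ inj V (4 + 4), PS κ ((t : Fin (7 + 1) → V) ∘ x.succAbove) := by
    intro x
    have h2 := PS_inj_ge (V := V) (k := 5) 1 κ C hκ hC x.succAbove Fin.succAbove_right_injective
    refine le_trans (le_of_eq ?_) h2
    norm_num
  calc _ = ∑ _x : Fin (7 + 1), -((42 * C) *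
      ((Fintype.card V : ℝ) ^ (4 + 4) - ((Fintype.card V).descFactorial (4 + 4) : ℝ))) := by
          rw [Finset.sum_const, Finset.card_univ, Fintype.card_fin, nsmul_eq_mul]
          norm_num
          ring
    _ ≤ _ := Finset.sum_le_sum fun x _ => h1 x

theorem cast_PS {V : Type*} {k : ℕ} (κ : (Fin k → V) → V → V → ℤ) (t : Fin (k + 1 + 1) → V) :
    ((PS κ t : ℤ) : ℝ) = PS (fun s u w => ((κ s u w : ℤ) : ℝ)) t := by
  unfold PS
  push_cast
  rfl

theorem cast_DS {V : Type*} {m : ℕ} (P : (Fin m → V) → ℤ) (t : Fin (m + 1) → V) :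
    ((DS P t : ℤ) : ℝ) = DS (fun s => ((P s : ℤ) : ℝ)) t := by
  unfold DS
  push_cast
  rfl

/-- The upper bound from the local inequalities on eight-tuples. -/
theorem bound8 (κ5 : Kern 5) (κ6 : Kern 6) (a Lo : ℤ) (ha : 0 < a) (lam : ℝ)
    (hlam : lam * (35 * a) ≤ Lo)
    (h : ∀ (n : ℕ) (H : Finset (Finset (Fin n))), (∀ e ∈ H, e.card = 4) →
      (∀ S : Finset (Fin n), S.card = 5 → ∃ e ∈ S.powersetCard 4, e ∉ H) →
      ∀ t : Fin (7 + 1) → Fin n, Function.Injective t →
        16 * Lo + DS (PS (κ5.f H)) t + PS (κ6.f H) t ≤ 8 * a * (N8 H t : ℤ)) :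
    ∀ ε : ℝ, 0 < ε → ∃ N : ℕ, ∀ n : ℕ, N ≤ n → ∀ H : Finset (Finset (Fin n)),
      (∀ e ∈ H, e.card = 4) →
      (∀ S : Finset (Fin n), S.card = 5 → ∃ e ∈ S.powersetCard 4, e ∉ H) →
      (H.card : ℝ) ≤ (1 - lam + ε) * ((n.choose 4 : ℕ) : ℝ) := by
  have haR : (0 : ℝ) < a := by exact_mod_cast ha
  refine skel8 (16 * Lo) (8 * a) (8 * (42 * κ5.C) + 56 * κ6.C) lam (by positivity) ?_ ?_
  · have : lam * (8 * (a : ℝ) * 70) = 16 * (lam * (35 * a)) := by ring
    rw [this]
    linarith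
  · intro n H h4 h5
    refine ⟨fun t => ((DS (PS (κ5.f H)) t : ℤ) : ℝ) + ((PS (κ6.f H) t : ℤ) : ℝ), ?_, ?_⟩
    · rw [Finset.sum_add_distrib]
      have h1 := DS_PS_ge (V := Fin n) (fun s u w => ((κ5.f H s u w : ℤ) : ℝ)) κ5.C (κ5.psd H)
        (κ5.bd H)
      have h2 := PS_inj_ge (V := Fin n) (k := 6) 0 (fun s u w => ((κ6.f H s u w : ℤ) : ℝ)) κ6.C
        (κ6.psd H) (κ6.bd H) id Function.injective_id
      rw [Fintype.card_fin] at h1 h2
      have e1 : ∀ t : Fin (4 + 4) → Fin n, ((DS (m := 7) (PS (κ5.f H)) t : ℤ) : ℝ) =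
          DS (m := 7) (PS fun s u w => ((κ5.f H s u w : ℤ) : ℝ)) t := by
        intro t
        rw [cast_DS]
        congr 1
        funext s
        exact cast_PS _ s
      have e2 : ∀ t : Fin (4 + 4) → Fin n, ((PS (k := 6) (κ6.f H) t : ℤ) : ℝ) =
          PS (k := 6) (fun s u w => ((κ6.f H s u w : ℤ) : ℝ)) t := fun t => cast_PS _ t
      rw [Finset.sum_congr rfl fun t _ => e1 t, Finset.sum_congr rfl fun t _ => e2 t]
      have h3 : -(56 * κ6.C * ((n : ℝ) ^ (4 + 4) - (n.descFactorial (4 + 4) : ℝ))) ≤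
          ∑ t ∈ inj (Fin n) (4 + 4), PS (k := 6) (fun s u w => ((κ6.f H s u w : ℤ) : ℝ)) t := by
        refine le_trans (le_of_eq ?_) h2
        norm_num
      linarith
    · intro t ht
      have h1 := h n H h4 h5 t ht
      have h2 : (((16 * Lo + DS (PS (κ5.f H)) t + PS (κ6.f H) t : ℤ)) : ℝ) ≤
          ((8 * a * (N8 H t : ℤ) : ℤ) : ℝ) := by exact_mod_cast h1
      push_cast at h2
      linarith

theorem lin_aux (f g : Fin (7 + 1) → ℤ) (a Lo N : ℤ) (h : ∑ x, f x = 4 * N) :
    ∑ x, (2 * a * f x - 2 * Lo - g x) = 8 * a * N - 16 * Lo - ∑ x, g x := by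
  rw [Finset.sum_sub_distrib, Finset.sum_sub_distrib, ← Finset.mul_sum, h, Finset.sum_const,
    Finset.card_univ, Fintype.card_fin, nsmul_eq_mul]
  push_cast
  ring

theorem num_aux (j : ℕ) (hj : j ≤ 4) (s0 me q : ℤ) (hs0 : 0 ≤ s0) (_hme : 0 ≤ me)
    (hq : 0 ≤ q) (hnum : 4 * me + 12 * q ≤ 4 * s0) :
    (j : ℤ) * ((j : ℤ) - 1) * q ≤ (((7 : ℕ) : ℤ) + 1 - j) * s0 - (j : ℤ) * me := by
  interval_cases j <;> push_cast <;> linarith

/-- The inequality for tuples that are not even, from bounds on the parts. -/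
theorem noneven_le {n : ℕ} (H : Finset (Finset (Fin n))) (κ5 : (Fin 5 → Fin n) → Fin n → Fin n → ℤ)
    (g : (Fin 6 → Fin n) → Fin n → Fin n → ℤ) (a Lo s0 me q : ℤ) (hs0 : 0 ≤ s0) (hme : 0 ≤ me)
    (hq : 0 ≤ q) (hnum : 4 * me + 12 * q ≤ 4 * s0)
    (hg : ∀ s u w, g s u w ≤ q)
    (t : Fin (7 + 1) → Fin n) (hev : ¬ EvT H t)
    (h1 : ∀ x : Fin (7 + 1), ¬ EvT H (t ∘ x.succAbove) →
      2 * Lo + PS κ5 (t ∘ x.succAbove) + s0 ≤ 2 * a * (N8 H (t ∘ x.succAbove) : ℤ))
    (h2 : ∀ x : Fin (7 + 1), EvT H (t ∘ x.succAbove) →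
      2 * Lo + PS κ5 (t ∘ x.succAbove) ≤ 2 * a * (N8 H (t ∘ x.succAbove) : ℤ) + me) :
    16 * Lo + DS (PS κ5) t + PS (evk H g) t ≤ 8 * a * (N8 H t : ℤ) := by
  have h3 := DS_ge H (fun s => 2 * a * (N8 H s : ℤ) - 2 * Lo - PS κ5 s) s0 me t
    (fun x hx => by have := h1 x hx; linarith) (fun x hx => by have := h2 x hx; linarith)
  have h4 := PS_evk_le H g q hg t
  have h5 := JT_card_le H (by norm_num) t hev
  have h6 : DS (fun s => 2 * a * (N8 H s : ℤ) - 2 * Lo - PS κ5 s) t =
      8 * a * (N8 H t : ℤ) - 16 * Lo - DS (PS κ5) t := by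
    have e1 := DS_N8 (m := 7) (by norm_num) H t
    have e3 : ∑ x : Fin (7 + 1), (N8 H (t ∘ x.succAbove) : ℤ) = 4 * (N8 H t : ℤ) := by
      have e4 : ((∑ x : Fin (7 + 1), N8 H (t ∘ x.succAbove) : ℕ) : ℤ) =
          (((7 - 3) * N8 H t : ℕ) : ℤ) := congrArg Nat.cast e1
      rw [Nat.cast_sum, Nat.cast_mul] at e4
      exact e4
    exact lin_aux (fun x => (N8 H (t ∘ x.succAbove) : ℤ)) (fun x => PS κ5 (t ∘ x.succAbove)) a Lo
      (N8 H t : ℤ) e3
  rw [h6] at h3
  have h7 := num_aux (JT H t).card h5 s0 me q hs0 hme hq hnum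
  linarith

end Pool.Agent.Lib.MP_afdd4d_co.K8
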