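import Pool.Agent.Lib.MP_afdd4d_co.K8.OgPsd

/-!
# Checks of the tables
-/

namespace Pool.Agent.Lib.MP_afdd4d_co.K8.Og

open Finset

/-! ### Loops over the rows -/

/-- There is a row for the slot `i`. -/
def exR (gs : List (List ℕ)) (i : ℕ) : Prop := i % 16 < (gs.getD (i / 16) []).length

instance (gs : List (List ℕ)) (i : ℕ) : Decidable (exR gs i) := by unfold exR; infer_instance

/-- The row of the slot `i`. -/
def rwA (gs : List (List ℕ)) (i : ℕ) : ℕ := (gs.getD (i / 16) []).getD (i % 16) 0

theorem mrv_eq (W of : ℕ) (gs : List (List ℕ)) (i j : ℕ) :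
    mrv W of gs i j = if exR gs i then ((Ln W (rwA gs i) j : ℕ) : ℤ) - of else 0 := rfl

theorem exR_cons (rs : List ℕ) (gs : List (List ℕ)) (i : ℕ) : exR (rs :: gs) (16 + i) ↔ exR gs i := by
  unfold exR
  have e1 : (16 + i) / 16 = i / 16 + 1 := by omega
  have e2 : (16 + i) % 16 = i % 16 := by omega
  rw [e1, e2]
  rfl

theorem rwA_cons (rs : List ℕ) (gs : List (List ℕ)) (i : ℕ) : rwA (rs :: gs) (16 + i) = rwA gs i := by
  unfold rwA
  have e1 : (16 + i) / 16 = i / 16 + 1 := by omega
  have e2 : (16 + i) % 16 = i % 16 := by omega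
  rw [e1, e2]
  rfl

theorem exR_zero (rs : List ℕ) (gs : List (List ℕ)) (i : ℕ) (hi : i < 16) :
    exR (rs :: gs) i ↔ i < rs.length := by
  unfold exR
  have e1 : i / 16 = 0 := by omega
  have e2 : i % 16 = i := by omega
  rw [e1, e2]
  rfl

theorem rwA_zero (rs : List ℕ) (gs : List (List ℕ)) (i : ℕ) (hi : i < 16) :
    rwA (rs :: gs) i = rs.getD i 0 := by
  unfold rwA
  have e1 : i / 16 = 0 := by omega
  have e2 : i % 16 = i := by omega
  rw [e1, e2]
  rfl

/-- A check of all rows of a group, with slots starting at `i`. -/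
def allR (chk : ℕ → ℕ → Bool) (l : List ℕ) : ℕ → Bool :=
  @List.rec ℕ (fun _ => ℕ → Bool) (fun _ => true)
    (fun r _ ih i => @Bool.rec (fun _ => Bool) false (ih (Nat.succ i)) (chk i r)) l

/-- A check of all rows. -/
def allRG (chk : ℕ → ℕ → Bool) (l : List (List ℕ)) : ℕ → Bool :=
  @List.rec (List ℕ) (fun _ => ℕ → Bool) (fun _ => true)
    (fun rs _ ih i => @Bool.rec (fun _ => Bool) false (ih (Nat.add i 16)) (allR chk rs i)) l

theorem bool_rec_and (a b : Bool) : @Bool.rec (fun _ => Bool) false b a = (a && b) := by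
  cases a <;> rfl

theorem allR_spec (chk : ℕ → ℕ → Bool) (l : List ℕ) : ∀ i, allR chk l i = true →
    ∀ k < l.length, chk (i + k) (l.getD k 0) = true := by
  induction l with
  | nil => intro i _ k hk; exact absurd hk (by simp)
  | cons r l ih =>
    intro i h k hk
    have e1 : allR chk (r :: l) i = @Bool.rec (fun _ => Bool) false (allR chk l (Nat.succ i))
      (chk i r) := rfl
    rw [e1, bool_rec_and, Bool.and_eq_true] at h
    cases k with
    | zero => exact h.1
    | succ k =>
      have h2 := ih _ h.2 k (by simpa using hk)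
      have e2 : i + (k + 1) = Nat.succ i + k := by rw [Nat.succ_eq_add_one]; ring
      rw [e2]
      exact h2

theorem allRG_spec (chk : ℕ → ℕ → Bool) (gs : List (List ℕ)) (hlen : ∀ rs ∈ gs, rs.length ≤ 16) :
    ∀ i0, allRG chk gs i0 = true → ∀ i, exR gs i → chk (i0 + i) (rwA gs i) = true := by
  induction gs with
  | nil =>
    intro i0 _ i hi
    unfold exR at hi
    exact absurd hi (by simp)
  | cons rs gs ih =>
    intro i0 h i hi
    have e1 : allRG chk (rs :: gs) i0 = @Bool.rec (fun _ => Bool) false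
      (allRG chk gs (Nat.add i0 16)) (allR chk rs i0) := rfl
    rw [e1, bool_rec_and, Bool.and_eq_true] at h
    by_cases h16 : i < 16
    · rw [exR_zero rs gs i h16] at hi
      rw [rwA_zero rs gs i h16]
      exact allR_spec chk rs i0 h.1 i hi
    · obtain ⟨k, rfl⟩ : ∃ k, i = 16 + k := ⟨i - 16, by omega⟩
      rw [exR_cons] at hi
      rw [rwA_cons]
      have h2 := ih (fun rs hr => hlen rs (List.mem_cons_of_mem _ hr)) _ h.2 k hi
      have e2 : i0 + (16 + k) = Nat.add i0 16 + k := by
        have : Nat.add i0 16 = i0 + 16 := rfl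
        rw [this]
        ring
      rw [e2]
      exact h2

/-- A sum over the rows of a group. -/
def sR (f : ℕ → ℕ → ℕ) (l : List ℕ) : ℕ → ℕ → ℕ :=
  @List.rec ℕ (fun _ => ℕ → ℕ → ℕ) (fun _ a => a)
    (fun r _ ih i a => ih (Nat.succ i) (Nat.add a (f i r))) l

/-- A sum over all rows. -/
def sRG (f : ℕ → ℕ → ℕ) (l : List (List ℕ)) : ℕ → ℕ → ℕ :=
  @List.rec (List ℕ) (fun _ => ℕ → ℕ → ℕ) (fun _ a => a)
    (fun rs _ ih i a => ih (Nat.add i 16) (sR f rs i a)) l

theorem sR_eq (f : ℕ → ℕ → ℕ) (l : List ℕ) : ∀ i a, sR f l i a =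
    a + ∑ k ∈ range l.length, f (i + k) (l.getD k 0) := by
  induction l with
  | nil => intro i a; simp [sR]
  | cons r l ih =>
    intro i a
    have e1 : sR f (r :: l) i a = sR f l (Nat.succ i) (Nat.add a (f i r)) := rfl
    rw [e1, ih, List.length_cons, Finset.sum_range_succ']
    have e2 : ∀ k, f (i + (k + 1)) ((r :: l).getD (k + 1) 0) = f (Nat.succ i + k) (l.getD k 0) := by
      intro k
      have : i + (k + 1) = Nat.succ i + k := by rw [Nat.succ_eq_add_one]; ring
      rw [this]
      rfl
    simp_rw [e2]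
    have e3 : Nat.add a (f i r) = a + f i r := rfl
    have e4 : f (i + 0) ((r :: l).getD 0 0) = f i r := rfl
    rw [e3, e4]
    ring

theorem sRG_eq (f : ℕ → ℕ → ℕ) (gs : List (List ℕ)) (hlen : ∀ rs ∈ gs, rs.length ≤ 16) :
    ∀ i0 a, sRG f gs i0 a =
      a + ∑ i ∈ range (16 * gs.length), if exR gs i then f (i0 + i) (rwA gs i) else 0 := by
  induction gs with
  | nil => intro i0 a; simp [sRG]
  | cons rs gs ih =>
    intro i0 a
    have e1 : sRG f (rs :: gs) i0 a = sRG f gs (Nat.add i0 16) (sR f rs i0 a) := rfl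
    have hl := hlen rs List.mem_cons_self
    rw [e1, ih (fun rs hr => hlen rs (List.mem_cons_of_mem _ hr)), sR_eq]
    have e3 : 16 * (rs :: gs).length = 16 + 16 * gs.length := by
      rw [List.length_cons]
      ring
    rw [e3, Finset.sum_range_add]
    have e4 : ∑ x ∈ range 16, (if exR (rs :: gs) x then f (i0 + x) (rwA (rs :: gs) x) else 0) =
        ∑ k ∈ range rs.length, f (i0 + k) (rs.getD k 0) := by
      obtain ⟨d, hd⟩ : ∃ d, 16 = rs.length + d := ⟨16 - rs.length, by omega⟩
      have e5 : ∀ x ∈ range 16, (if exR (rs :: gs) x then f (i0 + x) (rwA (rs :: gs) x) else 0) =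
          if x < rs.length then f (i0 + x) (rs.getD x 0) else 0 := by
        intro x hx
        have hx' := Finset.mem_range.mp hx
        rw [rwA_zero rs gs x hx']
        by_cases h : x < rs.length
        · rw [if_pos ((exR_zero rs gs x hx').mpr h), if_pos h]
        · rw [if_neg (fun h1 => h ((exR_zero rs gs x hx').mp h1)), if_neg h]
      rw [Finset.sum_congr rfl e5, hd, Finset.sum_range_add]
      have e6 : ∑ x ∈ range d, (if rs.length + x < rs.length then
          f (i0 + (rs.length + x)) (rs.getD (rs.length + x) 0) else 0) = 0 :=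
        Finset.sum_eq_zero fun x _ => if_neg (by omega)
      rw [e6, add_zero]
      refine Finset.sum_congr rfl fun x hx => ?_
      rw [if_pos (Finset.mem_range.mp hx)]
    have e7 : ∑ x ∈ range (16 * gs.length),
        (if exR (rs :: gs) (16 + x) then f (i0 + (16 + x)) (rwA (rs :: gs) (16 + x)) else 0) =
        ∑ i ∈ range (16 * gs.length),
          if exR gs i then f (Nat.add i0 16 + i) (rwA gs i) else 0 := by
      refine Finset.sum_congr rfl fun x _ => ?_
      rw [rwA_cons]
      have e8 : i0 + (16 + x) = Nat.add i0 16 + x := by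
        have : Nat.add i0 16 = i0 + 16 := rfl
        rw [this]
        ring
      rw [e8]
      by_cases h : exR gs x
      · rw [if_pos h, if_pos ((exR_cons rs gs x).mpr h)]
      · rw [if_neg h, if_neg fun h1 => h ((exR_cons rs gs x).mp h1)]
    rw [e4, e7]
    ring

theorem exR_lt (gs : List (List ℕ)) (i : ℕ) (h : exR gs i) : i < 16 * gs.length := by
  by_contra hcon
  unfold exR at h
  rw [List.getD_eq_default _ _ (by omega)] at h
  exact absurd h (by simp)

/-! ### Sums of shifted lanes -/

theorem Ln_sum_shl {W : ℕ} (a : ℕ → ℕ) (ha : ∀ i, a i < 2 ^ W) (hW : 0 < W) (N : ℕ) :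
    (∑ i ∈ range N, (a i) <<< (W * i)) < 2 ^ (W * N) ∧
    ∀ k, Ln W (∑ i ∈ range N, (a i) <<< (W * i)) k = if k < N then a k else 0 := by
  induction N with
  | zero =>
    refine ⟨?_, fun k => ?_⟩
    · rw [Finset.sum_range_zero]
      exact Nat.two_pow_pos _
    · rw [Finset.sum_range_zero, Ln_zero_left, if_neg (by omega)]
  | succ N ih =>
    obtain ⟨h1, h2⟩ := ih
    have h3 : ∀ k, Ln W (∑ i ∈ range (N + 1), (a i) <<< (W * i)) k = if k < N + 1 then a k else 0 := by
      intro k
      rw [Finset.sum_range_succ, Ln_cat _ _ _ _ _ h1, h2, Ln_small _ _ (ha N)]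
      by_cases h4 : k < N
      · rw [if_pos h4, if_pos h4, if_pos (by omega)]
      · rw [if_neg h4]
        by_cases h5 : k = N
        · rw [if_pos (by omega), if_pos (by omega), h5]
        · rw [if_neg (by omega), if_neg (by omega)]
    refine ⟨?_, h3⟩
    apply lt_of_Ln_eq_zero _ _ _ hW
    intro i hi
    rw [h3, if_neg (by omega)]

/-! ### Symmetry -/

/-- The slots with a row. -/
def eeG (W : ℕ) (gs : List (List ℕ)) : ℕ := sRG (fun i _ => Nat.shiftLeft 1 (Nat.mul W i)) gs 0 0

/-- The column `j`, with the offset at the missing rows. -/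
def clG (W of ns : ℕ) (gs : List (List ℕ)) (j : ℕ) : ℕ :=
  Nat.add (sRG (fun i r => Nat.shiftLeft (lnG W r j) (Nat.mul W i)) gs 0 0)
    (Nat.mul of (Nat.sub (onG W ns) (eeG W gs)))

/-- Every row is equal to the corresponding column. -/
def symG (W of ns : ℕ) (gs : List (List ℕ)) : Bool :=
  allRG (fun j r => Nat.beq r (clG W of ns gs j)) gs 0

theorem symG_spec {W of ng : ℕ} (hW : 0 < W) (hof : of < 2 ^ W) (gs : List (List ℕ))
    (hlen : ∀ rs ∈ gs, rs.length ≤ 16) (hg : gs.length ≤ ng) (h : symG W of (16 * ng) gs = true) :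
    ∀ i < 16 * ng, ∀ j < 16 * ng, mrv W of gs i j = mrv W of gs j i := by
  have h1W : 1 < 2 ^ W := Nat.one_lt_two_pow (by omega)
  -- the lanes of the column
  have hE : eeG W gs = ∑ i ∈ range (16 * gs.length), (if exR gs i then 1 else 0) <<< (W * i) := by
    unfold eeG
    rw [sRG_eq _ _ hlen, Nat.zero_add]
    refine Finset.sum_congr rfl fun i _ => ?_
    rw [Nat.zero_add]
    by_cases h1 : exR gs i
    · rw [if_pos h1, if_pos h1]
      rfl
    · rw [if_neg h1, if_neg h1, Nat.zero_shiftLeft]
  have hEl : ∀ k, Ln W (eeG W gs) k = if exR gs k then 1 else 0 := by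
    intro k
    rw [hE, (Ln_sum_shl _ (fun i => by split_ifs <;> omega) hW _).2]
    by_cases h1 : exR gs k
    · rw [if_pos (exR_lt gs k h1), if_pos h1]
    · rw [if_neg h1, ite_self]
  have hcol : ∀ j, ∀ k < 16 * ng, Ln W (clG W of (16 * ng) gs j) k =
      if exR gs k then Ln W (rwA gs k) j else of := by
    intro j k hk
    have e1 : clG W of (16 * ng) gs j =
        (∑ i ∈ range (16 * gs.length), (if exR gs i then Ln W (rwA gs i) j else 0) <<< (W * i)) +
          of * (onG W (16 * ng) - eeG W gs) := by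
      have e2 : clG W of (16 * ng) gs j =
        (sRG (fun i r => Nat.shiftLeft (lnG W r j) (Nat.mul W i)) gs 0 0) +
          of * (onG W (16 * ng) - eeG W gs) := rfl
      rw [e2, sRG_eq _ _ hlen, Nat.zero_add]
      congr 1
      refine Finset.sum_congr rfl fun i _ => ?_
      rw [Nat.zero_add]
      by_cases h1 : exR gs i
      · rw [if_pos h1, if_pos h1, lnG_eq]
        rfl
      · rw [if_neg h1, if_neg h1, Nat.zero_shiftLeft]
    have hS := (Ln_sum_shl (W := W) (fun i => if exR gs i then Ln W (rwA gs i) j else 0)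
      (fun i => by
        split_ifs
        · exact Ln_lt _ _ _
        · omega) hW (16 * gs.length)).2
    have hon : ∀ i, Ln W (onG W (16 * ng)) i = if i < 16 * ng then 1 else 0 := by
      intro i
      have := Ln_mul_onG hW 1 h1W (16 * ng) i
      rwa [one_mul] at this
    have hle : ∀ i, Ln W (eeG W gs) i ≤ Ln W (onG W (16 * ng)) i := by
      intro i
      rw [hEl, hon]
      by_cases h1 : exR gs i
      · have := exR_lt gs i h1
        rw [if_pos h1, if_pos (by omega)]
      · rw [if_neg h1]
        exact Nat.zero_le _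
    have hdl : ∀ i, Ln W (onG W (16 * ng) - eeG W gs) i =
        (if i < 16 * ng then 1 else 0) - (if exR gs i then 1 else 0) := by
      intro i
      rw [Ln_sub _ _ _ hW hle, hon, hEl]
    have hml : ∀ i, Ln W (of * (onG W (16 * ng) - eeG W gs)) i =
        of * ((if i < 16 * ng then 1 else 0) - (if exR gs i then 1 else 0)) := by
      intro i
      rw [Ln_smul, hdl]
      intro i
      rw [hdl]
      refine lt_of_le_of_lt (Nat.mul_le_mul_left _ (?_ : _ ≤ 1)) (by rw [mul_one]; exact hof)
      split_ifs <;> omega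
    rw [e1, Ln_add, hS, hml, if_pos hk]
    · by_cases h1 : exR gs k
      · rw [if_pos (exR_lt gs k h1), if_pos h1, if_pos h1, if_pos h1, Nat.sub_self, mul_zero,
          add_zero]
      · rw [if_neg h1, if_neg h1, if_neg h1, ite_self, Nat.sub_zero, mul_one, zero_add]
    · intro i
      rw [hS, hml]
      by_cases h1 : exR gs i
      · have h2 := exR_lt gs i h1
        rw [if_pos h2, if_pos h1, if_pos h1, if_pos (by omega), Nat.sub_self, mul_zero, add_zero]
        exact Ln_lt _ _ _
      · rw [if_neg h1, if_neg h1, ite_self, Nat.sub_zero, zero_add]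
        refine lt_of_le_of_lt (Nat.mul_le_mul_left _ (?_ : _ ≤ 1)) (by rw [mul_one]; exact hof)
        split_ifs <;> omega
  have hrow : ∀ j, exR gs j → rwA gs j = clG W of (16 * ng) gs j := by
    intro j hj
    have h2 := allRG_spec _ gs hlen 0 h j hj
    rw [Nat.zero_add] at h2
    exact Nat.eq_of_beq_eq_true h2
  intro i hi j hj
  rw [mrv_eq, mrv_eq]
  by_cases h1 : exR gs i
  · rw [if_pos h1]
    have h3 : Ln W (rwA gs i) j = if exR gs j then Ln W (rwA gs j) i else of := by
      conv_lhs => rw [hrow i h1]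
      exact hcol i j hj
    by_cases h2 : exR gs j
    · rw [if_pos h2] at h3
      rw [if_pos h2, h3]
    · rw [if_neg h2] at h3
      rw [if_neg h2, h3, sub_self]
  · rw [if_neg h1]
    by_cases h2 : exR gs j
    · rw [if_pos h2]
      have h3 : Ln W (rwA gs j) i = if exR gs i then Ln W (rwA gs i) j else of := by
        conv_lhs => rw [hrow j h2]
        exact hcol j i hi
      rw [if_neg h1] at h3
      rw [h3, sub_self]
    · rw [if_neg h2]

end Pool.Agent.Lib.MP_afdd4d_co.K8.Og
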