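import Pool.Agent.Lib.MP_afdd4d_co.K8.G6Code

/-!
# Kernels of six-vertex types given by matrices of characters

A pattern is the code of an even six-tuple. The pattern has a type, and the link of a further vertex, a
vector of ten bits, is carried by an affine map to the model of the type. The kernel is a bilinear
form in the values of characters of the two vectors.
-/

namespace Pool.Agent.Lib.MP_afdd4d_co.K8.Og

open Finset

/-- The data of a kernel. -/
structure GD where
  /-- number of characters -/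
  ns : ℕ
  /-- the characters -/
  v : ℕ → ℕ
  /-- type of a pattern, zero if there is none -/
  ty : ℕ → ℕ
  /-- constant of the affine map -/
  xb : ℕ → ℕ
  /-- columns of the affine map -/
  xc : ℕ → ℕ → ℕ
  /-- matrix of a type -/
  m : ℕ → ℕ → ℕ → ℤ

namespace GD
variable (D : GD)

/-- The affine map of the pattern `p`. -/
def X (p : ℕ) (b : ℕ → Bool) : ℕ := D.xb p ^^^ lx 10 (D.xc p) b

/-- The bilinear form. -/
def bil (τ z z' : ℕ) : ℤ :=
  ∑ i ∈ range D.ns, ∑ j ∈ range D.ns, D.m τ i j * (sg (chi (D.v i) z) * sg (chi (D.v j) z'))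

/-- The kernel on codes. -/
def g6 (c d : ℕ) : ℤ :=
  if D.ty (c % 1024) = 0 then 0 else
    D.bil (D.ty (c % 1024)) (D.X (c % 1024) fun k => c.testBit (10 + k))
      (D.X (c % 1024) fun k => d.testBit (10 + k))

/-- The affine map with constant `ab` and columns `ac` carries the form of `τ'` to that of `τ`. -/
def Good (τ τ' ab : ℕ) (ac : ℕ → ℕ) : Prop :=
  ∀ z z', D.bil τ' (ab ^^^ app ac z) (ab ^^^ app ac z') = D.bil τ z z'

theorem Good.comp {D : GD} {τ τ' τ'' ab ab' ab'' : ℕ} {ac ac' ac'' : ℕ → ℕ}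
    (h : D.Good τ τ' ab ac) (h' : D.Good τ' τ'' ab' ac') (hb : ab'' = ab' ^^^ app ac' ab)
    (hc : ∀ k < 10, ac'' k = app ac' (ac k)) : D.Good τ τ'' ab'' ac'' := by
  intro z z'
  have e : ∀ z, ab'' ^^^ app ac'' z = ab' ^^^ app ac' (ab ^^^ app ac z) := by
    intro z
    rw [app_xor, ← Nat.xor_assoc, ← hb]
    congr 1
    have h1 : app ac z = lx 10 ac z.testBit := rfl
    have h2 : app ac'' z = lx 10 ac'' z.testBit := rfl
    rw [h1, h2, app_lx]
    exact lx_congr _ _ _ _ _ (fun _ _ => rfl) hc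
  rw [e, e, h', h]

theorem Good.inv {D : GD} {τ τ' ab ab' : ℕ} {ac ac' : ℕ → ℕ}
    (h : D.Good τ τ' ab ac)
    (hb : ab ^^^ app ac ab' = 0) (hc : ∀ k < 10, app ac (ac' k) = 2 ^ k)
    (hv : ∀ z z' : ℕ, D.bil τ' z z' = D.bil τ' (z % 1024) (z' % 1024)) :
    D.Good τ' τ ab' ac' := by
  intro z z'
  have e : ∀ z, ab ^^^ app ac (ab' ^^^ app ac' z) = z % 1024 := by
    intro z
    rw [app_xor, ← Nat.xor_assoc, hb, Nat.zero_xor]
    have h2 : app ac' z = lx 10 ac' z.testBit := rfl
    rw [h2, app_lx]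
    apply Nat.eq_of_testBit_eq
    intro r
    rw [testBit_lx, show (1024 : ℕ) = 2 ^ 10 from rfl, Nat.testBit_mod_two_pow]
    have h3 : (xo 10 fun k => z.testBit k && (app ac (ac' k)).testBit r) =
        xo 10 fun k => z.testBit k && decide (k = r) := by
      apply xo_congr
      intro k hk
      rw [hc k hk, Nat.testBit_two_pow]
    rw [h3]
    have h4 : ∀ n, (xo n fun k => z.testBit k && decide (k = r)) =
        (decide (r < n) && z.testBit r) := by
      intro n
      induction n with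
      | zero => simp [xo]
      | succ n ih =>
        rw [xo, ih]
        by_cases h5 : n = r
        · subst h5
          simp
        · have h6 : decide (r < n + 1) = decide (r < n) := by
            congr 1
            apply propext
            omega
          rw [h6, decide_eq_false h5, Bool.and_false, Bool.xor_false]
    exact h4 10
  rw [← h, e, e, ← hv]

end GD

/-! ### Codes -/

theorem idx_twenty_mod (b : ℕ → Bool) : idx 20 b % 1024 = idx 10 b := by
  apply Nat.eq_of_testBit_eq
  intro r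
  rw [show (1024 : ℕ) = 2 ^ 10 from rfl, Nat.testBit_mod_two_pow, testBit_idx, testBit_idx]
  by_cases h : r < 10
  · have h2 : r < 20 := by omega
    simp [h, h2]
  · simp [h]

/-- The image of a pattern under an exchange. -/
def mvp (i p : ℕ) : ℕ := lx 10 (fun k => mc i k % 1024) p.testBit

namespace GD
variable (D : GD)

/-- The condition on the affine maps of the pattern `p` and of its image under the exchange `i`. -/
structure LinkOK (i p ab : ℕ) (ac : ℕ → ℕ) : Prop where
  e0 : D.xb (mvp i p) ^^^ app (D.xc (mvp i p)) (lx 10 (fun k => mc i k >>> 10) p.testBit) =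
    ab ^^^ app ac (D.xb p)
  ek : ∀ k < 10, app (D.xc (mvp i p)) (mc i (10 + k) >>> 10) = app ac (D.xc p k)

theorem move_mod (i : ℕ) (hi : i < 5) (b : ℕ → Bool) :
    lx 20 (mc i) b % 1024 = mvp i (idx 10 b) := by
  have h1 : lx 20 (mc i) b % 2 ^ 10 = lx (10 + 10) (fun k => mc i k % 2 ^ 10) b := lx_mod _ _ _ _
  rw [show (1024 : ℕ) = 2 ^ 10 from rfl, h1, lx_add]
  have h2 : lx 10 (fun k => mc i (10 + k) % 2 ^ 10) (fun k => b (10 + k)) = 0 := by
    apply Nat.eq_of_testBit_eq
    intro r
    rw [testBit_lx, Nat.zero_testBit, ← xo_false 10]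
    apply xo_congr
    intro k hk
    rw [show (2 : ℕ) ^ 10 = 1024 from rfl, mc_low i hi k hk, Nat.zero_testBit, Bool.and_false]
  rw [h2, Nat.xor_zero]
  unfold mvp
  apply lx_congr
  · intro k hk
    rw [testBit_idx]
    simp [hk]
  · intro k _
    rfl

theorem X_move (i : ℕ) (b : ℕ → Bool) (ab : ℕ) (ac : ℕ → ℕ)
    (h : D.LinkOK i (idx 10 b) ab ac) :
    D.X (mvp i (idx 10 b)) (fun k => (lx 20 (mc i) b).testBit (10 + k)) =
      ab ^^^ app ac (D.X (idx 10 b) fun k => b (10 + k)) := by
  set p := idx 10 b with hp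
  have hpb : ∀ k < 10, p.testBit k = b k := by
    intro k hk
    rw [hp, testBit_idx]
    simp [hk]
  have h1 : (fun k => (lx 20 (mc i) b).testBit (10 + k)) =
      ((lx 10 (fun k => mc i k >>> 10) p.testBit) ^^^
        (lx 10 (fun k => mc i (10 + k) >>> 10) fun k => b (10 + k))).testBit := by
    funext k
    have h2 : (lx 20 (mc i) b) >>> 10 = lx (10 + 10) (fun k => mc i k >>> 10) b := lx_shr _ _ _ _
    rw [lx_add] at h2
    have h3 : lx 10 (fun k => mc i k >>> 10) b = lx 10 (fun k => mc i k >>> 10) p.testBit :=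
      lx_congr _ _ _ _ _ (fun k hk => (hpb k hk).symm) (fun _ _ => rfl)
    rw [h3] at h2
    rw [← h2, Nat.testBit_shiftRight]
  unfold X
  rw [h1]
  have h4 : ∀ z, lx 10 (D.xc (mvp i p)) z.testBit = app (D.xc (mvp i p)) z := fun z => rfl
  rw [h4, app_xor, ← Nat.xor_assoc, h.e0, app_xor, ← Nat.xor_assoc]
  congr 1
  rw [app_lx, app_lx]
  exact lx_congr _ _ _ _ _ (fun _ _ => rfl) h.ek

/-- The kernel is invariant under an exchange. -/
theorem g6_move (i : ℕ) (hi : i < 5) (b d : ℕ → Bool) (hbd : ∀ k < 10, b k = d k)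
    (h0 : D.ty (idx 10 b) = 0 ↔ D.ty (mvp i (idx 10 b)) = 0)
    (h1 : D.ty (idx 10 b) ≠ 0 → ∃ ab ac, D.LinkOK i (idx 10 b) ab ac ∧
      D.Good (D.ty (idx 10 b)) (D.ty (mvp i (idx 10 b))) ab ac) :
    D.g6 (lx 20 (mc i) b) (lx 20 (mc i) d) = D.g6 (idx 20 b) (idx 20 d) := by
  have hbd' : idx 10 d = idx 10 b := idx_congr 10 _ _ fun r hr => (hbd r hr).symm
  unfold g6
  rw [move_mod i hi, idx_twenty_mod]
  by_cases h2 : D.ty (idx 10 b) = 0
  · rw [if_pos h2, if_pos (h0.mp h2)]
  · rw [if_neg h2, if_neg fun h => h2 (h0.mpr h)]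
    obtain ⟨ab, ac, h3, h4⟩ := h1 h2
    have e1 := D.X_move i b ab ac h3
    have e2 := D.X_move i d ab ac (by rw [hbd']; exact h3)
    rw [hbd'] at e2
    rw [e1, e2, h4]
    have e3 : ∀ b : ℕ → Bool, D.X (idx 10 b) (fun k => (idx 20 b).testBit (10 + k)) =
        D.X (idx 10 b) fun k => b (10 + k) := by
      intro b
      unfold X
      congr 1
      apply lx_congr
      · intro k hk
        have hk2 : 10 + k < 20 := by omega
        rw [testBit_idx]
        simp [hk2]
      · intro k _
        rfl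
    have e4 := e3 d
    rw [hbd'] at e4
    rw [e3 b, e4]

end GD

end Pool.Agent.Lib.MP_afdd4d_co.K8.Og
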