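import Pool.Agent.Lib.MP_afdd4d_co.K8.G6Lin

/-!
# Arrays of integers with an offset
-/

namespace Pool.Agent.Lib.MP_afdd4d_co.K8.Og

open Finset

/-- `A` has `N` lanes with the values `o + f i`, bounded by `U`. -/
structure Lz (W N U A : ℕ) (o : ℤ) (f : ℕ → ℤ) : Prop where
  lt : A < 2 ^ (W * N)
  get : ∀ i < N, ((Ln W A i : ℕ) : ℤ) = o + f i
  bd : ∀ i < N, Ln W A i ≤ U

namespace Lz
variable {W N U V A B : ℕ} {o o' : ℤ} {f g : ℕ → ℤ}

theorem out (h : Lz W N U A o f) (i : ℕ) (hi : N ≤ i) : Ln W A i = 0 :=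
  Ln_eq_zero_of_lt _ _ _ _ h.lt hi

theorem bd' (h : Lz W N U A o f) (i : ℕ) : Ln W A i ≤ U ∨ Ln W A i = 0 := by
  by_cases hi : i < N
  · exact Or.inl (h.bd i hi)
  · exact Or.inr (h.out i (not_lt.mp hi))

theorem bd0 (h : Lz W N U A o f) (i : ℕ) : Ln W A i ≤ U := by
  rcases h.bd' i with h1 | h1
  · exact h1
  · rw [h1]; exact Nat.zero_le _

theorem congr (h : Lz W N U A o f) (ho : o = o') (hf : ∀ i < N, f i = g i) : Lz W N U A o' g :=
  ⟨h.lt, fun i hi => by rw [h.get i hi, hf i hi, ho], h.bd⟩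

theorem mono (h : Lz W N U A o f) (hU : U ≤ V) : Lz W N V A o f :=
  ⟨h.lt, h.get, fun i hi => le_trans (h.bd i hi) hU⟩

theorem add (hA : Lz W N U A o f) (hB : Lz W N V B o' g) (hW : 0 < W) (h : U + V < 2 ^ W) :
    Lz W N (U + V) (A + B) (o + o') fun i => f i + g i := by
  have h0 : ∀ i, Ln W A i + Ln W B i < 2 ^ W := by
    intro i
    have h1 := hA.bd0 i
    have h2 := hB.bd0 i
    omega
  refine ⟨?_, fun i hi => ?_, fun i hi => ?_⟩
  · apply lt_of_Ln_eq_zero _ _ _ hW
    intro i hi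
    rw [Ln_add _ _ _ h0, hA.out i hi, hB.out i hi]
  · rw [Ln_add _ _ _ h0, Nat.cast_add, hA.get i hi, hB.get i hi]
    ring
  · rw [Ln_add _ _ _ h0]
    exact Nat.add_le_add (hA.bd i hi) (hB.bd i hi)

theorem sub (hA : Lz W N U A o f) (hB : Lz W N V B o' g) (hW : 0 < W)
    (h : ∀ i < N, Ln W B i ≤ Ln W A i) :
    Lz W N U (A - B) (o - o') fun i => f i - g i := by
  have h0 : ∀ i, Ln W B i ≤ Ln W A i := by
    intro i
    by_cases hi : i < N
    · exact h i hi
    · rw [hA.out i (not_lt.mp hi), hB.out i (not_lt.mp hi)]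
  refine ⟨?_, fun i hi => ?_, fun i hi => ?_⟩
  · apply lt_of_Ln_eq_zero _ _ _ hW
    intro i hi
    rw [Ln_sub _ _ _ hW h0, hA.out i hi, hB.out i hi]
  · rw [Ln_sub _ _ _ hW h0, Nat.cast_sub (h0 i), hA.get i hi, hB.get i hi]
    ring
  · rw [Ln_sub _ _ _ hW h0]
    exact le_trans (Nat.sub_le _ _) (hA.bd i hi)

end Lz

/-! ### Selection of columns -/

theorem mod_two_beq (n : ℕ) : Nat.beq (Nat.mod n 2) 1 = n.testBit 0 := by
  have e1 : Nat.mod n 2 = n % 2 := rfl
  rw [e1, Nat.testBit_zero]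
  rcases Nat.mod_two_eq_zero_or_one n with h | h <;> rw [h] <;> rfl

/-- The number `a` with the entries of `l` selected by the bits of `n` added. -/
def selG (l : List ℕ) : ℕ → ℕ → ℕ :=
  @List.rec ℕ (fun _ => ℕ → ℕ → ℕ) (fun _ a => a)
    (fun m _ ih n a => ih (Nat.div n 2)
      (@Bool.rec (fun _ => ℕ) a (Nat.xor a m) (Nat.beq (Nat.mod n 2) 1))) l

theorem lx_cons (n : ℕ) (c : ℕ → ℕ) (b : ℕ → Bool) :
    lx (n + 1) c b = (if b 0 = true then c 0 else 0) ^^^ lx n (fun k => c (k + 1))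
      fun k => b (k + 1) := by
  have h := lx_add 1 n c b
  rw [add_comm 1 n] at h
  rw [h]
  have e : lx 1 c b = if b 0 = true then c 0 else 0 := by
    rw [lx, lx, Nat.zero_xor]
  rw [e]
  congr 1
  apply lx_congr
  · intro k _
    rw [add_comm]
  · intro k _
    rw [add_comm]

theorem selG_eq (l : List ℕ) : ∀ n a : ℕ, selG l n a = a ^^^ lx l.length (fun k => l.getD k 0) n.testBit := by
  induction l with
  | nil => intro n a; rw [List.length_nil, lx, Nat.xor_zero]; rfl
  | cons m l ih =>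
    intro n a
    have e1 : selG (m :: l) n a = selG l (Nat.div n 2)
      (@Bool.rec (fun _ => ℕ) a (Nat.xor a m) (Nat.beq (Nat.mod n 2) 1)) := rfl
    rw [e1, ih, List.length_cons, lx_cons, mod_two_beq]
    have e2 : (@Bool.rec (fun _ => ℕ) a (Nat.xor a m) (n.testBit 0)) =
        a ^^^ (if n.testBit 0 = true then (m :: l).getD 0 0 else 0) := by
      cases n.testBit 0
      · simp
      · simp
    rw [e2, Nat.xor_assoc]
    congr 2
    apply lx_congr
    · intro k _
      have e3 : Nat.div n 2 = n / 2 := rfl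
      rw [e3, Nat.testBit_div_two]
    · intro k _
      rfl

/-! ### Signed sums of rows -/

/-- The array `a` plus the rows with signs given by the bits of `n`; a row with negative sign is
subtracted from `C`. -/
def gacG (C : ℕ) (l : List ℕ) : ℕ → ℕ → ℕ :=
  @List.rec ℕ (fun _ => ℕ → ℕ → ℕ) (fun _ a => a)
    (fun m _ ih n a => ih (Nat.div n 2)
      (@Bool.rec (fun _ => ℕ) (Nat.add a m) (Nat.sub (Nat.add a C) m)
        (Nat.beq (Nat.mod n 2) 1))) l

/-- The value of a row. -/
def rv (W of : ℕ) (l : List ℕ) (k j : ℕ) : ℤ :=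
  if k < l.length then ((Ln W (l.getD k 0) j : ℕ) : ℤ) - of else 0

theorem sum_range_cons (n : ℕ) (f : ℕ → ℤ) :
    ∑ k ∈ range (n + 1), f k = f 0 + ∑ k ∈ range n, f (k + 1) := by
  rw [Finset.sum_range_succ', add_comm]

theorem gacG_lz {W N of : ℕ} (hW : 0 < W) {C : ℕ} (hC : Lz W N (2 * of) C (2 * of) fun _ => 0)
    (l : List ℕ) (hl : ∀ r ∈ l, Lz W N (2 * of) r of fun j => ((Ln W r j : ℕ) : ℤ) - of) :
    ∀ (n a U : ℕ) (o : ℤ) (f : ℕ → ℤ), Lz W N U a o f → U + 2 * of * (l.length + 1) < 2 ^ W →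
      Lz W N (U + 2 * of * l.length) (gacG C l n a) (o + of * l.length) fun j =>
        f j + ∑ k ∈ range l.length, sg (n.testBit k) * rv W of l k j := by
  induction l with
  | nil =>
    intro n a U o f ha _
    refine (ha.mono (by simp)).congr (by simp) fun i _ => by simp
  | cons m l ih =>
    intro n a U o f ha hU
    have e1 : gacG C (m :: l) n a = gacG C l (Nat.div n 2)
      (@Bool.rec (fun _ => ℕ) (Nat.add a m) (Nat.sub (Nat.add a C) m)
        (Nat.beq (Nat.mod n 2) 1)) := rfl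
    have hm := hl m List.mem_cons_self
    rw [List.length_cons] at hU ⊢
    have hU1 : U + 2 * of < 2 ^ W := by nlinarith [Nat.zero_le (2 * of * l.length)]
    have h1 : Lz W N (U + 2 * of) (@Bool.rec (fun _ => ℕ) (Nat.add a m)
        (Nat.sub (Nat.add a C) m) (Nat.beq (Nat.mod n 2) 1)) (o + of)
        fun j => f j + sg (n.testBit 0) * (((Ln W m j : ℕ) : ℤ) - of) := by
      rw [mod_two_beq]
      cases n.testBit 0
      · refine (ha.add hm hW hU1).congr rfl fun i _ => ?_
        simp [sg]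
      · have h2 := ha.add hC hW hU1
        refine (h2.sub hm hW ?_).congr ?_ fun i _ => ?_
        · intro i hi
          have h3 := h2.get i hi
          have h4 := ha.get i hi
          have h5 := hm.bd i hi
          have h6 : ((Ln W a i : ℕ) : ℤ) ≥ 0 := Int.natCast_nonneg _
          have h7 : ((Ln W m i : ℕ) : ℤ) ≤ ((Ln W (a + C) i : ℕ) : ℤ) := by
            rw [h3]
            have h8 : ((Ln W m i : ℕ) : ℤ) ≤ 2 * of := by exact_mod_cast h5
            linarith
          exact_mod_cast h7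
        · ring
        · simp [sg]
          ring
    have h2 := ih (fun r hr => hl r (List.mem_cons_of_mem _ hr)) (Nat.div n 2) _ _ _ _ h1
      (by nlinarith [hU])
    rw [e1]
    refine (h2.mono (by nlinarith)).congr ?_ fun j _ => ?_
    · push_cast
      ring
    · rw [sum_range_cons]
      have e4 : rv W of (m :: l) 0 j = ((Ln W m j : ℕ) : ℤ) - of := by
        unfold rv
        simp
      have e5 : ∀ k, rv W of (m :: l) (k + 1) j = rv W of l k j := by
        intro k
        unfold rv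
        simp
      rw [e4]
      simp_rw [e5]
      have e6 : ∀ k, (Nat.div n 2).testBit k = n.testBit (k + 1) := by
        intro k
        have e3 : Nat.div n 2 = n / 2 := rfl
        rw [e3, Nat.testBit_div_two]
      simp_rw [e6]
      ring

end Pool.Agent.Lib.MP_afdd4d_co.K8.Og
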