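import Pool.Agent.Lib.MP_afdd4d_co.K8.OgTab

/-!
# Rows of a kernel of six-vertex types
-/

namespace Pool.Agent.Lib.MP_afdd4d_co.K8.Og

open Finset

theorem Lz.toAz {W n T A : ℕ} {f : ℕ → ℤ} (h : Lz W (2 ^ n) (2 * T) A T f) :
    Az W n T A fun b => f (idx n b) :=
  ⟨h.lt, fun b => h.get _ (idx_lt n b), fun b => h.bd _ (idx_lt n b)⟩

namespace KD
variable (D : KD)

/-- The transform of the signed sum. -/
def trG (nx : ℕ) (τ : ℕ) : ℕ :=
  whG D.W 10 D.T 10 (scG D.W D.T (D.qG (D.gs τ) (nrw (D.gs τ)) nx) D.sc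
    (Nat.mul D.T (onG D.W D.top)))

/-- The row of `x`, in the model of the type. -/
def rtG (z τ : ℕ) : ℕ := D.trG (selG D.sb z 0) τ

/-- The row of the pattern `p` and the vector `x`. -/
def rowG (p x : ℕ) : ℕ :=
  @Nat.rec (fun _ => ℕ) (csG D.W D.O 10)
    (fun _ _ => ruG D.W (D.pr p) 10 (xkG D.W 10 (conG (entG D.tab p)) 10
      (D.rtG (xrG (entG D.tab p) x 10) (Nat.mod (entG D.tab p) 256))))
    (Nat.mod (entG D.tab p) 256)

/-- Conditions on the scattering. -/
structure ScOK : Prop where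
  h1 : scOK D.gd.v D.sc = true
  h2 : D.top + rst D.sc = 2 ^ 10
  h3 : ∀ e ∈ D.sc, e.1 < D.ns
  h4 : ∀ j < D.ns, j ∈ D.sc.map Prod.fst ∨ Ln D.W D.pad j = 1
  h5 : ∀ j, Ln D.W D.pad j ≤ 1
  h6 : ∀ τ, ∀ rs ∈ D.gs τ, ∀ r ∈ rs,
    Nat.land r (Nat.mul (2 ^ D.W - 1) D.pad) = Nat.mul D.of D.pad

/-- Conditions on the programs. -/
def PrOK : Prop := ∀ p < 1024, D.gd.ty p ≠ 0 → okR (D.pr p) 10 = true ∧ ndG (D.pr p) 10 = 10 ∧
  ∀ r < 10, (syG (D.pr p) 10 r).testBit 0 = false ∧
    ∀ k < 10, (syG (D.pr p) 10 r).testBit (k + 1) = (D.gd.xc p k).testBit r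

variable {D}

/-- Unused slots do not contribute. -/
theorem ScOK.pad0 (hof : D.of < 2 ^ D.W) (h : D.ScOK) (τ i j : ℕ) (hj : j < D.ns)
    (hjs : j ∉ D.sc.map Prod.fst) : D.gd.m τ i j = 0 := by
  have hp : Ln D.W D.pad j = 1 := by
    rcases h.h4 j hj with h1 | h1
    · exact absurd h1 hjs
    · exact h1
  have e2 : D.gd.m τ i j = rv D.W D.of ((D.gs τ).getD (i / 16) []) (i % 16) j := rfl
  rw [e2]
  set rs := (D.gs τ).getD (i / 16) [] with hrs
  unfold rv
  split_ifs with h2
  · have hmem : rs ∈ D.gs τ := by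
      rcases getD_mem_or (D.gs τ) (i / 16) [] with h3 | h3
      · exact h3
      · rw [hrs, h3] at h2
        exact absurd h2 (by simp)
    have hr : rs.getD (i % 16) 0 ∈ rs := by
      rw [List.getD_eq_getElem _ _ h2]
      exact List.getElem_mem h2
    have h3 := h.h6 τ rs hmem _ hr
    have h4 : rs.getD (i % 16) 0 &&& ((2 ^ D.W - 1) * D.pad) = D.of * D.pad := h3
    have h5 : Ln D.W (rs.getD (i % 16) 0 &&& ((2 ^ D.W - 1) * D.pad)) j =
        Ln D.W (D.of * D.pad) j := by rw [h4]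
    have e5 : ∀ i, (2 ^ D.W - 1) * Ln D.W D.pad i < 2 ^ D.W := by
      intro i
      have h6 := h.h5 i
      have h7 := Nat.two_pow_pos D.W
      have : Ln D.W D.pad i = 0 ∨ Ln D.W D.pad i = 1 := by omega
      rcases this with h8 | h8 <;> rw [h8]
      · rw [mul_zero]; exact h7
      · rw [mul_one]; omega
    have e6 : ∀ i, D.of * Ln D.W D.pad i < 2 ^ D.W := by
      intro i
      have h6 := h.h5 i
      have h7 := Nat.two_pow_pos D.W
      have : Ln D.W D.pad i = 0 ∨ Ln D.W D.pad i = 1 := by omega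
      rcases this with h8 | h8 <;> rw [h8]
      · rw [mul_zero]; exact h7
      · rw [mul_one]; exact hof
    rw [Ln_and, Ln_smul _ _ _ e5, Ln_smul _ _ _ e6, hp, mul_one, mul_one,
      and_full _ _ (Ln_lt _ _ _)] at h5
    rw [h5, sub_self]
  · rfl

theorem trG_az (h : D.RowsOK) (hs : D.ScOK) (z τ : ℕ) :
    Az D.W 10 D.O (D.rtG z τ) fun b => D.gd.bil τ z (idx 10 b) := by
  have hW := h.hW
  have hT := h.hT
  have hTs : 2 * D.T < 2 ^ D.W := by
    have : 2 * D.T ≤ 2 ^ 11 * D.T := Nat.mul_le_mul_right _ (by norm_num)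
    omega
  have hq := qG_lz h τ (selG D.sb z 0)
  set qv : ℕ → ℤ := fun j => ∑ i ∈ range D.ns, sg ((selG D.sb z 0).testBit i) * D.gd.m τ i j
    with hqv
  have hZ0 := con_lz hW D.T (by omega) D.top
  obtain ⟨F, hF1, hF2⟩ := scG_lz hW hTs qv D.sc (scOK_pos _ _ hs.h1) (fun e he => ⟨hq.get _ (hs.h3 e he),
    hq.bd _ (hs.h3 e he)⟩) D.top _ _ (hZ0.mono (by omega))
  rw [hs.h2] at hF1 hF2
  have h1 := whG_az hW 10 le_rfl hT hF1.toAz
  have e1 : D.rtG z τ = whG D.W 10 D.T 10 (scG D.W D.T (D.qG (D.gs τ) (nrw (D.gs τ))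
    (selG D.sb z 0)) D.sc (Nat.mul D.T (onG D.W D.top))) := rfl
  have e2 : D.O = 2 ^ 10 * D.T := rfl
  rw [e1, e2]
  refine h1.congr fun b => ?_
  -- the sum over the characters
  have h2 : ∑ i ∈ range (2 ^ 10), F (idx 10 (mix 10 i b)) * sg (xo 10 fun k => i.testBit k && b k) =
      ∑ i ∈ range (2 ^ 10), F i * sg (chi i (idx 10 b)) := by
    refine Finset.sum_congr rfl fun i hi => ?_
    have e3 : idx 10 (mix 10 i b) = i := by
      rw [← idx_testBit 10 i (Finset.mem_range.mp hi)]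
      apply idx_congr
      intro r hr
      unfold mix
      rw [if_pos hr, idx_testBit 10 i (Finset.mem_range.mp hi)]
    rw [e3]
    congr 2
    unfold chi
    apply xo_congr
    intro k hk
    rw [testBit_idx]
    simp [hk]
  rw [h2, hF2 fun i => sg (chi i (idx 10 b))]
  simp only [zero_mul, Finset.sum_const_zero, zero_add]
  rw [slS_eq D.gd.v qv _ D.sc hs.h1]
  -- extension to all slots
  have h3 : ∑ j ∈ (D.sc.map Prod.fst).toFinset, qv j * sg (chi (D.gd.v j) (idx 10 b)) =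
      ∑ j ∈ range D.ns, qv j * sg (chi (D.gd.v j) (idx 10 b)) := by
    apply Finset.sum_subset
    · intro j hj
      rw [List.mem_toFinset, List.mem_map] at hj
      obtain ⟨e, he, rfl⟩ := hj
      exact Finset.mem_range.mpr (hs.h3 e he)
    · intro j hj hjs
      rw [List.mem_toFinset] at hjs
      have h4 : qv j = 0 := by
        rw [hqv]
        refine Finset.sum_eq_zero fun i _ => ?_
        rw [hs.pad0 (by have := h.hof'; omega) τ i j (Finset.mem_range.mp hj) hjs, mul_zero]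
      rw [h4, zero_mul]
  rw [h3]
  have h4 : ∀ j ∈ range D.ns, qv j * sg (chi (D.gd.v j) (idx 10 b)) =
      ∑ i ∈ range D.ns, D.gd.m τ i j * (sg (chi (D.gd.v i) z) * sg (chi (D.gd.v j) (idx 10 b))) := by
    intro j _
    rw [hqv]
    simp only
    rw [Finset.sum_mul]
    refine Finset.sum_congr rfl fun i hi => ?_
    rw [mask_bit h z i (Finset.mem_range.mp hi)]
    ring
  rw [Finset.sum_congr rfl h4, Finset.sum_comm]
  rfl

theorem chi_mod (v z : ℕ) : chi v z = chi v (z % 1024) := by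
  unfold chi
  apply xo_congr
  intro k hk
  rw [show (1024 : ℕ) = 2 ^ 10 from rfl, Nat.testBit_mod_two_pow]
  simp [hk]

theorem bil_mod (τ z z' : ℕ) : D.gd.bil τ z z' = D.gd.bil τ z (z' % 1024) := by
  unfold GD.bil
  refine Finset.sum_congr rfl fun i _ => Finset.sum_congr rfl fun j _ => ?_
  rw [← chi_mod]

theorem g6_pair (p x y : ℕ) (hp : p < 1024) :
    D.gd.g6 (p + 1024 * x) (p + 1024 * y) =
      if D.gd.ty p = 0 then 0 else D.gd.bil (D.gd.ty p) (D.gd.X p x.testBit) (D.gd.X p y.testBit) := by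
  unfold GD.g6
  have e1 : (p + 1024 * x) % 1024 = p := by omega
  have e2 : ∀ x, (fun k => (p + 1024 * x).testBit (10 + k)) = x.testBit := by
    intro x
    funext k
    have e3 : (p + 1024 * x) / 2 ^ 10 = x := by
      rw [show (2 : ℕ) ^ 10 = 1024 from rfl]
      omega
    rw [add_comm 10 k, ← Nat.testBit_div_two_pow, e3]
  rw [e1, e2, e2]

/-- The rows. -/
theorem rowG_ar (h : D.RowsOK) (hs : D.ScOK) (hp : D.PrOK) (p x : ℕ) (hp1 : p < 1024) :
    Ar D.W 10 (D.rowG p x) (fun b => ((D.O : ℤ) +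
      D.gd.g6 (p + 1024 * x) (p + 1024 * idx 10 b)).toNat) ∧
    ∀ y, |D.gd.g6 (p + 1024 * x) (p + 1024 * y)| ≤ D.O := by
  have hW := h.hW
  have hT := h.hT
  have hO : D.O < 2 ^ D.W := by
    have e : D.O = 1024 * D.T := rfl
    rw [e]
    omega
  have ety : D.gd.ty p = Nat.mod (entG D.tab p) 256 := rfl
  by_cases h0 : D.gd.ty p = 0
  · constructor
    · have e1 : D.rowG p x = csG D.W D.O 10 := by
        have : D.rowG p x = @Nat.rec (fun _ => ℕ) (csG D.W D.O 10)
          (fun _ _ => ruG D.W (D.pr p) 10 (xkG D.W 10 (conG (entG D.tab p)) 10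
            (D.rtG (xrG (entG D.tab p) x 10) (Nat.mod (entG D.tab p) 256))))
          (D.gd.ty p) := rfl
        rw [this, h0]
        rfl
      rw [e1]
      refine (csG_ar hW hO 10).congr fun b => ?_
      rw [g6_pair p x _ hp1, if_pos h0, add_zero, Int.toNat_natCast]
    · intro y
      rw [g6_pair p x y hp1, if_pos h0, abs_zero]
      exact Int.natCast_nonneg _
  · obtain ⟨k, hk⟩ : ∃ k, D.gd.ty p = k + 1 := ⟨D.gd.ty p - 1, by omega⟩
    set z := xrG (entG D.tab p) x 10 with hz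
    have hzX : z = D.gd.X p x.testBit := xrG_eq _ _ _
    have h1 := trG_az h hs z (D.gd.ty p)
    constructor
    · have e1 : D.rowG p x = ruG D.W (D.pr p) 10 (xkG D.W 10 (conG (entG D.tab p)) 10
          (D.rtG z (D.gd.ty p))) := by
        have : D.rowG p x = @Nat.rec (fun _ => ℕ) (csG D.W D.O 10)
          (fun _ _ => ruG D.W (D.pr p) 10 (xkG D.W 10 (conG (entG D.tab p)) 10
            (D.rtG z (D.gd.ty p))))
          (D.gd.ty p) := rfl
        rw [this, hk]
      rw [e1]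
      obtain ⟨h2, h3, h4⟩ := hp p hp1 h0
      have h5 := xkG_ar (k := conG (entG D.tab p)) hW h1.toAr 10 le_rfl
      have h6 := ruG_ar hW (D.pr p) 10 _ _ h2 h5
      rw [h3] at h6
      refine h6.congr fun b => ?_
      rw [g6_pair p x _ hp1, if_neg h0, hzX]
      congr 2
      rw [bil_mod _ _ (D.gd.X p (idx 10 b).testBit)]
      congr 1
      -- the two indices agree
      apply Nat.eq_of_testBit_eq
      intro r
      rw [testBit_idx, show (1024 : ℕ) = 2 ^ 10 from rfl, Nat.testBit_mod_two_pow]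
      by_cases hr : r < 10
      · have e2 : decide (r < 10) = true := decide_eq_true hr
        rw [e2, Bool.true_and, Bool.true_and, Bool.true_and]
        obtain ⟨h7, h8⟩ := h4 r hr
        rw [seG_eq 10 b (D.pr p) 10 h2 (by rw [h3]) r hr, lf_eq_xo 10 _ _ h7]
        unfold GD.X
        rw [Nat.testBit_xor, testBit_lx, Bool.xor_comm]
        congr 1
        apply xo_congr
        intro k hk
        rw [h8 k hk, testBit_idx]
        simp [hk]
      · have e2 : decide (r < 10) = false := decide_eq_false hr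
        rw [e2, Bool.false_and, Bool.false_and]
    · intro y
      rw [g6_pair p x y hp1, if_neg h0, ← hzX, bil_mod]
      have h2 : y % 1024 = y % 1024 := rfl
      set y' := D.gd.X p y.testBit % 1024 with hy'
      have hy2 : y' < 2 ^ 10 := Nat.mod_lt _ (by norm_num)
      have h3 := h1.get y'.testBit
      have h4 := h1.bd y'.testBit
      rw [idx_testBit 10 y' hy2] at h3 h4
      rw [abs_le]
      constructor
      · have := Int.natCast_nonneg (Ln D.W (D.rtG z (D.gd.ty p)) y')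
        linarith
      · have h5 : ((Ln D.W (D.rtG z (D.gd.ty p)) y' : ℕ) : ℤ) ≤ 2 * D.O := by exact_mod_cast h4
        linarith

end KD

end Pool.Agent.Lib.MP_afdd4d_co.K8.Og
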