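import Pool.Agent.Lib.MP_afdd4d_co.K8.OgWal

/-!
# Constant arrays and the scattering of lanes
-/

namespace Pool.Agent.Lib.MP_afdd4d_co.K8.Og

open Finset

/-- The number with `N` lanes equal to one. -/
def onG (W N : ℕ) : ℕ :=
  Nat.div (Nat.sub (Nat.pow 2 (Nat.mul W N)) 1) (Nat.sub (Nat.pow 2 W) 1)

theorem onG_eq (W N : ℕ) : onG W N = (2 ^ (W * N) - 1) / (2 ^ W - 1) := rfl

theorem onG_zero (W : ℕ) : onG W 0 = 0 := by
  rw [onG_eq, mul_zero, pow_zero, Nat.sub_self, Nat.zero_div]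

theorem onG_succ {W : ℕ} (hW : 0 < W) (N : ℕ) : onG W (N + 1) = onG W N + 2 ^ (W * N) := by
  have h1 : 1 < 2 ^ W := Nat.one_lt_two_pow (by omega)
  have h2 : 0 < 2 ^ (W * N) := Nat.two_pow_pos _
  have e : 2 ^ (W * (N + 1)) - 1 = (2 ^ (W * N) - 1) + (2 ^ W - 1) * 2 ^ (W * N) := by
    rw [mul_add, mul_one, pow_add, Nat.sub_mul, one_mul]
    have h3 : 2 ^ (W * N) ≤ 2 ^ W * 2 ^ (W * N) := Nat.le_mul_of_pos_left _ (by omega)
    rw [mul_comm (2 ^ (W * N)) (2 ^ W)]
    omega
  rw [onG_eq, onG_eq, e, Nat.add_mul_div_left _ _ (by omega)]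

theorem onG_succ' {W : ℕ} (hW : 0 < W) (N : ℕ) : onG W (N + 1) = 1 + 2 ^ W * onG W N := by
  induction N with
  | zero => rw [onG_succ hW, onG_zero, mul_zero, pow_zero, mul_zero, Nat.zero_add, Nat.add_zero]
  | succ N ih =>
    have e3 : 2 ^ (W * (N + 1)) = 2 ^ W * 2 ^ (W * N) := by
      rw [mul_add, mul_one, pow_add, mul_comm]
    calc onG W (N + 1 + 1) = onG W (N + 1) + 2 ^ (W * (N + 1)) := onG_succ hW _
      _ = (1 + 2 ^ W * onG W N) + 2 ^ W * 2 ^ (W * N) := by rw [ih, e3]
      _ = 1 + 2 ^ W * (onG W N + 2 ^ (W * N)) := by ring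
      _ = 1 + 2 ^ W * onG W (N + 1) := by rw [← onG_succ hW]

theorem mul_onG_lt {W : ℕ} (hW : 0 < W) (c : ℕ) (hc : c < 2 ^ W) (N : ℕ) :
    c * onG W N < 2 ^ (W * N) := by
  induction N with
  | zero => rw [onG_zero, mul_zero]; exact Nat.two_pow_pos _
  | succ N ih =>
    rw [onG_succ hW, mul_add, mul_add, mul_one, pow_add]
    have h2 : (c + 1) * 2 ^ (W * N) ≤ 2 ^ W * 2 ^ (W * N) := Nat.mul_le_mul_right _ hc
    nlinarith

theorem Ln_mul_onG {W : ℕ} (hW : 0 < W) (c : ℕ) (hc : c < 2 ^ W) (N i : ℕ) :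
    Ln W (c * onG W N) i = if i < N then c else 0 := by
  induction N with
  | zero => rw [onG_zero, mul_zero, Ln_zero_left, if_neg (by omega)]
  | succ N ih =>
    rw [onG_succ hW, mul_add, ← Nat.shiftLeft_eq, Ln_cat _ _ _ _ _ (mul_onG_lt hW c hc N), ih]
    by_cases h1 : i < N
    · rw [if_pos h1, if_pos h1, if_pos (by omega)]
    · rw [if_neg h1, Ln_small _ _ hc]
      by_cases h2 : i = N
      · rw [if_pos (by omega), if_pos (by omega)]
      · rw [if_neg (by omega), if_neg (by omega)]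

/-- The constant array. -/
theorem con_lz {W : ℕ} (hW : 0 < W) (c : ℕ) (hc : c < 2 ^ W) (N : ℕ) :
    Lz W N c (Nat.mul c (onG W N)) c fun _ => 0 := by
  refine ⟨mul_onG_lt hW c hc N, fun i hi => ?_, fun i hi => ?_⟩
  · have h := Ln_mul_onG hW c hc N i
    rw [if_pos hi] at h
    have e : Nat.mul c (onG W N) = c * onG W N := rfl
    rw [e, h, add_zero]
  · have h := Ln_mul_onG hW c hc N i
    rw [if_pos hi] at h
    exact le_of_eq h

/-- A lane. -/
def lnG (W A j : ℕ) : ℕ := Nat.mod (Nat.shiftRight A (Nat.mul W j)) (Nat.pow 2 W)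

theorem lnG_eq (W A j : ℕ) : lnG W A j = Ln W A j := by
  rw [Ln_eq_shr]
  rfl

/-- An array of `g` lanes with `x` in the first lane and `T` in the others. -/
def hdG (W T g x : ℕ) : ℕ := Nat.add x (Nat.mul T (Nat.sub (onG W g) 1))

/-- The lanes `j` of `q` in the order of the list, the first one highest, with gaps filled by `T`. -/
def scG (W T q : ℕ) (l : List (ℕ × ℕ)) : ℕ → ℕ :=
  @List.rec (ℕ × ℕ) (fun _ => ℕ → ℕ) (fun Z => Z)
    (fun e _ ih Z => @Prod.rec ℕ ℕ (fun _ => ℕ) (fun j g =>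
      ih (Nat.add (hdG W T g (lnG W q j)) (Nat.shiftLeft Z (Nat.mul W g)))) e) l

/-- The number of lanes added. -/
def rst : List (ℕ × ℕ) → ℕ
  | [] => 0
  | e :: l => e.2 + rst l

/-- The weighted sum of the scattered values. -/
def slS (qv : ℕ → ℤ) : List (ℕ × ℕ) → (ℕ → ℤ) → ℤ
  | [], _ => 0
  | e :: l, w => qv e.1 * w (rst l) + slS qv l w

theorem scG_lz {W T q : ℕ} (hW : 0 < W) (hT : 2 * T < 2 ^ W) (qv : ℕ → ℤ)
    (l : List (ℕ × ℕ)) (hg : ∀ e ∈ l, 0 < e.2)
    (hq : ∀ e ∈ l, ((Ln W q e.1 : ℕ) : ℤ) = T + qv e.1 ∧ Ln W q e.1 ≤ 2 * T) :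
    ∀ (N Z : ℕ) (f : ℕ → ℤ), Lz W N (2 * T) Z T f → ∃ F : ℕ → ℤ,
      Lz W (N + rst l) (2 * T) (scG W T q l Z) T F ∧
      ∀ w : ℕ → ℤ, ∑ i ∈ range (N + rst l), F i * w i =
        ∑ i ∈ range N, f i * w (i + rst l) + slS qv l w := by
  induction l with
  | nil =>
    intro N Z f hZ
    refine ⟨f, ?_, fun w => ?_⟩
    · exact hZ
    · rw [slS, add_zero]
      rfl
  | cons e l ih =>
    intro N Z f hZ
    obtain ⟨j, g⟩ := e
    have hgpos : 0 < g := hg (j, g) List.mem_cons_self
    obtain ⟨hq1, hq2⟩ := hq (j, g) List.mem_cons_self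
    simp only at hq1 hq2
    obtain ⟨k, rfl⟩ : ∃ k, g = k + 1 := ⟨g - 1, by omega⟩
    have hTl : T < 2 ^ W := by omega
    -- the small array
    have hS : hdG W T (k + 1) (lnG W q j) = Ln W q j + (T * onG W k) <<< (W * 1) := by
      have e1 : hdG W T (k + 1) (lnG W q j) = lnG W q j + T * (onG W (k + 1) - 1) := rfl
      rw [e1, lnG_eq, onG_succ' hW, Nat.add_sub_cancel_left, Nat.shiftLeft_eq, mul_one]
      ring
    have hSlane : ∀ i, Ln W (hdG W T (k + 1) (lnG W q j)) i =
        if i < k + 1 then (if i = 0 then Ln W q j else T) else 0 := by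
      intro i
      rw [hS, Ln_cat _ _ _ _ _ (by rw [mul_one]; exact Ln_lt _ _ _), Ln_small _ _ (Ln_lt _ _ _),
        Ln_mul_onG hW T hTl]
      by_cases h1 : i < 1
      · rw [if_pos h1, if_pos (by omega), if_pos (by omega), if_pos (by omega)]
      · rw [if_neg h1]
        by_cases h2 : i < k + 1
        · rw [if_pos (by omega), if_pos h2, if_neg (by omega)]
        · rw [if_neg (by omega), if_neg h2]
    have hSlt : hdG W T (k + 1) (lnG W q j) < 2 ^ (W * (k + 1)) := by
      apply lt_of_Ln_eq_zero _ _ _ hW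
      intro i hi
      rw [hSlane, if_neg (by omega)]
    set Z' := Nat.add (hdG W T (k + 1) (lnG W q j)) (Nat.shiftLeft Z (Nat.mul W (k + 1))) with hZ'
    have hZ'l : ∀ i, Ln W Z' i = if i < k + 1 then (if i = 0 then Ln W q j else T) else
        Ln W Z (i - (k + 1)) := by
      intro i
      have e1 : Z' = hdG W T (k + 1) (lnG W q j) + Z <<< (W * (k + 1)) := rfl
      rw [e1, Ln_cat _ _ _ _ _ hSlt, hSlane]
      split_ifs <;> rfl
    have hL : Lz W (N + (k + 1)) (2 * T) Z' T fun i =>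
        if i < k + 1 then (if i = 0 then qv j else 0) else f (i - (k + 1)) := by
      refine ⟨?_, fun i hi => ?_, fun i hi => ?_⟩
      · apply lt_of_Ln_eq_zero _ _ _ hW
        intro i hi
        rw [hZ'l, if_neg (by omega)]
        exact hZ.out _ (by omega)
      · rw [hZ'l]
        by_cases h1 : i < k + 1
        · rw [if_pos h1, if_pos h1]
          by_cases h2 : i = 0
          · rw [if_pos h2, if_pos h2, hq1]
          · rw [if_neg h2, if_neg h2, add_zero]
        · rw [if_neg h1, if_neg h1]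
          exact hZ.get _ (by omega)
      · rw [hZ'l]
        split_ifs
        · exact hq2
        · omega
        · exact hZ.bd _ (by omega)
    obtain ⟨F, hF1, hF2⟩ := ih (fun e he => hg e (List.mem_cons_of_mem _ he))
      (fun e he => hq e (List.mem_cons_of_mem _ he)) (N + (k + 1)) Z' _ hL
    have e2 : N + rst ((j, k + 1) :: l) = N + (k + 1) + rst l := by
      rw [rst]
      ring
    refine ⟨F, ?_, fun w => ?_⟩
    · rw [e2]
      exact hF1
    · rw [e2, hF2 w, slS]
      have e3 : N + (k + 1) = (k + 1) + N := by ring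
      rw [e3, Finset.sum_range_add]
      have e4 : ∑ x ∈ range (k + 1), (if x < k + 1 then (if x = 0 then qv j else 0) else
          f (x - (k + 1))) * w (x + rst l) = qv j * w (rst l) := by
        rw [Finset.sum_range_succ', Finset.sum_eq_zero]
        · simp
        · intro x hx
          rw [if_pos (by have := Finset.mem_range.mp hx; omega), if_neg (by omega), zero_mul]
      have e5 : ∑ x ∈ range N, (if k + 1 + x < k + 1 then (if k + 1 + x = 0 then qv j else 0) else
          f (k + 1 + x - (k + 1))) * w (k + 1 + x + rst l) =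
          ∑ i ∈ range N, f i * w (i + rst ((j, k + 1) :: l)) := by
        refine Finset.sum_congr rfl fun x _ => ?_
        rw [if_neg (by omega), Nat.add_sub_cancel_left, rst]
        congr 2
        ring
      rw [e4, e5]
      ring

/-- Conditions on the list: the positions are the characters `v j`, every slot occurs at most once. -/
def scOK (v : ℕ → ℕ) : List (ℕ × ℕ) → Bool
  | [] => true
  | e :: l => decide (rst l = v e.1) && (decide (0 < e.2) && (l.all (fun e' => decide (e'.1 ≠ e.1)) &&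
      scOK v l))

theorem slS_eq (v : ℕ → ℕ) (qv : ℕ → ℤ) (w : ℕ → ℤ) (l : List (ℕ × ℕ)) (h : scOK v l = true) :
    slS qv l w = ∑ j ∈ (l.map Prod.fst).toFinset, qv j * w (v j) := by
  induction l with
  | nil => rfl
  | cons e l ih =>
    rw [scOK, Bool.and_eq_true, Bool.and_eq_true, Bool.and_eq_true] at h
    obtain ⟨h1, _, h3, h4⟩ := h
    have h1' := of_decide_eq_true h1
    rw [slS, ih h4, List.map_cons, List.toFinset_cons, Finset.sum_insert, h1']
    rw [List.mem_toFinset, List.mem_map]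
    rintro ⟨e', he', hee⟩
    rw [List.all_eq_true] at h3
    exact of_decide_eq_true (h3 e' he') hee

theorem scOK_pos (v : ℕ → ℕ) (l : List (ℕ × ℕ)) (h : scOK v l = true) : ∀ e ∈ l, 0 < e.2 := by
  induction l with
  | nil => intro e he; exact absurd he List.not_mem_nil
  | cons a l ih =>
    rw [scOK, Bool.and_eq_true, Bool.and_eq_true, Bool.and_eq_true] at h
    obtain ⟨_, h2, _, h4⟩ := h
    intro e he
    rcases List.mem_cons.mp he with h5 | h5
    · rw [h5]; exact of_decide_eq_true h2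
    · exact ih h4 e h5

end Pool.Agent.Lib.MP_afdd4d_co.K8.Og
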