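import Pool.Agent.Lib.MP_afdd4d_co.K8.OgSca
import Pool.Agent.Lib.MP_afdd4d_co.K8.OgKern

/-!
# Tables of a kernel of six-vertex types
-/

namespace Pool.Agent.Lib.MP_afdd4d_co.K8.Og

open Finset

/-- All groups of rows. -/
def gallG (C : ℕ) (l : List (List ℕ)) : ℕ → ℕ → ℕ :=
  @List.rec (List ℕ) (fun _ => ℕ → ℕ → ℕ) (fun _ a => a)
    (fun rs _ ih n a => ih (Nat.shiftRight n 16) (gacG C rs n a)) l

/-- The number of rows. -/
def nrw : List (List ℕ) → ℕ
  | [] => 0
  | rs :: l => rs.length + nrw l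

/-- The entry in row `i` and column `j`. -/
def mrv (W of : ℕ) (l : List (List ℕ)) (i j : ℕ) : ℤ := rv W of (l.getD (i / 16) []) (i % 16) j

theorem mrv_cons (W of : ℕ) (rs : List ℕ) (l : List (List ℕ)) (i j : ℕ) :
    mrv W of (rs :: l) (16 + i) j = mrv W of l i j := by
  unfold mrv
  have e1 : (16 + i) / 16 = i / 16 + 1 := by omega
  have e2 : (16 + i) % 16 = i % 16 := by omega
  rw [e1, e2]
  rfl

theorem rv_zero (W of : ℕ) (l : List ℕ) (k j : ℕ) (h : l.length ≤ k) : rv W of l k j = 0 := by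
  unfold rv
  rw [if_neg (by omega)]

theorem gallG_lz {W N of : ℕ} (hW : 0 < W) {C : ℕ} (hC : Lz W N (2 * of) C (2 * of) fun _ => 0)
    (l : List (List ℕ))
    (hl : ∀ rs ∈ l, rs.length ≤ 16 ∧
      ∀ r ∈ rs, Lz W N (2 * of) r of fun j => ((Ln W r j : ℕ) : ℤ) - of) :
    ∀ (n a U : ℕ) (o : ℤ) (f : ℕ → ℤ), Lz W N U a o f → U + 2 * of * (nrw l + 1) < 2 ^ W →
      Lz W N (U + 2 * of * nrw l) (gallG C l n a) (o + of * nrw l) fun j =>
        f j + ∑ i ∈ range (16 * l.length), sg (n.testBit i) * mrv W of l i j := by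
  induction l with
  | nil =>
    intro n a U o f ha _
    refine (ha.mono (by simp)).congr (by simp [nrw]) fun i _ => by simp
  | cons rs l ih =>
    intro n a U o f ha hU
    obtain ⟨hlen, hrs⟩ := hl rs List.mem_cons_self
    have e1 : gallG C (rs :: l) n a = gallG C l (Nat.shiftRight n 16) (gacG C rs n a) := rfl
    have e2 : nrw (rs :: l) = rs.length + nrw l := rfl
    rw [e2] at hU ⊢
    have h1 := gacG_lz hW hC rs hrs n a U o f ha (by nlinarith [Nat.zero_le (2 * of * nrw l)])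
    have h2 := ih (fun rs hr => hl rs (List.mem_cons_of_mem _ hr)) (Nat.shiftRight n 16) _ _ _ _ h1
      (by nlinarith)
    rw [e1]
    refine (h2.mono (by nlinarith)).congr ?_ fun j _ => ?_
    · push_cast
      ring
    · have e3 : 16 * (rs :: l).length = 16 + 16 * l.length := by
        rw [List.length_cons]
        ring
      rw [e3, Finset.sum_range_add]
      have e4 : ∑ k ∈ range 16, sg (n.testBit k) * mrv W of (rs :: l) k j =
          ∑ k ∈ range rs.length, sg (n.testBit k) * rv W of rs k j := by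
        obtain ⟨d, hd⟩ : ∃ d, 16 = rs.length + d := ⟨16 - rs.length, by omega⟩
        have e5 : ∀ k < 16, mrv W of (rs :: l) k j = rv W of rs k j := by
          intro k hk
          unfold mrv
          have e6 : k / 16 = 0 := by omega
          have e7 : k % 16 = k := by omega
          rw [e6, e7]
          rfl
        have e8 : ∑ k ∈ range 16, sg (n.testBit k) * mrv W of (rs :: l) k j =
            ∑ k ∈ range 16, sg (n.testBit k) * rv W of rs k j := by
          refine Finset.sum_congr rfl fun k hk => ?_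
          rw [e5 k (Finset.mem_range.mp hk)]
        rw [e8, hd, Finset.sum_range_add]
        have e9 : ∑ x ∈ range d, sg (n.testBit (rs.length + x)) * rv W of rs (rs.length + x) j = 0 := by
          refine Finset.sum_eq_zero fun x _ => ?_
          rw [rv_zero _ _ _ _ _ (by omega), mul_zero]
        rw [e9, add_zero]
      have e10 : ∑ x ∈ range (16 * l.length), sg (n.testBit (16 + x)) *
          mrv W of (rs :: l) (16 + x) j =
          ∑ i ∈ range (16 * l.length), sg ((Nat.shiftRight n 16).testBit i) * mrv W of l i j := by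
        refine Finset.sum_congr rfl fun x _ => ?_
        rw [mrv_cons]
        congr 2
        have e11 : Nat.shiftRight n 16 = n >>> 16 := rfl
        rw [e11, Nat.testBit_shiftRight]
      rw [e4, e10]
      ring

/-- The tables. -/
structure KD where
  /-- width of the lanes -/
  W : ℕ
  /-- number of groups of sixteen slots -/
  ng : ℕ
  /-- offset of the entries -/
  of : ℕ
  /-- offset of the sums -/
  T : ℕ
  /-- characters -/
  V : ℕ
  /-- rows -/
  rows : List (List (List ℕ))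
  /-- patterns -/
  tab : ℕ
  /-- masks of the bits of the characters -/
  sb : List ℕ
  /-- order of the slots -/
  sc : List (ℕ × ℕ)
  /-- number of lanes above the last character -/
  top : ℕ
  /-- programs -/
  prg : List (List (ℕ × ℕ × ℕ))
  /-- unused slots -/
  pad : ℕ

/-- Entry of a list. -/
def nthG {α : Type} (d : α) (l : List α) : ℕ → α :=
  @List.rec α (fun _ => ℕ → α) (fun _ => d) (fun a _ ih n => @Nat.rec (fun _ => α) a (fun k _ => ih k) n) l

theorem nthG_eq {α : Type} (d : α) (l : List α) : ∀ n, nthG d l n = l.getD n d := by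
  induction l with
  | nil => intro n; rfl
  | cons a l ih =>
    intro n
    cases n with
    | zero => rfl
    | succ n => exact ih n

/-- The entry of a pattern. -/
def entG (tab p : ℕ) : ℕ := Nat.mod (Nat.shiftRight tab (Nat.mul 128 p)) (Nat.pow 2 128)

/-- A column of the entry. -/
def colG (e k : ℕ) : ℕ := Nat.mod (Nat.shiftRight e (Nat.add 18 (Nat.mul 10 k))) 1024

/-- The constant of the entry. -/
def conG (e : ℕ) : ℕ := Nat.mod (Nat.shiftRight e 8) 1024

/-- The image of `x` under the affine map of the entry. -/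
def xrG (e x m : ℕ) : ℕ :=
  @Nat.rec (fun _ => ℕ) (conG e) (fun k ih => @Bool.rec (fun _ => ℕ) ih (Nat.xor ih (colG e k))
    (Nat.beq (Nat.mod (Nat.div x (Nat.pow 2 k)) 2) 1)) m

theorem xrG_eq (e x m : ℕ) : xrG e x m = conG e ^^^ lx m (colG e) x.testBit := by
  induction m with
  | zero => rw [lx, Nat.xor_zero]; rfl
  | succ m ih =>
    have e1 : xrG e x (m + 1) = @Bool.rec (fun _ => ℕ) (xrG e x m)
      (Nat.xor (xrG e x m) (colG e m)) (Nat.beq (Nat.mod (Nat.div x (Nat.pow 2 m)) 2) 1) := rfl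
    rw [e1, beq_mod_two, lx, ih]
    cases h : x.testBit m
    · rw [if_neg (by simp), Nat.xor_zero]
    · rw [if_pos rfl, ← Nat.xor_assoc]
      rfl

namespace KD
variable (D : KD)

/-- The number of slots. -/
def ns : ℕ := 16 * D.ng

/-- The rows of a type. -/
def gs (τ : ℕ) : List (List ℕ) := nthG [] D.rows τ

/-- The underlying kernel. -/
def gd : GD where
  ns := D.ns
  v := fun i => Ln 16 D.V i
  ty := fun p => Nat.mod (entG D.tab p) 256
  xb := fun p => conG (entG D.tab p)
  xc := fun p => colG (entG D.tab p)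
  m := fun τ i j => mrv D.W D.of (D.gs τ) i j

/-- The bound for the values. -/
def O : ℕ := 1024 * D.T

/-- The program of a pattern. -/
def pr (p : ℕ) : List (ℕ × ℕ × ℕ) := nthG [] D.prg (Nat.shiftRight (entG D.tab p) 118)

/-- The constant array `2 of`. -/
def C : ℕ := Nat.mul (Nat.mul 2 D.of) (onG D.W (Nat.mul 16 D.ng))

/-- The signed sum of the rows. -/
def qG (gs : List (List ℕ)) (nr n : ℕ) : ℕ :=
  gallG D.C gs n (Nat.mul (Nat.sub D.T (Nat.mul D.of nr)) (onG D.W (Nat.mul 16 D.ng)))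

/-- Conditions on the rows. -/
structure RowsOK : Prop where
  hW : 0 < D.W
  hT : 2 ^ 11 * D.T < 2 ^ D.W
  hof : ∀ τ, D.of * nrw (D.gs τ) ≤ D.T
  hof' : 4 * D.of ≤ D.T
  hlen : ∀ τ, (D.gs τ).length ≤ D.ng
  hrow : ∀ τ, ∀ rs ∈ D.gs τ, rs.length ≤ 16 ∧
    ∀ r ∈ rs, r < 2 ^ (D.W * D.ns) ∧ ∀ j < D.ns, Ln D.W r j ≤ 2 * D.of
  hsb : D.sb.length = 10 ∧ ∀ r < 10, ∀ i < D.ns,
    (D.sb.getD r 0).testBit i = (Ln 16 D.V i).testBit r

variable {D}

theorem RowsOK.lz (h : D.RowsOK) (τ : ℕ) : ∀ rs ∈ D.gs τ, rs.length ≤ 16 ∧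
    ∀ r ∈ rs, Lz D.W D.ns (2 * D.of) r D.of fun j => ((Ln D.W r j : ℕ) : ℤ) - D.of := by
  intro rs hrs
  obtain ⟨h1, h2⟩ := h.hrow τ rs hrs
  refine ⟨h1, fun r hr => ⟨(h2 r hr).1, fun i _ => by ring, (h2 r hr).2⟩⟩

theorem mrv_out (W of : ℕ) (l : List (List ℕ)) (i j : ℕ) (h : 16 * l.length ≤ i) :
    mrv W of l i j = 0 := by
  unfold mrv
  rw [List.getD_eq_default _ _ (by omega)]
  rfl

theorem sum_range_ext (n m : ℕ) (f : ℕ → ℤ) (h : n ≤ m) (h0 : ∀ i, n ≤ i → f i = 0) :
    ∑ i ∈ range m, f i = ∑ i ∈ range n, f i := by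
  obtain ⟨d, rfl⟩ : ∃ d, m = n + d := ⟨m - n, by omega⟩
  rw [Finset.sum_range_add]
  have : ∑ x ∈ range d, f (n + x) = 0 := Finset.sum_eq_zero fun x _ => h0 _ (by omega)
  rw [this, add_zero]

/-- The signed sum of the rows. -/
theorem qG_lz (h : D.RowsOK) (τ n : ℕ) :
    Lz D.W D.ns (2 * D.T) (D.qG (D.gs τ) (nrw (D.gs τ)) n) D.T fun j =>
      ∑ i ∈ range D.ns, sg (n.testBit i) * D.gd.m τ i j := by
  have hW := h.hW
  have h1 := h.hof τ
  have h2 := h.hof'
  have hT := h.hT
  have e0 : D.ns = Nat.mul 16 D.ng := rfl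
  have hC : Lz D.W D.ns (2 * D.of) D.C (2 * D.of) fun _ => 0 := by
    have := con_lz hW (2 * D.of) (by omega) D.ns
    refine this.congr (by push_cast; ring) fun _ _ => rfl
  have ha := con_lz hW (D.T - D.of * nrw (D.gs τ)) (by omega) D.ns
  have h3 := gallG_lz hW hC (D.gs τ) (h.lz τ) n _ _ _ _ ha (by
    have : 2 * D.of * (nrw (D.gs τ) + 1) = 2 * (D.of * nrw (D.gs τ)) + 2 * D.of := by ring
    rw [this]
    omega)
  have e1 : D.qG (D.gs τ) (nrw (D.gs τ)) n = gallG D.C (D.gs τ) n
    (Nat.mul (D.T - D.of * nrw (D.gs τ)) (onG D.W D.ns)) := rfl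
  rw [e1]
  refine (h3.mono ?_).congr ?_ fun j _ => ?_
  · have : 2 * D.of * nrw (D.gs τ) = 2 * (D.of * nrw (D.gs τ)) := by ring
    omega
  · rw [Nat.cast_sub h1]
    push_cast
    ring
  · rw [zero_add]
    symm
    have hl := h.hlen τ
    apply sum_range_ext
    · have : D.ns = 16 * D.ng := rfl
      omega
    · intro i hi
      have e2 : D.gd.m τ i j = mrv D.W D.of (D.gs τ) i j := rfl
      rw [e2, mrv_out _ _ _ _ _ hi, mul_zero]

/-- The mask of the signs. -/
theorem mask_bit (h : D.RowsOK) (z : ℕ) (i : ℕ) (hi : i < D.ns) :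
    (selG D.sb z 0).testBit i = chi (D.gd.v i) z := by
  rw [selG_eq, Nat.zero_xor, testBit_lx, h.hsb.1]
  unfold chi
  apply xo_congr
  intro k hk
  rw [h.hsb.2 k hk i hi, Bool.and_comm]
  rfl

end KD

end Pool.Agent.Lib.MP_afdd4d_co.K8.Og
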