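import Pool.Agent.Lib.MP_afdd4d_co.K8.OgLz

/-!
# The Walsh transform of an array of integers with an offset
-/

namespace Pool.Agent.Lib.MP_afdd4d_co.K8.Og

open Finset

/-- `A` has `2 ^ n` lanes with the values `o + F b` between `0` and `2 * o`. -/
structure Az (W n o A : ℕ) (F : (ℕ → Bool) → ℤ) : Prop where
  lt : A < 2 ^ (W * 2 ^ n)
  get : ∀ b, ((Ln W A (idx n b) : ℕ) : ℤ) = o + F b
  bd : ∀ b, Ln W A (idx n b) ≤ 2 * o

namespace Az
variable {W n o A : ℕ} {F G : (ℕ → Bool) → ℤ}

theorem out (h : Az W n o A F) (i : ℕ) (hi : 2 ^ n ≤ i) : Ln W A i = 0 :=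
  Ln_eq_zero_of_lt _ _ _ _ h.lt hi

theorem bd0 (h : Az W n o A F) (i : ℕ) : Ln W A i ≤ 2 * o := by
  by_cases hi : i < 2 ^ n
  · have h1 := h.bd i.testBit
    rwa [idx_testBit n i hi] at h1
  · rw [h.out i (not_lt.mp hi)]
    exact Nat.zero_le _

theorem congr (h : Az W n o A F) (hFG : ∀ b, F b = G b) : Az W n o A G :=
  ⟨h.lt, fun b => by rw [h.get, hFG], h.bd⟩

theorem dep (h : Az W n o A F) (b b' : ℕ → Bool) (hb : ∀ r < n, b r = b' r) : F b = F b' := by
  have h1 := h.get b
  rw [idx_congr n b b' hb, h.get b'] at h1
  linarith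

theorem toAr (h : Az W n o A F) : Ar W n A fun b => ((o : ℤ) + F b).toNat :=
  ⟨h.lt, fun b => by rw [← h.get b, Int.toNat_natCast]⟩

theorem ofAr {f : (ℕ → Bool) → ℕ} (h : Ar W n A f) (hf : ∀ b, ((f b : ℕ) : ℤ) = o + F b)
    (hb : ∀ b, f b ≤ 2 * o) : Az W n o A F :=
  ⟨h.lt, fun b => by rw [h.get, hf], fun b => by rw [h.get]; exact hb b⟩

end Az

/-- The lanes with index bit `k` equal to zero. -/
def loG (A Z : ℕ) : ℕ := Nat.land A Z

def wsB (L H C d : ℕ) : ℕ := Nat.add (Nat.add L H) (Nat.shiftLeft (Nat.sub (Nat.add L C) H) d)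

/-- A step of the Walsh transform. -/
def wsG (W n k C A : ℕ) : ℕ :=
  wsB (Nat.land A (mzG W k n)) (Nat.land (Nat.shiftRight A (Nat.mul W (Nat.pow 2 k))) (mzG W k n))
    C (Nat.mul W (Nat.pow 2 k))

/-- The constant in the lanes with index bit `k` equal to zero. -/
def czG (W n k c : ℕ) : ℕ := Nat.land (csG W c n) (mzG W k n)

theorem upd_upd (b : ℕ → Bool) (q : ℕ) (v w : Bool) : upd (upd b q v) q w = upd b q w := by
  funext r
  unfold upd
  by_cases h : r = q
  · rw [if_pos h, if_pos h]
  · rw [if_neg h, if_neg h, if_neg h]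

theorem upd_self (b : ℕ → Bool) (q : ℕ) : upd b q (b q) = b := by
  funext r
  unfold upd
  by_cases h : r = q
  · rw [if_pos h, h]
  · rw [if_neg h]

theorem wsG_az {W n k o A : ℕ} {F : (ℕ → Bool) → ℤ} (hW : 0 < W) (hk : k < n)
    (ho : 4 * o < 2 ^ W) (hA : Az W n o A F) :
    Az W n (2 * o) (wsG W n k (czG W n k (2 * o)) A) fun b =>
      F (upd b k false) + sg (b k) * F (upd b k true) := by
  have hM := mzG_ar hW k n
  have hMl : ∀ b, Ln W (mzG W k n) (idx n b) = if b k = false then 2 ^ W - 1 else 0 := by
    intro b
    rw [hM.get]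
    by_cases h : b k = false
    · rw [if_pos (fun _ => h), if_pos h]
    · rw [if_neg (fun h1 => h (h1 hk)), if_neg h]
  have hMo : ∀ i, 2 ^ n ≤ i → Ln W (mzG W k n) i = 0 := fun i hi => hM.out i hi
  set L := A &&& mzG W k n with hL
  set H := (A >>> (W * 2 ^ k)) &&& mzG W k n with hH
  set C := czG W n k (2 * o) with hC
  have hid : ∀ b : ℕ → Bool, b k = false → idx n b + 2 ^ k = idx n (upd b k true) := by
    intro b hb
    have := idx_upd n k hk b true
    rw [hb] at this
    simp only [Bool.toNat_true, Bool.toNat_false, mul_one, mul_zero, add_zero] at this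
    omega
  have hLl : ∀ b, Ln W L (idx n b) = if b k = false then Ln W A (idx n b) else 0 := by
    intro b
    rw [hL, Ln_and, hMl]
    by_cases h : b k = false
    · rw [if_pos h, if_pos h, and_full _ _ (Ln_lt _ _ _)]
    · rw [if_neg h, if_neg h, Nat.and_zero]
  have hHl : ∀ b, Ln W H (idx n b) = if b k = false then Ln W A (idx n (upd b k true)) else 0 := by
    intro b
    rw [hH, Ln_and, hMl, Ln_shr]
    by_cases h : b k = false
    · rw [if_pos h, if_pos h, and_full _ _ (Ln_lt _ _ _), hid b h]
    · rw [if_neg h, if_neg h, Nat.and_zero]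
  have hcs := csG_ar hW (c := 2 * o) (by omega) n
  have hCl : ∀ b, Ln W C (idx n b) = if b k = false then 2 * o else 0 := by
    intro b
    have e : C = csG W (2 * o) n &&& mzG W k n := rfl
    rw [e, Ln_and, hMl, hcs.get]
    by_cases h : b k = false
    · rw [if_pos h, if_pos h, and_full _ _ (by omega)]
    · rw [if_neg h, if_neg h, Nat.and_zero]
  have hout : ∀ i, 2 ^ n ≤ i → Ln W L i = 0 ∧ Ln W H i = 0 ∧ Ln W C i = 0 := by
    intro i hi
    have e : C = csG W (2 * o) n &&& mzG W k n := rfl
    refine ⟨?_, ?_, ?_⟩
    · rw [hL, Ln_and, hMo i hi, Nat.and_zero]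
    · rw [hH, Ln_and, hMo i hi, Nat.and_zero]
    · rw [e, Ln_and, hMo i hi, Nat.and_zero]
  have hAb := hA.bd0
  -- the sum
  have hLb : ∀ i, Ln W L i ≤ 2 * o := by
    intro i
    rw [hL, Ln_and]
    exact le_trans Nat.and_le_left (hAb i)
  have hHb : ∀ i, Ln W H i ≤ 2 * o := by
    intro i
    rw [hH, Ln_and, Ln_shr]
    exact le_trans Nat.and_le_left (hAb _)
  have hCb : ∀ i, Ln W C i ≤ 2 * o := by
    intro i
    by_cases hi : i < 2 ^ n
    · rw [← idx_testBit n i hi, hCl]
      split_ifs
      · exact le_rfl
      · exact Nat.zero_le _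
    · rw [(hout i (not_lt.mp hi)).2.2]
      exact Nat.zero_le _
  have hS : ∀ i, Ln W (L + H) i = Ln W L i + Ln W H i :=
    Ln_add W L H fun i => by have := hLb i; have := hHb i; omega
  have hP : ∀ i, Ln W (L + C) i = Ln W L i + Ln W C i :=
    Ln_add W L C fun i => by have := hLb i; have := hCb i; omega
  have hle : ∀ i, Ln W H i ≤ Ln W (L + C) i := by
    intro i
    rw [hP]
    by_cases hi : i < 2 ^ n
    · have h1 := hHb i
      have h2 : Ln W C i = if i.testBit k = false then 2 * o else 0 := by
        have := hCl i.testBit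
        rwa [idx_testBit n i hi] at this
      have h3 : Ln W H i = if i.testBit k = false then Ln W A (idx n (upd i.testBit k true)) else 0 := by
        have := hHl i.testBit
        rwa [idx_testBit n i hi] at this
      by_cases h4 : i.testBit k = false
      · rw [h2, if_pos h4]
        omega
      · rw [h3, if_neg h4]
        exact Nat.zero_le _
    · rw [(hout i (not_lt.mp hi)).2.1]
      exact Nat.zero_le _
  have hD : ∀ i, Ln W (L + C - H) i = Ln W L i + Ln W C i - Ln W H i := by
    intro i
    rw [Ln_sub W _ _ hW hle, hP]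
  -- the lanes of the shifted difference
  have hDs : ∀ b, Ln W ((L + C - H) <<< (W * 2 ^ k)) (idx n b) =
      if b k = false then 0 else
        Ln W A (idx n (upd b k false)) + 2 * o - Ln W A (idx n b) := by
    intro b
    rw [Ln_shl]
    by_cases hb : b k = false
    · rw [if_pos hb]
      split_ifs with h5
      · rfl
      · -- the index minus 2^k has bit k equal to one or is out of range
        rw [hD]
        have h6 : idx n b < 2 ^ n := idx_lt n b
        have h7 : (idx n b - 2 ^ k) < 2 ^ n := lt_of_le_of_lt (Nat.sub_le _ _) h6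
        have h8 : (idx n b - 2 ^ k).testBit k = true := by
          have h9 : (idx n b).testBit k = false := by
            rw [testBit_idx]
            simp [hb]
          by_contra h10
          rw [Bool.not_eq_true] at h10
          have h11 := testBit_add_pow _ _ h10
          rw [Nat.sub_add_cancel (not_lt.mp h5), h9] at h11
          exact Bool.noConfusion h11
        have e1 : Ln W L (idx n b - 2 ^ k) = 0 := by
          have := hLl (idx n b - 2 ^ k).testBit
          rw [idx_testBit n _ h7, if_neg (by rw [h8]; simp)] at this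
          exact this
        have e2 : Ln W C (idx n b - 2 ^ k) = 0 := by
          have := hCl (idx n b - 2 ^ k).testBit
          rw [idx_testBit n _ h7, if_neg (by rw [h8]; simp)] at this
          exact this
        rw [e1, e2, Nat.add_zero, Nat.zero_sub]
    · rw [if_neg hb]
      have hb' : b k = true := by simpa using hb
      have h5 : idx n (upd b k false) + 2 ^ k = idx n b := by
        have h6 := hid (upd b k false) (by unfold upd; rw [if_pos rfl])
        rw [h6, upd_upd]
        congr 1
        rw [← hb']
        exact upd_self b k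
      rw [if_neg (by omega), ← h5, Nat.add_sub_cancel, hD, hLl, hCl, hHl]
      have h6 : upd b k false k = false := by unfold upd; rw [if_pos rfl]
      rw [if_pos h6, if_pos h6, if_pos h6, upd_upd]
      congr 2
      have h7 : upd b k true = b := by
        rw [← hb']
        exact upd_self b k
      rw [h7]
      omega
  have hDo : ∀ i, 2 ^ n ≤ i → Ln W ((L + C - H) <<< (W * 2 ^ k)) i = 0 := by
    intro i hi
    rw [Ln_shl]
    split_ifs with h5
    · rfl
    · rw [hD]
      by_cases h6 : i - 2 ^ k < 2 ^ n
      · have h8 : (i - 2 ^ k).testBit k = true := by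
          by_contra h10
          rw [Bool.not_eq_true] at h10
          have h11 := hid (i - 2 ^ k).testBit h10
          rw [idx_testBit n _ h6, Nat.sub_add_cancel (not_lt.mp h5)] at h11
          have := idx_lt n (upd (i - 2 ^ k).testBit k true)
          omega
        have e1 : Ln W L (i - 2 ^ k) = 0 := by
          have := hLl (i - 2 ^ k).testBit
          rw [idx_testBit n _ h6, if_neg (by rw [h8]; simp)] at this
          exact this
        have e2 : Ln W C (i - 2 ^ k) = 0 := by
          have := hCl (i - 2 ^ k).testBit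
          rw [idx_testBit n _ h6, if_neg (by rw [h8]; simp)] at this
          exact this
        rw [e1, e2, Nat.add_zero, Nat.zero_sub]
      · obtain ⟨e1, e2, e3⟩ := hout _ (not_lt.mp h6)
        rw [e1, e2, e3]
  have hval : ∀ b, Ln W (wsG W n k C A) (idx n b) =
      if b k = false then Ln W A (idx n b) + Ln W A (idx n (upd b k true)) else
        Ln W A (idx n (upd b k false)) + 2 * o - Ln W A (idx n b) := by
    intro b
    have e : wsG W n k C A = (L + H) + ((L + C - H) <<< (W * 2 ^ k)) := rfl
    rw [e, Ln_add, hS, hLl, hHl, hDs]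
    · by_cases hb : b k = false
      · rw [if_pos hb, if_pos hb, if_pos hb, if_pos hb, Nat.add_zero]
      · rw [if_neg hb, if_neg hb, if_neg hb, if_neg hb, Nat.add_zero, Nat.zero_add]
    · intro i
      by_cases hi : i < 2 ^ n
      · have h1 := hDs i.testBit
        rw [idx_testBit n i hi] at h1
        have h2 := hLl i.testBit
        rw [idx_testBit n i hi] at h2
        have h3 := hHl i.testBit
        rw [idx_testBit n i hi] at h3
        rw [hS, h1, h2, h3]
        have h4 := hAb i
        have h5 := hAb (idx n (upd i.testBit k true))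
        have h6 := hAb (idx n (upd i.testBit k false))
        split_ifs
        · omega
        · omega
      · rw [hS, (hout i (not_lt.mp hi)).1, (hout i (not_lt.mp hi)).2.1, hDo i (not_lt.mp hi)]
        exact Nat.two_pow_pos W
  refine ⟨?_, fun b => ?_, fun b => ?_⟩
  · apply lt_of_Ln_eq_zero _ _ _ hW
    intro i hi
    have e : wsG W n k C A = (L + H) + ((L + C - H) <<< (W * 2 ^ k)) := rfl
    rw [e, Ln_add, hS, (hout i hi).1, (hout i hi).2.1, hDo i hi]
    intro i
    by_cases hi : i < 2 ^ n
    · have h1 := hDs i.testBit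
      rw [idx_testBit n i hi] at h1
      have h2 := hLl i.testBit
      rw [idx_testBit n i hi] at h2
      have h3 := hHl i.testBit
      rw [idx_testBit n i hi] at h3
      rw [hS, h1, h2, h3]
      have h4 := hAb i
      have h5 := hAb (idx n (upd i.testBit k true))
      have h6 := hAb (idx n (upd i.testBit k false))
      split_ifs
      · omega
      · omega
    · rw [hS, (hout i (not_lt.mp hi)).1, (hout i (not_lt.mp hi)).2.1, hDo i (not_lt.mp hi)]
      exact Nat.two_pow_pos W
  · rw [hval]
    by_cases hb : b k = false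
    · have e2 : upd b k false = b := by rw [← hb]; exact upd_self b k
      rw [if_pos hb, Nat.cast_add, hA.get, hA.get, hb, e2]
      have e3 : sg false = 1 := rfl
      rw [e3]
      push_cast
      ring
    · have hb' : b k = true := by simpa using hb
      have e2 : upd b k true = b := by rw [← hb']; exact upd_self b k
      have h4 := hAb (idx n b)
      rw [if_neg hb, Nat.cast_sub (by omega), Nat.cast_add, hA.get, hA.get, hb', e2]
      have e3 : sg true = -1 := rfl
      rw [e3]
      push_cast
      ring
  · rw [hval]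
    have h4 := hAb (idx n b)
    have h5 := hAb (idx n (upd b k true))
    have h6 := hAb (idx n (upd b k false))
    split_ifs
    · omega
    · omega

/-- The Walsh transform in the index bits `0, …, m - 1`. -/
def whG (W n o m A : ℕ) : ℕ :=
  @Nat.rec (fun _ => ℕ) A (fun k ih => wsG W n k (czG W n k (Nat.mul (Nat.pow 2 (Nat.succ k)) o)) ih) m

/-- The bits below `m` of `i` and the others of `b`. -/
def mix (m i : ℕ) (b : ℕ → Bool) : ℕ → Bool := fun r => if r < m then i.testBit r else b r

theorem whG_az {W n o A : ℕ} {F : (ℕ → Bool) → ℤ} (hW : 0 < W) (m : ℕ) (hm : m ≤ n)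
    (ho : 2 ^ (m + 1) * o < 2 ^ W) (hA : Az W n o A F) :
    Az W n (2 ^ m * o) (whG W n o m A) fun b =>
      ∑ i ∈ range (2 ^ m), F (mix m i b) * sg (xo m fun k => i.testBit k && b k) := by
  induction m with
  | zero =>
    have e0 : (2 : ℕ) ^ 0 * o = o := by rw [pow_zero, one_mul]
    rw [e0]
    refine hA.congr fun b => ?_
    have e1 : mix 0 0 b = b := by
      funext r
      unfold mix
      rw [if_neg (by omega)]
    rw [pow_zero, Finset.sum_range_one, e1]
    have e2 : sg (xo 0 fun k => (0 : ℕ).testBit k && b k) = 1 := rfl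
    rw [e2, mul_one]
  | succ m ih =>
    have hlt : 2 ^ (m + 1) * o < 2 ^ W := by
      refine lt_of_le_of_lt ?_ ho
      exact Nat.mul_le_mul_right _ (Nat.pow_le_pow_right (by norm_num) (by omega))
    have h1 := ih (by omega) hlt
    have h2 := wsG_az hW (show m < n by omega) (by
      have e1 : 4 * (2 ^ m * o) = 2 ^ (m + 1 + 1) * o := by rw [pow_succ, pow_succ]; ring
      rw [e1]
      exact ho) h1
    have e3 : whG W n o (m + 1) A =
      wsG W n m (czG W n m (2 ^ (m + 1) * o)) (whG W n o m A) := rfl
    have e4 : 2 * (2 ^ m * o) = 2 ^ (m + 1) * o := by rw [pow_succ]; ring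
    rw [e4] at h2
    rw [e3]
    refine h2.congr fun b => ?_
    have e5 : (2 : ℕ) ^ (m + 1) = 2 ^ m + 2 ^ m := by rw [pow_succ]; ring
    rw [e5, Finset.sum_range_add]
    congr 1
    · refine Finset.sum_congr rfl fun i hi => ?_
      have hi' := Finset.mem_range.mp hi
      have hbm : i.testBit m = false := Nat.testBit_lt_two_pow hi'
      have e6 : mix m i (upd b m false) = mix (m + 1) i b := by
        funext r
        unfold mix upd
        by_cases h5 : r < m
        · rw [if_pos h5, if_pos (by omega)]
        · rw [if_neg h5]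
          by_cases h6 : r = m
          · rw [if_pos h6, if_pos (by omega), h6, hbm]
          · rw [if_neg h6, if_neg (by omega)]
      rw [e6]
      congr 2
      rw [xo, hbm, Bool.false_and, Bool.xor_false]
      apply xo_congr
      intro k hk
      unfold upd
      rw [if_neg (by omega)]
    · rw [Finset.mul_sum]
      refine Finset.sum_congr rfl fun i hi => ?_
      have hi' := Finset.mem_range.mp hi
      have hbm : i.testBit m = false := Nat.testBit_lt_two_pow hi'
      have hbm' : (2 ^ m + i).testBit m = true := by
        rw [add_comm]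
        exact testBit_add_pow _ _ hbm
      have hbl : ∀ k < m, (2 ^ m + i).testBit k = i.testBit k := by
        intro k hk
        rw [Nat.testBit_two_pow_add_gt hk]
      have e6 : mix m i (upd b m true) = mix (m + 1) (2 ^ m + i) b := by
        funext r
        unfold mix upd
        by_cases h5 : r < m
        · rw [if_pos h5, if_pos (by omega), hbl r h5]
        · rw [if_neg h5]
          by_cases h6 : r = m
          · rw [if_pos h6, if_pos (by omega), h6, hbm']
          · rw [if_neg h6, if_neg (by omega)]
      rw [e6]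
      have e7 : (xo (m + 1) fun k => (2 ^ m + i).testBit k && b k) =
          ((xo m fun k => i.testBit k && upd b m true k) ^^ b m) := by
        rw [xo, hbm', Bool.true_and]
        congr 1
        apply xo_congr
        intro k hk
        rw [hbl k hk]
        unfold upd
        rw [if_neg (by omega)]
      rw [e7, sg_xor]
      ring

end Pool.Agent.Lib.MP_afdd4d_co.K8.Og
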