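import Pool.Agent.Lib.MP_afdd4d_co.K8.Skel

/-!
# Sums over the pairs of a tuple

For a kernel `κ s u w` that depends on `k` vertices in a symmetric way and on two more vertices, the
sum over all ordered pairs of vertices of a tuple of `k + 2` vertices is invariant under
permutations of the tuple.
-/

namespace Pool.Agent.Lib.MP_afdd4d_co.K8

open Finset

theorem exists_succAbove_perm {m : ℕ} (σ : Equiv.Perm (Fin (m + 1))) (x : Fin (m + 1)) :
    ∃ τ : Equiv.Perm (Fin m), ∀ i, σ (x.succAbove i) = (σ x).succAbove (τ i) := by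
  have h : ∀ i : Fin m, ∃ z : Fin m, (σ x).succAbove z = σ (x.succAbove i) := by
    intro i
    apply Fin.exists_succAbove_eq
    intro h
    exact (Fin.succAbove_ne x i) (σ.injective h)
  choose f hf using h
  have hfi : Function.Injective f := by
    intro a b hab
    have h1 : σ (x.succAbove a) = σ (x.succAbove b) := by rw [← hf, ← hf, hab]
    exact Fin.succAbove_right_injective (σ.injective h1)
  exact ⟨Equiv.ofBijective f (Finite.injective_iff_bijective.mp hfi), fun i => (hf i).symm⟩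

section ps
variable {V M : Type*} [AddCommMonoid M] {k : ℕ}

/-- The sum of a function of `m` vertices over the `m + 1` subsets of a tuple. -/
def DS {m : ℕ} (P : (Fin m → V) → M) (t : Fin (m + 1) → V) : M := ∑ x : Fin (m + 1), P (t ∘ x.succAbove)

theorem DS_perm {m : ℕ} (P : (Fin m → V) → M) (hP : ∀ (τ : Equiv.Perm (Fin m)) t, P (t ∘ τ) = P t)
    (σ : Equiv.Perm (Fin (m + 1))) (t : Fin (m + 1) → V) : DS P (t ∘ σ) = DS P t := by
  unfold DS
  rw [← Equiv.sum_comp σ (fun x => P (t ∘ x.succAbove))]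
  refine Finset.sum_congr rfl fun x _ => ?_
  obtain ⟨τ, hτ⟩ := exists_succAbove_perm σ x
  have e : (t ∘ σ) ∘ x.succAbove = (t ∘ (σ x).succAbove) ∘ τ := by
    funext i
    simp only [Function.comp_apply]
    rw [hτ]
  rw [e, hP]

/-- The sum of the kernel over the ordered pairs of vertices. -/
def PS (κ : (Fin k → V) → V → V → M) (t : Fin (k + 1 + 1) → V) : M :=
  ∑ x : Fin (k + 1 + 1), ∑ y : Fin (k + 1),
    κ (t ∘ x.succAbove ∘ y.succAbove) (t x) (t (x.succAbove y))

theorem PS_perm (κ : (Fin k → V) → V → V → M)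
    (hκ : ∀ (τ : Equiv.Perm (Fin k)) s u w, κ (s ∘ τ) u w = κ s u w)
    (σ : Equiv.Perm (Fin (k + 1 + 1))) (t : Fin (k + 1 + 1) → V) : PS κ (t ∘ σ) = PS κ t := by
  unfold PS
  rw [← Equiv.sum_comp σ (fun x : Fin (k + 1 + 1) => ∑ y : Fin (k + 1),
    κ (t ∘ x.succAbove ∘ y.succAbove) (t x) (t (x.succAbove y)))]
  refine Finset.sum_congr rfl fun x _ => ?_
  obtain ⟨τ, hτ⟩ := exists_succAbove_perm σ x
  rw [← Equiv.sum_comp τ (fun y : Fin (k + 1) => κ (t ∘ (σ x).succAbove ∘ y.succAbove) (t (σ x))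
    (t ((σ x).succAbove y)))]
  refine Finset.sum_congr rfl fun y _ => ?_
  obtain ⟨τ', hτ'⟩ := exists_succAbove_perm τ y
  have e : (t ∘ σ) ∘ x.succAbove ∘ y.succAbove =
      (t ∘ (σ x).succAbove ∘ (τ y).succAbove) ∘ τ' := by
    funext i
    simp only [Function.comp_apply]
    rw [hτ, hτ']
  rw [e, hκ]
  simp only [Function.comp_apply]
  rw [hτ]

end ps

/-! ### Total sums -/

section tot
variable {V : Type*} [Fintype V] [DecidableEq V] {k : ℕ}

/-- The kernel as a function of a tuple, the two last coordinates being the pair. -/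
def KF (κ : (Fin k → V) → V → V → ℝ) (t : Fin (k + 2) → V) : ℝ :=
  κ (t ∘ Fin.castAdd 2) (t (Fin.natAdd k 0)) (t (Fin.natAdd k 1))

omit [DecidableEq V] in
theorem KF_tot (κ : (Fin k → V) → V → V → ℝ) (hκ : ∀ s, 0 ≤ ∑ u, ∑ w, κ s u w) :
    0 ≤ ∑ t, KF κ t := by
  rw [← (Fin.appendEquiv k 2).sum_comp, Fintype.sum_prod_type]
  refine Finset.sum_nonneg fun s _ => ?_
  have h1 : ∀ b : Fin 2 → V, KF κ ((Fin.appendEquiv k 2) (s, b)) = κ s (b 0) (b 1) := by
    intro b
    unfold KF
    have e : ((Fin.appendEquiv k 2) (s, b)) ∘ Fin.castAdd 2 = s := by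
      funext i
      simp only [Function.comp_apply, Fin.appendEquiv_apply, Fin.append_left]
    rw [e]
    simp only [Fin.appendEquiv_apply, Fin.append_right]
  simp_rw [h1]
  have h2 := (piFinTwoEquiv fun _ : Fin 2 => V).sum_comp (fun p : V × V => κ s p.1 p.2)
  have h3 : ∑ b : Fin 2 → V, κ s (b 0) (b 1) = ∑ p : V × V, κ s p.1 p.2 := h2
  rw [h3, Fintype.sum_prod_type]
  exact hκ s

/-- The injection of `Fin (k + 2)` given by the complement of a pair and the pair. -/
def jj {m : ℕ} (f : Fin (k + 1 + 1) → Fin m) (x : Fin (k + 1 + 1)) (y : Fin (k + 1)) :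
    Fin (k + 2) → Fin m :=
  Fin.append (f ∘ x.succAbove ∘ y.succAbove) ![f x, f (x.succAbove y)]

theorem jj_inj {m : ℕ} (f : Fin (k + 1 + 1) → Fin m) (hf : Function.Injective f)
    (x : Fin (k + 1 + 1)) (y : Fin (k + 1)) : Function.Injective (jj f x y) := by
  have h1 : Function.Injective (f ∘ x.succAbove ∘ y.succAbove) :=
    hf.comp (Fin.succAbove_right_injective.comp Fin.succAbove_right_injective)
  have h2 : f x ≠ f (x.succAbove y) := fun h => (Fin.succAbove_ne x y) (hf h).symm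
  have h3 : ∀ i, (f ∘ x.succAbove ∘ y.succAbove) i ≠ f x := fun i h =>
    (Fin.succAbove_ne x _) (hf h)
  have h4 : ∀ i, (f ∘ x.succAbove ∘ y.succAbove) i ≠ f (x.succAbove y) := fun i h =>
    (Fin.succAbove_ne y _) (Fin.succAbove_right_injective (hf h))
  intro a b hab
  unfold jj at hab
  refine Fin.addCases (fun a' => ?_) (fun a' => ?_) a hab
  · intro hab
    rw [Fin.append_left] at hab
    refine Fin.addCases (fun b' => ?_) (fun b' => ?_) b hab
    · intro hab
      rw [Fin.append_left] at hab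
      rw [h1 hab]
    · intro hab
      rw [Fin.append_right] at hab
      fin_cases b'
      · exact absurd hab (h3 a')
      · exact absurd hab (h4 a')
  · intro hab
    rw [Fin.append_right] at hab
    refine Fin.addCases (fun b' => ?_) (fun b' => ?_) b hab
    · intro hab
      rw [Fin.append_left] at hab
      fin_cases a'
      · exact absurd hab.symm (h3 b')
      · exact absurd hab.symm (h4 b')
    · intro hab
      rw [Fin.append_right] at hab
      fin_cases a' <;> fin_cases b'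
      · rfl
      · exact absurd hab h2
      · exact absurd hab.symm h2
      · rfl

omit [Fintype V] [DecidableEq V] in
theorem KF_jj {m : ℕ} (κ : (Fin k → V) → V → V → ℝ) (f : Fin (k + 1 + 1) → Fin m)
    (x : Fin (k + 1 + 1)) (y : Fin (k + 1)) (t : Fin m → V) :
    KF κ (t ∘ jj f x y) =
      κ ((t ∘ f) ∘ x.succAbove ∘ y.succAbove) ((t ∘ f) x) ((t ∘ f) (x.succAbove y)) := by
  unfold KF jj
  have e : (t ∘ Fin.append (f ∘ x.succAbove ∘ y.succAbove) ![f x, f (x.succAbove y)]) ∘
      Fin.castAdd 2 = (t ∘ f) ∘ x.succAbove ∘ y.succAbove := by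
    funext i
    simp only [Function.comp_apply, Fin.append_left]
  rw [e]
  simp only [Function.comp_apply, Fin.append_right]
  rfl

/-- Pair sums over a sub-tuple, summed over the injective tuples. -/
theorem PS_inj_ge (d : ℕ) (κ : (Fin k → V) → V → V → ℝ) (C : ℝ)
    (hκ : ∀ s, 0 ≤ ∑ u, ∑ w, κ s u w) (hC : ∀ s u w, κ s u w ≤ C)
    (f : Fin (k + 1 + 1) → Fin (k + 2 + d)) (hf : Function.Injective f) :
    -(((k + 2 : ℕ) : ℝ) * ((k + 1 : ℕ) : ℝ) * C *
        ((Fintype.card V : ℝ) ^ (k + 2 + d) - ((Fintype.card V).descFactorial (k + 2 + d) : ℝ))) ≤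
      ∑ t ∈ inj V (k + 2 + d), PS κ (t ∘ f) := by
  unfold PS
  rw [Finset.sum_comm]
  have h1 : ∀ x : Fin (k + 1 + 1), -(((k + 1 : ℕ) : ℝ) * C *
        ((Fintype.card V : ℝ) ^ (k + 2 + d) - ((Fintype.card V).descFactorial (k + 2 + d) : ℝ))) ≤
      ∑ t ∈ inj V (k + 2 + d), ∑ y : Fin (k + 1),
        κ ((t ∘ f) ∘ x.succAbove ∘ y.succAbove) ((t ∘ f) x) ((t ∘ f) (x.succAbove y)) := by
    intro x
    rw [Finset.sum_comm]
    have h2 : ∀ y : Fin (k + 1), -(C *
        ((Fintype.card V : ℝ) ^ (k + 2 + d) - ((Fintype.card V).descFactorial (k + 2 + d) : ℝ))) ≤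
        ∑ t ∈ inj V (k + 2 + d),
          κ ((t ∘ f) ∘ x.succAbove ∘ y.succAbove) ((t ∘ f) x) ((t ∘ f) (x.succAbove y)) := by
      intro y
      simp_rw [← KF_jj]
      exact inj_comp_ge d (KF κ) C (KF_tot κ hκ) (fun t => hC _ _ _) (jj f x y) (jj_inj f hf x y)
    calc _ = ∑ _y : Fin (k + 1), -(C *
        ((Fintype.card V : ℝ) ^ (k + 2 + d) - ((Fintype.card V).descFactorial (k + 2 + d) : ℝ))) := by
          rw [Finset.sum_const, Finset.card_univ, Fintype.card_fin, nsmul_eq_mul]
          ring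
      _ ≤ _ := Finset.sum_le_sum fun y _ => h2 y
  calc _ = ∑ _x : Fin (k + 1 + 1), -(((k + 1 : ℕ) : ℝ) * C *
        ((Fintype.card V : ℝ) ^ (k + 2 + d) - ((Fintype.card V).descFactorial (k + 2 + d) : ℝ))) := by
          rw [Finset.sum_const, Finset.card_univ, Fintype.card_fin, nsmul_eq_mul]
          ring
    _ ≤ _ := Finset.sum_le_sum fun x _ => h1 x

end tot

end Pool.Agent.Lib.MP_afdd4d_co.K8
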