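import Pool.Agent.Lib.MP_afdd4d_co.K8.PsiFin
import Pool.Agent.Lib.MP_afdd4d_co.K8.JF

/-!
# The far pairs of a class from the checks
-/

namespace Pool.Agent.Lib.MP_afdd4d_co.K8.Pt

open Finset

/-! ### Tables from parts -/

/-- The number with the given parts of 8192 bits. -/
def jn (l : List ℕ) : ℕ := @List.rec ℕ (fun _ => ℕ) 0
  (fun a _ ih => Nat.add a (Nat.shiftLeft ih 8192)) l

/-- An entry of a list of lists. -/
def nth (l : List (List ℕ)) : ℕ → List ℕ := @List.rec (List ℕ) (fun _ => ℕ → List ℕ) (fun _ => [])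
  (fun a _ ih n => @Nat.rec (fun _ => List ℕ) a (fun n _ => ih n) n) l

/-- The tables of a list. -/
def tbl (l : List (List ℕ)) (v : ℕ) : ℕ := jn (nth l v)

/-- The check of seven tables. -/
def tok (t : ℕ → ℕ) : Bool := @Nat.rec (fun _ => Bool) true
  (fun v ih => @Bool.rec (fun _ => Bool) false ih (ckM 64 46 (t v))) 7

theorem tok_spec {t : ℕ → ℕ} (h : tok t = true) : ∀ v : Fin 7, TOK 64 (2 ^ 46 - 1) (t v) := by
  have key : ∀ n, @Nat.rec (fun _ => Bool) true
      (fun v ih => @Bool.rec (fun _ => Bool) false ih (ckM 64 46 (t v))) n = true →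
      ∀ v < n, ckM 64 46 (t v) = true := by
    intro n
    induction n with
    | zero => intro _ v hv; exact absurd hv (Nat.not_lt_zero v)
    | succ n ih =>
      intro h v hv
      dsimp only at h
      cases h1 : ckM 64 46 (t n) with
      | false => rw [h1] at h; exact absurd (show false = true from h) Bool.false_ne_true
      | true =>
        rw [h1] at h
        rcases Nat.lt_succ_iff_lt_or_eq.mp hv with h2 | h2
        · exact ih h v h2
        · rw [h2]; exact h1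
  intro v
  exact ckM_spec (by norm_num) (by norm_num) (key 7 h v v.isLt)

theorem z0_yc (z : Jv.Ent) (hz : z.z0 = true) : ∀ v : Fin 7, Jv.yc6 z.c v = 0 := by
  unfold Jv.Ent.z0 at hz
  simp only [Bool.and_eq_true, Nat.beq_eq] at hz
  obtain ⟨hm, z0, z1, z2, z3, z4, z5, z6⟩ := hz
  unfold Jv.Ent.mt at hm
  simp only [Bool.and_eq_true, Nat.beq_eq] at hm
  obtain ⟨_, _, h1, h2, h3, h4, h5, h6, h7, _⟩ := hm
  intro v
  match v with
  | 0 => exact h1.trans z0
  | 1 => exact h2.trans z1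
  | 2 => exact h3.trans z2
  | 3 => exact h4.trans z3
  | 4 => exact h5.trans z4
  | 5 => exact h6.trans z5
  | 6 => exact h7.trans z6

section ent
variable {S : PsiSys} (D : Jv.Tabs S)

/-- The check of the three bounds. -/
def chN (K K1 K2 K4 : ℕ) : Bool := @Bool.rec (fun _ => Bool) false
  (@Bool.rec (fun _ => Bool) false
    (@Bool.rec (fun _ => Bool) false
      (Nat.ble K4 562949953421312)
      (Nat.blt (Nat.add D.MB K2) 9223372036854775808))
    (Nat.blt (Nat.add K1 492581209243641) 9223372036854775808))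
  (Nat.ble (Nat.add K1 (Nat.mul 14 D.OP)) (Nat.add (Nat.add K2 K4) K))

theorem chN_spec {K K1 K2 K4 : ℕ} (h : chN D K K1 K2 K4 = true) :
    K1 + 14 * D.OP ≤ K2 + K4 + K ∧ K1 + 492581209243641 < 9223372036854775808 ∧
    D.MB + K2 < 9223372036854775808 ∧ K4 ≤ 562949953421312 := by
  unfold chN at h
  cases h1 : Nat.ble (Nat.add K1 (Nat.mul 14 D.OP)) (Nat.add (Nat.add K2 K4) K) with
  | false => rw [h1] at h; exact absurd (show false = true from h) Bool.false_ne_true
  | true =>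
    rw [h1] at h
    cases h2 : Nat.blt (Nat.add K1 492581209243641) 9223372036854775808 with
    | false => rw [h2] at h; exact absurd (show false = true from h) Bool.false_ne_true
    | true =>
      rw [h2] at h
      cases h3 : Nat.blt (Nat.add D.MB K2) 9223372036854775808 with
      | false => rw [h3] at h; exact absurd (show false = true from h) Bool.false_ne_true
      | true =>
        rw [h3] at h
        exact ⟨Nat.le_of_ble_eq_true h1, Nat.le_of_ble_eq_true h2, Nat.le_of_ble_eq_true h3,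
          Nat.le_of_ble_eq_true h⟩

/-- The far pairs of the class of an entry. -/
theorem far_ent (hw : D.w = 64) (K : ℕ) (hKe : (K : ℤ) = D.C0 - 2 * S.Lo + 14 * D.OP + D.OB)
    (g z : Jv.Ent) (hgz : (g.mg && (z.z0 && Nat.beq g.c z.c)) = true) (hc : g.c ∈ D.reps)
    {tE tK tS : ℕ → ℕ} (hE : tok tE = true) (hK : tok tK = true) (hS : tok tS = true)
    {K1 K2 K4 : ℕ} (hN : chN D K K1 K2 K4 = true)
    (h1 : ∀ τ < 16, chH D (D.QE g τ) (Jv.mkE D.w z τ) tK K1 τ = true)
    (h2 : ∀ τ < 16, chE D tE K2 τ = true)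
    (h3 : ∀ v < 7, ∀ x < 1024, chT D (Jv.jsE z v) (tE v) (tK v) (tS v) x = true)
    (h4 : ∀ τ < 16, chD tS (Jv.jsE z)
      ((562949953421312 - K4) + 1125899906842624 * 107) τ = true) :
    Far S g.c 7 := by
  obtain ⟨n1, n2, n3, n4⟩ := chN_spec D hN
  simp only [Bool.and_eq_true, Nat.beq_eq] at hgz
  obtain ⟨hg, hz, hcz⟩ := hgz
  obtain ⟨fM, hM⟩ := Jv.mkE_ok D.w D.hw0 z hz
  rw [← hcz] at hM
  have hy : ∀ v : Fin 7, Jv.yc6 g.c v = 0 := by rw [hcz]; exact z0_yc z hz
  have hzm : z.mt = true := by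
    unfold Jv.Ent.z0 at hz
    simp only [Bool.and_eq_true] at hz
    exact hz.1
  have hjs : ∀ v : Fin 7, Jv.jsE z v = Jv.jc6 g.c v := by rw [hcz]; exact Jv.jsE_eq z hzm
  have hE' := tok_spec hE
  have hK' := tok_spec hK
  have hS' := tok_spec hS
  have e63 : (2 : ℕ) ^ (64 - 1) = 9223372036854775808 := by norm_num
  have e46 : (2 : ℕ) ^ 46 - 1 = 70368744177663 := by norm_num
  have a1 : R1 S g.c (fun v b => (fl D.w (tK v) b : ℤ) - (D.OP : ℤ))
      (D.C0 - 2 * S.Lo - K1) := by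
    refine R1_of D g hg hc hM (M := 2 ^ 46 - 1) (K1 := K1) ?_ ?_ ?_ h1
    · rw [hw]; exact hK'
    · rw [hw, e63, e46]; omega
    · linarith
  have a2 : R2 S (fun v b => (fl D.w (tE v) b : ℤ) - (0 : ℤ)) ((K2 : ℤ) + D.OB) := by
    refine R2_of D (M := 2 ^ 46 - 1) (K2 := K2) ?_ ?_ ?_ ?_ h2
    · rw [hw]; exact hE'
    · rw [hw, e63, e46]; omega
    · rw [hw, e63]; exact n3
    · linarith
  have a3 : R3 S g.c (fun v b => (fl D.w (tK v) b : ℤ) - (D.OP : ℤ))
      (fun v b => (fl D.w (tE v) b : ℤ) - (0 : ℤ)) (fun v b => (fl D.w (tS v) b : ℤ) - (0 : ℤ)) := by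
    refine R3_of D hy hjs (M := 2 ^ 46 - 1) (by ring) ?_ ?_ ?_ ?_ h3
    · rw [hw]; exact hE'
    · rw [hw]; exact hK'
    · rw [hw, e63, e46]; omega
    · rw [hw]; exact hS'
  have a4 : R4 g.c 7 (fun v b => (fl D.w (tS v) b : ℤ) - (0 : ℤ)) (K4 : ℤ) := by
    rw [hw]
    exact R4_of (k0 := 7) (K := K4) hy hjs hS' (by linarith) n4 (by norm_num) rfl h4
  refine far_of a1 a2 a3 a4 ?_
  have n1' : (K1 : ℤ) + 14 * D.OP ≤ K2 + K4 + K := by exact_mod_cast n1
  linarith

/-! ### Blocks -/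

/-- The sixteen blocks of a class. -/
theorem blk16 {κ : ℕ} {L : List PE} (h : ∀ i < 16, chB D κ L (64 * i) 64 = true) :
    ∀ y < 1024, ∀ e ∈ L, leP D (D.tP (Nat.xor κ (fu y))) y e = true := by
  intro y hy
  have hi : y / 64 < 16 := by omega
  exact chB_spec D 64 (h (y / 64) hi) y (by omega) (by omega)

theorem forall16' (P : ℕ → Prop) (h0 : P 0) (h1 : P 1) (h2 : P 2) (h3 : P 3) (h4 : P 4)
    (h5 : P 5) (h6 : P 6) (h7 : P 7) (h8 : P 8) (h9 : P 9) (h10 : P 10) (h11 : P 11) (h12 : P 12)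
    (h13 : P 13) (h14 : P 14) (h15 : P 15) : ∀ i < 16, P i := by
  intro i hi
  interval_cases i <;> assumption

theorem forall7 (P : ℕ → Prop) (h0 : P 0) (h1 : P 1) (h2 : P 2) (h3 : P 3) (h4 : P 4)
    (h5 : P 5) (h6 : P 6) : ∀ i < 7, P i := by
  intro i hi
  interval_cases i <;> assumption

/-- The check of one view from the blocks. -/
theorem chT_of_blk {κ c6 : ℕ} {L : List PE}
    (h : ∀ y < 1024, ∀ e ∈ L, leP D (D.tP (Nat.xor κ (fu y))) y e = true) (e : PE) (i : ℕ)
    (hi : L[i]? = some e) (h0 : Nat.blt e.y0 1024 = true)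
    (hc : Nat.beq (Nat.xor κ (fu e.y0)) c6 = true) :
    ∀ x < 1024, chT D c6 e.tE e.tK e.tS x = true :=
  chT_of_leP D (Nat.le_of_ble_eq_true h0) (Nat.eq_of_beq_eq_true hc)
    fun y hy => h y hy e (List.mem_of_getElem? hi)

end ent

end Pool.Agent.Lib.MP_afdd4d_co.K8.Pt
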