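import Pool.Agent.Lib.MP_afdd4d_co.K8.PsiDef

/-!
# The rows of the far pairs

If the function of pairs on six vertices is bounded from below by a function of the 4-graph, a
function of the even 4-graph and a multiple of the distance, then the rows of all far pairs follow
from inequalities about the 4-graphs and about the even 4-graphs alone.
-/

namespace Pool.Agent.Lib.MP_afdd4d_co.K8

open Finset

section jd
variable {n m : ℕ} (H E' : Finset (Finset (Fin n)))

/-- The size of the difference as a number of non-edges. -/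
theorem JD_card_eq (t : Fin m → Fin n) :
    (JD H E' t).card = N8 (univ.filter fun e => (e ∈ H ↔ e ∈ E')) t := by
  unfold N8 JD
  rw [Finset.card_filter]
  refine Finset.sum_congr rfl fun T _ => ?_
  unfold E
  by_cases h1 : T.image t ∈ H <;> by_cases h2 : T.image t ∈ E' <;> simp [h1, h2]

/-- The sizes of the differences on the sub-tuples. -/
theorem DS_JD_card (hm : 4 ≤ m) (t : Fin (m + 1) → Fin n) :
    DS (fun s : Fin m → Fin n => (JD H E' s).card) t = (m - 3) * (JD H E' t).card := by
  rw [JD_card_eq, ← DS_N8 hm]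
  unfold DS
  exact Finset.sum_congr rfl fun x _ => JD_card_eq H E' _

end jd

namespace PsiSys

variable (S : PsiSys)

/-- The far pairs, general form. -/
theorem far_gen (h h' : ∀ {n : ℕ}, Finset (Finset (Fin n)) → (Fin 6 → Fin n) → ℤ)
    (σ : ∀ {n : ℕ}, Finset (Finset (Fin n)) → Finset (Finset (Fin n)) → (Fin 6 → Fin n) → ℤ)
    (R1 : ∀ (n : ℕ) (H : Finset (Finset (Fin n))) (s : Fin 7 → Fin n), (∀ e ∈ H, e.card = 4) →
      (∀ T : Finset (Fin n), T.card = 5 → ∃ e ∈ T.powersetCard 4, e ∉ H) →
      Function.Injective s → 0 ≤ S.rowA H s + DS (m := 6) (h' H) s)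
    (R2 : ∀ (n : ℕ) (E' : Finset (Finset (Fin n))) (s : Fin 7 → Fin n),
      (∀ e ∈ E', e.card = 4) → EvenH n E' → Function.Injective s →
        S.B E' s ≤ DS (m := 6) (h E') s)
    (R3 : ∀ (n : ℕ) (H E' : Finset (Finset (Fin n))) (p : Fin 6 → Fin n),
      (∀ e ∈ H, e.card = 4) →
      (∀ T : Finset (Fin n), T.card = 5 → ∃ e ∈ T.powersetCard 4, e ∉ H) →
      (∀ e ∈ E', e.card = 4) → EvenH n E' → Function.Injective p →
        h E' p + h' H p + σ H E' p ≤ S.ψ H E' p)
    {n : ℕ} (H E' : Finset (Finset (Fin n))) (s : Fin 7 → Fin n) (hP : Pr H E' s)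
    (hσ : 0 ≤ DS (m := 6) (σ H E') s) : 0 ≤ S.row H E' s := by
  obtain ⟨h4, h5, hE4, hE, hs⟩ := hP
  have r1 := R1 n H s h4 h5 hs
  have r2 := R2 n E' s hE4 hE hs
  have r3 : DS (m := 6) (h E') s + DS (m := 6) (h' H) s + DS (m := 6) (σ H E') s ≤
      DS (m := 6) (S.ψ H E') s := by
    unfold DS
    rw [← Finset.sum_add_distrib, ← Finset.sum_add_distrib]
    exact Finset.sum_le_sum fun x _ => R3 n H E' (s ∘ x.succAbove) h4 h5 hE4 hE
      (hs.comp Fin.succAbove_right_injective)
  unfold row
  linarith

/-- The far pairs: the difference has at least `k0` elements. -/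
theorem far (h h' : ∀ {n : ℕ}, Finset (Finset (Fin n)) → (Fin 6 → Fin n) → ℤ) (b : ℤ)
    (hb : 0 ≤ b) (k0 : ℕ)
    (R1 : ∀ (n : ℕ) (H : Finset (Finset (Fin n))) (s : Fin 7 → Fin n), (∀ e ∈ H, e.card = 4) →
      (∀ T : Finset (Fin n), T.card = 5 → ∃ e ∈ T.powersetCard 4, e ∉ H) →
      Function.Injective s → 0 ≤ S.rowA H s + DS (m := 6) (h' H) s)
    (R2 : ∀ (n : ℕ) (E' : Finset (Finset (Fin n))) (s : Fin 7 → Fin n),
      (∀ e ∈ E', e.card = 4) → EvenH n E' → Function.Injective s →
        S.B E' s ≤ DS (m := 6) (h E') s)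
    (R3 : ∀ (n : ℕ) (H E' : Finset (Finset (Fin n))) (p : Fin 6 → Fin n),
      (∀ e ∈ H, e.card = 4) →
      (∀ T : Finset (Fin n), T.card = 5 → ∃ e ∈ T.powersetCard 4, e ∉ H) →
      (∀ e ∈ E', e.card = 4) → EvenH n E' → Function.Injective p →
        h E' p + h' H p + b * (7 * ((JD H E' p).card : ℤ) - 3 * (k0 : ℤ)) ≤ S.ψ H E' p)
    {n : ℕ} (H E' : Finset (Finset (Fin n))) (s : Fin 7 → Fin n) (hP : Pr H E' s)
    (hfar : k0 ≤ (JD H E' s).card) : 0 ≤ S.row H E' s := by
  refine S.far_gen h h' (fun H E' p => b * (7 * ((JD H E' p).card : ℤ) - 3 * (k0 : ℤ)))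
    R1 R2 R3 H E' s hP ?_
  have h1 : DS (m := 6) (fun p => b * (7 * ((JD H E' p).card : ℤ) - 3 * (k0 : ℤ))) s =
      21 * b * (((JD H E' s).card : ℤ) - (k0 : ℤ)) := by
    have h2 : ((DS (fun p : Fin 6 → Fin n => (JD H E' p).card) s : ℕ) : ℤ) =
        3 * ((JD H E' s).card : ℤ) := by
      rw [DS_JD_card H E' (by norm_num) s]
      push_cast
      norm_num
    have h3 : ∑ x : Fin (6 + 1), ((JD H E' (s ∘ x.succAbove)).card : ℤ) =
        3 * ((JD H E' s).card : ℤ) := by
      rw [← h2]
      unfold DS
      push_cast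
      rfl
    unfold DS
    rw [← Finset.mul_sum, Finset.sum_sub_distrib, ← Finset.mul_sum, h3, Finset.sum_const,
      Finset.card_univ, Fintype.card_fin, nsmul_eq_mul]
    push_cast
    ring
  rw [h1]
  have h4 : (0 : ℤ) ≤ ((JD H E' s).card : ℤ) - (k0 : ℤ) := by
    have : (k0 : ℤ) ≤ ((JD H E' s).card : ℤ) := by exact_mod_cast hfar
    linarith
  positivity

end PsiSys

/-! ### Even 4-graphs with given restriction to a tuple -/

section ext
variable {n m : ℕ}

/-- Every even 4-graph on the positions of an injective tuple is the restriction of an even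
4-graph. -/
theorem exists_even_ext (G : Finset (Finset (Fin (m + 1)))) (hG : EvenH (m + 1) G)
    (s : Fin (m + 1) → Fin n) (hs : Function.Injective s) :
    ∃ E' : Finset (Finset (Fin n)), (∀ e ∈ E', e.card = 4) ∧ EvenH n E' ∧
      ∀ T : Finset (Fin (m + 1)), T.card = 4 → (T.image s ∈ E' ↔ T ∈ G) := by
  classical
  set f : Finset (Fin n) → Bool := fun U =>
    decide (∃ Q ∈ G, (0 : Fin (m + 1)) ∈ Q ∧ U = (Q.erase 0).image s) with hf
  refine ⟨flpE ∅ f, flpE_card _ _, evenH_flpE ∅ (by intro S _; simp) f, ?_⟩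
  -- the value of `f` at the image of a triple
  have hfT : ∀ T : Finset (Fin (m + 1)), T.card = 3 → f (T.image s) =
      decide ((0 : Fin (m + 1)) ∉ T ∧ insert 0 T ∈ G) := by
    intro T _
    rw [hf]
    apply decide_eq_decide.mpr
    constructor
    · rintro ⟨Q, hQ, h0, hU⟩
      have hT : T = Q.erase 0 := Finset.image_injective hs hU
      rw [hT]
      exact ⟨Finset.notMem_erase _ _, by rw [Finset.insert_erase h0]; exact hQ⟩
    · rintro ⟨h0, hT⟩
      exact ⟨insert 0 T, hT, Finset.mem_insert_self _ _, by rw [Finset.erase_insert h0]⟩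
  intro T hT
  have hTi : (T.image s).card = 4 := by rw [Finset.card_image_of_injective _ hs, hT]
  have h1 := dec_flpE (∅ : Finset (Finset (Fin n))) f (T.image s) hTi
  have h2 : decide (T.image s ∈ (∅ : Finset (Finset (Fin n)))) = false := by simp
  rw [h2, Bool.false_xor] at h1
  have h3 : bz (decide (T.image s ∈ flpE ∅ f)) = bz (decide (T ∈ G)) := by
    rw [h1, bz_par]
    -- the sum over the triples of the image
    have h4 : ∑ U ∈ (T.image s).powersetCard 3, bz (f U) =
        ∑ U ∈ T.powersetCard 3, bz (decide ((0 : Fin (m + 1)) ∉ U ∧ insert 0 U ∈ G)) := by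
      symm
      refine Finset.sum_bij (fun U _ => U.image s) ?_ ?_ ?_ ?_
      · intro U hU
        rw [Finset.mem_powersetCard] at hU ⊢
        exact ⟨Finset.image_subset_image hU.1, by
          rw [Finset.card_image_of_injective _ hs, hU.2]⟩
      · intro U _ U' _ h
        exact Finset.image_injective hs h
      · intro U hU
        rw [Finset.mem_powersetCard] at hU
        obtain ⟨U', hU', rfl⟩ := Finset.subset_image_iff.mp hU.1
        refine ⟨U', ?_, rfl⟩
        rw [Finset.mem_powersetCard]
        refine ⟨hU', ?_⟩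
        rw [← Finset.card_image_of_injective _ hs, hU.2]
      · intro U hU
        rw [hfT U (Finset.mem_powersetCard.mp hU).2]
    rw [h4]
    by_cases h0 : (0 : Fin (m + 1)) ∈ T
    · -- only the triple without the zero counts
      have h5 : ∀ U ∈ T.powersetCard 3, U ≠ T.erase 0 →
          bz (decide ((0 : Fin (m + 1)) ∉ U ∧ insert 0 U ∈ G)) = 0 := by
        intro U hU hne
        rw [Finset.mem_powersetCard] at hU
        have h6 : (0 : Fin (m + 1)) ∈ U := by
          by_contra h7
          apply hne
          apply Finset.eq_of_subset_of_card_le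
          · intro z hz
            rw [Finset.mem_erase]
            exact ⟨fun h => h7 (h ▸ hz), hU.1 hz⟩
          · rw [Finset.card_erase_of_mem h0, hT, hU.2]
        have h8 : decide ((0 : Fin (m + 1)) ∉ U ∧ insert 0 U ∈ G) = false := by
          apply decide_eq_false
          rintro ⟨h9, _⟩
          exact h9 h6
        rw [h8]
        rfl
      have h9 : T.erase 0 ∈ T.powersetCard 3 := by
        rw [Finset.mem_powersetCard]
        exact ⟨Finset.erase_subset _ _, by rw [Finset.card_erase_of_mem h0, hT]⟩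
      rw [Finset.sum_eq_single_of_mem _ h9 h5]
      congr 1
      apply decide_eq_decide.mpr
      rw [Finset.insert_erase h0]
      exact ⟨fun h => h.2, fun h => ⟨Finset.notMem_erase _ _, h⟩⟩
    · -- the five-set with the zero is even
      have h5 : (insert 0 T).card = 5 := by rw [Finset.card_insert_of_notMem h0, hT]
      have h6 := (even_iff_zmod _).mp (hG (insert 0 T) h5)
      rw [card4_filter _ _ h5, Finset.sum_insert h0, Finset.erase_insert h0] at h6
      have h7 : ∑ U ∈ T.powersetCard 3, bz (decide ((0 : Fin (m + 1)) ∉ U ∧ insert 0 U ∈ G)) =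
          ∑ x ∈ T, bz (decide ((insert 0 T).erase x ∈ G)) := by
        symm
        refine Finset.sum_bij (fun x _ => T.erase x) ?_ ?_ ?_ ?_
        · intro x hx
          rw [Finset.mem_powersetCard]
          exact ⟨Finset.erase_subset _ _, by rw [Finset.card_erase_of_mem hx, hT]⟩
        · intro x hx y hy hxy
          by_contra hne
          have : x ∈ T.erase y := Finset.mem_erase.mpr ⟨hne, hx⟩
          rw [← hxy] at this
          exact absurd this (Finset.notMem_erase x _)
        · intro U hU
          rw [Finset.mem_powersetCard] at hU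
          have h8 : (T \ U).card = 1 := by
            rw [Finset.card_sdiff_of_subset hU.1, hT, hU.2]
          obtain ⟨x, hx⟩ := Finset.card_eq_one.mp h8
          have hx1 : x ∈ T \ U := by rw [hx]; exact Finset.mem_singleton_self x
          rw [Finset.mem_sdiff] at hx1
          refine ⟨x, hx1.1, ?_⟩
          symm
          apply Finset.eq_of_subset_of_card_le
          · intro z hz
            rw [Finset.mem_erase]
            exact ⟨fun h => hx1.2 (h ▸ hz), hU.1 hz⟩
          · rw [Finset.card_erase_of_mem hx1.1, hT, hU.2]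
        · intro x hx
          congr 1
          apply decide_eq_decide.mpr
          have hx0 : x ≠ 0 := fun h => h0 (h ▸ hx)
          have e1 : (insert 0 T).erase x = insert 0 (T.erase x) := by
            rw [Finset.erase_insert_of_ne (fun h => hx0 h.symm)]
          rw [e1]
          constructor
          · intro h
            exact ⟨fun h9 => h0 (Finset.mem_of_mem_erase h9), h⟩
          · intro h
            exact h.2
      rw [h7]
      have h8 := eq_neg_of_add_eq_zero_left h6
      rw [h8, CharTwo.neg_eq]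
  have h4 := bz_inj h3
  exact decide_eq_decide.mp h4

end ext

end Pool.Agent.Lib.MP_afdd4d_co.K8
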