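import Pool.Agent.Lib.MP_afdd4d_co.K8.PsiPot4

/-!
# The upper bound from the near rows and the conditions of the classes
-/

namespace Pool.Agent.Lib.MP_afdd4d_co.K8.Pt

open Finset PsiSys

/-- Every pair is a pair of a class after a permutation. -/
theorem exists_coset {N m : ℕ} {rows : List (List ℕ)} (hn : rows.length = m) (h0 : lk N 0 = 0)
    (hn0 : Nat.blt 0 m = true) (hL : cosOK N m rows 0 = true) {n : ℕ}
    (H E' : Finset (Finset (Fin n))) (s : Fin 7 → Fin n) (hP : Pr H E' s) :
    ∃ c ∈ lks N m, ∃ (σ : Equiv.Perm (Fin 7)) (E'' : Finset (Finset (Fin n))),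
      Pr H E' (s ∘ σ) ∧ Pr H E'' (s ∘ σ) ∧ JD H E'' (s ∘ σ) = jset c ∧
      (JD H E' (s ∘ σ)).card = (JD H E' s).card := by
  obtain ⟨c, hc, σ, hev⟩ := cos_cov hn h0 hn0 hL (JD H E' s) (JD_card4 H E' s)
  -- the permuted tuple
  have e2 : ∀ T : Finset (Fin 7), (T.image σ.symm).image σ = T := by
    intro T
    rw [Finset.image_image]
    have : (σ : Fin 7 → Fin 7) ∘ σ.symm = id := by funext i; simp
    rw [this, Finset.image_id]
  have e3 : ∀ T : Finset (Fin 7), (T.image σ).image σ.symm = T := by
    intro T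
    rw [Finset.image_image]
    have : (σ.symm : Fin 7 → Fin 7) ∘ σ = id := by funext i; simp
    rw [this, Finset.image_id]
  set s' : Fin 7 → Fin n := s ∘ σ.symm with hs'
  have hP' : Pr H E' s' := hP.comp σ.symm
  set J : Finset (Finset (Fin 7)) := JD H E' s' with hJ
  have hJm : ∀ T : Finset (Fin 7), T ∈ J ↔ T.image σ.symm ∈ JD H E' s := by
    intro T
    rw [hJ, hs', mem_JD_perm]
  have hJc : J.card = (JD H E' s).card := by
    have h1 : J = (JD H E' s).image fun T => T.image σ := by
      ext T
      rw [hJm, Finset.mem_image]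
      constructor
      · intro h
        exact ⟨_, h, e2 T⟩
      · rintro ⟨U, hU, rfl⟩
        rw [e3]
        exact hU
    rw [h1, Finset.card_image_of_injective _ (Finset.image_injective σ.injective)]
  have hJe : EvF fun T => decide (T ∈ J) ^^ decide (T ∈ jset c) := by
    have h1 := hev.comp σ.symm
    intro U hU
    rw [← h1 U hU]
    refine Finset.sum_congr rfl fun x _ => ?_
    beta_reduce
    rw [e2, decide_eq_decide.mpr (hJm (U.erase x))]
  -- the even 4-graph with the difference `c`
  obtain ⟨h4, h5, hE4, hE, hs⟩ := hP'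
  set G : Finset (Finset (Fin (6 + 1))) := ((univ : Finset (Fin (6 + 1))).powersetCard 4).filter
    fun T => (!(E H s' T) ^^ decide (T ∈ jset c)) = true with hG
  have hGm : ∀ T : Finset (Fin (6 + 1)), T.card = 4 →
      (T ∈ G ↔ (!(E H s' T) ^^ decide (T ∈ jset c)) = true) := by
    intro T hT
    rw [hG, Finset.mem_filter, Finset.mem_powersetCard]
    exact ⟨fun h => h.2, fun h => ⟨⟨Finset.subset_univ _, hT⟩, h⟩⟩
  have hGe : EvenH (6 + 1) G := by
    intro U hU
    rw [even_iff_zmod, card4_filter _ U hU]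
    have h6 : ∀ x ∈ U, bz (decide (U.erase x ∈ G)) =
        bz (decide (U.erase x ∈ J) ^^ decide (U.erase x ∈ jset c)) +
          bz (decide ((U.erase x).image s' ∈ E')) := by
      intro x hx
      have hT : (U.erase x).card = 4 := by rw [Finset.card_erase_of_mem hx, hU]
      rw [← bz_xor]
      congr 1
      have h7 : decide (U.erase x ∈ G) = (!(E H s' (U.erase x)) ^^ decide (U.erase x ∈ jset c)) := by
        rw [Bool.eq_iff_iff, decide_eq_true_iff]
        exact hGm _ hT
      have h8 : decide (U.erase x ∈ J) = (E H s' (U.erase x) ^^ E E' s' (U.erase x)) := by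
        rw [Bool.eq_iff_iff, decide_eq_true_iff, hJ, mem_JD]
        constructor
        · rintro ⟨_, h9⟩
          revert h9
          cases E H s' (U.erase x) <;> cases E E' s' (U.erase x) <;> simp
        · intro h9
          refine ⟨hT, ?_⟩
          revert h9
          cases E H s' (U.erase x) <;> cases E E' s' (U.erase x) <;> simp
      have h9 : decide ((U.erase x).image s' ∈ E') = !(E E' s' (U.erase x)) := by
        unfold E
        rw [decide_not, Bool.not_not]
      rw [h7, h8, h9]
      cases E H s' (U.erase x) <;> cases E E' s' (U.erase x) <;>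
        cases decide (U.erase x ∈ jset c) <;> rfl
    rw [Finset.sum_congr rfl h6, Finset.sum_add_distrib, hJe U hU, zero_add]
    -- the even 4-graph on the image of the five-set
    have h7 := (even_iff_zmod _).mp (hE (U.image s') (by
      rw [Finset.card_image_of_injective _ hs, hU]))
    rw [card4_filter _ _ (by rw [Finset.card_image_of_injective _ hs, hU]),
      Finset.sum_image (fun x _ y _ hxy => hs hxy)] at h7
    rw [← h7]
    refine Finset.sum_congr rfl fun x _ => ?_
    rw [← Finset.image_erase hs]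
  obtain ⟨E'', hE4', hE'', hEm⟩ := exists_even_ext G hGe s' hs
  have hJ'' : JD H E'' s' = jset c := by
    ext T
    by_cases hT : T.card = 4
    · rw [mem_JD]
      have h6 := hEm T hT
      rw [hGm T hT] at h6
      have h7 : E E'' s' T = !(decide (T.image s' ∈ E'')) := by
        unfold E
        rw [decide_not]
      have h8 : decide (T.image s' ∈ E'') = (!(E H s' T) ^^ decide (T ∈ jset c)) := by
        rw [Bool.eq_iff_iff, decide_eq_true_iff]
        exact h6
      rw [h7, h8]
      by_cases h9 : T ∈ jset c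
      · rw [decide_eq_true h9]
        constructor
        · intro _; exact h9
        · intro _
          refine ⟨hT, ?_⟩
          cases E H s' T <;> decide
      · rw [decide_eq_false h9]
        constructor
        · rintro ⟨_, h10⟩
          exfalso
          apply h10
          cases E H s' T <;> rfl
        · intro h10
          exact absurd h10 h9
    · constructor
      · intro h6
        exact absurd (JD_card4 H E'' _ T h6) hT
      · intro h6
        exact absurd (jset_card4 c T h6) hT
  exact ⟨c, hc, σ.symm, E'', ⟨h4, h5, hE4, hE, hs⟩, ⟨h4, h5, hE4', hE'', hs⟩, hJ'', hJc⟩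

/-- The upper bound. -/
theorem bound (S : PsiSys) (κ6 : Kern 6) (lam : ℝ) (hlam : lam * (35 * S.a) ≤ S.Lo) (k0 : ℕ)
    (LL : ℕ → List ℕ) (hcov : ∀ k < k0, CovK k (LL k))
    (hnear : ∀ k < k0, ∀ c ∈ LL k, S.RowJ (jset c))
    {N m : ℕ} {rows : List (List ℕ)} (hn : rows.length = m) (h0 : lk N 0 = 0)
    (hn0 : Nat.blt 0 m = true) (hL : cosOK N m rows 0 = true)
    (hfar : ∀ c ∈ lks N m, Far S c k0)
    (hB : ∀ (n : ℕ) (E' : Finset (Finset (Fin n))), (∀ e ∈ E', e.card = 4) → EvenH n E' →
      ∀ t : Fin (7 + 1) → Fin n, Function.Injective t →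
        PS (κ6.f E') t ≤ DS (m := 7) (S.B E') t) :
    ∀ ε : ℝ, 0 < ε → ∃ N : ℕ, ∀ n : ℕ, N ≤ n → ∀ H : Finset (Finset (Fin n)),
      (∀ e ∈ H, e.card = 4) →
      (∀ T : Finset (Fin n), T.card = 5 → ∃ e ∈ T.powersetCard 4, e ∉ H) →
      (H.card : ℝ) ≤ (1 - lam + ε) * ((n.choose 4 : ℕ) : ℝ) := by
  refine S.bound κ6 lam hlam ?_ hB
  intro n H E' s hP
  rcases Nat.lt_or_ge (JD H E' s).card k0 with hlt | hge
  · exact PsiSys.RowJ.of_cov (hcov _ hlt) (hnear _ hlt) (JD H E' s) (JD_card4 H E' s) rfl
      n H E' s hP rfl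
  · obtain ⟨c, hc, σ, E'', hP1, hP2, hJ, hcard⟩ := exists_coset hn h0 hn0 hL H E' s hP
    rw [← S.row_perm H E' s σ]
    exact hfar c hc n H E' E'' (s ∘ σ) hP1 hP2 hJ (by rw [hcard]; exact hge)

end Pool.Agent.Lib.MP_afdd4d_co.K8.Pt
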