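import Pool.Agent.Lib.MP_afdd4d_co.K8.PsiMask

/-!
# The far pairs by potentials

For a class of 4-graphs on seven points up to even 4-graphs, three functions of the ten bits of each
of the seven restrictions, one for the 4-graph, one for the even 4-graph and one for their difference,
bound the row from below.
-/

namespace Pool.Agent.Lib.MP_afdd4d_co.K8.Pt

open Finset

/-! ### Views -/

/-- The bits of the view `v` of twenty bits. -/
def kv (v : Fin 7) (z : ℕ → Bool) (r : ℕ) : Bool := lf 20 (Jv.mf v r) z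

/-- The sum of two sequences of bits. -/
def xz (z z' : ℕ → Bool) (i : ℕ) : Bool := z i ^^ z' i

theorem kv_xz (v : Fin 7) (z z' : ℕ → Bool) (r : ℕ) : kv v (xz z z') r = (kv v z r ^^ kv v z' r) :=
  Jv.lf_xor_arg 20 (Jv.mf v r) z z' (Jv.mf_zero v r)

theorem kv_congr (v : Fin 7) (z z' : ℕ → Bool) (h : ∀ i < 20, z i = z' i) : kv v z = kv v z' := by
  funext r
  exact lf_congr 20 _ _ _ h

theorem mk20_tau (z : ℕ → Bool) : ∀ i < 20, mk20 (idx 4 fun i => z (16 + i)) z i = z i := by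
  intro i hi
  unfold mk20
  by_cases h : i < 16
  · rw [if_pos h]
  · rw [if_neg h, testBit_idx, decide_eq_true (by omega), Bool.true_and]
    congr 1
    omega

theorem gc_vq {n : ℕ} (E' : Finset (Finset (Fin n))) (s : Fin 7 → Fin n) (hE : EvT E' s)
    (v : Fin 7) (r : ℕ) (hr : r < 10) : gc E' (s ∘ Jv.vq v) r = kv v (gc E' s) r := by
  rw [gc, zb_comp, zb7_eq E' s hE _ (Jv.qd6_card v r hr)]
  rfl

/-! ### The conditions -/

section props
variable (S : PsiSys) (c k0 : ℕ)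

/-- The condition for the 4-graph. -/
def R1 (f : Fin 7 → (ℕ → Bool) → ℤ) (r1 : ℤ) : Prop :=
  ∀ (n : ℕ) (H E' : Finset (Finset (Fin n))) (s : Fin 7 → Fin n), PsiSys.Pr H E' s →
    JD H E' s = jset c → r1 ≤ S.rowA H s + ∑ v : Fin 7, f v (kv v (gc H s))

/-- The condition for the even 4-graph. -/
def R2 (g : Fin 7 → (ℕ → Bool) → ℤ) (r2 : ℤ) : Prop :=
  ∀ (n : ℕ) (E' : Finset (Finset (Fin n))) (s : Fin 7 → Fin n), (∀ e ∈ E', e.card = 4) →
    EvenH n E' → Function.Injective s → r2 + S.B E' s ≤ ∑ v : Fin 7, g v (kv v (gc E' s))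

/-- The condition for the pairs on six points. -/
def R3 (f g d : Fin 7 → (ℕ → Bool) → ℤ) : Prop :=
  ∀ (v : Fin 7) (n : ℕ) (H E' E'' : Finset (Finset (Fin n))) (s : Fin 7 → Fin n),
    PsiSys.Pr H E' s → PsiSys.Pr H E'' s → JD H E'' s = jset c →
    g v (kv v (gc E' s)) + f v (kv v (gc H s)) + d v (kv v (xz (gc E' s) (gc H s))) ≤
      S.ψ H E' (s ∘ Jv.vq v)

/-- The condition for the differences. -/
def R4 (d : Fin 7 → (ℕ → Bool) → ℤ) (r4 : ℤ) : Prop :=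
  ∀ (n : ℕ) (H E' E'' : Finset (Finset (Fin n))) (s : Fin 7 → Fin n),
    PsiSys.Pr H E' s → PsiSys.Pr H E'' s → JD H E'' s = jset c → k0 ≤ (JD H E' s).card →
    r4 ≤ ∑ v : Fin 7, d v (kv v (xz (gc E' s) (gc H s)))

/-- The rows of the far pairs of a class. -/
def Far : Prop :=
  ∀ (n : ℕ) (H E' E'' : Finset (Finset (Fin n))) (s : Fin 7 → Fin n),
    PsiSys.Pr H E' s → PsiSys.Pr H E'' s → JD H E'' s = jset c → k0 ≤ (JD H E' s).card →
    0 ≤ S.row H E' s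

variable {S c k0}

theorem far_of {f g d : Fin 7 → (ℕ → Bool) → ℤ} {r1 r2 r4 : ℤ} (h1 : R1 S c f r1)
    (h2 : R2 S g r2) (h3 : R3 S c f g d) (h4 : R4 c k0 d r4) (hr : 0 ≤ r1 + r2 + r4) :
    Far S c k0 := by
  intro n H E' E'' s hP hP' hJ hk
  have e1 := h1 n H E'' s hP' hJ
  have e2 := h2 n E' s hP.2.2.1 hP.2.2.2.1 hP.2.2.2.2
  have e4 := h4 n H E' E'' s hP hP' hJ hk
  have e3 : ∑ v : Fin 7, (g v (kv v (gc E' s)) + f v (kv v (gc H s)) +
      d v (kv v (xz (gc E' s) (gc H s)))) ≤ ∑ v : Fin 7, S.ψ H E' (s ∘ Jv.vq v) :=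
    Finset.sum_le_sum fun v _ => h3 v n H E' E'' s hP hP' hJ
  rw [Finset.sum_add_distrib, Finset.sum_add_distrib] at e3
  have e5 := Jv.DS_vq (S.ψ H E') (fun τ p => S.ψs H E' τ p) s
  unfold PsiSys.row
  rw [e5]
  linarith

end props

/-! ### Lanes of tables -/

/-- The lane of a table. -/
def fl (W T : ℕ) (b : ℕ → Bool) : ℕ := Ln W T (idx 10 b)

theorem fl_congr (W T : ℕ) (b b' : ℕ → Bool) (h : ∀ r < 10, b r = b' r) : fl W T b = fl W T b' := by
  unfold fl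
  rw [idx_congr 10 b b' h]

/-- The conditions on a table. -/
def TOK (W M T : ℕ) : Prop := Ar W 10 T (fl W T) ∧ ∀ b, fl W T b ≤ M

/-- The check of a table. -/
def ckT (W M T : ℕ) : Bool := @Bool.rec (fun _ => Bool) false
  (leL W 10 T (csG W M 10)) (Nat.beq (Nat.shiftRight T (Nat.mul W 1024)) 0)

theorem lt_of_shiftRight {A k : ℕ} (h : Nat.beq (Nat.shiftRight A k) 0 = true) : A < 2 ^ k := by
  have h2 : A >>> k = 0 := Nat.eq_of_beq_eq_true h
  rw [Nat.shiftRight_eq_div_pow] at h2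
  rcases (Nat.div_eq_zero_iff).mp h2 with h3 | h3
  · exact absurd h3 (Nat.two_pow_pos k).ne'
  · exact h3

/-- The check of the lanes against a mask. -/
def ckM (W m T : ℕ) : Bool := @Bool.rec (fun _ => Bool) false
  (Nat.beq (Nat.land T (csG W (Nat.sub (Nat.pow 2 W) (Nat.pow 2 m)) 10)) 0)
  (Nat.beq (Nat.shiftRight T (Nat.mul W 1024)) 0)

theorem ckM_spec {W m T : ℕ} (hW : 0 < W) (hm : m < W) (h : ckM W m T = true) :
    TOK W (2 ^ m - 1) T := by
  unfold ckM at h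
  cases h1 : Nat.beq (Nat.shiftRight T (Nat.mul W 1024)) 0 with
  | false =>
    rw [h1] at h
    exact absurd (show false = true from h) Bool.false_ne_true
  | true =>
    rw [h1] at h
    dsimp only at h
    have h2 : T < 2 ^ (W * 1024) := lt_of_shiftRight h1
    have h3 : T &&& csG W (2 ^ W - 2 ^ m) 10 = 0 := Nat.eq_of_beq_eq_true h
    have h4 : Ar W 10 T (fl W T) := ⟨h2, fun b => rfl⟩
    refine ⟨h4, fun b => ?_⟩
    have hpm : 2 ^ m < 2 ^ W := Nat.pow_lt_pow_right (by norm_num) hm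
    have hpp := Nat.two_pow_pos m
    have h5 := csG_ar (W := W) (c := 2 ^ W - 2 ^ m) hW (by omega) 10
    have h6 : Ln W (T &&& csG W (2 ^ W - 2 ^ m) 10) (idx 10 b) = 0 := by
      rw [h3, Ln_zero_left]
    rw [Ln_and, h5.get] at h6
    have h7 : Ln W T (idx 10 b) < 2 ^ m := by
      have hx := Ln_lt W T (idx 10 b)
      apply Nat.lt_pow_two_of_testBit
      intro i hi
      rcases Nat.lt_or_ge i W with h8 | h8
      · have h9 : (Ln W T (idx 10 b) &&& (2 ^ W - 2 ^ m)).testBit i = false := by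
          rw [h6, Nat.zero_testBit]
        have h10 : (2 ^ W - 2 ^ m).testBit i = true := by
          have e1 : 2 ^ W - 2 ^ m = 2 ^ m * (2 ^ (W - m) - 1) := by
            rw [Nat.mul_sub, mul_one, ← pow_add, Nat.add_sub_cancel' hm.le]
          rw [e1, mul_comm, Nat.testBit_mul_two_pow, Nat.testBit_two_pow_sub_one,
            decide_eq_true hi, decide_eq_true (by omega), Bool.true_and]
        rw [Nat.testBit_and, h10, Bool.and_true] at h9
        exact h9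
      · exact Nat.testBit_lt_two_pow (lt_of_lt_of_le hx (Nat.pow_le_pow_right (by norm_num) h8))
    unfold fl
    omega

theorem TOK.ar {W M T : ℕ} (h : TOK W M T) : Ar W 10 T (fl W T) := h.1

theorem TOK.le {W M T : ℕ} (h : TOK W M T) (b : ℕ → Bool) : fl W T b ≤ M := h.2 b

/-- The view of a table. -/
theorem view_ar {W M T τ : ℕ} (hW : 0 < W) (hT : TOK W M T) (hτ : τ < 16) (v : Fin 7) :
    Ar W 16 (Jv.vwG W τ v T) fun b => fl W T (kv v (mk20 τ b)) :=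
  Jv.vwG_ar hW hτ v hT.ar

theorem sum_view_ar {W M τ : ℕ} (hW : 0 < W) (T : ℕ → ℕ) (hT : ∀ v : Fin 7, TOK W M (T v))
    (hτ : τ < 16) (hM : 7 * M < 2 ^ W) :
    Ar W 16 (Jv.Tabs.s7 fun v => Jv.vwG W τ v (T v)) fun b =>
      ∑ v : Fin 7, fl W (T v) (kv v (mk20 τ b)) :=
  Jv.Tabs.s7_ar hW (fun v => Jv.vwG W τ v (T v)) (fun v b => fl W (T v) (kv v (mk20 τ b))) M
    (fun v => view_ar hW (hT v) hτ v) (fun v b => (hT v).le _) hM

theorem sum_le7 (f : Fin 7 → ℕ) (M : ℕ) (h : ∀ v, f v ≤ M) : ∑ v : Fin 7, f v ≤ 7 * M :=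
  Jv.Tabs.sum7_le f M h

section tabs
variable {S : PsiSys} (D : Jv.Tabs S)

/-! ### The even 4-graph -/

/-- The check of the condition for the even 4-graph. -/
def chE (tE : ℕ → ℕ) (K2 τ : ℕ) : Bool :=
  leL D.w 16 (Nat.add (D.tB τ) (csG D.w K2 16)) (Jv.Tabs.s7 fun v => Jv.vwG D.w τ v (tE v))

theorem R2_of {tE : ℕ → ℕ} {K2 M : ℕ} {oE : ℤ} {r2 : ℤ} (hT : ∀ v : Fin 7, TOK D.w M (tE v))
    (hM : 7 * M < 2 ^ (D.w - 1)) (hK : D.MB + K2 < 2 ^ (D.w - 1))
    (hr : r2 + 7 * oE - D.OB ≤ (K2 : ℤ)) (hch : ∀ τ < 16, chE D tE K2 τ = true) :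
    R2 S (fun v b => (fl D.w (tE v) b : ℤ) - oE) r2 := by
  intro n E' s h4 hE hs
  have hw := D.hw
  have hw0 := D.hw0
  have h2w : 2 ^ (D.w - 1) ≤ 2 ^ D.w := Nat.pow_le_pow_right (by norm_num) (by omega)
  have hev : EvT E' s := Jv.evT_of_evenH E' hE s hs
  set τ : ℕ := idx 4 fun i => gc E' s (16 + i) with hτd
  have hτ : τ < 16 := idx_lt 4 _
  have h1 := (D.hB τ hτ).add (csG_ar hw0 (show K2 < 2 ^ D.w by omega) 16) hw0
    (fun b => by have := D.hB2 τ hτ b; omega)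
  have h2 := sum_view_ar hw0 tE hT hτ (by omega)
  have h3 := leL_le hw h1 h2 (fun b => by have := D.hB2 τ hτ b; omega)
    (fun b => lt_of_le_of_lt (sum_le7 _ M fun v => (hT v).le _) hM) (hch τ hτ) (gc E' s)
  have h5 : ∀ v : Fin 7, kv v (mk20 τ (gc E' s)) = kv v (gc E' s) := fun v =>
    kv_congr v _ _ (mk20_tau (gc E' s))
  have h6 := D.sB n E' s hev
  have h7 : D.fB τ (gc E' s) + K2 ≤ ∑ v : Fin 7, fl D.w (tE v) (kv v (gc E' s)) := by
    calc D.fB τ (gc E' s) + K2 ≤ _ := h3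
      _ = _ := Finset.sum_congr rfl fun v _ => by rw [h5 v]
  have h8 : (D.fB τ (gc E' s) : ℤ) + K2 ≤ ∑ v : Fin 7, (fl D.w (tE v) (kv v (gc E' s)) : ℤ) := by
    exact_mod_cast h7
  rw [h6, Finset.sum_sub_distrib, Finset.sum_const, Finset.card_univ, Fintype.card_fin,
    nsmul_eq_mul]
  push_cast
  linarith

/-! ### The 4-graph -/

/-- The check of the condition for the 4-graph: `A` are the lanes of the 4-graph alone, `M` are the
lanes of the mask. -/
def chH (A M : ℕ) (tK : ℕ → ℕ) (K1 τ : ℕ) : Bool :=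
  leL D.w 16 (Nat.land A M) (Nat.add (csG D.w K1 16) (Jv.Tabs.s7 fun v => Jv.vwG D.w τ v (tK v)))

theorem R1_of (g : Jv.Ent) (hg : g.mg = true) (hc : g.c ∈ D.reps) {Mk : ℕ → ℕ}
    {fM : ℕ → (ℕ → Bool) → ℕ} (hMk : Jv.Tabs.MaskOK D.w g.c Mk fM) {tK : ℕ → ℕ} {K1 M : ℕ} {oK : ℤ}
    {r1 : ℤ} (hT : ∀ v : Fin 7, TOK D.w M (tK v)) (hM : K1 + 7 * M < 2 ^ (D.w - 1))
    (hr : (K1 : ℤ) ≤ D.C0 - 2 * S.Lo + 7 * D.OP - r1 - 7 * oK)
    (hch : ∀ τ < 16, chH D (D.QE g τ) (Mk τ) tK K1 τ = true) :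
    R1 S g.c (fun v b => (fl D.w (tK v) b : ℤ) - oK) r1 := by
  intro n H E' s hP hJ
  have hw := D.hw
  have hw0 := D.hw0
  have hsz := D.hsz
  have h2w : 2 ^ (D.w - 1) ≤ 2 ^ D.w := Nat.pow_le_pow_right (by norm_num) (by omega)
  have h0 := D.rowA_eq H E' s g.c hc hP hJ
  set τ : ℕ := idx 4 fun i => gc H s (16 + i) with hτd
  have hτ : τ < 16 := idx_lt 4 _
  have hmk : fM τ (gc H s) = 2 ^ D.w - 1 := hMk.2 n H E' s hP hJ
  have h1 := (D.QA_ar g.c hc τ hτ).and (hMk.1 τ hτ)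
  have h4 := fun b => D.fQ_le g.c hc τ hτ b
  have hbd : ∀ b, D.fQ g.c τ b < 2 ^ (D.w - 1) := fun b => by have := h4 b; omega
  have h2 := (csG_ar hw0 (show K1 < 2 ^ D.w by omega) 16).add
    (sum_view_ar hw0 tK hT hτ (by omega)) hw0
    (fun b => by
      have := sum_le7 (fun v => fl D.w (tK v) (kv v (mk20 τ b))) M fun v => (hT v).le _
      omega)
  have hck := hch τ hτ
  unfold chH at hck
  rw [D.QE_eq g hg] at hck
  have h3 := leL_le hw h1 h2 (fun b => lt_of_le_of_lt Nat.and_le_left (hbd b))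
    (fun b => by
      have := sum_le7 (fun v => fl D.w (tK v) (kv v (mk20 τ b))) M fun v => (hT v).le _
      omega) hck (gc H s)
  have h5 : ∀ v : Fin 7, kv v (mk20 τ (gc H s)) = kv v (gc H s) := fun v =>
    kv_congr v _ _ (mk20_tau (gc H s))
  rw [hmk, and_full _ _ (lt_of_lt_of_le (hbd (gc H s)) h2w)] at h3
  have h7 : D.fQ g.c τ (gc H s) ≤ K1 + ∑ v : Fin 7, fl D.w (tK v) (kv v (gc H s)) := by
    calc D.fQ g.c τ (gc H s) ≤ _ := h3
      _ = _ := by rw [Finset.sum_congr rfl fun v _ => by rw [h5 v]]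
  have h8 : (D.fQ g.c τ (gc H s) : ℤ) ≤ K1 + ∑ v : Fin 7, (fl D.w (tK v) (kv v (gc H s)) : ℤ) := by
    exact_mod_cast h7
  rw [h0, Finset.sum_sub_distrib, Finset.sum_const, Finset.card_univ, Fintype.card_fin,
    nsmul_eq_mul]
  push_cast
  linarith

end tabs

end Pool.Agent.Lib.MP_afdd4d_co.K8.Pt
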