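import Pool.Agent.Lib.MP_afdd4d_co.K8.PsiPot

/-!
# The condition for the pairs on six points
-/

namespace Pool.Agent.Lib.MP_afdd4d_co.K8.Pt

open Finset

section tabs
variable {S : PsiSys} (D : Jv.Tabs S)

/-! ### The pairs on six points -/

/-- The linear map from ten bits to the bits of the fifteen quadruples. -/
def FU : List ℕ := [273, 2066, 8212, 16408, 2336, 8512, 16768, 10752, 19456, 28672]

/-- The bits of the fifteen quadruples of an even 4-graph. -/
def fu (x : ℕ) : ℕ := @List.rec ℕ (fun _ => ℕ → ℕ → ℕ) (fun _ a => a)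
  (fun u _ ih i a => ih (Nat.succ i) (@Bool.rec (fun _ => ℕ) a (Nat.xor a u)
    (Nat.beq (bt x i) 1))) FU 0 0

theorem fu_spec : ∀ x < 1024, ∀ r < 15, (fu x).testBit r = lf 10 (Og.exF6 (q6 6 r)) x.testBit := by
  have h : ∀ x < 1024, ∀ r < 15, (fu x).testBit r = lf 10 (FX.getD r 0) x.testBit := by
    decide +kernel
  intro x hx r hr
  rw [h x hx r hr, FX_eq r hr]

theorem fu_lt : ∀ x < 1024, fu x < 2 ^ 15 := by decide +kernel

/-- The lane of an array. -/
def lnG (W T x : ℕ) : ℕ := Nat.mod (Nat.shiftRight T (Nat.mul W x)) (Nat.pow 2 W)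

theorem lnG_eq (W T x : ℕ) : lnG W T x = Ln W T x := by
  unfold lnG Ln
  have e : Nat.shiftRight T (Nat.mul W x) = T >>> (W * x) := rfl
  rw [e, Nat.shiftRight_eq_div_pow]
  rfl

/-- The check of the pairs with difference `x`. -/
def chT (c6 tE tK tS x : ℕ) : Bool :=
  leL D.w 10 (Nat.add (Nat.add tE (xkG D.w 10 x 10 tK)) (csG D.w (lnG D.w tS x) 10))
    (D.tP (Nat.xor c6 (fu x)))

theorem exF6_zero (T : Finset (Fin 6)) : (Og.exF6 T).testBit 0 = false := by
  unfold Og.exF6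
  simp

/-- The bits of the difference on the six points of a view. -/
theorem view_bits {n : ℕ} {H E' E'' : Finset (Finset (Fin n))} {s : Fin 7 → Fin n} {c : ℕ}
    (hP : PsiSys.Pr H E' s) (hP' : PsiSys.Pr H E'' s) (hJ : JD H E'' s = jset c)
    (hy : ∀ v : Fin 7, Jv.yc6 c v = 0) (v : Fin 7) (r : ℕ) (hr : r < 15) :
    (zb H (s ∘ Jv.vq v) (q6 6 r) ^^ zb E' (s ∘ Jv.vq v) (q6 6 r)) =
      kbit (Jv.jc6 c v) (kv v (xz (gc E' s) (gc H s))) r := by
  have hev : EvT E' s := Jv.evT_of_evenH E' hP.2.2.2.1 s hP.2.2.2.2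
  have hev' : EvT E'' s := Jv.evT_of_evenH E'' hP'.2.2.2.1 s hP'.2.2.2.2
  have h1 := Jv.jd_view H E'' s c hJ v r hr
  have h2 := Og.zb6_eq E' (s ∘ Jv.vq v) (evT_comp E' s _ (Jv.vq_inj v) hev) (q6 6 r) (q6_card r hr)
  have h3 := Og.zb6_eq E'' (s ∘ Jv.vq v) (evT_comp E'' s _ (Jv.vq_inj v) hev') (q6 6 r)
    (q6_card r hr)
  have h4 : lf 10 (Og.exF6 (q6 6 r)) (gc E' (s ∘ Jv.vq v)) =
      lf 10 (Og.exF6 (q6 6 r)) (kv v (gc E' s)) :=
    lf_congr 10 _ _ _ fun i hi => gc_vq E' s hev v i hi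
  have h5 : lf 10 (Og.exF6 (q6 6 r)) (gc E'' (s ∘ Jv.vq v)) =
      lf 10 (Og.exF6 (q6 6 r)) (kv v (gc H s)) := by
    apply lf_congr
    intro i hi
    rw [Jv.gc_view H E'' s c hJ hev' v i hi, hy v, Nat.zero_testBit, Bool.xor_false]
    rfl
  have h6 : lf 10 (Og.exF6 (q6 6 r)) (kv v (xz (gc E' s) (gc H s))) =
      (lf 10 (Og.exF6 (q6 6 r)) (kv v (gc E' s)) ^^ lf 10 (Og.exF6 (q6 6 r)) (kv v (gc H s))) := by
    rw [← Jv.lf_xor_arg 10 _ _ _ (exF6_zero _)]
    exact lf_congr 10 _ _ _ fun i _ => kv_xz v _ _ i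
  unfold kbit
  rw [h6, ← h1, h2, h3, h4, h5]
  cases zb H (s ∘ Jv.vq v) (q6 6 r) <;> cases lf 10 (Og.exF6 (q6 6 r)) (kv v (gc E' s)) <;>
    cases lf 10 (Og.exF6 (q6 6 r)) (kv v (gc H s)) <;> rfl

theorem R3_of {c : ℕ} (hy : ∀ v : Fin 7, Jv.yc6 c v = 0) {tE tK tS js : ℕ → ℕ}
    (hjs : ∀ v : Fin 7, js v = Jv.jc6 c v) {M : ℕ} {oE oK oS : ℤ} (ho : oE + oK + oS = D.OP)
    (hE : ∀ v : Fin 7, TOK D.w M (tE v)) (hK : ∀ v : Fin 7, TOK D.w M (tK v))
    (hM : 3 * M < 2 ^ (D.w - 1)) (hS : ∀ v : Fin 7, TOK D.w M (tS v))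
    (hch : ∀ v < 7, ∀ x < 1024, chT D (js v) (tE v) (tK v) (tS v) x = true) :
    R3 S c (fun v b => (fl D.w (tK v) b : ℤ) - oK) (fun v b => (fl D.w (tE v) b : ℤ) - oE)
      (fun v b => (fl D.w (tS v) b : ℤ) - oS) := by
  intro v n H E' E'' s hP hP' hJ
  have hw := D.hw
  have hw0 := D.hw0
  have hsz := D.hsz
  have h2w : 2 ^ (D.w - 1) ≤ 2 ^ D.w := Nat.pow_le_pow_right (by norm_num) (by omega)
  have hev : EvT E' s := Jv.evT_of_evenH E' hP.2.2.2.1 s hP.2.2.2.2
  have hev6 : EvT E' (s ∘ Jv.vq v) := evT_comp E' s _ (Jv.vq_inj v) hev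
  set z : ℕ → Bool := xz (gc E' s) (gc H s) with hz
  set x : ℕ := idx 10 (kv v z) with hx
  have hx10 : x < 1024 := idx_lt 10 _
  have hbx : ∀ i < 10, x.testBit i = kv v z i := fun i hi => idx_bit 10 _ i hi
  set J : ℕ := Nat.xor (js v) (fu x) with hJd
  have hJe : J = js v ^^^ fu x := rfl
  have hJlt : J < 2 ^ 15 := by
    rw [hJe, hjs v]
    exact Nat.xor_lt_two_pow (Jv.Tabs.jc6_lt c v) (fu_lt x hx10)
  have hJb : ∀ r < 15, (zb H (s ∘ Jv.vq v) (q6 6 r) ^^ zb E' (s ∘ Jv.vq v) (q6 6 r)) =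
      J.testBit r := by
    intro r hr
    rw [view_bits hP hP' hJ hy v r hr, hJe, Nat.testBit_xor, hjs v, fu_spec x hx10 r hr]
    unfold kbit
    rw [lf_congr 10 _ (x.testBit) (kv v z) hbx, Bool.xor_comm]
  have h1 := D.sP n H E' (s ∘ Jv.vq v) J hJlt hev6 hJb
  -- the lanes
  have hfS : fl D.w (tS v) (kv v z) ≤ M := (hS v).le _
  have hlS : lnG D.w (tS v) x = fl D.w (tS v) (kv v z) := by rw [lnG_eq]; rfl
  have h2 := ((hE v).ar.add (xkG_ar hw0 (hK v).ar (k := x) 10 le_rfl) hw0 (fun b => by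
    have := (hE v).le b
    have := (hK v).le (fun r => b r ^^ (decide (r < 10) && x.testBit r))
    omega)).add (csG_ar hw0 (show lnG D.w (tS v) x < 2 ^ D.w by rw [hlS]; omega) 10) hw0
      (fun b => by
        have := (hE v).le b
        have := (hK v).le (fun r => b r ^^ (decide (r < 10) && x.testBit r))
        omega)
  have h3 := leL_le hw h2 (D.hP J hJlt) (fun b => by
      have := (hE v).le b
      have := (hK v).le (fun r => b r ^^ (decide (r < 10) && x.testBit r))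
      omega) (fun b => by have := D.hP2 J hJlt b; omega) (hch v v.isLt x hx10)
    (gc E' (s ∘ Jv.vq v))
  have h4 : fl D.w (tE v) (gc E' (s ∘ Jv.vq v)) = fl D.w (tE v) (kv v (gc E' s)) :=
    fl_congr _ _ _ _ fun i hi => gc_vq E' s hev v i hi
  have h5 : fl D.w (tK v) (fun r => gc E' (s ∘ Jv.vq v) r ^^ (decide (r < 10) && x.testBit r)) =
      fl D.w (tK v) (kv v (gc H s)) := by
    apply fl_congr
    intro i hi
    rw [gc_vq E' s hev v i hi, decide_eq_true hi, Bool.true_and, hbx i hi, hz, kv_xz]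
    cases kv v (gc E' s) i <;> cases kv v (gc H s) i <;> rfl
  rw [hlS, h4, h5] at h3
  have h6 : (fl D.w (tE v) (kv v (gc E' s)) : ℤ) + fl D.w (tK v) (kv v (gc H s)) +
      fl D.w (tS v) (kv v z) ≤ D.fP J (gc E' (s ∘ Jv.vq v)) := by exact_mod_cast h3
  rw [h1]
  linarith

/-! ### Many tables at once -/

theorem fu_xor (x y : ℕ) (hx : x < 1024) (hy : y < 1024) : fu (x ^^^ y) = fu x ^^^ fu y := by
  have hxy : x ^^^ y < 1024 := Nat.xor_lt_two_pow (n := 10) hx hy
  apply Nat.eq_of_testBit_eq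
  intro r
  rcases Nat.lt_or_ge r 15 with hr | hr
  · rw [Nat.testBit_xor, fu_spec _ hxy r hr, fu_spec _ hx r hr, fu_spec _ hy r hr,
      ← Jv.lf_xor_arg 10 _ _ _ (exF6_zero _)]
    exact lf_congr 10 _ _ _ fun i _ => Nat.testBit_xor x y i
  · have h1 : ∀ z < 1024, (fu z).testBit r = false := fun z hz =>
      Nat.testBit_lt_two_pow (lt_of_lt_of_le (fu_lt z hz) (Nat.pow_le_pow_right (by norm_num) hr))
    rw [Nat.testBit_xor, h1 _ hxy, h1 _ hx, h1 _ hy]
    rfl

/-- Three tables and the code of the view. -/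
structure PE where
  tE : ℕ
  tK : ℕ
  tS : ℕ
  y0 : ℕ

/-- The check for one difference and one entry. -/
def leP (P y : ℕ) (e : PE) : Bool :=
  leL D.w 10 (Nat.add (Nat.add e.tE (xkG D.w 10 (Nat.xor y e.y0) 10 e.tK))
    (csG D.w (lnG D.w e.tS (Nat.xor y e.y0)) 10)) P

/-- The check for one difference and all entries. -/
def leA (P y : ℕ) (L : List PE) : Bool := @List.rec PE (fun _ => Bool) true
  (fun e _ ih => @Bool.rec (fun _ => Bool) false ih (leP D P y e)) L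

theorem leA_spec {P y : ℕ} : ∀ {L : List PE}, leA D P y L = true → ∀ e ∈ L, leP D P y e = true := by
  intro L
  induction L with
  | nil => intro _ e he; exact absurd he List.not_mem_nil
  | cons e0 L ih =>
    intro h e he
    have e1 : leA D P y (e0 :: L) =
        @Bool.rec (fun _ => Bool) false (leA D P y L) (leP D P y e0) := rfl
    rw [e1] at h
    cases h1 : leP D P y e0 with
    | false => rw [h1] at h; exact absurd (show false = true from h) Bool.false_ne_true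
    | true =>
      rw [h1] at h
      rcases List.mem_cons.mp he with h2 | h2
      · rw [h2]; exact h1
      · exact ih h e h2

/-- The check for the differences from `lo` in the class of `κ`. -/
def chB (κ : ℕ) (L : List PE) (lo m : ℕ) : Bool := @Nat.rec (fun _ => Bool) true
  (fun i ih => @Bool.rec (fun _ => Bool) false ih
    (leA D (D.tP (Nat.xor κ (fu (Nat.add lo i)))) (Nat.add lo i) L)) m

theorem chB_spec {κ : ℕ} {L : List PE} {lo : ℕ} (m : ℕ) (h : chB D κ L lo m = true) :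
    ∀ y < lo + m, lo ≤ y → ∀ e ∈ L, leP D (D.tP (Nat.xor κ (fu y))) y e = true := by
  induction m with
  | zero => intro y hy hy'; omega
  | succ m ih =>
    have e : chB D κ L lo (m + 1) = @Bool.rec (fun _ => Bool) false (chB D κ L lo m)
        (leA D (D.tP (Nat.xor κ (fu (lo + m)))) (lo + m) L) := rfl
    rw [e] at h
    cases h1 : leA D (D.tP (Nat.xor κ (fu (lo + m)))) (lo + m) L with
    | false => rw [h1] at h; exact absurd (show false = true from h) Bool.false_ne_true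
    | true =>
      rw [h1] at h
      intro y hy hy'
      rcases Nat.lt_or_ge y (lo + m) with h2 | h2
      · exact ih h y h2 hy'
      · have h3 : y = lo + m := by omega
        rw [h3]
        exact leA_spec D h1

theorem chT_of_leP {κ c6 : ℕ} {e : PE} (h0 : e.y0 < 1024) (hc : Nat.xor κ (fu e.y0) = c6)
    (h : ∀ y < 1024, leP D (D.tP (Nat.xor κ (fu y))) y e = true) :
    ∀ x < 1024, chT D c6 e.tE e.tK e.tS x = true := by
  intro x hx
  have hy : x ^^^ e.y0 < 1024 := Nat.xor_lt_two_pow (n := 10) hx h0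
  have h1 := h (x ^^^ e.y0) hy
  unfold leP at h1
  unfold chT
  have e1 : Nat.xor (x ^^^ e.y0) e.y0 = x := by
    show (x ^^^ e.y0) ^^^ e.y0 = x
    rw [Nat.xor_assoc, Nat.xor_self, Nat.xor_zero]
  have e2 : Nat.xor κ (fu (x ^^^ e.y0)) = Nat.xor c6 (fu x) := by
    rw [← hc, fu_xor x e.y0 hx h0]
    show κ ^^^ (fu x ^^^ fu e.y0) = (κ ^^^ fu e.y0) ^^^ fu x
    rw [Nat.xor_assoc, Nat.xor_comm (fu x)]
  rw [e1, e2] at h1
  exact h1

end tabs

end Pool.Agent.Lib.MP_afdd4d_co.K8.Pt
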