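import Pool.Agent.Lib.MP_afdd4d_co.K8.PsiPot3

/-!
# The condition for the differences
-/

namespace Pool.Agent.Lib.MP_afdd4d_co.K8.Pt

open Finset

/-! ### The differences -/

theorem q6_inj : ∀ r < 15, ∀ r' < 15, q6 6 r = q6 6 r' → r = r' := by decide +kernel

theorem q6_surj : ∀ T : Finset (Fin 6), T.card = 4 → ∃ r < 15, q6 6 r = T := by decide +kernel

/-- The number of edges on six points. -/
def pop (J : ℕ) (e : ℕ → Bool) : ℕ := ∑ r ∈ range 15, (kbit J e r).toNat

theorem pop_le (J : ℕ) (e : ℕ → Bool) : pop J e ≤ 15 := by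
  unfold pop
  have h1 : ∑ i ∈ range 15, (kbit J e i).toNat ≤ ∑ _i ∈ range 15, 1 :=
    Finset.sum_le_sum fun i _ => Bool.toNat_le _
  rw [Finset.sum_const, Finset.card_range, smul_eq_mul, mul_one] at h1
  exact h1

/-- The array of the numbers of edges. -/
def popG (W J : ℕ) : ℕ → ℕ := @Nat.rec (fun _ => ℕ) 0 (fun r ih => Nat.add ih (b6G W J r))

theorem popG_ar {W : ℕ} (hW : 4 ≤ W) (J n : ℕ) (hn : n ≤ 15) : Ar W 10 (popG W J n) fun e =>
    ∑ r ∈ range n, (kbit J e r).toNat := by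
  induction n with
  | zero =>
    refine (ar_zero 10).congr fun b => ?_
    rw [Finset.sum_range_zero]
  | succ n ih =>
    have h : popG W J (n + 1) = popG W J n + b6G W J n := rfl
    rw [h]
    refine ((ih (by omega)).add (b6G_ar (by omega) J n (by omega)) (by omega) ?_).congr
      fun b => by rw [Finset.sum_range_succ]
    intro b
    have h1 : ∑ i ∈ range n, (kbit J b i).toNat ≤ ∑ _i ∈ range n, 1 :=
      Finset.sum_le_sum fun i _ => Bool.toNat_le _
    rw [Finset.sum_const, Finset.card_range, smul_eq_mul, mul_one] at h1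
    have h2 := Bool.toNat_le (kbit J b n)
    have h3 : 2 ^ 4 ≤ 2 ^ W := Nat.pow_le_pow_right (by norm_num) hW
    omega

theorem mem_JD_zb {n m : ℕ} (H E' : Finset (Finset (Fin n))) (t : Fin m → Fin n)
    (T : Finset (Fin m)) (hT : T.card = 4) :
    decide (T ∈ JD H E' t) = (zb H t T ^^ zb E' t T) := by
  rw [Bool.eq_iff_iff, decide_eq_true_iff, mem_JD]
  unfold zb
  cases E H t T <;> cases E E' t T <;> simp [hT]

/-- The number of edges of the difference on the six points of a view. -/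
theorem card_view {n : ℕ} {H E' E'' : Finset (Finset (Fin n))} {s : Fin 7 → Fin n} {c : ℕ}
    (hP : PsiSys.Pr H E' s) (hP' : PsiSys.Pr H E'' s) (hJ : JD H E'' s = jset c)
    (hy : ∀ v : Fin 7, Jv.yc6 c v = 0) (v : Fin 7) :
    (JD H E' (s ∘ Jv.vq v)).card = pop (Jv.jc6 c v) (kv v (xz (gc E' s) (gc H s))) := by
  have h1 : pop (Jv.jc6 c v) (kv v (xz (gc E' s) (gc H s))) =
      ∑ r ∈ range 15, if q6 6 r ∈ JD H E' (s ∘ Jv.vq v) then 1 else 0 := by
    unfold pop
    refine Finset.sum_congr rfl fun r hr => ?_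
    rw [Finset.mem_range] at hr
    rw [← view_bits hP hP' hJ hy v r hr, ← mem_JD_zb _ _ _ _ (q6_card r hr)]
    by_cases h : q6 6 r ∈ JD H E' (s ∘ Jv.vq v)
    · rw [if_pos h, decide_eq_true h]; rfl
    · rw [if_neg h, decide_eq_false h]; rfl
  rw [h1, ← Finset.card_filter]
  symm
  refine Finset.card_bij (fun r _ => q6 6 r) ?_ ?_ ?_
  · intro r hr
    exact (Finset.mem_filter.mp hr).2
  · intro i hi j hj hij
    rw [Finset.mem_filter, Finset.mem_range] at hi hj
    exact q6_inj i hi.1 j hj.1 hij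
  · intro T hT
    obtain ⟨r, hr, h⟩ := q6_surj T (JD_card4 H E' _ T hT)
    refine ⟨r, ?_, h⟩
    rw [Finset.mem_filter, Finset.mem_range, h]
    exact ⟨hr, hT⟩

theorem card_sum {n : ℕ} {H E' E'' : Finset (Finset (Fin n))} {s : Fin 7 → Fin n} {c : ℕ}
    (hP : PsiSys.Pr H E' s) (hP' : PsiSys.Pr H E'' s) (hJ : JD H E'' s = jset c)
    (hy : ∀ v : Fin 7, Jv.yc6 c v = 0) :
    ∑ v : Fin 7, pop (Jv.jc6 c v) (kv v (xz (gc E' s) (gc H s))) = 3 * (JD H E' s).card := by
  have h1 := DS_JD_card H E' (m := 6) (by norm_num) s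
  have h2 : DS (m := 6) (fun p : Fin 6 → Fin n => ((JD H E' p).card : ℤ)) s =
      ∑ v : Fin 7, ((JD H E' (s ∘ Jv.vq v)).card : ℤ) := by
    refine Jv.DS_vq (fun p : Fin 6 → Fin n => ((JD H E' p).card : ℤ)) ?_ s
    intro τ p
    rw [JD_card_eq, JD_card_eq, N8_permP]
  have h3 : DS (m := 6) (fun p : Fin 6 → Fin n => ((JD H E' p).card : ℤ)) s =
      ((DS (m := 6) (fun p : Fin 6 → Fin n => (JD H E' p).card) s : ℕ) : ℤ) := by
    unfold DS
    push_cast
    rfl
  rw [h3, h1] at h2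
  have h4 : ∑ v : Fin 7, (JD H E' (s ∘ Jv.vq v)).card = (6 - 3) * (JD H E' s).card := by
    exact_mod_cast h2.symm
  rw [← show (6 - 3) * (JD H E' s).card = 3 * (JD H E' s).card from rfl, ← h4]
  exact Finset.sum_congr rfl fun v _ => (card_view hP hP' hJ hy v).symm

/-- Whether bit `49` of a lane is set if bit `57` is set. -/
def impB (A : ℕ) : Bool :=
  Nat.beq (Nat.land (Nat.shiftRight A 8) (Nat.land A (csG 64 562949953421312 16)))
    (Nat.land (Nat.shiftRight A 8) (csG 64 562949953421312 16))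

theorem impB_spec {A : ℕ} {f : (ℕ → Bool) → ℕ} (hA : Ar 64 16 A f) (h : impB A = true)
    (b : ℕ → Bool) (h57 : (f b).testBit 57 = true) : (f b).testBit 49 = true := by
  have h1 : (A >>> 8) &&& (A &&& csG 64 562949953421312 16) =
    (A >>> 8) &&& csG 64 562949953421312 16 := Nat.eq_of_beq_eq_true h
  have hM := csG_ar (W := 64) (c := 562949953421312) (by norm_num) (by norm_num) 16
  have h2 : ((A >>> 8) &&& (A &&& csG 64 562949953421312 16)).testBit (64 * idx 16 b + 49) =
      ((A >>> 8) &&& csG 64 562949953421312 16).testBit (64 * idx 16 b + 49) := by rw [h1]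
  rw [Nat.testBit_and, Nat.testBit_and, Nat.testBit_and, Nat.testBit_shiftRight] at h2
  have h3 : (csG 64 562949953421312 16).testBit (64 * idx 16 b + 49) = true := by
    rw [← testBit_lane _ _ _ (by norm_num), hM.get]
    decide
  have h4 : A.testBit (8 + (64 * idx 16 b + 49)) = true := by
    have e : 8 + (64 * idx 16 b + 49) = 64 * idx 16 b + 57 := by ring
    rw [e, ← testBit_lane _ _ _ (by norm_num), hA.get]
    exact h57
  rw [h3, h4, Bool.true_and, Bool.and_true, Bool.and_true, ← testBit_lane _ _ _ (by norm_num),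
    hA.get] at h2
  exact h2

/-- The values and the numbers of edges. -/
def sP (t J : ℕ) : ℕ := Nat.add t (Nat.mul 1125899906842624 (popG 64 J 15))

/-- The check of the condition for the differences. -/
def chD (tS js : ℕ → ℕ) (C τ : ℕ) : Bool :=
  impB (Nat.add (Jv.Tabs.s7 fun v => Jv.vwG 64 τ v (sP (tS v) (js v))) (csG 64 C 16))

/-- The value and the number of edges. -/
def fP (t J : ℕ) (e : ℕ → Bool) : ℕ := fl 64 t e + 1125899906842624 * pop J e

theorem sP_ar (t J : ℕ) (h : TOK 64 (2 ^ 46 - 1) t) : Ar 64 10 (sP t J) (fP t J) := by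
  have e64 : (2 : ℕ) ^ 64 = 18446744073709551616 := by norm_num
  have e46 : (2 : ℕ) ^ 46 = 70368744177664 := by norm_num
  have h1 : Ar 64 10 (popG 64 J 15) (pop J) := popG_ar (W := 64) (by norm_num) J 15 le_rfl
  have h2 := h1.smul 1125899906842624 (by norm_num) (fun b => by
    have h5 := pop_le J b
    omega)
  exact h.ar.add h2 (by norm_num) (fun b => by
    have h5 := pop_le J b
    have h6 := h.le b
    omega)

theorem fP_le (t J : ℕ) (h : TOK 64 (2 ^ 46 - 1) t) (e : ℕ → Bool) :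
    fP t J e ≤ 16958867346817023 := by
  have e46 : (2 : ℕ) ^ 46 = 70368744177664 := by norm_num
  have h5 := pop_le J e
  have h6 := h.le e
  unfold fP
  omega

/-- The meaning of the two bits. -/
theorem two_bits (Sx K N : ℕ) (hS : Sx ≤ 7 * 70368744177663) (hK : K ≤ 562949953421312)
    (h1 : 128 ≤ N) (h2 : N < 256)
    (h : (Sx + (562949953421312 - K) + 1125899906842624 * N).testBit 57 = true →
      (Sx + (562949953421312 - K) + 1125899906842624 * N).testBit 49 = true) : K ≤ Sx := by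
  have e57 : (2 : ℕ) ^ 57 = 144115188075855872 := by norm_num
  have e49 : (2 : ℕ) ^ 49 = 562949953421312 := by norm_num
  rw [Nat.testBit_eq_decide_div_mod_eq, Nat.testBit_eq_decide_div_mod_eq, decide_eq_true_iff,
    decide_eq_true_iff, e57, e49] at h
  omega

theorem sum7_ar {τ : ℕ} (hτ : τ < 16) (tS js : ℕ → ℕ)
    (hS : ∀ v : Fin 7, TOK 64 (2 ^ 46 - 1) (tS v)) :
    Ar 64 16 (Jv.Tabs.s7 fun v => Jv.vwG 64 τ v (sP (tS v) (js v))) fun b =>
      ∑ v : Fin 7, fP (tS v) (js v) (kv v (mk20 τ b)) :=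
  Jv.Tabs.s7_ar (W := 64) (by norm_num)
    (fun v => Jv.vwG 64 τ v (sP (tS v) (js v)))
    (fun v b => fP (tS v) (js v) (kv v (mk20 τ b))) 16958867346817023
    (fun v => Jv.vwG_ar (by norm_num) hτ v (sP_ar _ _ (hS v))) (fun v b => fP_le _ _ (hS v) _)
    (by norm_num)

theorem R4_lane {τ : ℕ} (hτ : τ < 16) (tS js : ℕ → ℕ)
    (hS : ∀ v : Fin 7, TOK 64 (2 ^ 46 - 1) (tS v)) (C : ℕ) (hC : C < 288230376151711744)
    (hch : chD tS js C τ = true) (z : ℕ → Bool) (hz : τ = idx 4 fun i => z (16 + i)) :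
    ((∑ v : Fin 7, fP (tS v) (js v) (kv v z)) + C).testBit 57 = true →
    ((∑ v : Fin 7, fP (tS v) (js v) (kv v z)) + C).testBit 49 = true := by
  have e64 : (2 : ℕ) ^ 64 = 18446744073709551616 := by norm_num
  have h3 := (sum7_ar hτ tS js hS).add
    (csG_ar (W := 64) (c := C) (by norm_num) (by omega) 16) (by norm_num)
    (fun b => by
      have h5 := sum_le7 (fun v => fP (tS v) (js v) (kv v (mk20 τ b))) 16958867346817023
        fun v => fP_le _ _ (hS v) _
      omega)
  have h4 := impB_spec h3 hch z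
  have h5 : ∀ v : Fin 7, kv v (mk20 τ z) = kv v z := fun v => by
    rw [hz]
    exact kv_congr v _ _ (mk20_tau z)
  simp only [h5] at h4
  exact h4

theorem R4_of {c k0 K C : ℕ} (hy : ∀ v : Fin 7, Jv.yc6 c v = 0) {tS js : ℕ → ℕ}
    (hjs : ∀ v : Fin 7, js v = Jv.jc6 c v) {oS r4 : ℤ}
    (hS : ∀ v : Fin 7, TOK 64 (2 ^ 46 - 1) (tS v)) (hK : r4 + 7 * oS ≤ (K : ℤ))
    (hK49 : K ≤ 562949953421312) (hk0 : 3 * k0 ≤ 128)
    (hC : C = (562949953421312 - K) + 1125899906842624 * (128 - 3 * k0))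
    (hch : ∀ τ < 16, chD tS js C τ = true) :
    R4 c k0 (fun v b => (fl 64 (tS v) b : ℤ) - oS) r4 := by
  intro n H E' E'' s hP hP' hJ hk
  set z : ℕ → Bool := xz (gc E' s) (gc H s) with hz
  have hτ : (idx 4 fun i => z (16 + i)) < 16 := idx_lt 4 _
  have hCb : C < 288230376151711744 := by
    have : 1125899906842624 * (128 - 3 * k0) ≤ 1125899906842624 * 128 :=
      Nat.mul_le_mul_left _ (by omega)
    omega
  have h4 := R4_lane hτ tS js hS C hCb (hch _ hτ) z rfl
  have e46 : (2 : ℕ) ^ 46 = 70368744177664 := by norm_num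
  have hS49 := sum_le7 (fun v => fl 64 (tS v) (kv v z)) 70368744177663 fun v => by
    have := (hS v).le (kv v z)
    omega
  have hcs := card_sum hP hP' hJ hy
  rw [← hz] at hcs
  have hcard : 3 * (JD H E' s).card ≤ 105 := by
    rw [← hcs]
    exact sum_le7 _ 15 fun v => pop_le _ _
  have hval : (∑ v : Fin 7, fP (tS v) (js v) (kv v z)) + C = (∑ v : Fin 7, fl 64 (tS v) (kv v z)) + (562949953421312 - K) +
        1125899906842624 * (3 * (JD H E' s).card + (128 - 3 * k0)) := by
    have e1 : ∑ v : Fin 7, fP (tS v) (js v) (kv v z) =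
        ∑ v : Fin 7, fl 64 (tS v) (kv v z) +
          1125899906842624 * ∑ v : Fin 7, pop (Jv.jc6 c v) (kv v z) := by
      rw [Finset.mul_sum, ← Finset.sum_add_distrib]
      refine Finset.sum_congr rfl fun v _ => ?_
      unfold fP
      rw [hjs v]
    rw [e1, hcs, hC]
    generalize (562949953421312 - K) = a
    generalize (128 - 3 * k0) = b
    ring
  rw [hval] at h4
  have hSK := two_bits _ K _ hS49 hK49 (by omega) (by omega) h4
  have h11 : (K : ℤ) ≤ ((∑ v : Fin 7, fl 64 (tS v) (kv v z) : ℕ) : ℤ) := by exact_mod_cast hSK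
  have h12 : ∑ v : Fin 7, ((fl 64 (tS v) (kv v z) : ℤ) - oS) =
      ((∑ v : Fin 7, fl 64 (tS v) (kv v z) : ℕ) : ℤ) - 7 * oS := by
    rw [Finset.sum_sub_distrib, Finset.sum_const, Finset.card_univ, Fintype.card_fin,
      nsmul_eq_mul]
    push_cast
    ring
  rw [h12]
  linarith

end Pool.Agent.Lib.MP_afdd4d_co.K8.Pt
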