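import Pool.Agent.Lib.MP_afdd4d_co.K8.KFKern
import Pool.Agent.Lib.MP_afdd4d_co.K8.PtPrg

/-!
# Permutations of six points and the difference of a pair on a six-tuple

A permutation of six points is given by six octal digits.  The difference of a 4-graph and an even
4-graph on a six-tuple is a number with fifteen bits, the quadruples being in colex order.
-/

namespace Pool.Agent.Lib.MP_afdd4d_co.K8

open Finset

/-! ### Digits -/

/-- The octal digit. -/
def dgG (P t : ℕ) : ℕ := Nat.mod (Nat.shiftRight P (Nat.mul 3 t)) 8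

theorem dgG_eq (P t : ℕ) : dgG P t = Ln 3 P t := by
  rw [Ln_eq_shr]
  rfl

/-- The map of six points. -/
def dF (P : ℕ) (t : Fin 6) : Fin 6 := Fin.ofNat 6 (dgG P t)

theorem dF_val (P : ℕ) (t : Fin 6) (h : dgG P t < 6) : (dF P t : ℕ) = dgG P t := by
  unfold dF
  exact Nat.mod_eq_of_lt h

/-- The check of the digits: the digits `6, …, 11` are the inverse of the digits `0, …, 5`. -/
def okD (P : ℕ) : Bool :=
  allN (fun t => Nat.blt (dgG P t) 6 && (Nat.blt (dgG P (Nat.add 6 t)) 6 &&
    Nat.beq (dgG P (dgG P (Nat.add 6 t))) t)) 6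

theorem okD_spec {P : ℕ} (h : okD P = true) (t : ℕ) (ht : t < 6) :
    dgG P t < 6 ∧ dgG P (6 + t) < 6 ∧ dgG P (dgG P (6 + t)) = t := by
  have h1 := allN_spec _ _ h t ht
  simp only [Bool.and_eq_true] at h1
  exact ⟨(Nat.blt_eq).mp h1.1, (Nat.blt_eq).mp h1.2.1, Nat.eq_of_beq_eq_true h1.2.2⟩

/-- The inverse map. -/
def dI (P : ℕ) (t : Fin 6) : Fin 6 := Fin.ofNat 6 (dgG P (6 + t))

theorem dI_val {P : ℕ} (h : okD P = true) (t : Fin 6) : (dI P t : ℕ) = dgG P (6 + t) := by
  unfold dI
  exact Nat.mod_eq_of_lt (okD_spec h t t.isLt).2.1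

theorem dF_dI {P : ℕ} (h : okD P = true) (t : Fin 6) : dF P (dI P t) = t := by
  apply Fin.ext
  rw [dF_val P _ (okD_spec h _ (dI P t).isLt).1, dI_val h]
  exact (okD_spec h t t.isLt).2.2

theorem dF_inj {P : ℕ} (h : okD P = true) : Function.Injective (dF P) := by
  rw [Finite.injective_iff_surjective]
  exact fun t => ⟨dI P t, dF_dI h t⟩

/-- The number with given digits. -/
def mkD (f : ℕ → ℕ) (m : ℕ) : ℕ :=
  @Nat.rec (fun _ => ℕ) 0 (fun t ih => Nat.add ih (Nat.shiftLeft (f t) (Nat.mul 3 t))) m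

theorem mkD_succ (f : ℕ → ℕ) (m : ℕ) : mkD f (m + 1) = mkD f m + f m * 8 ^ m := by
  have e : mkD f (m + 1) = Nat.add (mkD f m) (Nat.shiftLeft (f m) (Nat.mul 3 m)) := rfl
  have e2 : Nat.shiftLeft (f m) (Nat.mul 3 m) = (f m) <<< (3 * m) := rfl
  rw [e, e2, Nat.shiftLeft_eq, pow_mul]
  rfl

theorem mkD_lt (f : ℕ → ℕ) (m : ℕ) (hf : ∀ t < m, f t < 8) : mkD f m < 8 ^ m := by
  induction m with
  | zero => exact Nat.one_pos
  | succ m ih =>
    rw [mkD_succ, pow_succ]
    have h1 := ih fun t ht => hf t (by omega)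
    have h2 := hf m (by omega)
    nlinarith [Nat.mul_le_mul_right (8 ^ m) (Nat.succ_le_of_lt h2)]

theorem dgG_div (P t : ℕ) : dgG P t = P / 8 ^ t % 8 := by
  have e : dgG P t = (P >>> (3 * t)) % 8 := rfl
  rw [e, Nat.shiftRight_eq_div_pow, pow_mul]
  norm_num

theorem dgG_mkD (f : ℕ → ℕ) (m : ℕ) (hf : ∀ t < m, f t < 8) (t : ℕ) (ht : t < m) :
    dgG (mkD f m) t = f t := by
  induction m with
  | zero => omega
  | succ m ih =>
    have h8 : 0 < 8 ^ t := Nat.pow_pos (by norm_num)
    rw [dgG_div, mkD_succ]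
    rcases Nat.lt_succ_iff_lt_or_eq.mp ht with h1 | h1
    · have h2 := ih (fun t ht => hf t (by omega)) h1
      rw [dgG_div] at h2
      obtain ⟨k, rfl⟩ : ∃ k, m = t + 1 + k := ⟨m - (t + 1), by omega⟩
      have e : f (t + 1 + k) * 8 ^ (t + 1 + k) = 8 ^ t * (8 * (f (t + 1 + k) * 8 ^ k)) := by ring
      rw [e, Nat.add_mul_div_left _ _ h8, Nat.add_mul_mod_self_left, h2]
    · subst h1
      have h3 := mkD_lt f t fun u hu => hf u (by omega)
      have h4 := hf t (by omega)
      rw [mul_comm (f t), Nat.add_mul_div_left _ _ h8, Nat.div_eq_of_lt h3, Nat.zero_add,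
        Nat.mod_eq_of_lt h4]

/-! ### Exchanges -/

/-- The exchanges of neighbouring points. -/
def e6 (i : Fin 5) : Equiv.Perm (Fin 6) := Equiv.swap i.castSucc i.succ

/-- The digits of the exchanges. -/
def exC : List ℕ := [181889, 181840, 181448, 178312, 153224]

theorem exC_eq : ∀ i : Fin 5, ∀ t : Fin 6, dgG (nthG 0 exC i) t = (e6 i t : ℕ) := by decide +kernel

/-- The action of the exchanges on the quadruples. -/
def p6L : List (List ℕ) := [
  [0, 1, 2, 4, 3, 5, 6, 8, 7, 9, 11, 10, 13, 12, 14],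
  [0, 1, 3, 2, 4, 5, 7, 6, 8, 10, 9, 11, 12, 14, 13],
  [0, 2, 1, 3, 4, 6, 5, 7, 8, 9, 12, 13, 10, 11, 14],
  [1, 0, 2, 3, 4, 5, 9, 10, 11, 6, 7, 8, 12, 13, 14],
  [0, 5, 6, 7, 8, 1, 2, 3, 4, 9, 10, 11, 12, 13, 14]]

/-- The image of the quadruple `r` under the exchange `i`. -/
def p6 (i r : ℕ) : ℕ := (p6L.getD i []).getD r 0

theorem p6_geo : ∀ i : Fin 5, ∀ r < 15, (q6 6 r).image (e6 i) = q6 6 (p6 i r) := by decide +kernel

theorem p6_lt : ∀ i < 5, ∀ r < 15, p6 i r < 15 := by decide +kernel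

/-- The image of a number with fifteen bits. -/
def mv6 (i J : ℕ) : ℕ := idx 15 fun r => J.testBit (p6 i r)

theorem mv6_lt (i J : ℕ) : mv6 i J < 2 ^ 15 := idx_lt 15 _

/-- The images of the parts of five bits. -/
def mvT : List (List ℕ) := [
  [0x1f001e001d001c001b001a00190018000f000e000d000c000b000a000900080017001600150014001300120011001000070006000500040003000200010000,
   0x3e003c003a0038002e002c002a002800360034003200300026002400220020001e001c001a0018000e000c000a0008001600140012001000060004000200000,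
   0x7c007400780070005c005400580050006c006400680060004c004400480040003c003400380030001c001400180010002c002400280020000c00040008000000],
  [0x1f001e001d001c0017001600150014001b001a001900180013001200110010000f000e000d000c0007000600050004000b000a000900080003000200010000,
   0x5e005c00560054005a005800520050004e004c00460044004a004800420040001e001c00160014001a001800120010000e000c00060004000a0008000200000,
   0x7a007800720070006a006800620060003a003800320030002a002800220020005a005800520050004a004800420040001a001800120010000a00080002000000],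
  [0x1f001e001b001a001d001c0019001800170016001300120015001400110010000f000e000b000a000d000c0009000800070006000300020005000400010000,
   0x3e003a003c00380036003200340030002e002a002c00280026002200240020001e001a001c00180016001200140010000e000a000c000800060002000400000,
   0x7c006c005c004c007800680058004800740064005400440070006000500040003c002c001c000c00380028001800080034002400140004003000200010000000],
  [0x1f001d001e001c001b0019001a001800170015001600140013001100120010000f000d000e000c000b0009000a000800070005000600040003000100020000,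
   0xe600e400c600c400a600a4008600840066006400460044002600240006000400e200e000c200c000a200a000820080006200600042004000220020000200000,
   0x71807100708070006180610060806000518051005080500041804100408040003180310030803000218021002080200011801100108010000180010000800000],
  [0x1e101e001c101c001a101a0018101800161016001410140012101200101010000e100e000c100c000a100a00081008000610060004100400021002000010000,
   0x21e021c021a02180216021402120210020e020c020a02080206020402020200001e001c001a00180016001400120010000e000c000a00080006000400020000,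
   0x7c007800740070006c006800640060005c005800540050004c004800440040003c003800340030002c002800240020001c001800140010000c00080004000000]]

/-- The image of a number with fifteen bits. -/
def mvG6 (i J : ℕ) : ℕ :=
  Nat.xor (Nat.xor (lnG 16 (nthG 0 (nthG [] mvT i) 0) (Nat.mod J 32))
    (lnG 16 (nthG 0 (nthG [] mvT i) 1) (Nat.mod (Nat.div J 32) 32)))
    (lnG 16 (nthG 0 (nthG [] mvT i) 2) (Nat.div J 1024))

theorem mvT_eq : ∀ i < 5, ∀ j < 3, ∀ v < 32, lnG 16 (nthG 0 (nthG [] mvT i) j) v < 2 ^ 15 ∧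
    ∀ r < 15, (lnG 16 (nthG 0 (nthG [] mvT i) j) v).testBit r =
      (decide (5 * j ≤ p6 i r ∧ p6 i r < 5 * j + 5) && v.testBit (p6 i r - 5 * j)) := by
  decide +kernel

theorem mvG6_eq (i J : ℕ) (hi : i < 5) (hJ : J < 2 ^ 15) : mvG6 i J = mv6 i J := by
  have h0 : J % 32 < 32 := Nat.mod_lt _ (by norm_num)
  have h1 : J / 32 % 32 < 32 := Nat.mod_lt _ (by norm_num)
  have h2 : J / 1024 < 32 := by omega
  obtain ⟨l0, b0⟩ := mvT_eq i hi 0 (by norm_num) _ h0
  obtain ⟨l1, b1⟩ := mvT_eq i hi 1 (by norm_num) _ h1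
  obtain ⟨l2, b2⟩ := mvT_eq i hi 2 (by norm_num) _ h2
  have e : mvG6 i J = (lnG 16 (nthG 0 (nthG [] mvT i) 0) (J % 32) ^^^
      lnG 16 (nthG 0 (nthG [] mvT i) 1) (J / 32 % 32)) ^^^
      lnG 16 (nthG 0 (nthG [] mvT i) 2) (J / 1024) := rfl
  rw [e]
  apply Nat.eq_of_testBit_eq
  intro r
  by_cases hr : r < 15
  · have hp := p6_lt i hi r hr
    have t0 : (J % 32).testBit (p6 i r) = (decide (p6 i r < 5) && J.testBit (p6 i r)) := by
      rw [show (32 : ℕ) = 2 ^ 5 from rfl, Nat.testBit_mod_two_pow]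
    have t1 : (J / 32 % 32).testBit (p6 i r - 5) =
        (decide (p6 i r - 5 < 5) && J.testBit (p6 i r - 5 + 5)) := by
      rw [show (32 : ℕ) = 2 ^ 5 from rfl, Nat.testBit_mod_two_pow, Nat.testBit_div_two_pow]
    have t2 : (J / 1024).testBit (p6 i r - 10) = J.testBit (p6 i r - 10 + 10) := by
      rw [show (1024 : ℕ) = 2 ^ 10 from rfl, Nat.testBit_div_two_pow]
    rw [Nat.testBit_xor, Nat.testBit_xor, b0 r hr, b1 r hr, b2 r hr, mv6, testBit_idx,
      decide_eq_true hr, Bool.true_and]
    simp only [Nat.mul_zero, Nat.sub_zero, Nat.zero_le, true_and, Nat.mul_one, Nat.zero_add]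
    rw [t0, t1, show 5 * 2 = 10 from rfl, t2]
    rcases (show p6 i r < 5 ∨ (5 ≤ p6 i r ∧ p6 i r < 10) ∨ (10 ≤ p6 i r ∧ p6 i r < 15) by omega) with
      h | h | h
    · have c1 : decide (p6 i r < 5) = true := decide_eq_true h
      have c2 : decide (5 ≤ p6 i r ∧ p6 i r < 5 + 5) = false := decide_eq_false (by omega)
      have c3 : decide (10 ≤ p6 i r ∧ p6 i r < 10 + 5) = false := decide_eq_false (by omega)
      rw [c1, c2, c3]
      simp
    · have c1 : decide (p6 i r < 5) = false := decide_eq_false (by omega)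
      have c2 : decide (5 ≤ p6 i r ∧ p6 i r < 5 + 5) = true := decide_eq_true (by omega)
      have c3 : decide (10 ≤ p6 i r ∧ p6 i r < 10 + 5) = false := decide_eq_false (by omega)
      have c4 : decide (p6 i r - 5 < 5) = true := decide_eq_true (by omega)
      have c5 : p6 i r - 5 + 5 = p6 i r := by omega
      rw [c1, c2, c3, c4, c5]
      simp
    · have c1 : decide (p6 i r < 5) = false := decide_eq_false (by omega)
      have c2 : decide (5 ≤ p6 i r ∧ p6 i r < 5 + 5) = false := decide_eq_false (by omega)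
      have c3 : decide (10 ≤ p6 i r ∧ p6 i r < 10 + 5) = true := decide_eq_true (by omega)
      have c5 : p6 i r - 10 + 10 = p6 i r := by omega
      rw [c1, c2, c3, c5]
      simp
  · rw [Nat.testBit_lt_two_pow (lt_of_lt_of_le (Nat.xor_lt_two_pow (Nat.xor_lt_two_pow l0 l1) l2)
      (Nat.pow_le_pow_right (by norm_num) (not_lt.mp hr))),
      Nat.testBit_lt_two_pow (lt_of_lt_of_le (mv6_lt i J)
      (Nat.pow_le_pow_right (by norm_num) (not_lt.mp hr)))]

/-! ### The difference -/

section tup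
variable {n : ℕ} (H E' : Finset (Finset (Fin n)))

/-- The difference of a pair on a six-tuple. -/
def j6 (p : Fin 6 → Fin n) : ℕ := idx 15 fun r => zb H p (q6 6 r) ^^ zb E' p (q6 6 r)

theorem j6_lt (p : Fin 6 → Fin n) : j6 H E' p < 2 ^ 15 := idx_lt 15 _

theorem j6_ex (p : Fin 6 → Fin n) (i : Fin 5) : j6 H E' (p ∘ e6 i) = mv6 i (j6 H E' p) := by
  unfold j6 mv6
  apply idx_congr
  intro r hr
  have h1 := p6_lt i i.isLt r hr
  rw [testBit_idx, decide_eq_true h1, Bool.true_and, zb_comp, zb_comp, p6_geo i r hr]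

theorem j6_eq (p : Fin 6 → Fin n) (J : ℕ) (hJ : J < 2 ^ 15)
    (h : ∀ r < 15, (zb H p (q6 6 r) ^^ zb E' p (q6 6 r)) = J.testBit r) : j6 H E' p = J := by
  unfold j6
  rw [idx_congr 15 _ J.testBit h, idx_testBit 15 J hJ]

end tup

/-! ### Forms of the bits of permuted tuples -/

/-- The digits of the quadruples of the code. -/
def qdC : ℕ := 0xb180b100b080ad00ac80a8808d008c808880688

theorem qdC_eq : ∀ r < 10, ∀ y : Fin 6, y ∈ qd 6 r ↔ ∃ j < 4, dgG (lnG 16 qdC r) j = y := by
  decide +kernel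

theorem qdC_lt : ∀ r < 10, ∀ j < 4, dgG (lnG 16 qdC r) j < 6 := by decide +kernel

/-- The set of points given by a number. -/
def ofM (m : ℕ) : Finset (Fin 6) := univ.filter fun x => m.testBit x = true

/-- The forms of the sets of points. -/
def fmC : ℕ := 0x7fe07fe0690069005480548040004000324032402000200010001000000000000e200e200800080004000400000000000200020000000000000000000000000001e001e001000100008000800000000000400040000000000000000000000000002000200000000000000000000000000000000000000000000000000000000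

theorem fmC_eq : ∀ m < 64, Og.exF6 (ofM m) = lnG 16 fmC m := by decide +kernel

/-- The image of a quadruple of the code as a number. -/
def mkM (P r : ℕ) : ℕ :=
  Nat.lor (Nat.lor (Nat.shiftLeft 1 (dgG P (dgG (lnG 16 qdC r) 0)))
    (Nat.shiftLeft 1 (dgG P (dgG (lnG 16 qdC r) 1))))
    (Nat.lor (Nat.shiftLeft 1 (dgG P (dgG (lnG 16 qdC r) 2)))
    (Nat.shiftLeft 1 (dgG P (dgG (lnG 16 qdC r) 3))))

theorem testBit_mkM (P r x : ℕ) : (mkM P r).testBit x = true ↔
    ∃ j < 4, dgG P (dgG (lnG 16 qdC r) j) = x := by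
  have e : mkM P r = ((1 <<< dgG P (dgG (lnG 16 qdC r) 0)) ||| (1 <<< dgG P (dgG (lnG 16 qdC r) 1))) |||
      ((1 <<< dgG P (dgG (lnG 16 qdC r) 2)) ||| (1 <<< dgG P (dgG (lnG 16 qdC r) 3))) := rfl
  rw [e]
  simp only [Nat.testBit_or, Nat.one_shiftLeft, Nat.testBit_two_pow, Bool.or_eq_true,
    decide_eq_true_eq]
  constructor
  · rintro ((h | h) | (h | h))
    · exact ⟨0, by norm_num, h⟩
    · exact ⟨1, by norm_num, h⟩
    · exact ⟨2, by norm_num, h⟩
    · exact ⟨3, by norm_num, h⟩
  · rintro ⟨j, hj, h⟩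
    interval_cases j
    · exact Or.inl (Or.inl h)
    · exact Or.inl (Or.inr h)
    · exact Or.inr (Or.inl h)
    · exact Or.inr (Or.inr h)

theorem mkM_lt {P : ℕ} (h : okD P = true) (r : ℕ) (hr : r < 10) : mkM P r < 64 := by
  have e : mkM P r = ((1 <<< dgG P (dgG (lnG 16 qdC r) 0)) ||| (1 <<< dgG P (dgG (lnG 16 qdC r) 1))) |||
      ((1 <<< dgG P (dgG (lnG 16 qdC r) 2)) ||| (1 <<< dgG P (dgG (lnG 16 qdC r) 3))) := rfl
  have h1 : ∀ j < 4, (1 <<< dgG P (dgG (lnG 16 qdC r) j)) < 2 ^ 6 := by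
    intro j hj
    rw [Nat.one_shiftLeft]
    exact Nat.pow_lt_pow_right (by norm_num) (okD_spec h _ (qdC_lt r hr j hj)).1
  rw [e, show (64 : ℕ) = 2 ^ 6 from rfl]
  exact Nat.or_lt_two_pow (Nat.or_lt_two_pow (h1 0 (by norm_num)) (h1 1 (by norm_num)))
    (Nat.or_lt_two_pow (h1 2 (by norm_num)) (h1 3 (by norm_num)))

theorem ofM_mkM {P : ℕ} (h : okD P = true) (r : ℕ) (hr : r < 10) :
    ofM (mkM P r) = (qd 6 r).image (dF P) := by
  ext x
  unfold ofM
  rw [Finset.mem_filter, testBit_mkM, Finset.mem_image]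
  constructor
  · rintro ⟨_, j, hj, hx⟩
    have h1 := qdC_lt r hr j hj
    refine ⟨⟨dgG (lnG 16 qdC r) j, h1⟩, (qdC_eq r hr _).mpr ⟨j, hj, rfl⟩, ?_⟩
    apply Fin.ext
    rw [dF_val P _ (okD_spec h _ h1).1]
    exact hx
  · rintro ⟨y, hy, hx⟩
    obtain ⟨j, hj, h2⟩ := (qdC_eq r hr y).mp hy
    refine ⟨Finset.mem_univ _, j, hj, ?_⟩
    rw [h2, ← hx, dF_val P _ (okD_spec h _ y.isLt).1]

/-- The check of a permutation and its program. -/
def okP (W P : ℕ) (l : List PI) : Bool :=
  okD P && (okL W l && allN (fun r => Nat.beq (syP l r) (lnG 16 fmC (mkM P r))) 10)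

/-- The bits of the code of a permuted tuple. -/
theorem gc_dF {W P : ℕ} {l : List PI} (h : okP W P l = true) {n : ℕ}
    (E' : Finset (Finset (Fin n))) (p : Fin 6 → Fin n) (hev : EvT E' p) (r : ℕ) (hr : r < 10) :
    gc E' (p ∘ dF P) r = seL l (gc E' p) r := by
  unfold okP at h
  simp only [Bool.and_eq_true] at h
  obtain ⟨h1, h2, h4⟩ := h
  have h5 := Nat.eq_of_beq_eq_true (allN_spec _ _ h4 r hr)
  rw [seL_eq W _ _ h2 r hr, h5, ← fmC_eq _ (mkM_lt h1 r hr), ofM_mkM h1 r hr]
  apply Og.gc6_comp E' p hev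
  rw [Finset.card_image_of_injective _ (dF_inj h1)]
  exact (Og.qd6_data r hr).1

end Pool.Agent.Lib.MP_afdd4d_co.K8
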