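import Pool.Agent.Lib.MP_afdd4d_co.K8.PtPrm
import Pool.Agent.Lib.MP_afdd4d_co.K8.View2

/-!
# Functions of pairs on six-tuples

Such a function is given by one array of `2 ^ 10` lanes for every class of differences.
-/

namespace Pool.Agent.Lib.MP_afdd4d_co.K8

open Finset

/-- Whether `a` is an entry of the list, up to the high digits. -/
def memG (a : ℕ) (l : List ℕ) : Bool :=
  @List.rec ℕ (fun _ => Bool) false
    (fun x _ ih => @Bool.rec (fun _ => Bool) ih true (Nat.beq (Nat.mod x 262144) a)) l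

theorem memG_spec {a : ℕ} {l : List ℕ} (h : memG a l = true) : ∃ x ∈ l, x % 262144 = a := by
  induction l with
  | nil =>
    have e : memG a [] = false := rfl
    rw [e] at h
    exact absurd h (by decide)
  | cons x l ih =>
    have e : memG a (x :: l) =
        @Bool.rec (fun _ => Bool) (memG a l) true (Nat.beq (Nat.mod x 262144) a) := rfl
    rw [e] at h
    cases hb : Nat.beq (Nat.mod x 262144) a
    · rw [hb] at h
      obtain ⟨y, hy, h2⟩ := ih h
      exact ⟨y, List.mem_cons_of_mem _ hy, h2⟩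
    · exact ⟨x, List.mem_cons_self, Nat.eq_of_beq_eq_true hb⟩

/-- A check of all entries of a list. -/
def allLp (chk : ℕ → Bool) (l : List ℕ) : Bool :=
  @List.rec ℕ (fun _ => Bool) true (fun x _ ih => @Bool.rec (fun _ => Bool) false ih (chk x)) l

theorem allLp_spec {chk : ℕ → Bool} {l : List ℕ} (h : allLp chk l = true) : ∀ x ∈ l, chk x = true := by
  induction l with
  | nil => intro x hx; exact absurd hx (List.not_mem_nil)
  | cons y l ih =>
    have e : allLp chk (y :: l) = @Bool.rec (fun _ => Bool) false (allLp chk l) (chk y) := rfl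
    rw [e] at h
    cases hb : chk y
    · rw [hb] at h
      have e2 : @Bool.rec (fun _ => Bool) false (allLp chk l) false = false := rfl
      rw [e2] at h
      exact absurd h (by decide)
    · rw [hb] at h
      intro x hx
      rcases List.mem_cons.mp hx with h1 | h1
      · rw [h1, hb]
      · exact ih h x h1

theorem dgG_mod (P t : ℕ) (ht : t < 6) : dgG (P % 262144) t = dgG P t := by
  rw [dgG_eq, dgG_eq, show (262144 : ℕ) = 2 ^ (3 * 6) by norm_num, Ln_mod, if_pos ht]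

theorem dF_mod (P : ℕ) : dF (P % 262144) = dF P := by
  funext t
  unfold dF
  rw [dgG_mod P t t.isLt]

/-- The classes of the differences. -/
structure PG where
  /-- the width of the lanes -/
  w : ℕ
  /-- entries with 32 bits: number of the permutation and, from bit 10, the class -/
  jt : List (List ℕ)
  /-- the permutations: six digits and the six digits of the inverse -/
  pt : List ℕ
  /-- the programs of the permutations -/
  pr : List (List (List (List PI)))
  /-- the automorphisms of the classes: six digits and, from bit 18, the number of the permutation -/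
  al : List (List (List ℕ))

namespace PG
variable (G : PG)

def je (J : ℕ) : ℕ :=
  lnG 32 (nthG 0 (nthG [] G.jt (Nat.div J 4096)) (Nat.mod (Nat.div J 256) 16)) (Nat.mod J 256)

/-- The number of the permutation. -/
def kq (J : ℕ) : ℕ := Nat.mod (G.je J) 1024

/-- The class. -/
def cl (J : ℕ) : ℕ := Nat.div (G.je J) 1024

def dg (k : ℕ) : ℕ := lnG 64 (nthG 0 G.pt (Nat.div k 90)) (Nat.mod k 90)

def pg (k : ℕ) : List PI :=
  nthG [] (nthG [] (nthG [] G.pr (Nat.div k 81)) (Nat.mod (Nat.div k 9) 9)) (Nat.mod k 9)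

def lk (c : ℕ) : List ℕ := nthG [] (nthG [] G.al (Nat.div c 13)) (Nat.mod c 13)

/-- The check of the permutation `k`. -/
def okK (k : ℕ) : Bool := okP G.w (G.dg k) (G.pg k)

/-- The automorphism of a link. -/
def cmp (i k k' : ℕ) : ℕ :=
  mkD (fun t => dgG (G.dg k) (Nat.add 6 (dgG (nthG 0 exC i) (dgG (G.dg k') t)))) 6

/-- The check of a link. -/
def ckG (i J : ℕ) : Bool :=
  @Bool.rec (fun _ => Bool)
    (Nat.beq (G.cl J) (G.cl (mvG6 i J)) &&
      memG (G.cmp i (G.kq J) (G.kq (mvG6 i J))) (G.lk (G.cl J)))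
    true (Nat.blt (mvG6 i J) J)

/-- The check of a difference. -/
def ckJ (J : ℕ) : Bool :=
  Nat.blt (G.kq J) 720 && (Nat.blt (G.cl J) 156 && allN (fun i => G.ckG i J) 5)

/-- The conditions. -/
structure OK : Prop where
  k : ∀ k < 720, G.okK k = true
  j : ∀ J < 2 ^ 15, G.ckJ J = true

variable {G}

theorem kq_lt (h : G.OK) {J : ℕ} (hJ : J < 2 ^ 15) : G.kq J < 720 := by
  have h1 := h.j J hJ
  unfold ckJ at h1
  rw [Bool.and_eq_true] at h1
  exact (Nat.blt_eq).mp h1.1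

theorem cl_lt (h : G.OK) {J : ℕ} (hJ : J < 2 ^ 15) : G.cl J < 156 := by
  have h1 := h.j J hJ
  unfold ckJ at h1
  rw [Bool.and_eq_true, Bool.and_eq_true] at h1
  exact (Nat.blt_eq).mp h1.2.1

theorem ck_lt (h : G.OK) {J i : ℕ} (hJ : J < 2 ^ 15) (hi : i < 5) (hlt : ¬ mv6 i J < J) :
    G.cl J = G.cl (mv6 i J) ∧ ∃ x ∈ G.lk (G.cl J), x % 262144 = G.cmp i (G.kq J) (G.kq (mv6 i J)) := by
  have h1 := h.j J hJ
  unfold ckJ at h1
  rw [Bool.and_eq_true, Bool.and_eq_true] at h1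
  have h2 := allN_spec _ _ h1.2.2 i hi
  unfold ckG at h2
  rw [mvG6_eq i J hi hJ] at h2
  have h3 : Nat.blt (mv6 i J) J = false := by
    rw [Bool.eq_false_iff]
    intro h4
    exact hlt ((Nat.blt_eq).mp h4)
  rw [h3] at h2
  have h4 : (Nat.beq (G.cl J) (G.cl (mv6 i J)) &&
      memG (G.cmp i (G.kq J) (G.kq (mv6 i J))) (G.lk (G.cl J))) = true := h2
  rw [Bool.and_eq_true] at h4
  exact ⟨Nat.eq_of_beq_eq_true h4.1, memG_spec h4.2⟩

theorem okD_of (h : G.OK) {k : ℕ} (hk : k < 720) : okD (G.dg k) = true := by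
  have h1 := h.k k hk
  unfold okK okP at h1
  rw [Bool.and_eq_true] at h1
  exact h1.1

/-- The composition of the maps of a link. -/
theorem cmp_comp (h : G.OK) (i : Fin 5) {k k' : ℕ} (hk : k < 720) (hk' : k' < 720) (t : Fin 6) :
    dF (G.dg k) (dF (G.cmp i k k') t) = e6 i (dF (G.dg k') t) := by
  have hD := okD_of h hk
  have hD' := okD_of h hk'
  have h1 : (dF (G.dg k') t : ℕ) = dgG (G.dg k') t := dF_val _ _ (okD_spec hD' t t.isLt).1
  have h2 : dgG (nthG 0 exC i) (dgG (G.dg k') t) = (e6 i (dF (G.dg k') t) : ℕ) := by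
    rw [← h1, exC_eq]
  have h3 : dgG (G.cmp i k k') t = dgG (G.dg k) (6 + (e6 i (dF (G.dg k') t) : ℕ)) := by
    unfold cmp
    rw [dgG_mkD _ 6 (fun u _ => ?_) t t.isLt]
    · show dgG (G.dg k) (6 + dgG (nthG 0 exC i) (dgG (G.dg k') t)) = _
      rw [h2]
    · exact Nat.mod_lt _ (by norm_num)
  have h4 : dF (G.cmp i k k') t = dI (G.dg k) (e6 i (dF (G.dg k') t)) := by
    apply Fin.ext
    rw [dI_val hD, dF_val _ _ (by rw [h3]; exact (okD_spec hD _ (Fin.isLt _)).2.1), h3]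
  rw [h4, dF_dI hD]

end PG

/-- The tables of a function of pairs. -/
structure PT where
  G : PG
  OP : ℕ
  tb : List (List ℕ)

namespace PT
variable (D : PT)

/-- The width of the lanes. -/
def w : ℕ := D.G.w

/-- The table of a class. -/
def T (c : ℕ) : ℕ := nthG 0 (nthG [] D.tb (Nat.div c 13)) (Nat.mod c 13)

/-- The check of an automorphism. -/
def okX (c x : ℕ) : Bool :=
  Nat.blt (Nat.div x 262144) 720 &&
    (Nat.beq (Nat.mod (D.G.dg (Nat.div x 262144)) 262144) (Nat.mod x 262144) &&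
      Nat.beq (rpGp (D.G.pg (Nat.div x 262144)) (D.T c)) (D.T c))

/-- The check of a class. -/
def okT (c : ℕ) : Bool :=
  Nat.beq (Nat.shiftRight (D.T c) (Nat.mul D.w 1024)) 0 &&
    (Nat.beq (Nat.land (D.T c) (csG D.w (Nat.pow 2 (Nat.sub D.w 1)) 10)) 0 &&
      (leG D.w 10 (Nat.mul 2 D.OP) (D.T c) && allLp (D.okX c) (D.G.lk c)))

/-- The conditions. -/
structure OK : Prop where
  g : D.G.OK
  w1 : 1 < D.w
  op : 2 * D.OP < 2 ^ (D.w - 1)
  t : ∀ c < 156, D.okT c = true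

/-- The value of the table. -/
def f (c : ℕ) (b : ℕ → Bool) : ℕ := Ln D.w (D.T c) (idx 10 b)

variable {D}

theorem w0 (h : D.OK) : 0 < D.w := by have := h.w1; omega

theorem T_ar (h : D.OK) {c : ℕ} (hc : c < 156) : Ar D.w 10 (D.T c) (D.f c) := by
  have h1 := h.t c hc
  unfold okT at h1
  rw [Bool.and_eq_true] at h1
  have h2 : (D.T c) >>> (D.w * 1024) = 0 := Nat.eq_of_beq_eq_true h1.1
  refine ⟨?_, fun b => rfl⟩
  rw [Nat.shiftRight_eq_div_pow, Nat.div_eq_zero_iff] at h2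
  rcases h2 with h3 | h3
  · exact absurd h3 (Nat.two_pow_pos _).ne'
  · exact h3

theorem f_le (h : D.OK) {c : ℕ} (hc : c < 156) (b : ℕ → Bool) : D.f c b ≤ 2 * D.OP := by
  have h1 := h.t c hc
  unfold okT at h1
  rw [Bool.and_eq_true, Bool.and_eq_true, Bool.and_eq_true] at h1
  obtain ⟨_, h2, h3, _⟩ := h1
  have hA := T_ar h hc
  have hlt : ∀ b, D.f c b < 2 ^ (D.w - 1) := by
    intro b
    have h4 : (D.T c) &&& (csG D.w (2 ^ (D.w - 1)) 10) = 0 := Nat.eq_of_beq_eq_true h2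
    have h5 : Ar D.w 10 (csG D.w (2 ^ (D.w - 1)) 10) fun _ => 2 ^ (D.w - 1) :=
      csG_ar (w0 h) (Nat.pow_lt_pow_right (by norm_num) (by have := w0 h; omega)) 10
    have h6 : Ln D.w ((D.T c) &&& (csG D.w (2 ^ (D.w - 1)) 10)) (idx 10 b) = 0 := by
      rw [h4, Ln_zero_left]
    rw [Ln_and, h5.get, and_two_pow] at h6
    have h7 : (Ln D.w (D.T c) (idx 10 b)).testBit (D.w - 1) = false := by
      by_contra h8
      rw [Bool.not_eq_false] at h8
      rw [if_pos h8] at h6
      exact absurd h6 (Nat.two_pow_pos _).ne'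
    have h8 : D.f c b < 2 ^ D.w := Ln_lt _ _ _
    have h9 : 2 ^ D.w = 2 ^ (D.w - 1) * 2 := by
      rw [← pow_succ]
      congr 1
      have := w0 h
      omega
    have h10 : (D.f c b).testBit (D.w - 1) = decide (D.f c b / 2 ^ (D.w - 1) % 2 = 1) := by
      rw [Nat.testBit_eq_decide_div_mod_eq]
    have h11 : D.f c b / 2 ^ (D.w - 1) < 2 := by
      rw [Nat.div_lt_iff_lt_mul (Nat.two_pow_pos _), mul_comm]
      omega
    have h12 : (D.f c b).testBit (D.w - 1) = false := h7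
    rw [h10, decide_eq_false_iff_not] at h12
    have h13 : D.f c b / 2 ^ (D.w - 1) = 0 := by
      generalize D.f c b / 2 ^ (D.w - 1) = y at h11 h12
      omega
    rw [Nat.div_eq_zero_iff] at h13
    rcases h13 with h14 | h14
    · exact absurd h14 (Nat.two_pow_pos _).ne'
    · exact h14
  exact leG_le h.w1 hA h.op hlt h3 b

/-- The invariance under the automorphisms. -/
theorem f_lk (h : D.OK) {c : ℕ} (hc : c < 156) {x : ℕ} (hx : x ∈ D.G.lk c) {n : ℕ}
    (E' : Finset (Finset (Fin n))) (q : Fin 6 → Fin n) (hev : EvT E' q) :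
    D.f c (gc E' (q ∘ dF (x % 262144))) = D.f c (gc E' q) := by
  have h1 := h.t c hc
  unfold okT at h1
  rw [Bool.and_eq_true, Bool.and_eq_true, Bool.and_eq_true] at h1
  have h2 := allLp_spec h1.2.2.2 x hx
  unfold okX at h2
  rw [Bool.and_eq_true, Bool.and_eq_true] at h2
  obtain ⟨h3, h4, h5⟩ := h2
  set k := Nat.div x 262144 with hk
  have h3' : k < 720 := (Nat.blt_eq).mp h3
  have h4' : D.G.dg k % 262144 = x % 262144 := Nat.eq_of_beq_eq_true h4
  have h5' := Nat.eq_of_beq_eq_true h5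
  have hP := h.g.k k h3'
  unfold PG.okK at hP
  have hl : okL D.w (D.G.pg k) = true := by
    unfold okP at hP
    rw [Bool.and_eq_true, Bool.and_eq_true] at hP
    exact hP.2.1
  have h6 := rpGp_ar (w0 h) (D.G.pg k) (D.T c) (D.f c) hl (T_ar h hc)
  rw [h5'] at h6
  have h7 := (T_ar h hc).get (gc E' q)
  rw [h6.get] at h7
  rw [← h7, ← h4', dF_mod]
  exact (T_ar h hc).dep _ _ fun r hr => gc_dF hP E' q hev r hr

variable (D)

/-- The function of pairs. -/
def psi {n : ℕ} (H E' : Finset (Finset (Fin n))) (p : Fin 6 → Fin n) : ℤ :=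
  if EvT E' p then (D.f (D.G.cl (j6 H E' p))
    (gc E' (p ∘ dF (D.G.dg (D.G.kq (j6 H E' p))))) : ℤ) - D.OP else 0

variable {D}

theorem psi_ex1 (h : D.OK) {n : ℕ} (H E' : Finset (Finset (Fin n))) (p : Fin 6 → Fin n) (i : Fin 5)
    (hlt : ¬ mv6 i (j6 H E' p) < j6 H E' p) : D.psi H E' (p ∘ e6 i) = D.psi H E' p := by
  unfold psi
  by_cases hev : EvT E' p
  · have hev' : EvT E' (p ∘ e6 i) := (evT_perm E' p (e6 i)).mpr hev
    rw [if_pos hev, if_pos hev']
    have hJ := j6_lt H E' p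
    have hJ' := j6_lt H E' (p ∘ e6 i)
    have hk := PG.kq_lt h.g hJ
    have hk' := PG.kq_lt h.g hJ'
    obtain ⟨h1, x, hx, h2⟩ := PG.ck_lt h.g hJ i.isLt hlt
    rw [← j6_ex] at h1 h2
    have e : (p ∘ e6 i) ∘ dF (D.G.dg (D.G.kq (j6 H E' (p ∘ e6 i)))) =
        (p ∘ dF (D.G.dg (D.G.kq (j6 H E' p)))) ∘ dF (x % 262144) := by
      funext t
      rw [h2]
      simp only [Function.comp_apply]
      rw [PG.cmp_comp h.g i hk hk' t]
    rw [e, ← h1]
    have hq : EvT E' (p ∘ dF (D.G.dg (D.G.kq (j6 H E' p)))) :=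
      evT_comp E' p _ (dF_inj (PG.okD_of h.g hk)) hev
    rw [f_lk h (PG.cl_lt h.g hJ) hx E' _ hq]
  · have hev' : ¬ EvT E' (p ∘ e6 i) := fun h1 => hev ((evT_perm E' p (e6 i)).mp h1)
    rw [if_neg hev, if_neg hev']

theorem psi_ex (h : D.OK) {n : ℕ} (H E' : Finset (Finset (Fin n))) (p : Fin 6 → Fin n) (i : Fin 5) :
    D.psi H E' (p ∘ e6 i) = D.psi H E' p := by
  by_cases hlt : mv6 i (j6 H E' p) < j6 H E' p
  · have e : (p ∘ e6 i) ∘ e6 i = p := by
      funext t
      simp [e6]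
    have h1 : ¬ mv6 i (j6 H E' (p ∘ e6 i)) < j6 H E' (p ∘ e6 i) := by
      rw [← j6_ex, e, j6_ex]
      omega
    have h2 := psi_ex1 h H E' (p ∘ e6 i) i h1
    rw [e] at h2
    exact h2.symm
  · exact psi_ex1 h H E' p i hlt

/-- The function is symmetric. -/
theorem psi_perm (h : D.OK) {n : ℕ} (H E' : Finset (Finset (Fin n))) (τ : Equiv.Perm (Fin 6)) :
    ∀ p : Fin 6 → Fin n, D.psi H E' (p ∘ τ) = D.psi H E' p := by
  have h1 : τ ∈ Submonoid.closure (Set.range fun i : Fin 5 => Equiv.swap i.castSucc i.succ) := by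
    rw [Equiv.Perm.mclosure_swap_castSucc_succ]
    exact Submonoid.mem_top _
  induction h1 using Submonoid.closure_induction with
  | mem x hx =>
    obtain ⟨i, rfl⟩ := hx
    intro p
    exact psi_ex h H E' p i
  | one =>
    intro p
    rfl
  | mul x y _ _ hx hy =>
    intro p
    have e : p ∘ (x * y) = (p ∘ x) ∘ y := rfl
    rw [e, hy, hx]

variable (D)

/-- The array of a difference. -/
def tP (J : ℕ) : ℕ := rpGp (D.G.pg (D.G.kq J)) (D.T (D.G.cl J))

/-- The value of the array of a difference. -/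
def fP (J : ℕ) (b : ℕ → Bool) : ℕ := D.f (D.G.cl J) (seL (D.G.pg (D.G.kq J)) b)

variable {D}

theorem tP_ar (h : D.OK) (J : ℕ) (hJ : J < 2 ^ 15) : Ar D.w 10 (D.tP J) (D.fP J) := by
  have hP := h.g.k _ (PG.kq_lt h.g hJ)
  unfold PG.okK okP at hP
  rw [Bool.and_eq_true, Bool.and_eq_true] at hP
  exact rpGp_ar (w0 h) (D.G.pg (D.G.kq J)) (D.T (D.G.cl J)) (D.f (D.G.cl J)) hP.2.1
    (T_ar h (PG.cl_lt h.g hJ))

theorem fP_le (h : D.OK) (J : ℕ) (hJ : J < 2 ^ 15) (b : ℕ → Bool) : D.fP J b ≤ 2 * D.OP :=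
  f_le h (PG.cl_lt h.g hJ) _

theorem psi_eq (h : D.OK) {n : ℕ} (H E' : Finset (Finset (Fin n))) (p : Fin 6 → Fin n) (J : ℕ)
    (hJ : J < 2 ^ 15) (hev : EvT E' p)
    (hd : ∀ r < 15, (zb H p (q6 6 r) ^^ zb E' p (q6 6 r)) = J.testBit r) :
    D.psi H E' p = (D.fP J (gc E' p) : ℤ) - D.OP := by
  unfold psi fP
  rw [if_pos hev, j6_eq H E' p J hJ hd]
  have hk := PG.kq_lt h.g hJ
  have hP := h.g.k _ hk
  unfold PG.okK at hP
  have e : D.f (D.G.cl J) (gc E' (p ∘ dF (D.G.dg (D.G.kq J)))) =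
      D.f (D.G.cl J) (seL (D.G.pg (D.G.kq J)) (gc E' p)) :=
    (T_ar h (PG.cl_lt h.g hJ)).dep _ _ fun r hr => gc_dF hP E' p hev r hr
  rw [e]

end PT

end Pool.Agent.Lib.MP_afdd4d_co.K8
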