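import Pool.Agent.Lib.MP_afdd4d_co.K8.RSkel
import Pool.Agent.Lib.MP_afdd4d_co.K8.Code

/-!
# Codes of rooted tuples, and the bound from a certificate in terms of codes
-/

namespace Pool.Agent.Lib.MP_afdd4d_co.K8

open Finset

section defs
variable {n : ℕ} (H : Finset (Finset (Fin n)))

/-- The code of the link of `r` on six vertices: bit `k` says whether the root and the `k`-th triple
of the six vertices form an edge. -/
def cL (r : Fin n) (s : Fin 6 → Fin n) : ℕ := idx 20 (gc H (Fin.cons r s : Fin 7 → Fin n))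

/-- The kernel with the root `r`: the value of `g` at the codes of the two flags. -/
def kR (g : ℕ → ℕ → ℤ) (r : Fin n) : (Fin 5 → Fin n) → Fin n → Fin n → ℤ := fun s u w =>
  g (cL H r (Fin.snoc s u)) (cL H r (Fin.snoc s w))

/-- The function of the link of the root on six vertices. -/
def MR (M : ℕ → ℤ) (r : Fin n) : (Fin 6 → Fin n) → ℤ := fun s => M (cL H r s)

end defs

/-- The rooted kernel of `g`. -/
def RKern.ofCode (g : ℕ → ℕ → ℤ) (C : ℝ)
    (hpsd : ∀ {n : ℕ} (H : Finset (Finset (Fin n))) (r : Fin n) (s : Fin 5 → Fin n),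
      0 ≤ ∑ u, ∑ w, ((kR H g r s u w : ℤ) : ℝ)) (hbd : ∀ c d, ((g c d : ℤ) : ℝ) ≤ C) : RKern where
  f := fun H r s u w => kR H g r s u w
  C := C
  psd := hpsd
  bd := fun _ _ _ _ _ => hbd _ _

/-- The upper bound from a certificate in terms of codes. -/
theorem bound_R (κ5 : Kern 5) (g : ℕ → ℕ → ℤ) (C : ℝ) (M : ℕ → ℤ)
    (hpsd : ∀ {n : ℕ} (H : Finset (Finset (Fin n))) (r : Fin n) (s : Fin 5 → Fin n),
      0 ≤ ∑ u, ∑ w, ((kR H g r s u w : ℤ) : ℝ)) (hbd : ∀ c d, ((g c d : ℤ) : ℝ) ≤ C)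
    (a Lo : ℤ) (ha : 0 < a) (lam : ℝ) (hlam : lam * (35 * a) ≤ Lo)
    (hK : ∀ (n : ℕ) (H : Finset (Finset (Fin n))), (∀ e ∈ H, e.card = 4) →
      (∀ S : Finset (Fin n), S.card = 5 → ∃ e ∈ S.powersetCard 4, e ∉ H) →
      ∀ s : Fin 7 → Fin n, Function.Injective s →
        2 * Lo + PS (κ5.f H) s + 2 * ∑ x : Fin 7, MR H M (s x) (s ∘ x.succAbove) ≤
          2 * a * (N8 H s : ℤ))
    (hL : ∀ (n : ℕ) (H : Finset (Finset (Fin n))) (r : Fin n) (p : Fin 7 → Fin n),
      Function.Injective p → (∀ i, p i ≠ r) → PS (kR H g r) p ≤ 2 * DS (MR H M r) p) :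
    ∀ ε : ℝ, 0 < ε → ∃ N : ℕ, ∀ n : ℕ, N ≤ n → ∀ H : Finset (Finset (Fin n)),
      (∀ e ∈ H, e.card = 4) →
      (∀ S : Finset (Fin n), S.card = 5 → ∃ e ∈ S.powersetCard 4, e ∉ H) →
      (H.card : ℝ) ≤ (1 - lam + ε) * ((n.choose 4 : ℕ) : ℝ) := by
  refine boundR κ5 (RKern.ofCode g C hpsd hbd) (fun H r s => 2 * MR H M r s) a Lo ha lam hlam ?_ ?_
  · intro n H h4 h5 s hs
    have h := hK n H h4 h5 s hs
    have e : MS (fun r s => 2 * MR H M r s) s =
        2 * ∑ x : Fin 7, MR H M (s x) (s ∘ x.succAbove) := by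
      unfold MS
      rw [Finset.mul_sum]
    rw [e]
    exact h
  · intro n H r p _ hp hr
    have h := hL n H r p hp hr
    have e : DS (m := 6) (fun s => 2 * MR H M r s) p = 2 * DS (MR H M r) p := by
      unfold DS
      rw [Finset.mul_sum]
    rw [e]
    exact h

end Pool.Agent.Lib.MP_afdd4d_co.K8
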