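import Pool.Agent.Lib.MP_afdd4d_co.K8.Main

/-!
# Rooted links: from local inequalities on seven-tuples and on rooted seven-tuples to the bound

The first local inequality is about seven vertices of a 4-graph without `K_5`; it contains a
function `μ` of a root and of the six other vertices.  The second local inequality bounds the sum of
`μ` over the sub-tuples of a rooted seven-tuple from below by a positive semidefinite kernel whose
type contains the root.
-/

namespace Pool.Agent.Lib.MP_afdd4d_co.K8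

open Finset

/-! ### The two ways to choose a root and a vertex to be removed -/

/-- Exchange of the root and of the removed vertex. -/
def swR (p : Fin (7 + 1) × Fin (6 + 1)) : Fin (7 + 1) × Fin (6 + 1) :=
  (p.1.succAbove p.2, Fin.predAbove p.2 p.1)

theorem swR_swR : ∀ p : Fin (7 + 1) × Fin (6 + 1), swR (swR p) = p := by decide +kernel

theorem swR_tuple : ∀ (p : Fin (7 + 1) × Fin (6 + 1)) (i : Fin 6),
    (swR p).1.succAbove ((swR p).2.succAbove i) = p.1.succAbove (p.2.succAbove i) := by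
  decide +kernel

/-- The exchange as an equivalence. -/
def swRE : Fin (7 + 1) × Fin (6 + 1) ≃ Fin (7 + 1) × Fin (6 + 1) :=
  ⟨swR, swR, swR_swR, swR_swR⟩

section ms
variable {V M : Type*} [AddCommMonoid M]

/-- The sum of a function of a root and of six further vertices over the roots of a tuple. -/
def MS (μ : V → (Fin 6 → V) → M) (t : Fin (6 + 1) → V) : M :=
  ∑ x : Fin (6 + 1), μ (t x) (t ∘ x.succAbove)

/-- The sum over the roots of a tuple of the pair sums of the kernel over the other vertices. -/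
def RS (κ : V → (Fin 5 → V) → V → V → M) (t : Fin (7 + 1) → V) : M :=
  ∑ z : Fin (7 + 1), PS (κ (t z)) (t ∘ z.succAbove)

/-- Removing a vertex and then choosing a root is the same as choosing a root and then removing a
vertex. -/
theorem DS_MS (μ : V → (Fin 6 → V) → M) (t : Fin (7 + 1) → V) :
    ∑ x : Fin (7 + 1), MS μ (t ∘ x.succAbove) =
      ∑ z : Fin (7 + 1), DS (m := 6) (μ (t z)) (t ∘ z.succAbove) := by
  have h1 : ∑ x : Fin (7 + 1), MS μ (t ∘ x.succAbove) =
      ∑ p : Fin (7 + 1) × Fin (6 + 1), μ (t (p.1.succAbove p.2))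
        (fun i => t (p.1.succAbove (p.2.succAbove i))) := by
    rw [Fintype.sum_prod_type]
    rfl
  have h2 : ∑ z : Fin (7 + 1), DS (m := 6) (μ (t z)) (t ∘ z.succAbove) =
      ∑ p : Fin (7 + 1) × Fin (6 + 1), μ (t p.1)
        (fun i => t (p.1.succAbove (p.2.succAbove i))) := by
    rw [Fintype.sum_prod_type]
    rfl
  rw [h1, h2, ← swRE.sum_comp (fun p : Fin (7 + 1) × Fin (6 + 1) => μ (t p.1)
        (fun i => t (p.1.succAbove (p.2.succAbove i))))]
  refine Finset.sum_congr rfl fun p _ => ?_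
  have e1 : (swRE p).1 = p.1.succAbove p.2 := rfl
  have e2 : (fun i => t ((swRE p).1.succAbove ((swRE p).2.succAbove i))) =
      fun i => t (p.1.succAbove (p.2.succAbove i)) := by
    funext i
    exact congrArg t (swR_tuple p i)
  rw [e2, e1]

end ms

/-! ### Total sums of rooted kernels -/

section tot
variable {V : Type*} [Fintype V] [DecidableEq V]

/-- A rooted kernel as a kernel of six vertices. -/
def rk (κ : V → (Fin 5 → V) → V → V → ℝ) (s : Fin 6 → V) (u w : V) : ℝ :=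
  κ (s 0) (s ∘ Fin.succ) u w

/-- The injection belonging to a root, a pair of vertices and the rest. -/
def jr (z : Fin (7 + 1)) (x : Fin (5 + 1 + 1)) (y : Fin (5 + 1)) : Fin (6 + 2) → Fin (7 + 1) :=
  Fin.append (Fin.cons z (z.succAbove ∘ x.succAbove ∘ y.succAbove) : Fin 6 → Fin (7 + 1))
    ![z.succAbove x, z.succAbove (x.succAbove y)]

theorem jr_inj : ∀ (z : Fin (7 + 1)) (x : Fin (5 + 1 + 1)) (y : Fin (5 + 1)),
    Function.Injective (jr z x y) := by
  decide +kernel

omit [Fintype V] [DecidableEq V] in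
theorem KF_jr (κ : V → (Fin 5 → V) → V → V → ℝ) (z : Fin (7 + 1)) (x : Fin (5 + 1 + 1))
    (y : Fin (5 + 1)) (t : Fin (7 + 1) → V) :
    KF (k := 6) (rk κ) (t ∘ jr z x y) =
      κ (t z) ((t ∘ z.succAbove) ∘ x.succAbove ∘ y.succAbove) ((t ∘ z.succAbove) x)
        ((t ∘ z.succAbove) (x.succAbove y)) := by
  unfold KF jr rk
  have e : (t ∘ Fin.append (Fin.cons z (z.succAbove ∘ x.succAbove ∘ y.succAbove) :
        Fin 6 → Fin (7 + 1)) ![z.succAbove x, z.succAbove (x.succAbove y)]) ∘ Fin.castAdd 2 =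
      Fin.cons (t z) ((t ∘ z.succAbove) ∘ x.succAbove ∘ y.succAbove) := by
    funext i
    simp only [Function.comp_apply, Fin.append_left]
    refine Fin.cases ?_ (fun i => ?_) i
    · rfl
    · rfl
  rw [e]
  simp only [Function.comp_apply, Fin.append_right]
  rfl

/-- The rooted pair sums, summed over the injective tuples, are almost nonnegative. -/
theorem RS_ge (κ : V → (Fin 5 → V) → V → V → ℝ) (C : ℝ)
    (hκ : ∀ r s, 0 ≤ ∑ u, ∑ w, κ r s u w) (hC : ∀ r s u w, κ r s u w ≤ C) :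
    -(336 * C * ((Fintype.card V : ℝ) ^ (4 + 4) -
        ((Fintype.card V).descFactorial (4 + 4) : ℝ))) ≤
      ∑ t ∈ inj V (4 + 4), RS κ (t : Fin (7 + 1) → V) := by
  set D : ℝ := (Fintype.card V : ℝ) ^ (4 + 4) - ((Fintype.card V).descFactorial (4 + 4) : ℝ)
    with hD
  have h1 : ∀ (z : Fin (7 + 1)) (x : Fin (5 + 1 + 1)) (y : Fin (5 + 1)), -(C * D) ≤
      ∑ t ∈ inj V (4 + 4), κ ((t : Fin (7 + 1) → V) z)
        ((t ∘ z.succAbove) ∘ x.succAbove ∘ y.succAbove) ((t ∘ z.succAbove) x)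
        ((t ∘ z.succAbove) (x.succAbove y)) := by
    intro z x y
    simp_rw [← KF_jr κ z x y]
    exact inj_comp_ge (k := 6 + 2) 0 (KF (k := 6) (rk κ)) C
      (KF_tot (k := 6) (rk κ) fun s => hκ (s 0) (s ∘ Fin.succ)) (fun t => hC _ _ _ _)
      (jr z x y) (jr_inj z x y)
  have h2 : ∑ t ∈ inj V (4 + 4), RS κ (t : Fin (7 + 1) → V) =
      ∑ z : Fin (7 + 1), ∑ x : Fin (5 + 1 + 1), ∑ y : Fin (5 + 1), ∑ t ∈ inj V (4 + 4),
        κ ((t : Fin (7 + 1) → V) z) ((t ∘ z.succAbove) ∘ x.succAbove ∘ y.succAbove)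
          ((t ∘ z.succAbove) x) ((t ∘ z.succAbove) (x.succAbove y)) := by
    unfold RS PS
    rw [Finset.sum_comm]
    refine Finset.sum_congr rfl fun z _ => ?_
    rw [Finset.sum_comm]
    refine Finset.sum_congr rfl fun x _ => ?_
    rw [Finset.sum_comm]
  rw [h2]
  calc -(336 * C * D) = ∑ _z : Fin (7 + 1), ∑ _x : Fin (5 + 1 + 1), ∑ _y : Fin (5 + 1), -(C * D) := by
        simp only [Finset.sum_const, Finset.card_univ, Fintype.card_fin, nsmul_eq_mul]
        norm_num
        ring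
    _ ≤ _ := Finset.sum_le_sum fun z _ => Finset.sum_le_sum fun x _ =>
        Finset.sum_le_sum fun y _ => h1 z x y

end tot

/-- A positive semidefinite kernel for every root and every five vertices. -/
structure RKern where
  f : ∀ {n : ℕ}, Finset (Finset (Fin n)) → Fin n → (Fin 5 → Fin n) → Fin n → Fin n → ℤ
  C : ℝ
  psd : ∀ {n : ℕ} (H : Finset (Finset (Fin n))) (r : Fin n) (s : Fin 5 → Fin n),
    0 ≤ ∑ u, ∑ w, ((f H r s u w : ℤ) : ℝ)
  bd : ∀ {n : ℕ} (H : Finset (Finset (Fin n))) r s u w, ((f H r s u w : ℤ) : ℝ) ≤ C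

/-- The upper bound from the two local inequalities. -/
theorem boundR (κ5 : Kern 5) (κr : RKern)
    (μ : ∀ {n : ℕ}, Finset (Finset (Fin n)) → Fin n → (Fin 6 → Fin n) → ℤ)
    (a Lo : ℤ) (ha : 0 < a) (lam : ℝ) (hlam : lam * (35 * a) ≤ Lo)
    (hK : ∀ (n : ℕ) (H : Finset (Finset (Fin n))), (∀ e ∈ H, e.card = 4) →
      (∀ S : Finset (Fin n), S.card = 5 → ∃ e ∈ S.powersetCard 4, e ∉ H) →
      ∀ s : Fin 7 → Fin n, Function.Injective s →
        2 * Lo + PS (κ5.f H) s + MS (μ H) s ≤ 2 * a * (N8 H s : ℤ))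
    (hL : ∀ (n : ℕ) (H : Finset (Finset (Fin n))) (r : Fin n) (p : Fin 7 → Fin n),
      (∀ e ∈ H, e.card = 4) → Function.Injective p → (∀ i, p i ≠ r) →
        PS (κr.f H r) p ≤ DS (m := 6) (μ H r) p) :
    ∀ ε : ℝ, 0 < ε → ∃ N : ℕ, ∀ n : ℕ, N ≤ n → ∀ H : Finset (Finset (Fin n)),
      (∀ e ∈ H, e.card = 4) →
      (∀ S : Finset (Fin n), S.card = 5 → ∃ e ∈ S.powersetCard 4, e ∉ H) →
      (H.card : ℝ) ≤ (1 - lam + ε) * ((n.choose 4 : ℕ) : ℝ) := by
  have haR : (0 : ℝ) < a := by exact_mod_cast ha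
  refine skel8 (16 * Lo) (8 * a) (8 * (42 * κ5.C) + 336 * κr.C) lam (by positivity) ?_ ?_
  · have : lam * (8 * (a : ℝ) * 70) = 16 * (lam * (35 * a)) := by ring
    rw [this]
    linarith
  · intro n H h4 h5
    refine ⟨fun t => ((DS (PS (κ5.f H)) t : ℤ) : ℝ) + ((RS (κr.f H) t : ℤ) : ℝ), ?_, ?_⟩
    · rw [Finset.sum_add_distrib]
      have h1 := DS_PS_ge (V := Fin n) (fun s u w => ((κ5.f H s u w : ℤ) : ℝ)) κ5.C (κ5.psd H)
        (κ5.bd H)
      have h2 := RS_ge (V := Fin n) (fun r s u w => ((κr.f H r s u w : ℤ) : ℝ)) κr.C (κr.psd H)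
        (κr.bd H)
      rw [Fintype.card_fin] at h1 h2
      have e1 : ∀ t : Fin (4 + 4) → Fin n, ((DS (m := 7) (PS (κ5.f H)) t : ℤ) : ℝ) =
          DS (m := 7) (PS fun s u w => ((κ5.f H s u w : ℤ) : ℝ)) t := by
        intro t
        rw [cast_DS]
        congr 1
        funext s
        exact cast_PS _ s
      have e2 : ∀ t : Fin (4 + 4) → Fin n, ((RS (κr.f H) t : ℤ) : ℝ) =
          RS (fun r s u w => ((κr.f H r s u w : ℤ) : ℝ)) t := by
        intro t
        unfold RS
        rw [Int.cast_sum]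
        exact Finset.sum_congr rfl fun z _ => cast_PS _ _
      rw [Finset.sum_congr rfl fun t _ => e1 t, Finset.sum_congr rfl fun t _ => e2 t]
      linarith
    · intro t ht
      have hx : ∀ x : Fin (7 + 1), 2 * Lo + PS (κ5.f H) (t ∘ x.succAbove) +
          MS (μ H) (t ∘ x.succAbove) ≤ 2 * a * (N8 H (t ∘ x.succAbove) : ℤ) := fun x =>
        hK n H h4 h5 (t ∘ x.succAbove) (ht.comp Fin.succAbove_right_injective)
      have hz : ∀ z : Fin (7 + 1), PS (κr.f H (t z)) (t ∘ z.succAbove) ≤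
          DS (m := 6) (μ H (t z)) (t ∘ z.succAbove) := fun z =>
        hL n H (t z) (t ∘ z.succAbove) h4 (ht.comp Fin.succAbove_right_injective) fun i h =>
          Fin.succAbove_ne z i (ht h)
      have s1 := Finset.sum_le_sum fun x (_ : x ∈ (univ : Finset (Fin (7 + 1)))) => hx x
      have s2 := Finset.sum_le_sum fun z (_ : z ∈ (univ : Finset (Fin (7 + 1)))) => hz z
      rw [Finset.sum_add_distrib, Finset.sum_add_distrib, Finset.sum_const, Finset.card_univ,
        Fintype.card_fin, ← Finset.mul_sum, DS_MS] at s1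
      have e3 : ∑ x : Fin (7 + 1), (N8 H (t ∘ x.succAbove) : ℤ) = 4 * (N8 H t : ℤ) := by
        have e4 : ((∑ x : Fin (7 + 1), N8 H (t ∘ x.succAbove) : ℕ) : ℤ) =
            (((7 - 3) * N8 H t : ℕ) : ℤ) := congrArg Nat.cast (DS_N8 (m := 7) (by norm_num) H t)
        rw [Nat.cast_sum, Nat.cast_mul] at e4
        exact e4
      rw [e3] at s1
      have h1 : 16 * Lo + DS (PS (κ5.f H)) t + RS (κr.f H) t ≤ 8 * a * (N8 H t : ℤ) := by
        have e5 : DS (PS (κ5.f H)) t = ∑ x : Fin (7 + 1), PS (κ5.f H) (t ∘ x.succAbove) := rfl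
        have e6 : RS (κr.f H) t = ∑ z : Fin (7 + 1), PS (κr.f H (t z)) (t ∘ z.succAbove) := rfl
        rw [e5, e6]
        have e7 : ((7 + 1 : ℕ) : ℤ) = 8 := by norm_num
        rw [nsmul_eq_mul, e7] at s1
        linarith
      have h2 : (((16 * Lo + DS (PS (κ5.f H)) t + RS (κr.f H) t : ℤ)) : ℝ) ≤
          ((8 * a * (N8 H t : ℤ) : ℤ) : ℝ) := by exact_mod_cast h1
      push_cast at h2
      linarith

end Pool.Agent.Lib.MP_afdd4d_co.K8
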