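import Pool.Agent.Lib.MP_afdd4d_co.Tuple
import Pool.Agent.Lib.MP_afdd4d_co.Skeleton

/-!
# Averaging over eight-tuples

Sums over injective tuples of functions of some of the coordinates, and the passage from a local
inequality on eight-tuples to an upper bound for the Turan density.
-/

namespace Pool.Agent.Lib.MP_afdd4d_co.K8

open Finset

section ext
variable {k m : ℕ}

/-- An injective map from `Fin k` to `Fin m` is the restriction of a permutation. -/
theorem exists_perm_ext (d : ℕ) (j : Fin k → Fin (k + d)) (hj : Function.Injective j) :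
    ∃ π : Equiv.Perm (Fin (k + d)), ∀ i : Fin k, π (Fin.castAdd d i) = j i := by
  classical
  have h := Finset.exists_equiv_extend_of_card_eq (α := Fin (k + d)) (β := Fin (k + d))
    (t := univ) (by simp) (s := univ.image (Fin.castAdd d : Fin k → Fin (k + d)))
    (f := fun x => if h : (x : ℕ) < k then j ⟨x, h⟩ else x) (Finset.subset_univ _) (by
      intro x hx y hy hxy
      rw [Finset.coe_image] at hx hy
      obtain ⟨x', _, rfl⟩ := hx
      obtain ⟨y', _, rfl⟩ := hy
      have hx' : ((Fin.castAdd d x' : Fin (k + d)) : ℕ) < k := x'.isLt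
      have hy' : ((Fin.castAdd d y' : Fin (k + d)) : ℕ) < k := y'.isLt
      simp only [hx', hy', dif_pos] at hxy
      have := hj hxy
      have h2 : x' = y' := Fin.ext (by simpa using congrArg Fin.val this)
      rw [h2])
  obtain ⟨g, hg⟩ := h
  refine ⟨g.trans (Equiv.subtypeUnivEquiv (by simp)), fun i => ?_⟩
  have h1 := hg (Fin.castAdd d i) (Finset.mem_image_of_mem _ (Finset.mem_univ i))
  rw [Equiv.trans_apply, Equiv.subtypeUnivEquiv_apply, h1]
  have hi : ((Fin.castAdd d i : Fin (k + d)) : ℕ) < k := i.isLt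
  rw [dif_pos hi]
  rfl

end ext

section sums
variable {V : Type*} [Fintype V] [DecidableEq V] {k : ℕ}

omit [DecidableEq V] in
/-- A function of some of the coordinates has nonnegative total sum if it has so as a function of
these coordinates alone. -/
theorem tot_comp (d : ℕ) (K : (Fin k → V) → ℝ) (hK : 0 ≤ ∑ t, K t) (j : Fin k → Fin (k + d))
    (hj : Function.Injective j) : 0 ≤ ∑ t : Fin (k + d) → V, K (t ∘ j) := by
  obtain ⟨π, hπ⟩ := exists_perm_ext d j hj
  have h1 : ∀ t : Fin (k + d) → V, K (t ∘ j) = K ((t ∘ π) ∘ Fin.castAdd d) := by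
    intro t
    congr 1
    funext i
    simp only [Function.comp_apply]
    rw [hπ]
  simp_rw [h1]
  have h2 := (Equiv.arrowCongr π.symm (Equiv.refl V)).sum_comp
    (fun t : Fin (k + d) → V => K (t ∘ Fin.castAdd d))
  have h3 : ∑ t : Fin (k + d) → V, K ((t ∘ π) ∘ Fin.castAdd d) =
      ∑ t : Fin (k + d) → V, K (t ∘ Fin.castAdd d) := h2
  rw [h3, ← (Fin.appendEquiv k d).sum_comp, Fintype.sum_prod_type]
  have h4 : ∀ (a : Fin k → V) (b : Fin d → V),
      K ((Fin.appendEquiv k d) (a, b) ∘ Fin.castAdd d) = K a := by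
    intro a b
    congr 1
    funext i
    simp only [Function.comp_apply, Fin.appendEquiv_apply, Fin.append_left]
  simp_rw [h4]
  rw [Finset.sum_comm]
  exact Finset.sum_nonneg fun b _ => hK

/-- The sum over the injective tuples is almost nonnegative. -/
theorem inj_comp_ge (d : ℕ) (K : (Fin k → V) → ℝ) (C : ℝ) (hK : 0 ≤ ∑ t, K t)
    (hC : ∀ t, K t ≤ C) (j : Fin k → Fin (k + d)) (hj : Function.Injective j) :
    -(C * ((Fintype.card V : ℝ) ^ (k + d) - ((Fintype.card V).descFactorial (k + d) : ℝ))) ≤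
      ∑ t ∈ inj V (k + d), K (t ∘ j) :=
  inj_ge (fun t => K (t ∘ j)) C (tot_comp d K hK j hj) fun _ => hC _

/-- The sum over the injective tuples does not depend on the choice of the coordinates. -/
theorem sum_inj_comp (d : ℕ) (K : (Fin k → V) → ℝ) (j : Fin k → Fin (k + d))
    (hj : Function.Injective j) :
    ∑ t ∈ inj V (k + d), K (t ∘ j) = ∑ t ∈ inj V (k + d), K (t ∘ Fin.castAdd d) := by
  obtain ⟨π, hπ⟩ := exists_perm_ext d j hj
  have h1 : ∀ t : Fin (k + d) → V, K (t ∘ j) = K ((t ∘ π) ∘ Fin.castAdd d) := by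
    intro t
    congr 1
    funext i
    simp only [Function.comp_apply]
    rw [hπ]
  simp_rw [h1]
  exact sum_inj_perm (fun t : Fin (k + d) → V => K (t ∘ Fin.castAdd d)) π

end sums

/-! ### The number of non-edges of an eight-tuple -/

/-- The number of non-edges among the quadruples of a tuple. -/
def N8 {n m : ℕ} (H : Finset (Finset (Fin n))) (t : Fin m → Fin n) : ℕ :=
  ∑ T ∈ (univ : Finset (Fin m)).powersetCard 4, (E H t T).toNat

theorem exists_inj_of_card {m : ℕ} (T : Finset (Fin m)) (hT : T.card = 4) :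
    ∃ j : Fin 4 → Fin m, Function.Injective j ∧ univ.image j = T := by
  refine ⟨T.orderEmbOfFin hT, (T.orderEmbOfFin hT).injective, ?_⟩
  exact Finset.image_orderEmbOfFin_univ T hT

theorem sum_N8 {n : ℕ} (H : Finset (Finset (Fin n))) :
    ∑ t ∈ inj (Fin n) (4 + 4), (N8 H t : ℝ) =
      70 * ∑ t ∈ inj (Fin n) (4 + 4), D4 H (fun i => t (Fin.castAdd 4 i)) := by
  have h1 : ∀ t : Fin (4 + 4) → Fin n, (N8 H t : ℝ) =
      ∑ T ∈ (univ : Finset (Fin (4 + 4))).powersetCard 4, (((E H t T).toNat : ℕ) : ℝ) := by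
    intro t
    rw [N8]
    push_cast
    rfl
  simp_rw [h1]
  rw [Finset.sum_comm]
  have h2 : ∀ T ∈ (univ : Finset (Fin (4 + 4))).powersetCard 4,
      ∑ t ∈ inj (Fin n) (4 + 4), (((E H t T).toNat : ℕ) : ℝ) =
      ∑ t ∈ inj (Fin n) (4 + 4), D4 H (fun i => t (Fin.castAdd 4 i)) := by
    intro T hT
    obtain ⟨j, hj, hjT⟩ := exists_inj_of_card T (Finset.mem_powersetCard.mp hT).2
    have h3 : ∀ t : Fin (4 + 4) → Fin n, (((E H t T).toNat : ℕ) : ℝ) = D4 H (t ∘ j) := by
      intro t
      unfold E D4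
      rw [← hjT, Finset.image_image]
      by_cases h : univ.image (t ∘ j) ∉ H
      · rw [if_pos h, decide_eq_true h]; simp
      · rw [if_neg h, decide_eq_false h]; simp
    simp_rw [h3]
    exact sum_inj_comp 4 (D4 H) j hj
  rw [Finset.sum_congr rfl h2, Finset.sum_const, Finset.card_powersetCard, Finset.card_univ,
    Fintype.card_fin, nsmul_eq_mul]
  norm_num [Nat.choose]

/-- From the local inequality on eight-tuples to the bound. -/
theorem skel8 (L A C lam : ℝ) (hA : 0 < A) (hlam : lam * (A * 70) ≤ L)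
    (h : ∀ (n : ℕ) (H : Finset (Finset (Fin n))), (∀ e ∈ H, e.card = 4) →
      (∀ S : Finset (Fin n), S.card = 5 → ∃ e ∈ S.powersetCard 4, e ∉ H) →
      ∃ R : (Fin (4 + 4) → Fin n) → ℝ,
        -(C * ((n : ℝ) ^ (4 + 4) - (n.descFactorial (4 + 4) : ℝ))) ≤
          ∑ t ∈ inj (Fin n) (4 + 4), R t ∧
        ∀ t, Function.Injective t → L + R t ≤ A * (N8 H t : ℝ)) :
    ∀ ε : ℝ, 0 < ε → ∃ N : ℕ, ∀ n : ℕ, N ≤ n → ∀ H : Finset (Finset (Fin n)),
      (∀ e ∈ H, e.card = 4) →
      (∀ S : Finset (Fin n), S.card = 5 → ∃ e ∈ S.powersetCard 4, e ∉ H) →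
      (H.card : ℝ) ≤ (1 - lam + ε) * ((n.choose 4 : ℕ) : ℝ) := by
  intro ε hε
  have hA70 : 0 < A * 70 := by positivity
  obtain ⟨N, hN⟩ := density_bound (4 + 4) 4 (by norm_num) (A * 70) L C lam hA70 hlam ε hε
  refine ⟨N, fun n hn H h4 hfree => ?_⟩
  obtain ⟨R, hR, hloc⟩ := h n H h4 hfree
  classical
  -- the non-edges
  set G : Finset (Finset (Fin n)) := (univ.powersetCard 4) \ H with hGdef
  have hG : ∀ s ∈ G, s.card = 4 := by
    intro s hs
    rw [hGdef, Finset.mem_sdiff, Finset.mem_powersetCard] at hs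
    exact hs.1.2
  have hHsub : H ⊆ univ.powersetCard 4 := by
    intro e he
    rw [Finset.mem_powersetCard]
    exact ⟨Finset.subset_univ _, h4 e he⟩
  have hcard : (G.card : ℝ) = ((n.choose 4 : ℕ) : ℝ) - (H.card : ℝ) := by
    have h1 := Finset.card_sdiff_add_card_eq_card hHsub
    rw [Finset.card_powersetCard, Finset.card_univ, Fintype.card_fin] at h1
    have h2 : ((G.card + H.card : ℕ) : ℝ) = ((n.choose 4 : ℕ) : ℝ) := by exact_mod_cast h1
    push_cast at h2
    linarith
  have hS : ∑ t ∈ inj (Fin n) (4 + 4), D4 H (fun i => t (Fin.castAdd 4 i)) ≤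
      (n : ℝ) ^ (4 + 4 - 4) * (((4 : ℕ).factorial : ℝ) * (G.card : ℝ)) := by
    have h1 := sum_inj_le_pow (V := Fin n) 4 4 (D4 H) (D4_nonneg H)
    rw [Fintype.card_fin] at h1
    refine le_trans h1 ?_
    refine mul_le_mul_of_nonneg_left ?_ (by positivity)
    refine sum_inj_le_edges 4 G hG (D4 H) (D4_le_one H) ?_
    intro b hb hbG
    unfold D4
    have hc : (univ.image b).card = 4 := by
      rw [Finset.card_image_of_injective _ hb, Finset.card_univ, Fintype.card_fin]
    have hin : univ.image b ∈ H := by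
      by_contra hno
      apply hbG
      rw [hGdef, Finset.mem_sdiff, Finset.mem_powersetCard]
      exact ⟨⟨Finset.subset_univ _, hc⟩, hno⟩
    rw [if_neg (not_not.mpr hin)]
  have hsum : L * (n.descFactorial (4 + 4) : ℝ) + ∑ t ∈ inj (Fin n) (4 + 4), R t ≤
      A * (70 * ∑ t ∈ inj (Fin n) (4 + 4), D4 H (fun i => t (Fin.castAdd 4 i))) := by
    have h1 : ∑ t ∈ inj (Fin n) (4 + 4), (L + R t) ≤
        ∑ t ∈ inj (Fin n) (4 + 4), A * (N8 H t : ℝ) :=
      Finset.sum_le_sum fun t ht => hloc t (mem_inj.mp ht)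
    rw [Finset.sum_add_distrib, Finset.sum_const, nsmul_eq_mul, card_inj, Fintype.card_fin,
      ← Finset.mul_sum, sum_N8] at h1
    linarith
  have hmain := hN n hn (G.card : ℝ)
    (∑ t ∈ inj (Fin n) (4 + 4), D4 H (fun i => t (Fin.castAdd 4 i))) (Nat.cast_nonneg _) hS (by
      linarith)
  rw [hcard] at hmain
  have hch : (0 : ℝ) ≤ ((n.choose 4 : ℕ) : ℝ) := Nat.cast_nonneg _
  nlinarith [hmain]

end Pool.Agent.Lib.MP_afdd4d_co.K8
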