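import Pool.Agent.Lib.MP_afdd4d_co.K8.F6Con
import Pool.Agent.Lib.MP_afdd4d_co.K8.Tab

/-!
# Class functions on the codes with fixed top bits

The array of `2 ^ 16` lanes with the values of a class function at the codes with the top four bits `t`
is composed of leaves of `2 ^ 7` lanes of a tree, which are compared with the table of the classes.
-/

namespace Pool.Agent.Lib.MP_afdd4d_co.K8

open Finset

set_option exponentiation.threshold 10000000

/-- The class numbers of the codes with the top four bits `t`. -/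
def tpG (t : ℕ) : ℕ := Nat.mod (Nat.shiftRight ctab (Nat.mul 589824 t)) (Nat.pow 2 589824)

/-- The class numbers of the codes with the top ten bits `y + 64 * t`. -/
def rhG (t y : ℕ) : ℕ := Nat.mod (Nat.shiftRight (tpG t) (Nat.mul 9216 y)) (Nat.pow 2 9216)

theorem rhG_lane (t y x : ℕ) (hy : y < 64) (hx : x < 1024) :
    Ln 9 (rhG t y) x = cix (x + 1024 * y + 65536 * t) := by
  have e1 : rhG t y = (((ctab >>> (9 * (65536 * t))) % 2 ^ (9 * 65536)) >>> (9 * (1024 * y))) %
      2 ^ (9 * 1024) := by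
    have e2 : tpG t = (ctab >>> (9 * (65536 * t))) % 2 ^ (9 * 65536) := by
      have h : Nat.mul 589824 t = 9 * (65536 * t) := by
        change 589824 * t = _
        ring
      unfold tpG
      rw [h]
      rfl
    have h : Nat.mul 9216 y = 9 * (1024 * y) := by
      change 9216 * y = _
      ring
    unfold rhG
    rw [h, e2]
    rfl
  rw [e1, Ln_mod, if_pos hx, Ln_shr, Ln_mod, if_pos (by omega), Ln_shr, cix]

/-- The values of the class function `V` at the codes `128 * X, …, 128 * X + 127` with the top four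
bits `t`. -/
def bvG (W V t X : ℕ) : ℕ := vrG W V (rhG t (Nat.div X 8)) 7 (Nat.mul 128 (Nat.mod X 8))

theorem bvG_ar {W : ℕ} (V t X : ℕ) (hW : 0 < W) (hX : X < 512) :
    Ar W 7 (bvG W V t X) fun b => Ln W V (cix (idx 7 b + 128 * X + 65536 * t)) := by
  refine (vrG_ar hW 7 _).congr fun b => ?_
  have h : idx 7 b < 128 := idx_lt 7 b
  have h1 : Nat.mul 128 (Nat.mod X 8) = 128 * (X % 8) := rfl
  have h2 : Nat.div X 8 = X / 8 := rfl
  have h3 := Nat.mod_lt X (show 0 < 8 by norm_num)
  rw [h1, h2, rhG_lane t _ _ (by omega) (by omega)]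
  congr 3
  omega

/-- A tree of numbers. -/
inductive TN : Type
  | l : ℕ → TN
  | n : TN → TN → TN

/-- The array of the leaves of `2 ^ 7` lanes of a tree of depth `d`. -/
noncomputable def tnA (W : ℕ) (t : TN) : ℕ → ℕ :=
  @TN.rec (fun _ => ℕ → ℕ) (fun a _ => a)
    (fun _ _ ih1 ih2 d => Nat.add (ih1 (Nat.pred d)) (Nat.shiftLeft (ih2 (Nat.pred d))
      (Nat.mul W (Nat.pow 2 (Nat.add 7 (Nat.pred d)))))) t

/-- The tree has depth `d` and its leaves are `f X, f (X + 1), …`. -/
noncomputable def tnC (f : ℕ → ℕ) (t : TN) : ℕ → ℕ → Bool :=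
  @TN.rec (fun _ => ℕ → ℕ → Bool)
    (fun a d X => @Bool.rec (fun _ => Bool) false (Nat.beq a (f X)) (Nat.beq d 0))
    (fun _ _ ih1 ih2 d X => @Nat.rec (fun _ => Bool) false
      (fun k _ => @Bool.rec (fun _ => Bool) false (ih2 k (Nat.add X (Nat.pow 2 k))) (ih1 k X)) d) t

theorem tnC_node {f : ℕ → ℕ} {a b : TN} {k X : ℕ} (h1 : tnC f a k X = true)
    (h2 : tnC f b k (Nat.add X (Nat.pow 2 k)) = true) : tnC f (TN.n a b) (k + 1) X = true := by
  have e : tnC f (TN.n a b) (k + 1) X = @Bool.rec (fun _ => Bool) false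
    (tnC f b k (Nat.add X (Nat.pow 2 k))) (tnC f a k X) := rfl
  rw [e, bool_rec_and, h1, h2]
  rfl

theorem tn_ar {W : ℕ} (hW : 0 < W) (f : ℕ → ℕ) (g : ℕ → (ℕ → Bool) → ℕ) (N : ℕ)
    (hf : ∀ X < N, Ar W 7 (f X) (g X)) (t : TN) : ∀ d X : ℕ, X + 2 ^ d ≤ N →
    tnC f t d X = true → Ar W (7 + d) (tnA W t d) fun b => g (X + idx d fun k => b (7 + k)) b := by
  induction t with
  | l a =>
    intro d X hX h
    have e : tnC f (TN.l a) d X = @Bool.rec (fun _ => Bool) false (Nat.beq a (f X)) (Nat.beq d 0) :=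
      rfl
    rw [e, bool_rec_and, Bool.and_eq_true] at h
    have h1 : d = 0 := Nat.eq_of_beq_eq_true h.1
    have h2 : a = f X := Nat.eq_of_beq_eq_true h.2
    subst h1
    have e1 : tnA W (TN.l a) 0 = a := rfl
    rw [e1, h2]
    refine (hf X (by rw [pow_zero] at hX; omega)).congr fun b => ?_
    simp [idx]
  | n a b iha ihb =>
    intro d X hX h
    cases d with
    | zero => exact Bool.noConfusion h
    | succ k =>
      have e : tnC f (TN.n a b) (k + 1) X = @Bool.rec (fun _ => Bool) false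
        (tnC f b k (X + 2 ^ k)) (tnC f a k X) := rfl
      rw [e, bool_rec_and, Bool.and_eq_true] at h
      have h2 : 2 ^ (k + 1) = 2 ^ k + 2 ^ k := by rw [pow_succ]; ring
      have hpos := Nat.two_pow_pos k
      have h3 := (iha k X (by omega) h.1).cat (ihb k (X + 2 ^ k) (by omega) h.2) hW
      have e1 : tnA W (TN.n a b) (k + 1) = tnA W a k + (tnA W b k) <<< (W * 2 ^ (7 + k)) := rfl
      rw [e1]
      refine h3.congr fun c => ?_
      have e2 : (idx (k + 1) fun i => c (7 + i)) =
        (idx k fun i => c (7 + i)) + 2 ^ k * (c (7 + k)).toNat := rfl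
      rw [e2]
      cases c (7 + k)
      · rw [if_neg (by decide), Bool.toNat_false, mul_zero, add_zero]
      · rw [if_pos rfl, Bool.toNat_true, mul_one]
        congr 1
        ring

theorem tnB_ar {W : ℕ} (V : ℕ) (T : TN) (t : ℕ) (hW : 0 < W)
    (h : tnC (bvG W V t) T 9 0 = true) :
    Ar W 16 (tnA W T 9) fun b => Ln W V (cix (idx 16 b + 65536 * t)) := by
  have h1 := tn_ar hW (bvG W V t) (fun X b => Ln W V (cix (idx 7 b + 128 * X + 65536 * t))) 512
    (fun X hX => bvG_ar V t X hW hX) T 9 0 (by norm_num) h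
  refine Ar.congr h1 fun b => ?_
  rw [zero_add]
  have e : idx 16 b = idx 7 b + 128 * idx 9 fun k => b (7 + k) := idx_split 7 9 b
  rw [e]

end Pool.Agent.Lib.MP_afdd4d_co.K8
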