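import Pool.Agent.Lib.MP_afdd4d_co.K8.LowerEven

/-!
# The density from the upper bound
-/

namespace Pool.Agent.Lib.MP_afdd4d_co.K8

open Finset

/-- Five points of an even 4-graph do not span all quadruples. -/
theorem exists_nonedge {n : ℕ} (H : Finset (Finset (Fin n))) (hH : EvenH n H)
    (S : Finset (Fin n)) (hS : S.card = 5) : ∃ e ∈ S.powersetCard 4, e ∉ H := by
  by_contra hc
  have h1 : ((S.powersetCard 4).filter fun e => e ∈ H) = S.powersetCard 4 := by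
    refine Finset.filter_true_of_mem fun e he => ?_
    by_contra h2
    exact hc ⟨e, he, h2⟩
  have h2 := hH S hS
  rw [h1, Finset.card_powersetCard, hS] at h2
  exact absurd h2 (by decide)

/-- Both bounds from the upper bound. -/
theorem turan_of_upper (lam : ℝ) (hlam : lam = 5 / 16)
    (h : ∀ ε : ℝ, 0 < ε → ∃ N : ℕ, ∀ n : ℕ, N ≤ n → ∀ H : Finset (Finset (Fin n)),
      (∀ e ∈ H, e.card = 4) →
      (∀ S : Finset (Fin n), S.card = 5 → ∃ e ∈ S.powersetCard 4, e ∉ H) →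
      (H.card : ℝ) ≤ (1 - lam + ε) * ((n.choose 4 : ℕ) : ℝ)) :
    ∀ ε : ℝ, 0 < ε → ∃ N : ℕ, ∀ n : ℕ, N ≤ n →
      (∃ H : Finset (Finset (Fin n)),
          (∀ e ∈ H, e.card = 4) ∧
          (∀ S : Finset (Fin n), S.card = 5 → ∃ e ∈ S.powersetCard 4, e ∉ H) ∧
          ((11 / 16 : ℝ) - ε) * ((n.choose 4 : ℕ) : ℝ) ≤ (H.card : ℝ)) ∧
      (∀ H : Finset (Finset (Fin n)),
          (∀ e ∈ H, e.card = 4) →
          (∀ S : Finset (Fin n), S.card = 5 → ∃ e ∈ S.powersetCard 4, e ∉ H) →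
          (H.card : ℝ) ≤ ((11 / 16 : ℝ) + ε) * ((n.choose 4 : ℕ) : ℝ)) := by
  intro ε hε
  obtain ⟨N1, h1⟩ := lower_even ε hε
  obtain ⟨N2, h2⟩ := h ε hε
  refine ⟨max N1 N2, fun n hn => ⟨?_, fun H h4 h5 => ?_⟩⟩
  · obtain ⟨H, h3, h4, h5⟩ := h1 n (le_trans (le_max_left _ _) hn)
    exact ⟨H, h3, fun S hS => exists_nonedge H h4 S hS, h5⟩
  · have h6 := h2 n (le_trans (le_max_right _ _) hn) H h4 h5
    have e : (1 : ℝ) - lam + ε = 11 / 16 + ε := by rw [hlam]; norm_num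
    rw [e] at h6
    exact h6

end Pool.Agent.Lib.MP_afdd4d_co.K8
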