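import Pool.Agent.Lib.MP_afdd4d_co.K8.Code

/-!
# Programs with fixed index bits

Two more instructions: `(4, p, q)` fixes the bit `p` of the index to the bit `q` of the parameter (the
last bit takes the place of bit `p`), and `(5, p, q)` negates the bit `p` if the bit `q` of the
parameter is set.
-/

namespace Pool.Agent.Lib.MP_afdd4d_co.K8

open Finset

section half
variable {W n A : ℕ} {f : (ℕ → Bool) → ℕ}

theorem idx_upd_topV (n : ℕ) (b : ℕ → Bool) (v : Bool) :
    idx (n + 1) (upd b n v) = idx n b + 2 ^ n * v.toNat := by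
  have e1 : idx (n + 1) (upd b n v) = idx n (upd b n v) + 2 ^ n * (upd b n v n).toNat := rfl
  have e2 : idx n (upd b n v) = idx n b := idx_congr n _ _ fun r hr => by
    unfold upd
    rw [if_neg (by omega)]
  have e3 : upd b n v n = v := by unfold upd; rw [if_pos rfl]
  rw [e1, e2, e3]

theorem half_lowV (hA : Ar W (n + 1) A f) :
    Ar W n (A % 2 ^ (W * 2 ^ n)) fun b => f (upd b n false) := by
  refine ⟨Nat.mod_lt _ (Nat.two_pow_pos _), fun b => ?_⟩
  rw [Ln_mod, if_pos (idx_lt n b), ← hA.get, idx_upd_topV, Bool.toNat_false, mul_zero, add_zero]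

theorem half_highV (hA : Ar W (n + 1) A f) :
    Ar W n (A >>> (W * 2 ^ n)) fun b => f (upd b n true) := by
  refine ⟨?_, fun b => ?_⟩
  · rw [Nat.shiftRight_eq_div_pow]
    apply Nat.div_lt_of_lt_mul
    have h := hA.lt
    rw [pow_succ, mul_two, mul_add, pow_add] at h
    exact h
  · rw [Ln_shr, ← hA.get, idx_upd_topV, Bool.toNat_true, mul_one]

end half

/-- The half of an array of `2 ^ (n+1)` lanes. -/
def hfV (W n A : ℕ) (v : Bool) : ℕ := @Bool.rec (fun _ => ℕ)
  (Nat.mod A (Nat.pow 2 (Nat.mul W (Nat.pow 2 n)))) (Nat.shiftRight A (Nat.mul W (Nat.pow 2 n))) v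

theorem hfV_ar {W n A : ℕ} {f : (ℕ → Bool) → ℕ} (hA : Ar W (n + 1) A f) (v : Bool) :
    Ar W n (hfV W n A v) fun b => f (upd b n v) := by
  cases v
  · exact half_lowV hA
  · exact half_highV hA

/-- Bit `q` of `τ`. -/
def tbV (τ q : ℕ) : Bool := Nat.beq (Nat.mod (Nat.div τ (Nat.pow 2 q)) 2) 1

theorem tbV_eq (τ q : ℕ) : tbV τ q = τ.testBit q := beq_mod_two τ q

/-- The array of `2 ^ (n-1)` lanes with the bit `p` of the index fixed to `v`, where the bit `n-1`
takes the place of bit `p`. -/
def fxV (W n p A : ℕ) (v : Bool) : ℕ :=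
  hfV W (Nat.sub n 1) (@Bool.rec (fun _ => ℕ) (swG W n p (Nat.sub n 1) A) A
    (Nat.beq p (Nat.sub n 1))) v

theorem fxV_ar {W n p A : ℕ} {f : (ℕ → Bool) → ℕ} (hW : 0 < W) (hp : p < n + 1)
    (hA : Ar W (n + 1) A f) (v : Bool) :
    Ar W n (fxV W (n + 1) p A v) fun b =>
      f fun r => if r = p then v else if r = n then b p else b r := by
  have e1 : Nat.sub (n + 1) 1 = n := rfl
  by_cases hpn : p = n
  · have e2 : fxV W (n + 1) p A v = hfV W n A v := by
      rw [fxV, e1, hpn, Nat.beq_refl]
    rw [e2]
    refine (hfV_ar hA v).congr fun b => ?_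
    congr 1
    funext r
    unfold upd
    by_cases h1 : r = p
    · rw [if_pos h1, if_pos (h1.trans hpn)]
    · rw [if_neg h1, if_neg (fun h => h1 (h.trans hpn.symm)), if_neg (fun h => h1 (h.trans hpn.symm))]
  · have e2 : Nat.beq p n = false := by
      rw [Bool.eq_false_iff]
      intro h
      exact hpn (Nat.eq_of_beq_eq_true h)
    have e3 : fxV W (n + 1) p A v = hfV W n (swG W (n + 1) p n A) v := by
      rw [fxV, e1, e2]
    rw [e3]
    refine (hfV_ar (swG_ar hW hA (by omega) (by omega)) v).congr fun b => ?_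
    congr 1
    funext r
    rw [Function.comp_apply]
    unfold upd
    by_cases h1 : r = p
    · rw [if_pos h1, h1, Equiv.swap_apply_left, if_pos rfl]
    · rw [if_neg h1]
      by_cases h2 : r = n
      · rw [if_pos h2, h2, Equiv.swap_apply_right, if_neg hpn]
      · rw [if_neg h2, Equiv.swap_apply_of_ne_of_ne h1 h2, if_neg h2]

/-- An instruction of the longer list. -/
def stV (W τ n A k p q : ℕ) : ℕ :=
  @Bool.rec (fun _ => ℕ)
    (@Bool.rec (fun _ => ℕ) (stG W n A k p q)
      (@Bool.rec (fun _ => ℕ) A (flG W n p A) (tbV τ q)) (Nat.beq k 5))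
    (fxV W n p A (tbV τ q)) (Nat.beq k 4)

/-- The number of index bits after an instruction. -/
def snV (n k : ℕ) : ℕ :=
  @Bool.rec (fun _ => ℕ) (@Bool.rec (fun _ => ℕ) n (Nat.succ n) (Nat.beq k 0)) (Nat.sub n 1)
    (Nat.beq k 4)

/-- A program with fixed bits. -/
def rvG (W τ : ℕ) (l : List (ℕ × ℕ × ℕ)) : ℕ → ℕ → ℕ :=
  @List.rec (ℕ × ℕ × ℕ) (fun _ => ℕ → ℕ → ℕ) (fun _ A => A)
    (fun I _ ih n A => @Prod.rec ℕ (ℕ × ℕ) (fun _ => ℕ) (fun k J => @Prod.rec ℕ ℕ (fun _ => ℕ)
      (fun p q => ih (snV n k) (stV W τ n A k p q)) J) I) l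

/-- The number of index bits after an instruction. -/
def n1V (I : ℕ × ℕ × ℕ) (n : ℕ) : ℕ := if I.1 = 4 then n - 1 else if I.1 = 0 then n + 1 else n

/-- The number of index bits after a program. -/
def nvG : List (ℕ × ℕ × ℕ) → ℕ → ℕ
  | [], n => n
  | I :: l, n => nvG l (n1V I n)

/-- Conditions on the instructions. -/
def okV : List (ℕ × ℕ × ℕ) → ℕ → Bool
  | [], _ => true
  | I :: l, n =>
    (if I.1 = 4 then decide (I.2.1 < n)
      else if I.1 = 5 then decide (I.2.1 < n)
      else if I.1 = 0 then decide (I.2.1 ≤ n)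
      else if I.1 = 1 then decide (I.2.1 < I.2.2) && decide (I.2.2 < n)
      else if I.1 = 2 then decide (I.2.1 ≠ I.2.2) && (decide (I.2.1 < n) && decide (I.2.2 < n))
      else decide (I.2.1 < n)) && okV l (n1V I n)

/-- The effect of an instruction on the bits of the index. -/
def s1V (τ : ℕ) (I : ℕ × ℕ × ℕ) (n : ℕ) (b : ℕ → Bool) : ℕ → Bool :=
  if I.1 = 4 then fun r => if r = I.2.1 then τ.testBit I.2.2 else if r = n - 1 then b I.2.1 else b r
  else if I.1 = 5 then upd b I.2.1 (b I.2.1 ^^ τ.testBit I.2.2)
  else seI I n b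

/-- The effect of a program on the bits of the index. -/
def svG (τ : ℕ) : List (ℕ × ℕ × ℕ) → ℕ → (ℕ → Bool) → ℕ → Bool
  | [], _, b => b
  | I :: l, n, b => s1V τ I n (svG τ l (n1V I n) b)

theorem beq_false_of_neV {k j : ℕ} (h : k ≠ j) : Nat.beq k j = false := by
  rw [Bool.eq_false_iff]
  intro h1
  exact h (Nat.eq_of_beq_eq_true h1)

theorem rvG_ar {W τ : ℕ} (hW : 0 < W) (l : List (ℕ × ℕ × ℕ)) :
    ∀ (n A : ℕ) (f : (ℕ → Bool) → ℕ), okV l n = true → Ar W n A f →
    Ar W (nvG l n) (rvG W τ l n A) fun b => f (svG τ l n b) := by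
  induction l with
  | nil => intro n A f _ hA; exact hA
  | cons I l ih =>
    intro n A f hok hA
    obtain ⟨k, p, q⟩ := I
    have e0 : rvG W τ ((k, p, q) :: l) n A = rvG W τ l (snV n k) (stV W τ n A k p q) := rfl
    have e1 : snV n k = n1V (k, p, q) n := by
      unfold snV n1V
      simp only
      by_cases hk4 : k = 4
      · rw [if_pos hk4, hk4]
        rfl
      · rw [if_neg hk4, beq_false_of_neV hk4]
        by_cases hk : k = 0
        · rw [if_pos hk, hk]
          rfl
        · rw [if_neg hk, beq_false_of_neV hk]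
    rw [okV, Bool.and_eq_true] at hok
    obtain ⟨hok1, hok2⟩ := hok
    have h1 : Ar W (n1V (k, p, q) n) (stV W τ n A k p q) fun b => f (s1V τ (k, p, q) n b) := by
      unfold stV s1V n1V
      simp only at hok1 ⊢
      by_cases hk4 : k = 4
      · rw [if_pos hk4] at hok1
        have hp := of_decide_eq_true hok1
        have e2 : Nat.beq k 4 = true := by rw [hk4]; rfl
        simp only [e2, if_pos hk4]
        obtain ⟨m, rfl⟩ : ∃ m, n = m + 1 := ⟨n - 1, by omega⟩
        rw [tbV_eq, Nat.add_sub_cancel]
        exact fxV_ar hW hp hA _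
      · rw [if_neg hk4] at hok1
        simp only [beq_false_of_neV hk4, if_neg hk4]
        by_cases hk5 : k = 5
        · rw [if_pos hk5] at hok1
          have hp := of_decide_eq_true hok1
          have e3 : Nat.beq k 5 = true := by rw [hk5]; rfl
          have e4 : ¬ k = 0 := by omega
          simp only [e3, if_pos hk5, if_neg e4]
          rw [tbV_eq]
          cases τ.testBit q
          · refine hA.congr fun b => ?_
            congr 1
            funext r
            unfold upd
            by_cases h2 : r = p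
            · rw [if_pos h2, Bool.xor_false, h2]
            · rw [if_neg h2]
          · refine (flG_ar hW hA hp).congr fun b => ?_
            rw [Bool.xor_true]
        · rw [if_neg hk5] at hok1
          simp only [beq_false_of_neV hk5, if_neg hk5]
          have h3 := ruG_ar hW [(k, p, q)] n A f (by
            rw [okR, okR, Bool.and_true]
            exact hok1) hA
          exact h3
    rw [e0, e1]
    exact ih _ _ _ hok2 h1

/-! ### The affine forms of the bits -/

/-- The affine form of bit `r` of the index after a program. -/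
def sxG (τ : ℕ) : List (ℕ × ℕ × ℕ) → ℕ → ℕ → ℕ
  | [], _, r => 2 ^ (r + 1)
  | I :: l, n, r =>
    if I.1 = 4 then (if r = I.2.1 then (τ.testBit I.2.2).toNat
      else if r = n - 1 then sxG τ l (n1V I n) I.2.1 else sxG τ l (n1V I n) r)
    else if I.1 = 5 then (if r = I.2.1 then sxG τ l (n1V I n) r ^^^ (τ.testBit I.2.2).toNat
      else sxG τ l (n1V I n) r)
    else if I.1 = 0 then sxG τ l (n1V I n) (if r = I.2.1 then n else r)
    else if I.1 = 1 then
      sxG τ l (n1V I n) (if r = I.2.1 then I.2.2 else if r = I.2.2 then I.2.1 else r)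
    else if I.1 = 2 then (if r = I.2.2 then sxG τ l (n1V I n) r ^^^ sxG τ l (n1V I n) I.2.1
      else sxG τ l (n1V I n) r)
    else (if r = I.2.1 then sxG τ l (n1V I n) r ^^^ 1 else sxG τ l (n1V I n) r)

theorem lf_toNat (N : ℕ) (c : Bool) (b : ℕ → Bool) : lf N c.toNat b = c := by
  cases c
  · have e : (false.toNat) = 0 := rfl
    rw [e]
    induction N with
    | zero => rfl
    | succ N ih => rw [lf, ih]; simp
  · exact lf_one N b

theorem svG_eq (τ N : ℕ) (b : ℕ → Bool) (l : List (ℕ × ℕ × ℕ)) : ∀ n : ℕ, okV l n = true →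
    nvG l n ≤ N → ∀ r < n, svG τ l n b r = lf N (sxG τ l n r) b := by
  induction l with
  | nil =>
    intro n _ hN r hr
    rw [svG, sxG, lf_two_pow]
    have : r < N := lt_of_lt_of_le hr hN
    simp [this]
  | cons I l ih =>
    intro n hok hN r hr
    obtain ⟨k, p, q⟩ := I
    rw [okV, Bool.and_eq_true] at hok
    obtain ⟨hok1, hok2⟩ := hok
    rw [nvG] at hN
    rw [svG, s1V, sxG]
    have ih' := ih _ hok2 hN
    simp only at hok1 hok2 hN ⊢
    by_cases hk4 : k = 4
    · have en : n1V (k, p, q) n = n - 1 := by unfold n1V; simp only; rw [if_pos hk4]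
      simp only [if_pos hk4, decide_eq_true_eq] at hok1 ⊢
      rw [en] at ih' ⊢
      by_cases h1 : r = p
      · rw [if_pos h1, if_pos h1, lf_toNat]
      · rw [if_neg h1, if_neg h1]
        by_cases h2 : r = n - 1
        · rw [if_pos h2, if_pos h2]
          exact ih' p (by omega)
        · rw [if_neg h2, if_neg h2]
          exact ih' r (by omega)
    · simp only [if_neg hk4] at hok1 ⊢
      by_cases hk5 : k = 5
      · have en : n1V (k, p, q) n = n := by
          unfold n1V; simp only; rw [if_neg hk4, if_neg (by omega)]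
        simp only [if_pos hk5, decide_eq_true_eq] at hok1 ⊢
        rw [en] at ih' ⊢
        unfold upd
        by_cases h1 : r = p
        · rw [if_pos h1, if_pos h1, lf_xor, lf_toNat, ← ih' r hr, h1]
        · rw [if_neg h1, if_neg h1]
          exact ih' r hr
      · simp only [if_neg hk5] at hok1 ⊢
        rw [seI]
        by_cases hk0 : k = 0
        · have en : n1V (k, p, q) n = n + 1 := by
            unfold n1V; simp only; rw [if_neg hk4, if_pos hk0]
          simp only [if_pos hk0, decide_eq_true_eq] at hok1 ⊢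
          rw [en] at ih' ⊢
          unfold upd
          by_cases hrp : r = p
          · rw [if_pos hrp, if_pos hrp]
            exact ih' n (by omega)
          · rw [if_neg hrp, if_neg hrp]
            exact ih' r (by omega)
        · have en : n1V (k, p, q) n = n := by
            unfold n1V; simp only; rw [if_neg hk4, if_neg hk0]
          simp only [if_neg hk0] at hok1 ⊢
          rw [en] at ih' ⊢
          by_cases hk1 : k = 1
          · simp only [if_pos hk1, Bool.and_eq_true, decide_eq_true_eq] at hok1 ⊢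
            rw [Function.comp_apply]
            by_cases hrp : r = p
            · rw [hrp, Equiv.swap_apply_left, if_pos rfl]
              exact ih' q hok1.2
            · by_cases hrq : r = q
              · rw [hrq, Equiv.swap_apply_right, if_neg (by omega), if_pos rfl]
                exact ih' p (by omega)
              · rw [Equiv.swap_apply_of_ne_of_ne hrp hrq, if_neg hrp, if_neg hrq]
                exact ih' r hr
          · simp only [if_neg hk1] at hok1 ⊢
            by_cases hk2 : k = 2
            · simp only [if_pos hk2, Bool.and_eq_true, decide_eq_true_eq] at hok1 ⊢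
              unfold upd
              by_cases hrq : r = q
              · rw [if_pos hrq, if_pos hrq, lf_xor, ← ih' r hr, ← ih' p hok1.2.1, hrq]
              · rw [if_neg hrq, if_neg hrq]
                exact ih' r hr
            · simp only [if_neg hk2, decide_eq_true_eq] at hok1 ⊢
              unfold upd
              by_cases hrp : r = p
              · rw [if_pos hrp, if_pos hrp, lf_xor, lf_one, Bool.xor_true, ← ih' r hr, hrp]
              · rw [if_neg hrp, if_neg hrp]
                exact ih' r hr

/-! ### Twenty bits, the last four of them fixed -/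

/-- The twenty bits with the bits of `b` and the four bits of `τ`. -/
def mk20 (τ : ℕ) (b : ℕ → Bool) (i : ℕ) : Bool := if i < 16 then b i else τ.testBit (i - 16)

/-- A form in twenty bits as a form in sixteen bits. -/
def f16 (τ m : ℕ) : ℕ :=
  (m % 2 ^ 17) ^^^ ((((m.testBit 17 && τ.testBit 0) ^^ (m.testBit 18 && τ.testBit 1)) ^^
    (m.testBit 19 && τ.testBit 2)) ^^ (m.testBit 20 && τ.testBit 3)).toNat

theorem lf_mod (N m : ℕ) (b : ℕ → Bool) : lf N (m % 2 ^ (N + 1)) b = lf N m b := by
  have h : ∀ M, N < M → lf N (m % 2 ^ M) b = lf N m b := by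
    intro M
    induction N with
    | zero =>
      intro hM
      rw [lf, lf, Nat.testBit_mod_two_pow, decide_eq_true hM, Bool.true_and]
    | succ N ih =>
      intro hM
      rw [lf, lf, ih (by omega), Nat.testBit_mod_two_pow, decide_eq_true hM, Bool.true_and]
  exact h _ (by omega)

theorem lf_mk20 (τ m : ℕ) (b : ℕ → Bool) : lf 20 m (mk20 τ b) = lf 16 (f16 τ m) b := by
  have h1 : lf 16 m (mk20 τ b) = lf 16 m b := by
    apply lf_congr
    intro i hi
    unfold mk20
    rw [if_pos hi]
  have h2 : lf 20 m (mk20 τ b) = ((((lf 16 m (mk20 τ b) ^^ (m.testBit 17 && τ.testBit 0)) ^^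
      (m.testBit 18 && τ.testBit 1)) ^^ (m.testBit 19 && τ.testBit 2)) ^^
      (m.testBit 20 && τ.testBit 3)) := rfl
  have h3 := lf_mod 16 m b
  rw [h2, h1, f16, lf_xor, lf_toNat, h3]
  cases lf 16 m b <;> cases (m.testBit 17 && τ.testBit 0) <;>
    cases (m.testBit 18 && τ.testBit 1) <;> cases (m.testBit 19 && τ.testBit 2) <;>
    cases (m.testBit 20 && τ.testBit 3) <;> rfl

end Pool.Agent.Lib.MP_afdd4d_co.K8
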