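import Pool.Agent.Lib.MP_afdd4d_co.K8.Red

/-!
# Exchanges of vertices in the lanes

The base is an even 4-graph on the vertices `0, …, 6`, given by its code, and the lanes are the
extensions by the vertex `7`.
-/

namespace Pool.Agent.Lib.MP_afdd4d_co.K8

open Finset

/-! ### Data -/

/-- The index bits of the lanes as bits of the code. -/
def lam : List ℕ := [26, 27, 28, 29, 30, 31, 32, 33, 20, 21, 22, 23, 24, 25, 34]

/-- The lane index bits of the bits `20, …, 34` of the code. -/
def lai : List ℕ := [8, 9, 10, 11, 12, 13, 0, 1, 2, 3, 4, 5, 6, 7, 14]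

/-- The exchanges of vertices. -/
def MVt : List (ℕ × ℕ) := [(1, 5), (2, 5), (3, 5), (4, 5), (1, 6), (2, 6), (3, 6), (4, 6), (5, 6), (0, 6)]

/-- The bits of the base after an exchange. -/
def MVb : List (List (List ℕ)) := [
  [[6], [8], [9], [3], [4], [5], [0], [7], [1], [2], [17], [18], [12], [19], [14], [15], [16],
  [10], [11], [13]],
  [[5], [7], [2], [9], [4], [0], [6], [1], [8], [3], [16], [11], [18], [13], [19], [15], [10],
  [17], [12], [14]],
  [[4], [1], [7], [8], [0], [5], [6], [2], [3], [9], [10], [16], [17], [13], [14], [19], [11],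
  [12], [18], [15]],
  [[0], [4], [5], [6], [1], [2], [3], [7], [8], [9], [10], [11], [12], [16], [17], [18], [13],
  [14], [15], [19]],
  [[12], [14], [15], [3], [17], [18], [6], [19], [8], [9], [10], [11], [0], [13], [1], [2],
  [16], [4], [5], [7]],
  [[11], [13], [2], [15], [16], [5], [18], [7], [19], [9], [10], [0], [12], [1], [14], [3], [4],
  [17], [6], [8]],
  [[10], [1], [13], [14], [4], [16], [17], [7], [8], [19], [0], [11], [12], [2], [3], [15], [5],
  [6], [18], [9]],
  [[0], [10], [11], [12], [4], [5], [6], [16], [17], [18], [1], [2], [3], [13], [14], [15], [7],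
  [8], [9], [19]],
  [[0], [1], [2], [3], [10], [11], [12], [13], [14], [15], [4], [5], [6], [7], [8], [9], [16],
  [17], [18], [19]],
  [[0, 10, 11, 12], [1, 10, 13, 14], [2, 11, 13, 15], [3, 12, 14, 15], [4, 10, 16, 17], [5, 11,
  16, 18], [6, 12, 17, 18], [7, 13, 16, 19], [8, 14, 17, 19], [9, 15, 18, 19], [10], [11], [12],
  [13], [14], [15], [16], [17], [18], [19]]]

/-- The constants of the lanes after an exchange. -/
def MVk : List (List (List ℕ)) := [
  [[], [], [], [], [], [], [], [], [], [], [], [], [], [], []],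
  [[], [], [], [], [], [], [], [], [], [], [], [], [], [], []],
  [[], [], [], [], [], [], [], [], [], [], [], [], [], [], []],
  [[], [], [], [], [], [], [], [], [], [], [], [], [], [], []],
  [[], [], [], [], [], [], [], [], [], [], [], [], [], [], []],
  [[], [], [], [], [], [], [], [], [], [], [], [], [], [], []],
  [[], [], [], [], [], [], [], [], [], [], [], [], [], [], []],
  [[], [], [], [], [], [], [], [], [], [], [], [], [], [], []],
  [[], [], [], [], [], [], [], [], [], [], [], [], [], [], []],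
  [[16], [17], [18], [19], [], [], [], [], [10], [11], [12], [13], [14], [15], []]]

/-- The programs of the exchanges. -/
def MVp : List (List (ℕ × ℕ × ℕ)) := [
  [(1, 1, 8), (1, 2, 9), (1, 3, 11), (1, 4, 14)],
  [(1, 0, 8), (1, 2, 10), (1, 3, 12), (1, 5, 14)],
  [(1, 0, 9), (1, 1, 10), (1, 3, 13), (1, 6, 14)],
  [(1, 0, 11), (1, 1, 12), (1, 2, 13), (1, 7, 14)],
  [(1, 0, 14), (1, 5, 8), (1, 6, 9), (1, 7, 11)],
  [(1, 1, 14), (1, 4, 8), (1, 6, 10), (1, 7, 12)],
  [(1, 2, 14), (1, 4, 9), (1, 5, 10), (1, 7, 13)],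
  [(1, 3, 14), (1, 4, 11), (1, 5, 12), (1, 6, 13)],
  [(1, 0, 4), (1, 1, 5), (1, 2, 6), (1, 3, 7)],
  [(2, 4, 0), (2, 14, 0), (2, 5, 1), (2, 14, 1), (2, 6, 2), (2, 14, 2), (2, 7, 3), (2, 14, 3),
  (2, 4, 8), (2, 5, 8), (2, 4, 9), (2, 6, 9), (2, 5, 10), (2, 6, 10), (2, 4, 11), (2, 7, 11),
  (2, 5, 12), (2, 7, 12), (2, 6, 13), (2, 7, 13)]]

/-- The order of the exchanges and of the terms. -/
def wd : List ℕ := [11, 10, 0, 10, 1, 10, 2, 10, 3, 10, 4, 11, 10, 1, 10, 5, 11, 10, 2, 10, 3, 10, 6, 11, 10, 3, 10, 7, 11, 10, 1, 10, 5, 11, 10, 9, 11, 10, 0, 10, 1, 10, 2, 10, 3, 10, 8, 9, 10]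

/-! ### Sums of bits -/

/-- The sum of the bits in a list. -/
def xl (z : ℕ → Bool) (l : List ℕ) : Bool := l.foldr (fun j a => a ^^ z j) false

/-- The affine form of a list of bits. -/
def fm (l : List ℕ) : ℕ := l.foldr (fun j a => a ^^^ 2 ^ (j + 1)) 0

theorem xl_congr (z z' : ℕ → Bool) (l : List ℕ) (h : ∀ j ∈ l, z j = z' j) : xl z l = xl z' l := by
  induction l with
  | nil => rfl
  | cons a l ih =>
    have e1 : ∀ y : ℕ → Bool, xl y (a :: l) = (xl y l ^^ y a) := fun _ => rfl
    rw [e1, e1, ih fun j hj => h j (List.mem_cons_of_mem _ hj), h a List.mem_cons_self]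

theorem lf_zero (N : ℕ) (z : ℕ → Bool) : lf N 0 z = false := by
  induction N with
  | zero => rfl
  | succ N ih => rw [lf, ih, Nat.zero_testBit]; rfl

theorem lf_fm (N : ℕ) (z : ℕ → Bool) (l : List ℕ) (hl : ∀ j ∈ l, j < N) :
    lf N (fm l) z = xl z l := by
  induction l with
  | nil => exact lf_zero N z
  | cons a l ih =>
    have e1 : fm (a :: l) = fm l ^^^ 2 ^ (a + 1) := rfl
    have e2 : xl z (a :: l) = (xl z l ^^ z a) := rfl
    rw [e1, e2, lf_xor, ih fun j hj => hl j (List.mem_cons_of_mem _ hj), lf_two_pow,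
      decide_eq_true (hl a List.mem_cons_self), Bool.true_and]

/-- The sum of the bits in a list as a number. -/
def xbG (c : ℕ) (l : List ℕ) : ℕ :=
  @List.rec ℕ (fun _ => ℕ) 0 (fun j _ ih => Nat.xor ih (Nat.mod (Nat.shiftRight c j) 2)) l

theorem shr_mod_two (c j : ℕ) : Nat.mod (Nat.shiftRight c j) 2 = (c.testBit j).toNat := by
  rw [Nat.toNat_testBit, ← Nat.shiftRight_eq_div_pow]
  rfl

theorem toNat_xor (a b : Bool) : a.toNat ^^^ b.toNat = (a ^^ b).toNat := by
  cases a <;> cases b <;> rfl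

theorem xbG_eq (c : ℕ) (l : List ℕ) : xbG c l = (xl c.testBit l).toNat := by
  induction l with
  | nil => rfl
  | cons a l ih =>
    have e1 : xbG c (a :: l) = xbG c l ^^^ Nat.mod (Nat.shiftRight c a) 2 := rfl
    have e2 : xl c.testBit (a :: l) = (xl c.testBit l ^^ c.testBit a) := rfl
    rw [e1, e2, ih, shr_mod_two, toNat_xor]

/-- The number whose bits are the sums of the bits in the lists. -/
def cbG (c : ℕ) (L : List (List ℕ)) : ℕ :=
  @List.rec (List ℕ) (fun _ => ℕ) 0 (fun l _ ih => Nat.add (xbG c l) (Nat.mul 2 ih)) L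

theorem cbG_testBit (c : ℕ) (L : List (List ℕ)) : ∀ r : ℕ,
    (cbG c L).testBit r = xl c.testBit (L.getD r []) := by
  induction L with
  | nil =>
    intro r
    have e1 : cbG c [] = 0 := rfl
    rw [e1, Nat.zero_testBit, List.getD_nil]
    rfl
  | cons l L ih =>
    intro r
    have e1 : cbG c (l :: L) = xbG c l + 2 * cbG c L := rfl
    rw [e1, xbG_eq, add_comm]
    cases r with
    | zero =>
      rw [Nat.testBit_zero, List.getD_cons_zero]
      cases xl c.testBit l
      · have : (2 * cbG c L + false.toNat) % 2 = 0 := by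
          simp
        rw [this]; rfl
      · have : (2 * cbG c L + true.toNat) % 2 = 1 := by
          simp [Nat.add_mod]
        rw [this]; rfl
    | succ r =>
      rw [Nat.testBit_succ, List.getD_cons_succ]
      have : (2 * cbG c L + (xl c.testBit l).toNat) / 2 = cbG c L := by
        cases xl c.testBit l
        · simp
        · simp only [Bool.toNat_true]; omega
      rw [this, ih]

theorem cbG_lt (c : ℕ) (L : List (List ℕ)) : cbG c L < 2 ^ L.length := by
  induction L with
  | nil => exact Nat.one_pos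
  | cons l L ih =>
    have e1 : cbG c (l :: L) = xbG c l + 2 * cbG c L := rfl
    rw [e1, xbG_eq, List.length_cons, pow_succ]
    have : (xl c.testBit l).toNat ≤ 1 := Bool.toNat_le _
    omega

/-! ### Codes given by the base and the lane -/

/-- The code with the base `c` and the lane `b`. -/
def mkz (c : ℕ) (b : ℕ → Bool) (i : ℕ) : Bool :=
  if i < 20 then c.testBit i else b (lai.getD (i - 20) 0)

theorem lai_data : ∀ l < 15, 20 ≤ lam.getD l 0 ∧ lam.getD l 0 < 35 ∧
    lai.getD (lam.getD l 0 - 20) 0 = l ∧ lai.getD l 0 < 15 ∧ lam.getD (lai.getD l 0) 0 = l + 20 := by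
  decide +kernel

theorem mkz_lam (c : ℕ) (b : ℕ → Bool) (l : ℕ) (hl : l < 15) : mkz c b (lam.getD l 0) = b l := by
  obtain ⟨h1, h2, h3, _⟩ := lai_data l hl
  rw [mkz, if_neg (by omega), h3]

/-- The form on the code of a form on the lane. -/
def lmG : ℕ → ℕ → ℕ
  | 0, m => (m.testBit 0).toNat
  | n + 1, m => lmG n m ^^^ (if m.testBit (n + 1) = true then 2 ^ (lam.getD n 0 + 1) else 0)

theorem lf_lmG (c : ℕ) (b : ℕ → Bool) (m : ℕ) : ∀ n : ℕ, n ≤ 15 →
    lf 35 (lmG n m) (mkz c b) = lf n m b := by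
  intro n
  induction n with
  | zero =>
    intro _
    rw [lmG, lf]
    cases m.testBit 0
    · exact lf_zero _ _
    · exact lf_one _ _
  | succ n ih =>
    intro hn
    have e1 : lf (n + 1) m b = (lf n m b ^^ (m.testBit (n + 1) && b n)) := rfl
    rw [lmG, e1, lf_xor, ih (by omega)]
    by_cases h : m.testBit (n + 1) = true
    · obtain ⟨h1, h2, _⟩ := lai_data n (by omega)
      rw [if_pos h, h, lf_two_pow, decide_eq_true h2, mkz_lam c b n (by omega)]
    · rw [if_neg h, lf_zero, Bool.eq_false_of_not_eq_true h]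
      simp

/-! ### Exchanges -/

/-- The exchange number `k`. -/
def exK (k : ℕ) : Equiv.Perm (Fin 8) :=
  Equiv.swap (Fin.ofNat 8 (MVt.getD k (0, 0)).1) (Fin.ofNat 8 (MVt.getD k (0, 0)).2)

/-- The form of a bit after the exchange. -/
def mvF (k r : ℕ) : ℕ := exF ((qd 8 r).image (exK k))

/-- The code after the exchange. -/
def mvz (k : ℕ) (z : ℕ → Bool) (r : ℕ) : Bool := lf 35 (mvF k r) z

def mvc (k : ℕ) : Bool :=
  (List.range 20).all (fun r => decide (((qd 8 r).image (exK k)).card = 4) &&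
    (decide (mvF k r = fm ((MVb.getD k []).getD r [])) &&
    ((MVb.getD k []).getD r []).all fun j => decide (j < 20))) &&
  ((List.range 15).all (fun l =>
    decide (((qd 8 (lam.getD l 0)).image (exK k)).card = 4) &&
    (decide (mvF k (lam.getD l 0) = fm ((MVk.getD k []).getD l []) ^^^
      lmG 15 (syG (MVp.getD k []) 15 l)) &&
    ((MVk.getD k []).getD l []).all fun j => decide (j < 20))) &&
  (okR (MVp.getD k []) 15 && (decide (ndG (MVp.getD k []) 15 = 15) &&
    (decide ((MVb.getD k []).length = 20) && decide ((MVk.getD k []).length = 15)))))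

theorem mvc_all : (List.range 10).all mvc = true := by decide +kernel

theorem mvc_data (k : ℕ) (hk : k < 10) :
    (∀ r < 20, ((qd 8 r).image (exK k)).card = 4 ∧ mvF k r = fm ((MVb.getD k []).getD r []) ∧
      ∀ j ∈ (MVb.getD k []).getD r [], j < 20) ∧
    (∀ l < 15, ((qd 8 (lam.getD l 0)).image (exK k)).card = 4 ∧
      mvF k (lam.getD l 0) = fm ((MVk.getD k []).getD l []) ^^^ lmG 15 (syG (MVp.getD k []) 15 l) ∧
      ∀ j ∈ (MVk.getD k []).getD l [], j < 20) ∧
    okR (MVp.getD k []) 15 = true ∧ ndG (MVp.getD k []) 15 = 15 ∧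
    (MVb.getD k []).length = 20 ∧ (MVk.getD k []).length = 15 := by
  have h := mvc_all
  rw [List.all_eq_true] at h
  have h1 := h k (List.mem_range.mpr hk)
  simp only [mvc, Bool.and_eq_true, List.all_eq_true, decide_eq_true_eq, List.mem_range] at h1
  obtain ⟨h2, h3, h4, h5, h6, h7⟩ := h1
  exact ⟨fun r hr => ⟨(h2 r hr).1, (h2 r hr).2.1, (h2 r hr).2.2⟩,
    fun l hl => ⟨(h3 l hl).1, (h3 l hl).2.1, (h3 l hl).2.2⟩, h4, h5, h6, h7⟩

/-- The base after the exchange. -/
def bsG (k c : ℕ) : ℕ := cbG c (MVb.getD k [])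

theorem bsG_lt (k c : ℕ) (hk : k < 10) : bsG k c < 2 ^ 20 := by
  have h := cbG_lt c (MVb.getD k [])
  rw [(mvc_data k hk).2.2.2.2.1] at h
  exact h

/-- The lane after the exchange. -/
def lnb (k c : ℕ) (b : ℕ → Bool) (l : ℕ) : Bool :=
  seG (MVp.getD k []) 15 b l ^^ (cbG c (MVk.getD k [])).testBit l

theorem mvz_mkz (k c : ℕ) (hk : k < 10) (b : ℕ → Bool) : ∀ i < 35,
    mvz k (mkz c b) i = mkz (bsG k c) (lnb k c b) i := by
  obtain ⟨h1, h2, h3, h4, _, _⟩ := mvc_data k hk
  intro i hi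
  by_cases h5 : i < 20
  · obtain ⟨_, h7, h8⟩ := h1 i h5
    rw [mvz, h7, lf_fm 35 _ _ fun j hj => lt_trans (h8 j hj) (by norm_num), mkz, if_pos h5, bsG,
      cbG_testBit]
    apply xl_congr
    intro j hj
    rw [mkz, if_pos (h8 j hj)]
  · obtain ⟨_, _, _, h9, h10⟩ := lai_data (i - 20) (by omega)
    obtain ⟨_, h7, h8⟩ := h2 _ h9
    have h11 : lam.getD (lai.getD (i - 20) 0) 0 = i := by omega
    rw [h11] at h7
    rw [mvz, h7, lf_xor, lf_lmG c b _ 15 le_rfl,
      lf_fm 35 _ _ fun j hj => lt_trans (h8 j hj) (by norm_num), mkz, if_neg h5, lnb,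
      seG_eq 15 b _ 15 h3 (by rw [h4]) _ h9, cbG_testBit, Bool.xor_comm]
    congr 1
    apply xl_congr
    intro j hj
    rw [mkz, if_pos (h8 j hj)]

/-- The array after the exchange. -/
def mvG (W k c A : ℕ) : ℕ := ruG W (MVp.getD k []) 15
  (@Bool.rec (fun _ => ℕ) (xkG W 15 (cbG c (MVk.getD k [])) 15 A) A
    (Nat.beq (cbG c (MVk.getD k [])) 0))

theorem mvG_ar {W k c A : ℕ} {f : (ℕ → Bool) → ℕ} (hW : 0 < W) (hk : k < 10)
    (hA : Ar W 15 A f) : Ar W 15 (mvG W k c A) fun b => f (lnb k c b) := by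
  obtain ⟨_, _, h3, h4, _, _⟩ := mvc_data k hk
  have h1 : Ar W 15 (@Bool.rec (fun _ => ℕ) (xkG W 15 (cbG c (MVk.getD k [])) 15 A) A
      (Nat.beq (cbG c (MVk.getD k [])) 0)) fun b =>
      f fun l => b l ^^ (decide (l < 15) && (cbG c (MVk.getD k [])).testBit l) := by
    by_cases h0 : cbG c (MVk.getD k []) = 0
    · have e1 : Nat.beq (cbG c (MVk.getD k [])) 0 = true := by rw [h0]; rfl
      rw [e1]
      refine hA.congr fun b => ?_
      congr 1
      funext l
      rw [h0, Nat.zero_testBit]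
      simp
    · have e1 : Nat.beq (cbG c (MVk.getD k [])) 0 = false := by
        rw [Bool.eq_false_iff]
        intro h
        exact h0 (Nat.eq_of_beq_eq_true h)
      rw [e1]
      exact xkG_ar hW hA 15 le_rfl
  have h2 := ruG_ar hW (MVp.getD k []) 15 _ _ h3 h1
  rw [h4] at h2
  refine h2.congr fun b => ?_
  apply hA.dep
  intro l hl
  rw [lnb, decide_eq_true hl, Bool.true_and]

end Pool.Agent.Lib.MP_afdd4d_co.K8
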